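import Pool.Agent.Lib.MP_6fc7d9_pr.ClBasic

set_option linter.unusedSectionVars false

namespace Pool.Agent.Lib.MP_6fc7d9_pr
open Finset

variable {ε : Type*} [DecidableEq ε]

/-- van den Berg-Kesten inequality for a monotone relation -/
theorem bk_rel (F : Finset ε) {p : ε → ℝ} (h0 : ∀ e, 0 ≤ p e) (h1 : ∀ e, p e ≤ 1)
    (R : Finset ε → Finset ε → Prop)
    (hR : ∀ S S' T T', S ⊆ S' → T ⊆ T' → R S T → R S' T') :
    Ex F p (fun ω => ind (∃ S T, Disjoint S T ∧ S ⊆ ω ∧ T ⊆ ω ∧ R S T))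
      ≤ Ex F p fun ω₁ => Ex F p fun ω₂ => ind (R ω₁ ω₂) := by
  induction F using Finset.induction_on generalizing R with
  | empty =>
    simp only [Ex_empty]
    refine ind_mono ?_
    rintro ⟨S, T, -, hS, hT, h⟩
    exact hR _ _ _ _ hS hT h
  | insert e F he ih =>
    have a1 := ih (fun S T => R (insert e S) T ∨ R S (insert e T)) (fun S S' T T' hS hT h =>
      h.imp (hR _ _ _ _ (Finset.insert_subset_insert e hS) hT)
        (hR _ _ _ _ hS (Finset.insert_subset_insert e hT)))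
    have a0 := ih R hR
    have b1 : Ex F p (fun ω => ind (∃ S T, Disjoint S T ∧ S ⊆ insert e ω ∧ T ⊆ insert e ω ∧ R S T))
        ≤ Ex F p (fun ω => ind (∃ S T, Disjoint S T ∧ S ⊆ ω ∧ T ⊆ ω ∧
          (R (insert e S) T ∨ R S (insert e T)))) := by
      refine Ex_mono h0 h1 fun ω _ => ind_mono ?_
      rintro ⟨S, T, hd, hS, hT, h⟩
      refine ⟨S.erase e, T.erase e,
        hd.mono (Finset.erase_subset _ _) (Finset.erase_subset _ _),
        Finset.subset_insert_iff.mp hS, Finset.subset_insert_iff.mp hT, ?_⟩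
      by_cases heT : e ∈ T
      · right
        have heS : e ∉ S := fun h' => Finset.disjoint_left.mp hd h' heT
        rw [Finset.erase_eq_of_notMem heS, Finset.insert_erase heT]
        exact h
      · left
        rw [Finset.erase_eq_of_notMem heT]
        exact hR _ _ _ _ (Finset.subset_insert_iff.mpr subset_rfl) subset_rfl h
    rw [Ex_insert he]
    simp only [Ex_insert he, smul_eq_mul]
    refine le_trans (add_le_add (mul_le_mul_of_nonneg_left (b1.trans a1) (h0 e))
      (mul_le_mul_of_nonneg_left a0 (sub_nonneg.mpr (h1 e)))) ?_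
    simp only [← Ex_const_mul, ← Ex_add]
    refine Ex_mono h0 h1 fun ω₁ _ => Ex_mono h0 h1 fun ω₂ _ => ?_
    have hp0 := h0 e
    have hp1 := sub_nonneg.mpr (h1 e)
    have s1 := Finset.subset_insert e ω₁
    have s2 := Finset.subset_insert e ω₂
    by_cases r00 : R ω₁ ω₂
    · have r10 := hR _ _ _ _ s1 subset_rfl r00
      have r01 := hR _ _ _ _ subset_rfl s2 r00
      have r11 := hR _ _ _ _ s1 s2 r00
      rw [ind_pos (Or.inl r10), ind_pos r00, ind_pos r10, ind_pos r01, ind_pos r11]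
      nlinarith
    · by_cases r10 : R (insert e ω₁) ω₂
      · have r11 := hR _ _ _ _ subset_rfl s2 r10
        rw [ind_pos (Or.inl r10), ind_neg r00, ind_pos r10, ind_pos r11]
        nlinarith [mul_nonneg (mul_nonneg hp0 hp1) (ind_nonneg (R ω₁ (insert e ω₂)))]
      · by_cases r01 : R ω₁ (insert e ω₂)
        · have r11 := hR _ _ _ _ s1 subset_rfl r01
          rw [ind_pos (Or.inr r01), ind_neg r00, ind_neg r10, ind_pos r01, ind_pos r11]
          nlinarith
        · rw [ind_neg (not_or.mpr ⟨r10, r01⟩), ind_neg r00, ind_neg r10, ind_neg r01]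
          nlinarith [mul_nonneg (mul_nonneg hp0 hp0) (ind_nonneg (R (insert e ω₁) (insert e ω₂)))]

/-- van den Berg-Kesten inequality -/
theorem bk_prod (F : Finset ε) {p : ε → ℝ} (h0 : ∀ e, 0 ≤ p e) (h1 : ∀ e, p e ≤ 1)
    (A B : Finset ε → Prop) (hA : ∀ S S', S ⊆ S' → A S → A S')
    (hB : ∀ S S', S ⊆ S' → B S → B S') :
    Ex F p (fun ω => ind (∃ S T, Disjoint S T ∧ S ⊆ ω ∧ T ⊆ ω ∧ A S ∧ B T))
      ≤ Ex F p (fun ω => ind (A ω)) * Ex F p fun ω => ind (B ω) := by
  refine (bk_rel F h0 h1 (fun S T => A S ∧ B T)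
    fun S S' T T' hS hT h => ⟨hA _ _ hS h.1, hB _ _ hT h.2⟩).trans (le_of_eq ?_)
  simp only [ind_and, Ex_const_mul, Ex_mul_const]

end Pool.Agent.Lib.MP_6fc7d9_pr
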