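import Pool.Agent.Lib.MP_6fc7d9_pr.BK

set_option linter.unusedSectionVars false

namespace Pool.Agent.Lib.MP_6fc7d9_pr
open Finset

variable {V : Type*} [DecidableEq V]

/-- removing edges that meet another cluster does not change a cluster -/
lemma tight_aux1 {ω S : Finset (Sym2 V)} {U : Finset V} {a b : V} (hab : a ∉ cl ω U {b})
    (hS : ∀ e ∈ S, ∃ u ∈ cl ω U {b}, u ∈ e) : cl ω U {a} ⊆ cl (ω \ S) U {a} := by
  refine cl_subset_of_closed (fun z hz hz' => root_mem_cl _ hz hz') ?_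
  intro u v hu hu' hv he
  refine cl_step hu' hv (Finset.mem_sdiff.mpr ⟨he, fun hs => ?_⟩)
  have hub : u ∉ cl ω U {b} := fun h => hab (cl_trans h (mem_cl_symm hu))
  obtain ⟨z, hz, hze⟩ := hS _ hs
  rcases Sym2.mem_iff.mp hze with rfl | rfl
  · exact hub hz
  · exact hub (cl_step hz (cl_subset _ _ _ hu) (by rwa [Sym2.eq_swap]))

/-- removing one edge at the root splits the cluster into at most two clusters -/
lemma tight_aux2 {ω : Finset (Sym2 V)} {U : Finset V} {x x' : V} (hx : x ∈ U) (hx' : x' ∈ U) :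
    cl ω U {x} ⊆ cl (ω.erase s(x, x')) U {x} ∪ cl (ω.erase s(x, x')) U {x'} := by
  refine cl_subset_of_closed ?_ ?_
  · intro z hz hz'
    exact Finset.mem_union_left _ (root_mem_cl _ hz hz')
  · intro u v _ hu hv he
    by_cases h : s(u, v) = s(x, x')
    · rcases Sym2.eq_iff.mp h with ⟨_, rfl⟩ | ⟨_, rfl⟩
      · exact Finset.mem_union_right _ (self_mem_cl _ hx')
      · exact Finset.mem_union_left _ (self_mem_cl _ hx)
    · have he' : s(u, v) ∈ ω.erase s(x, x') := Finset.mem_erase.mpr ⟨h, he⟩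
      rcases Finset.mem_union.mp hu with hu | hu
      · exact Finset.mem_union_left _ (cl_step hu hv he')
      · exact Finset.mem_union_right _ (cl_step hu hv he')

lemma tight_aux3 {K K₁ K₂ A : Finset V} (h : K ⊆ K₁ ∪ K₂) :
    ((K ∩ A).card : ℝ) ≤ ((K₁ ∩ A).card : ℝ) + ((K₂ ∩ A).card : ℝ) := by
  have h1 : K ∩ A ⊆ K₁ ∩ A ∪ K₂ ∩ A := by
    rw [← Finset.union_inter_distrib_right]
    exact Finset.inter_subset_inter_right h
  exact_mod_cast (Finset.card_le_card h1).trans (Finset.card_union_le _ _)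

/-- Two-part splitting.  Strong induction on `ω.card`, generalizing `x`.
If no edge `s(x,x')`, `x' ∈ U`, lies in `ω` then `cl ω U {x} ⊆ {x}`: take `S = ∅`, `y = x`.
Otherwise let `e = s(x,x') ∈ ω`, `ω' = ω.erase e`, `K = cl ω' U {x}`, `K' = cl ω' U {x'}`;
`cl ω U {x} = K ∪ K'` (and either `K = K'` or they are disjoint).  If the count of `K` is `≥ r`
use the induction hypothesis for `x`; else if the count of `K'` is `≥ r` use it for `x'`;
else the total count is `< 2 r` and we take `y = x`, `S = ω.filter (edges meeting cl ω U {x})`.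
The clause on the edges of `S` guarantees that removing `S` does not affect the other cluster
(`cl_local`). -/
theorem split_two (ω : Finset (Sym2 V)) (U A : Finset V) (x : V) {r : ℝ} (hr : 1 / 2 ≤ r)
    (h : r ≤ ((cl ω U {x} ∩ A).card : ℝ)) :
    ∃ S ⊆ ω, ∃ y, (∀ e ∈ S, ∃ u ∈ cl ω U {x}, u ∈ e) ∧ r ≤ ((cl S U {y} ∩ A).card : ℝ) ∧
      ((cl S U {y} ∩ A).card : ℝ) ≤ 2 * r ∧ cl ω U {x} ⊆ cl S U {y} ∪ cl (ω \ S) U {x} := by
  induction hn : ω.card using Nat.strong_induction_on generalizing ω x with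
  | _ n ih =>
  have hpos : (0 : ℝ) < ((cl ω U {x} ∩ A).card : ℝ) := by linarith
  have hne : (cl ω U {x} ∩ A).Nonempty := Finset.card_pos.mp (by exact_mod_cast hpos)
  obtain ⟨z0, hz0⟩ := hne
  have hx : x ∈ U := root_mem_of_mem_cl (Finset.mem_inter.mp hz0).1
  by_cases hex : ∃ x' ∈ U, s(x, x') ∈ ω
  · obtain ⟨x', hx', he⟩ := hex
    have hlt : (ω.erase s(x, x')).card < n := hn ▸ Finset.card_erase_lt_of_mem he
    have hsub : ω.erase s(x, x') ⊆ ω := Finset.erase_subset _ _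
    have hcov := tight_aux2 (ω := ω) hx hx'
    have hK : cl (ω.erase s(x, x')) U {x} ⊆ cl ω U {x} := cl_mono hsub subset_rfl subset_rfl
    have hx'mem : x' ∈ cl ω U {x} := cl_step (self_mem_cl _ hx) hx' he
    have hK' : cl (ω.erase s(x, x')) U {x'} ⊆ cl ω U {x} :=
      (cl_mono hsub subset_rfl subset_rfl).trans (cl_trans hx'mem)
    have hstep : ∀ S ⊆ ω.erase s(x, x'),
        cl (ω.erase s(x, x') \ S) U {x} ⊆ cl (ω \ S) U {x} ∧
        cl (ω.erase s(x, x') \ S) U {x'} ⊆ cl (ω \ S) U {x} := by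
      intro S hS
      have h1 : ω.erase s(x, x') \ S ⊆ ω \ S := Finset.sdiff_subset_sdiff hsub subset_rfl
      have h2 : x' ∈ cl (ω \ S) U {x} :=
        cl_step (self_mem_cl _ hx) hx' (Finset.mem_sdiff.mpr
          ⟨he, fun h => (Finset.notMem_erase _ _) (hS h)⟩)
      exact ⟨cl_mono h1 subset_rfl subset_rfl,
        (cl_mono h1 subset_rfl subset_rfl).trans (cl_trans h2)⟩
    by_cases h1 : r ≤ ((cl (ω.erase s(x, x')) U {x} ∩ A).card : ℝ)
    · obtain ⟨S, hS, y, e1, e2, e3, e4⟩ := ih _ hlt _ x h1 rfl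
      refine ⟨S, hS.trans hsub, y, fun e he' => ?_, e2, e3, ?_⟩
      · obtain ⟨u, hu, hue⟩ := e1 e he'
        exact ⟨u, hK hu, hue⟩
      · have e5 : cl (ω.erase s(x, x')) U {x} ⊆ cl S U {y} ∪ cl (ω \ S) U {x} :=
          e4.trans (Finset.union_subset_union_right (hstep S hS).1)
        refine hcov.trans (Finset.union_subset e5 ?_)
        by_cases hm : x' ∈ cl (ω.erase s(x, x')) U {x}
        · exact (cl_trans hm).trans e5
        · exact ((tight_aux1 hm e1).trans (hstep S hS).2).trans Finset.subset_union_right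
    · by_cases h2 : r ≤ ((cl (ω.erase s(x, x')) U {x'} ∩ A).card : ℝ)
      · obtain ⟨S, hS, y, e1, e2, e3, e4⟩ := ih _ hlt _ x' h2 rfl
        refine ⟨S, hS.trans hsub, y, fun e he' => ?_, e2, e3, ?_⟩
        · obtain ⟨u, hu, hue⟩ := e1 e he'
          exact ⟨u, hK' hu, hue⟩
        · have e5 : cl (ω.erase s(x, x')) U {x'} ⊆ cl S U {y} ∪ cl (ω \ S) U {x} :=
            e4.trans (Finset.union_subset_union_right (hstep S hS).2)
          refine hcov.trans (Finset.union_subset ?_ e5)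
          by_cases hm : x ∈ cl (ω.erase s(x, x')) U {x'}
          · exact (cl_trans hm).trans e5
          · exact ((tight_aux1 hm e1).trans (hstep S hS).1).trans Finset.subset_union_right
      · classical
        have h3 := tight_aux3 (A := A) hcov
        have h4 : cl (ω.filter fun e => ∃ u ∈ cl ω U {x}, u ∈ e) U {x} = cl ω U {x} :=
          cl_local fun u hu v _ => ⟨fun h => Finset.mem_filter.mpr
            ⟨h, u, hu, Sym2.mem_mk_left _ _⟩, fun h => (Finset.mem_filter.mp h).1⟩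
        refine ⟨ω.filter fun e => ∃ u ∈ cl ω U {x}, u ∈ e, Finset.filter_subset _ _, x,
          fun e he' => (Finset.mem_filter.mp he').2, ?_, ?_, ?_⟩
        · rw [h4]; exact h
        · rw [h4]; linarith
        · rw [h4]; exact Finset.subset_union_left
  · have h1 : cl ω U {x} ⊆ {x} := by
      refine cl_subset_of_closed (fun z hz _ => hz) ?_
      intro u v _ hu hv he
      rw [Finset.mem_singleton.mp hu] at he
      exact absurd ⟨v, hv, he⟩ hex
    have h2 : cl (∅ : Finset (Sym2 V)) U {x} = {x} := by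
      rw [cl_empty_config, Finset.singleton_inter_of_mem hx]
    have h3 : ((cl ω U {x} ∩ A).card : ℝ) ≤ (({x} ∩ A : Finset V).card : ℝ) := by
      exact_mod_cast Finset.card_le_card (Finset.inter_subset_inter_right h1)
    have h4 : (({x} ∩ A : Finset V).card : ℝ) ≤ 1 := by
      exact_mod_cast (Finset.card_le_card Finset.inter_subset_left).trans
        (Finset.card_singleton x).le
    refine ⟨∅, Finset.empty_subset _, x, fun e he => absurd he (Finset.notMem_empty _), ?_, ?_, ?_⟩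
    · rw [h2]; linarith
    · rw [h2]; linarith
    · rw [h2]; exact h1.trans Finset.subset_union_left

lemma tight_aux4 {U A : Finset V} (s : ℝ) (S S' : Finset (Sym2 V)) (h : S ⊆ S')
    (hb : ∃ z, s ≤ ((cl S U {z} ∩ A).card : ℝ)) : ∃ z, s ≤ ((cl S' U {z} ∩ A).card : ℝ) := by
  obtain ⟨z, hz⟩ := hb
  refine ⟨z, hz.trans ?_⟩
  exact_mod_cast Finset.card_le_card
    (Finset.inter_subset_inter_right (cl_mono h subset_rfl subset_rfl))

lemma tight_aux5 {w : Sym2 V → ℝ} (hw : ∀ e, 0 ≤ w e) (U A : Finset V) {r : ℝ} (hr : 1 / 2 ≤ r)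
    (h2 : 2 * ∑ a ∈ A, ∑ b ∈ A, tau w U a b ≤ r ^ 2) :
    Ex U.sym2 (pw w) (fun ω => ind (∃ z, r ≤ ((cl ω U {z} ∩ A).card : ℝ))) ≤ 1 / 2 := by
  have hr0 : 0 < r := by linarith
  have e1 : Ex U.sym2 (pw w) (fun ω => ∑ a ∈ A, ∑ b ∈ A, ind (b ∈ cl ω U {a}))
      = ∑ a ∈ A, ∑ b ∈ A, tau w U a b := by
    rw [Ex_sum]
    refine Finset.sum_congr rfl fun a _ => ?_
    rw [Ex_sum]
    rfl
  have e2 : Ex U.sym2 (pw w) (fun ω => r ^ 2 * ind (∃ z, r ≤ ((cl ω U {z} ∩ A).card : ℝ)))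
      ≤ Ex U.sym2 (pw w) (fun ω => ∑ a ∈ A, ∑ b ∈ A, ind (b ∈ cl ω U {a})) := by
    refine Ex_mono (pw_nonneg hw) (pw_le_one w) fun ω _ => ?_
    by_cases hb : ∃ z, r ≤ ((cl ω U {z} ∩ A).card : ℝ)
    · rw [ind_pos hb, mul_one]
      obtain ⟨z, hz⟩ := hb
      calc r ^ 2 ≤ ((cl ω U {z} ∩ A).card : ℝ) * ((cl ω U {z} ∩ A).card : ℝ) := by
            rw [sq]; exact mul_le_mul hz hz hr0.le (hr0.le.trans hz)
        _ = ∑ a ∈ cl ω U {z} ∩ A, ∑ b ∈ A, ind (b ∈ cl ω U {a}) := by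
            rw [Finset.sum_congr rfl (g := fun _ => ((cl ω U {z} ∩ A).card : ℝ))]
            · simp
            · intro a ha
              rw [cl_eq_of_mem (Finset.mem_inter.mp ha).1, sum_ind_mem, Finset.inter_comm]
        _ ≤ _ := Finset.sum_le_sum_of_subset_of_nonneg Finset.inter_subset_right
            fun a _ _ => Finset.sum_nonneg fun b _ => ind_nonneg _
    · rw [ind_neg hb, mul_zero]
      exact Finset.sum_nonneg fun a _ => Finset.sum_nonneg fun b _ => ind_nonneg _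
  rw [Ex_const_mul, e1] at e2
  have hr2 : 0 < r ^ 2 := by positivity
  nlinarith

lemma tight_aux6 {w : Sym2 V → ℝ} (hw : ∀ e, 0 ≤ w e) (U A : Finset V) {r : ℝ} (hr : 1 / 2 ≤ r)
    (h2 : 2 * ∑ a ∈ A, ∑ b ∈ A, tau w U a b ≤ r ^ 2) (k : ℕ) :
    Ex U.sym2 (pw w) (fun ω => ind (∃ z, 2 * k * r ≤ ((cl ω U {z} ∩ A).card : ℝ)))
      ≤ (1 / 2) ^ k := by
  induction k with
  | zero => exact Ex_le_const (pw_nonneg hw) (pw_le_one w) fun ω _ => by simpa using ind_le_one _
  | succ k ih =>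
    have hr0 : 0 < r := by linarith
    have hk : (0 : ℝ) ≤ k := Nat.cast_nonneg k
    have hbk := bk_prod U.sym2 (pw_nonneg hw) (pw_le_one w)
      (fun ω => ∃ z, r ≤ ((cl ω U {z} ∩ A).card : ℝ))
      (fun ω => ∃ z, 2 * k * r ≤ ((cl ω U {z} ∩ A).card : ℝ))
      (tight_aux4 r) (tight_aux4 (2 * k * r))
    refine le_trans (Ex_mono (pw_nonneg hw) (pw_le_one w) fun ω _ => ind_mono ?_) (hbk.trans ?_)
    · rintro ⟨z, hz⟩
      push_cast at hz
      obtain ⟨S, hS, y, -, e2, e3, e4⟩ := split_two ω U A z hr (by nlinarith)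
      have e5 := tight_aux3 (A := A) e4
      exact ⟨S, ω \ S, Finset.disjoint_sdiff, hS, Finset.sdiff_subset, ⟨y, e2⟩, z, by nlinarith⟩
    · rw [pow_succ']
      exact mul_le_mul (tight_aux5 hw U A hr h2) ih
        (Ex_nonneg (pw_nonneg hw) (pw_le_one w) fun ω _ => ind_nonneg _) (by norm_num)

/-- Universal tightness.  Let `Big s ω := ∃ z, s ≤ card (cl ω U {z} ∩ A)` (monotone in `ω`).
Markov: on `Big r ω` with witness `z`, `r^2 ≤ ∑ a ∈ A, ∑ b ∈ A, ind (b ∈ cl ω U {a})` (restrict to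
`a, b` in `cl ω U {z} ∩ A`, `cl_eq_of_mem`), so `P(Big r) ≤ 1/2` by `h2`.  By `split_two` and
`bk_prod`, `P(Big (2(k+1)r)) ≤ P(Big r) * P(Big (2kr))`; induct on `k`. -/
theorem tight {w : Sym2 V → ℝ} (hw : ∀ e, 0 ≤ w e) (U A : Finset V) {r : ℝ} (hr : 1 / 2 ≤ r)
    (h2 : 2 * ∑ a ∈ A, ∑ b ∈ A, tau w U a b ≤ r ^ 2) (k : ℕ) (x : V) :
    EK w U {x} (fun K => ind (2 * k * r ≤ ((K ∩ A).card : ℝ))) ≤ (1 / 2) ^ k := by
  refine le_trans ?_ (tight_aux6 hw U A hr h2 k)
  exact Ex_mono (pw_nonneg hw) (pw_le_one w) fun ω _ => ind_mono fun h => ⟨x, h⟩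

end Pool.Agent.Lib.MP_6fc7d9_pr
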