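import Pool.Agent.Lib.MP_6fc7d9_pr.BK

set_option linter.unusedSectionVars false

namespace Pool.Agent.Lib.MP_6fc7d9_pr
open Finset

variable {V : Type*} [DecidableEq V]

lemma tree_exists_edge {ω : Finset (Sym2 V)} {U : Finset V} {x y : V} (hy : y ∈ cl ω U {x})
    (hne : y ≠ x) : ∃ x' ∈ U, s(x, x') ∈ ω := by
  by_contra hcon
  have hsub : cl ω U {x} ⊆ {x} := by
    refine cl_subset_of_closed (fun _ hx _ => hx) ?_
    intro u v _ hu hv he
    rw [Finset.mem_singleton.mp hu] at he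
    exact absurd ⟨v, hv, he⟩ hcon
  exact hne (Finset.mem_singleton.mp (hsub hy))

lemma tree_subset_union (ω : Finset (Sym2 V)) (U : Finset V) (x x' : V) :
    cl ω U {x} ⊆ cl (ω.erase s(x, x')) U {x} ∪ cl (ω.erase s(x, x')) U {x'} := by
  refine cl_subset_of_closed ?_ ?_
  · intro a ha ha'
    exact Finset.mem_union_left _ (root_mem_cl _ ha ha')
  · intro u v _ hu hv he
    by_cases h : s(u, v) = s(x, x')
    · rcases Sym2.eq_iff.mp h with ⟨_, h2⟩ | ⟨_, h2⟩
      · rw [h2] at hv ⊢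
        exact Finset.mem_union_right _ (self_mem_cl _ hv)
      · rw [h2] at hv ⊢
        exact Finset.mem_union_left _ (self_mem_cl _ hv)
    · have he' : s(u, v) ∈ ω.erase s(x, x') := Finset.mem_erase.mpr ⟨h, he⟩
      rcases Finset.mem_union.mp hu with hu | hu
      · exact Finset.mem_union_left _ (cl_step hu hv he')
      · exact Finset.mem_union_right _ (cl_step hu hv he')

lemma tree_mixed {ω : Finset (Sym2 V)} {U : Finset V} {x x' y z : V} (hx : x ∈ U) (hx' : x' ∈ U)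
    (he : s(x, x') ∈ ω) (hy : y ∈ cl (ω.erase s(x, x')) U {x})
    (hz : z ∈ cl (ω.erase s(x, x')) U {x'}) (hz' : z ∉ cl (ω.erase s(x, x')) U {x}) :
    ∃ S₁ S₂, Disjoint S₁ S₂ ∧ S₁ ⊆ ω ∧ S₂ ⊆ ω ∧ y ∈ cl S₁ U {x} ∧ z ∈ cl S₂ U {x} := by
  classical
  set ω' := ω.erase s(x, x') with hω'
  set K := cl ω' U {x} with hK
  refine ⟨ω'.filter fun e => ∃ u ∈ K, u ∈ e, ω \ ω'.filter fun e => ∃ u ∈ K, u ∈ e,
    Finset.disjoint_sdiff, (Finset.filter_subset _ _).trans (Finset.erase_subset _ _),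
    Finset.sdiff_subset, ?_, ?_⟩
  · have h1 : cl (ω'.filter fun e => ∃ u ∈ K, u ∈ e) U {x} = K := by
      refine cl_local fun u hu v _ => ?_
      rw [Finset.mem_filter]
      exact ⟨fun h => ⟨h, u, hu, Sym2.mem_mk_left _ _⟩, fun h => h.1⟩
    rw [h1]; exact hy
  · have hdis : ∀ a, a ∈ cl ω' U {x'} → a ∉ K := by
      intro a ha haK
      apply hz'
      rw [hK, ← cl_eq_of_mem haK, cl_eq_of_mem ha]
      exact hz
    have hsub : cl ω' U {x'} ⊆ cl (ω \ ω'.filter fun e => ∃ u ∈ K, u ∈ e) U {x} := by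
      refine cl_subset_of_closed ?_ ?_
      · intro a ha _
        rw [Finset.mem_singleton.mp ha]
        refine cl_step (self_mem_cl _ hx) hx' (Finset.mem_sdiff.mpr ⟨he, fun h => ?_⟩)
        exact Finset.notMem_erase _ _ (Finset.mem_filter.mp h).1
      · intro u v hu hu' hv huv
        refine cl_step hu' hv (Finset.mem_sdiff.mpr ⟨Finset.mem_of_mem_erase huv, fun h => ?_⟩)
        obtain ⟨a, haK, ha⟩ := (Finset.mem_filter.mp h).2
        rcases Sym2.mem_iff.mp ha with rfl | rfl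
        · exact hdis _ hu haK
        · exact hdis _ (cl_step hu hv huv) haK
    exact hsub hz

/-- Three-point splitting.  Strong induction on `ω.card`, generalizing `x`.
If `y = x` take `v = x`, `S₀ = S₁ = ∅`, `S₂ = ω` (similarly `z = x`).  Otherwise some edge
`e = s(x,x')` with `x' ∈ U` lies in `ω`; put `ω' = ω.erase e`; then
`cl ω U {x} ⊆ cl ω' U {x} ∪ cl ω' U {x'}` (`cl_subset_of_closed`).  If `y, z` are both in
`cl ω' U {x}` use the induction hypothesis; if both are in `cl ω' U {x'}` use it for `x'` and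
insert `e` into `S₀`; otherwise, say `y ∈ cl ω' U {x} =: K`, `z ∈ cl ω' U {x'}`, `z ∉ K`, hence
`x' ∉ K`: take `v = x`, `S₀ = ∅`, `S₁ = ω'.filter (edges meeting K)`, `S₂ = ω \ S₁`
(`cl_local` shows `cl S₁ U {x} = K`, and that the cluster of `x'` in `ω'` only uses edges not
meeting `K`, because the two clusters are disjoint: `cl_eq_of_mem`). -/
theorem split_three (ω : Finset (Sym2 V)) (U : Finset V) (x y z : V) (hy : y ∈ cl ω U {x})
    (hz : z ∈ cl ω U {x}) :
    ∃ v ∈ U, ∃ S₀ T, Disjoint S₀ T ∧ S₀ ⊆ ω ∧ T ⊆ ω ∧ v ∈ cl S₀ U {x} ∧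
      ∃ S₁ S₂, Disjoint S₁ S₂ ∧ S₁ ⊆ T ∧ S₂ ⊆ T ∧ y ∈ cl S₁ U {v} ∧ z ∈ cl S₂ U {v} := by
  induction ω using Finset.strongInduction generalizing x with
  | H ω ih =>
    have hx : x ∈ U := root_mem_of_mem_cl hy
    by_cases hyx : y = x
    · refine ⟨x, hx, ∅, ω, Finset.disjoint_empty_left _, Finset.empty_subset _, subset_rfl,
        self_mem_cl _ hx, ∅, ω, Finset.disjoint_empty_left _, Finset.empty_subset _, subset_rfl,
        ?_, hz⟩
      rw [hyx]; exact self_mem_cl _ hx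
    obtain ⟨x', hx', he⟩ := tree_exists_edge hy hyx
    have hss : ω.erase s(x, x') ⊂ ω := Finset.erase_ssubset he
    have hsub : ω.erase s(x, x') ⊆ ω := Finset.erase_subset _ _
    by_cases hy1 : y ∈ cl (ω.erase s(x, x')) U {x}
    · by_cases hz1 : z ∈ cl (ω.erase s(x, x')) U {x}
      · obtain ⟨v, hv, S₀, T, h1, h2, h3, h4⟩ := ih _ hss x hy1 hz1
        exact ⟨v, hv, S₀, T, h1, h2.trans hsub, h3.trans hsub, h4⟩
      · have hz2 := (Finset.mem_union.mp (tree_subset_union ω U x x' hz)).resolve_left hz1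
        exact ⟨x, hx, ∅, ω, Finset.disjoint_empty_left _, Finset.empty_subset _, subset_rfl,
          self_mem_cl _ hx, tree_mixed hx hx' he hy1 hz2 hz1⟩
    · have hy2 := (Finset.mem_union.mp (tree_subset_union ω U x x' hy)).resolve_left hy1
      by_cases hz1 : z ∈ cl (ω.erase s(x, x')) U {x}
      · obtain ⟨S₁, S₂, h1, h2, h3, h4, h5⟩ := tree_mixed hx hx' he hz1 hy2 hy1
        exact ⟨x, hx, ∅, ω, Finset.disjoint_empty_left _, Finset.empty_subset _, subset_rfl,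
          self_mem_cl _ hx, S₂, S₁, h1.symm, h3, h2, h5, h4⟩
      · have hz2 := (Finset.mem_union.mp (tree_subset_union ω U x x' hz)).resolve_left hz1
        obtain ⟨v, hv, S₀, T, h1, h2, h3, h4, h5⟩ := ih _ hss x' hy2 hz2
        refine ⟨v, hv, insert s(x, x') S₀, T, ?_, ?_, h3.trans hsub, ?_, h5⟩
        · rw [Finset.disjoint_insert_left]
          exact ⟨fun h => Finset.notMem_erase _ _ (h3 h), h1⟩
        · exact Finset.insert_subset he (h2.trans hsub)
        · have h6 : x' ∈ cl (insert s(x, x') S₀) U {x} :=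
            cl_step (self_mem_cl _ hx) hx' (Finset.mem_insert_self _ _)
          exact cl_trans h6 (cl_mono (Finset.subset_insert _ _) subset_rfl subset_rfl h4)

lemma tree_two_point {w : Sym2 V → ℝ} (hw : ∀ e, 0 ≤ w e) (U : Finset V) (x y z : V) :
    EK w U {x} (fun K => ind (y ∈ K) * ind (z ∈ K))
      ≤ ∑ v ∈ U, tau w U x v * (tau w U v y * tau w U v z) := by
  have h0 := pw_nonneg hw
  have h1 := pw_le_one w
  have hmono : ∀ (a b : V) (S S' : Finset (Sym2 V)), S ⊆ S' → b ∈ cl S U {a} → b ∈ cl S' U {a} :=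
    fun a b S S' h hb => cl_mono h subset_rfl subset_rfl hb
  calc EK w U {x} (fun K => ind (y ∈ K) * ind (z ∈ K))
      ≤ Ex U.sym2 (pw w) (fun ω => ∑ v ∈ U, ind (∃ S₀ T, Disjoint S₀ T ∧ S₀ ⊆ ω ∧ T ⊆ ω ∧
          v ∈ cl S₀ U {x} ∧ ∃ S₁ S₂, Disjoint S₁ S₂ ∧ S₁ ⊆ T ∧ S₂ ⊆ T ∧ y ∈ cl S₁ U {v} ∧
            z ∈ cl S₂ U {v})) := by
        refine Ex_mono h0 h1 fun ω _ => ?_
        show ind (y ∈ cl ω U {x}) * ind (z ∈ cl ω U {x}) ≤ _
        rw [← ind_and]
        by_cases h : y ∈ cl ω U {x} ∧ z ∈ cl ω U {x}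
        · obtain ⟨v, hv, hh⟩ := split_three ω U x y z h.1 h.2
          rw [ind_pos h]
          refine le_trans (le_of_eq (ind_pos hh).symm) ?_
          exact Finset.single_le_sum (f := fun v => ind (∃ S₀ T, Disjoint S₀ T ∧ S₀ ⊆ ω ∧ T ⊆ ω ∧
            v ∈ cl S₀ U {x} ∧ ∃ S₁ S₂, Disjoint S₁ S₂ ∧ S₁ ⊆ T ∧ S₂ ⊆ T ∧ y ∈ cl S₁ U {v} ∧
              z ∈ cl S₂ U {v})) (fun _ _ => ind_nonneg _) hv
        · rw [ind_neg h]
          exact Finset.sum_nonneg fun _ _ => ind_nonneg _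
    _ ≤ _ := by
        rw [Ex_sum]
        refine Finset.sum_le_sum fun v _ => ?_
        refine (bk_prod U.sym2 h0 h1 (fun S => v ∈ cl S U {x})
          (fun T => ∃ S₁ S₂, Disjoint S₁ S₂ ∧ S₁ ⊆ T ∧ S₂ ⊆ T ∧ y ∈ cl S₁ U {v} ∧
            z ∈ cl S₂ U {v}) (hmono x v) ?_).trans ?_
        · rintro T T' hT ⟨S₁, S₂, a1, a2, a3, a4⟩
          exact ⟨S₁, S₂, a1, a2.trans hT, a3.trans hT, a4⟩
        · exact mul_le_mul_of_nonneg_left
            (bk_prod U.sym2 h0 h1 (fun S => y ∈ cl S U {v}) (fun S => z ∈ cl S U {v})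
              (hmono v y) (hmono v z)) (tau_nonneg hw U x v)

/-- Tree-graph bound: `|K|^2 = ∑ y z ∈ U, ind (y ∈ K ∧ z ∈ K)`, by `split_three` and `bk_prod`
twice `P(y, z ∈ K) ≤ ∑ v ∈ U, tau x v * tau v y * tau v z`; sum with `chi_eq_sum_tau`. -/
theorem second_moment {w : Sym2 V → ℝ} (hw : ∀ e, 0 ≤ w e) (U : Finset V) (x : V) {X : ℝ}
    (hX : ∀ y, chi w U y ≤ X) : EK w U {x} (fun K => (K.card : ℝ) ^ 2) ≤ X ^ 3 := by
  have hX0 : 0 ≤ X := (chi_nonneg hw U x).trans (hX x)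
  calc EK w U {x} (fun K => (K.card : ℝ) ^ 2)
      = EK w U {x} (fun K => ∑ y ∈ U, ∑ z ∈ U, ind (y ∈ K) * ind (z ∈ K)) := by
        refine EK_congr fun K hK => ?_
        rw [← Finset.sum_mul_sum, sum_ind_mem, Finset.inter_eq_right.mpr hK, sq]
    _ = ∑ y ∈ U, ∑ z ∈ U, EK w U {x} (fun K => ind (y ∈ K) * ind (z ∈ K)) := by
        rw [EK_sum]
        exact Finset.sum_congr rfl fun y _ => EK_sum _ _ _ _ _
    _ ≤ ∑ y ∈ U, ∑ z ∈ U, ∑ v ∈ U, tau w U x v * (tau w U v y * tau w U v z) :=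
        Finset.sum_le_sum fun y _ => Finset.sum_le_sum fun z _ => tree_two_point hw U x y z
    _ = ∑ v ∈ U, tau w U x v * (chi w U v * chi w U v) := by
        have e1 : ∀ v, tau w U x v * (chi w U v * chi w U v)
            = ∑ y ∈ U, ∑ z ∈ U, tau w U x v * (tau w U v y * tau w U v z) := by
          intro v
          rw [chi_eq_sum_tau, Finset.sum_mul_sum, Finset.mul_sum]
          exact Finset.sum_congr rfl fun y _ => Finset.mul_sum _ _ _
        simp only [e1]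
        rw [Finset.sum_comm (s := U) (t := U)
          (f := fun v y => ∑ z ∈ U, tau w U x v * (tau w U v y * tau w U v z))]
        exact Finset.sum_congr rfl fun y _ => Finset.sum_comm
    _ ≤ ∑ v ∈ U, tau w U x v * (X * X) :=
        Finset.sum_le_sum fun v _ => mul_le_mul_of_nonneg_left
          (mul_le_mul (hX v) (hX v) (chi_nonneg hw U v) hX0) (tau_nonneg hw U x v)
    _ = chi w U x * (X * X) := by rw [← Finset.sum_mul, chi_eq_sum_tau]
    _ ≤ X * (X * X) := mul_le_mul_of_nonneg_right (hX x) (mul_nonneg hX0 hX0)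
    _ = X ^ 3 := by ring

end Pool.Agent.Lib.MP_6fc7d9_pr
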