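import Pool.Agent.Lib.MP_6fc7d9_pr.Local
import Pool.Agent.Lib.MP_6fc7d9_pr.Tree
import Pool.Agent.Lib.MP_6fc7d9_pr.Tight

set_option linter.unusedSectionVars false

namespace Pool.Agent.Lib.MP_6fc7d9_pr
open Finset

lemma bad_aux1 (c n : ℝ) (hc : 0 ≤ c) (hn : 0 < n) (Q : Prop) :
    c * ind Q ≤ n * ind Q + n⁻¹ * c ^ 2 := by
  by_cases hQ : Q
  · rw [ind_pos hQ, mul_one, mul_one]
    have h1 : n⁻¹ * c ^ 2 = c ^ 2 / n := by ring
    rw [h1, ← sub_le_iff_le_add', le_div_iff₀ hn]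
    nlinarith [sq_nonneg (c - n), mul_nonneg hc hn.le]
  · rw [ind_neg hQ, mul_zero, mul_zero, zero_add]
    positivity

lemma bad_aux2 {V : Type*} [DecidableEq V] {w : Sym2 V → ℝ} (hw : ∀ e, 0 ≤ w e) (U R : Finset V)
    {n Z p : ℝ} (hn : 0 < n) (Q : Finset V → Prop)
    (h2 : EK w U R (fun K => (K.card : ℝ) ^ 2) ≤ Z) (hp : EK w U R (fun K => ind (Q K)) ≤ p) :
    EK w U R (fun K => (K.card : ℝ) * ind (Q K)) ≤ n * p + n⁻¹ * Z := by
  refine (EK_mono hw R fun K _ => bad_aux1 (K.card : ℝ) n (Nat.cast_nonneg _) hn (Q K)).trans ?_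
  rw [EK_add, EK_const_mul, EK_const_mul]
  exact add_le_add (mul_le_mul_of_nonneg_left hp hn.le)
    (mul_le_mul_of_nonneg_left h2 (inv_nonneg.mpr hn.le))

lemma bad_aux3 {Γ : Type} [AddCommGroup Γ] [Fintype Γ] [DecidableEq Γ] {q ρ D c₀ : ℝ} {M : ℕ}
    (S : Setup Γ q ρ D c₀ M) {m L : ℝ} (hm : 0 ≤ m) (hL : 0 ≤ L) (j : ℕ) (K : Finset Γ) :
    ind (¬ S.Sparse m j L K) ≤ ∑ i ∈ range (j + 1), ∑ z ∈ K,
      ind (L * m ^ i ≤ (((K.map (addRightEmbedding (-z))) ∩ S.Λ (i + 1)).card : ℝ)) := by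
  by_cases h : S.Sparse m j L K
  · rw [ind_neg (not_not.mpr h)]
    exact sum_nonneg fun i _ => sum_nonneg fun z _ => ind_nonneg _
  · rw [ind_pos h]
    unfold Setup.Sparse at h
    push Not at h
    obtain ⟨i, hi, y, hy⟩ := h
    have h0 : (0 : ℝ) < ((K.filter fun b => b - y ∈ S.Λ i).card : ℝ) :=
      lt_of_le_of_lt (mul_nonneg hL (pow_nonneg hm i)) hy
    obtain ⟨z, hz⟩ := card_pos.mp (Nat.cast_pos.mp h0)
    obtain ⟨hzK, hzy⟩ := mem_filter.mp hz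
    have h1 : (K.filter fun b => b - y ∈ S.Λ i).map (addRightEmbedding (-z)) ⊆
        (K.map (addRightEmbedding (-z))) ∩ S.Λ (i + 1) := by
      intro x hx
      obtain ⟨b, hb, rfl⟩ := mem_map.mp hx
      obtain ⟨hbK, hby⟩ := mem_filter.mp hb
      refine mem_inter.mpr ⟨mem_map_of_mem _ hbK, ?_⟩
      have := S.sub_mem hby hzy
      rwa [show b - y - (z - y) = addRightEmbedding (-z) b by
        simp only [addRightEmbedding_apply]; abel] at this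
    have h2 : L * m ^ i ≤ (((K.map (addRightEmbedding (-z))) ∩ S.Λ (i + 1)).card : ℝ) := by
      refine hy.le.trans ?_
      have := card_le_card h1
      rw [card_map] at this
      exact_mod_cast this
    calc (1 : ℝ) = ind (L * m ^ i ≤ (((K.map (addRightEmbedding (-z))) ∩ S.Λ (i + 1)).card : ℝ)) :=
          (ind_pos h2).symm
      _ ≤ ∑ z ∈ K,
          ind (L * m ^ i ≤ (((K.map (addRightEmbedding (-z))) ∩ S.Λ (i + 1)).card : ℝ)) :=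
          single_le_sum (f := fun z => ind (L * m ^ i ≤
            (((K.map (addRightEmbedding (-z))) ∩ S.Λ (i + 1)).card : ℝ)))
            (fun _ _ => ind_nonneg _) hzK
      _ ≤ _ := single_le_sum (f := fun i => ∑ z ∈ K, ind (L * m ^ i ≤
            (((K.map (addRightEmbedding (-z))) ∩ S.Λ (i + 1)).card : ℝ)))
            (fun _ _ => sum_nonneg fun _ _ => ind_nonneg _) (mem_range.mpr (by omega))

lemma bad_aux4 {Γ : Type} [AddCommGroup Γ] [Fintype Γ] [DecidableEq Γ] {q ρ D c₀ : ℝ} {M : ℕ}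
    (S : Setup Γ q ρ D c₀ M) {w : Sym2 Γ → ℝ} (hw0 : ∀ e, 0 ≤ w e) (hw : Inv w) (i : ℕ) {B : ℝ}
    (hB : ∑ y ∈ S.Λ (i + 2), tau w univ 0 y ≤ B) :
    ∑ a ∈ S.Λ (i + 1), ∑ b ∈ S.Λ (i + 1), tau w univ a b ≤ D * ρ ^ (i + 1) * B := by
  have hB0 : 0 ≤ B := (sum_nonneg fun y _ => tau_nonneg hw0 _ _ _).trans hB
  have h1 : ∀ a ∈ S.Λ (i + 1), ∑ b ∈ S.Λ (i + 1), tau w univ a b ≤ B := by
    intro a ha
    refine le_trans ?_ hB
    have h2 : ∑ b ∈ S.Λ (i + 1), tau w univ a b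
        = ∑ y ∈ (S.Λ (i + 1)).map (addRightEmbedding (-a)), tau w univ 0 y := by
      rw [sum_map]
      refine sum_congr rfl fun b _ => ?_
      rw [tau_shift hw, addRightEmbedding_apply, sub_eq_add_neg]
    rw [h2]
    refine sum_le_sum_of_subset_of_nonneg ?_ fun y _ _ => tau_nonneg hw0 _ _ _
    intro x hx
    obtain ⟨b, hb, rfl⟩ := mem_map.mp hx
    have := S.sub_mem hb ha
    rwa [sub_eq_add_neg] at this
  refine (sum_le_sum h1).trans ?_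
  rw [sum_const, nsmul_eq_mul]
  exact mul_le_mul_of_nonneg_right (S.card_le _) hB0

/-- Clusters are sparse up to an exponentially small error.  Let `w = S.Wt j t ≤ S.W (j+1)`.
(1) For `i ≤ j`, `∑ a b ∈ Λ (i+1), tau w univ a b ≤ |Λ (i+1)| * ∑ y ∈ Λ (i+2), tau w univ 0 y
 ≤ D ρ A₁ (ρ q)^i ≤ A₂ m^(2i)` (`tau_shift`, `S.sub_mem`, `tau_mono`, `local_bound`); with
`A₃ = A₂ + 1`, `r = A₃ m^i ≥ 1`, `tight` gives `P(E i) ≤ 2^(-k)` for
`E i = {2 k r ≤ |K ∩ Λ (i+1)|}`.  Put `L = 2 k A₃`, `k = k₀ (j+1)`, `L₀ = 2 k₀ A₃`.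
(2) If `K` is not `L`-sparse there are `i ≤ j`, `y`, and `z ∈ K` with `z - y ∈ Λ i` and then
`K.map (· - z)` satisfies `E i`.  So `ind bad ≤ ∑ i ≤ j, ∑ z ∈ K, ind (E i (K.map (addRightEmbedding (-z))))`
and by `mass_transport`, `P(bad) ≤ ∑ i ≤ j, EK (|K| * ind (E i))`.
(3) For any event `Q` and `n > 0`: `|K| * ind Q ≤ n * ind Q + |K|^2 / n`.  With
`Z = z^(j+1)`, `z = max 2 ((A q)^3)`: `EK |K|^2 ≤ (A q^(j+1))^3 ≤ Z` (`second_moment`,
`chi_le_univ`), `j + 1 ≤ 2^(j+1) ≤ Z`; use `n = Z^5` inside and `n = Z^2` outside: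
the total is at most `Z^8 2^(-k) + 2/Z ≤ 3/Z` once `2^k₀ ≥ z^9`. -/
theorem chi_bad {q ρ D c₀ : ℝ} (hP : Par q ρ D c₀) {A : ℝ} (hA : 1 ≤ A) {m : ℝ} (hm0 : 0 ≤ m)
    (hm : ρ * q ≤ m ^ 2) :
    ∃ L₀ : ℝ, 1 ≤ L₀ ∧ ∀ (Γ : Type) [AddCommGroup Γ] [Fintype Γ] [DecidableEq Γ] (M : ℕ)
      (S : Setup Γ q ρ D c₀ M), (∀ j ≤ M, chi (S.W j) univ 0 ≤ A * q ^ j) →
        ∀ j < M, ∀ t ∈ Set.Icc (0 : ℝ) 1,
          EK (S.Wt j t) univ {0} (fun K => (K.card : ℝ) * ind (¬ S.Sparse m j (L₀ * (j + 1)) K))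
            ≤ 3 * (1 / 2) ^ j := by
  obtain ⟨A₁, hA₁, hloc⟩ := local_bound hP hA
  have hq := hP.hq
  have hρ := hP.h2
  have hD := hP.hD
  have hq0 := hP.q_pos
  have hρ0 := hP.ρ_pos
  have hm1 : 1 ≤ m := by
    by_contra h
    push Not at h
    nlinarith
  set A₂ := D * ρ * A₁ with hA₂
  have hA₂0 : 0 ≤ A₂ := by positivity
  set A₃ := A₂ + 1 with hA₃
  set z : ℝ := max 2 ((A * q) ^ 3) with hz
  have hz2 : 2 ≤ z := le_max_left _ _
  have hz3 : (A * q) ^ 3 ≤ z := le_max_right _ _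
  obtain ⟨k₁, hk₁⟩ := pow_unbounded_of_one_lt (z ^ 9) (by norm_num : (1 : ℝ) < 2)
  set k₀ := k₁ + 1 with hk₀
  have hk₀' : z ^ 9 ≤ 2 ^ k₀ := hk₁.le.trans (pow_le_pow_right₀ (by norm_num) (by omega))
  have hk₀1 : (1 : ℝ) ≤ k₀ := by exact_mod_cast (by omega : 1 ≤ k₀)
  refine ⟨2 * k₀ * A₃, by nlinarith, ?_⟩
  intro Γ _ _ _ M S hchi j hj t ht
  set w := S.Wt j t with hwdef
  have hw0 : ∀ e, 0 ≤ w e := S.Wt_nonneg j ht.1
  have hwI : Inv w := S.Wt_inv j t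
  have hwW : ∀ e, w e ≤ S.W (j + 1) e := S.Wt_le_W j ht.2
  set Z : ℝ := z ^ (j + 1) with hZ
  have hZ2 : 2 ^ (j + 1) ≤ Z := pow_le_pow_left₀ (by norm_num) hz2 _
  have hZ0 : 0 < Z := by positivity
  have hZj : ((j + 1 : ℕ) : ℝ) ≤ Z := by
    refine le_trans ?_ hZ2
    exact_mod_cast (Nat.lt_two_pow_self (n := j + 1)).le
  have hsec : EK w univ {0} (fun K => (K.card : ℝ) ^ 2) ≤ Z := by
    refine (second_moment hw0 univ 0 (X := A * q ^ (j + 1)) fun y => ?_).trans ?_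
    · exact (chi_le_univ hw0 hwI _ _).trans
        ((chi_mono hw0 hwW subset_rfl 0).trans (hchi (j + 1) hj))
    · calc (A * q ^ (j + 1)) ^ 3 ≤ (A ^ (j + 1) * q ^ (j + 1)) ^ 3 := by
            refine pow_le_pow_left₀ (by positivity) ?_ 3
            exact mul_le_mul_of_nonneg_right (le_self_pow₀ hA (by omega)) (by positivity)
        _ = ((A * q) ^ 3) ^ (j + 1) := by rw [← mul_pow, ← pow_mul, ← pow_mul, mul_comm 3]
        _ ≤ Z := pow_le_pow_left₀ (by positivity) hz3 _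
  set k := k₀ * (j + 1) with hk
  set L : ℝ := 2 * k₀ * A₃ * (j + 1) with hL
  have hL0 : 0 ≤ L := by positivity
  have hhalf : (1 / 2 : ℝ) ^ k ≤ (Z ^ 9)⁻¹ := by
    rw [one_div, inv_pow]
    refine inv_anti₀ (by positivity) ?_
    rw [hZ, ← pow_mul, mul_comm, pow_mul, hk, pow_mul]
    exact pow_le_pow_left₀ (by positivity) hk₀' _
  have htight : ∀ i ≤ j, EK w univ {0}
      (fun K => ind (L * m ^ i ≤ ((K ∩ S.Λ (i + 1)).card : ℝ))) ≤ (Z ^ 9)⁻¹ := by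
    intro i hi
    have hmi : 1 ≤ m ^ i := one_le_pow₀ hm1
    have h1 : ∑ y ∈ S.Λ (i + 2), tau w univ 0 y ≤ A₁ * q ^ i :=
      (sum_le_sum fun y _ => tau_mono hw0 hwW subset_rfl 0 y).trans
        (hloc Γ M S hchi i (j + 1) (by omega) hj)
    have h2 := bad_aux4 S hw0 hwI i h1
    have h3 : D * ρ ^ (i + 1) * (A₁ * q ^ i) ≤ A₂ * (m ^ i) ^ 2 := by
      calc D * ρ ^ (i + 1) * (A₁ * q ^ i) = A₂ * (ρ * q) ^ i := by rw [hA₂, mul_pow]; ring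
        _ ≤ A₂ * (m ^ 2) ^ i :=
            mul_le_mul_of_nonneg_left (pow_le_pow_left₀ (by positivity) hm i) hA₂0
        _ = _ := by rw [← pow_mul, ← pow_mul, mul_comm 2]
    have h4 := tight hw0 univ (S.Λ (i + 1)) (r := A₃ * m ^ i) (by nlinarith) (by
      have h5 : 2 * A₂ ≤ A₃ ^ 2 := by rw [hA₃]; nlinarith
      have h6 : 0 ≤ (m ^ i) ^ 2 := by positivity
      rw [mul_pow]
      nlinarith) k 0
    have h7 : 2 * (k : ℝ) * (A₃ * m ^ i) = L * m ^ i := by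
      rw [hk, hL]; push_cast; ring
    rw [h7] at h4
    exact h4.trans hhalf
  have hbad : EK w univ {0} (fun K => ind (¬ S.Sparse m j L K))
      ≤ Z * (Z ^ 5 * (Z ^ 9)⁻¹ + (Z ^ 5)⁻¹ * Z) := by
    refine (EK_mono hw0 _ fun K _ => bad_aux3 S hm0 hL0 j K).trans ?_
    rw [EK_sum]
    have h1 : ∀ i ∈ range (j + 1), EK w univ {0} (fun K => ∑ z ∈ K,
        ind (L * m ^ i ≤ (((K.map (addRightEmbedding (-z))) ∩ S.Λ (i + 1)).card : ℝ)))
        ≤ Z ^ 5 * (Z ^ 9)⁻¹ + (Z ^ 5)⁻¹ * Z := by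
      intro i hi
      rw [mass_transport hwI (fun K => ind (L * m ^ i ≤ ((K ∩ S.Λ (i + 1)).card : ℝ)))]
      exact bad_aux2 hw0 _ _ (by positivity) _ hsec (htight i (by
        have := mem_range.mp hi
        omega))
    refine (sum_le_sum h1).trans ?_
    rw [sum_const, card_range, nsmul_eq_mul]
    exact mul_le_mul_of_nonneg_right hZj (by positivity)
  refine (bad_aux2 hw0 _ _ (n := Z ^ 2) (by positivity) _ hsec hbad).trans ?_
  have h1 : Z ^ 2 * (Z * (Z ^ 5 * (Z ^ 9)⁻¹ + (Z ^ 5)⁻¹ * Z)) + (Z ^ 2)⁻¹ * Z = 3 * Z⁻¹ := by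
    field_simp; ring
  rw [h1]
  refine mul_le_mul_of_nonneg_left ?_ (by norm_num)
  rw [one_div, inv_pow]
  refine inv_anti₀ (by positivity) (le_trans ?_ hZ2)
  exact pow_le_pow_right₀ (by norm_num) (by omega)

end Pool.Agent.Lib.MP_6fc7d9_pr
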