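import Pool.Agent.Lib.MP_6fc7d9_pr.ClBasic

set_option linter.unusedSectionVars false

namespace Pool.Agent.Lib.MP_6fc7d9_pr
open Finset

variable {V : Type*} [DecidableEq V] {E : Type*} [NormedAddCommGroup E] [NormedSpace ℝ E]

lemma ode_pw (w κ : Sym2 V → ℝ) (e : Sym2 V) (t : ℝ) :
    HasDerivAt (fun s : ℝ => pw (w + s • κ) e) (κ e * (1 - pw (w + t • κ) e)) t := by
  have h1 : HasDerivAt (fun s : ℝ => -(w e + s * κ e)) (-κ e) t := by
    have := (((hasDerivAt_id t).mul_const (κ e)).const_add (w e)).neg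
    rw [one_mul] at this
    exact this
  have h2 := (h1.exp).const_sub 1
  have e1 : (fun s : ℝ => pw (w + s • κ) e) = fun s : ℝ => 1 - Real.exp (-(w e + s * κ e)) := by
    funext s
    simp [pw]
  rw [e1]
  refine h2.congr_deriv ?_
  simp only [pw, Pi.add_apply, Pi.smul_apply, smul_eq_mul]
  ring

/-- Russo formula. Induction on `F` with `Ex_insert` (generalizing `f`), or directly.
With `p = pw (w + s • κ)` one has `p' e = κ e * (1 - p e)`; for `e ∉ F`,
`Ex (insert e F) p (fun ω => f (insert e ω) - f ω) = (1 - p e) • (Ex F p (f ∘ insert e) - Ex F p f)`,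
and for `e' ∈ F` use `Finset.insert_comm`. -/
theorem hasDerivAt_Ex (F : Finset (Sym2 V)) (w κ : Sym2 V → ℝ) (f : Finset (Sym2 V) → E) (t : ℝ) :
    HasDerivAt (fun s : ℝ => Ex F (pw (w + s • κ)) f)
      (∑ e ∈ F, κ e • Ex F (pw (w + t • κ)) fun ω => f (insert e ω) - f ω) t := by
  induction F using Finset.induction_on generalizing f with
  | empty =>
    simp only [Ex_empty, Finset.sum_empty]
    exact hasDerivAt_const _ _
  | insert e F he ih =>
    have e1 : (fun s : ℝ => Ex (insert e F) (pw (w + s • κ)) f)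
        = fun s : ℝ => pw (w + s • κ) e • Ex F (pw (w + s • κ)) (fun ω => f (insert e ω))
          + (1 - pw (w + s • κ) e) • Ex F (pw (w + s • κ)) f := by
      funext s
      exact Ex_insert he _ _
    rw [e1]
    have hp := ode_pw w κ e t
    have hA := ih (fun ω => f (insert e ω))
    have hB := ih f
    have hd := (hp.smul hA).add ((hp.const_sub 1).smul hB)
    refine HasDerivAt.congr_deriv hd (Eq.symm ?_)
    rw [Finset.sum_insert he]
    have e2 : Ex (insert e F) (pw (w + t • κ)) (fun ω => f (insert e ω) - f ω)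
        = (1 - pw (w + t • κ) e) • (Ex F (pw (w + t • κ)) (fun ω => f (insert e ω))
          - Ex F (pw (w + t • κ)) f) := by
      rw [Ex_insert he]
      simp only [Finset.insert_idem, sub_self, Ex_zero, smul_zero, zero_add]
      rw [Ex_sub]
    have e3 : ∑ e' ∈ F, κ e' • Ex (insert e F) (pw (w + t • κ)) (fun ω => f (insert e' ω) - f ω)
        = pw (w + t • κ) e • (∑ e' ∈ F, κ e' • Ex F (pw (w + t • κ))
            fun ω => f (insert e (insert e' ω)) - f (insert e ω))
          + (1 - pw (w + t • κ) e) • ∑ e' ∈ F, κ e' • Ex F (pw (w + t • κ))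
            fun ω => f (insert e' ω) - f ω := by
      rw [Finset.smul_sum, Finset.smul_sum, ← Finset.sum_add_distrib]
      refine Finset.sum_congr rfl fun e' _ => ?_
      rw [Ex_insert he, smul_add, smul_comm (κ e'), smul_comm (κ e')]
      simp only [Finset.insert_comm e' e]
    rw [e2, e3]
    module

/-- adding an edge leaving the cluster glues the cluster of the outer endpoint in the complement.
Use `cl_subset_of_closed` for both inclusions. -/
theorem cl_insert_of_mem {ω : Finset (Sym2 V)} {U R : Finset V} {u v : V} (hu : u ∈ cl ω U R)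
    (hv : v ∈ U \ cl ω U R) :
    cl (insert s(u, v) ω) U R = cl ω U R ∪ cl ω (U \ cl ω U R) {v} := by
  have hvU : v ∈ U := (Finset.mem_sdiff.mp hv).1
  have hvv : v ∈ cl ω (U \ cl ω U R) {v} := self_mem_cl ω hv
  apply Finset.Subset.antisymm
  · refine cl_subset_of_closed (fun x hx hx' => Finset.mem_union_left _ (root_mem_cl _ hx hx')) ?_
    intro a b _ ha hb he
    by_cases hbK : b ∈ cl ω U R
    · exact Finset.mem_union_left _ hbK
    refine Finset.mem_union_right _ ?_
    rcases Finset.mem_insert.mp he with he | he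
    · rcases Sym2.eq_iff.mp he with ⟨_, rfl⟩ | ⟨_, rfl⟩
      · exact hvv
      · exact absurd hu hbK
    · rcases Finset.mem_union.mp ha with ha | ha
      · exact absurd (cl_step ha hb he) hbK
      · exact cl_step ha (Finset.mem_sdiff.mpr ⟨hb, hbK⟩) he
  · have h1 : cl ω U R ⊆ cl (insert s(u, v) ω) U R :=
      cl_mono (Finset.subset_insert _ _) subset_rfl subset_rfl
    refine Finset.union_subset h1 ?_
    have h2 : v ∈ cl (insert s(u, v) ω) U R := cl_step (h1 hu) hvU (Finset.mem_insert_self _ _)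
    exact (cl_mono (Finset.subset_insert _ _) Finset.sdiff_subset subset_rfl).trans (cl_trans h2)

/-- adding an edge with both endpoints inside or both outside the cluster changes nothing -/
theorem cl_insert_of_iff {ω : Finset (Sym2 V)} {U R : Finset V} {u v : V}
    (h : u ∈ cl ω U R ↔ v ∈ cl ω U R) : cl (insert s(u, v) ω) U R = cl ω U R := by
  apply Finset.Subset.antisymm
  · refine cl_subset_of_closed (fun x hx hx' => root_mem_cl _ hx hx') ?_
    intro a b _ ha hb he
    rcases Finset.mem_insert.mp he with he | he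
    · rcases Sym2.eq_iff.mp he with ⟨rfl, rfl⟩ | ⟨rfl, rfl⟩
      · exact h.mp ha
      · exact h.mpr ha
    · exact cl_step ha hb he
  · exact cl_mono (Finset.subset_insert _ _) subset_rfl subset_rfl

/-- a sum over unordered pairs supported on the pairs crossing `K` -/
lemma ode_sum_cross {U K : Finset V} (hK : K ⊆ U) (g : Sym2 V → E)
    (hg : ∀ u v, (u ∈ K ↔ v ∈ K) → g s(u, v) = 0) :
    ∑ e ∈ U.sym2, g e = ∑ u ∈ K, ∑ v ∈ U \ K, g s(u, v) := by
  rw [← Finset.sum_product']
  have hinj : Set.InjOn (fun p : V × V => s(p.1, p.2)) ((K ×ˢ (U \ K) : Finset (V × V)) : Set _) := by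
    intro p hp q hq h
    have hp' := Finset.mem_product.mp (Finset.mem_coe.mp hp)
    have hq' := Finset.mem_product.mp (Finset.mem_coe.mp hq)
    rcases Sym2.eq_iff.mp h with ⟨h1, h2⟩ | ⟨h1, h2⟩
    · exact Prod.ext h1 h2
    · exact absurd (h1 ▸ hp'.1) (Finset.mem_sdiff.mp hq'.2).2
  rw [← Finset.sum_image (f := g) hinj]
  symm
  refine Finset.sum_subset ?_ ?_
  · intro e he
    obtain ⟨p, hp, rfl⟩ := Finset.mem_image.mp he
    have hp' := Finset.mem_product.mp hp
    exact Finset.mk_mem_sym2_iff.mpr ⟨hK hp'.1, (Finset.mem_sdiff.mp hp'.2).1⟩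
  · intro e he hne
    induction e using Sym2.ind with
    | h u v =>
      have huv := Finset.mk_mem_sym2_iff.mp he
      refine hg u v ⟨fun hu => ?_, fun hv => ?_⟩
      · by_contra hv
        exact hne (Finset.mem_image.mpr ⟨(u, v), Finset.mem_product.mpr
          ⟨hu, Finset.mem_sdiff.mpr ⟨huv.2, hv⟩⟩, rfl⟩)
      · by_contra hu
        exact hne (Finset.mem_image.mpr ⟨(v, u), Finset.mem_product.mpr
          ⟨hv, Finset.mem_sdiff.mpr ⟨huv.1, hu⟩⟩, Sym2.eq_swap⟩)

lemma ode_pointwise (κ : Sym2 V → ℝ) (U R : Finset V) (φ : V → E) (ω : Finset (Sym2 V)) :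
    ∑ e ∈ U.sym2, κ e • (∑ y ∈ cl (insert e ω) U R, φ y - ∑ y ∈ cl ω U R, φ y)
      = ∑ u ∈ cl ω U R, ∑ v ∈ U \ cl ω U R,
          κ s(u, v) • ∑ y ∈ cl ω (U \ cl ω U R) {v}, φ y := by
  rw [ode_sum_cross (cl_subset ω U R)]
  · refine Finset.sum_congr rfl fun u hu => Finset.sum_congr rfl fun v hv => ?_
    have hd : Disjoint (cl ω U R) (cl ω (U \ cl ω U R) {v}) :=
      Finset.disjoint_of_subset_right (cl_subset _ _ _) Finset.disjoint_sdiff
    rw [cl_insert_of_mem hu hv, Finset.sum_union hd, add_sub_cancel_left]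
  · intro u v h
    rw [cl_insert_of_iff h, sub_self, smul_zero]

/-- The differential equation for additive cluster functionals.
From `hasDerivAt_Ex` with `F = U.sym2`: for fixed `ω` with `K = cl ω U R`,
`∑ e ∈ U.sym2, κ e • (f (insert e ω) - f ω) = ∑ u ∈ K, ∑ v ∈ U \ K, κ s(u,v) • ∑ y ∈ cl ω (U \ K) {v}, φ y`
(only edges with exactly one endpoint in `K` contribute; they are the injective image of
`K ×ˢ (U \ K)` under `(u,v) ↦ s(u,v)`; the union in `cl_insert_of_mem` is disjoint).
Then apply `Ex_markov` with `I = 1` and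
`H C ω = ∑ u ∈ C, ∑ v ∈ U \ C, κ s(u,v) • ∑ y ∈ cl ω (U \ C) {v}, φ y` (use `cl_congr`), and
`EK_eq_Ex` with `(U \ C).sym2 ⊆ U.sym2`. -/
theorem hasDerivAt_GG (w κ : Sym2 V → ℝ) (U R : Finset V) (φ : V → E) (t : ℝ) :
    HasDerivAt (fun s : ℝ => GG (w + s • κ) U R φ)
      (EK (w + t • κ) U R fun K =>
        ∑ u ∈ K, ∑ v ∈ U \ K, κ s(u, v) • GG (w + t • κ) (U \ K) {v} φ) t := by
  have h := hasDerivAt_Ex U.sym2 w κ (fun ω => ∑ y ∈ cl ω U R, φ y) t
  refine HasDerivAt.congr_deriv h (Eq.symm ?_)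
  simp only [← Ex_smul]
  rw [← Ex_sum]
  simp only [ode_pointwise]
  have hm := Ex_markov U.sym2 (pw (w + t • κ)) U R (fun _ _ => (1 : ℝ))
    (fun C ω => ∑ u ∈ C, ∑ v ∈ U \ C, κ s(u, v) • ∑ y ∈ cl ω (U \ C) {v}, φ y)
    (fun _ _ _ _ => rfl) (by
      intro C ω ω' hω
      refine Finset.sum_congr rfl fun u _ => Finset.sum_congr rfl fun v _ => ?_
      rw [cl_congr (ω := ω) (ω' := ω') {v} fun a ha b hb =>
        hω a (Finset.mem_sdiff.mp ha).2 b (Finset.mem_sdiff.mp hb).2])
  simp only [one_smul] at hm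
  rw [hm]
  refine Ex_congr fun ω _ => ?_
  rw [Ex_sum]
  refine Finset.sum_congr rfl fun u _ => ?_
  rw [Ex_sum]
  refine Finset.sum_congr rfl fun v _ => ?_
  rw [Ex_smul, GG, EK_eq_Ex _ (Finset.sym2_mono Finset.sdiff_subset)]

end Pool.Agent.Lib.MP_6fc7d9_pr
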