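import Pool.Agent.Lib.MP_6fc7d9_pr.ClBasic

set_option linter.unusedSectionVars false

namespace Pool.Agent.Lib.MP_6fc7d9_pr
open Finset

variable {V : Type*} [DecidableEq V] {E : Type*} [NormedAddCommGroup E] [NormedSpace ℝ E]

/-- if `b` is in the cluster of `v`, the cluster splits as the cluster `C` of `v` in the domain
without `b`, and the cluster of `b` in the complement of `C` (disjoint, since the second one lies
in `U \ C`).  Note `C = ∅` when `v = b` (`cl_of_notMem`). -/
theorem cl_split {ω : Finset (Sym2 V)} {U : Finset V} {v b : V} (h : b ∈ cl ω U {v}) :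
    cl ω U {v} = cl ω (U.erase b) {v} ∪ cl ω (U \ cl ω (U.erase b) {v}) {b} := by
  have hbU : b ∈ U := cl_subset _ _ _ h
  have hbC : b ∉ cl ω (U.erase b) {v} := fun hb => Finset.notMem_erase b U (cl_subset _ _ _ hb)
  have hbb : b ∈ cl ω (U \ cl ω (U.erase b) {v}) {b} :=
    self_mem_cl ω (Finset.mem_sdiff.mpr ⟨hbU, hbC⟩)
  apply Finset.Subset.antisymm
  · refine cl_subset_of_closed ?_ ?_
    · intro x hx hx'
      rw [Finset.mem_singleton.mp hx] at hx' ⊢
      by_cases hvb : v = b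
      · exact Finset.mem_union_right _ (hvb ▸ hbb)
      · exact Finset.mem_union_left _ (self_mem_cl ω (Finset.mem_erase.mpr ⟨hvb, hx'⟩))
    · intro a c _ ha hc he
      by_cases hcC : c ∈ cl ω (U.erase b) {v}
      · exact Finset.mem_union_left _ hcC
      refine Finset.mem_union_right _ ?_
      by_cases hcb : c = b
      · exact hcb ▸ hbb
      rcases Finset.mem_union.mp ha with ha | ha
      · exact absurd (cl_step ha (Finset.mem_erase.mpr ⟨hcb, hc⟩) he) hcC
      · exact cl_step ha (Finset.mem_sdiff.mpr ⟨hc, hcC⟩) he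
  · exact Finset.union_subset (cl_mono subset_rfl (Finset.erase_subset _ _) subset_rfl)
      ((cl_mono subset_rfl Finset.sdiff_subset subset_rfl).trans (cl_trans h))

theorem cl_erase_of_notMem {ω : Finset (Sym2 V)} {U : Finset V} {v b : V} (h : b ∉ cl ω U {v}) :
    cl ω (U.erase b) {v} = cl ω U {v} := by
  apply Finset.Subset.antisymm (cl_mono subset_rfl (Finset.erase_subset _ _) subset_rfl)
  refine cl_subset_of_closed ?_ ?_
  · intro x hx hx'
    refine root_mem_cl _ hx (Finset.mem_erase.mpr ⟨?_, hx'⟩)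
    rintro rfl
    exact h (root_mem_cl _ hx hx')
  · intro a c ha' ha hc he
    refine cl_step ha (Finset.mem_erase.mpr ⟨?_, hc⟩) he
    rintro rfl
    exact h (cl_step ha' hc he)

/-- `b` is in the cluster of `v` iff `b = v` or `b` is joined to the cluster avoiding `b` -/
theorem mem_cl_iff_erase {ω : Finset (Sym2 V)} {U : Finset V} {v b : V} (hb : b ∈ U) :
    b ∈ cl ω U {v} ↔ b = v ∨ ∃ u ∈ cl ω (U.erase b) {v}, s(u, b) ∈ ω := by
  constructor
  · intro h
    by_contra hne
    have hne1 : b ≠ v := fun h => hne (Or.inl h)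
    have hsub : cl ω U {v} ⊆ cl ω (U.erase b) {v} := by
      refine cl_subset_of_closed ?_ ?_
      · intro x hx hx'
        refine root_mem_cl _ hx (Finset.mem_erase.mpr ⟨?_, hx'⟩)
        rw [Finset.mem_singleton.mp hx]
        exact hne1.symm
      · intro a c _ ha hc he
        refine cl_step ha (Finset.mem_erase.mpr ⟨?_, hc⟩) he
        rintro rfl
        exact hne (Or.inr ⟨a, ha, he⟩)
    exact Finset.notMem_erase b U (cl_subset _ _ _ (hsub h))
  · rintro (rfl | ⟨u, hu, he⟩)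
    · exact self_mem_cl ω hb
    · exact cl_step (cl_mono subset_rfl (Finset.erase_subset _ _) subset_rfl hu) hb he

/-- One telescoping step.  In the ambient set `U.sym2` (`EK_eq_Ex`), the difference is
`Ex (fun ω => I C ω • ∑ y ∈ cl ω (U \ C) {b}, φ y)` with `C = cl ω (U.erase b) {v}` and
`I C ω = ind (b = v ∨ ∃ u ∈ C, s(u,b) ∈ ω)`; apply `Ex_markov` (domain `U.erase b`), then
`norm_Ex_le`, and `H C ≤ H (cl ω U {v})` by `cl_mono`.  If `b ∉ U` both sides are trivial. -/
theorem telescope_one {w : Sym2 V → ℝ} (hw : ∀ e, 0 ≤ w e) (U : Finset V) (v b : V) (φ : V → E)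
    (H : Finset V → ℝ) (hH : Monotone H) (hH0 : ∀ C, 0 ≤ H C)
    (hG : ∀ C : Finset V, ‖GG w (U \ C) {b} φ‖ ≤ H C) :
    ‖GG w U {v} φ - GG w (U.erase b) {v} φ‖ ≤ EK w U {v} fun K => ind (b ∈ K) * H K := by
  by_cases hb : b ∈ U
  swap
  · rw [Finset.erase_eq_of_notMem hb, sub_self, norm_zero]
    exact EK_nonneg hw _ fun K _ => mul_nonneg (ind_nonneg _) (hH0 K)
  have e1 : GG w U {v} φ - GG w (U.erase b) {v} φ
      = Ex U.sym2 (pw w) fun ω =>
          ind (b = v ∨ ∃ u ∈ cl ω (U.erase b) {v}, s(u, b) ∈ ω)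
            • ∑ y ∈ cl ω (U \ cl ω (U.erase b) {v}) {b}, φ y := by
    rw [GG, GG, EK_eq_Ex w (Finset.sym2_mono (Finset.erase_subset b U)), EK, ← Ex_sub]
    refine Ex_congr fun ω _ => ?_
    rw [← ind_congr (mem_cl_iff_erase hb)]
    by_cases h : b ∈ cl ω U {v}
    · have hd : Disjoint (cl ω (U.erase b) {v}) (cl ω (U \ cl ω (U.erase b) {v}) {b}) :=
        Finset.disjoint_of_subset_right (cl_subset _ _ _) Finset.disjoint_sdiff
      rw [ind_pos h, one_smul]
      conv_lhs => rw [cl_split h]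
      rw [Finset.sum_union hd, add_sub_cancel_left]
    · rw [ind_neg h, zero_smul, cl_erase_of_notMem h, sub_self]
  have hm := Ex_markov U.sym2 (pw w) (U.erase b) {v}
    (fun C ω => ind (b = v ∨ ∃ u ∈ C, s(u, b) ∈ ω))
    (fun C ω => ∑ y ∈ cl ω (U \ C) {b}, φ y)
    (by
      intro C ω ω' hω
      refine ind_congr (or_congr_right ?_)
      exact ⟨fun ⟨u, hu, he⟩ => ⟨u, hu, (hω u hu b).mp he⟩,
        fun ⟨u, hu, he⟩ => ⟨u, hu, (hω u hu b).mpr he⟩⟩)
    (by
      intro C ω ω' hω
      rw [cl_congr (ω := ω) (ω' := ω') {b} fun a ha c hc =>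
        hω a (Finset.mem_sdiff.mp ha).2 c (Finset.mem_sdiff.mp hc).2])
  rw [e1, hm]
  refine norm_Ex_le (pw_nonneg hw) (pw_le_one w) fun ω _ => ?_
  rw [← ind_congr (mem_cl_iff_erase hb), norm_smul, Real.norm_of_nonneg (ind_nonneg _)]
  refine mul_le_mul_of_nonneg_left ?_ (ind_nonneg _)
  have h1 := hG (cl ω (U.erase b) {v})
  rw [GG, EK_eq_Ex w (F := U.sym2) (Finset.sym2_mono Finset.sdiff_subset)] at h1
  exact h1.trans (hH (cl_mono subset_rfl (Finset.erase_subset _ _) subset_rfl))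

/-- Removing the vertices of `B` one at a time (induction on `B`; for `insert b B` apply
`telescope_one` in the domain `U \ B`, `(U \ B) \ C = U \ (B ∪ C)`, and `EK_mono_dom`, the
function `K ↦ ind (b ∈ K) * H K` being monotone). -/
theorem telescope {w : Sym2 V → ℝ} (hw : ∀ e, 0 ≤ w e) (U B : Finset V) (v : V) (φ : V → E)
    (H : Finset V → ℝ) (hH : Monotone H) (hH0 : ∀ C, 0 ≤ H C)
    (hG : ∀ B' ⊆ B, ∀ C : Finset V, ∀ b ∈ B, ‖GG w (U \ (B' ∪ C)) {b} φ‖ ≤ H C) :
    ‖GG w U {v} φ - GG w (U \ B) {v} φ‖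
      ≤ ∑ b ∈ B, EK w U {v} fun K => ind (b ∈ K) * H K := by
  induction B using Finset.induction_on with
  | empty => simp
  | insert b B hb ih =>
    have h1 := ih fun B' hB' C c hc =>
      hG B' (hB'.trans (Finset.subset_insert _ _)) C c (Finset.mem_insert_of_mem hc)
    have h2 := telescope_one hw (U \ B) v b φ H hH hH0 fun C => by
      rw [sdiff_sdiff_left]
      exact hG B (Finset.subset_insert _ _) C b (Finset.mem_insert_self _ _)
    have h3 : (EK w (U \ B) {v} fun K => ind (b ∈ K) * H K)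
        ≤ EK w U {v} fun K => ind (b ∈ K) * H K :=
      EK_mono_dom hw (fun _ => le_rfl) Finset.sdiff_subset subset_rfl fun K K' hK =>
        mul_le_mul (ind_mono fun h => hK h) (hH hK) (hH0 K) (ind_nonneg _)
    rw [Finset.sum_insert hb, Finset.sdiff_insert]
    calc ‖GG w U {v} φ - GG w ((U \ B).erase b) {v} φ‖
        ≤ ‖GG w U {v} φ - GG w (U \ B) {v} φ‖
          + ‖GG w (U \ B) {v} φ - GG w ((U \ B).erase b) {v} φ‖ := norm_sub_le_norm_sub_add_norm_sub _ _ _
      _ ≤ _ := by linarith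

end Pool.Agent.Lib.MP_6fc7d9_pr
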