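import Pool.Agent.Lib.MP_6fc7d9_pr.Group
import Pool.Agent.Lib.MP_6fc7d9_pr.ODE
import Pool.Agent.Lib.MP_6fc7d9_pr.Tele
import Pool.Agent.Lib.MP_6fc7d9_pr.Tree

set_option linter.unusedSectionVars false

namespace Pool.Agent.Lib.MP_6fc7d9_pr
open Finset

/-- pointwise lower bound for the integrand of the derivative -/
lemma chistep_inner {Γ : Type} [AddCommGroup Γ] [Fintype Γ] [DecidableEq Γ] {q ρ D c₀ : ℝ} {M : ℕ}
    (S : Setup Γ q ρ D c₀ M) {j : ℕ} (hj : j < M) {w : Sym2 Γ → ℝ} (hw0 : ∀ e, 0 ≤ w e)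
    (hw : Inv w) (K : Finset Γ) (u : Γ) :
    c₀ / (q * ρ) ^ j * ρ ^ j * chi w univ 0
        - c₀ / (q * ρ) ^ j * (K.card : ℝ) * (chi w univ 0) ^ 2
      ≤ ∑ v ∈ univ \ K, S.κ j s(u, v) • GG w (univ \ K) {v} fun _ => (1 : ℝ) := by
  set χ := chi w univ 0 with hχ
  have hχ0 : 0 ≤ χ := chi_nonneg hw0 _ _
  have hc := S.par.c_pos j
  have e1 : ∑ v ∈ univ \ K, S.κ j s(u, v) • GG w (univ \ K) {v} (fun _ => (1 : ℝ))
      = ∑ v, S.κ j s(u, v) * GG w (univ \ K) {v} (fun _ => (1 : ℝ)) := by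
    refine Finset.sum_subset (Finset.subset_univ _) fun v _ hv => ?_
    rw [GG_of_notMem w hv, smul_zero]
  have e2 : ∀ v, χ - ∑ b ∈ K, EK w univ {v} (fun K' => ind (b ∈ K') * χ)
      ≤ GG w (univ \ K) {v} (fun _ => (1 : ℝ)) := by
    intro v
    have h1 := telescope hw0 univ K v (fun _ => (1 : ℝ)) (fun _ => χ) monotone_const
      (fun _ => hχ0) (fun B' _ C b _ => by
        rw [← chi_eq_GG, Real.norm_of_nonneg (chi_nonneg hw0 _ _)]
        exact chi_le_univ hw0 hw _ _)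
    rw [← chi_eq_GG, chi_shift hw v, Real.norm_eq_abs] at h1
    have h2 := (abs_le.mp h1).2
    linarith
  have e3 := conv_bound S hw0 hw (fun _ => χ) (fun _ => hχ0) (fun _ _ => rfl) j K
    (N := (K.card : ℝ)) (fun y => by
      exact_mod_cast Finset.card_le_card (Finset.filter_subset _ _)) u
  have e4 : EK w univ {0} (fun K' => (K'.card : ℝ) * χ) = χ ^ 2 := by
    rw [EK_mul_const, sq]; rfl
  rw [e4] at e3
  have e5 : c₀ / (q * ρ) ^ j * ρ ^ j * χ ≤ ∑ v, S.κ j s(u, v) * χ := by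
    rw [← Finset.sum_mul, S.sum_κ]
    exact mul_le_mul_of_nonneg_right (mul_le_mul_of_nonneg_left (S.card_ge j hj) hc.le) hχ0
  rw [e1]
  calc _ ≤ ∑ v, S.κ j s(u, v) * χ
        - ∑ v, S.κ j s(u, v) * ∑ b ∈ K, EK w univ {v} (fun K' => ind (b ∈ K') * χ) :=
        sub_le_sub e5 e3
    _ = ∑ v, S.κ j s(u, v) * (χ - ∑ b ∈ K, EK w univ {v} (fun K' => ind (b ∈ K') * χ)) := by
        rw [← Finset.sum_sub_distrib]
        exact Finset.sum_congr rfl fun v _ => by ring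
    _ ≤ _ := Finset.sum_le_sum fun v _ => mul_le_mul_of_nonneg_left (e2 v) (S.κ_nonneg j _)

/-- lower bound for the derivative of the susceptibility -/
lemma chistep_deriv {Γ : Type} [AddCommGroup Γ] [Fintype Γ] [DecidableEq Γ] {q ρ D c₀ : ℝ} {M : ℕ}
    (S : Setup Γ q ρ D c₀ M) {j : ℕ} (hj : j < M) {w : Sym2 Γ → ℝ} (hw0 : ∀ e, 0 ≤ w e)
    (hw : Inv w) {X : ℝ} (hX : chi w univ 0 ≤ X) (h : 2 * X ^ 3 ≤ ρ ^ j) :
    c₀ / (q * ρ) ^ j * ρ ^ j / 2 * (chi w univ 0) ^ 2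
      ≤ EK w univ {0} fun K => ∑ u ∈ K, ∑ v ∈ univ \ K,
          S.κ j s(u, v) • GG w (univ \ K) {v} fun _ => (1 : ℝ) := by
  set χ := chi w univ 0 with hχ
  set c := c₀ / (q * ρ) ^ j with hcdef
  have hc : 0 < c := S.par.c_pos j
  have h2 := second_moment hw0 univ (0 : Γ) (X := X) fun y => (chi_le_univ hw0 hw _ y).trans hX
  have e1 : EK w univ {0} (fun K => (c * ρ ^ j * χ) * (K.card : ℝ)
      - (c * χ ^ 2) * (K.card : ℝ) ^ 2)
      = (c * ρ ^ j * χ) * χ - (c * χ ^ 2) * EK w univ {0} (fun K => (K.card : ℝ) ^ 2) := by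
    rw [EK_sub, EK_const_mul, EK_const_mul]; rfl
  have e2 : EK w univ {0} (fun K => (c * ρ ^ j * χ) * (K.card : ℝ)
      - (c * χ ^ 2) * (K.card : ℝ) ^ 2)
      ≤ EK w univ {0} fun K => ∑ u ∈ K, ∑ v ∈ univ \ K,
          S.κ j s(u, v) • GG w (univ \ K) {v} fun _ => (1 : ℝ) := by
    refine EK_mono hw0 _ fun K _ => ?_
    refine le_trans (le_of_eq ?_) (Finset.sum_le_sum fun u _ => chistep_inner S hj hw0 hw K u)
    rw [Finset.sum_const, nsmul_eq_mul]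
    ring
  refine le_trans ?_ e2
  rw [e1]
  have h3 : 0 ≤ c * χ ^ 2 := mul_nonneg hc.le (sq_nonneg _)
  have h4 := mul_le_mul_of_nonneg_left h2 h3
  have h5 := mul_le_mul_of_nonneg_left h h3
  nlinarith

/-- One backward step.  Let `χ t = chi (S.Wt j t) univ 0 = GG (S.W j + t • S.κ j) univ {0} 1`
(`chi_eq_GG`), `1 ≤ χ t ≤ X` on `[0,1]`, `c = c₀ / (q ρ)^j`.  By `hasDerivAt_GG`,
`χ' = EK (fun K => ∑ u ∈ K, ∑ v ∈ univ \ K, κ s(u,v) * chi (univ \ K) v)`; extend the sum to all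
`v` (`GG_of_notMem`), write `chi (univ \ K) v ≥ χ - ∑ b ∈ K, EK {v} (ind (b ∈ ·) * χ)`
(`telescope` with `H = fun _ => χ t`, `chi_shift`, `chi_le_univ`), use `S.sum_κ`, `S.card_ge`,
`conv_bound` with `B = K`, `N = |K|`, and `second_moment`:
`χ' ≥ c ρ^j χ^2 - c χ^2 * χ^3 ≥ c ρ^j χ^2 / 2`.  Hence `t ↦ -1/χ t - c ρ^j t / 2` is monotone on
`[0,1]` (`monotoneOn_of_deriv_nonneg` or `Convex.mul_sub_le_image_sub_of_le_deriv`) and
`1/χ 0 ≥ c ρ^j / 2 = c₀ / (2 q^j)`. -/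
theorem chi_step {Γ : Type} [AddCommGroup Γ] [Fintype Γ] [DecidableEq Γ] {q ρ D c₀ : ℝ} {M : ℕ}
    (S : Setup Γ q ρ D c₀ M) {j : ℕ} (hj : j < M) {X : ℝ} (hX : chi (S.W (j + 1)) univ 0 ≤ X)
    (h : 2 * X ^ 3 ≤ ρ ^ j) : chi (S.W j) univ 0 ≤ 2 * q ^ j / c₀ := by
  set a := c₀ / (q * ρ) ^ j * ρ ^ j / 2 with ha
  let χ : ℝ → ℝ := fun t => chi (S.Wt j t) univ 0
  let χ' : ℝ → ℝ := fun t => EK (S.Wt j t) univ {0} fun K => ∑ u ∈ K, ∑ v ∈ univ \ K,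
    S.κ j s(u, v) • GG (S.Wt j t) (univ \ K) {v} fun _ => (1 : ℝ)
  have hd : ∀ t, HasDerivAt χ (χ' t) t := by
    intro t
    have h1 := hasDerivAt_GG (S.W j) (S.κ j) univ {0} (fun _ => (1 : ℝ)) t
    have h2 : χ = fun s : ℝ => GG (S.W j + s • S.κ j) univ {0} (fun _ => (1 : ℝ)) := by
      funext s
      exact chi_eq_GG _ _ _
    rw [h2]
    exact h1
  have h1 : ∀ t, 0 ≤ t → 1 ≤ χ t := fun t ht => one_le_chi (S.Wt_nonneg j ht) (mem_univ _)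
  have hf : ∀ t, 0 ≤ t → HasDerivAt (fun s => -(χ s)⁻¹) (χ' t / χ t ^ 2) t := by
    intro t ht
    have h2 := ((hd t).inv (by linarith [h1 t ht])).neg
    rw [neg_div, neg_neg] at h2
    exact h2
  have hlow : ∀ t, 0 ≤ t → t ≤ 1 → a ≤ χ' t / χ t ^ 2 := by
    intro t ht ht1
    have hp : 0 < χ t ^ 2 := pow_pos (by linarith [h1 t ht]) 2
    rw [le_div_iff₀ hp]
    exact chistep_deriv S hj (S.Wt_nonneg j ht) (S.Wt_inv j t)
      ((chi_mono (S.Wt_nonneg j ht) (S.Wt_le_W j ht1) subset_rfl 0).trans hX) h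
  obtain ⟨t, ht, hmv⟩ := exists_hasDerivAt_eq_slope (fun s => -(χ s)⁻¹)
    (fun t => χ' t / χ t ^ 2) (zero_lt_one' ℝ)
    (fun t ht => (hf t ht.1).continuousAt.continuousWithinAt) (fun t ht => hf t ht.1.le)
  have h2 := hlow t ht.1.le ht.2.le
  rw [hmv] at h2
  have h3 : 0 < (χ 1)⁻¹ := inv_pos.mpr (by linarith [h1 1 zero_le_one])
  have h4 : a ≤ (χ 0)⁻¹ := by
    simp only [sub_zero, div_one] at h2
    linarith
  have h5 : χ 0 = chi (S.W j) univ 0 := by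
    show chi (S.Wt j 0) univ 0 = _
    rw [S.Wt_zero]
  have hq := S.par.q_pos
  have hρ := S.par.ρ_pos
  have hc := S.par.hc
  have h6 : a = (2 * q ^ j / c₀)⁻¹ := by
    rw [ha, mul_pow]
    field_simp
  rw [h6, inv_le_inv₀ (by positivity) (by linarith [h1 0 le_rfl])] at h4
  rw [← h5]
  exact h4

/-- backward induction as long as the side condition holds -/
lemma chistep_back {Γ : Type} [AddCommGroup Γ] [Fintype Γ] [DecidableEq Γ] {q ρ D c₀ : ℝ} {M : ℕ}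
    (S : Setup Γ q ρ D c₀ M) {j₀ : ℕ}
    (h0 : ∀ j, j₀ ≤ j → 2 * (2 * q ^ (j + 1) / c₀) ^ 3 ≤ ρ ^ j)
    (hM : chi (S.W M) univ 0 ≤ 2 * q ^ M / c₀) :
    ∀ j, j₀ ≤ j → j ≤ M → chi (S.W j) univ 0 ≤ 2 * q ^ j / c₀ := by
  intro j hj hjM
  induction hjM using Nat.decreasingInduction with
  | self => exact hM
  | of_succ k hk ih => exact chi_step S hk (ih (hj.trans (Nat.le_succ k))) (h0 k hj)

/-- Backward induction from `j = M` with `chi_step`, valid for `j ≥ j₀` where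
`2 * (2 q^(j+1) / c₀)^3 ≤ ρ^j` for all `j ≥ j₀` (`ρ / q^3 > 1`); below `j₀` use `chi_mono`,
`S.W_mono`; `A = max 1 (2 q^j₀ / c₀)`. -/
theorem chi_bound {q ρ D c₀ : ℝ} (hP : Par q ρ D c₀) :
    ∃ A : ℝ, 1 ≤ A ∧ ∀ (Γ : Type) [AddCommGroup Γ] [Fintype Γ] [DecidableEq Γ] (M : ℕ)
      (S : Setup Γ q ρ D c₀ M), chi (S.W M) univ 0 ≤ 2 * q ^ M / c₀ →
        ∀ j ≤ M, chi (S.W j) univ 0 ≤ A * q ^ j := by
  have hq := hP.q_pos
  have hc := hP.hc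
  have hq3 : 0 < q ^ 3 := pow_pos hq 3
  have hr : 1 < ρ / q ^ 3 := (one_lt_div hq3).mpr hP.hρ
  obtain ⟨j₀, hj₀⟩ := Filter.eventually_atTop.mp
    ((tendsto_pow_atTop_atTop_of_one_lt hr).eventually_ge_atTop (2 * (2 * q / c₀) ^ 3))
  have h0 : ∀ j, j₀ ≤ j → 2 * (2 * q ^ (j + 1) / c₀) ^ 3 ≤ ρ ^ j := by
    intro j hj
    have h1 := hj₀ j hj
    rw [div_pow ρ, le_div_iff₀ (pow_pos hq3 j)] at h1
    refine le_trans (le_of_eq ?_) h1
    ring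
  have hmono : ∀ i j : ℕ, i ≤ j → 2 * q ^ i / c₀ ≤ 2 * q ^ j / c₀ := fun i j hij =>
    div_le_div_of_nonneg_right
      (mul_le_mul_of_nonneg_left (pow_le_pow_right₀ hP.hq.le hij) zero_le_two) hc.le
  refine ⟨max 1 (2 * q ^ j₀ / c₀), le_max_left _ _, fun Γ _ _ _ M S hM j hj => ?_⟩
  have hA0 : (0 : ℝ) ≤ max 1 (2 * q ^ j₀ / c₀) := zero_le_one.trans (le_max_left _ _)
  have hqj : 1 ≤ q ^ j := one_le_pow₀ hP.hq.le
  by_cases hjj : j₀ ≤ j
  · refine (chistep_back S h0 hM j hjj hj).trans ?_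
    have h1 : 2 / c₀ ≤ max 1 (2 * q ^ j₀ / c₀) := by
      refine le_trans ?_ (le_max_right _ _)
      simpa using hmono 0 j₀ (Nat.zero_le _)
    calc 2 * q ^ j / c₀ = 2 / c₀ * q ^ j := by ring
      _ ≤ _ := mul_le_mul_of_nonneg_right h1 (by positivity)
  · have h1 : chi (S.W j) univ 0 ≤ 2 * q ^ j₀ / c₀ := by
      by_cases hM0 : j₀ ≤ M
      · exact (chi_mono (S.W_nonneg j) (S.W_mono (le_of_not_ge hjj)) subset_rfl 0).trans
          (chistep_back S h0 hM j₀ le_rfl hM0)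
      · exact ((chi_mono (S.W_nonneg j) (S.W_mono hj) subset_rfl 0).trans hM).trans
          (hmono _ _ (le_of_not_ge hM0))
    exact (h1.trans (le_max_right _ _)).trans (le_mul_of_one_le_right hA0 hqj)

/-- if `c₀` is large the backward induction runs down to `j = 0` and contradicts `one_le_chi` -/
theorem chi_large {Γ : Type} [AddCommGroup Γ] [Fintype Γ] [DecidableEq Γ] {q ρ D c₀ : ℝ} {M : ℕ}
    (S : Setup Γ q ρ D c₀ M) (hc : 4 * q ≤ c₀) : 2 * q ^ M / c₀ < chi (S.W M) univ 0 := by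
  by_contra hM
  have hM' := not_lt.mp hM
  have hq := S.par.q_pos
  have hq1 := S.par.hq
  have hc0 := S.par.hc
  have h0 : ∀ j, 0 ≤ j → 2 * (2 * q ^ (j + 1) / c₀) ^ 3 ≤ ρ ^ j := by
    intro j _
    have hqj : 0 < q ^ j := pow_pos hq j
    have h1 : 2 * q ^ (j + 1) / c₀ ≤ q ^ j / 2 := by
      rw [div_le_div_iff₀ hc0 two_pos, pow_succ]
      nlinarith [mul_le_mul_of_nonneg_left hc hqj.le]
    have h2 : (2 * q ^ (j + 1) / c₀) ^ 3 ≤ (q ^ j / 2) ^ 3 :=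
      pow_le_pow_left₀ (by positivity) h1 3
    have h3 : (q ^ 3) ^ j ≤ ρ ^ j := pow_le_pow_left₀ (by positivity) S.par.hρ.le j
    have h4 : (q ^ j / 2) ^ 3 = (q ^ 3) ^ j / 8 := by ring
    have h5 : 0 < (q ^ 3) ^ j := by positivity
    linarith
  have h1 := chistep_back S h0 hM' 0 le_rfl (Nat.zero_le M)
  have h2 := one_le_chi (S.W_nonneg 0) (mem_univ (0 : Γ))
  have h3 : 2 * q ^ 0 / c₀ < 1 := by
    rw [div_lt_one hc0]
    simp only [pow_zero]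
    linarith
  linarith

end Pool.Agent.Lib.MP_6fc7d9_pr
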