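import Pool.Agent.Lib.MP_6fc7d9_pr.ExBasic

/-!
Clusters `cl ω U R`: the set of vertices of the finite domain `U` joined inside `U` to a root in `R`
by edges of the configuration `ω`; cluster expectations `EK`, `GG`, `tau`, `chi`.
-/

set_option linter.unusedSectionVars false

namespace Pool.Agent.Lib.MP_6fc7d9_pr
open Finset

variable {V : Type*} [DecidableEq V]

/-- adjacency inside the domain `U` -/
def Adj (ω : Finset (Sym2 V)) (U : Finset V) (u v : V) : Prop := u ∈ U ∧ v ∈ U ∧ s(u, v) ∈ ω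

open Classical in
/-- cluster of the root set `R` inside the domain `U` -/
noncomputable def cl (ω : Finset (Sym2 V)) (U R : Finset V) : Finset V :=
  U.filter fun y => ∃ x ∈ R, Relation.ReflTransGen (Adj ω U) x y

lemma mem_cl {ω : Finset (Sym2 V)} {U R : Finset V} {y : V} :
    y ∈ cl ω U R ↔ y ∈ U ∧ ∃ x ∈ R, Relation.ReflTransGen (Adj ω U) x y := by
  simp [cl]

lemma cl_subset (ω : Finset (Sym2 V)) (U R : Finset V) : cl ω U R ⊆ U :=
  fun _ h => (mem_cl.mp h).1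

lemma root_mem_cl (ω : Finset (Sym2 V)) {U R : Finset V} {x : V} (hR : x ∈ R) (hU : x ∈ U) :
    x ∈ cl ω U R := mem_cl.mpr ⟨hU, x, hR, .refl⟩

lemma self_mem_cl (ω : Finset (Sym2 V)) {U : Finset V} {x : V} (hU : x ∈ U) :
    x ∈ cl ω U {x} := root_mem_cl ω (Finset.mem_singleton_self x) hU

lemma cl_step {ω : Finset (Sym2 V)} {U R : Finset V} {u v : V} (hu : u ∈ cl ω U R) (hv : v ∈ U)
    (he : s(u, v) ∈ ω) : v ∈ cl ω U R := by
  obtain ⟨hU, x, hx, hp⟩ := mem_cl.mp hu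
  exact mem_cl.mpr ⟨hv, x, hx, hp.tail ⟨hU, hv, he⟩⟩

/-- induction principle: a property holding at the roots and closed under steps holds on the cluster -/
lemma cl_induction {ω : Finset (Sym2 V)} {U R : Finset V} (P : V → Prop)
    (h0 : ∀ x ∈ R, x ∈ U → P x)
    (h1 : ∀ u v, u ∈ cl ω U R → P u → v ∈ U → s(u, v) ∈ ω → P v) :
    ∀ y ∈ cl ω U R, P y := by
  intro y hy
  obtain ⟨hU, x, hx, hp⟩ := mem_cl.mp hy
  clear hy
  induction hp with
  | refl => exact h0 x hx hU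
  | tail hab hbc ih => exact h1 _ _ (mem_cl.mpr ⟨hbc.1, x, hx, hab⟩) (ih hbc.1) hU hbc.2.2

lemma cl_subset_of_closed {ω : Finset (Sym2 V)} {U R C : Finset V}
    (h0 : ∀ x ∈ R, x ∈ U → x ∈ C)
    (h1 : ∀ u v, u ∈ cl ω U R → u ∈ C → v ∈ U → s(u, v) ∈ ω → v ∈ C) : cl ω U R ⊆ C :=
  fun y hy => cl_induction (· ∈ C) h0 h1 y hy

lemma cl_mono {ω ω' : Finset (Sym2 V)} {U U' R R' : Finset V} (hω : ω ⊆ ω') (hU : U ⊆ U')
    (hR : R ⊆ R') : cl ω U R ⊆ cl ω' U' R' :=
  cl_subset_of_closed (fun _ hx hx' => root_mem_cl _ (hR hx) (hU hx'))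
    fun _ _ _ hu hv he => cl_step hu (hU hv) (hω he)

/-- the cluster only looks at the edges leaving its own vertices -/
lemma cl_local {ω ω' : Finset (Sym2 V)} {U R : Finset V}
    (h : ∀ u ∈ cl ω U R, ∀ v ∈ U, s(u, v) ∈ ω ↔ s(u, v) ∈ ω') : cl ω' U R = cl ω U R := by
  apply Finset.Subset.antisymm
  · exact cl_subset_of_closed (fun _ hx hx' => root_mem_cl _ hx hx')
      fun u v _ hu hv he => cl_step hu hv ((h u hu v hv).mpr he)
  · exact cl_subset_of_closed (fun _ hx hx' => root_mem_cl _ hx hx')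
      fun u v hu' hu hv he => cl_step hu hv ((h u hu' v hv).mp he)

lemma cl_congr {ω ω' : Finset (Sym2 V)} {U : Finset V} (R : Finset V)
    (h : ∀ u ∈ U, ∀ v ∈ U, s(u, v) ∈ ω ↔ s(u, v) ∈ ω') : cl ω U R = cl ω' U R :=
  (cl_local fun u hu v hv => h u (cl_subset _ _ _ hu) v hv).symm

lemma cl_inter {F : Finset (Sym2 V)} {U : Finset V} (hF : U.sym2 ⊆ F) (ω : Finset (Sym2 V))
    (R : Finset V) : cl (ω ∩ F) U R = cl ω U R :=
  cl_congr R fun u hu v hv => by
    have : s(u, v) ∈ F := hF (Finset.mk_mem_sym2_iff.mpr ⟨hu, hv⟩)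
    simp [this]

lemma cl_of_notMem (ω : Finset (Sym2 V)) {U : Finset V} {x : V} (hx : x ∉ U) :
    cl ω U {x} = ∅ :=
  Finset.subset_empty.mp (cl_subset_of_closed
    (fun _ hy hy' => absurd (Finset.mem_singleton.mp hy ▸ hy') hx)
    fun _ _ _ hu => absurd hu (Finset.notMem_empty _))

lemma root_mem_of_mem_cl {ω : Finset (Sym2 V)} {U : Finset V} {x y : V} (h : y ∈ cl ω U {x}) :
    x ∈ U := by
  by_contra hx
  rw [cl_of_notMem ω hx] at h
  exact Finset.notMem_empty _ h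

lemma cl_empty_config (U R : Finset V) : cl (∅ : Finset (Sym2 V)) U R = R ∩ U := by
  apply Finset.Subset.antisymm
  · exact cl_subset_of_closed (fun _ hx hx' => Finset.mem_inter.mpr ⟨hx, hx'⟩)
      fun _ _ _ _ _ he => absurd he (Finset.notMem_empty _)
  · exact fun _ hx => root_mem_cl _ (Finset.mem_inter.mp hx).1 (Finset.mem_inter.mp hx).2

lemma cl_trans {ω : Finset (Sym2 V)} {U R : Finset V} {y : V} (h : y ∈ cl ω U R) :
    cl ω U {y} ⊆ cl ω U R :=
  cl_subset_of_closed (fun _ hx _ => Finset.mem_singleton.mp hx ▸ h)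
    fun _ _ _ hu hv he => cl_step hu hv he

lemma mem_cl_symm {ω : Finset (Sym2 V)} {U : Finset V} {x y : V} (h : y ∈ cl ω U {x}) :
    x ∈ cl ω U {y} := by
  refine cl_induction (fun z => x ∈ cl ω U {z}) ?_ ?_ y h
  · intro z hz hz'
    rw [Finset.mem_singleton.mp hz] at hz' ⊢
    exact self_mem_cl _ hz'
  · intro u v hu hP hv he
    have h1 : u ∈ cl ω U {v} :=
      cl_step (self_mem_cl _ hv) (cl_subset _ _ _ hu) (by rwa [Sym2.eq_swap])
    exact cl_trans h1 hP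

lemma cl_eq_of_mem {ω : Finset (Sym2 V)} {U : Finset V} {x y : V} (h : y ∈ cl ω U {x}) :
    cl ω U {y} = cl ω U {x} :=
  Finset.Subset.antisymm (cl_trans h) (cl_trans (mem_cl_symm h))

lemma mem_cl_iff_exists {ω : Finset (Sym2 V)} {U R : Finset V} {y : V} :
    y ∈ cl ω U R ↔ ∃ x ∈ R, y ∈ cl ω U {x} := by
  simp only [mem_cl, Finset.mem_singleton, exists_eq_left]
  exact ⟨fun ⟨h, x, hx, hp⟩ => ⟨x, hx, h, hp⟩, fun ⟨x, hx, h, hp⟩ => ⟨h, x, hx, hp⟩⟩

/-- transport of clusters along an injective map of the vertices -/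
lemma cl_map {V' : Type*} [DecidableEq V'] (ι : V ↪ V') (ω : Finset (Sym2 V)) (U R : Finset V) :
    cl (ω.map ι.sym2Map) (U.map ι) (R.map ι) = (cl ω U R).map ι := by
  apply Finset.Subset.antisymm
  · refine cl_subset_of_closed ?_ ?_
    · intro x hx hx'
      obtain ⟨a, ha, rfl⟩ := Finset.mem_map.mp hx
      exact Finset.mem_map_of_mem _ (root_mem_cl _ ha ((Finset.mem_map' ι).mp hx'))
    · intro u v _ hu hv he
      obtain ⟨a, ha, rfl⟩ := Finset.mem_map.mp hu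
      obtain ⟨b, hb, rfl⟩ := Finset.mem_map.mp hv
      have : s(a, b) ∈ ω := (Finset.mem_map' ι.sym2Map).mp (by simpa using he)
      exact Finset.mem_map_of_mem _ (cl_step ha hb this)
  · intro y hy
    obtain ⟨a, ha, rfl⟩ := Finset.mem_map.mp hy
    refine cl_induction (fun z => ι z ∈ cl (ω.map ι.sym2Map) (U.map ι) (R.map ι)) ?_ ?_ a ha
    · exact fun x hx hx' => root_mem_cl _ (Finset.mem_map_of_mem _ hx) (Finset.mem_map_of_mem _ hx')
    · intro u v _ hu hv he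
      refine cl_step hu (Finset.mem_map_of_mem _ hv) ?_
      have := Finset.mem_map_of_mem ι.sym2Map he
      simpa using this

/-- edge probabilities `1 - exp (-w e)` -/
noncomputable def pw (w : Sym2 V → ℝ) : Sym2 V → ℝ := fun e => 1 - Real.exp (-w e)

lemma pw_nonneg {w : Sym2 V → ℝ} (hw : ∀ e, 0 ≤ w e) (e : Sym2 V) : 0 ≤ pw w e :=
  sub_nonneg.mpr (Real.exp_le_one_iff.mpr (neg_nonpos.mpr (hw e)))

lemma pw_le_one (w : Sym2 V → ℝ) (e : Sym2 V) : pw w e ≤ 1 :=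
  sub_le_self _ (Real.exp_pos _).le

lemma pw_le (w : Sym2 V → ℝ) (e : Sym2 V) : pw w e ≤ w e := by
  have := Real.add_one_le_exp (-w e)
  unfold pw; linarith

lemma pw_mono {w w' : Sym2 V → ℝ} (h : ∀ e, w e ≤ w' e) (e : Sym2 V) : pw w e ≤ pw w' e :=
  sub_le_sub_left (Real.exp_le_exp.mpr (neg_le_neg (h e))) _

section defs
variable {E : Type*} [AddCommGroup E] [Module ℝ E]

/-- expectation of a function of the cluster of `R` in the domain `U` -/
noncomputable def EK (w : Sym2 V → ℝ) (U R : Finset V) (H : Finset V → E) : E :=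
  Ex U.sym2 (pw w) fun ω => H (cl ω U R)

/-- expectation of the sum of `φ` over the cluster -/
noncomputable def GG (w : Sym2 V → ℝ) (U R : Finset V) (φ : V → E) : E :=
  EK w U R fun K => ∑ y ∈ K, φ y

/-- connection probability inside `U` -/
noncomputable def tau (w : Sym2 V → ℝ) (U : Finset V) (x y : V) : ℝ :=
  EK w U {x} fun K => ind (y ∈ K)

/-- expected cluster size inside `U` -/
noncomputable def chi (w : Sym2 V → ℝ) (U : Finset V) (x : V) : ℝ :=
  EK w U {x} fun K => (K.card : ℝ)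

lemma EK_eq_Ex (w : Sym2 V → ℝ) {U : Finset V} {F : Finset (Sym2 V)} (hF : U.sym2 ⊆ F)
    (R : Finset V) (H : Finset V → E) : EK w U R H = Ex F (pw w) fun ω => H (cl ω U R) :=
  (Ex_ambient hF _ _ fun ω => by rw [cl_inter subset_rfl]).symm

lemma EK_congr {w : Sym2 V → ℝ} {U R : Finset V} {H H' : Finset V → E}
    (h : ∀ K ⊆ U, H K = H' K) : EK w U R H = EK w U R H' :=
  Ex_congr fun ω _ => h _ (cl_subset ω U R)

lemma EK_congr_w {w w' : Sym2 V → ℝ} {U : Finset V} (h : ∀ u ∈ U, ∀ v ∈ U, w s(u, v) = w' s(u, v))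
    (R : Finset V) (H : Finset V → E) : EK w U R H = EK w' U R H := by
  refine Ex_congr_p (fun e he => ?_) _
  induction e using Sym2.ind with
  | h u v =>
    have := Finset.mk_mem_sym2_iff.mp he
    simp only [pw, h u this.1 v this.2]

lemma EK_const (w : Sym2 V → ℝ) (U R : Finset V) (c : E) : EK w U R (fun _ => c) = c :=
  Ex_const _ _ _

lemma EK_add (w : Sym2 V → ℝ) (U R : Finset V) (H H' : Finset V → E) :
    EK w U R (fun K => H K + H' K) = EK w U R H + EK w U R H' := Ex_add _ _ _ _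

lemma EK_sub (w : Sym2 V → ℝ) (U R : Finset V) (H H' : Finset V → E) :
    EK w U R (fun K => H K - H' K) = EK w U R H - EK w U R H' := Ex_sub _ _ _ _

lemma EK_smul (w : Sym2 V → ℝ) (U R : Finset V) (c : ℝ) (H : Finset V → E) :
    EK w U R (fun K => c • H K) = c • EK w U R H := Ex_smul _ _ _ _

lemma EK_smul_const (w : Sym2 V → ℝ) (U R : Finset V) (H : Finset V → ℝ) (c : E) :
    EK w U R (fun K => H K • c) = EK w U R H • c := Ex_smul_const _ _ _ _

lemma EK_const_mul (w : Sym2 V → ℝ) (U R : Finset V) (c : ℝ) (H : Finset V → ℝ) :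
    EK w U R (fun K => c * H K) = c * EK w U R H := Ex_const_mul _ _ _ _

lemma EK_mul_const (w : Sym2 V → ℝ) (U R : Finset V) (H : Finset V → ℝ) (c : ℝ) :
    EK w U R (fun K => H K * c) = EK w U R H * c := Ex_mul_const _ _ _ _

lemma EK_mul_const_complex (w : Sym2 V → ℝ) (U R : Finset V) (H : Finset V → ℂ) (c : ℂ) :
    EK w U R (fun K => H K * c) = EK w U R H * c := Ex_mul_const_complex _ _ _ _

lemma EK_sum {ι : Type*} (w : Sym2 V → ℝ) (U R : Finset V) (s : Finset ι)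
    (H : ι → Finset V → E) :
    EK w U R (fun K => ∑ i ∈ s, H i K) = ∑ i ∈ s, EK w U R (H i) := Ex_sum _ _ _ _

lemma EK_of_notMem (w : Sym2 V → ℝ) {U : Finset V} {x : V} (hx : x ∉ U) (H : Finset V → E) :
    EK w U {x} H = H ∅ := by
  unfold EK
  simp only [cl_of_notMem _ hx]
  exact Ex_const _ _ _

lemma GG_of_notMem (w : Sym2 V → ℝ) {U : Finset V} {x : V} (hx : x ∉ U) (φ : V → E) :
    GG w U {x} φ = 0 := by
  rw [GG, EK_of_notMem w hx]; simp

lemma GG_eq_sum (w : Sym2 V → ℝ) (U R : Finset V) (φ : V → E) :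
    GG w U R φ = ∑ y ∈ U, EK w U R (fun K => ind (y ∈ K)) • φ y := by
  simp only [← EK_smul_const]
  rw [← EK_sum]
  refine EK_congr fun K hK => ?_
  simp only [ind_eq_ite, ite_smul, one_smul, zero_smul]
  rw [Finset.sum_ite_mem, Finset.inter_eq_right.mpr hK]

lemma GG_eq_sum_tau (w : Sym2 V → ℝ) (U : Finset V) (x : V) (φ : V → E) :
    GG w U {x} φ = ∑ y ∈ U, tau w U x y • φ y := GG_eq_sum _ _ _ _

lemma chi_eq_GG (w : Sym2 V → ℝ) (U : Finset V) (x : V) :
    chi w U x = GG w U {x} fun _ => (1 : ℝ) := by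
  simp [chi, GG]

lemma chi_eq_sum_tau (w : Sym2 V → ℝ) (U : Finset V) (x : V) :
    chi w U x = ∑ y ∈ U, tau w U x y := by
  rw [chi_eq_GG, GG_eq_sum_tau]; simp

lemma GG_ind (w : Sym2 V → ℝ) (U R : Finset V) (y : V) :
    GG w U R (fun z => ind (z = y)) = EK w U R fun K => ind (y ∈ K) := by
  refine EK_congr fun K _ => ?_
  simp only [ind_eq_ite]
  rw [Finset.sum_ite_eq']

lemma tau_symm (w : Sym2 V → ℝ) (U : Finset V) (x y : V) : tau w U x y = tau w U y x :=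
  Ex_congr fun _ _ => ind_congr ⟨mem_cl_symm, mem_cl_symm⟩

/-- re-rooting: on the event `y ∈ K` the cluster of `x` is the cluster of `y` -/
lemma EK_reroot (w : Sym2 V → ℝ) (U : Finset V) (x y : V) (H : Finset V → E) :
    EK w U {x} (fun K => ind (y ∈ K) • H K) = EK w U {y} fun K => ind (x ∈ K) • H K := by
  refine Ex_congr fun ω _ => ?_
  by_cases h : y ∈ cl ω U {x}
  · show ind (y ∈ cl ω U {x}) • H (cl ω U {x}) = ind (x ∈ cl ω U {y}) • H (cl ω U {y})
    rw [ind_pos h, ind_pos (mem_cl_symm h), cl_eq_of_mem h]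
  · have h' : x ∉ cl ω U {y} := fun h' => h (mem_cl_symm h')
    simp only [ind_neg h, ind_neg h', zero_smul]

/-- transport of cluster expectations along an injective map of the vertices -/
lemma EK_map {V' : Type*} [DecidableEq V'] (ι : V ↪ V') (w : Sym2 V → ℝ) (w' : Sym2 V' → ℝ)
    (U R : Finset V) (hw : ∀ u ∈ U, ∀ v ∈ U, w' s(ι u, ι v) = w s(u, v)) (H : Finset V' → E) :
    EK w' (U.map ι) (R.map ι) H = EK w U R fun K => H (K.map ι) := by
  have h1 : (U.map ι).sym2 = U.sym2.map ι.sym2Map := by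
    ext e
    induction e using Sym2.ind with
    | h a b =>
      simp only [Finset.mk_mem_sym2_iff, Finset.mem_map]
      constructor
      · rintro ⟨⟨u, hu, rfl⟩, ⟨v, hv, rfl⟩⟩
        exact ⟨s(u, v), Finset.mk_mem_sym2_iff.mpr ⟨hu, hv⟩, by simp⟩
      · rintro ⟨e, he, h⟩
        induction e using Sym2.ind with
        | h u v =>
          have he' := Finset.mk_mem_sym2_iff.mp he
          have h' : s(ι u, ι v) = s(a, b) := by simpa using h
          rcases Sym2.eq_iff.mp h' with ⟨rfl, rfl⟩ | ⟨rfl, rfl⟩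
          · exact ⟨⟨u, he'.1, rfl⟩, ⟨v, he'.2, rfl⟩⟩
          · exact ⟨⟨v, he'.2, rfl⟩, ⟨u, he'.1, rfl⟩⟩
  unfold EK
  rw [h1, Ex_map]
  simp only [cl_map]
  refine Ex_congr_p (fun e he => ?_) _
  induction e using Sym2.ind with
  | h u v =>
    have := Finset.mk_mem_sym2_iff.mp he
    have h2 : ι.sym2Map s(u, v) = s(ι u, ι v) := by simp
    rw [h2]
    simp only [pw, hw u this.1 v this.2]

/-- domain Markov property: `I C` may look at the edges touching `C`, `H C` only at the edges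
avoiding `C` -/
lemma Ex_markov (F : Finset (Sym2 V)) (p : Sym2 V → ℝ) (U R : Finset V)
    (I : Finset V → Finset (Sym2 V) → ℝ) (H : Finset V → Finset (Sym2 V) → E)
    (hI : ∀ C ω ω', (∀ u ∈ C, ∀ v, s(u, v) ∈ ω ↔ s(u, v) ∈ ω') → I C ω = I C ω')
    (hH : ∀ C ω ω', (∀ u ∉ C, ∀ v ∉ C, s(u, v) ∈ ω ↔ s(u, v) ∈ ω') → H C ω = H C ω') :
    Ex F p (fun ω => I (cl ω U R) ω • H (cl ω U R) ω)
      = Ex F p fun ω => I (cl ω U R) ω • Ex F p (H (cl ω U R)) := by
  have key : ∀ (ω : Finset (Sym2 V)) (Φ : Finset V → E),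
      Φ (cl ω U R) = ∑ C ∈ U.powerset, ind (cl ω U R = C) • Φ C := by
    intro ω Φ
    simp only [ind_eq_ite, ite_smul, one_smul, zero_smul]
    rw [Finset.sum_ite_eq, if_pos (Finset.mem_powerset.mpr (cl_subset _ _ _))]
  have e1 : ∀ C, Ex F p (fun ω => (ind (cl ω U R = C) * I C ω) • H C ω)
      = Ex F p (fun ω => ind (cl ω U R = C) * I C ω) • Ex F p (H C) := by
    intro C
    refine Ex_indep F p (fun e => ∃ u ∈ C, u ∈ e) _ _ ?_ ?_
    · intro ω ω' h
      have h' : ∀ u ∈ C, ∀ v, s(u, v) ∈ ω ↔ s(u, v) ∈ ω' := fun u hu v =>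
        h _ ⟨u, hu, Sym2.mem_mk_left _ _⟩
      rw [hI C ω ω' h']
      congr 1
      refine ind_congr ⟨fun hc => ?_, fun hc => ?_⟩
      · rw [← hc]; exact cl_local fun u hu v _ => h' u (hc ▸ hu) v
      · rw [← hc]; exact cl_local fun u hu v _ => (h' u (hc ▸ hu) v).symm
    · intro ω ω' h
      refine hH C ω ω' fun u hu v hv => h _ ?_
      rintro ⟨z, hz, hz'⟩
      rcases Sym2.mem_iff.mp hz' with rfl | rfl
      · exact hu hz
      · exact hv hz
  calc Ex F p (fun ω => I (cl ω U R) ω • H (cl ω U R) ω)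
      = Ex F p (fun ω => ∑ C ∈ U.powerset, (ind (cl ω U R = C) * I C ω) • H C ω) := by
        refine Ex_congr fun ω _ => ?_
        rw [key ω (fun C => I C ω • H C ω)]
        simp only [smul_smul]
    _ = ∑ C ∈ U.powerset, Ex F p (fun ω => (ind (cl ω U R = C) * I C ω) • Ex F p (H C)) := by
        rw [Ex_sum]
        exact Finset.sum_congr rfl fun C _ => by rw [e1, Ex_smul_const]
    _ = _ := by
        rw [← Ex_sum]
        refine Ex_congr fun ω _ => ?_
        rw [key ω (fun C => I C ω • Ex F p (H C))]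
        simp only [smul_smul]

end defs

lemma EK_mono {w : Sym2 V → ℝ} (hw : ∀ e, 0 ≤ w e) {U : Finset V} (R : Finset V)
    {H H' : Finset V → ℝ} (h : ∀ K ⊆ U, H K ≤ H' K) : EK w U R H ≤ EK w U R H' :=
  Ex_mono (pw_nonneg hw) (pw_le_one w) fun ω _ => h _ (cl_subset ω U R)

lemma EK_nonneg {w : Sym2 V → ℝ} (hw : ∀ e, 0 ≤ w e) {U : Finset V} (R : Finset V)
    {H : Finset V → ℝ} (h : ∀ K ⊆ U, 0 ≤ H K) : 0 ≤ EK w U R H :=
  Ex_nonneg (pw_nonneg hw) (pw_le_one w) fun ω _ => h _ (cl_subset ω U R)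

lemma EK_le_const {w : Sym2 V → ℝ} (hw : ∀ e, 0 ≤ w e) {U : Finset V} (R : Finset V)
    {H : Finset V → ℝ} {c : ℝ} (h : ∀ K ⊆ U, H K ≤ c) : EK w U R H ≤ c :=
  Ex_le_const (pw_nonneg hw) (pw_le_one w) fun ω _ => h _ (cl_subset ω U R)

lemma norm_EK_le {E : Type*} [NormedAddCommGroup E] [NormedSpace ℝ E] {w : Sym2 V → ℝ}
    (hw : ∀ e, 0 ≤ w e) {U : Finset V} (R : Finset V) {H : Finset V → E} {H' : Finset V → ℝ}
    (h : ∀ K ⊆ U, ‖H K‖ ≤ H' K) : ‖EK w U R H‖ ≤ EK w U R H' :=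
  norm_Ex_le (pw_nonneg hw) (pw_le_one w) fun ω _ => h _ (cl_subset ω U R)

/-- expectations of increasing functions of the cluster increase with kernel, domain and roots -/
lemma EK_mono_dom {w w' : Sym2 V → ℝ} (hw : ∀ e, 0 ≤ w e) (hww : ∀ e, w e ≤ w' e)
    {U U' R R' : Finset V} (hU : U ⊆ U') (hR : R ⊆ R') {H : Finset V → ℝ} (hH : Monotone H) :
    EK w U R H ≤ EK w' U' R' H := by
  rw [EK_eq_Ex w (Finset.sym2_mono hU)]
  calc Ex U'.sym2 (pw w) (fun ω => H (cl ω U R))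
      ≤ Ex U'.sym2 (pw w) (fun ω => H (cl ω U' R')) :=
        Ex_mono (pw_nonneg hw) (pw_le_one w) fun ω _ => hH (cl_mono subset_rfl hU hR)
    _ ≤ _ := Ex_mono_p _ (pw_nonneg hw) (pw_le_one w') (pw_mono hww)
        fun ω ω' h => hH (cl_mono h subset_rfl subset_rfl)

lemma tau_nonneg {w : Sym2 V → ℝ} (hw : ∀ e, 0 ≤ w e) (U : Finset V) (x y : V) :
    0 ≤ tau w U x y := EK_nonneg hw _ fun _ _ => ind_nonneg _

lemma tau_le_one {w : Sym2 V → ℝ} (hw : ∀ e, 0 ≤ w e) (U : Finset V) (x y : V) :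
    tau w U x y ≤ 1 := EK_le_const hw _ fun _ _ => ind_le_one _

lemma tau_of_notMem (w : Sym2 V → ℝ) {U : Finset V} (x : V) {y : V} (hy : y ∉ U) :
    tau w U x y = 0 := by
  rw [← EK_const w U {x} (0 : ℝ)]
  exact EK_congr fun K hK => ind_neg fun h => hy (hK h)

lemma tau_mono {w w' : Sym2 V → ℝ} (hw : ∀ e, 0 ≤ w e) (hww : ∀ e, w e ≤ w' e)
    {U U' : Finset V} (hU : U ⊆ U') (x y : V) : tau w U x y ≤ tau w' U' x y :=
  EK_mono_dom hw hww hU subset_rfl fun _ _ h => ind_mono fun h' => h h'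

lemma chi_nonneg {w : Sym2 V → ℝ} (hw : ∀ e, 0 ≤ w e) (U : Finset V) (x : V) :
    0 ≤ chi w U x := EK_nonneg hw _ fun _ _ => Nat.cast_nonneg _

lemma chi_mono {w w' : Sym2 V → ℝ} (hw : ∀ e, 0 ≤ w e) (hww : ∀ e, w e ≤ w' e)
    {U U' : Finset V} (hU : U ⊆ U') (x : V) : chi w U x ≤ chi w' U' x :=
  EK_mono_dom hw hww hU subset_rfl fun _ _ h => Nat.cast_le.mpr (Finset.card_le_card h)

lemma chi_le_card {w : Sym2 V → ℝ} (hw : ∀ e, 0 ≤ w e) (U : Finset V) (x : V) :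
    chi w U x ≤ U.card :=
  EK_le_const hw _ fun _ h => Nat.cast_le.mpr (Finset.card_le_card h)

lemma one_le_chi {w : Sym2 V → ℝ} (hw : ∀ e, 0 ≤ w e) {U : Finset V} {x : V} (hx : x ∈ U) :
    1 ≤ chi w U x := by
  rw [← Ex_const U.sym2 (pw w) (1 : ℝ)]
  refine Ex_mono (pw_nonneg hw) (pw_le_one w) fun ω _ => ?_
  show (1 : ℝ) ≤ ((cl ω U {x}).card : ℝ)
  exact_mod_cast Finset.card_pos.mpr ⟨x, self_mem_cl ω hx⟩

lemma norm_GG_le_chi {E : Type*} [NormedAddCommGroup E] [NormedSpace ℝ E] {w : Sym2 V → ℝ}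
    (hw : ∀ e, 0 ≤ w e) (U : Finset V) (x : V) {φ : V → E} (hφ : ∀ y, ‖φ y‖ ≤ 1) :
    ‖GG w U {x} φ‖ ≤ chi w U x :=
  norm_EK_le hw _ fun K _ => (norm_sum_le _ _).trans
    ((Finset.sum_le_sum fun y _ => hφ y).trans (by simp))

lemma GG_mono {w w' : Sym2 V → ℝ} (hw : ∀ e, 0 ≤ w e) (hww : ∀ e, w e ≤ w' e)
    {U U' R R' : Finset V} (hU : U ⊆ U') (hR : R ⊆ R') {φ : V → ℝ} (hφ : ∀ y, 0 ≤ φ y) :
    GG w U R φ ≤ GG w' U' R' φ :=
  EK_mono_dom hw hww hU hR fun _ _ h =>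
    Finset.sum_le_sum_of_subset_of_nonneg h fun y _ _ => hφ y

end Pool.Agent.Lib.MP_6fc7d9_pr
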