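import Pool.Agent.Lib.MP_6fc7d9_pr.Link
import Pool.Agent.Lib.MP_6fc7d9_pr.ODE

set_option linter.unusedSectionVars false

namespace Pool.Agent.Lib.MP_6fc7d9_pr
open Finset

/-- the integrand of the derivative is at least `1 / (2 β₂)` at clusters avoiding the origin -/
lemma dct_integrand {d : ℕ} {α c : ℝ} {J : Sym2 (Fin d → ℤ) → ℝ} (hK : Kernel d α c J)
    {t β₂ : ℝ} (ht : 0 < t) (ht2 : t ≤ β₂) (hφ : ∀ S : Finset (Fin d → ℤ), 0 ∈ S → 1 ≤ phi J t S)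
    {Λ Λ' K : Finset (Fin d → ℤ)} (h0 : 0 ∈ Λ') (hΛ : β₂ * ∑ v ∈ Λ, tail J v Λ' ≤ 1 / 2)
    (hK1 : K ⊆ Λ') (hK2 : Λ' \ Λ ⊆ K) :
    (1 - ind (0 ∈ K)) * (1 / (2 * β₂))
      ≤ ∑ u ∈ K, ∑ v ∈ Λ' \ K, J s(u, v) • GG (t • J) (Λ' \ K) {v} fun z => ind (z = 0) := by
  have hw : ∀ e, 0 ≤ (t • J) e := smul_nonneg' hK.nonneg ht.le
  have hβ₂ : 0 < β₂ := ht.trans_le ht2
  have e1 : ∀ v, (GG (t • J) (Λ' \ K) {v} fun z => ind (z = 0)) = tau (t • J) (Λ' \ K) 0 v :=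
    fun v => by rw [GG_ind, tau_symm]; rfl
  simp only [e1, smul_eq_mul]
  have hnn : 0 ≤ ∑ u ∈ K, ∑ v ∈ Λ' \ K, J s(u, v) * tau (t • J) (Λ' \ K) 0 v :=
    Finset.sum_nonneg fun _ _ => Finset.sum_nonneg fun _ _ =>
      mul_nonneg (hK.nonneg _) (tau_nonneg hw _ _ _)
  by_cases hK0 : 0 ∈ K
  · rw [ind_pos hK0, sub_self, zero_mul]; exact hnn
  rw [ind_neg hK0, sub_zero, one_mul]
  have hS0 : 0 ∈ Λ' \ K := Finset.mem_sdiff.mpr ⟨h0, hK0⟩
  have hSΛ : Λ' \ K ⊆ Λ := fun v hv => by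
    by_contra hv'
    have := Finset.mem_sdiff.mp hv
    exact this.2 (hK2 (Finset.mem_sdiff.mpr ⟨this.1, hv'⟩))
  have e2 : ∀ v, ∑ u ∈ K, J s(u, v) = tail J v (Λ' \ K) - tail J v Λ' := fun v => by
    rw [tail_eq (hK.summable' v), tail_eq (hK.summable' v), ← Finset.sum_sdiff hK1]
    have : ∑ u ∈ K, J s(u, v) = ∑ u ∈ K, J s(v, u) :=
      Finset.sum_congr rfl fun u _ => by rw [Sym2.eq_swap]
    rw [this]; ring
  have e3 : t * ∑ u ∈ K, ∑ v ∈ Λ' \ K, J s(u, v) * tau (t • J) (Λ' \ K) 0 v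
      = phi J t (Λ' \ K) - ∑ v ∈ Λ' \ K, tau (t • J) (Λ' \ K) 0 v * (t * tail J v Λ') := by
    rw [Finset.sum_comm, Finset.mul_sum, phi, ← Finset.sum_sub_distrib]
    refine Finset.sum_congr rfl fun v _ => ?_
    rw [← Finset.sum_mul, e2]; ring
  have e4 : ∑ v ∈ Λ' \ K, tau (t • J) (Λ' \ K) 0 v * (t * tail J v Λ') ≤ 1 / 2 := by
    refine le_trans ?_ hΛ
    rw [Finset.mul_sum]
    refine le_trans (Finset.sum_le_sum fun v _ => ?_)
      (Finset.sum_le_sum_of_subset_of_nonneg hSΛ fun v _ _ =>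
        mul_nonneg hβ₂.le (tail_nonneg hK.nonneg _ _))
    have a1 := tail_nonneg hK.nonneg v Λ'
    exact (mul_le_of_le_one_left (mul_nonneg ht.le a1) (tau_le_one hw _ _ _)).trans
      (mul_le_mul_of_nonneg_right ht2 a1)
  have e5 := hφ _ hS0
  rw [div_le_iff₀ (by positivity)]
  nlinarith [mul_le_mul_of_nonneg_right ht2 hnn]

/-- Sharpness step of Duminil-Copin and Tassion.  By contradiction assume `1 ≤ phi J β S` for all
`β ∈ [β₁, β₂]` and `S ∋ 0`.  Fix `Λ`; enlarging it assume `0 ∈ Λ` (the root set only shrinks,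
`EK_mono_dom`).  Choose `Λ' ⊇ Λ` with `β₂ * ∑ v ∈ Λ, tail J v Λ' ≤ 1/2` (`tendsto_tail`).
Let `f β = EK (β • J) Λ' (Λ' \ Λ) (fun K => ind (0 ∈ K)) = GG (0 + β • J) Λ' (Λ' \ Λ) (fun z => ind (z = 0))`
(`GG_ind`).  In `hasDerivAt_GG` the integrand at a cluster `K` (which contains `Λ' \ Λ`,
`root_mem_cl`; unfold `EK` and use `Ex_mono`) with `0 ∉ K`, `S = Λ' \ K ⊆ Λ`, equals
`∑ v ∈ S, tau S 0 v * ∑ u ∈ K, J s(v,u)` (`tau_symm`), and `∑ u ∈ K, J s(v,u) = tail J v S - tail J v Λ'`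
(`tail_eq`), so it is at least `(phi J β S - 1/2) / β ≥ 1 / (2 β₂)`; it is nonnegative otherwise.
So `f' ≥ (1 - f) / (2 β₂)`; `f` is monotone, hence
`f β₂ ≥ η := min (1/2) ((β₂ - β₁) / (4 β₂))`, and `perc_pos` gives `β₂ ∈ supercrit J`. -/
theorem dct {d : ℕ} {α c : ℝ} {J : Sym2 (Fin d → ℤ) → ℝ} (hK : Kernel d α c J) {β₁ β₂ : ℝ}
    (h0 : 0 < β₁) (h12 : β₁ < β₂) (h : β₂ ∉ supercrit J) :
    ∃ β ∈ Set.Icc β₁ β₂, ∃ S : Finset (Fin d → ℤ), 0 ∈ S ∧ phi J β S < 1 := by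
  by_contra hcon
  push Not at hcon
  have hβ₂ : 0 < β₂ := h0.trans h12
  set a : ℝ := (β₂ - β₁) * (1 / (2 * β₂)) with ha
  have hapos : 0 < a := mul_pos (sub_pos.mpr h12) (by positivity)
  refine h (perc_pos hK.nonneg hβ₂.le 0 (η := a / (1 + a)) (by positivity) fun Λ₀ => ?_)
  have hl : Filter.Tendsto
      (fun Λ' : Finset (Fin d → ℤ) => β₂ * ∑ v ∈ insert 0 Λ₀, tail J v Λ') Filter.atTop
      (nhds 0) := by
    have := (tendsto_finsetSum (insert 0 Λ₀) fun v _ => tendsto_tail J v).const_mul β₂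
    simpa only [Finset.sum_const_zero, mul_zero] using this
  obtain ⟨Λ', hΛ1, hΛ2⟩ := ((hl.eventually_le_const (by norm_num : (0 : ℝ) < 1 / 2)).and
    (Filter.eventually_ge_atTop (insert 0 Λ₀))).exists
  refine ⟨Λ', ?_⟩
  have h0' : (0 : Fin d → ℤ) ∈ Λ' := hΛ2 (Finset.mem_insert_self _ _)
  set R := Λ' \ insert 0 Λ₀ with hR
  have hw : ∀ t : ℝ, 0 ≤ t → ∀ e, 0 ≤ (t • J) e := fun t ht => smul_nonneg' hK.nonneg ht
  have hmono : Monotone fun K : Finset (Fin d → ℤ) => ind (0 ∈ K) :=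
    fun _ _ hh => ind_mono fun h' => hh h'
  refine le_trans ?_ (EK_mono_dom (hw β₂ hβ₂.le) (fun _ => le_rfl) subset_rfl
    (R := R) (Finset.sdiff_subset_sdiff subset_rfl (Finset.subset_insert _ _)) hmono)
  set f : ℝ → ℝ := fun s => EK (s • J) Λ' R fun K => ind (0 ∈ K) with hf
  set f' : ℝ → ℝ := fun t => EK (t • J) Λ' R fun K =>
    ∑ u ∈ K, ∑ v ∈ Λ' \ K, J s(u, v) • GG (t • J) (Λ' \ K) {v} fun z => ind (z = 0) with hf'
  have hd : ∀ t, HasDerivAt f (f' t) t := fun t => by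
    have := hasDerivAt_GG 0 J Λ' R (fun z => ind (z = 0)) t
    simp only [zero_add] at this
    refine this.congr_of_eventuallyEq (Filter.Eventually.of_forall fun s => ?_)
    exact (GG_ind _ _ _ _).symm
  obtain ⟨t, ht, hte⟩ := exists_hasDerivAt_eq_slope f f' h12
    (fun x _ => (hd x).continuousAt.continuousWithinAt) fun x _ => hd x
  have htpos : 0 < t := h0.trans ht.1
  have h1 : (1 - f t) * (1 / (2 * β₂)) ≤ f' t := by
    have e : (1 - f t) * (1 / (2 * β₂))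
        = EK (t • J) Λ' R fun K => (1 - ind (0 ∈ K)) * (1 / (2 * β₂)) := by
      rw [EK_mul_const, EK_sub, EK_const]
    rw [e]
    refine Ex_mono (pw_nonneg (hw t htpos.le)) (pw_le_one _) fun ω _ => ?_
    exact dct_integrand hK htpos ht.2.le (hcon t ⟨ht.1.le, ht.2.le⟩) h0' hΛ1 (cl_subset _ _ _)
      fun x hx => root_mem_cl _ hx (Finset.mem_sdiff.mp hx).1
  have h2 : f t ≤ f β₂ :=
    EK_mono_dom (hw t htpos.le)
      (fun e => mul_le_mul_of_nonneg_right ht.2.le (hK.nonneg e)) subset_rfl subset_rfl hmono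
  have h3 : 0 ≤ f β₁ := EK_nonneg (hw β₁ h0.le) _ fun _ _ => ind_nonneg _
  have h4 : f' t * (β₂ - β₁) = f β₂ - f β₁ := by
    rw [hte, div_mul_cancel₀ _ (sub_pos.mpr h12).ne']
  have h5 : (1 - f β₂) * a ≤ f β₂ := by
    have b1 : (1 - f β₂) * (1 / (2 * β₂)) ≤ f' t :=
      le_trans (mul_le_mul_of_nonneg_right (by linarith) (by positivity)) h1
    have b2 := mul_le_mul_of_nonneg_right b1 (sub_pos.mpr h12).le
    rw [ha]; nlinarith
  show a / (1 + a) ≤ f β₂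
  rw [div_le_iff₀ (by positivity)]
  nlinarith

end Pool.Agent.Lib.MP_6fc7d9_pr
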