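import Mathlib

/-!
Long-range percolation on the integer lattice: the objects used in the statement.
-/

namespace Pool.Agent.Lib.MP_6fc7d9_pr
open MeasureTheory

/-- Euclidean norm of a vector with real coordinates -/
noncomputable def euc {d : ℕ} (v : Fin d → ℝ) : ℝ := √(∑ i, v i ^ 2)

/-- the cube `[-π, π]^d` -/
def cube (d : ℕ) : Set (Fin d → ℝ) := Set.pi Set.univ fun _ => Set.Icc (-Real.pi) Real.pi

/-- law of long-range percolation: each unordered pair `e` is open (`true`) independently with
probability `1 - exp (-β J e)` -/
noncomputable def perc {V : Type} (J : Sym2 V → ℝ) (β : ℝ) : Measure (Sym2 V → Bool) :=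
  Measure.infinitePi fun e =>
    ENNReal.ofReal (1 - Real.exp (-(β * J e))) • Measure.dirac true
      + ENNReal.ofReal (Real.exp (-(β * J e))) • Measure.dirac false

/-- the random graph: two distinct vertices are adjacent when their pair is open -/
def graphOf {V : Type} (ω : Sym2 V → Bool) : SimpleGraph V :=
  SimpleGraph.fromEdgeSet {e | ω e = true}

/-- the set of `β ≥ 0` at which an infinite component exists with positive probability -/
def supercrit {V : Type} (J : Sym2 V → ℝ) : Set ℝ :=
  {β | 0 ≤ β ∧ 0 < perc J β {ω | ∃ x, {y | (graphOf ω).Reachable x y}.Infinite}}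

/-- two-point function: probability that `0` and `x` lie in the same component -/
noncomputable def twoPt {d : ℕ} (J : Sym2 (Fin d → ℤ) → ℝ) (β : ℝ) (x : Fin d → ℤ) : ℝ :=
  (perc J β {ω | (graphOf ω).Reachable 0 x}).toReal

end Pool.Agent.Lib.MP_6fc7d9_pr
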