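import Pool.Agent.Lib.MP_6fc7d9_pr.ClBasic
import Pool.Agent.Lib.MP_6fc7d9_pr.Model

/-!
The multi-stage setup on a finite abelian group, the torus, and kernels on the lattice.
-/

set_option linter.unusedSectionVars false

namespace Pool.Agent.Lib.MP_6fc7d9_pr
open Finset

/-- translation invariant kernel on a group -/
def Inv {Γ : Type*} [AddCommGroup Γ] (w : Sym2 Γ → ℝ) : Prop :=
  ∀ u v a, w s(u + a, v + a) = w s(u, v)

/-- a character of modulus at most one -/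
structure IsChar {Γ : Type*} [AddCommGroup Γ] (e : Γ → ℂ) : Prop where
  map_add : ∀ x y, e (x + y) = e x * e y
  norm_le : ∀ x, ‖e x‖ ≤ 1
  map_zero : e 0 = 1

/-- the numerical parameters: `q = 2^α`, `ρ = 2^d` in the application -/
structure Par (q ρ D c₀ : ℝ) : Prop where
  hq : 1 < q
  hρ : q ^ 3 < ρ
  h2 : 2 ≤ ρ
  hD : 1 ≤ D
  hc : 0 < c₀

/-- boxes `Λ i` of scale `2^i`, stage kernels `κ j` and models `W j = W 0 + ∑_{i<j} κ i` -/
structure Setup (Γ : Type) [AddCommGroup Γ] [Fintype Γ] [DecidableEq Γ] (q ρ D c₀ : ℝ) (M : ℕ) where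
  Λ : ℕ → Finset Γ
  W : ℕ → Sym2 Γ → ℝ
  κ : ℕ → Sym2 Γ → ℝ
  par : Par q ρ D c₀
  zero_mem : ∀ i, 0 ∈ Λ i
  neg_mem : ∀ i x, x ∈ Λ i → -x ∈ Λ i
  add_mem : ∀ i x y, x ∈ Λ i → y ∈ Λ i → x + y ∈ Λ (i + 1)
  card_le : ∀ i, ((Λ i).card : ℝ) ≤ D * ρ ^ i
  card_ge : ∀ i < M, ρ ^ i ≤ (((Λ i).erase 0).card : ℝ)
  κ_eq : ∀ j u v, κ j s(u, v) = if v - u ∈ (Λ j).erase 0 then c₀ / (q * ρ) ^ j else 0
  W_succ : ∀ j, W (j + 1) = W j + κ j
  W_zero_nonneg : ∀ e, 0 ≤ W 0 e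
  W_zero_inv : Inv (W 0)

namespace Par
variable {q ρ D c₀ : ℝ} (h : Par q ρ D c₀)
include h
lemma q_pos : 0 < q := zero_lt_one.trans h.hq
lemma ρ_pos : 0 < ρ := by linarith [h.h2]
lemma q_lt_ρ : q < ρ := by
  have h1 := h.hq
  have h2 := h.hρ
  nlinarith [mul_pos (sub_pos.mpr h1) (sub_pos.mpr h1), mul_pos h.q_pos h.q_pos]
lemma c_pos (j : ℕ) : 0 < c₀ / (q * ρ) ^ j :=
  div_pos h.hc (pow_pos (mul_pos h.q_pos h.ρ_pos) j)
end Par

namespace Setup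
variable {Γ : Type} [AddCommGroup Γ] [Fintype Γ] [DecidableEq Γ] {q ρ D c₀ : ℝ} {M : ℕ}
  (S : Setup Γ q ρ D c₀ M)

/-- the model at time `t` of stage `j` -/
def Wt (j : ℕ) (t : ℝ) : Sym2 Γ → ℝ := S.W j + t • S.κ j

/-- `B` has at most `a * m^i` points in every box of scale `i ≤ j` -/
def Sparse (m : ℝ) (j : ℕ) (a : ℝ) (B : Finset Γ) : Prop :=
  ∀ i ≤ j, ∀ y, ((B.filter fun b => b - y ∈ S.Λ i).card : ℝ) ≤ a * m ^ i

lemma κ_nonneg (j : ℕ) (e : Sym2 Γ) : 0 ≤ S.κ j e := by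
  induction e using Sym2.ind with
  | h u v => rw [S.κ_eq]; split_ifs; exacts [(S.par.c_pos j).le, le_rfl]

lemma κ_le (j : ℕ) (e : Sym2 Γ) : S.κ j e ≤ c₀ / (q * ρ) ^ j := by
  induction e using Sym2.ind with
  | h u v => rw [S.κ_eq]; split_ifs; exacts [le_rfl, (S.par.c_pos j).le]

lemma κ_inv (j : ℕ) : Inv (S.κ j) := fun u v a => by
  rw [S.κ_eq, S.κ_eq, add_sub_add_right_eq_sub]

lemma W_le_succ (j : ℕ) (e : Sym2 Γ) : S.W j e ≤ S.W (j + 1) e := by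
  rw [S.W_succ]; exact le_add_of_nonneg_right (S.κ_nonneg j e)

lemma W_mono {i j : ℕ} (h : i ≤ j) (e : Sym2 Γ) : S.W i e ≤ S.W j e :=
  monotone_nat_of_le_succ (f := fun j => S.W j e) (fun j => S.W_le_succ j e) h

lemma W_nonneg (j : ℕ) (e : Sym2 Γ) : 0 ≤ S.W j e :=
  (S.W_zero_nonneg e).trans (S.W_mono (Nat.zero_le j) e)

lemma W_inv (j : ℕ) : Inv (S.W j) := by
  induction j with
  | zero => exact S.W_zero_inv
  | succ j ih =>
    intro u v a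
    rw [S.W_succ, Pi.add_apply, Pi.add_apply, ih, S.κ_inv]

lemma Wt_zero (j : ℕ) : S.Wt j 0 = S.W j := by simp [Wt]

lemma Wt_one (j : ℕ) : S.Wt j 1 = S.W (j + 1) := by simp [Wt, S.W_succ]

lemma Wt_inv (j : ℕ) (t : ℝ) : Inv (S.Wt j t) := fun u v a => by
  simp only [Wt, Pi.add_apply, Pi.smul_apply, S.W_inv j u v a, S.κ_inv j u v a]

lemma Wt_mono (j : ℕ) {s t : ℝ} (h : s ≤ t) (e : Sym2 Γ) : S.Wt j s e ≤ S.Wt j t e := by
  simp only [Wt, Pi.add_apply, Pi.smul_apply, smul_eq_mul]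
  nlinarith [S.κ_nonneg j e]

lemma W_le_Wt (j : ℕ) {t : ℝ} (ht : 0 ≤ t) (e : Sym2 Γ) : S.W j e ≤ S.Wt j t e := by
  rw [← S.Wt_zero j]; exact S.Wt_mono j ht e

lemma Wt_le_W (j : ℕ) {t : ℝ} (ht : t ≤ 1) (e : Sym2 Γ) : S.Wt j t e ≤ S.W (j + 1) e := by
  rw [← S.Wt_one j]; exact S.Wt_mono j ht e

lemma Wt_nonneg (j : ℕ) {t : ℝ} (ht : 0 ≤ t) (e : Sym2 Γ) : 0 ≤ S.Wt j t e :=
  (S.W_nonneg j e).trans (S.W_le_Wt j ht e)

lemma Λ_subset_succ (i : ℕ) : S.Λ i ⊆ S.Λ (i + 1) := fun x hx => by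
  simpa using S.add_mem i x 0 hx (S.zero_mem i)

lemma sub_mem {i : ℕ} {x y : Γ} (hx : x ∈ S.Λ i) (hy : y ∈ S.Λ i) : x - y ∈ S.Λ (i + 1) := by
  rw [sub_eq_add_neg]; exact S.add_mem i _ _ hx (S.neg_mem i _ hy)

/-- sums against the stage kernel -/
lemma sum_κ_smul {E : Type*} [AddCommGroup E] [Module ℝ E] (j : ℕ) (u : Γ) (f : Γ → E) :
    ∑ v, S.κ j s(u, v) • f v = (c₀ / (q * ρ) ^ j) • ∑ y ∈ (S.Λ j).erase 0, f (u + y) := by
  rw [← Equiv.sum_comp (Equiv.addLeft u)]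
  simp only [Equiv.coe_addLeft, S.κ_eq, add_sub_cancel_left, ite_smul, zero_smul]
  rw [Finset.sum_ite_mem, Finset.univ_inter, Finset.smul_sum]

lemma sum_κ (j : ℕ) (u : Γ) :
    ∑ v, S.κ j s(u, v) = c₀ / (q * ρ) ^ j * (((S.Λ j).erase 0).card : ℝ) := by
  have := S.sum_κ_smul j u fun _ => (1 : ℝ)
  simpa using this

lemma sum_κ_le (j : ℕ) (u : Γ) : ∑ v, S.κ j s(u, v) ≤ c₀ / (q * ρ) ^ j * (D * ρ ^ j) := by
  rw [S.sum_κ]
  refine mul_le_mul_of_nonneg_left (le_trans ?_ (S.card_le j)) (S.par.c_pos j).le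
  exact_mod_cast Finset.card_le_card (Finset.erase_subset _ _)

variable {S}

lemma Sparse.subset {m : ℝ} {j : ℕ} {a : ℝ} {B B' : Finset Γ} (h : S.Sparse m j a B)
    (hB : B' ⊆ B) : S.Sparse m j a B' := fun i hi y =>
  le_trans (by exact_mod_cast Finset.card_le_card (Finset.filter_subset_filter _ hB)) (h i hi y)

lemma Sparse.union {m : ℝ} {j : ℕ} {a a' : ℝ} {B B' : Finset Γ} (h : S.Sparse m j a B)
    (h' : S.Sparse m j a' B') : S.Sparse m j (a + a') (B ∪ B') := fun i hi y => by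
  rw [Finset.filter_union, add_mul]
  refine le_trans ?_ (add_le_add (h i hi y) (h' i hi y))
  exact_mod_cast Finset.card_union_le _ _

lemma Sparse.of_le {m : ℝ} {i j : ℕ} {a : ℝ} {B : Finset Γ} (h : S.Sparse m j a B) (hij : i ≤ j) :
    S.Sparse m i a B := fun k hk y => h k (hk.trans hij) y

lemma Sparse.mono {m : ℝ} (hm : 0 ≤ m) {j : ℕ} {a a' : ℝ} {B : Finset Γ} (h : S.Sparse m j a B)
    (ha : a ≤ a') : S.Sparse m j a' B := fun i hi y =>
  (h i hi y).trans (mul_le_mul_of_nonneg_right ha (pow_nonneg hm i))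

lemma sparse_empty {m : ℝ} (hm : 0 ≤ m) (j : ℕ) {a : ℝ} (ha : 0 ≤ a) :
    S.Sparse m j a ∅ := fun i _ y => by
  simpa using mul_nonneg ha (pow_nonneg hm i)

lemma sparse_shift {m : ℝ} {j : ℕ} {a : ℝ} (B : Finset Γ) (z : Γ) :
    S.Sparse m j a (B.map (addRightEmbedding z)) ↔ S.Sparse m j a B := by
  have key : ∀ i y, ((B.map (addRightEmbedding z)).filter fun b => b - (y + z) ∈ S.Λ i).card
      = (B.filter fun b => b - y ∈ S.Λ i).card := by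
    intro i y
    rw [Finset.filter_map, Finset.card_map]
    congr 1
    ext b
    simp
  constructor
  · intro h i hi y
    rw [← key]; exact h i hi _
  · intro h i hi y
    have := key i (y - z)
    rw [sub_add_cancel] at this
    rw [this]; exact h i hi _

end Setup

/-- hypotheses on the kernel -/
structure Kernel (d : ℕ) (α c : ℝ) (J : Sym2 (Fin d → ℤ) → ℝ) : Prop where
  nonneg : ∀ e, 0 ≤ J e
  inv : ∀ x y, J s(x, y) = J s(0, y - x)
  summable : Summable fun y => J s(0, y)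
  lower : ∀ x y, x ≠ y →
    c * euc (fun i => ((x i - y i : ℤ) : ℝ)) ^ (-((d : ℝ) + α)) ≤ J s(x, y)

lemma Kernel.toInv {d : ℕ} {α c : ℝ} {J : Sym2 (Fin d → ℤ) → ℝ} (h : Kernel d α c J) : Inv J :=
  fun u v a => by rw [h.inv, h.inv u v, add_sub_add_right_eq_sub]

lemma Kernel.summable' {d : ℕ} {α c : ℝ} {J : Sym2 (Fin d → ℤ) → ℝ} (h : Kernel d α c J)
    (u : Fin d → ℤ) : Summable fun y => J s(u, y) := by
  have := (Equiv.subRight u).summable_iff.mpr h.summable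
  refine this.congr fun y => ?_
  simp [h.inv u y]

lemma smul_nonneg' {V : Type*} {J : Sym2 V → ℝ} (hJ : ∀ e, 0 ≤ J e) {β : ℝ} (hβ : 0 ≤ β)
    (e : Sym2 V) : 0 ≤ (β • J) e := mul_nonneg hβ (hJ e)

/-- total weight of the pairs joining `u` to the complement of `S` -/
noncomputable def tail {V : Type*} (J : Sym2 V → ℝ) (u : V) (S : Finset V) : ℝ :=
  ∑' v : {v // v ∉ S}, J s(u, v.1)

lemma tail_nonneg {V : Type*} {J : Sym2 V → ℝ} (hJ : ∀ e, 0 ≤ J e) (u : V) (S : Finset V) :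
    0 ≤ tail J u S := tsum_nonneg fun _ => hJ _

lemma tail_eq {V : Type*} {J : Sym2 V → ℝ} {u : V} (h : Summable fun y => J s(u, y))
    (S : Finset V) : tail J u S = (∑' y, J s(u, y)) - ∑ y ∈ S, J s(u, y) := by
  have := h.sum_add_tsum_compl (s := S)
  rw [← this, add_sub_cancel_left]
  rfl

lemma sum_le_tail {V : Type*} [DecidableEq V] {J : Sym2 V → ℝ} (hJ : ∀ e, 0 ≤ J e) {u : V}
    (h : Summable fun y => J s(u, y)) {S T : Finset V} (hT : Disjoint S T) :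
    ∑ y ∈ T, J s(u, y) ≤ tail J u S := by
  rw [tail_eq h, le_sub_iff_add_le', ← Finset.sum_union hT]
  exact h.sum_le_tsum _ fun _ _ => hJ _

lemma tendsto_tail {V : Type*} (J : Sym2 V → ℝ) (u : V) :
    Filter.Tendsto (fun S : Finset V => tail J u S) Filter.atTop (nhds 0) :=
  tendsto_tsum_compl_atTop_zero fun y => J s(u, y)

/-- the quantity of Duminil-Copin and Tassion -/
noncomputable def phi {d : ℕ} (J : Sym2 (Fin d → ℤ) → ℝ) (β : ℝ) (S : Finset (Fin d → ℤ)) : ℝ :=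
  ∑ u ∈ S, tau (β • J) S 0 u * (β * tail J u S)

/-- the discrete torus of side `n + 1` -/
abbrev Tor (d n : ℕ) : Type := Fin d → ZMod (n + 1)

/-- centred representative of a torus point -/
def rep {d n : ℕ} (x : Tor d n) : Fin d → ℤ := fun i => (x i).valMinAbs

/-- projection to the torus -/
def proj {d : ℕ} (n : ℕ) (x : Fin d → ℤ) : Tor d n := fun i => (x i : ZMod (n + 1))

/-- the kernel on the torus -/
noncomputable def wT {d : ℕ} (J : Sym2 (Fin d → ℤ) → ℝ) (β : ℝ) (n : ℕ) : Sym2 (Tor d n) → ℝ :=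
  Sym2.lift ⟨fun u v => β * min (J s(0, rep (v - u))) (J s(0, rep (u - v))),
    fun _ _ => congrArg (β * ·) (min_comm _ _)⟩

lemma wT_mk {d : ℕ} (J : Sym2 (Fin d → ℤ) → ℝ) (β : ℝ) (n : ℕ) (u v : Tor d n) :
    wT J β n s(u, v) = β * min (J s(0, rep (v - u))) (J s(0, rep (u - v))) := rfl

lemma wT_nonneg {d : ℕ} {J : Sym2 (Fin d → ℤ) → ℝ} (hJ : ∀ e, 0 ≤ J e) {β : ℝ} (hβ : 0 ≤ β)
    (n : ℕ) (e : Sym2 (Tor d n)) : 0 ≤ wT J β n e := by
  induction e using Sym2.ind with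
  | h u v => exact mul_nonneg hβ (le_min (hJ _) (hJ _))

lemma wT_inv {d : ℕ} (J : Sym2 (Fin d → ℤ) → ℝ) (β : ℝ) (n : ℕ) : Inv (wT J β n) :=
  fun u v a => by rw [wT_mk, wT_mk, add_sub_add_right_eq_sub, add_sub_add_right_eq_sub]

lemma proj_rep {d n : ℕ} (x : Tor d n) : proj n (rep x) = x := by
  funext i; simp [proj, rep]

/-- boxes on the torus -/
def box (d n i : ℕ) : Finset (Tor d n) := Finset.univ.filter fun x => ∀ k, |rep x k| ≤ 2 ^ i

/-- characters of the torus -/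
noncomputable def chr {d : ℕ} (n : ℕ) (k : Fin d → ℤ) : Tor d n → ℂ := fun x =>
  Complex.exp (Complex.I * ((∑ i, 2 * Real.pi * k i / (n + 1) * rep x i : ℝ) : ℂ))

/-- amplitude of the stage kernels on the torus -/
noncomputable def cZero (d : ℕ) (α c β₀ : ℝ) : ℝ := β₀ * c * (d : ℝ) ^ (-((d : ℝ) + α) / 2) / 2

end Pool.Agent.Lib.MP_6fc7d9_pr
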