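import Pool.Agent.Lib.MP_6fc7d9_pr.Group
import Pool.Agent.Lib.MP_6fc7d9_pr.Tele

set_option linter.unusedSectionVars false

namespace Pool.Agent.Lib.MP_6fc7d9_pr
open Finset

/-- Bound on the derivative of the tilted cluster sum in the complement of a sparse set. -/
theorem deriv_bound {Γ : Type} [AddCommGroup Γ] [Fintype Γ] [DecidableEq Γ] {q ρ D c₀ : ℝ} {M : ℕ}
    (S : Setup Γ q ρ D c₀ M) {e : Γ → ℂ} (he : IsChar e) {m : ℝ} (hm : 0 ≤ m) (j : ℕ) {t : ℝ}
    (ht : t ∈ Set.Icc (0 : ℝ) 1) {X a L Y δ : ℝ} (hX : chi (S.W (j + 1)) univ 0 ≤ X)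
    (ha : 0 ≤ a) (hL : 0 ≤ L) (hY : 0 ≤ Y)
    (hbad : EK (S.Wt j t) univ {0} (fun K => (K.card : ℝ) * ind (¬ S.Sparse m j L K)) ≤ δ)
    (hrec : ∀ B', S.Sparse m j (a + 2 * L) B' → ∀ x, ‖GG (S.Wt j t) (univ \ B') {x} e‖ ≤ Y)
    (B : Finset Γ) (hB : S.Sparse m j a B) (x : Γ) :
    ‖EK (S.Wt j t) (univ \ B) {x} fun K => ∑ u ∈ K, ∑ v ∈ (univ \ B) \ K,
        S.κ j s(u, v) • GG (S.Wt j t) ((univ \ B) \ K) {v} e‖
      ≤ ‖GG (S.Wt j t) (univ \ B) {x} e‖ * (c₀ / (q * ρ) ^ j * (‖∑ y ∈ S.Λ j, e y‖ + 1)) * X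
        + c₀ / (q * ρ) ^ j * ((a + L) * m ^ j) * X ^ 2 * (Y + δ)
        + 2 * (c₀ / (q * ρ) ^ j * (D * ρ ^ j)) * X * δ := by
  set w := S.Wt j t with hw
  have hw0 : ∀ e, 0 ≤ w e := S.Wt_nonneg j ht.1
  have hwi : Inv w := S.Wt_inv j t
  set c := c₀ / (q * ρ) ^ j with hc
  have hc0 : 0 ≤ c := (S.par.c_pos j).le
  have hχ : chi w univ 0 ≤ X :=
    (chi_mono hw0 (S.Wt_le_W j ht.2) subset_rfl 0).trans hX
  have hχU : ∀ U y, chi w U y ≤ X := fun U y => (chi_le_univ hw0 hwi U y).trans hχ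
  have hX0 : 0 ≤ X := (chi_nonneg hw0 _ _).trans hχ
  have hGX : ∀ U y, ‖GG w U {y} e‖ ≤ X := fun U y =>
    (norm_GG_le_chi hw0 U y he.norm_le).trans (hχU U y)
  have hδ : 0 ≤ δ := le_trans (EK_nonneg hw0 _ fun K _ =>
    mul_nonneg (Nat.cast_nonneg _) (ind_nonneg _)) hbad
  set T := GG w univ {0} e with hT
  set k : ℂ := c • ∑ y ∈ (S.Λ j).erase 0, e y with hk
  have hk1 : ‖k‖ ≤ c * (‖∑ y ∈ S.Λ j, e y‖ + 1) := by
    rw [hk, norm_smul, Real.norm_of_nonneg hc0]
    refine mul_le_mul_of_nonneg_left ?_ hc0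
    rw [Finset.sum_erase_eq_sub (S.zero_mem j)]
    exact (norm_sub_le _ _).trans (add_le_add le_rfl (he.norm_le 0))
  -- the error term
  set Δ : Finset Γ → Γ → ℂ := fun K v => GG w univ {v} e - GG w (univ \ (B ∪ K)) {v} e with hΔ
  have hsplit : ∀ K : Finset Γ, (∑ u ∈ K, ∑ v ∈ (univ \ B) \ K,
        S.κ j s(u, v) • GG w ((univ \ B) \ K) {v} e)
      = (∑ u ∈ K, e u) * (k * T) - ∑ u ∈ K, ∑ v, S.κ j s(u, v) • Δ K v := by
    intro K
    rw [Finset.sum_mul, ← Finset.sum_sub_distrib]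
    refine Finset.sum_congr rfl fun u _ => ?_
    have e1 : ∑ v ∈ (univ \ B) \ K, S.κ j s(u, v) • GG w ((univ \ B) \ K) {v} e
        = ∑ v, S.κ j s(u, v) • GG w ((univ \ B) \ K) {v} e :=
      Finset.sum_subset (Finset.subset_univ _) fun v _ hv => by rw [GG_of_notMem w hv, smul_zero]
    have e2 : ∑ v, S.κ j s(u, v) • GG w univ {v} e = e u * (k * T) := by
      rw [S.sum_κ_smul, hk, smul_mul_assoc, mul_smul_comm, Finset.sum_mul, Finset.mul_sum]
      congr 1
      refine Finset.sum_congr rfl fun y _ => ?_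
      rw [GG_char hwi he, he.map_add, mul_assoc]
    rw [e1, ← e2, ← Finset.sum_sub_distrib]
    refine Finset.sum_congr rfl fun v _ => ?_
    rw [hΔ, ← smul_sub, sdiff_sdiff_left, Finset.sup_eq_union]
    simp
  set H : Finset Γ → ℝ := fun C => Y + X * ind (¬ S.Sparse m j L C) with hH
  have hH0 : ∀ C, 0 ≤ H C := fun C => add_nonneg hY (mul_nonneg hX0 (ind_nonneg _))
  have hHm : Monotone H := fun C C' h => add_le_add le_rfl
    (mul_le_mul_of_nonneg_left (ind_mono fun h1 h2 => h1 (h2.subset h)) hX0)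
  have hHs : ∀ K a, H (K.map (addRightEmbedding a)) = H K := fun K a => by
    simp only [hH, ind_congr (not_congr (Setup.sparse_shift (S := S) K a))]
  have hHE : EK w univ {0} (fun K => (K.card : ℝ) * H K) ≤ X * (Y + δ) := by
    have : (fun K : Finset Γ => (K.card : ℝ) * H K)
        = fun K => (K.card : ℝ) * Y + X * ((K.card : ℝ) * ind (¬ S.Sparse m j L K)) := by
      funext K; simp only [hH]; ring
    rw [this, EK_add, EK_mul_const, EK_const_mul, mul_add]
    exact add_le_add (mul_le_mul_of_nonneg_right hχ hY) (mul_le_mul_of_nonneg_left hbad hX0)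
  have hN0 : 0 ≤ (a + L) * m ^ j := mul_nonneg (add_nonneg ha hL) (pow_nonneg hm j)
  have herr : ∀ (K : Finset Γ) (u : Γ), ‖∑ v, S.κ j s(u, v) • Δ K v‖
      ≤ c * ((a + L) * m ^ j) * (X * (Y + δ))
        + ind (¬ S.Sparse m j L K) * (2 * (c * (D * ρ ^ j)) * X) := by
    intro K u
    have g0 : ‖∑ v, S.κ j s(u, v) • Δ K v‖ ≤ ∑ v, S.κ j s(u, v) * ‖Δ K v‖ :=
      (norm_sum_le _ _).trans (le_of_eq (Finset.sum_congr rfl fun v _ => by
        rw [norm_smul, Real.norm_of_nonneg (S.κ_nonneg j _)]))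
    refine g0.trans ?_
    by_cases hK : S.Sparse m j L K
    · rw [ind_neg (not_not.mpr hK), zero_mul, add_zero]
      have hBK := hB.union hK
      have g1 : ∀ v, ‖Δ K v‖ ≤ ∑ b ∈ B ∪ K, EK w univ {v} fun C => ind (b ∈ C) * H C := by
        intro v
        refine telescope hw0 univ (B ∪ K) v e H hHm hH0 fun B' hB' C b _ => ?_
        by_cases hC : S.Sparse m j L C
        · refine le_trans (hrec (B' ∪ C) ?_ b) (le_add_of_nonneg_right
            (mul_nonneg hX0 (ind_nonneg _)))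
          have := (hBK.subset hB').union hC
          rwa [show a + L + L = a + 2 * L by ring] at this
        · simp only [hH, ind_pos hC, mul_one]
          exact (hGX _ _).trans (le_add_of_nonneg_left hY)
      calc ∑ v, S.κ j s(u, v) * ‖Δ K v‖
          ≤ ∑ v, S.κ j s(u, v) * ∑ b ∈ B ∪ K, EK w univ {v} fun C => ind (b ∈ C) * H C :=
            Finset.sum_le_sum fun v _ => mul_le_mul_of_nonneg_left (g1 v) (S.κ_nonneg j _)
        _ ≤ c * ((a + L) * m ^ j) * EK w univ {0} fun K => (K.card : ℝ) * H K :=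
            conv_bound S hw0 hwi H hH0 hHs j (B ∪ K) (fun y => hBK j le_rfl y) u
        _ ≤ _ := mul_le_mul_of_nonneg_left hHE (mul_nonneg hc0 hN0)
    · rw [ind_pos hK, one_mul]
      have g1 : ∀ v, ‖Δ K v‖ ≤ 2 * X := fun v =>
        (norm_sub_le _ _).trans (by linarith [hGX univ v, hGX (univ \ (B ∪ K)) v])
      calc ∑ v, S.κ j s(u, v) * ‖Δ K v‖ ≤ ∑ v, S.κ j s(u, v) * (2 * X) :=
            Finset.sum_le_sum fun v _ => mul_le_mul_of_nonneg_left (g1 v) (S.κ_nonneg j _)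
        _ ≤ c * (D * ρ ^ j) * (2 * X) := by
            rw [← Finset.sum_mul]
            exact mul_le_mul_of_nonneg_right (S.sum_κ_le j u) (by linarith)
        _ ≤ _ := by
            have : 0 ≤ c * ((a + L) * m ^ j) * (X * (Y + δ)) :=
              mul_nonneg (mul_nonneg hc0 hN0) (mul_nonneg hX0 (add_nonneg hY hδ))
            linarith
  have hDρ : 0 ≤ 2 * (c * (D * ρ ^ j)) * X :=
    mul_nonneg (mul_nonneg zero_le_two (mul_nonneg hc0
      (mul_nonneg (by linarith [S.par.hD]) (pow_pos S.par.ρ_pos j).le))) hX0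
  have hbad' : EK w (univ \ B) {x} (fun K => (K.card : ℝ) * ind (¬ S.Sparse m j L K)) ≤ δ := by
    refine le_trans (EK_mono_dom hw0 (fun _ => le_rfl) (Finset.subset_univ _) subset_rfl ?_) ?_
    · intro C C' h
      exact mul_le_mul (Nat.cast_le.mpr (Finset.card_le_card h))
        (ind_mono fun h1 h2 => h1 (h2.subset h)) (ind_nonneg _) (Nat.cast_nonneg _)
    · rw [EK_shift hwi x]
      simp only [Finset.card_map, ind_congr (not_congr (Setup.sparse_shift (S := S) _ x))]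
      exact hbad
  simp only [hsplit]
  rw [EK_sub, EK_mul_const_complex, add_assoc]
  refine (norm_sub_le _ _).trans (add_le_add ?_ ?_)
  · rw [norm_mul, norm_mul, mul_assoc]
    exact mul_le_mul_of_nonneg_left (mul_le_mul hk1 (hGX univ 0) (norm_nonneg _)
      ((norm_nonneg _).trans hk1)) (norm_nonneg _)
  · refine (norm_EK_le hw0 _ (H' := fun K => (K.card : ℝ) * (c * ((a + L) * m ^ j) * (X * (Y + δ)))
      + ((K.card : ℝ) * ind (¬ S.Sparse m j L K)) * (2 * (c * (D * ρ ^ j)) * X))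
      fun K _ => ?_).trans ?_
    · refine (norm_sum_le _ _).trans ((Finset.sum_le_sum fun u _ => herr K u).trans (le_of_eq ?_))
      rw [Finset.sum_const, nsmul_eq_mul]; ring
    · rw [EK_add, EK_mul_const, EK_mul_const]
      refine add_le_add ?_ ?_
      · refine (mul_le_mul_of_nonneg_right (hχU _ _)
          (mul_nonneg (mul_nonneg hc0 hN0) (mul_nonneg hX0 (add_nonneg hY hδ)))).trans
          (le_of_eq ?_)
        ring
      · rw [mul_comm]
        exact mul_le_mul_of_nonneg_left hbad' hDρ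

end Pool.Agent.Lib.MP_6fc7d9_pr
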