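import Mathlib

/-!
Finite Bernoulli expectations: `Ex F p f` is the expectation of `f ω` for a random subset `ω` of the
finite set `F` containing each `e` independently with probability `p e`.
-/

namespace Pool.Agent.Lib.MP_6fc7d9_pr
open Finset

open Classical in
/-- real indicator of a proposition -/
noncomputable def ind (P : Prop) : ℝ := if P then 1 else 0

lemma ind_pos {P : Prop} (h : P) : ind P = 1 := by simp [ind, h]
lemma ind_neg {P : Prop} (h : ¬ P) : ind P = 0 := by simp [ind, h]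
lemma ind_nonneg (P : Prop) : 0 ≤ ind P := by unfold ind; split_ifs <;> norm_num
lemma ind_le_one (P : Prop) : ind P ≤ 1 := by unfold ind; split_ifs <;> norm_num
lemma ind_mono {P Q : Prop} (h : P → Q) : ind P ≤ ind Q := by
  by_cases hP : P
  · rw [ind_pos hP, ind_pos (h hP)]
  · rw [ind_neg hP]; exact ind_nonneg _
lemma ind_congr {P Q : Prop} (h : P ↔ Q) : ind P = ind Q := by rw [propext h]
lemma ind_and (P Q : Prop) : ind (P ∧ Q) = ind P * ind Q := by
  by_cases hP : P <;> by_cases hQ : Q <;> simp [ind, hP, hQ]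
lemma ind_not (P : Prop) : ind (¬ P) = 1 - ind P := by
  by_cases hP : P <;> simp [ind, hP]
lemma ind_eq_ite (P : Prop) [Decidable P] : ind P = if P then 1 else 0 := by
  by_cases hP : P <;> simp [ind, hP]
lemma sum_ind_mem {V : Type*} [DecidableEq V] (U K : Finset V) :
    ∑ y ∈ U, ind (y ∈ K) = ((U ∩ K).card : ℝ) := by
  simp only [ind_eq_ite]
  rw [Finset.sum_ite_mem]; simp

variable {ε : Type*} [DecidableEq ε]

/-- probability of the configuration `ω` inside the ambient set `F` -/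
def wt (F : Finset ε) (p : ε → ℝ) (ω : Finset ε) : ℝ :=
  (∏ e ∈ ω, p e) * ∏ e ∈ F \ ω, (1 - p e)

/-- expectation of `f` over a random subset of `F` -/
def Ex {E : Type*} [AddCommGroup E] [Module ℝ E] (F : Finset ε) (p : ε → ℝ) (f : Finset ε → E) :
    E := ∑ ω ∈ F.powerset, wt F p ω • f ω

section alg
variable {E : Type*} [AddCommGroup E] [Module ℝ E]

lemma Ex_empty (p : ε → ℝ) (f : Finset ε → E) : Ex ∅ p f = f ∅ := by
  simp [Ex, wt]

lemma Ex_insert {F : Finset ε} {e : ε} (he : e ∉ F) (p : ε → ℝ) (f : Finset ε → E) :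
    Ex (insert e F) p f
      = p e • Ex F p (fun ω => f (insert e ω)) + (1 - p e) • Ex F p f := by
  unfold Ex
  rw [Finset.sum_powerset_insert he, add_comm, Finset.smul_sum, Finset.smul_sum]
  congr 1
  · refine Finset.sum_congr rfl fun ω hω => ?_
    have hω' : ω ⊆ F := Finset.mem_powerset.mp hω
    have h1 : e ∉ ω := fun h => he (hω' h)
    have h2 : insert e F \ insert e ω = F \ ω := by
      ext x; simp only [Finset.mem_sdiff, Finset.mem_insert]
      constructor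
      · rintro ⟨h | h, h'⟩
        · exact absurd (Or.inl h) h'
        · exact ⟨h, fun hx => h' (Or.inr hx)⟩
      · rintro ⟨h, h'⟩
        exact ⟨Or.inr h, fun hx => hx.elim (fun hx => he (hx ▸ h)) h'⟩
    rw [smul_smul, wt, wt, h2, Finset.prod_insert h1, mul_assoc]
  · refine Finset.sum_congr rfl fun ω hω => ?_
    have hω' : ω ⊆ F := Finset.mem_powerset.mp hω
    have h1 : e ∉ ω := fun h => he (hω' h)
    have h2 : insert e F \ ω = insert e (F \ ω) := Finset.insert_sdiff_of_notMem _ h1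
    have h3 : e ∉ F \ ω := fun h => he (Finset.mem_sdiff.mp h).1
    rw [smul_smul, wt, wt, h2, Finset.prod_insert h3]
    congr 1; ring

lemma Ex_congr {F : Finset ε} {p : ε → ℝ} {f g : Finset ε → E} (h : ∀ ω ⊆ F, f ω = g ω) :
    Ex F p f = Ex F p g :=
  Finset.sum_congr rfl fun ω hω => by rw [h ω (Finset.mem_powerset.mp hω)]

lemma Ex_congr_p {F : Finset ε} {p p' : ε → ℝ} (h : ∀ e ∈ F, p e = p' e) (f : Finset ε → E) :
    Ex F p f = Ex F p' f := by
  refine Finset.sum_congr rfl fun ω hω => ?_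
  have hω' : ω ⊆ F := Finset.mem_powerset.mp hω
  unfold wt
  have h1 : ∏ e ∈ ω, p e = ∏ e ∈ ω, p' e := Finset.prod_congr rfl (fun e he => h e (hω' he))
  have h2 : ∏ e ∈ F \ ω, (1 - p e) = ∏ e ∈ F \ ω, (1 - p' e) :=
    Finset.prod_congr rfl (fun e he => by rw [h e (Finset.mem_sdiff.mp he).1])
  rw [h1, h2]

lemma Ex_const (F : Finset ε) (p : ε → ℝ) (c : E) : Ex F p (fun _ => c) = c := by
  induction F using Finset.induction_on with
  | empty => exact Ex_empty _ _
  | insert e F he ih => rw [Ex_insert he, ih, ← add_smul]; simp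

lemma Ex_zero (F : Finset ε) (p : ε → ℝ) : Ex F p (fun _ => (0 : E)) = 0 := Ex_const F p 0

lemma Ex_add (F : Finset ε) (p : ε → ℝ) (f g : Finset ε → E) :
    Ex F p (fun ω => f ω + g ω) = Ex F p f + Ex F p g := by
  simp [Ex, Finset.sum_add_distrib]

lemma Ex_sub (F : Finset ε) (p : ε → ℝ) (f g : Finset ε → E) :
    Ex F p (fun ω => f ω - g ω) = Ex F p f - Ex F p g := by
  simp [Ex, smul_sub, Finset.sum_sub_distrib]

lemma Ex_smul (F : Finset ε) (p : ε → ℝ) (c : ℝ) (f : Finset ε → E) :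
    Ex F p (fun ω => c • f ω) = c • Ex F p f := by
  simp only [Ex, Finset.smul_sum]
  exact Finset.sum_congr rfl fun ω _ => smul_comm _ _ _

lemma Ex_smul_const (F : Finset ε) (p : ε → ℝ) (f : Finset ε → ℝ) (c : E) :
    Ex F p (fun ω => f ω • c) = Ex F p f • c := by
  simp only [Ex, Finset.sum_smul, smul_smul, smul_eq_mul]

lemma Ex_sum {ι : Type*} (F : Finset ε) (p : ε → ℝ) (s : Finset ι) (f : ι → Finset ε → E) :
    Ex F p (fun ω => ∑ i ∈ s, f i ω) = ∑ i ∈ s, Ex F p (f i) := by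
  simp only [Ex, Finset.smul_sum]
  exact Finset.sum_comm

lemma Ex_linearMap {E' : Type*} [AddCommGroup E'] [Module ℝ E'] (L : E →ₗ[ℝ] E')
    (F : Finset ε) (p : ε → ℝ) (f : Finset ε → E) :
    Ex F p (fun ω => L (f ω)) = L (Ex F p f) := by
  simp [Ex]

lemma Ex_const_mul (F : Finset ε) (p : ε → ℝ) (c : ℝ) (f : Finset ε → ℝ) :
    Ex F p (fun ω => c * f ω) = c * Ex F p f := Ex_smul F p c f

lemma Ex_mul_const (F : Finset ε) (p : ε → ℝ) (f : Finset ε → ℝ) (c : ℝ) :
    Ex F p (fun ω => f ω * c) = Ex F p f * c := Ex_smul_const F p f c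

lemma Ex_mul_const_complex (F : Finset ε) (p : ε → ℝ) (f : Finset ε → ℂ) (c : ℂ) :
    Ex F p (fun ω => f ω * c) = Ex F p f * c := by
  simp only [Ex, Finset.sum_mul, smul_mul_assoc]

lemma Ex_comm (F F' : Finset ε) (p p' : ε → ℝ) (f : Finset ε → Finset ε → E) :
    Ex F p (fun ω => Ex F' p' (fun ω' => f ω ω')) = Ex F' p' (fun ω' => Ex F p (fun ω => f ω ω')) := by
  simp only [Ex, Finset.smul_sum]
  rw [Finset.sum_comm]
  exact Finset.sum_congr rfl fun _ _ => Finset.sum_congr rfl fun _ _ => smul_comm _ _ _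

/-- Fubini for a disjoint union of ambient sets -/
lemma Ex_union {F₁ F₂ : Finset ε} (h : Disjoint F₁ F₂) (p : ε → ℝ) (f : Finset ε → E) :
    Ex (F₁ ∪ F₂) p f = Ex F₁ p (fun ω₁ => Ex F₂ p (fun ω₂ => f (ω₁ ∪ ω₂))) := by
  induction F₁ using Finset.induction_on generalizing f with
  | empty => simp [Ex_empty]
  | insert e F he ih =>
    have h1 : e ∉ F₂ := Finset.disjoint_left.mp h (Finset.mem_insert_self _ _)
    have h2 : Disjoint F F₂ := Finset.disjoint_of_subset_left (Finset.subset_insert _ _) h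
    have h3 : e ∉ F ∪ F₂ := by simp [he, h1]
    rw [Finset.insert_union, Ex_insert h3, Ex_insert he, ih h2, ih h2]
    simp only [Finset.insert_union]

/-- a function of `ω ∩ F` has the same expectation in every larger ambient set -/
lemma Ex_ambient {F F' : Finset ε} (h : F ⊆ F') (p : ε → ℝ) (f : Finset ε → E)
    (hf : ∀ ω, f (ω ∩ F) = f ω) : Ex F' p f = Ex F p f := by
  have h1 : F' = F ∪ (F' \ F) := (Finset.union_sdiff_of_subset h).symm
  rw [h1, Ex_union Finset.disjoint_sdiff]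
  refine Ex_congr fun ω hω => ?_
  rw [← Ex_const (F' \ F) p (f ω)]
  refine Ex_congr fun ω₂ hω₂ => ?_
  rw [← hf (ω ∪ ω₂), ← hf ω]
  congr 1
  ext x
  simp only [Finset.mem_inter, Finset.mem_union]
  constructor
  · rintro ⟨hx | hx, hx'⟩
    · exact ⟨hx, hx'⟩
    · exact absurd hx' (Finset.mem_sdiff.mp (hω₂ hx)).2
  · rintro ⟨hx, hx'⟩; exact ⟨Or.inl hx, hx'⟩

/-- independence: `I` depends only on the edges satisfying `D`, `H` only on the other edges -/
lemma Ex_indep (F : Finset ε) (p : ε → ℝ) (D : ε → Prop) (I : Finset ε → ℝ) (H : Finset ε → E)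
    (hI : ∀ ω ω', (∀ e, D e → (e ∈ ω ↔ e ∈ ω')) → I ω = I ω')
    (hH : ∀ ω ω', (∀ e, ¬ D e → (e ∈ ω ↔ e ∈ ω')) → H ω = H ω') :
    Ex F p (fun ω => I ω • H ω) = Ex F p I • Ex F p H := by
  classical
  have hd : Disjoint (F.filter D) (F.filter fun e => ¬ D e) := Finset.disjoint_filter_filter_not _ _ _
  have hF : F = F.filter D ∪ F.filter fun e => ¬ D e := (Finset.filter_union_filter_not_eq _ _).symm
  have hI' : ∀ ω₁ ω₂, ω₂ ⊆ (F.filter fun e => ¬ D e) → I (ω₁ ∪ ω₂) = I ω₁ := fun ω₁ ω₂ h₂ =>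
    hI _ _ fun e he => by
      simp only [Finset.mem_union]
      exact ⟨fun h => h.elim id fun h => absurd he (Finset.mem_filter.mp (h₂ h)).2, Or.inl⟩
  have hH' : ∀ ω₁ ω₂, ω₁ ⊆ F.filter D → H (ω₁ ∪ ω₂) = H ω₂ := fun ω₁ ω₂ h₁ =>
    hH _ _ fun e he => by
      simp only [Finset.mem_union]
      exact ⟨fun h => h.elim (fun h => absurd (Finset.mem_filter.mp (h₁ h)).2 he) id, Or.inr⟩
  have e1 : Ex F p I = Ex (F.filter D) p I := by
    conv_lhs => rw [hF]
    rw [Ex_union hd]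
    refine Ex_congr fun ω₁ _ => ?_
    rw [← Ex_const (F.filter fun e => ¬ D e) p (I ω₁)]
    exact Ex_congr fun ω₂ h₂ => hI' _ _ h₂
  have e2 : Ex F p H = Ex (F.filter fun e => ¬ D e) p H := by
    conv_lhs => rw [hF]
    rw [Ex_union hd, ← Ex_const (F.filter D) p (Ex (F.filter fun e => ¬ D e) p H)]
    exact Ex_congr fun ω₁ h₁ => Ex_congr fun ω₂ _ => hH' _ _ h₁
  rw [e1, e2, ← Ex_smul_const]
  conv_lhs => rw [hF]
  rw [Ex_union hd]
  refine Ex_congr fun ω₁ h₁ => ?_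
  rw [← Ex_smul]
  exact Ex_congr fun ω₂ h₂ => by rw [hI' _ _ h₂, hH' _ _ h₁]

/-- probability that a given edge is present -/
lemma Ex_ind_mem {F : Finset ε} {e : ε} (he : e ∈ F) (p : ε → ℝ) :
    Ex F p (fun ω => ind (e ∈ ω)) = p e := by
  rw [← Finset.insert_erase he, Ex_insert (Finset.notMem_erase _ _)]
  have h1 : Ex (F.erase e) p (fun ω => ind (e ∈ insert e ω)) = 1 := by
    rw [← Ex_const (F.erase e) p (1 : ℝ)]
    exact Ex_congr fun ω _ => ind_pos (Finset.mem_insert_self _ _)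
  have h2 : Ex (F.erase e) p (fun ω => ind (e ∈ ω)) = 0 := by
    rw [← Ex_const (F.erase e) p (0 : ℝ)]
    exact Ex_congr fun ω hω => ind_neg fun h => Finset.notMem_erase e F (hω h)
  rw [h1, h2]; simp

/-- transport along an injective map of the index set -/
lemma Ex_map {ε' : Type*} [DecidableEq ε'] (ι : ε ↪ ε') (F : Finset ε) (p : ε' → ℝ)
    (f : Finset ε' → E) :
    Ex (F.map ι) p f = Ex F (fun e => p (ι e)) (fun ω => f (ω.map ι)) := by
  induction F using Finset.induction_on generalizing f with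
  | empty => simp [Ex_empty]
  | insert e F he ih =>
    have h1 : ι e ∉ F.map ι := by simpa using he
    rw [Finset.map_insert, Ex_insert h1, Ex_insert he, ih, ih]
    simp only [Finset.map_insert]

end alg

lemma wt_nonneg {F : Finset ε} {p : ε → ℝ} (h0 : ∀ e, 0 ≤ p e) (h1 : ∀ e, p e ≤ 1)
    (ω : Finset ε) : 0 ≤ wt F p ω :=
  mul_nonneg (Finset.prod_nonneg fun e _ => h0 e)
    (Finset.prod_nonneg fun e _ => sub_nonneg.mpr (h1 e))

lemma Ex_mono {F : Finset ε} {p : ε → ℝ} (h0 : ∀ e, 0 ≤ p e) (h1 : ∀ e, p e ≤ 1)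
    {f g : Finset ε → ℝ} (h : ∀ ω ⊆ F, f ω ≤ g ω) : Ex F p f ≤ Ex F p g :=
  Finset.sum_le_sum fun ω hω =>
    smul_le_smul_of_nonneg_left (h ω (Finset.mem_powerset.mp hω)) (wt_nonneg h0 h1 ω)

lemma Ex_nonneg {F : Finset ε} {p : ε → ℝ} (h0 : ∀ e, 0 ≤ p e) (h1 : ∀ e, p e ≤ 1)
    {f : Finset ε → ℝ} (h : ∀ ω ⊆ F, 0 ≤ f ω) : 0 ≤ Ex F p f := by
  rw [← Ex_zero F p]; exact Ex_mono h0 h1 h

lemma Ex_le_const {F : Finset ε} {p : ε → ℝ} (h0 : ∀ e, 0 ≤ p e) (h1 : ∀ e, p e ≤ 1)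
    {f : Finset ε → ℝ} {c : ℝ} (h : ∀ ω ⊆ F, f ω ≤ c) : Ex F p f ≤ c := by
  rw [← Ex_const F p c]; exact Ex_mono h0 h1 h

lemma norm_Ex_le {E : Type*} [NormedAddCommGroup E] [NormedSpace ℝ E] {F : Finset ε} {p : ε → ℝ}
    (h0 : ∀ e, 0 ≤ p e) (h1 : ∀ e, p e ≤ 1) {f : Finset ε → E} {g : Finset ε → ℝ}
    (h : ∀ ω ⊆ F, ‖f ω‖ ≤ g ω) : ‖Ex F p f‖ ≤ Ex F p g := by
  refine (norm_sum_le _ _).trans (Finset.sum_le_sum fun ω hω => ?_)
  rw [norm_smul, Real.norm_of_nonneg (wt_nonneg h0 h1 ω), smul_eq_mul]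
  exact mul_le_mul_of_nonneg_left (h ω (Finset.mem_powerset.mp hω)) (wt_nonneg h0 h1 ω)

/-- expectations of increasing functions increase with the edge probabilities -/
lemma Ex_mono_p (F : Finset ε) {p p' : ε → ℝ} (h0 : ∀ e, 0 ≤ p e) (h1 : ∀ e, p' e ≤ 1)
    (hp : ∀ e, p e ≤ p' e) {f : Finset ε → ℝ} (hf : Monotone f) : Ex F p f ≤ Ex F p' f := by
  have h0' : ∀ e, 0 ≤ p' e := fun e => (h0 e).trans (hp e)
  have h1' : ∀ e, p e ≤ 1 := fun e => (hp e).trans (h1 e)
  induction F using Finset.induction_on generalizing f with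
  | empty => simp [Ex_empty]
  | insert e F he ih =>
    rw [Ex_insert he, Ex_insert he]
    have a1 := ih (f := fun ω => f (insert e ω))
      (fun ω ω' h => hf (Finset.insert_subset_insert e h))
    have a2 := ih hf
    have a3 : Ex F p' f ≤ Ex F p' (fun ω => f (insert e ω)) :=
      Ex_mono h0' h1 fun ω _ => hf (Finset.subset_insert e ω)
    simp only [smul_eq_mul]
    nlinarith [h0 e, h1 e, hp e, h1' e, mul_le_mul_of_nonneg_left a1 (h0 e),
      mul_le_mul_of_nonneg_left a2 (sub_nonneg.mpr (h1' e)),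
      mul_nonneg (sub_nonneg.mpr (hp e)) (sub_nonneg.mpr a3)]

end Pool.Agent.Lib.MP_6fc7d9_pr
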