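import Pool.Agent.Lib.MP_6fc7d9_pr.Model

set_option linter.unusedSectionVars false

namespace Pool.Agent.Lib.MP_6fc7d9_pr
open Finset

open MeasureTheory

lemma fourier_aux1 (n : ℤ) :
    ∫ t in Set.Icc (-Real.pi) Real.pi, Complex.exp (Complex.I * n * t)
      = if n = 0 then ((2 * Real.pi : ℝ) : ℂ) else 0 := by
  rw [integral_Icc_eq_integral_Ioc,
    ← intervalIntegral.integral_of_le (by linarith [Real.pi_pos])]
  split_ifs with h
  · simp [h]; ring
  · have hc : Complex.I * n ≠ 0 := mul_ne_zero Complex.I_ne_zero (by exact_mod_cast h)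
    rw [integral_exp_mul_complex hc, div_eq_zero_iff]
    left
    rw [sub_eq_zero, Complex.exp_eq_exp_iff_exists_int]
    exact ⟨n, by push_cast; ring⟩

lemma fourier_compact (d : ℕ) : IsCompact (cube d) :=
  isCompact_univ_pi fun _ => isCompact_Icc

lemma fourier_norm (x : ℝ) : ‖Complex.exp (Complex.I * (x : ℂ))‖ = 1 := by
  rw [mul_comm]; exact Complex.norm_exp_ofReal_mul_I x

/-- orthogonality of characters on the cube (Fubini: `integral_fintype_prod_eq_prod` with
`volume_pi`, `Measure.restrict_pi_pi`, and the one-dimensional integral of `exp (I m t)`) -/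
theorem integral_cube_exp {d : ℕ} (m : Fin d → ℤ) :
    ∫ θ in cube d, Complex.exp (Complex.I * ((∑ i, θ i * m i : ℝ) : ℂ))
      = if m = 0 then (((2 * Real.pi) ^ d : ℝ) : ℂ) else 0 := by
  have h1 : ∀ θ : Fin d → ℝ, Complex.exp (Complex.I * ((∑ i, θ i * m i : ℝ) : ℂ))
      = ∏ i, Complex.exp (Complex.I * (m i) * (θ i)) := by
    intro θ
    rw [← Complex.exp_sum]
    congr 1
    push_cast
    rw [Finset.mul_sum]
    exact Finset.sum_congr rfl fun i _ => by ring
  simp only [h1]
  rw [cube, volume_pi, Measure.restrict_pi_pi,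
    integral_fintype_prod_eq_prod (fun i (t : ℝ) => Complex.exp (Complex.I * (m i) * t))]
  simp only [fourier_aux1]
  split_ifs with h
  · simp [h]
  · obtain ⟨i, hi⟩ := Function.ne_iff.mp h
    exact Finset.prod_eq_zero (Finset.mem_univ i) (if_neg hi)

/-- continuity of an absolutely convergent Fourier series (`continuous_tsum`) -/
theorem continuous_series {d : ℕ} {a : (Fin d → ℤ) → ℝ} (ha : Summable a) :
    Continuous fun θ : Fin d → ℝ =>
      ∑' x : Fin d → ℤ, (a x : ℂ) * Complex.exp (Complex.I * ((∑ i, θ i * x i : ℝ) : ℂ)) := by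
  refine continuous_tsum (u := fun x => ‖a x‖) (fun x => by fun_prop) ha.norm fun x θ => ?_
  rw [norm_mul, fourier_norm, mul_one, Complex.norm_real]

/-- Fourier inversion (`integral_tsum` or `hasSum_integral_of_summable_norm`) -/
theorem inversion {d : ℕ} {a : (Fin d → ℤ) → ℝ} (ha : Summable a) (y : Fin d → ℤ) :
    ∫ θ in cube d, (∑' x : Fin d → ℤ, (a x : ℂ) *
        Complex.exp (Complex.I * ((∑ i, θ i * x i : ℝ) : ℂ))) *
        Complex.exp (-(Complex.I * ((∑ i, θ i * y i : ℝ) : ℂ)))
      = (((2 * Real.pi) ^ d : ℝ) : ℂ) * a y := by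
  have h1 : ∀ θ : Fin d → ℝ, (∑' x : Fin d → ℤ, (a x : ℂ) *
        Complex.exp (Complex.I * ((∑ i, θ i * x i : ℝ) : ℂ))) *
        Complex.exp (-(Complex.I * ((∑ i, θ i * y i : ℝ) : ℂ)))
      = ∑' x : Fin d → ℤ, (a x : ℂ) *
        Complex.exp (Complex.I * ((∑ i, θ i * (x - y) i : ℝ) : ℂ)) := by
    intro θ
    rw [← tsum_mul_right]
    refine tsum_congr fun x => ?_
    rw [mul_assoc, ← Complex.exp_add]
    congr 2
    simp only [Pi.sub_apply]
    push_cast
    simp only [mul_sub, Finset.sum_sub_distrib]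
    ring
  simp only [h1]
  have hint : ∀ x : Fin d → ℤ, Integrable (fun θ : Fin d → ℝ => (a x : ℂ) *
      Complex.exp (Complex.I * ((∑ i, θ i * (x - y) i : ℝ) : ℂ))) (volume.restrict (cube d)) :=
    fun x => ContinuousOn.integrableOn_compact (fourier_compact d)
      (Continuous.continuousOn (by fun_prop))
  have hsum : Summable fun x : Fin d → ℤ => ∫ θ in cube d, ‖(a x : ℂ) *
      Complex.exp (Complex.I * ((∑ i, θ i * (x - y) i : ℝ) : ℂ))‖ := by
    simp only [norm_mul, fourier_norm, mul_one, Complex.norm_real, integral_const, smul_eq_mul]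
    exact ha.norm.mul_left _
  rw [← integral_tsum_of_summable_integral_norm hint hsum]
  simp only [integral_const_mul, integral_cube_exp]
  rw [tsum_eq_single y]
  · simp [mul_comm]
  · intro x hx
    rw [if_neg (sub_ne_zero.mpr hx), mul_zero]

/-- `euc θ ≥ ‖θ‖` (sup norm of `Fin d → ℝ`), and `‖θ‖ ^ (-α)` is integrable on balls for `α < d`
(`integrableOn_rpow`-type lemmas: `MeasureTheory.integrableOn_fun_norm_addHaar`,
`integrable_fun_norm_addHaar`, or `locallyIntegrable_of_norm_le_rpow`) -/
theorem integrableOn_euc {d : ℕ} {α : ℝ} (hα : 0 < α) (hd : α < d) :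
    IntegrableOn (fun θ : Fin d → ℝ => euc θ ^ (-α)) (cube d) := by
  have hd1 : 1 ≤ d := by
    have : (0 : ℝ) < d := hα.trans hd
    exact_mod_cast this
  have hle : ∀ θ : Fin d → ℝ, ‖θ‖ ≤ euc θ := by
    intro θ
    refine (pi_norm_le_iff_of_nonneg (Real.sqrt_nonneg _)).mpr fun i => ?_
    rw [Real.norm_eq_abs]
    exact Real.abs_le_sqrt (Finset.single_le_sum (f := fun i => θ i ^ 2)
      (fun _ _ => sq_nonneg _) (Finset.mem_univ i))
  have hloc : LocallyIntegrable (fun θ : Fin d → ℝ => euc θ ^ (-α)) volume := by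
    refine locallyIntegrable_of_norm_le_rpow (C := 1) (α := α) (by simpa using hd1)
      (by simpa using hd) (Filter.Eventually.of_forall fun θ => ?_) ?_
    · rw [one_mul, Real.norm_of_nonneg (Real.rpow_nonneg ((norm_nonneg _).trans (hle θ)) _)]
      by_cases h : θ = 0
      · subst h; simp [euc]
      · exact Real.rpow_le_rpow_of_nonpos (norm_pos_iff.mpr h) (hle θ) (by linarith)
    · refine Measurable.aestronglyMeasurable ?_
      unfold euc
      fun_prop
  exact hloc.integrableOn_isCompact (fourier_compact d)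

end Pool.Agent.Lib.MP_6fc7d9_pr
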