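import Pool.Agent.Lib.MP_6fc7d9_pr.Defs

set_option linter.unusedSectionVars false

namespace Pool.Agent.Lib.MP_6fc7d9_pr
open Finset

variable {Γ : Type} [AddCommGroup Γ] [Fintype Γ] [DecidableEq Γ]

theorem EK_shift {E : Type*} [AddCommGroup E] [Module ℝ E] {w : Sym2 Γ → ℝ} (hw : Inv w) (a : Γ)
    (H : Finset Γ → E) :
    EK w univ {a} H = EK w univ {0} fun K => H (K.map (addRightEmbedding a)) := by
  have h := EK_map (addRightEmbedding a) w w univ {0} (fun u _ v _ => hw u v a) H
  have h1 : (univ : Finset Γ).map (addRightEmbedding a) = univ := by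
    ext x
    simp only [Finset.mem_map, Finset.mem_univ, true_and, addRightEmbedding_apply, iff_true]
    exact ⟨x - a, sub_add_cancel x a⟩
  rw [h1, Finset.map_singleton] at h
  simpa using h

theorem chi_shift {w : Sym2 Γ → ℝ} (hw : Inv w) (x : Γ) : chi w univ x = chi w univ 0 := by
  unfold chi
  rw [EK_shift hw x]
  simp

theorem chi_le_univ {w : Sym2 Γ → ℝ} (hw0 : ∀ e, 0 ≤ w e) (hw : Inv w) (U : Finset Γ) (x : Γ) :
    chi w U x ≤ chi w univ 0 := by
  rw [← chi_shift hw x]
  exact chi_mono hw0 (fun _ => le_rfl) (Finset.subset_univ U) x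

theorem tau_shift {w : Sym2 Γ → ℝ} (hw : Inv w) (x y : Γ) :
    tau w univ x y = tau w univ 0 (y - x) := by
  unfold tau
  rw [EK_shift hw x]
  refine EK_congr fun K _ => ind_congr ?_
  simp only [Finset.mem_map, addRightEmbedding_apply]
  constructor
  · rintro ⟨a, ha, rfl⟩; simpa using ha
  · intro h; exact ⟨_, h, sub_add_cancel y x⟩

theorem GG_char {w : Sym2 Γ → ℝ} (hw : Inv w) {e : Γ → ℂ} (he : IsChar e) (v : Γ) :
    GG w univ {v} e = e v * GG w univ {0} e := by
  unfold GG
  rw [EK_shift hw v, mul_comm, ← EK_mul_const_complex]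
  refine EK_congr fun K _ => ?_
  rw [Finset.sum_map, Finset.sum_mul]
  exact Finset.sum_congr rfl fun y _ => he.map_add y v

theorem mass_transport {w : Sym2 Γ → ℝ} (hw : Inv w) (H : Finset Γ → ℝ) :
    EK w univ {0} (fun K => ∑ z ∈ K, H (K.map (addRightEmbedding (-z))))
      = EK w univ {0} fun K => (K.card : ℝ) * H K := by
  have h1 : ∀ K : Finset Γ, ∑ z ∈ K, H (K.map (addRightEmbedding (-z)))
      = ∑ z, ind (z ∈ K) • H (K.map (addRightEmbedding (-z))) := by
    intro K
    simp only [ind_eq_ite, ite_smul, one_smul, zero_smul]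
    rw [Finset.sum_ite_mem, Finset.univ_inter]
  have h2 : ∀ z : Γ, EK w univ {0} (fun K => ind (z ∈ K) • H (K.map (addRightEmbedding (-z))))
      = EK w univ {0} fun K => ind (-z ∈ K) * H K := by
    intro z
    rw [EK_reroot, EK_shift hw z]
    refine EK_congr fun K _ => ?_
    have e1 : (K.map (addRightEmbedding z)).map (addRightEmbedding (-z)) = K := by
      ext x; simp
    have e2 : (0 : Γ) ∈ K.map (addRightEmbedding z) ↔ -z ∈ K := by
      simp only [Finset.mem_map, addRightEmbedding_apply]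
      constructor
      · rintro ⟨a, ha, h⟩; rwa [← eq_neg_of_add_eq_zero_left h]
      · intro h; exact ⟨_, h, neg_add_cancel z⟩
    rw [e1, ind_congr e2, smul_eq_mul]
  simp only [h1]
  rw [EK_sum]
  simp only [h2]
  rw [← EK_sum]
  refine EK_congr fun K _ => ?_
  rw [← Finset.sum_mul, ← Equiv.sum_comp (Equiv.neg Γ)]
  simp only [Equiv.neg_apply, neg_neg]
  rw [sum_ind_mem, Finset.univ_inter]

theorem conv_bound {q ρ D c₀ : ℝ} {M : ℕ} (S : Setup Γ q ρ D c₀ M) {w : Sym2 Γ → ℝ}
    (hw0 : ∀ e, 0 ≤ w e) (hw : Inv w) (H : Finset Γ → ℝ) (hH0 : ∀ K, 0 ≤ H K)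
    (hH : ∀ K a, H (K.map (addRightEmbedding a)) = H K) (j : ℕ) (B : Finset Γ) {N : ℝ}
    (hB : ∀ y, ((B.filter fun b => b - y ∈ S.Λ j).card : ℝ) ≤ N) (u : Γ) :
    ∑ v, S.κ j s(u, v) * ∑ b ∈ B, EK w univ {v} (fun K => ind (b ∈ K) * H K)
      ≤ c₀ / (q * ρ) ^ j * N * EK w univ {0} fun K => (K.card : ℝ) * H K := by
  set h : Γ → ℝ := fun y => EK w univ {0} fun K => ind (y ∈ K) * H K with hh
  have h0 : ∀ y, 0 ≤ h y := fun y =>
    EK_nonneg hw0 _ fun K _ => mul_nonneg (ind_nonneg _) (hH0 K)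
  have h1 : ∀ v b, EK w univ {v} (fun K => ind (b ∈ K) * H K) = h (b - v) := by
    intro v b
    rw [EK_shift hw v]
    refine EK_congr fun K _ => ?_
    rw [hH]
    congr 1
    refine ind_congr ?_
    simp only [Finset.mem_map, addRightEmbedding_apply]
    constructor
    · rintro ⟨a, ha, rfl⟩; simpa using ha
    · intro h; exact ⟨_, h, sub_add_cancel b v⟩
  have h2 : EK w univ {0} (fun K => (K.card : ℝ) * H K) = ∑ y, h y := by
    rw [hh, ← EK_sum]
    refine EK_congr fun K _ => ?_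
    rw [← Finset.sum_mul, sum_ind_mem, Finset.univ_inter]
  have hc := (S.par.c_pos j).le
  simp only [h1]
  rw [h2]
  calc ∑ v, S.κ j s(u, v) * ∑ b ∈ B, h (b - v)
      = ∑ b ∈ B, ∑ v, S.κ j s(u, v) * h (b - v) := by
        rw [Finset.sum_comm]
        exact Finset.sum_congr rfl fun v _ => Finset.mul_sum _ _ _
    _ = ∑ b ∈ B, ∑ y, S.κ j s(u, b - y) * h y := by
        refine Finset.sum_congr rfl fun b _ => ?_
        rw [← Equiv.sum_comp (Equiv.subLeft b)]
        simp
    _ = ∑ y, (∑ b ∈ B, S.κ j s(u, b - y)) * h y := by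
        rw [Finset.sum_comm]
        exact Finset.sum_congr rfl fun y _ => (Finset.sum_mul _ _ _).symm
    _ ≤ ∑ y, (c₀ / (q * ρ) ^ j * N) * h y := by
        refine Finset.sum_le_sum fun y _ => mul_le_mul_of_nonneg_right ?_ (h0 y)
        calc ∑ b ∈ B, S.κ j s(u, b - y)
            ≤ ∑ b ∈ B, if b - (u + y) ∈ S.Λ j then c₀ / (q * ρ) ^ j else 0 := by
              refine Finset.sum_le_sum fun b _ => ?_
              rw [S.κ_eq, show b - y - u = b - (u + y) by abel]
              split_ifs with g1 g2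
              · exact le_rfl
              · exact absurd (Finset.mem_of_mem_erase g1) g2
              · exact hc
              · exact le_rfl
          _ = c₀ / (q * ρ) ^ j * ((B.filter fun b => b - (u + y) ∈ S.Λ j).card : ℝ) := by
              rw [← Finset.sum_filter, Finset.sum_const, nsmul_eq_mul, mul_comm]
          _ ≤ _ := mul_le_mul_of_nonneg_left (hB _) hc
    _ = _ := (Finset.mul_sum _ _ _).symm

end Pool.Agent.Lib.MP_6fc7d9_pr
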