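import Pool.Agent.Lib.MP_6fc7d9_pr.Defs

set_option linter.unusedSectionVars false

namespace Pool.Agent.Lib.MP_6fc7d9_pr
open Finset

open MeasureTheory Filter Topology

section general
variable {V : Type} [DecidableEq V] {J : Sym2 V → ℝ} {β : ℝ}

lemma link_isProb (hJ : ∀ e, 0 ≤ J e) (hβ : 0 ≤ β) (e : Sym2 V) :
    IsProbabilityMeasure (ENNReal.ofReal (1 - Real.exp (-(β * J e))) • Measure.dirac true
      + ENNReal.ofReal (Real.exp (-(β * J e))) • Measure.dirac false) := by
  constructor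
  have h1 : 0 ≤ 1 - Real.exp (-(β * J e)) :=
    sub_nonneg.mpr (Real.exp_le_one_iff.mpr (neg_nonpos.mpr (mul_nonneg hβ (hJ e))))
  simp only [Measure.add_apply, Measure.smul_apply, measure_univ, smul_eq_mul, mul_one]
  rw [← ENNReal.ofReal_add h1 (Real.exp_pos _).le]
  simp

lemma link_piece (F η : Finset (Sym2 V)) (hη : η ⊆ F) :
    {ω : Sym2 V → Bool | (F.filter fun e => ω e = true) = η}
      = Set.pi F fun e => {decide (e ∈ η)} := by
  ext ω
  simp only [Set.mem_ofPred_eq, Set.mem_pi, Finset.mem_coe, Set.mem_singleton_iff]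
  constructor
  · rintro rfl e he
    cases h : ω e <;> simp [he, h]
  · intro h
    ext e
    simp only [Finset.mem_filter]
    constructor
    · rintro ⟨he, h'⟩
      rw [h e he] at h'
      simpa using h'
    · intro he
      exact ⟨hη he, by rw [h e (hη he)]; simpa using he⟩

lemma link_meas_piece (F η : Finset (Sym2 V)) :
    MeasurableSet (Set.pi F fun e => {decide (e ∈ η)} : Set (Sym2 V → Bool)) :=
  MeasurableSet.pi F.countable_toSet fun _ _ => measurableSet_singleton _

open Classical in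
lemma link_union (F : Finset (Sym2 V)) (A : Finset (Sym2 V) → Prop) :
    {ω : Sym2 V → Bool | A (F.filter fun e => ω e = true)}
      = ⋃ η ∈ F.powerset.filter A, {ω : Sym2 V → Bool | (F.filter fun e => ω e = true) = η} := by
  ext ω
  simp only [Set.mem_ofPred_eq, Set.mem_iUnion, Finset.mem_filter, Finset.mem_powerset]
  constructor
  · intro h
    exact ⟨_, ⟨Finset.filter_subset _ _, h⟩, rfl⟩
  · rintro ⟨η, ⟨_, h⟩, rfl⟩
    exact h

lemma link_wt (hJ : ∀ e, 0 ≤ J e) (hβ : 0 ≤ β) (F η : Finset (Sym2 V)) (hη : η ⊆ F) :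
    (perc J β {ω : Sym2 V → Bool | (F.filter fun e => ω e = true) = η}).toReal
      = wt F (pw (β • J)) η := by
  have := link_isProb hJ hβ
  rw [link_piece F η hη, perc, Measure.infinitePi_pi _ fun _ _ => measurableSet_singleton _,
    ENNReal.toReal_prod, wt, ← Finset.prod_sdiff hη, mul_comm]
  congr 1
  · refine Finset.prod_congr rfl fun e he => ?_
    have h1 : 0 ≤ 1 - Real.exp (-(β * J e)) :=
      sub_nonneg.mpr (Real.exp_le_one_iff.mpr (neg_nonpos.mpr (mul_nonneg hβ (hJ e))))
    simp [he, pw, ENNReal.toReal_ofReal h1]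
  · refine Finset.prod_congr rfl fun e he => ?_
    have he' := (Finset.mem_sdiff.mp he).2
    simp [he', pw, ENNReal.toReal_ofReal (Real.exp_pos _).le]

theorem isProb_perc (hJ : ∀ e, 0 ≤ J e) (hβ : 0 ≤ β) : IsProbabilityMeasure (perc J β) := by
  have := link_isProb hJ hβ
  unfold perc
  infer_instance

theorem measurableSet_cyl (F : Finset (Sym2 V)) (A : Finset (Sym2 V) → Prop) :
    MeasurableSet {ω : Sym2 V → Bool | A (F.filter fun e => ω e = true)} := by
  classical
  rw [link_union]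
  refine Finset.measurableSet_biUnion _ fun η hη => ?_
  rw [link_piece F η (Finset.mem_powerset.mp (Finset.mem_filter.mp hη).1)]
  exact link_meas_piece F η

/-- cylinder events: split according to the value `η ⊆ F` of `F.filter (ω · = true)`; each piece is
`Set.pi F (fun e => {decide (e ∈ η)})`, of measure `wt F (pw (β • J)) η` by
`Measure.infinitePi_pi` -/
theorem perc_cyl (hJ : ∀ e, 0 ≤ J e) (hβ : 0 ≤ β) (F : Finset (Sym2 V))
    (A : Finset (Sym2 V) → Prop) :
    (perc J β {ω | A (F.filter fun e => ω e = true)}).toReal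
      = Ex F (pw (β • J)) fun η => ind (A η) := by
  classical
  have := isProb_perc hJ hβ
  rw [link_union, measure_biUnion_finset, ENNReal.toReal_sum fun _ _ => measure_ne_top _ _, Ex,
    Finset.sum_filter]
  · refine Finset.sum_congr rfl fun η hη => ?_
    by_cases h : A η
    · rw [if_pos h, ind_pos h, link_wt hJ hβ F η (Finset.mem_powerset.mp hη)]
      simp
    · rw [if_neg h, ind_neg h]
      simp
  · intro η _ η' _ hne
    refine Set.disjoint_left.mpr fun ω h1 h2 => hne ?_
    have h1' : (F.filter fun e => ω e = true) = η := h1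
    have h2' : (F.filter fun e => ω e = true) = η' := h2
    exact h1'.symm.trans h2'
  · intro η hη
    rw [link_piece F η (Finset.mem_powerset.mp (Finset.mem_filter.mp hη).1)]
    exact link_meas_piece F η

/-- clusters in finite domains versus reachability in the random graph -/
theorem reachable_of_mem_cl (ω : Sym2 V → Bool) (U : Finset V) {x y : V}
    (h : y ∈ cl (U.sym2.filter fun e => ω e = true) U {x}) : (graphOf ω).Reachable x y := by
  refine cl_induction (fun z => (graphOf ω).Reachable x z) ?_ ?_ y h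
  · intro z hz _
    rw [Finset.mem_singleton.mp hz]
  · intro u v _ hu _ he
    by_cases huv : u = v
    · exact huv ▸ hu
    · refine hu.trans (SimpleGraph.Adj.reachable ?_)
      rw [graphOf, SimpleGraph.fromEdgeSet_adj]
      exact ⟨(Finset.mem_filter.mp he).2, huv⟩

/-- take `U` the support of a walk -/
theorem exists_mem_cl_of_reachable (ω : Sym2 V → Bool) {x y : V} (h : (graphOf ω).Reachable x y) :
    ∃ U : Finset V, y ∈ cl (U.sym2.filter fun e => ω e = true) U {x} := by
  rw [SimpleGraph.reachable_iff_reflTransGen] at h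
  induction h with
  | refl => exact ⟨{x}, self_mem_cl _ (Finset.mem_singleton_self x)⟩
  | @tail u v _ huv ih =>
    obtain ⟨U, hU⟩ := ih
    have h1 : U ⊆ insert v U := Finset.subset_insert _ _
    have h2 := cl_mono (Finset.filter_subset_filter (fun e => ω e = true) (Finset.sym2_mono h1)) h1
      (subset_rfl : ({x} : Finset V) ⊆ {x}) hU
    refine ⟨insert v U, cl_step h2 (Finset.mem_insert_self _ _) ?_⟩
    rw [graphOf, SimpleGraph.fromEdgeSet_adj] at huv
    exact Finset.mem_filter.mpr ⟨Finset.mk_mem_sym2_iff.mpr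
      ⟨cl_subset _ _ _ h2, Finset.mem_insert_self _ _⟩, huv.1⟩

/-- If the cluster of `x` leaves every finite set with probability at least `η` then it is infinite
with positive probability.  The event that the component of `x` is finite is the directed union
over `Λ : Finset V` of `{component ⊆ Λ}`, each contained in the complement of the cylinder event
`x ∈ cl _ Λ' (Λ' \ Λ)` (`mem_cl_iff_exists`, `mem_cl_symm`, `reachable_of_mem_cl`), so it has
measure at most `1 - η` (`Directed.measure_iUnion` / `Monotone.measure_iUnion`); conclude with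
`measure_union_le`. -/
theorem perc_pos [Countable V] (hJ : ∀ e, 0 ≤ J e) (hβ : 0 ≤ β) (x : V) {η : ℝ} (hη : 0 < η)
    (h : ∀ Λ : Finset V, ∃ Λ' : Finset V, η ≤ EK (β • J) Λ' (Λ' \ Λ) fun K => ind (x ∈ K)) :
    β ∈ supercrit J := by
  have := isProb_perc hJ hβ
  refine ⟨hβ, ?_⟩
  set B : Finset V → Set (Sym2 V → Bool) :=
    fun Λ => {ω | ∀ y, (graphOf ω).Reachable x y → y ∈ Λ} with hB
  have hmono : Monotone B := fun Λ Λ' hΛ ω hω y hy => hΛ (hω y hy)
  have hle : ∀ Λ, perc J β (B Λ) ≤ ENNReal.ofReal (1 - η) := by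
    intro Λ
    obtain ⟨Λ', hΛ'⟩ := h Λ
    have e1 := perc_cyl hJ hβ Λ'.sym2 fun ω => ¬ x ∈ cl ω Λ' (Λ' \ Λ)
    have e2 : Ex Λ'.sym2 (pw (β • J)) (fun ω => ind (¬ x ∈ cl ω Λ' (Λ' \ Λ)))
        = 1 - EK (β • J) Λ' (Λ' \ Λ) fun K => ind (x ∈ K) := by
      simp only [ind_not]
      rw [Ex_sub, Ex_const]
      rfl
    have e3 : B Λ ⊆ {ω | ¬ x ∈ cl (Λ'.sym2.filter fun e => ω e = true) Λ' (Λ' \ Λ)} := by
      intro ω hω hx
      obtain ⟨z, hz, hx'⟩ := mem_cl_iff_exists.mp hx
      exact (Finset.mem_sdiff.mp hz).2 (hω z (reachable_of_mem_cl ω Λ' (mem_cl_symm hx')))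
    refine (measure_mono e3).trans ?_
    rw [← ENNReal.ofReal_toReal (measure_ne_top (perc J β) _), e1, e2]
    exact ENNReal.ofReal_le_ofReal (by linarith)
  have hU : perc J β (⋃ Λ, B Λ) ≤ ENNReal.ofReal (1 - η) := by
    rw [hmono.measure_iUnion]
    exact iSup_le hle
  by_contra h0
  have h0' := not_lt.mp h0
  have hcov : (Set.univ : Set (Sym2 V → Bool)) ⊆
      {ω | ∃ x, {y | (graphOf ω).Reachable x y}.Infinite} ∪ ⋃ Λ, B Λ := by
    intro ω _
    by_cases hf : {y | (graphOf ω).Reachable x y}.Finite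
    · exact Or.inr (Set.mem_iUnion.mpr ⟨hf.toFinset, fun y hy => hf.mem_toFinset.mpr hy⟩)
    · exact Or.inl ⟨x, hf⟩
  have h1 := (measure_mono (μ := perc J β) hcov).trans (measure_union_le _ _)
  rw [measure_univ] at h1
  have h2 := h1.trans (add_le_add h0' hU)
  rw [zero_add, ENNReal.one_le_ofReal] at h2
  linarith

end general

variable {d : ℕ} {J : Sym2 (Fin d → ℤ) → ℝ} {β : ℝ}

lemma link_tau (hJ : ∀ e, 0 ≤ J e) (hβ : 0 ≤ β) (S : Finset (Fin d → ℤ)) (x : Fin d → ℤ) :
    tau (β • J) S 0 x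
      = (perc J β {ω | x ∈ cl (S.sym2.filter fun e => ω e = true) S {0}}).toReal :=
  (perc_cyl hJ hβ S.sym2 fun ω => x ∈ cl ω S {0}).symm

lemma link_cont (J : Sym2 (Fin d → ℤ) → ℝ) (S : Finset (Fin d → ℤ)) (x : Fin d → ℤ) :
    Continuous fun b : ℝ => tau (b • J) S 0 x := by
  unfold tau EK Ex wt pw
  simp only [Pi.smul_apply, smul_eq_mul]
  fun_prop

theorem tau_le_twoPt (hJ : ∀ e, 0 ≤ J e) (hβ : 0 ≤ β) (S : Finset (Fin d → ℤ)) (x : Fin d → ℤ) :
    tau (β • J) S 0 x ≤ twoPt J β x := by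
  have := isProb_perc hJ hβ
  rw [link_tau hJ hβ, twoPt]
  exact ENNReal.toReal_mono (measure_ne_top _ _)
    (measure_mono fun ω hω => reachable_of_mem_cl ω S hω)

/-- increasing union of cylinder events (`tendsto_measure_iUnion_atTop`) -/
theorem tendsto_tau (hJ : ∀ e, 0 ≤ J e) (hβ : 0 ≤ β) (x : Fin d → ℤ) :
    Tendsto (fun S : Finset (Fin d → ℤ) => tau (β • J) S 0 x) atTop (𝓝 (twoPt J β x)) := by
  have := isProb_perc hJ hβ
  set B : Finset (Fin d → ℤ) → Set (Sym2 (Fin d → ℤ) → Bool) :=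
    fun S => {ω | x ∈ cl (S.sym2.filter fun e => ω e = true) S {0}} with hB
  have hmono : Monotone B := fun S S' hS ω hω =>
    cl_mono (Finset.filter_subset_filter (fun e => ω e = true) (Finset.sym2_mono hS)) hS
      subset_rfl hω
  have hU : (⋃ S, B S) = {ω | (graphOf ω).Reachable 0 x} := by
    ext ω
    rw [Set.mem_iUnion]
    exact ⟨fun ⟨S, hS⟩ => reachable_of_mem_cl ω S hS, fun h => exists_mem_cl_of_reachable ω h⟩
  have h1 := tendsto_measure_iUnion_atTop (μ := perc J β) hmono
  rw [hU] at h1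
  have h2 := (ENNReal.tendsto_toReal (measure_ne_top (perc J β) _)).comp h1
  refine h2.congr fun S => ?_
  rw [link_tau hJ hβ]
  rfl

/-- `twoPt J b x` is the supremum over `S` of the continuous increasing functions
`b ↦ tau (b • J) S 0 x` (finite sums of products of exponentials; `tau_mono`) -/
theorem tendsto_twoPt_left (hJ : ∀ e, 0 ≤ J e) (hβ : 0 < β) (x : Fin d → ℤ) :
    Tendsto (fun b => twoPt J b x) (𝓝[<] β) (𝓝 (twoPt J β x)) := by
  rw [tendsto_order]
  constructor
  · intro a ha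
    obtain ⟨S, hS⟩ := ((tendsto_tau hJ hβ.le x).eventually (lt_mem_nhds ha)).exists
    have h1 : ∀ᶠ b in 𝓝 β, a < tau (b • J) S 0 x :=
      (link_cont J S x).continuousAt.eventually (lt_mem_nhds hS)
    have h2 : ∀ᶠ b in 𝓝 β, 0 < b := lt_mem_nhds hβ
    filter_upwards [mem_nhdsWithin_of_mem_nhds h1, mem_nhdsWithin_of_mem_nhds h2] with b hb hb0
    exact hb.trans_le (tau_le_twoPt hJ hb0.le S x)
  · intro a ha
    have h2 : ∀ᶠ b in 𝓝 β, 0 < b := lt_mem_nhds hβ
    filter_upwards [mem_nhdsWithin_of_mem_nhds h2, self_mem_nhdsWithin] with b hb0 hb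
    refine lt_of_le_of_lt ?_ ha
    refine le_of_tendsto' (tendsto_tau hJ hb0.le x) fun S => ?_
    refine le_trans ?_ (tau_le_twoPt hJ hβ.le S x)
    exact tau_mono (smul_nonneg' hJ hb0.le)
      (fun e => mul_le_mul_of_nonneg_right (le_of_lt hb) (hJ e)) subset_rfl _ _

end Pool.Agent.Lib.MP_6fc7d9_pr
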