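import Pool.Agent.Lib.MP_6fc7d9_pr.Group
import Pool.Agent.Lib.MP_6fc7d9_pr.ODE

set_option linter.unusedSectionVars false

namespace Pool.Agent.Lib.MP_6fc7d9_pr
open Finset

lemma local_GG_eq {Γ : Type} [Fintype Γ] [DecidableEq Γ] (w : Sym2 Γ → ℝ) (T : Finset Γ) (v : Γ) :
    GG w univ {v} (fun y => ind (y ∈ T)) = ∑ y ∈ T, tau w univ v y := by
  rw [GG_eq_sum_tau]
  simp only [ind_eq_ite, smul_eq_mul, mul_ite, mul_one, mul_zero]
  rw [Finset.sum_ite_mem, Finset.univ_inter]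

lemma local_sum_GG {Γ : Type} [AddCommGroup Γ] [Fintype Γ] [DecidableEq Γ] {w : Sym2 Γ → ℝ}
    (hw : Inv w) (T : Finset Γ) :
    ∑ v, GG w univ {v} (fun y => ind (y ∈ T)) = (T.card : ℝ) * chi w univ 0 := by
  simp only [local_GG_eq]
  rw [Finset.sum_comm]
  have : ∀ y ∈ T, ∑ v, tau w univ v y = chi w univ 0 := by
    intro y _
    rw [← chi_shift hw y, chi_eq_sum_tau]
    exact Finset.sum_congr rfl fun v _ => tau_symm _ _ _ _
  rw [Finset.sum_congr rfl this]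
  simp

lemma local_step {Γ : Type} [AddCommGroup Γ] [Fintype Γ] [DecidableEq Γ] {q ρ D c₀ : ℝ} {M : ℕ}
    (S : Setup Γ q ρ D c₀ M) (T : Finset Γ) (m : ℕ) {X : ℝ}
    (hX : chi (S.W (m + 1)) univ 0 ≤ X) :
    ∑ y ∈ T, tau (S.W (m + 1)) univ 0 y
      ≤ ∑ y ∈ T, tau (S.W m) univ 0 y + c₀ / (q * ρ) ^ m * T.card * X ^ 2 := by
  set φ : Γ → ℝ := fun y => ind (y ∈ T) with hφ
  set c : ℝ := c₀ / (q * ρ) ^ m with hc
  have hc0 : 0 ≤ c := (S.par.c_pos m).le
  have hφ0 : ∀ y, 0 ≤ φ y := fun y => ind_nonneg _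
  have hd := fun t => hasDerivAt_GG (S.W m) (S.κ m) univ {0} φ t
  have hbound : ∀ t ∈ interior (Set.Icc (0 : ℝ) 1),
      deriv (fun s : ℝ => GG (S.W m + s • S.κ m) univ {0} φ) t ≤ c * T.card * X ^ 2 := by
    intro t ht
    have ht' : t ∈ Set.Icc (0 : ℝ) 1 := interior_subset ht
    rw [(hd t).deriv]
    have hw0 : ∀ e, 0 ≤ S.Wt m t e := S.Wt_nonneg m ht'.1
    have hχ : chi (S.Wt m t) univ 0 ≤ X :=
      (chi_mono hw0 (S.Wt_le_W m ht'.2) subset_rfl 0).trans hX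
    have hχ0 : 0 ≤ chi (S.Wt m t) univ 0 := chi_nonneg hw0 _ _
    have hX0 : 0 ≤ X := hχ0.trans hχ
    have hin : ∀ (K : Finset Γ) (u : Γ),
        ∑ v ∈ univ \ K, S.κ m s(u, v) • GG (S.Wt m t) (univ \ K) {v} φ ≤ c * (T.card * X) := by
      intro K u
      have hG0 : ∀ v, 0 ≤ GG (S.Wt m t) univ {v} φ := fun v =>
        EK_nonneg hw0 _ fun K _ => Finset.sum_nonneg fun y _ => hφ0 y
      calc ∑ v ∈ univ \ K, S.κ m s(u, v) • GG (S.Wt m t) (univ \ K) {v} φ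
          ≤ ∑ v ∈ univ \ K, c * GG (S.Wt m t) univ {v} φ := by
            refine Finset.sum_le_sum fun v _ => ?_
            rw [smul_eq_mul]
            refine mul_le_mul (S.κ_le m _)
              (GG_mono hw0 (fun _ => le_rfl) (Finset.subset_univ _) subset_rfl hφ0) ?_ hc0
            exact EK_nonneg hw0 _ fun K _ => Finset.sum_nonneg fun y _ => hφ0 y
        _ ≤ ∑ v, c * GG (S.Wt m t) univ {v} φ :=
            Finset.sum_le_sum_of_subset_of_nonneg (Finset.subset_univ _)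
              fun v _ _ => mul_nonneg hc0 (hG0 v)
        _ = c * (T.card * chi (S.Wt m t) univ 0) := by
            rw [← Finset.mul_sum, hφ, local_sum_GG (S.Wt_inv m t)]
        _ ≤ c * (T.card * X) :=
            mul_le_mul_of_nonneg_left (mul_le_mul_of_nonneg_left hχ (Nat.cast_nonneg _)) hc0
    calc EK (S.Wt m t) univ {0} (fun K => ∑ u ∈ K, ∑ v ∈ univ \ K,
            S.κ m s(u, v) • GG (S.Wt m t) (univ \ K) {v} φ)
        ≤ EK (S.Wt m t) univ {0} (fun K => (K.card : ℝ) * (c * (T.card * X))) := by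
          refine EK_mono hw0 _ fun K _ => ?_
          refine (Finset.sum_le_sum fun u _ => hin K u).trans ?_
          simp
      _ = chi (S.Wt m t) univ 0 * (c * (T.card * X)) := EK_mul_const _ _ _ _ _
      _ ≤ X * (c * (T.card * X)) :=
          mul_le_mul_of_nonneg_right hχ
            (mul_nonneg hc0 (mul_nonneg (Nat.cast_nonneg _) hX0))
      _ = c * T.card * X ^ 2 := by ring
  have key := (convex_Icc (0 : ℝ) 1).image_sub_le_mul_sub_of_deriv_le
    (f := fun s : ℝ => GG (S.W m + s • S.κ m) univ {0} φ)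
    (fun t _ => (hd t).continuousAt.continuousWithinAt)
    (fun t _ => (hd t).differentiableAt.differentiableWithinAt) hbound
    0 (by simp) 1 (by simp) zero_le_one
  have e1 : S.W m + (1 : ℝ) • S.κ m = S.W (m + 1) := S.Wt_one m
  have e0 : S.W m + (0 : ℝ) • S.κ m = S.W m := S.Wt_zero m
  simp only [e1, e0, hφ, local_GG_eq] at key
  linarith

/-- Averaged two-point bound at all earlier scales.  `∑ y ∈ T, tau w univ 0 y = GG w univ {0} φ`
with `φ = fun y => ind (y ∈ T)`, `T = S.Λ (i+2)` (`GG_eq_sum_tau`).  In stage `m` (`i ≤ m < j`) the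
derivative (`hasDerivAt_GG`) is at most `c₀/(qρ)^m * |T| * (A q^(m+1))^2`, because
`GG w (univ \ K) {v} φ ≤ GG w univ {v} φ` (`GG_mono`), `κ ≤ c₀/(qρ)^m` (`S.κ_le`),
`∑ v, GG w univ {v} φ = ∑ y ∈ T, ∑ v, tau w univ v y = |T| * chi` (`tau_symm`, `chi_shift`).
Integrate (`Convex.image_sub_le_mul_sub_of_deriv_le`), start from
`∑ y ∈ T, tau (S.W i) univ 0 y ≤ chi ≤ A q^i`, and sum the geometric series in `q / ρ < 1`:
`A₁ = A + D ρ^2 c₀ A^2 q^2 / (1 - q/ρ)`. -/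
theorem local_bound {q ρ D c₀ : ℝ} (hP : Par q ρ D c₀) {A : ℝ} (hA : 1 ≤ A) :
    ∃ A₁ : ℝ, 1 ≤ A₁ ∧ ∀ (Γ : Type) [AddCommGroup Γ] [Fintype Γ] [DecidableEq Γ] (M : ℕ)
      (S : Setup Γ q ρ D c₀ M), (∀ j ≤ M, chi (S.W j) univ 0 ≤ A * q ^ j) →
        ∀ i j, i ≤ j → j ≤ M → ∑ y ∈ S.Λ (i + 2), tau (S.W j) univ 0 y ≤ A₁ * q ^ i := by
  have hq := hP.q_pos
  have hρ := hP.ρ_pos
  have hr0 : 0 < q / ρ := div_pos hq hρ
  have hr1 : q / ρ < 1 := (div_lt_one hρ).mpr hP.q_lt_ρ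
  have h1r : 0 < 1 - q / ρ := sub_pos.mpr hr1
  have hD : 0 ≤ D := zero_le_one.trans hP.hD
  set K : ℝ := D * ρ ^ 2 * c₀ * A ^ 2 * q ^ 2 with hK
  have hK0 : 0 ≤ K := by have := hP.hc.le; positivity
  refine ⟨A + K / (1 - q / ρ), le_add_of_le_of_nonneg hA (div_nonneg hK0 h1r.le), ?_⟩
  intro Γ _ _ _ M S hχ i j hij hjM
  obtain ⟨n, rfl⟩ := Nat.exists_eq_add_of_le hij
  have main : ∀ n, i + n ≤ M → ∑ y ∈ S.Λ (i + 2), tau (S.W (i + n)) univ 0 y
      ≤ (A + K / (1 - q / ρ) * (1 - (q / ρ) ^ n)) * q ^ i := by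
    intro n
    induction n with
    | zero =>
      intro h
      simp only [add_zero, pow_zero, sub_self, mul_zero]
      refine le_trans ?_ (hχ i h)
      rw [chi_eq_sum_tau]
      exact Finset.sum_le_sum_of_subset_of_nonneg (Finset.subset_univ _)
        fun y _ _ => tau_nonneg (S.W_nonneg i) _ _ _
    | succ n ih =>
      intro h
      have h1 := ih (by omega)
      have h2 := local_step S (S.Λ (i + 2)) (i + n) (hχ (i + n + 1) h)
      have h3 : c₀ / (q * ρ) ^ (i + n) * ((S.Λ (i + 2)).card : ℝ) * (A * q ^ (i + n + 1)) ^ 2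
          ≤ c₀ / (q * ρ) ^ (i + n) * (D * ρ ^ (i + 2)) * (A * q ^ (i + n + 1)) ^ 2 :=
        mul_le_mul_of_nonneg_right
          (mul_le_mul_of_nonneg_left (S.card_le _) (hP.c_pos _).le) (sq_nonneg _)
      have h4 : c₀ / (q * ρ) ^ (i + n) * (D * ρ ^ (i + 2)) * (A * q ^ (i + n + 1)) ^ 2
          = K * (q / ρ) ^ n * q ^ i := by
        rw [hK, div_pow, mul_pow q ρ]
        field_simp
        ring
      have h5 : (A + K / (1 - q / ρ) * (1 - (q / ρ) ^ (n + 1))) * q ^ i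
          = (A + K / (1 - q / ρ) * (1 - (q / ρ) ^ n)) * q ^ i + K * (q / ρ) ^ n * q ^ i := by
        have h6 : K / (1 - q / ρ) * (1 - q / ρ) = K := div_mul_cancel₀ _ h1r.ne'
        generalize K / (1 - q / ρ) = L at h6 ⊢
        rw [← h6]
        ring
      rw [h5, ← add_assoc i n 1]
      linarith
  refine (main n hjM).trans (mul_le_mul_of_nonneg_right ?_ (pow_nonneg hq.le _))
  have h7 : 0 ≤ K / (1 - q / ρ) * (q / ρ) ^ n :=
    mul_nonneg (div_nonneg hK0 h1r.le) (pow_nonneg hr0.le _)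
  nlinarith

end Pool.Agent.Lib.MP_6fc7d9_pr
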