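import Mathlib

set_option linter.unusedSectionVars false

namespace Pool.Agent.Lib.MP_6fc7d9_pr
open Finset

open MeasureTheory Filter Topology

open scoped InnerProductSpace in
theorem weak_hilbert {H : Type*} [NormedAddCommGroup H] [InnerProductSpace ℂ H] [CompleteSpace H]
    (x : ℕ → H) (R : ℝ) (hx : ∀ n, ‖x n‖ ≤ R) :
    ∃ (U : Ultrafilter ℕ) (y : H), (U : Filter ℕ) ≤ atTop ∧
      ∀ u, Tendsto (fun n => ⟪x n, u⟫_ℂ) U (𝓝 ⟪y, u⟫_ℂ) := by
  let U : Ultrafilter ℕ := Ultrafilter.of atTop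
  let φ : ℕ → WeakDual ℂ H := fun n =>
    StrongDual.toWeakDual (InnerProductSpace.toDual ℂ H (x n))
  obtain ⟨ψ, -, hψ⟩ := (WeakDual.isCompact_closedBall (0 : StrongDual ℂ H) R).ultrafilter_le_nhds
    (U.map φ) (by
      rw [Ultrafilter.coe_map, le_principal_iff, Filter.mem_map]
      refine univ_mem' fun n => ?_
      show InnerProductSpace.toDual ℂ H (x n) ∈ Metric.closedBall 0 R
      simpa using hx n)
  refine ⟨U, (InnerProductSpace.toDual ℂ H).symm (WeakDual.toStrongDual ψ),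
    Ultrafilter.of_le _, fun u => ?_⟩
  rw [InnerProductSpace.toDual_symm_apply]
  exact ((WeakDual.eval_continuous u).tendsto ψ).comp hψ

theorem weak_fun {Ω : Type*} [MeasurableSpace Ω] (μ : Measure Ω) (s : Ω → ℝ)
    (hs : MemLp s 2 μ) (hs0 : ∀ x, 0 ≤ s x) (h : ℕ → Ω → ℂ) (hm : ∀ n, Measurable (h n))
    (hh : ∀ n, ∀ᵐ x ∂μ, ‖h n x‖ ≤ s x) :
    ∃ (U : Ultrafilter ℕ) (k : Ω → ℂ), (U : Filter ℕ) ≤ atTop ∧ Measurable k ∧ MemLp k 2 μ ∧
      ∀ u : Ω → ℂ, MemLp u 2 μ →
        Tendsto (fun n => ∫ x, h n x * u x ∂μ) U (𝓝 (∫ x, k x * u x ∂μ)) := by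
  have h1 : ∀ n, ∀ᵐ x ∂μ, ‖starRingEnd ℂ (h n x)‖ ≤ ‖s x‖ := fun n => by
    filter_upwards [hh n] with x hx
    rwa [Complex.norm_conj, Real.norm_of_nonneg (hs0 x)]
  have h2 : ∀ n, MemLp (fun x => starRingEnd ℂ (h n x)) 2 μ := fun n =>
    hs.of_le (Complex.continuous_conj.measurable.comp (hm n)).aestronglyMeasurable (h1 n)
  obtain ⟨U, y, hU, hy⟩ := weak_hilbert (fun n => (h2 n).toLp _) ‖hs.toLp s‖ fun n => by
    refine Lp.norm_le_norm_of_ae_le ?_
    filter_upwards [(h2 n).coeFn_toLp, hs.coeFn_toLp, h1 n] with x e1 e2 e3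
    rwa [e1, e2]
  have h3 : Measurable fun x => starRingEnd ℂ (y x) :=
    Complex.continuous_conj.measurable.comp (Lp.stronglyMeasurable y).measurable
  refine ⟨U, fun x => starRingEnd ℂ (y x), hU, h3,
    (Lp.memLp y).of_le h3.aestronglyMeasurable (Eventually.of_forall fun x => by simp),
    fun u hu => ?_⟩
  have h4 := hy (hu.toLp u)
  simp only [L2.inner_def] at h4
  convert h4 using 2
  · refine integral_congr_ae ?_
    filter_upwards [(h2 _).coeFn_toLp, hu.coeFn_toLp] with x e1 e2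
    rw [e1, e2]
    simp [mul_comm]
  · refine integral_congr_ae ?_
    filter_upwards [hu.coeFn_toLp] with x e2
    rw [e2]
    simp [mul_comm]

theorem weak_bound {Ω : Type*} [MeasurableSpace Ω] (μ : Measure Ω) (s : Ω → ℝ)
    (hsm : Measurable s) (hs : MemLp s 2 μ) (hs0 : ∀ x, 0 ≤ s x) (h : ℕ → Ω → ℂ)
    (hh : ∀ n, ∀ᵐ x ∂μ, ‖h n x‖ ≤ s x) (U : Ultrafilter ℕ) (k : Ω → ℂ) (hkm : Measurable k)
    (hk : MemLp k 2 μ) (hU : ∀ u : Ω → ℂ, MemLp u 2 μ →
      Tendsto (fun n => ∫ x, h n x * u x ∂μ) U (𝓝 (∫ x, k x * u x ∂μ))) :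
    ∀ᵐ x ∂μ, ‖k x‖ ≤ s x := by
  set A : Set Ω := {x | s x < ‖k x‖} with hA
  have hAm : MeasurableSet A := measurableSet_lt hsm hkm.norm
  have hc : MemLp (fun x => starRingEnd ℂ (k x)) 2 μ :=
    hk.of_le (Complex.continuous_conj.measurable.comp hkm).aestronglyMeasurable
      (Eventually.of_forall fun x => by simp)
  have i1 : Integrable (A.indicator fun x => s x * ‖k x‖) μ :=
    (hs.integrable_mul hk.norm).indicator hAm
  have i2 : Integrable (A.indicator fun x => ‖k x‖ * ‖k x‖) μ :=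
    (hk.norm.integrable_mul hk.norm).indicator hAm
  have h1 := (hU _ (hc.indicator hAm)).norm
  have h2 : ‖∫ x, k x * A.indicator (fun x => starRingEnd ℂ (k x)) x ∂μ‖ ≤
      ∫ x, A.indicator (fun x => s x * ‖k x‖) x ∂μ := by
    refine le_of_tendsto' h1 fun n => norm_integral_le_of_norm_le i1 ?_
    filter_upwards [hh n] with x hx
    by_cases hxA : x ∈ A
    · rw [Set.indicator_of_mem hxA, Set.indicator_of_mem hxA, norm_mul, Complex.norm_conj]
      exact mul_le_mul_of_nonneg_right hx (norm_nonneg _)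
    · simp [Set.indicator_of_notMem hxA]
  have h3 : ∫ x, k x * A.indicator (fun x => starRingEnd ℂ (k x)) x ∂μ =
      ((∫ x, A.indicator (fun x => ‖k x‖ * ‖k x‖) x ∂μ : ℝ) : ℂ) := by
    rw [← integral_complex_ofReal]
    refine integral_congr_ae (Eventually.of_forall fun x => ?_)
    by_cases hxA : x ∈ A
    · simp only [Set.indicator_of_mem hxA, Complex.mul_conj, Complex.normSq_eq_norm_sq]
      push_cast
      ring
    · simp [Set.indicator_of_notMem hxA]
  rw [h3, Complex.norm_real] at h2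
  have h4 : ∀ x, 0 ≤ A.indicator (fun x => ‖k x‖ * ‖k x‖) x -
      A.indicator (fun x => s x * ‖k x‖) x := fun x => by
    by_cases hxA : x ∈ A
    · rw [Set.indicator_of_mem hxA, Set.indicator_of_mem hxA, ← sub_mul]
      exact mul_nonneg (sub_nonneg.2 (le_of_lt hxA)) (norm_nonneg _)
    · simp [Set.indicator_of_notMem hxA]
  have h5 : ∫ x, (A.indicator (fun x => ‖k x‖ * ‖k x‖) x -
      A.indicator (fun x => s x * ‖k x‖) x) ∂μ = 0 := by
    refine le_antisymm ?_ (integral_nonneg h4)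
    rw [integral_sub i2 i1]
    linarith [Real.le_norm_self (∫ x, A.indicator (fun x => ‖k x‖ * ‖k x‖) x ∂μ)]
  filter_upwards [(integral_eq_zero_iff_of_nonneg h4 (i2.sub i1)).1 h5] with x hx
  by_contra hxA
  have hxA' : x ∈ A := not_le.1 hxA
  rw [Set.indicator_of_mem hxA', Set.indicator_of_mem hxA', ← sub_mul, Pi.zero_apply] at hx
  have h6 := hs0 x
  have h7 := not_le.1 hxA
  exact (mul_pos (sub_pos.2 h7) (h6.trans_lt h7)).ne' hx

/-- Weak limit of functions dominated by a fixed integrable weight.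
Let `ν = μ.withDensity (ofReal w)` (finite), `h n = f n / w` (norm at most one `ν`-a.e.).  Take an
ultrafilter `𝒰 ≤ atTop`; for `u ∈ L²(ν)` the bounded sequence `⟪h n, u⟫` has a limit along `𝒰`
(`IsCompact.ultrafilter_le_nhds` on a closed ball); this is a bounded linear functional, represented
by `h ∈ L²(ν)` (`InnerProductSpace.toDual`); alternatively use Banach-Alaoglu
(`WeakDual.isCompact_closedBall`).  Testing with indicators, all averages of `h` lie in the closed
unit ball, so `‖h‖ ≤ 1` a.e. (`ae_mem_of_forall_setAverage_mem`-type lemma, or test with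
`indicator {1 + ε < ‖h‖} * h / ‖h‖`).  Take a measurable representative, set it to zero where
`‖h‖ > 1`, and put `F = w * h` (`integral_withDensity_eq_integral_smul`). -/
theorem weak_limit {Ω ι : Type*} [MeasurableSpace Ω] (μ : Measure Ω) (w : Ω → ℝ)
    (hwm : Measurable w) (hw0 : ∀ x, 0 ≤ w x) (hw : Integrable w μ) (f : ℕ → Ω → ℂ)
    (hfm : ∀ n, Measurable (f n)) (hf : ∀ n, ∀ᵐ x ∂μ, ‖f n x‖ ≤ w x) (g : ι → Ω → ℂ)
    (hgm : ∀ i, Measurable (g i)) (hg : ∀ i x, ‖g i x‖ ≤ 1) (a : ι → ℂ)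
    (ha : ∀ i, Tendsto (fun n => ∫ x, f n x * g i x ∂μ) atTop (𝓝 (a i))) :
    ∃ F : Ω → ℂ, Integrable F μ ∧ (∀ x, ‖F x‖ ≤ w x) ∧ ∀ i, ∫ x, F x * g i x ∂μ = a i := by
  set s : Ω → ℝ := fun x => √(w x) with hs
  have hsm : Measurable s := hwm.sqrt
  have hs0 : ∀ x, 0 ≤ s x := fun x => Real.sqrt_nonneg _
  have hss : ∀ x, s x * s x = w x := fun x => Real.mul_self_sqrt (hw0 x)
  have hs2 : MemLp s 2 μ := (memLp_two_iff_integrable_sq hsm.aestronglyMeasurable).2
    (hw.congr (Eventually.of_forall fun x => by simp only [sq, hss]))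
  have hh : ∀ n, ∀ᵐ x ∂μ, ‖f n x / (s x : ℂ)‖ ≤ s x := fun n => by
    filter_upwards [hf n] with x hx
    rw [norm_div, Complex.norm_real, Real.norm_of_nonneg (hs0 x)]
    exact div_le_of_le_mul₀ (hs0 x) (hs0 x) (by rwa [hss])
  have hsc : Measurable fun x => (s x : ℂ) := Complex.measurable_ofReal.comp hsm
  obtain ⟨U, k, hU, hkm, hk, hlim⟩ := weak_fun μ s hs2 hs0 (fun n x => f n x / (s x : ℂ))
    (fun n => (hfm n).div hsc) hh
  have hb := weak_bound μ s hsm hs2 hs0 _ hh U k hkm hk hlim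
  have hBm : MeasurableSet {x | ‖k x‖ ≤ s x} := measurableSet_le hkm.norm hsm
  have hF : ∀ x, ‖{x | ‖k x‖ ≤ s x}.indicator (fun x => k x * (s x : ℂ)) x‖ ≤ w x := fun x => by
    by_cases hx : x ∈ {x | ‖k x‖ ≤ s x}
    · rw [Set.indicator_of_mem hx, norm_mul, Complex.norm_real, Real.norm_of_nonneg (hs0 x),
        ← hss]
      exact mul_le_mul_of_nonneg_right hx (hs0 x)
    · rw [Set.indicator_of_notMem hx, norm_zero]
      exact hw0 x
  refine ⟨_, hw.mono' ((hkm.mul hsc).indicator hBm).aestronglyMeasurable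
    (Eventually.of_forall hF), hF, fun i => ?_⟩
  have hu : MemLp (fun x => (s x : ℂ) * g i x) 2 μ :=
    hs2.of_le (hsc.mul (hgm i)).aestronglyMeasurable (Eventually.of_forall fun x => by
      rw [norm_mul, Complex.norm_real]
      exact mul_le_of_le_one_right (norm_nonneg _) (hg i x))
  have h1 := hlim _ hu
  have h2 : ∀ n, ∫ x, f n x / (s x : ℂ) * ((s x : ℂ) * g i x) ∂μ = ∫ x, f n x * g i x ∂μ :=
    fun n => by
      refine integral_congr_ae ?_
      filter_upwards [hf n] with x hx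
      by_cases h0 : s x = 0
      · have : f n x = 0 := by
          rw [← hss, h0, mul_zero] at hx
          exact norm_le_zero_iff.1 hx
        simp [this]
      · have : (s x : ℂ) ≠ 0 := Complex.ofReal_ne_zero.2 h0
        field_simp
  simp only [h2] at h1
  rw [← tendsto_nhds_unique h1 ((ha i).mono_left hU)]
  refine integral_congr_ae ?_
  filter_upwards [hb] with x hx
  rw [Set.indicator_of_mem (show x ∈ {x | ‖k x‖ ≤ s x} from hx), Pi.mul_apply, mul_assoc]

end Pool.Agent.Lib.MP_6fc7d9_pr
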