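import Pool.Agent.Lib.MP_6fc7d9_pr.SubMain
import Pool.Agent.Lib.MP_6fc7d9_pr.DCT
import Pool.Agent.Lib.MP_6fc7d9_pr.Fourier
import Pool.Agent.Lib.MP_6fc7d9_pr.Weak

namespace Pool.Agent.Lib.MP_6fc7d9_pr
open MeasureTheory Filter Topology

lemma Ex_p_zero {ε : Type*} [DecidableEq ε] (F : Finset ε) (f : Finset ε → ℝ) :
    Ex F (fun _ => 0) f = f ∅ := by
  induction F using Finset.induction_on with
  | empty => exact Ex_empty _ _
  | insert e F he ih => rw [Ex_insert he, ih]; simp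

lemma twoPt_zero {d : ℕ} {J : Sym2 (Fin d → ℤ) → ℝ} (hJ : ∀ e, 0 ≤ J e) (x : Fin d → ℤ) :
    twoPt J 0 x = if x = 0 then 1 else 0 := by
  refine tendsto_nhds_unique (tendsto_tau hJ le_rfl x) (tendsto_const_nhds.congr' ?_)
  filter_upwards [eventually_ge_atTop ({0} : Finset (Fin d → ℤ))] with S hS
  have h0 : (0 : Fin d → ℤ) ∈ S := hS (Finset.mem_singleton_self _)
  have hp : pw ((0 : ℝ) • J) = fun _ => 0 := by funext e; simp [pw]
  unfold tau EK
  rw [hp, Ex_p_zero, cl_empty_config, Finset.singleton_inter_of_mem h0]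
  simp [ind_eq_ite]

lemma euc_pos {d : ℕ} {θ : Fin d → ℝ} (h : θ ≠ 0) : 0 < euc θ := by
  refine Real.sqrt_pos.mpr ?_
  obtain ⟨i, hi⟩ := Function.ne_iff.mp h
  exact Finset.sum_pos' (fun j _ => sq_nonneg _) ⟨i, Finset.mem_univ _, by
    have : θ i ≠ 0 := hi
    positivity⟩

lemma euc_le_of_mem_cube {d : ℕ} {θ : Fin d → ℝ} (h : θ ∈ cube d) : euc θ ≤ √(d * 16) := by
  refine Real.sqrt_le_sqrt ?_
  calc ∑ i, θ i ^ 2 ≤ ∑ _i : Fin d, (16 : ℝ) := Finset.sum_le_sum fun i _ => by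
        have := h i (Set.mem_univ i)
        nlinarith [this.1, this.2, Real.pi_le_four, Real.pi_pos]
    _ = _ := by simp

lemma measurable_euc {d : ℕ} : Measurable (euc : (Fin d → ℝ) → ℝ) := by
  unfold euc; fun_prop

lemma measurableSet_cube (d : ℕ) : MeasurableSet (cube d) :=
  MeasurableSet.univ_pi fun _ => measurableSet_Icc

lemma isCompact_cube (d : ℕ) : IsCompact (cube d) := isCompact_univ_pi fun _ => isCompact_Icc

theorem main {d : ℕ} {α c : ℝ} (hα : 0 < α) (h3 : 3 * α < d) (hc : 0 < c)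
    {J : Sym2 (Fin d → ℤ) → ℝ} (hK : Kernel d α c J) :
    ∃ βc : ℝ, IsGLB (supercrit J) βc ∧ ∃ C : ℝ, ∃ f : (Fin d → ℝ) → ℂ,
      IntegrableOn f (cube d) ∧
      (∀ x : Fin d → ℤ, (twoPt J βc x : ℂ) = ((((2 * Real.pi) ^ d)⁻¹ : ℝ) : ℂ) *
        ∫ θ in cube d, f θ * Complex.exp (-(Complex.I * ((∑ i, θ i * x i : ℝ) : ℂ)))) ∧
      ∀ θ ∈ cube d, θ ≠ 0 → ‖f θ‖ ≤ C * euc θ ^ (-α) := by
  have hne : (supercrit J).Nonempty := by
    obtain ⟨β₁, h1, h⟩ := one_le_phi hα h3 hc hK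
    refine ⟨β₁ + 1, by_contra fun hn => ?_⟩
    obtain ⟨β, hβ, S, hS, hφ⟩ := dct hK h1 (lt_add_one β₁) hn
    exact absurd (h β hβ.1 S hS) (not_le.mpr hφ)
  have hbdd : BddBelow (supercrit J) := ⟨0, fun β hβ => hβ.1⟩
  set βc := sInf (supercrit J) with hβc
  have hβc0 : 0 ≤ βc := le_csInf hne fun β hβ => hβ.1
  have hpi : (((2 * Real.pi) ^ d : ℝ) : ℂ) ≠ 0 := by
    exact_mod_cast (pow_pos Real.two_pi_pos d).ne'
  refine ⟨βc, isGLB_csInf hne hbdd, ?_⟩
  rcases hβc0.eq_or_lt with h0 | h0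
  · refine ⟨√(d * 16) ^ α, fun _ => 1, ?_, fun x => ?_, fun θ hθ hθ0 => ?_⟩
    · exact continuous_const.continuousOn.integrableOn_compact (isCompact_cube d)
    · have h := integral_cube_exp (-x)
      have e1 : ∀ θ : Fin d → ℝ, Complex.exp (Complex.I * ((∑ i, θ i * (-x) i : ℝ) : ℂ))
          = 1 * Complex.exp (-(Complex.I * ((∑ i, θ i * x i : ℝ) : ℂ))) := by
        intro θ
        simp [Finset.sum_neg_distrib]
      simp only [e1] at h
      rw [h, ← h0, twoPt_zero hK.nonneg]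
      by_cases hx : x = 0
      · rw [if_pos hx, if_pos (neg_eq_zero.mpr hx), Complex.ofReal_inv, inv_mul_cancel₀ hpi]; simp
      · rw [if_neg hx, if_neg (mt neg_eq_zero.mp hx)]; simp
    · have hp := euc_pos hθ0
      rw [norm_one, Real.rpow_neg hp.le, ← div_eq_mul_inv, one_le_div (Real.rpow_pos_of_pos hp α)]
      exact Real.rpow_le_rpow hp.le (euc_le_of_mem_cube hθ) hα.le
  · obtain ⟨C, hC⟩ := subcrit_bound hα h3 hc (half_pos h0)
    -- a sequence of subcritical parameters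
    have hseq : ∀ n : ℕ, ∃ β, βc - βc / 2 * (1 / ((n : ℝ) + 1)) ≤ β ∧ β < βc ∧ βc / 2 ≤ β ∧
        ∃ S : Finset (Fin d → ℤ), 0 ∈ S ∧ phi J β S < 1 := by
      intro n
      have h1 : (0 : ℝ) < 1 / ((n : ℝ) + 1) := Nat.one_div_pos_of_nat
      have h2 : 1 / ((n : ℝ) + 1) ≤ 1 := by
        rw [div_le_one (by positivity)]; linarith [Nat.cast_nonneg (α := ℝ) n]
      set b₁ := βc - βc / 2 * (1 / ((n : ℝ) + 1)) with hb₁
      have h4 : βc / 2 ≤ b₁ := by nlinarith
      have h5 : b₁ < βc := by nlinarith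
      obtain ⟨β, hβ, hS⟩ := dct hK (β₁ := b₁) (β₂ := (b₁ + βc) / 2) (by linarith) (by linarith)
        (notMem_of_lt_csInf (by linarith) hbdd)
      exact ⟨β, hβ.1, by linarith [hβ.2], h4.trans hβ.1, hS⟩
    choose β hβ1 hβ2 hβ3 hβ4 using hseq
    have hβ0 : ∀ n, 0 ≤ β n := fun n => (half_pos h0).le.trans (hβ3 n)
    have hlim : Tendsto β atTop (𝓝[<] βc) := by
      refine tendsto_nhdsWithin_iff.mpr ⟨?_, Eventually.of_forall hβ2⟩
      refine tendsto_of_tendsto_of_tendsto_of_le_of_le ?_ tendsto_const_nhds hβ1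
        fun n => (hβ2 n).le
      have := (tendsto_one_div_add_atTop_nhds_zero_nat (𝕜 := ℝ)).const_mul (βc / 2)
      simpa using this.const_sub βc
    have hsum : ∀ n, Summable (twoPt J (β n)) := fun n => by
      obtain ⟨S, hS, hφ⟩ := hβ4 n
      exact summable_twoPt hK (hβ0 n) hS hφ
    have hd0 : 0 < d := by
      have : (0 : ℝ) < d := by linarith
      exact_mod_cast this
    have : Nonempty (Fin d) := ⟨⟨0, hd0⟩⟩
    obtain ⟨F, hF1, hF2, hF3⟩ := weak_limit (volume.restrict (cube d))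
      (fun θ => |C| * euc θ ^ (-α)) ((measurable_euc.pow_const _).const_mul _)
      (fun θ => mul_nonneg (abs_nonneg _) (Real.rpow_nonneg (Real.sqrt_nonneg _) _))
      ((integrableOn_euc hα (by linarith)).const_mul _)
      (fun n θ => ∑' x : Fin d → ℤ, (twoPt J (β n) x : ℂ) *
        Complex.exp (Complex.I * ((∑ i, θ i * x i : ℝ) : ℂ)))
      (fun n => (continuous_series (hsum n)).measurable)
      (fun n => by
        have h1 : ∀ᵐ θ ∂(volume.restrict (cube d)), θ ≠ (0 : Fin d → ℝ) :=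
          ae_restrict_of_ae (by simp [ae_iff])
        filter_upwards [h1, ae_restrict_mem (measurableSet_cube d)] with θ h1 h2
        exact (hC J hK _ (hβ3 n) (hβ4 n) θ h2 h1).trans (mul_le_mul_of_nonneg_right
          (le_abs_self C) (Real.rpow_nonneg (Real.sqrt_nonneg _) _)))
      (fun (x : Fin d → ℤ) θ => Complex.exp (-(Complex.I * ((∑ i, θ i * x i : ℝ) : ℂ))))
      (fun x => by fun_prop)
      (fun x θ => by
        rw [← mul_neg, ← Complex.ofReal_neg, mul_comm, Complex.norm_exp_ofReal_mul_I])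
      (fun x => (((2 * Real.pi) ^ d : ℝ) : ℂ) * twoPt J βc x)
      (fun x => by
        simp only [inversion (hsum _) x]
        exact (Complex.continuous_ofReal.tendsto _ |>.comp
          ((tendsto_twoPt_left hK.nonneg h0 x).comp hlim)).const_mul _)
    refine ⟨|C|, F, hF1, fun x => ?_, fun θ _ _ => hF2 θ⟩
    rw [hF3 x, ← mul_assoc, Complex.ofReal_inv, inv_mul_cancel₀ hpi, one_mul]

end Pool.Agent.Lib.MP_6fc7d9_pr
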