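import Pool.Agent.Lib.MP_6fc7d9_pr.ChiStep
import Pool.Agent.Lib.MP_6fc7d9_pr.Bad
import Pool.Agent.Lib.MP_6fc7d9_pr.Deriv

set_option linter.unusedSectionVars false

namespace Pool.Agent.Lib.MP_6fc7d9_pr
open Finset

lemma rec_poly_geom (k : ℕ) {r : ℝ} (h0 : 0 < r) (h1 : r < 1) :
    ∃ P : ℝ, 0 ≤ P ∧ ∀ j : ℕ, ((j : ℝ) + 1) ^ k * r ^ j ≤ P := by
  have h := tendsto_pow_const_mul_const_pow_of_abs_lt_one k (r := r) (by rwa [abs_of_pos h0])
  obtain ⟨P, hP⟩ := h.bddAbove_range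
  have h2 : ∀ j : ℕ, ((j : ℝ) + 1) ^ k * r ^ j ≤ P / r := by
    intro j
    have := hP ⟨j + 1, rfl⟩
    simp only [Nat.cast_add, Nat.cast_one] at this
    rw [le_div_iff₀ h0, mul_assoc, ← pow_succ]
    exact this
  exact ⟨P / r, le_trans (by positivity) (h2 0), h2⟩

/-- integrate a derivative bound over one stage -/
lemma rec_stage {Γ : Type} [AddCommGroup Γ] [Fintype Γ] [DecidableEq Γ] {q ρ D c₀ : ℝ} {M : ℕ}
    (S : Setup Γ q ρ D c₀ M) (e : Γ → ℂ) (U : Finset Γ) (x : Γ) (j : ℕ) {b : ℝ}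
    (hb : ∀ t ∈ Set.Icc (0 : ℝ) 1, ‖EK (S.Wt j t) U {x} fun K => ∑ u ∈ K, ∑ v ∈ U \ K,
        S.κ j s(u, v) • GG (S.Wt j t) (U \ K) {v} e‖ ≤ b) {t : ℝ} (ht : t ∈ Set.Icc (0 : ℝ) 1) :
    ‖GG (S.Wt j t) U {x} e‖ ≤ ‖GG (S.W j) U {x} e‖ + b := by
  have hb0 : 0 ≤ b := (norm_nonneg _).trans (hb t ht)
  have h := norm_image_sub_le_of_norm_deriv_le_segment' (a := 0) (b := 1)
    (f := fun s : ℝ => GG (S.Wt j s) U {x} e)
    (fun s _ => (hasDerivAt_GG (S.W j) (S.κ j) U {x} e s).hasDerivWithinAt)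
    (fun s hs => hb s (Set.Ico_subset_Icc_self hs)) t ht
  rw [S.Wt_zero] at h
  have h2 : b * (t - 0) ≤ b := by nlinarith [ht.1, ht.2]
  linarith [norm_sub_norm_le (GG (S.Wt j t) U {x} e) (GG (S.W j) U {x} e)]

/-- the numerical estimate of the three terms of `deriv_bound` -/
lemma rec_terms {q ρ D c₀ : ℝ} (hP : Par q ρ D c₀) {A m L₀ g C P Q a G σ : ℝ} (k i n j₀ : ℕ)
    (hA : 1 ≤ A) (hm : 0 ≤ m) (hL₀ : 1 ≤ L₀) (hg : 1 / 2 ≤ g) (hg1 : g ≤ 1) (hC : 0 ≤ C)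
    (hP0 : 0 ≤ P) (hPi : ((i : ℝ) + 1) ^ (k + 1) * (q * m / ρ) ^ i ≤ P * g ^ i) (hQ : 1 ≤ Q)
    (ha : 1 ≤ a) (hn : n ≤ i) (hG : G ≤ C * a ^ k * q ^ j₀ * Q ^ n)
    (hσ0 : 0 ≤ σ) (hσ : σ ≤ D * ρ ^ i * (1 / 2) ^ n) :
    G * (c₀ / (q * ρ) ^ i * (σ + 1)) * (A * q ^ (i + 1))
        + c₀ / (q * ρ) ^ i * ((a + L₀ * (i + 1)) * m ^ i) * (A * q ^ (i + 1)) ^ 2
          * (C * (a + 2 * (L₀ * (i + 1))) ^ k * q ^ j₀ * Q ^ n + 3 * (1 / 2) ^ i)
        + 2 * (c₀ / (q * ρ) ^ i * (D * ρ ^ i)) * (A * q ^ (i + 1)) * (3 * (1 / 2) ^ i)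
      ≤ (C * (c₀ * (D + 1) * A * q) + c₀ * A ^ 2 * q ^ 2 * (C + 3) * (3 * L₀) ^ (k + 1) * P
          + 6 * c₀ * D * A * q) * (a ^ (k + 1) * q ^ j₀ * (g * Q) ^ n) := by
  have hq := hP.q_pos
  have hρ := hP.ρ_pos
  have hc := hP.hc
  have hD : 0 < D := by linarith [hP.hD]
  have hA0 : 0 < A := by linarith
  have ha0 : 0 < a := by linarith
  have hg0 : 0 < g := by linarith
  have hQ0 : 0 < Q := by linarith
  have hqj : 1 ≤ q ^ j₀ := one_le_pow₀ hP.hq.le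
  have hQn : 1 ≤ Q ^ n := one_le_pow₀ hQ
  have hak : 1 ≤ a ^ (k + 1) := one_le_pow₀ ha
  have hak' : a ^ k ≤ a ^ (k + 1) := pow_le_pow_right₀ ha (Nat.le_succ k)
  have hhalf : (1 / 2 : ℝ) ^ n ≤ g ^ n := pow_le_pow_left₀ (by norm_num) hg n
  have hgi : g ^ i ≤ g ^ n := pow_le_pow_of_le_one hg0.le hg1 hn
  have hhalfi : (1 / 2 : ℝ) ^ i ≤ g ^ n := (pow_le_pow_left₀ (by norm_num) hg i).trans hgi
  set L := L₀ * ((i : ℝ) + 1) with hL
  have hL1 : 1 ≤ L := by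
    have : (0 : ℝ) ≤ i := Nat.cast_nonneg i
    nlinarith
  rw [add_mul _ (6 * c₀ * D * A * q), add_mul (C * (c₀ * (D + 1) * A * q)), mul_pow g Q]
  refine add_le_add (add_le_add ?_ ?_) ?_
  · have h1 : 1 ≤ ρ ^ i * (1 / 2) ^ n := by
      calc (1 : ℝ) = 2 ^ n * (1 / 2) ^ n := by rw [← mul_pow]; norm_num
        _ ≤ ρ ^ i * (1 / 2) ^ n := mul_le_mul_of_nonneg_right
          ((pow_le_pow_right₀ one_le_two hn).trans (pow_le_pow_left₀ zero_le_two hP.h2 i))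
          (by positivity)
    have h2 : σ + 1 ≤ (D + 1) * ρ ^ i * g ^ n := by
      have : (D + 1) * ρ ^ i * (1 / 2) ^ n ≤ (D + 1) * ρ ^ i * g ^ n :=
        mul_le_mul_of_nonneg_left hhalf (by positivity)
      nlinarith
    calc G * (c₀ / (q * ρ) ^ i * (σ + 1)) * (A * q ^ (i + 1))
        ≤ (C * a ^ (k + 1) * q ^ j₀ * Q ^ n) * (c₀ / (q * ρ) ^ i * ((D + 1) * ρ ^ i * g ^ n))
          * (A * q ^ (i + 1)) := by
          refine mul_le_mul_of_nonneg_right (mul_le_mul (hG.trans (by gcongr)) (by gcongr)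
            (by positivity) (by positivity)) (by positivity)
      _ = _ := by rw [mul_pow q ρ, pow_succ q i]; field_simp
  · have h1 : a + L ≤ 3 * a * L := by nlinarith
    have h2 : a + 2 * L ≤ 3 * a * L := by nlinarith
    have h3 : (a + 2 * L) ^ k ≤ (3 * a * L) ^ k := pow_le_pow_left₀ (by linarith) h2 k
    have h4 : 1 ≤ (3 * a * L) ^ k := one_le_pow₀ (by nlinarith)
    have h5 : (1 / 2 : ℝ) ^ i ≤ 1 := pow_le_one₀ (by norm_num) (by norm_num)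
    have h6 : C * (a + 2 * L) ^ k * q ^ j₀ * Q ^ n + 3 * (1 / 2) ^ i
        ≤ (C + 3) * ((3 * a * L) ^ k * q ^ j₀ * Q ^ n) := by
      have e1 : C * (a + 2 * L) ^ k * q ^ j₀ * Q ^ n ≤ C * (3 * a * L) ^ k * q ^ j₀ * Q ^ n := by
        gcongr
      have e2 : 1 ≤ (3 * a * L) ^ k * q ^ j₀ * Q ^ n :=
        one_le_mul_of_one_le_of_one_le (one_le_mul_of_one_le_of_one_le h4 hqj) hQn
      nlinarith
    calc c₀ / (q * ρ) ^ i * ((a + L) * m ^ i) * (A * q ^ (i + 1)) ^ 2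
          * (C * (a + 2 * L) ^ k * q ^ j₀ * Q ^ n + 3 * (1 / 2) ^ i)
        ≤ c₀ / (q * ρ) ^ i * ((3 * a * L) * m ^ i) * (A * q ^ (i + 1)) ^ 2
          * ((C + 3) * ((3 * a * L) ^ k * q ^ j₀ * Q ^ n)) := by gcongr
      _ = c₀ * A ^ 2 * q ^ 2 * (C + 3) * (3 * L₀) ^ (k + 1)
          * (((i : ℝ) + 1) ^ (k + 1) * (q * m / ρ) ^ i) * (a ^ (k + 1) * q ^ j₀ * Q ^ n) := by
          rw [hL, show 3 * a * (L₀ * ((i : ℝ) + 1)) = (3 * L₀) * ((i : ℝ) + 1) * a by ring,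
            mul_pow _ a, mul_pow (3 * L₀), mul_pow q ρ, div_pow, mul_pow q m, pow_succ q i,
            pow_succ (3 * L₀) k, pow_succ ((i : ℝ) + 1) k, pow_succ a k]
          field_simp
      _ ≤ c₀ * A ^ 2 * q ^ 2 * (C + 3) * (3 * L₀) ^ (k + 1)
          * (P * g ^ n) * (a ^ (k + 1) * q ^ j₀ * Q ^ n) := by
          have : 0 < L₀ := by linarith
          exact mul_le_mul_of_nonneg_right (mul_le_mul_of_nonneg_left
            (hPi.trans (mul_le_mul_of_nonneg_left hgi hP0)) (by positivity)) (by positivity)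
      _ = _ := by ring
  · calc 2 * (c₀ / (q * ρ) ^ i * (D * ρ ^ i)) * (A * q ^ (i + 1)) * (3 * (1 / 2) ^ i)
        = 6 * c₀ * D * A * q * (1 * 1 * ((1 / 2) ^ i * 1)) := by
          rw [mul_pow q ρ, pow_succ q i]; field_simp; norm_num
      _ ≤ _ := by gcongr

/-- the recursion on the depth `k` -/
lemma rec_main {q ρ D c₀ : ℝ} (hP : Par q ρ D c₀) {A m γ : ℝ} (hA : 1 ≤ A) (hm0 : 0 ≤ m)
    (hm : ρ * q ≤ m ^ 2) (hγ0 : 0 < γ) (hγ1 : γ < 1) (hγ2 : 1 / 2 < γ ^ 2)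
    (hγ3 : q * m / ρ < γ ^ 2) (k : ℕ) :
    ∃ C : ℝ, 0 ≤ C ∧ ∀ (Γ : Type) [AddCommGroup Γ] [Fintype Γ] [DecidableEq Γ] (M : ℕ)
      (S : Setup Γ q ρ D c₀ M) (e : Γ → ℂ) (j₀ : ℕ), IsChar e →
        (∀ j ≤ M, chi (S.W j) univ 0 ≤ A * q ^ j) →
        (∀ j, j₀ ≤ j → j < M → ‖∑ y ∈ S.Λ j, e y‖ ≤ D * ρ ^ j * (1 / 2) ^ (j - j₀)) →
        ∀ j, j₀ ≤ j → j < M → ∀ t ∈ Set.Icc (0 : ℝ) 1, ∀ a, 1 ≤ a → ∀ B, S.Sparse m j a B → ∀ x,
          ‖GG (S.Wt j t) (univ \ B) {x} e‖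
            ≤ C * a ^ k * q ^ j₀ * (max 1 (q * γ ^ k)) ^ (j - j₀) := by
  have hq := hP.q_pos
  have hρ := hP.ρ_pos
  induction k with
  | zero =>
    refine ⟨A * q, by positivity, ?_⟩
    intro Γ _ _ _ M S e j₀ he hχ _ j hj hjM t ht a _ B _ x
    have h1 := (norm_GG_le_chi (S.Wt_nonneg j ht.1) (univ \ B) x he.norm_le).trans
      ((chi_le_univ (S.Wt_nonneg j ht.1) (S.Wt_inv j t) _ _).trans
        ((chi_mono (S.Wt_nonneg j ht.1) (S.Wt_le_W j ht.2) subset_rfl 0).trans (hχ _ hjM)))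
    refine h1.trans (le_of_eq ?_)
    rw [pow_zero, pow_zero, mul_one, mul_one, max_eq_right hP.hq.le, mul_assoc, mul_assoc,
      ← pow_add, Nat.add_sub_cancel' hj, pow_succ']
  | succ k ih =>
    obtain ⟨C, hC, ih⟩ := ih
    obtain ⟨L₀, hL₀, hbad⟩ := chi_bad hP hA hm0 hm
    have hγ2' : 0 < γ ^ 2 := by positivity
    obtain ⟨P, hP0, hPi⟩ := rec_poly_geom (k + 1) (r := max (1 / 2) (q * m / ρ) / γ ^ 2)
      (by positivity) (by rw [div_lt_one hγ2']; exact max_lt hγ2 hγ3)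
    have hPi' : ∀ i : ℕ, ((i : ℝ) + 1) ^ (k + 1) * (q * m / ρ) ^ i ≤ P * (γ ^ 2) ^ i := by
      intro i
      have h1 := hPi i
      rw [div_pow, ← mul_div_assoc, div_le_iff₀ (by positivity)] at h1
      refine le_trans ?_ h1
      gcongr
      exact le_max_right _ _
    set K := C * (c₀ * (D + 1) * A * q) + c₀ * A ^ 2 * q ^ 2 * (C + 3) * (3 * L₀) ^ (k + 1) * P
          + 6 * c₀ * D * A * q with hK
    have hK0 : 0 ≤ K := by
      have := hP.hc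
      have : 0 < D := by linarith [hP.hD]
      have : 0 < A := by linarith
      have : 0 < L₀ := by linarith
      positivity
    have h1γ : 0 < 1 - γ := by linarith
    refine ⟨A + K / (1 - γ), by positivity, ?_⟩
    intro Γ _ _ _ M S e j₀ he hχ hsum j hj hjM t ht a ha B hB x
    set Q := max 1 (q * γ ^ k) with hQ
    set Q' := max 1 (q * γ ^ (k + 1)) with hQ'
    have hQ1 : 1 ≤ Q := le_max_left _ _
    have hQ1' : 1 ≤ Q' := le_max_left _ _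
    have hQQ : γ * Q ≤ Q' := by
      rw [hQ, mul_max_of_nonneg _ _ hγ0.le]
      exact max_le_max (by linarith) (le_of_eq (by ring))
    have stage : ∀ n, j₀ + n ≤ j → ∀ s ∈ Set.Icc (0 : ℝ) 1,
        ‖GG (S.Wt (j₀ + n) s) (univ \ B) {x} e‖ ≤ ‖GG (S.W (j₀ + n)) (univ \ B) {x} e‖
          + K * (a ^ (k + 1) * q ^ j₀ * (γ ^ 2 * Q) ^ n) := by
      intro n hn s hs
      refine rec_stage S e _ x _ (fun s hs => ?_) hs
      have hi : j₀ + n < M := lt_of_le_of_lt hn hjM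
      have hL : 1 ≤ L₀ * (((j₀ + n : ℕ) : ℝ) + 1) := by
        have : (0 : ℝ) ≤ ((j₀ + n : ℕ) : ℝ) := Nat.cast_nonneg _
        nlinarith
      have hih := ih Γ M S e j₀ he hχ hsum (j₀ + n) (Nat.le_add_right _ _) hi s hs
      rw [Nat.add_sub_cancel_left] at hih
      have hs' := hsum (j₀ + n) (Nat.le_add_right _ _) hi
      rw [Nat.add_sub_cancel_left] at hs'
      refine (deriv_bound S he hm0 (j₀ + n) hs (hχ _ hi) (by linarith) (by linarith)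
        (Y := C * (a + 2 * (L₀ * (((j₀ + n : ℕ) : ℝ) + 1))) ^ k * q ^ j₀ * Q ^ n)
        (by positivity) (hbad Γ M S hχ _ hi s hs)
        (fun B' hB' y => hih _ (by linarith) B' hB' y) B (hB.of_le hn) x).trans ?_
      exact rec_terms hP k (j₀ + n) n j₀ hA hm0 hL₀ hγ2.le (pow_le_one₀ hγ0.le hγ1.le) hC hP0
        (hPi' _) hQ1 ha (Nat.le_add_left _ _) (hih a ha B (hB.of_le hn) x)
        (norm_nonneg _) hs'
    have acc : ∀ n, j₀ + n ≤ j → ‖GG (S.W (j₀ + n)) (univ \ B) {x} e‖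
        ≤ A * q ^ j₀ + ∑ l ∈ range n, K * (a ^ (k + 1) * q ^ j₀ * (γ ^ 2 * Q) ^ l) := by
      intro n
      induction n with
      | zero =>
        intro _
        simp only [add_zero, range_zero, sum_empty]
        exact (norm_GG_le_chi (S.W_nonneg j₀) _ x he.norm_le).trans
          ((chi_le_univ (S.W_nonneg j₀) (S.W_inv j₀) _ _).trans (hχ _ (hj.trans hjM.le)))
      | succ n ihn =>
        intro hn
        have hn' : j₀ + n ≤ j := by omega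
        have := stage n hn' 1 ⟨zero_le_one, le_rfl⟩
        rw [S.Wt_one] at this
        rw [Finset.sum_range_succ, ← add_assoc, ← add_assoc]
        exact this.trans (add_le_add (ihn hn') le_rfl)
    obtain ⟨N, rfl⟩ := Nat.exists_eq_add_of_le hj
    rw [Nat.add_sub_cancel_left]
    refine (stage N le_rfl t ht).trans ((add_le_add (acc N le_rfl) le_rfl).trans ?_)
    rw [add_assoc, ← Finset.sum_range_succ (fun l => K * (a ^ (k + 1) * q ^ j₀ * (γ ^ 2 * Q) ^ l)),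
      ← Finset.mul_sum, ← Finset.mul_sum]
    have hgeo : ∑ l ∈ range (N + 1), (γ ^ 2 * Q) ^ l ≤ Q' ^ N / (1 - γ) := by
      calc ∑ l ∈ range (N + 1), (γ ^ 2 * Q) ^ l ≤ ∑ l ∈ range (N + 1), γ ^ l * Q' ^ N := by
            refine Finset.sum_le_sum fun l hl => ?_
            rw [show γ ^ 2 * Q = γ * (γ * Q) by ring, mul_pow]
            refine mul_le_mul_of_nonneg_left ((pow_le_pow_left₀ (by positivity) hQQ l).trans
              (pow_le_pow_right₀ hQ1' (Nat.lt_succ_iff.mp (Finset.mem_range.mp hl)))) (by positivity)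
        _ ≤ (1 - γ)⁻¹ * Q' ^ N := by
            rw [← Finset.sum_mul]
            refine mul_le_mul_of_nonneg_right ?_ (by positivity)
            rw [← tsum_geometric_of_lt_one hγ0.le hγ1]
            exact (summable_geometric_of_lt_one hγ0.le hγ1).sum_le_tsum _ fun _ _ => by positivity
        _ = _ := by rw [div_eq_inv_mul]
    have hak : 1 ≤ a ^ (k + 1) := one_le_pow₀ ha
    have hQN : 1 ≤ Q' ^ N := one_le_pow₀ hQ1'
    have hA0 : 0 < A := by linarith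
    calc A * q ^ j₀ + K * (a ^ (k + 1) * q ^ j₀ * ∑ l ∈ range (N + 1), (γ ^ 2 * Q) ^ l)
        ≤ A * a ^ (k + 1) * q ^ j₀ * Q' ^ N + K * (a ^ (k + 1) * q ^ j₀ * (Q' ^ N / (1 - γ))) := by
          refine add_le_add ?_ (by gcongr)
          calc A * q ^ j₀ = A * 1 * q ^ j₀ * 1 := by ring
            _ ≤ _ := by gcongr
      _ = _ := by ring

/-- The finite-volume Fourier bound. -/
theorem finite_bound {q ρ D c₀ : ℝ} (hP : Par q ρ D c₀) :
    ∃ C : ℝ, 0 ≤ C ∧ ∀ (Γ : Type) [AddCommGroup Γ] [Fintype Γ] [DecidableEq Γ] (M : ℕ)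
      (S : Setup Γ q ρ D c₀ M) (e : Γ → ℂ) (j₀ : ℕ), IsChar e → j₀ ≤ M →
        chi (S.W M) univ 0 ≤ 2 * q ^ M / c₀ →
        (∀ j, j₀ ≤ j → j < M → ‖∑ y ∈ S.Λ j, e y‖ ≤ D * ρ ^ j * (1 / 2) ^ (j - j₀)) →
        ‖GG (S.W M) univ {0} e‖ ≤ C * q ^ j₀ := by
  have hq := hP.q_pos
  have hρ := hP.ρ_pos
  obtain ⟨A, hA, hchi⟩ := chi_bound hP
  set m := √(ρ * q) with hm
  have hm0 : 0 ≤ m := Real.sqrt_nonneg _
  have hm2 : m ^ 2 = ρ * q := Real.sq_sqrt (by positivity)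
  have hη : q * m / ρ < 1 := by
    rw [div_lt_one hρ]
    refine lt_of_pow_lt_pow_left₀ 2 hρ.le ?_
    rw [mul_pow, hm2]
    nlinarith [hP.hρ]
  set η := max (1 / 2) (q * m / ρ) with hη'
  have hη1 : η < 1 := max_lt (by norm_num) hη
  have hη0 : 1 / 2 ≤ η := le_max_left _ _
  have hγ : η < ((1 + η) / 2) ^ 2 := by nlinarith
  obtain ⟨k, hk⟩ := exists_pow_lt_of_lt_one (inv_pos.mpr hq) (y := (1 + η) / 2) (by linarith)
  obtain ⟨C, hC, h⟩ := rec_main hP hA hm0 hm2.ge (γ := (1 + η) / 2) (by linarith) (by linarith)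
    (hη0.trans_lt hγ) ((le_max_right _ _).trans_lt hγ) k
  have hQ : max 1 (q * ((1 + η) / 2) ^ k) = 1 := by
    refine max_eq_left ?_
    have := mul_lt_mul_of_pos_left hk hq
    rw [mul_inv_cancel₀ hq.ne'] at this
    exact this.le
  refine ⟨max A C, hC.trans (le_max_right _ _), ?_⟩
  intro Γ _ _ _ M S e j₀ he hj hM hsum
  have hχ := hchi Γ M S hM
  rcases hj.eq_or_lt with rfl | hj
  · exact ((norm_GG_le_chi (S.W_nonneg _) _ 0 he.norm_le).trans (hχ _ le_rfl)).trans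
      (mul_le_mul_of_nonneg_right (le_max_left _ _) (by positivity))
  · obtain ⟨j, rfl⟩ : ∃ j, M = j + 1 := ⟨M - 1, by omega⟩
    have := h Γ _ S e j₀ he hχ hsum j (by omega) (Nat.lt_succ_self j) 1 ⟨zero_le_one, le_rfl⟩ 1
      le_rfl ∅ (Setup.sparse_empty hm0 j zero_le_one) 0
    rw [S.Wt_one, hQ, Finset.sdiff_empty, one_pow, one_pow, mul_one, mul_one] at this
    exact this.trans (mul_le_mul_of_nonneg_right (le_max_right _ _) (by positivity))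

end Pool.Agent.Lib.MP_6fc7d9_pr
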