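import Pool.Agent.Lib.MP_6fc7d9_pr.ClBasic

set_option linter.unusedSectionVars false

namespace Pool.Agent.Lib.MP_6fc7d9_pr
open Finset

variable {V : Type*} [DecidableEq V]

lemma sl_pointwise (ω : Finset (Sym2 V)) (S U : Finset V) {x : V} (hx : x ∈ S) :
    ((cl ω U {x}).card : ℝ) ≤ ((cl ω S {x}).card : ℝ) + ∑ u ∈ S, ∑ v ∈ U \ S,
      ind (u ∈ cl ω S {x} ∧ s(u, v) ∈ ω) * ((cl ω (U \ cl ω S {x}) {v}).card : ℝ) := by
  classical
  set C := cl ω S {x} with hC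
  have hsub : cl ω U {x} ⊆ C ∪ ((S ×ˢ (U \ S)).filter fun p => p.1 ∈ C ∧ s(p.1, p.2) ∈ ω).biUnion
      fun p => cl ω (U \ C) {p.2} := by
    refine cl_subset_of_closed ?_ ?_
    · intro a ha _
      rw [Finset.mem_singleton.mp ha]
      exact Finset.mem_union_left _ (self_mem_cl _ hx)
    · intro u v _ hu hv he
      by_cases hvC : v ∈ C
      · exact Finset.mem_union_left _ hvC
      have hv' : v ∈ U \ C := Finset.mem_sdiff.mpr ⟨hv, hvC⟩
      refine Finset.mem_union_right _ ?_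
      rcases Finset.mem_union.mp hu with hu | hu
      · have hvS : v ∉ S := fun h => hvC (cl_step hu h he)
        refine Finset.mem_biUnion.mpr ⟨(u, v), Finset.mem_filter.mpr ⟨Finset.mem_product.mpr
          ⟨cl_subset _ _ _ hu, Finset.mem_sdiff.mpr ⟨hv, hvS⟩⟩, hu, he⟩, self_mem_cl _ hv'⟩
      · obtain ⟨p, hp, hu⟩ := Finset.mem_biUnion.mp hu
        exact Finset.mem_biUnion.mpr ⟨p, hp, cl_step hu hv' he⟩
  have h1 := (Finset.card_le_card hsub).trans ((Finset.card_union_le _ _).trans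
    (Nat.add_le_add_left Finset.card_biUnion_le _))
  have h2 : ((cl ω U {x}).card : ℝ) ≤ (C.card : ℝ) +
      ∑ p ∈ (S ×ˢ (U \ S)).filter fun p => p.1 ∈ C ∧ s(p.1, p.2) ∈ ω,
        ((cl ω (U \ C) {p.2}).card : ℝ) := by exact_mod_cast h1
  refine h2.trans (le_of_eq ?_)
  congr 1
  rw [Finset.sum_filter, Finset.sum_product]
  refine Finset.sum_congr rfl fun u _ => Finset.sum_congr rfl fun v _ => ?_
  by_cases h : u ∈ C ∧ s(u, v) ∈ ω
  · rw [if_pos h, ind_pos h, one_mul]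
  · rw [if_neg h, ind_neg h, zero_mul]

lemma sl_term {w : Sym2 V → ℝ} (hw : ∀ e, 0 ≤ w e) {S U : Finset V} (hSU : S ⊆ U) (x : V)
    {X : ℝ} (hX : ∀ y, chi w U y ≤ X) {u v : V} (hu : u ∈ S) (hv : v ∈ U \ S) :
    Ex U.sym2 (pw w) (fun ω => ind (u ∈ cl ω S {x} ∧ s(u, v) ∈ ω) *
        ((cl ω (U \ cl ω S {x}) {v}).card : ℝ)) ≤ tau w S x u * w s(u, v) * X := by
  have h0 := pw_nonneg hw
  have h1 := pw_le_one w
  have hX0 : 0 ≤ X := (chi_nonneg hw U x).trans (hX x)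
  have hvU : v ∈ U := (Finset.mem_sdiff.mp hv).1
  have hvS : v ∉ S := (Finset.mem_sdiff.mp hv).2
  have e1 := Ex_markov U.sym2 (pw w) S {x} (fun C ω => ind (u ∈ C ∧ s(u, v) ∈ ω))
    (fun C ω => ((cl ω (U \ C) {v}).card : ℝ))
    (fun C ω ω' h => ind_congr (and_congr_right fun huC => h u huC v))
    (fun C ω ω' h => by
      rw [cl_congr (ω := ω) (ω' := ω') {v} fun a ha b hb =>
        h a (Finset.mem_sdiff.mp ha).2 b (Finset.mem_sdiff.mp hb).2])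
  have e2 : Ex U.sym2 (pw w) (fun ω => ind (u ∈ cl ω S {x}) • ind (s(u, v) ∈ ω))
      = Ex U.sym2 (pw w) (fun ω => ind (u ∈ cl ω S {x})) •
        Ex U.sym2 (pw w) (fun ω => ind (s(u, v) ∈ ω)) := by
    refine Ex_indep _ _ (fun e => e ≠ s(u, v)) _ _ ?_ ?_
    · intro ω ω' h
      rw [cl_congr (ω := ω) (ω' := ω') {x} fun a ha b hb => h _ fun hab => ?_]
      rcases Sym2.eq_iff.mp hab with ⟨_, h2⟩ | ⟨h2, _⟩
      · exact hvS (h2 ▸ hb)
      · exact hvS (h2 ▸ ha)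
    · intro ω ω' h
      exact ind_congr (h _ fun hh => hh rfl)
  have e3 : tau w S x u = Ex U.sym2 (pw w) (fun ω => ind (u ∈ cl ω S {x})) :=
    EK_eq_Ex w (Finset.sym2_mono hSU) _ _
  have e4 : Ex U.sym2 (pw w) (fun ω => ind (s(u, v) ∈ ω)) = pw w s(u, v) :=
    Ex_ind_mem (Finset.mk_mem_sym2_iff.mpr ⟨hSU hu, hvU⟩) _
  calc _ = Ex U.sym2 (pw w) (fun ω => ind (u ∈ cl ω S {x} ∧ s(u, v) ∈ ω) •
          Ex U.sym2 (pw w) fun ω' => ((cl ω' (U \ cl ω S {x}) {v}).card : ℝ)) := e1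
    _ ≤ Ex U.sym2 (pw w) (fun ω => (ind (u ∈ cl ω S {x}) • ind (s(u, v) ∈ ω)) * X) := by
        refine Ex_mono h0 h1 fun ω _ => ?_
        rw [smul_eq_mul, smul_eq_mul, ← ind_and]
        refine mul_le_mul_of_nonneg_left ?_ (ind_nonneg _)
        have e5 : chi w (U \ cl ω S {x}) v
            = Ex U.sym2 (pw w) fun ω' => ((cl ω' (U \ cl ω S {x}) {v}).card : ℝ) :=
          EK_eq_Ex w (Finset.sym2_mono Finset.sdiff_subset) _ _
        rw [← e5]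
        exact (chi_mono hw (fun _ => le_rfl) Finset.sdiff_subset v).trans (hX v)
    _ = tau w S x u * pw w s(u, v) * X := by rw [Ex_mul_const, e2, e3, e4, smul_eq_mul]
    _ ≤ _ := mul_le_mul_of_nonneg_right
        (mul_le_mul_of_nonneg_left (pw_le w _) (tau_nonneg hw S x u)) hX0

/-- Simon-Lieb inequality.  For `ω` let `C = cl ω S {x}`.  Then
`cl ω U {x} ⊆ C ∪ ⋃_{u ∈ C, v ∈ U \ S, s(u,v) ∈ ω} cl ω (U \ C) {v}` (`cl_induction`), so
`|cl ω U {x}| ≤ |C| + ∑ u ∈ S, ∑ v ∈ U \ S, ind (u ∈ C) * ind (s(u,v) ∈ ω) * |cl ω (U \ C) {v}|`.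
Work in the ambient set `U.sym2` (`EK_eq_Ex`).  For fixed `u, v` apply `Ex_markov` (domain `S`,
`I C ω = ind (u ∈ C ∧ s(u,v) ∈ ω)`, `H C ω = |cl ω (U \ C) {v}|`), bound
`chi w (U \ C) v ≤ X` (`chi_mono`), then `Ex_indep` with `D e := e ≠ s(u,v)`,
`Ex_ind_mem`, `pw_le`. -/
theorem simon_lieb {w : Sym2 V → ℝ} (hw : ∀ e, 0 ≤ w e) {S U : Finset V} (hSU : S ⊆ U) {x : V}
    (hx : x ∈ S) {X : ℝ} (hX : ∀ y, chi w U y ≤ X) :
    chi w U x ≤ chi w S x + (∑ u ∈ S, tau w S x u * ∑ v ∈ U \ S, w s(u, v)) * X := by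
  have e1 : chi w S x = Ex U.sym2 (pw w) fun ω => ((cl ω S {x}).card : ℝ) :=
    EK_eq_Ex w (Finset.sym2_mono hSU) _ _
  calc chi w U x ≤ Ex U.sym2 (pw w) (fun ω => ((cl ω S {x}).card : ℝ) + ∑ u ∈ S, ∑ v ∈ U \ S,
        ind (u ∈ cl ω S {x} ∧ s(u, v) ∈ ω) * ((cl ω (U \ cl ω S {x}) {v}).card : ℝ)) :=
        Ex_mono (pw_nonneg hw) (pw_le_one w) fun ω _ => sl_pointwise ω S U hx
    _ ≤ chi w S x + ∑ u ∈ S, ∑ v ∈ U \ S, tau w S x u * w s(u, v) * X := by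
        rw [Ex_add, ← e1, Ex_sum]
        refine add_le_add le_rfl (Finset.sum_le_sum fun u hu => ?_)
        rw [Ex_sum]
        exact Finset.sum_le_sum fun v hv => sl_term hw hSU x hX hu hv
    _ = _ := by
        congr 1
        rw [Finset.sum_mul]
        refine Finset.sum_congr rfl fun u _ => ?_
        rw [Finset.mul_sum, Finset.sum_mul]

/-- in the ambient set `U.sym2`, the difference is the sum of `φ` over `cl ω U {x} \ cl ω S {x}` -/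
theorem norm_GG_sub_le {E : Type*} [NormedAddCommGroup E] [NormedSpace ℝ E] {w : Sym2 V → ℝ}
    (hw : ∀ e, 0 ≤ w e) {S U : Finset V} (hSU : S ⊆ U) (x : V) {φ : V → E}
    (hφ : ∀ y, ‖φ y‖ ≤ 1) : ‖GG w U {x} φ - GG w S {x} φ‖ ≤ chi w U x - chi w S x := by
  have e1 : GG w S {x} φ = Ex U.sym2 (pw w) fun ω => ∑ y ∈ cl ω S {x}, φ y :=
    EK_eq_Ex w (Finset.sym2_mono hSU) _ _
  have e2 : chi w S x = Ex U.sym2 (pw w) fun ω => ((cl ω S {x}).card : ℝ) :=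
    EK_eq_Ex w (Finset.sym2_mono hSU) _ _
  have e3 : GG w U {x} φ = Ex U.sym2 (pw w) fun ω => ∑ y ∈ cl ω U {x}, φ y := rfl
  have e4 : chi w U x = Ex U.sym2 (pw w) fun ω => ((cl ω U {x}).card : ℝ) := rfl
  rw [e1, e2, e3, e4, ← Ex_sub, ← Ex_sub]
  refine norm_Ex_le (pw_nonneg hw) (pw_le_one w) fun ω _ => ?_
  have hsub : cl ω S {x} ⊆ cl ω U {x} := cl_mono subset_rfl hSU subset_rfl
  rw [← Finset.sum_sdiff hsub, add_sub_cancel_right, ← Nat.cast_sub (Finset.card_le_card hsub),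
    ← Finset.card_sdiff_of_subset hsub]
  exact (norm_sum_le _ _).trans ((Finset.sum_le_sum fun y _ => hφ y).trans (by simp))

end Pool.Agent.Lib.MP_6fc7d9_pr
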