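import Pool.Agent.Lib.MP_6fc7d9_pr.WChain

set_option linter.unusedSectionVars false

namespace Pool.Agent.Lib.MP_6fc7d9_pr
open Finset

lemma wavg_shift {d : ℕ} {w : Sym2 (Zd d) → ℝ} (hinv : Inv w) (S : Finset (Zd d)) (x y c : Zd d) :
    tau w (S.map (addRightEmbedding c)) (x + c) (y + c) = tau w S x y := by
  have h := EK_map (addRightEmbedding c) w w S {x} (fun a _ b _ => hinv a b c)
    (fun K => ind (y + c ∈ K))
  rw [Finset.map_singleton, addRightEmbedding_apply] at h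
  unfold tau
  rw [h]
  exact EK_congr fun K _ => ind_congr (Finset.mem_map' (addRightEmbedding c))

lemma wavg_card {d : ℕ} (L n : ℕ) (g : Zd d) : (Blk L n g).card = (L ^ n) ^ d := by
  rw [Blk, Fintype.card_piFinset]
  simp only [Int.card_Ico, add_sub_cancel_left, Int.toNat_natCast, Finset.prod_const,
    Finset.card_univ, Fintype.card_fin]

lemma wavg_sum {V : Type*} [DecidableEq V] {w : Sym2 V → ℝ} (hw : ∀ e, 0 ≤ w e) {U B : Finset V}
    (hB : B ⊆ U) {X : ℝ} (hX : ∀ x, chi w U x ≤ X) :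
    ∑ x ∈ B, ∑ y ∈ B, tau w U x y ≤ B.card * X := by
  rw [← nsmul_eq_mul]
  refine Finset.sum_le_card_nsmul _ _ _ fun x _ => le_trans ?_ (hX x)
  rw [chi_eq_sum_tau]
  exact Finset.sum_le_sum_of_subset_of_nonneg hB fun y _ _ => tau_nonneg hw U x y

/-- Averaged two-point bound.  Fix `U₀, x, t`; choose `n` minimal with `4 (1+t) ≤ L^n`, and `N ≥ n`
with `4 X L^(dN) ≤ lam^(2N)`.  Let `U` be the union of `Blk L N 0` and of the translates
`U₀ + (a - x)`, `a ∈ Blk L N 0`.  `ChainInv` holds at level `N` with `w' = w`, `G = 0`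
(`bigP_le`, `chi_eq_sum_tau`).  Descend to level `n` with `chain_step`: a block `Q ⊆ Blk L N 0` of
side `L^n` with `∑_{x,y ∈ Q} tau w U x y ≤ (A₂ + A₃^2) lam^(2n)`.  For the at least `(L^n/2)^d` points
`a ∈ Q` with `ball a t ⊆ Q`, translation invariance (`EK_map` with `addRightEmbedding`) and
`tau_mono` give `∑ y ∈ ball x t, tau w U₀ x y ≤ ∑ y ∈ Q, tau w U a y`. -/
theorem avg_bound (d : ℕ) {α c₀ : ℝ} (hα : 0 < α) (hd : α < d) (hc : 0 < c₀) :
    ∃ C : ℝ, 0 < C ∧ ∀ w : Sym2 (Zd d) → ℝ, (∀ e, 0 ≤ w e) → Inv w →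
      (∀ x y, x ≠ y → c₀ * kk (d + α) (y - x) ≤ w s(x, y)) →
      (∃ X : ℝ, ∀ U x, chi w U x ≤ X) →
      ∀ (U : Finset (Zd d)) (x : Zd d) (t : ℕ),
        ∑ y ∈ ball x t, tau w U x y ≤ C * (1 + (t : ℝ)) ^ α := by
  obtain ⟨L, A, A₂, A₃, hL, hA, hA₂, hA₃, hstep⟩ := chain_step d hα hd hc
  have hL1 : (1 : ℝ) < L := by exact_mod_cast hL
  have hL0 : (0 : ℝ) < L := by linarith
  set lam : ℝ := (L : ℝ) ^ (((d : ℝ) + α) / 2) with hlam
  have hlam0 : 0 < lam := Real.rpow_pos_of_pos hL0 _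
  have hlam2 : ∀ n : ℕ, lam ^ (2 * n) = ((L : ℝ) ^ n) ^ d * ((L : ℝ) ^ n) ^ α := by
    intro n
    rw [hlam, ← Real.rpow_natCast, ← Real.rpow_mul hL0.le, ← Real.rpow_natCast ((L : ℝ) ^ n) d,
      ← Real.rpow_add (by positivity), ← Real.rpow_natCast (L : ℝ) n, ← Real.rpow_mul hL0.le]
    congr 1
    push_cast; ring
  refine ⟨2 ^ d * (A₂ + A₃ ^ 2) * (4 * L) ^ α, by positivity, ?_⟩
  rintro w hw hinv hlow ⟨X, hX⟩ U₀ x t
  have hdesc : ∀ (U : Finset (Zd d)) (n m : ℕ) (g : Zd d) (w' : Sym2 (Zd d) → ℝ) (G : Zd d → ℝ),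
      ChainInv w U c₀ lam A A₂ A₃ L (n + m) g w' G →
      ∃ g' w'' G', ChainInv w U c₀ lam A A₂ A₃ L n g' w'' G' ∧ Blk L n g' ⊆ Blk L (n + m) g := by
    intro U n m
    induction m with
    | zero => exact fun g w' G h => ⟨g, w', G, h, subset_rfl⟩
    | succ m ih =>
      intro g w' G h
      obtain ⟨g₁, w₁, G₁, h1, h2⟩ := hstep w hlow U (n + m) g w' G h
      obtain ⟨g₂, w₂, G₂, h3, h4⟩ := ih g₁ w₁ G₁ h1
      exact ⟨g₂, w₂, G₂, h3, h4.trans h2⟩
  obtain ⟨n₀, hn1, hn2⟩ := exists_nat_pow_near (x := 4 * (1 + t)) (y := L) (by omega) (by omega)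
  set n := n₀ + 1 with hn
  obtain ⟨m, hm⟩ : ∃ m : ℕ, 2 * X ≤ ((L : ℝ) ^ (n + m)) ^ α := by
    have h1 := (tendsto_rpow_atTop hα).comp ((tendsto_pow_atTop_atTop_of_one_lt hL1).comp
      (Filter.tendsto_atTop_mono (fun m => Nat.le_add_left m n) Filter.tendsto_id))
    exact (h1.eventually_ge_atTop _).exists
  set B := Blk L (n + m) (0 : Zd d) with hB
  set U := B ∪ B.biUnion fun a => U₀.map (addRightEmbedding (a - x)) with hU
  have hBU : B ⊆ U := Finset.subset_union_left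
  have hBsum : ∑ x ∈ B, ∑ y ∈ B, tau w U x y ≤ lam ^ (2 * (n + m)) / 2 := by
    refine (wavg_sum hw hBU (hX U)).trans ?_
    rw [hB, wavg_card, hlam2, mul_div_assoc]
    push_cast
    exact mul_le_mul_of_nonneg_left (by linarith) (by positivity)
  have hp : 0 < lam ^ (2 * (n + m)) := by positivity
  have hstart : ChainInv w U c₀ lam A A₂ A₃ L (n + m) 0 w fun _ => 0 := by
    refine ⟨hBU, hw, fun a _ b _ _ => sub_le_self _ (by positivity), ?_, ?_, fun _ => le_rfl,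
      fun a b => by simp, by simp; positivity⟩
    · refine (bigP_le hw U (fun _ => ind_nonneg _) (by positivity)).trans ?_
      have e1 : ∑ a ∈ U, ∑ b ∈ U, ind (a ∈ B) * ind (b ∈ B) * tau w U a b
          = ∑ a ∈ B, ∑ b ∈ B, tau w U a b := by
        simp only [ind_eq_ite, ite_mul, one_mul, zero_mul]
        simp only [Finset.sum_ite_irrel, Finset.sum_const_zero, Finset.sum_ite_mem,
          Finset.inter_eq_right.mpr hBU]
      rw [e1, div_le_iff₀ (by positivity), mul_pow, ← pow_mul, mul_comm (n + m) 2]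
      nlinarith [one_le_pow₀ (n := 2) hA]
    · nlinarith
  obtain ⟨g, w', G, hI, hQ⟩ := hdesc U n m 0 w _ hstart
  have hQsum : ∑ a ∈ Blk L n g, ∑ b ∈ Blk L n g, tau w U a b ≤ (A₂ + A₃ ^ 2) * lam ^ (2 * n) := by
    refine (Finset.sum_le_sum fun a _ => Finset.sum_le_sum fun b _ => hI.cmp a b).trans ?_
    simp only [Finset.sum_add_distrib, ← Finset.mul_sum, ← Finset.sum_mul]
    have h1 := hI.two
    have h2 := mul_self_le_mul_self (Finset.sum_nonneg fun a _ => hI.G_nonneg a) hI.G_sum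
    rw [mul_comm 2 n, pow_mul] at *
    nlinarith
  set Q' : Finset (Zd d) := Fintype.piFinset fun k => Finset.Ico (g k + t) (g k + (L ^ n : ℕ) - t)
    with hQ'
  have hQ'sub : Q' ⊆ Blk L n g := Fintype.piFinset_subset _ _ fun k =>
    Finset.Ico_subset_Ico (by omega) (by omega)
  have hQ'card : ((L : ℝ) ^ n / 2) ^ d ≤ Q'.card := by
    rw [hQ', Fintype.card_piFinset]
    have e1 : ∀ k : Fin d, (Finset.Ico (g k + t) (g k + (L ^ n : ℕ) - t)).card = L ^ n - 2 * t :=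
      fun k => by rw [Int.card_Ico]; omega
    simp only [e1, Finset.prod_const, Finset.card_univ, Fintype.card_fin]
    rw [Nat.cast_pow, Nat.cast_sub (by omega)]
    refine pow_le_pow_left₀ (by positivity) ?_ d
    have : ((4 * (1 + t) : ℕ) : ℝ) < ((L ^ n : ℕ) : ℝ) := by exact_mod_cast hn2
    push_cast at this ⊢
    linarith
  have hpt : ∀ a ∈ Q', ∑ y ∈ ball x t, tau w U₀ x y ≤ ∑ b ∈ Blk L n g, tau w U a b := by
    intro a ha
    have h1 : U₀.map (addRightEmbedding (a - x)) ⊆ U :=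
      (Finset.subset_biUnion_of_mem (fun a => U₀.map (addRightEmbedding (a - x)))
        (hQ (hQ'sub ha))).trans Finset.subset_union_right
    calc ∑ y ∈ ball x t, tau w U₀ x y
        ≤ ∑ y ∈ ball x t, tau w U a (addRightEmbedding (a - x) y) := by
          refine Finset.sum_le_sum fun y _ => ?_
          rw [← wavg_shift hinv U₀ x y (a - x), add_sub_cancel]
          exact tau_mono hw (fun _ => le_rfl) h1 _ _
      _ = ∑ b ∈ (ball x t).map (addRightEmbedding (a - x)), tau w U a b := by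
          rw [Finset.sum_map]
      _ ≤ _ := by
          refine Finset.sum_le_sum_of_subset_of_nonneg (fun b hb => ?_)
            fun b _ _ => tau_nonneg hw U a b
          obtain ⟨y, hy, rfl⟩ := Finset.mem_map.mp hb
          refine Fintype.mem_piFinset.mpr fun k => ?_
          have h2 := mem_ball_coord.mp hy k
          have h3 := Finset.mem_Ico.mp (Fintype.mem_piFinset.mp ha k)
          simp only [addRightEmbedding_apply, Pi.add_apply, Pi.sub_apply, Finset.mem_Ico]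
          omega
  have h1 : (Q'.card : ℝ) * ∑ y ∈ ball x t, tau w U₀ x y ≤ (A₂ + A₃ ^ 2) * lam ^ (2 * n) := by
    rw [← nsmul_eq_mul]
    refine (Finset.card_nsmul_le_sum _ _ _ hpt).trans (le_trans ?_ hQsum)
    exact Finset.sum_le_sum_of_subset_of_nonneg hQ'sub fun a _ _ =>
      Finset.sum_nonneg fun b _ => tau_nonneg hw U a b
  have h0 : 0 ≤ ∑ y ∈ ball x t, tau w U₀ x y := Finset.sum_nonneg fun y _ => tau_nonneg hw _ _ _
  have h2 := (mul_le_mul_of_nonneg_right hQ'card h0).trans h1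
  have h3 : ((L : ℝ) ^ n) ^ α ≤ (4 * L) ^ α * (1 + (t : ℝ)) ^ α := by
    rw [← Real.mul_rpow (by positivity) (by positivity)]
    refine Real.rpow_le_rpow (by positivity) ?_ hα.le
    have : ((L ^ n₀ : ℕ) : ℝ) ≤ ((4 * (1 + t) : ℕ) : ℝ) := by exact_mod_cast hn1
    push_cast at this
    rw [hn, pow_succ]
    nlinarith
  rw [hlam2, div_pow, div_mul_eq_mul_div, div_le_iff₀ (by positivity)] at h2
  have h4 : ∑ y ∈ ball x t, tau w U₀ x y ≤ (A₂ + A₃ ^ 2) * ((L : ℝ) ^ n) ^ α * 2 ^ d := by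
    refine le_of_mul_le_mul_left (h2.trans_eq ?_) (a := ((L : ℝ) ^ n) ^ d) (by positivity)
    ring
  refine h4.trans ?_
  calc (A₂ + A₃ ^ 2) * ((L : ℝ) ^ n) ^ α * 2 ^ d
      ≤ (A₂ + A₃ ^ 2) * ((4 * L) ^ α * (1 + (t : ℝ)) ^ α) * 2 ^ d := by gcongr
    _ = _ := by ring

end Pool.Agent.Lib.MP_6fc7d9_pr
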