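import Pool.Agent.Lib.MP_6fc7d9_pr.WDefs
import Pool.Agent.Lib.MP_6fc7d9_pr.Fourier
import Pool.Agent.Lib.MP_6fc7d9_pr.Main

set_option linter.unusedSectionVars false

namespace Pool.Agent.Lib.MP_6fc7d9_pr
open Finset

open Filter Topology

/-- the character -/
noncomputable def wfour_e {d : ℕ} (θ : Fin d → ℝ) (x : Zd d) : ℂ :=
  Complex.exp (Complex.I * ((∑ i, θ i * x i : ℝ) : ℂ))

lemma wfour_norm {d : ℕ} (θ : Fin d → ℝ) (x : Zd d) : ‖wfour_e θ x‖ = 1 := fourier_norm _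

lemma wfour_shift {d : ℕ} (θ : Fin d → ℝ) (x : Zd d) (i : Fin d) (h k : ℕ) :
    wfour_e θ (x + k • sv i h) =
      wfour_e θ x * Complex.exp (Complex.I * ((θ i * h : ℝ) : ℂ)) ^ k := by
  rw [wfour_e, wfour_e, ← Complex.exp_nat_mul, ← Complex.exp_add]
  congr 1
  have h1 : (∑ j, θ j * ((x + k • sv i h) j : ℝ)) = (∑ j, θ j * x j) + k * (θ i * h) := by
    have h2 : ∀ j, θ j * ((x + k • sv i h) j : ℝ) =
        θ j * x j + (if j = i then k * (θ i * h) else 0) := by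
      intro j
      by_cases hj : j = i
      · subst hj
        simp [sv]
        ring
      · simp [sv, hj]
    simp only [h2, Finset.sum_add_distrib, Finset.sum_ite_eq', Finset.mem_univ, if_true]
  rw [h1]
  push_cast
  ring

lemma wfour_summable {d : ℕ} (θ : Fin d → ℝ) {f : Zd d → ℝ} (hf : Summable f) :
    Summable fun x => (f x : ℂ) * wfour_e θ x := by
  refine Summable.of_norm ?_
  simp only [norm_mul, wfour_norm, mul_one, Complex.norm_real]
  exact hf.norm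

lemma wfour_tsum_shift {d : ℕ} (θ : Fin d → ℝ) (f : Zd d → ℝ) (i : Fin d) (h k : ℕ) :
    ∑' z : Zd d, (f (z - k • sv i h) : ℂ) * wfour_e θ z =
      Complex.exp (Complex.I * ((θ i * h : ℝ) : ℂ)) ^ k * ∑' x : Zd d, (f x : ℂ) * wfour_e θ x := by
  rw [← (Equiv.addRight (k • sv i h)).tsum_eq, ← tsum_mul_left]
  refine tsum_congr fun x => ?_
  simp only [Equiv.coe_addRight, add_sub_cancel_right]
  rw [wfour_shift]
  ring

lemma wfour_binom (N : ℕ) (u : ℂ) :
    (1 - u) ^ N = ∑ σ : Finset (Fin N), (-1 : ℂ) ^ σ.card * u ^ σ.card := by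
  have h := Finset.prod_one_add (s := (Finset.univ : Finset (Fin N))) (f := fun _ => -u)
  rw [Finset.prod_const, Finset.card_univ, Fintype.card_fin, Finset.powerset_univ] at h
  rw [sub_eq_add_neg, h]
  refine Finset.sum_congr rfl fun σ _ => ?_
  rw [Finset.prod_const, neg_pow]

lemma wfour_ident {d : ℕ} (N : ℕ) (θ : Fin d → ℝ) {f : Zd d → ℝ} (hf : Summable f) (i : Fin d)
    (h : ℕ) :
    (1 - Complex.exp (Complex.I * ((θ i * h : ℝ) : ℂ))) ^ N *
        ∑' x : Zd d, (f x : ℂ) * wfour_e θ x =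
      ∑' z : Zd d, ((∑ σ : Finset (Fin N), (-1 : ℝ) ^ σ.card * f (z - σ.card • sv i h) : ℝ) : ℂ) *
        wfour_e θ z := by
  have hs : ∀ k : ℕ, Summable fun z : Zd d => (f (z - k • sv i h) : ℂ) * wfour_e θ z :=
    fun k => wfour_summable θ (f := fun z => f (z - k • sv i h))
      (hf.comp_injective (sub_left_injective (b := k • sv i h)))
  have h1 : ∀ z : Zd d,
      ((∑ σ : Finset (Fin N), (-1 : ℝ) ^ σ.card * f (z - σ.card • sv i h) : ℝ) : ℂ) *
        wfour_e θ z = ∑ σ : Finset (Fin N),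
          (-1 : ℂ) ^ σ.card * ((f (z - σ.card • sv i h) : ℂ) * wfour_e θ z) := by
    intro z
    push_cast
    rw [Finset.sum_mul]
    exact Finset.sum_congr rfl fun σ _ => by ring
  simp only [h1]
  rw [Summable.tsum_finsetSum (f := fun (σ : Finset (Fin N)) (z : Zd d) =>
      (-1 : ℂ) ^ σ.card * ((f (z - σ.card • sv i h) : ℂ) * wfour_e θ z))
    fun σ _ => (hs σ.card).mul_left _, wfour_binom, Finset.sum_mul]
  refine Finset.sum_congr rfl fun σ _ => ?_
  rw [tsum_mul_left, wfour_tsum_shift]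
  ring

lemma wfour_one_le {t : ℝ} (h1 : Real.pi / 2 ≤ |t|) (h2 : |t| ≤ Real.pi) :
    1 ≤ ‖1 - Complex.exp (Complex.I * (t : ℂ))‖ := by
  refine le_trans ?_ (Complex.re_le_norm _)
  have hc : Real.cos t ≤ 0 := by
    rw [← Real.cos_abs]
    exact Real.cos_nonpos_of_pi_div_two_le_of_le h1 (by linarith [Real.pi_pos])
  rw [Complex.sub_re, mul_comm, Complex.exp_ofReal_mul_I_re, Complex.one_re]
  linarith

/-- Choose `i` with `|θ i|` maximal (`euc θ ≤ √d |θ i|`) and `h = ⌊π/|θ i|⌋ ≥ 1`, so that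
`π/2 ≤ h |θ i| ≤ π` and `‖1 - exp (I θ_i h)‖ ≥ 1`.  Shifting the summation variable,
`(1 - exp (I θ_i h))^N * ∑' x, f x e(x) = ∑' z, (∑ σ, (-1)^|σ| f (z - |σ| v)) e(z)`
(`Finset.prod_one_add` or `Finset.sum_pow_mul_eq_add_pow`). -/
theorem four_of_l1 {d N : ℕ} {α C : ℝ} (hα : 0 < α) (hC : 0 < C) {f : Zd d → ℝ} (hf : Summable f)
    (hl : ∀ (i : Fin d) (h : ℕ), 1 ≤ h → ∀ T : Finset (Zd d),
      ∑ z ∈ T, |∑ σ : Finset (Fin N), (-1 : ℝ) ^ σ.card * f (z - σ.card • sv i h)|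
        ≤ C * (h : ℝ) ^ α) :
    ∀ θ ∈ cube d, θ ≠ 0 → ‖∑' x : Zd d, (f x : ℂ) *
        Complex.exp (Complex.I * ((∑ i, θ i * x i : ℝ) : ℂ))‖
      ≤ C * (Real.pi * √d) ^ α * euc θ ^ (-α) := by
  intro θ hθ h0
  have hne : (Finset.univ : Finset (Fin d)).Nonempty := by
    obtain ⟨j, -⟩ := Function.ne_iff.mp h0
    exact ⟨j, Finset.mem_univ j⟩
  obtain ⟨i, -, hi⟩ := Finset.exists_max_image Finset.univ (fun j => |θ j|) hne
  have hpos : 0 < |θ i| := by
    obtain ⟨j, hj⟩ := Function.ne_iff.mp h0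
    exact lt_of_lt_of_le (abs_pos.2 hj) (hi j (Finset.mem_univ j))
  have hpi : |θ i| ≤ Real.pi := abs_le.2 (hθ i (Set.mem_univ i))
  have heuc : euc θ ≤ √d * |θ i| := by
    rw [euc, ← Real.sqrt_sq (abs_nonneg (θ i)), ← Real.sqrt_mul (Nat.cast_nonneg d)]
    refine Real.sqrt_le_sqrt ?_
    have : ∑ j, θ j ^ 2 ≤ ∑ _j : Fin d, |θ i| ^ 2 := by
      refine Finset.sum_le_sum fun j _ => ?_
      rw [← sq_abs (θ j)]
      exact pow_le_pow_left₀ (abs_nonneg _) (hi j (Finset.mem_univ j)) 2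
    simpa using this
  have heuc0 : 0 < euc θ := by
    refine lt_of_lt_of_le hpos (Real.abs_le_sqrt ?_)
    exact Finset.single_le_sum (f := fun j => θ j ^ 2) (fun _ _ => sq_nonneg _) (Finset.mem_univ i)
  set h : ℕ := ⌊Real.pi / |θ i|⌋₊ with hh
  have hq : 1 ≤ Real.pi / |θ i| := (one_le_div hpos).2 hpi
  have h1 : 1 ≤ h := Nat.le_floor (by simpa using hq)
  have h1' : (1 : ℝ) ≤ h := by exact_mod_cast h1
  have hle : (h : ℝ) ≤ Real.pi / |θ i| := Nat.floor_le (by linarith)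
  have hlt : Real.pi / |θ i| < h + 1 := Nat.lt_floor_add_one _
  have habs : |θ i * h| = |θ i| * h := by rw [abs_mul, Nat.abs_cast]
  have hu : 1 ≤ ‖1 - Complex.exp (Complex.I * ((θ i * h : ℝ) : ℂ))‖ := by
    refine wfour_one_le ?_ ?_
    · rw [habs]
      rw [div_lt_iff₀ hpos] at hlt
      nlinarith
    · rw [habs]
      rw [le_div_iff₀ hpos] at hle
      linarith
  have hid := wfour_ident N θ hf i h
  have hsum : Summable fun z : Zd d =>
      |∑ σ : Finset (Fin N), (-1 : ℝ) ^ σ.card * f (z - σ.card • sv i h)| :=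
    summable_of_sum_le (fun z => abs_nonneg _) (hl i h h1)
  have hb : ‖∑' z : Zd d,
      ((∑ σ : Finset (Fin N), (-1 : ℝ) ^ σ.card * f (z - σ.card • sv i h) : ℝ) : ℂ) *
        wfour_e θ z‖ ≤ C * (h : ℝ) ^ α := by
    refine le_trans (tsum_of_norm_bounded hsum.hasSum fun z => ?_)
      (hsum.tsum_le_of_sum_le (hl i h h1))
    rw [norm_mul, wfour_norm, mul_one, Complex.norm_real, Real.norm_eq_abs]
  rw [← hid, norm_mul, norm_pow] at hb
  have h2 : ‖∑' x : Zd d, (f x : ℂ) * wfour_e θ x‖ ≤ C * (h : ℝ) ^ α :=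
    le_trans (le_mul_of_one_le_left (norm_nonneg _) (one_le_pow₀ hu)) hb
  refine le_trans h2 ?_
  rw [mul_assoc]
  refine mul_le_mul_of_nonneg_left ?_ hC.le
  rw [Real.rpow_neg heuc0.le, ← div_eq_mul_inv,
    ← Real.div_rpow (by positivity) heuc0.le]
  refine Real.rpow_le_rpow (Nat.cast_nonneg h) (le_trans hle ?_) hα.le
  rw [div_le_div_iff₀ hpos heuc0]
  have := mul_le_mul_of_nonneg_left heuc Real.pi_pos.le
  linarith

end Pool.Agent.Lib.MP_6fc7d9_pr
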