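import Pool.Agent.Lib.MP_6fc7d9_pr.WDefs
import Pool.Agent.Lib.MP_6fc7d9_pr.Main

set_option linter.unusedSectionVars false

namespace Pool.Agent.Lib.MP_6fc7d9_pr
open Finset MeasureTheory Filter Topology

/-- from uniform subcritical Fourier bounds to the critical point -/
theorem wmain_limit {d : ℕ} {α c : ℝ} (hα : 0 < α) (hd : α < d)
    {J : Sym2 (Fin d → ℤ) → ℝ} (hK : Kernel d α c J) (hne : (supercrit J).Nonempty)
    (hsub : ∀ β₀ β₁ : ℝ, 0 < β₀ → ∃ C : ℝ, ∀ β, β₀ ≤ β → β ≤ β₁ →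
      (∃ S : Finset (Fin d → ℤ), 0 ∈ S ∧ phi J β S < 1) → ∀ θ ∈ cube d, θ ≠ 0 →
        ‖∑' x : Fin d → ℤ, (twoPt J β x : ℂ) *
          Complex.exp (Complex.I * ((∑ i, θ i * x i : ℝ) : ℂ))‖ ≤ C * euc θ ^ (-α)) :
    ∃ βc : ℝ, IsGLB (supercrit J) βc ∧ ∃ C : ℝ, ∃ f : (Fin d → ℝ) → ℂ,
      IntegrableOn f (cube d) ∧
      (∀ x : Fin d → ℤ, (twoPt J βc x : ℂ) = ((((2 * Real.pi) ^ d)⁻¹ : ℝ) : ℂ) *
        ∫ θ in cube d, f θ * Complex.exp (-(Complex.I * ((∑ i, θ i * x i : ℝ) : ℂ)))) ∧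
      ∀ θ ∈ cube d, θ ≠ 0 → ‖f θ‖ ≤ C * euc θ ^ (-α) := by
  have hbdd : BddBelow (supercrit J) := ⟨0, fun β hβ => hβ.1⟩
  set βc := sInf (supercrit J) with hβc
  have hβc0 : 0 ≤ βc := le_csInf hne fun β hβ => hβ.1
  have hpi : (((2 * Real.pi) ^ d : ℝ) : ℂ) ≠ 0 := by
    exact_mod_cast (pow_pos Real.two_pi_pos d).ne'
  refine ⟨βc, isGLB_csInf hne hbdd, ?_⟩
  rcases hβc0.eq_or_lt with h0 | h0
  · refine ⟨√(d * 16) ^ α, fun _ => 1, ?_, fun x => ?_, fun θ hθ hθ0 => ?_⟩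
    · exact continuous_const.continuousOn.integrableOn_compact (isCompact_cube d)
    · have h := integral_cube_exp (-x)
      have e1 : ∀ θ : Fin d → ℝ, Complex.exp (Complex.I * ((∑ i, θ i * (-x) i : ℝ) : ℂ))
          = 1 * Complex.exp (-(Complex.I * ((∑ i, θ i * x i : ℝ) : ℂ))) := by
        intro θ
        simp [Finset.sum_neg_distrib]
      simp only [e1] at h
      rw [h, ← h0, twoPt_zero hK.nonneg]
      by_cases hx : x = 0
      · rw [if_pos hx, if_pos (neg_eq_zero.mpr hx), Complex.ofReal_inv, inv_mul_cancel₀ hpi]; simp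
      · rw [if_neg hx, if_neg (mt neg_eq_zero.mp hx)]; simp
    · have hp := euc_pos hθ0
      rw [norm_one, Real.rpow_neg hp.le, ← div_eq_mul_inv, one_le_div (Real.rpow_pos_of_pos hp α)]
      exact Real.rpow_le_rpow hp.le (euc_le_of_mem_cube hθ) hα.le
  · obtain ⟨C, hC⟩ := hsub (βc / 2) βc (half_pos h0)
    have hseq : ∀ n : ℕ, ∃ β, βc - βc / 2 * (1 / ((n : ℝ) + 1)) ≤ β ∧ β < βc ∧ βc / 2 ≤ β ∧
        ∃ S : Finset (Fin d → ℤ), 0 ∈ S ∧ phi J β S < 1 := by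
      intro n
      have h1 : (0 : ℝ) < 1 / ((n : ℝ) + 1) := Nat.one_div_pos_of_nat
      have h2 : 1 / ((n : ℝ) + 1) ≤ 1 := by
        rw [div_le_one (by positivity)]; linarith [Nat.cast_nonneg (α := ℝ) n]
      set b₁ := βc - βc / 2 * (1 / ((n : ℝ) + 1)) with hb₁
      have h4 : βc / 2 ≤ b₁ := by nlinarith
      have h5 : b₁ < βc := by nlinarith
      obtain ⟨β, hβ, hS⟩ := dct hK (β₁ := b₁) (β₂ := (b₁ + βc) / 2) (by linarith) (by linarith)
        (notMem_of_lt_csInf (by linarith) hbdd)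
      exact ⟨β, hβ.1, by linarith [hβ.2], h4.trans hβ.1, hS⟩
    choose β hβ1 hβ2 hβ3 hβ4 using hseq
    have hβ0 : ∀ n, 0 ≤ β n := fun n => (half_pos h0).le.trans (hβ3 n)
    have hlim : Tendsto β atTop (𝓝[<] βc) := by
      refine tendsto_nhdsWithin_iff.mpr ⟨?_, Eventually.of_forall hβ2⟩
      refine tendsto_of_tendsto_of_tendsto_of_le_of_le ?_ tendsto_const_nhds hβ1
        fun n => (hβ2 n).le
      have := (tendsto_one_div_add_atTop_nhds_zero_nat (𝕜 := ℝ)).const_mul (βc / 2)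
      simpa using this.const_sub βc
    have hsum : ∀ n, Summable (twoPt J (β n)) := fun n => by
      obtain ⟨S, hS, hφ⟩ := hβ4 n
      exact summable_twoPt hK (hβ0 n) hS hφ
    have hd0 : 0 < d := by
      have : (0 : ℝ) < d := by linarith
      exact_mod_cast this
    have : Nonempty (Fin d) := ⟨⟨0, hd0⟩⟩
    obtain ⟨F, hF1, hF2, hF3⟩ := weak_limit (volume.restrict (cube d))
      (fun θ => |C| * euc θ ^ (-α)) ((measurable_euc.pow_const _).const_mul _)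
      (fun θ => mul_nonneg (abs_nonneg _) (Real.rpow_nonneg (Real.sqrt_nonneg _) _))
      ((integrableOn_euc hα hd).const_mul _)
      (fun n θ => ∑' x : Fin d → ℤ, (twoPt J (β n) x : ℂ) *
        Complex.exp (Complex.I * ((∑ i, θ i * x i : ℝ) : ℂ)))
      (fun n => (continuous_series (hsum n)).measurable)
      (fun n => by
        have h1 : ∀ᵐ θ ∂(volume.restrict (cube d)), θ ≠ (0 : Fin d → ℝ) :=
          ae_restrict_of_ae (by simp [ae_iff])
        filter_upwards [h1, ae_restrict_mem (measurableSet_cube d)] with θ h1 h2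
        exact (hC _ (hβ3 n) (hβ2 n).le (hβ4 n) θ h2 h1).trans (mul_le_mul_of_nonneg_right
          (le_abs_self C) (Real.rpow_nonneg (Real.sqrt_nonneg _) _)))
      (fun (x : Fin d → ℤ) θ => Complex.exp (-(Complex.I * ((∑ i, θ i * x i : ℝ) : ℂ))))
      (fun x => by fun_prop)
      (fun x θ => by
        rw [← mul_neg, ← Complex.ofReal_neg, mul_comm, Complex.norm_exp_ofReal_mul_I])
      (fun x => (((2 * Real.pi) ^ d : ℝ) : ℂ) * twoPt J βc x)
      (fun x => by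
        simp only [inversion (hsum _) x]
        exact (Complex.continuous_ofReal.tendsto _ |>.comp
          ((tendsto_twoPt_left hK.nonneg h0 x).comp hlim)).const_mul _)
    refine ⟨|C|, F, hF1, fun x => ?_, fun θ _ _ => hF2 θ⟩
    rw [hF3 x, ← mul_assoc, Complex.ofReal_inv, inv_mul_cancel₀ hpi, one_mul]

lemma wmain_norm_le {d : ℕ} (x : Zd d) : ‖x‖ ≤ euc fun k => (x k : ℝ) := by
  refine (norm_le_iff (Real.sqrt_nonneg _)).mpr fun k => ?_
  exact Real.abs_le_sqrt (Finset.single_le_sum (f := fun k => (x k : ℝ) ^ 2)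
    (fun _ _ => sq_nonneg _) (Finset.mem_univ k))

lemma wmain_euc_le {d : ℕ} (x : Zd d) : (euc fun k => (x k : ℝ)) ≤ √d * ‖x‖ := by
  rw [← Real.sqrt_sq (norm_nonneg x), ← Real.sqrt_mul (Nat.cast_nonneg d)]
  refine Real.sqrt_le_sqrt ?_
  calc ∑ k, (x k : ℝ) ^ 2 ≤ ∑ _k : Fin d, ‖x‖ ^ 2 := Finset.sum_le_sum fun k _ => by
        rw [← sq_abs]
        exact pow_le_pow_left₀ (abs_nonneg _) (abs_le_norm x k) 2
    _ = _ := by simp

lemma wmain_one_le {d : ℕ} {x : Zd d} (hx : x ≠ 0) : 1 ≤ ‖x‖ := by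
  obtain ⟨n, hn⟩ := exists_norm_eq_nat x
  have : (0 : ℝ) < n := hn ▸ norm_pos_iff.mpr hx
  rw [hn]
  exact_mod_cast this

lemma wmain_lower {d : ℕ} {α c : ℝ} (hα : 0 < α) (hc : 0 < c) {J : Sym2 (Fin d → ℤ) → ℝ}
    (hK : Kernel d α c J) {x y : Zd d} (hxy : x ≠ y) :
    c * √d ^ (-((d : ℝ) + α)) * kk (d + α) (y - x) ≤ J s(x, y) := by
  refine le_trans ?_ (hK.lower x y hxy)
  rw [mul_assoc, kk_sub_comm]
  refine mul_le_mul_of_nonneg_left ?_ hc.le
  unfold kk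
  rw [← Real.mul_rpow (Real.sqrt_nonneg _) (by positivity)]
  have h1 := wmain_norm_le (x - y)
  have h2 := wmain_euc_le (x - y)
  have h3 := wmain_one_le (sub_ne_zero.mpr hxy)
  refine Real.rpow_le_rpow_of_nonpos (lt_of_lt_of_le (by linarith) h1) (h2.trans ?_)
    (by have := Nat.cast_nonneg (α := ℝ) d; linarith)
  exact mul_le_mul_of_nonneg_left (by linarith) (Real.sqrt_nonneg _)

lemma wmain_half {s l : ℝ} (hs : 0 ≤ s) (hl : 1 ≤ l) : l ^ (-s) ≤ 2 ^ s * (1 + l) ^ (-s) := by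
  have h1 : (2 : ℝ) ^ s * (2 * l) ^ (-s) = l ^ (-s) := by
    rw [Real.mul_rpow (by norm_num) (by linarith), ← mul_assoc, ← Real.rpow_add (by norm_num)]
    simp
  rw [← h1]
  exact mul_le_mul_of_nonneg_left
    (Real.rpow_le_rpow_of_nonpos (by linarith) (by linarith) (by linarith)) (by positivity)

lemma wmain_upper {d : ℕ} {α c C : ℝ} (hα : 0 < α) {J : Sym2 (Fin d → ℤ) → ℝ}
    (hK : Kernel d α c J)
    (hup : ∀ x : Fin d → ℤ, x ≠ 0 →
      J s(0, x) ≤ C * euc (fun i => (x i : ℝ)) ^ (-((d : ℝ) + α))) (x y : Zd d) :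
    J s(x, y) ≤ (2 * |C| + J s(0, 0)) * 2 ^ ((d : ℝ) + α) * kk (d + α) (y - x) := by
  have hs : (0 : ℝ) ≤ d + α := by positivity
  have h0 := hK.nonneg s(0, 0)
  have hC := abs_nonneg C
  rw [hK.inv]
  by_cases hxy : y - x = 0
  · rw [hxy]
    have h1 : (1 : ℝ) ≤ 2 ^ ((d : ℝ) + α) := Real.one_le_rpow (by norm_num) hs
    have h2 : kk (d + α) (0 : Zd d) = 1 := by simp [kk]
    rw [h2]
    nlinarith
  · have h1 := wmain_one_le hxy
    have h2 : euc (fun i => ((y - x) i : ℝ)) ^ (-((d : ℝ) + α)) ≤ ‖y - x‖ ^ (-((d : ℝ) + α)) :=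
      Real.rpow_le_rpow_of_nonpos (by linarith) (wmain_norm_le _) (by linarith)
    have h3 := h2.trans (wmain_half hs h1)
    refine (hup _ hxy).trans ?_
    rw [mul_assoc]
    exact mul_le_mul (by linarith [le_abs_self C]) h3
      (Real.rpow_nonneg (Real.sqrt_nonneg _) _) (by linarith)

lemma wmain_bv {d : ℕ} {α c C : ℝ} (hd : 1 ≤ d) (hα : 0 < α) {J : Sym2 (Fin d → ℤ) → ℝ}
    (hK : Kernel d α c J)
    (hup : ∀ x : Fin d → ℤ, x ≠ 0 →
      J s(0, x) ≤ C * euc (fun i => (x i : ℝ)) ^ (-((d : ℝ) + α)))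
    (hbv : ∀ (i : Fin d) (l : ℝ) (T : Finset (Fin d → ℤ)), 1 ≤ l →
      (∀ x ∈ T, l ≤ euc fun k => (x k : ℝ)) →
      ∑ x ∈ T, |J s(0, x + Pi.single i 1) - J s(0, x)| ≤ C * l ^ (-(1 + α)))
    (i : Fin d) (l : ℝ) (T : Finset (Zd d)) (hl : 0 ≤ l) (hT : ∀ x ∈ T, l ≤ ‖x‖) :
    ∑ x ∈ T, |J s(0, x + sv i 1) - J s(0, x)|
      ≤ (2 * |C| + J s(0, 0)) * 2 ^ ((d : ℝ) + α) * (1 + l) ^ (-(1 + α)) := by
  have h0 := hK.nonneg s(0, 0)
  have hC := abs_nonneg C
  have hC' := le_abs_self C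
  have hsv : sv i 1 = Pi.single i 1 := by simp [sv]
  have hd' : (1 : ℝ) ≤ d := by exact_mod_cast hd
  have h2 : (2 : ℝ) ^ (1 + α) ≤ 2 ^ ((d : ℝ) + α) :=
    Real.rpow_le_rpow_of_exponent_le (by norm_num) (by linarith)
  have hp : 0 ≤ (1 + l) ^ (-(1 + α)) := by positivity
  rw [hsv, mul_assoc]
  rcases le_total 1 l with h1 | h1
  · refine (hbv i l T h1 fun x hx => (hT x hx).trans (wmain_norm_le x)).trans ?_
    exact mul_le_mul (by linarith) ((wmain_half (by linarith) h1).trans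
      (mul_le_mul_of_nonneg_right h2 hp)) (by positivity) (by linarith)
  · have a1 := hbv i 1 (T.erase 0) le_rfl fun x hx =>
      (wmain_one_le (Finset.ne_of_mem_erase hx)).trans (wmain_norm_le x)
    rw [Real.one_rpow, mul_one] at a1
    have a0 : (Pi.single i 1 : Zd d) ≠ 0 := by simp
    have a2 : J s(0, Pi.single i 1) ≤ |C| := by
      refine (hup _ a0).trans ?_
      have : euc (fun k => ((Pi.single i 1 : Zd d) k : ℝ)) ^ (-((d : ℝ) + α)) ≤ 1 :=
        Real.rpow_le_one_of_one_le_of_nonpos ((wmain_one_le a0).trans (wmain_norm_le _))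
          (by linarith)
      have h3 : 0 ≤ euc (fun k => ((Pi.single i 1 : Zd d) k : ℝ)) ^ (-((d : ℝ) + α)) :=
        Real.rpow_nonneg (Real.sqrt_nonneg _) _
      nlinarith
    have a3 : |J s(0, (0 : Zd d) + Pi.single i 1) - J s(0, 0)| ≤ |C| + J s(0, 0) := by
      rw [zero_add, abs_le]
      constructor <;> linarith [hK.nonneg s(0, Pi.single i 1)]
    have a4 : ∑ x ∈ T, |J s(0, x + Pi.single i 1) - J s(0, x)| ≤ 2 * |C| + J s(0, 0) := by
      refine (Finset.sum_le_sum_of_subset_of_nonneg (Finset.subset_insert_iff.mpr subset_rfl :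
        T ⊆ insert 0 (T.erase 0)) fun _ _ _ => abs_nonneg _).trans ?_
      rw [Finset.sum_insert (Finset.notMem_erase _ _)]
      linarith
    have a5 : (1 : ℝ) ≤ 2 ^ ((d : ℝ) + α) * (1 + l) ^ (-(1 + α)) := by
      have b1 := wmain_half (s := 1 + α) (by linarith) le_rfl
      rw [Real.one_rpow] at b1
      refine b1.trans (mul_le_mul h2 (Real.rpow_le_rpow_of_nonpos (by linarith) (by linarith)
        (by linarith)) (by positivity) (by positivity))
    exact a4.trans (le_mul_of_one_le_right (by linarith) a5)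

lemma wmain_edge {V : Type*} [DecidableEq V] {w : Sym2 V → ℝ} (hw : ∀ e, 0 ≤ w e) {U : Finset V}
    {x y : V} (hx : x ∈ U) (hy : y ∈ U) : pw w s(x, y) ≤ tau w U x y := by
  rw [← Ex_ind_mem (Finset.mk_mem_sym2_iff.mpr ⟨hx, hy⟩) (pw w)]
  exact Ex_mono (pw_nonneg hw) (pw_le_one w) fun ω _ =>
    ind_mono fun h => cl_step (self_mem_cl ω hx) hy h

lemma wmain_self {V : Type*} [DecidableEq V] (w : Sym2 V → ℝ) {U : Finset V}
    {x : V} (hx : x ∈ U) : tau w U x x = 1 := by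
  rw [← Ex_const U.sym2 (pw w) (1 : ℝ)]
  exact Ex_congr fun ω _ => ind_pos (self_mem_cl ω hx)

end Pool.Agent.Lib.MP_6fc7d9_pr
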