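import Pool.Agent.Lib.MP_6fc7d9_pr.WSum1

set_option linter.unusedSectionVars false

namespace Pool.Agent.Lib.MP_6fc7d9_pr
open Finset

/-- lateral sum: the kernel cut off at the level `t` -/
lemma wsum2_lateral (e : ℕ) {s : ℝ} (hs : (e : ℝ) < s) :
    ∃ C : ℝ, 0 < C ∧ ∀ (a : Zd e) (T : Finset (Zd e)) (t : ℕ),
      ∑ q ∈ T, (1 + max (t : ℝ) ‖q - a‖) ^ (-s) ≤ C * (1 + (t : ℝ)) ^ ((e : ℝ) - s) := by
  obtain ⟨C, hC, hT⟩ := sum_kk_tail e hs
  refine ⟨2 ^ e + C, by positivity, fun a T t => ?_⟩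
  have ht : (0 : ℝ) ≤ t := Nat.cast_nonneg t
  have h1t : (0 : ℝ) < 1 + t := by linarith
  rw [← Finset.sum_filter_add_sum_filter_not T (fun q => ‖q - a‖ ≤ t), add_mul]
  refine add_le_add ?_ ?_
  · have h1 : ∑ q ∈ T.filter (fun q => ‖q - a‖ ≤ t), (1 + max (t : ℝ) ‖q - a‖) ^ (-s)
        = ∑ _q ∈ T.filter (fun q => ‖q - a‖ ≤ t), (1 + (t : ℝ)) ^ (-s) := by
      refine Finset.sum_congr rfl fun q hq => ?_
      rw [max_eq_left (Finset.mem_filter.1 hq).2]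
    rw [h1, Finset.sum_const, nsmul_eq_mul]
    have hsub : T.filter (fun q => ‖q - a‖ ≤ t) ⊆ ball a t := fun q hq =>
      mem_ball.2 (Finset.mem_filter.1 hq).2
    have hc : ((T.filter (fun q => ‖q - a‖ ≤ t)).card : ℝ) ≤ 2 ^ e * (1 + (t : ℝ)) ^ e := by
      have h2 := Finset.card_le_card hsub
      rw [card_ball] at h2
      have h3 : ((T.filter (fun q => ‖q - a‖ ≤ t)).card : ℝ) ≤ (2 * (t : ℝ) + 1) ^ e := by
        exact_mod_cast h2
      refine h3.trans ?_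
      rw [← mul_pow]
      exact pow_le_pow_left₀ (by positivity) (by linarith) e
    have h4 : (1 + (t : ℝ)) ^ ((e : ℝ) - s) = (1 + (t : ℝ)) ^ e * (1 + (t : ℝ)) ^ (-s) := by
      rw [sub_eq_add_neg, Real.rpow_add h1t, Real.rpow_natCast]
    rw [h4, ← mul_assoc]
    exact mul_le_mul_of_nonneg_right hc (Real.rpow_nonneg h1t.le _)
  · have h1 : ∑ q ∈ T.filter (fun q => ¬ ‖q - a‖ ≤ t), (1 + max (t : ℝ) ‖q - a‖) ^ (-s)
        = ∑ q ∈ T.filter (fun q => ¬ ‖q - a‖ ≤ t), kk s (q - a) := by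
      refine Finset.sum_congr rfl fun q hq => ?_
      rw [max_eq_right (not_le.1 (Finset.mem_filter.1 hq).2).le, kk]
    rw [h1]
    exact hT a _ t ht fun q hq => (not_le.1 (Finset.mem_filter.1 hq).2).le

/-- convolution of two power kernels -/
lemma wsum2_conv (e : ℕ) {s₁ s₂ : ℝ} (h1 : 0 ≤ s₁) (h2 : 0 ≤ s₂) (h1e : s₁ < e) (h2e : s₂ < e)
    (h12 : (e : ℝ) < s₁ + s₂) :
    ∃ C : ℝ, 0 < C ∧ ∀ (a c : Zd e) (T : Finset (Zd e)),
      ∑ b ∈ T, kk s₁ (b - a) * kk s₂ (b - c) ≤ C * (1 + ‖a - c‖) ^ ((e : ℝ) - s₁ - s₂) := by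
  obtain ⟨C₁, hC₁, hB₁⟩ := sum_kk_ball e h1 h1e
  obtain ⟨C₂, hC₂, hB₂⟩ := sum_kk_ball e h2 h2e
  obtain ⟨C₃, hC₃, hT⟩ := sum_kk_tail e h12
  refine ⟨2 ^ s₁ * (C₂ * 2 ^ ((e : ℝ) - s₂)) + 2 ^ s₂ * (C₁ * 2 ^ ((e : ℝ) - s₁)) + 2 ^ s₂ * C₃,
    by positivity, fun a c T => ?_⟩
  obtain ⟨D, hD⟩ := exists_norm_eq_nat (a - c)
  rw [hD]
  have hD0 : (0 : ℝ) ≤ D := Nat.cast_nonneg D
  have h1D : (0 : ℝ) < 1 + D := by linarith
  have half : ∀ {s x : ℝ}, 0 ≤ s → 0 ≤ x → (1 + x / 2) ^ (-s) ≤ 2 ^ s * (1 + x) ^ (-s) := by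
    intro s x hs hx
    have h3 : (1 + x / 2) ^ (-s) ≤ ((1 + x) / 2) ^ (-s) :=
      Real.rpow_le_rpow_of_nonpos (by positivity) (by linarith) (by linarith)
    refine h3.trans (le_of_eq ?_)
    rw [Real.div_rpow (by positivity) (by norm_num), Real.rpow_neg (by norm_num : (0 : ℝ) ≤ 2),
      div_inv_eq_mul, mul_comm]
  have dbl : ∀ {s : ℝ}, 0 ≤ s → (1 + ((2 * D : ℕ) : ℝ)) ^ s ≤ 2 ^ s * (1 + (D : ℝ)) ^ s := by
    intro s hs
    rw [← Real.mul_rpow (by norm_num) h1D.le]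
    refine Real.rpow_le_rpow (by positivity) ?_ hs
    push_cast; linarith
  rw [← Finset.sum_filter_add_sum_filter_not T (fun b => ‖b - a‖ ≤ (2 * D : ℕ)), add_mul]
  refine add_le_add ?_ ?_
  · have hsub : T.filter (fun b => ‖b - a‖ ≤ (2 * D : ℕ)) ⊆ ball a (2 * D) := fun q hq =>
      mem_ball.2 (Finset.mem_filter.1 hq).2
    have hpt : ∀ b : Zd e, kk s₁ (b - a) * kk s₂ (b - c) ≤
        2 ^ s₁ * (1 + (D : ℝ)) ^ (-s₁) * kk s₂ (b - c)
          + 2 ^ s₂ * (1 + (D : ℝ)) ^ (-s₂) * kk s₁ (b - a) := by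
      intro b
      have hk1 := kk_pos s₁ (b - a)
      have hk2 := kk_pos s₂ (b - c)
      have hp1 : 0 ≤ 2 ^ s₁ * (1 + (D : ℝ)) ^ (-s₁) * kk s₂ (b - c) := by positivity
      have hp2 : 0 ≤ 2 ^ s₂ * (1 + (D : ℝ)) ^ (-s₂) * kk s₁ (b - a) := by positivity
      by_cases hb : (D : ℝ) / 2 ≤ ‖b - a‖
      · have h3 := (kk_le_of_le h1 (by positivity) hb).trans (half h1 hD0)
        have h4 := mul_le_mul_of_nonneg_right h3 hk2.le
        linarith
      · have h5 : ‖a - c‖ ≤ ‖b - a‖ + ‖b - c‖ := by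
          have : a - c = -(b - a) + (b - c) := by abel
          rw [this]
          exact (norm_add_le _ _).trans (by rw [norm_neg])
        have h6 : (D : ℝ) / 2 ≤ ‖b - c‖ := by
          rw [hD] at h5; push Not at hb; linarith
        have h3 := (kk_le_of_le h2 (by positivity) h6).trans (half h2 hD0)
        have h4 := mul_le_mul_of_nonneg_right h3 hk1.le
        rw [mul_comm] at h4
        linarith
    calc ∑ b ∈ T.filter (fun b => ‖b - a‖ ≤ (2 * D : ℕ)), kk s₁ (b - a) * kk s₂ (b - c)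
        ≤ ∑ b ∈ ball a (2 * D), kk s₁ (b - a) * kk s₂ (b - c) :=
          Finset.sum_le_sum_of_subset_of_nonneg hsub fun b _ _ =>
            (mul_pos (kk_pos _ _) (kk_pos _ _)).le
      _ ≤ ∑ b ∈ ball a (2 * D), (2 ^ s₁ * (1 + (D : ℝ)) ^ (-s₁) * kk s₂ (b - c)
          + 2 ^ s₂ * (1 + (D : ℝ)) ^ (-s₂) * kk s₁ (b - a)) := Finset.sum_le_sum fun b _ => hpt b
      _ = 2 ^ s₁ * (1 + (D : ℝ)) ^ (-s₁) * ∑ b ∈ ball a (2 * D), kk s₂ (b - c)
          + 2 ^ s₂ * (1 + (D : ℝ)) ^ (-s₂) * ∑ b ∈ ball a (2 * D), kk s₁ (b - a) := by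
          rw [Finset.sum_add_distrib, Finset.mul_sum, Finset.mul_sum]
      _ ≤ 2 ^ s₁ * (1 + (D : ℝ)) ^ (-s₁) * (C₂ * (2 ^ ((e : ℝ) - s₂) * (1 + (D : ℝ)) ^ ((e : ℝ) - s₂)))
          + 2 ^ s₂ * (1 + (D : ℝ)) ^ (-s₂)
            * (C₁ * (2 ^ ((e : ℝ) - s₁) * (1 + (D : ℝ)) ^ ((e : ℝ) - s₁))) := by
          refine add_le_add (mul_le_mul_of_nonneg_left ?_ (by positivity))
            (mul_le_mul_of_nonneg_left ?_ (by positivity))
          · exact (hB₂ c a (2 * D)).trans (mul_le_mul_of_nonneg_left (dbl (by linarith)) hC₂.le)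
          · exact (hB₁ a a (2 * D)).trans (mul_le_mul_of_nonneg_left (dbl (by linarith)) hC₁.le)
      _ = (2 ^ s₁ * (C₂ * 2 ^ ((e : ℝ) - s₂)) + 2 ^ s₂ * (C₁ * 2 ^ ((e : ℝ) - s₁)))
            * (1 + (D : ℝ)) ^ ((e : ℝ) - s₁ - s₂) := by
          have e1 : (1 + (D : ℝ)) ^ ((e : ℝ) - s₁ - s₂)
              = (1 + (D : ℝ)) ^ (-s₁) * (1 + (D : ℝ)) ^ ((e : ℝ) - s₂) := by
            rw [← Real.rpow_add h1D]; congr 1; ring
          have e2 : (1 + (D : ℝ)) ^ ((e : ℝ) - s₁ - s₂)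
              = (1 + (D : ℝ)) ^ (-s₂) * (1 + (D : ℝ)) ^ ((e : ℝ) - s₁) := by
            rw [← Real.rpow_add h1D]; congr 1; ring
          rw [add_mul]
          congr 1
          · rw [e1]; ring
          · rw [e2]; ring
  · have hfar : ∀ b ∈ T.filter (fun b => ¬ ‖b - a‖ ≤ (2 * D : ℕ)), (D : ℝ) ≤ ‖b - a‖ ∧
        kk s₁ (b - a) * kk s₂ (b - c) ≤ 2 ^ s₂ * kk (s₁ + s₂) (b - a) := by
      intro b hb
      have hb2 := not_le.1 (Finset.mem_filter.1 hb).2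
      push_cast at hb2
      refine ⟨by linarith, ?_⟩
      have h5 : ‖b - a‖ ≤ ‖b - c‖ + ‖a - c‖ := by
        have : b - a = (b - c) + -(a - c) := by abel
        rw [this]
        exact (norm_add_le _ _).trans (by rw [norm_neg])
      have h6 : ‖b - a‖ / 2 ≤ ‖b - c‖ := by rw [hD] at h5; linarith
      have h3 := (kk_le_of_le h2 (by positivity) h6).trans (half h2 (norm_nonneg _))
      have h4 := mul_le_mul_of_nonneg_left h3 (kk_pos s₁ (b - a)).le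
      refine h4.trans (le_of_eq ?_)
      have h7 : (0 : ℝ) < 1 + ‖b - a‖ := by positivity
      rw [kk, kk, neg_add, Real.rpow_add h7]; ring
    calc ∑ b ∈ T.filter (fun b => ¬ ‖b - a‖ ≤ (2 * D : ℕ)), kk s₁ (b - a) * kk s₂ (b - c)
        ≤ ∑ b ∈ T.filter (fun b => ¬ ‖b - a‖ ≤ (2 * D : ℕ)), 2 ^ s₂ * kk (s₁ + s₂) (b - a) :=
          Finset.sum_le_sum fun b hb => (hfar b hb).2
      _ = 2 ^ s₂ * ∑ b ∈ T.filter (fun b => ¬ ‖b - a‖ ≤ (2 * D : ℕ)), kk (s₁ + s₂) (b - a) := by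
          rw [Finset.mul_sum]
      _ ≤ 2 ^ s₂ * (C₃ * (1 + (D : ℝ)) ^ ((e : ℝ) - (s₁ + s₂))) :=
          mul_le_mul_of_nonneg_left (hT a _ D hD0 fun b hb => (hfar b hb).1) (by positivity)
      _ = 2 ^ s₂ * C₃ * (1 + (D : ℝ)) ^ ((e : ℝ) - s₁ - s₂) := by
          rw [mul_assoc, sub_sub]

lemma wsum2_norm_const (n : ℤ) : ‖(fun _ => n : Zd 1)‖ = |(n : ℝ)| := by
  rw [pi_norm_const, Int.norm_eq_abs]

lemma wsum2_norm_remove {e : ℕ} (k : Fin (e + 1)) (x : Zd (e + 1)) :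
    ‖(fun j => x (k.succAbove j) : Zd e)‖ ≤ ‖x‖ := by
  rw [norm_le_iff (norm_nonneg x)]
  intro j
  exact abs_le_norm x _

/-- the points of one hyperplane -/
lemma wsum2_plane (e : ℕ) {s : ℝ} (hs : (e : ℝ) < s) :
    ∃ C : ℝ, 0 < C ∧ ∀ (p : Zd (e + 1)) (k : Fin (e + 1)) (n : ℤ) (T : Finset (Zd (e + 1))),
      (∀ p' ∈ T, p' k = n) →
      ∑ p' ∈ T, kk s (p' - p) ≤ C * (1 + |((n - p k : ℤ) : ℝ)|) ^ ((e : ℝ) - s) := by
  obtain ⟨C, hC, hL⟩ := wsum2_lateral e hs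
  refine ⟨C, hC, fun p k n T hT => ?_⟩
  have hs0 : 0 ≤ s := le_trans (Nat.cast_nonneg e) hs.le
  set ρ : Zd (e + 1) → Zd e := fun x j => x (k.succAbove j) with hρ
  have habs : |((n - p k : ℤ) : ℝ)| = (((n - p k).natAbs : ℕ) : ℝ) := by
    rw [← Int.cast_abs, Int.abs_eq_natAbs, Int.cast_natCast]
  have hinj : Set.InjOn ρ T := by
    intro x hx y hy hxy
    funext j
    by_cases hj : j = k
    · rw [hj, hT x hx, hT y hy]
    · obtain ⟨i, rfl⟩ := Fin.exists_succAbove_eq hj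
      exact congrFun hxy i
  have h1 := hL (ρ p) (T.image ρ) (n - p k).natAbs
  rw [Finset.sum_image hinj] at h1
  rw [habs]
  refine le_trans (Finset.sum_le_sum fun x hx => ?_) h1
  refine kk_le_of_le hs0 (le_max_of_le_left (Nat.cast_nonneg _)) (max_le ?_ ?_)
  · rw [← habs, ← hT x hx]
    exact abs_le_norm (x - p) k
  · exact wsum2_norm_remove k (x - p)

/-- Lateral sum first: the points `p'` with `p' k - p k = t` contribute at most
`C (1+|t|)^(α-1)` (because `d - α > d - 1`; count the points of the hyperplane with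
`‖p' - p‖ = n ≥ |t|`, or bound by a product).  Then the one-dimensional sum
`∑_{n ≠ c} (1+|n - p k|)^(α-1) |n - c|^(-α') ≤ C |p k - c|^(α-α')`: with `D = |p k - c| ≥ 1`
split into `|n - c| ≤ D/2`, `|n - p k| ≤ D/2` or `|n - c| ≤ 2 D`, and `|n - c| > 2 D`. -/
theorem psi_bound (d : ℕ) {α α' : ℝ} (hα : 0 < α) (hα' : α < α') (h1 : α' < 1) :
    ∃ C : ℝ, 0 < C ∧ ∀ (p : Zd d) (k : Fin d) (c : ℤ) (T : Finset (Zd d)), p k ≠ c →
      (∀ p' ∈ T, p' k ≠ c) →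
      ∑ p' ∈ T, kk (d - α) (p' - p) * |((p' k - c : ℤ) : ℝ)| ^ (-α')
        ≤ C * |((p k - c : ℤ) : ℝ)| ^ (α - α') := by
  cases d with
  | zero => exact ⟨1, one_pos, fun p k => k.elim0⟩
  | succ e =>
    have hs : (e : ℝ) < ((e + 1 : ℕ) : ℝ) - α := by push_cast; linarith
    obtain ⟨C₁, hC₁, hP⟩ := wsum2_plane e hs
    obtain ⟨C₂, hC₂, hV⟩ := wsum2_conv 1 (s₁ := 1 - α) (s₂ := α') (by linarith) (by linarith)
      (by push_cast; linarith) (by push_cast; linarith) (by push_cast; linarith)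
    refine ⟨C₁ * 2 ^ α' * C₂, by positivity, fun p k c T hp hT => ?_⟩
    set φ : Zd (e + 1) → Zd 1 := fun x _ => x k with hφ
    rw [← Finset.sum_fiberwise_of_maps_to (g := φ) (t := T.image φ)
      (fun x hx => Finset.mem_image_of_mem φ hx)]
    have hstep : ∀ b ∈ T.image φ, ∑ p' ∈ T.filter (fun x => φ x = b),
        kk (((e + 1 : ℕ) : ℝ) - α) (p' - p) * |((p' k - c : ℤ) : ℝ)| ^ (-α')
        ≤ C₁ * 2 ^ α' * (kk (1 - α) (b - φ p) * kk α' (b - fun _ => c)) := by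
      intro b hb
      obtain ⟨y, hy, rfl⟩ := Finset.mem_image.1 hb
      have hfib : ∀ x ∈ T.filter (fun x => φ x = φ y), x k = y k := fun x hx =>
        congrFun (Finset.mem_filter.1 hx).2 0
      have h2 : ∑ p' ∈ T.filter (fun x => φ x = φ y),
          kk (((e + 1 : ℕ) : ℝ) - α) (p' - p) * |((p' k - c : ℤ) : ℝ)| ^ (-α')
          = (∑ p' ∈ T.filter (fun x => φ x = φ y), kk (((e + 1 : ℕ) : ℝ) - α) (p' - p))
            * |((y k - c : ℤ) : ℝ)| ^ (-α') := by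
        rw [Finset.sum_mul]
        refine Finset.sum_congr rfl fun x hx => ?_
        rw [hfib x hx]
      have h3 := hP p k (y k) _ hfib
      have h4 : (1 + |((y k - p k : ℤ) : ℝ)|) ^ ((e : ℝ) - (((e + 1 : ℕ) : ℝ) - α))
          = kk (1 - α) (φ y - φ p) := by
        have : φ y - φ p = fun _ => y k - p k := rfl
        rw [this, kk, wsum2_norm_const]
        congr 1
        push_cast; ring
      have h5 : (1 : ℝ) ≤ |((y k - c : ℤ) : ℝ)| := by
        have := Int.one_le_abs (sub_ne_zero.2 (hT y hy))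
        exact_mod_cast this
      have h6 : |((y k - c : ℤ) : ℝ)| ^ (-α') ≤ 2 ^ α' * kk α' (φ y - fun _ => c) := by
        have : (φ y - fun _ => c) = fun _ => y k - c := rfl
        rw [this, kk, wsum2_norm_const]
        have h7 : |((y k - c : ℤ) : ℝ)| ^ (-α') ≤ ((1 + |((y k - c : ℤ) : ℝ)|) / 2) ^ (-α') :=
          Real.rpow_le_rpow_of_nonpos (by positivity) (by linarith) (by linarith)
        refine h7.trans (le_of_eq ?_)
        rw [Real.div_rpow (by positivity) (by norm_num),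
          Real.rpow_neg (by norm_num : (0 : ℝ) ≤ 2), div_inv_eq_mul, mul_comm]
      rw [h2]
      rw [h4] at h3
      refine (mul_le_mul h3 h6 (by positivity) (mul_pos hC₁ (kk_pos _ _)).le).trans (le_of_eq ?_)
      ring
    refine (Finset.sum_le_sum hstep).trans ?_
    rw [← Finset.mul_sum, mul_assoc (C₁ * 2 ^ α')]
    refine mul_le_mul_of_nonneg_left ((hV (φ p) (fun _ => c) _).trans ?_) (by positivity)
    refine mul_le_mul_of_nonneg_left ?_ hC₂.le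
    have h8 : (φ p - fun _ => c) = fun _ => p k - c := rfl
    rw [h8, wsum2_norm_const]
    have h5 : (1 : ℝ) ≤ |((p k - c : ℤ) : ℝ)| := by
      have := Int.one_le_abs (sub_ne_zero.2 hp)
      exact_mod_cast this
    have h9 : ((1 : ℕ) : ℝ) - (1 - α) - α' = α - α' := by push_cast; ring
    rw [h9]
    exact Real.rpow_le_rpow_of_nonpos (by linarith) (by linarith) (by linarith)

/-- near part: `kk (d+α) * ‖·‖^γ ≤ kk (d+α-γ)` and `sum_kk_ball` (for `d ≥ 1`; if `d = 0` every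
term vanishes); far part: `h^γ` times `sum_kk_tail`. -/
theorem sum_kk_min (d : ℕ) {α γ : ℝ} (hα : 0 < α) (hγ : α < γ) (h1 : γ ≤ 1) :
    ∃ C : ℝ, 0 < C ∧ ∀ (a : Zd d) (T : Finset (Zd d)) (h : ℝ), 1 ≤ h →
      ∑ p ∈ T, kk (d + α) (p - a) * (min ‖p - a‖ h) ^ γ ≤ C * h ^ (γ - α) := by
  have hγ0 : 0 < γ := hα.trans hγ
  rcases Nat.eq_zero_or_pos d with rfl | hd
  · refine ⟨1, one_pos, fun a T h hh => ?_⟩
    have : ∀ p ∈ T, kk (((0 : ℕ) : ℝ) + α) (p - a) * (min ‖p - a‖ h) ^ γ = 0 := by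
      intro p _
      have h0 : p - a = 0 := Subsingleton.elim _ _
      rw [h0, norm_zero, min_eq_left (by linarith), Real.zero_rpow hγ0.ne', mul_zero]
    rw [Finset.sum_eq_zero this]
    positivity
  have hd1 : (1 : ℝ) ≤ d := by exact_mod_cast hd
  obtain ⟨C₁, hC₁, hB⟩ := sum_kk_ball d (s := d + α - γ) (by linarith) (by linarith)
  obtain ⟨C₂, hC₂, hT⟩ := sum_kk_tail d (s := d + α) (by linarith)
  refine ⟨C₁ * 2 ^ (γ - α) + C₂, by positivity, fun a T h hh => ?_⟩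
  have hh0 : 0 < h := by linarith
  rw [← Finset.sum_filter_add_sum_filter_not T (fun p => ‖p - a‖ ≤ h), add_mul]
  refine add_le_add ?_ ?_
  · have hsub : T.filter (fun p => ‖p - a‖ ≤ h) ⊆ ball a ⌊h⌋₊ := by
      intro p hp
      obtain ⟨n, hn⟩ := exists_norm_eq_nat (p - a)
      have h2 := (Finset.mem_filter.1 hp).2
      rw [mem_ball, hn]
      rw [hn] at h2
      exact_mod_cast Nat.le_floor h2
    have hpt : ∀ p : Zd d, kk (d + α) (p - a) * (min ‖p - a‖ h) ^ γ ≤ kk (d + α - γ) (p - a) := by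
      intro p
      have h7 : (0 : ℝ) < 1 + ‖p - a‖ := by positivity
      have h3 : (min ‖p - a‖ h) ^ γ ≤ (1 + ‖p - a‖) ^ γ :=
        Real.rpow_le_rpow (le_min (norm_nonneg _) hh0.le)
          ((min_le_left _ _).trans (by linarith)) hγ0.le
      refine (mul_le_mul_of_nonneg_left h3 (kk_pos _ _).le).trans (le_of_eq ?_)
      rw [kk, kk, ← Real.rpow_add h7]
      congr 1; ring
    calc ∑ p ∈ T.filter (fun p => ‖p - a‖ ≤ h), kk (d + α) (p - a) * (min ‖p - a‖ h) ^ γ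
        ≤ ∑ p ∈ T.filter (fun p => ‖p - a‖ ≤ h), kk (d + α - γ) (p - a) :=
          Finset.sum_le_sum fun p _ => hpt p
      _ ≤ ∑ p ∈ ball a ⌊h⌋₊, kk (d + α - γ) (p - a) :=
          Finset.sum_le_sum_of_subset_of_nonneg hsub fun b _ _ => (kk_pos _ _).le
      _ ≤ C₁ * (1 + (⌊h⌋₊ : ℝ)) ^ ((d : ℝ) - (d + α - γ)) := hB a a _
      _ ≤ C₁ * 2 ^ (γ - α) * h ^ (γ - α) := by
          rw [mul_assoc, ← Real.mul_rpow (by norm_num) hh0.le]
          refine mul_le_mul_of_nonneg_left ?_ hC₁.le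
          have h4 : (d : ℝ) - (d + α - γ) = γ - α := by ring
          rw [h4]
          have h5 := Nat.floor_le hh0.le
          exact Real.rpow_le_rpow (by positivity) (by linarith) (by linarith)
  · have hfar : ∀ p ∈ T.filter (fun p => ¬ ‖p - a‖ ≤ h), h ≤ ‖p - a‖ := fun p hp =>
      (not_le.1 (Finset.mem_filter.1 hp).2).le
    calc ∑ p ∈ T.filter (fun p => ¬ ‖p - a‖ ≤ h), kk (d + α) (p - a) * (min ‖p - a‖ h) ^ γ
        = (∑ p ∈ T.filter (fun p => ¬ ‖p - a‖ ≤ h), kk (d + α) (p - a)) * h ^ γ := by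
          rw [Finset.sum_mul]
          refine Finset.sum_congr rfl fun p hp => ?_
          rw [min_eq_right (hfar p hp)]
      _ ≤ (C₂ * (1 + h) ^ ((d : ℝ) - (d + α))) * h ^ γ :=
          mul_le_mul_of_nonneg_right (hT a _ h hh0.le hfar) (by positivity)
      _ ≤ (C₂ * h ^ (-α)) * h ^ γ := by
          refine mul_le_mul_of_nonneg_right (mul_le_mul_of_nonneg_left ?_ hC₂.le) (by positivity)
          have h4 : (d : ℝ) - (d + α) = -α := by ring
          rw [h4]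
          exact Real.rpow_le_rpow_of_nonpos hh0 (by linarith) (by linarith)
      _ = C₂ * h ^ (γ - α) := by
          rw [mul_assoc, ← Real.rpow_add hh0]
          congr 2; ring

end Pool.Agent.Lib.MP_6fc7d9_pr
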