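import Pool.Agent.Lib.MP_6fc7d9_pr.WSpr
import Pool.Agent.Lib.MP_6fc7d9_pr.WSum2

set_option linter.unusedSectionVars false

namespace Pool.Agent.Lib.MP_6fc7d9_pr
open Finset

/-- number of radii in `[r, 2r)` separating `u` from `v` -/
noncomputable def wptCnt {d : ℕ} (x : Zd d) (r : ℕ) (u v : Zd d) : ℝ :=
  (((Finset.Ico r (2 * r)).filter fun s => u ∈ ball x s ∧ v ∉ ball x s).card : ℝ)

lemma wpt_cnt_nonneg {d : ℕ} (x : Zd d) (r : ℕ) (u v : Zd d) : 0 ≤ wptCnt x r u v :=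
  Nat.cast_nonneg _

lemma wpt_cnt_le {d : ℕ} (x : Zd d) (r : ℕ) (u v : Zd d) : wptCnt x r u v ≤ r := by
  unfold wptCnt
  have := Finset.card_filter_le (Finset.Ico r (2 * r)) fun s => u ∈ ball x s ∧ v ∉ ball x s
  rw [Nat.card_Ico] at this
  exact_mod_cast this.trans (by omega)

lemma wpt_cnt_le_norm {d : ℕ} (x : Zd d) (r : ℕ) (u v : Zd d) : wptCnt x r u v ≤ ‖u - v‖ := by
  obtain ⟨a, ha⟩ := exists_norm_eq_nat (u - x)
  obtain ⟨b, hb⟩ := exists_norm_eq_nat (v - x)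
  obtain ⟨c, hc⟩ := exists_norm_eq_nat (u - v)
  have htri : ‖v - x‖ ≤ ‖u - v‖ + ‖u - x‖ := by
    have := norm_sub_le_norm_sub_add_norm_sub v u x
    rwa [norm_sub_rev v u] at this
  rw [ha, hb, hc] at htri
  have htri' : b ≤ c + a := by exact_mod_cast htri
  have hsub : ((Finset.Ico r (2 * r)).filter fun s => u ∈ ball x s ∧ v ∉ ball x s)
      ⊆ Finset.Ico a b := by
    intro s hs
    obtain ⟨-, h1, h2⟩ := Finset.mem_filter.mp hs
    rw [mem_ball, ha] at h1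
    rw [mem_ball, hb, not_le] at h2
    exact Finset.mem_Ico.mpr ⟨by exact_mod_cast h1, by exact_mod_cast h2⟩
  have := Finset.card_le_card hsub
  rw [Nat.card_Ico] at this
  unfold wptCnt
  rw [hc]
  exact_mod_cast this.trans (by omega)

lemma wpt_cnt_zero {d : ℕ} (x : Zd d) (r : ℕ) (u : Zd d) {v : Zd d} (hv : ‖v - x‖ ≤ r) :
    wptCnt x r u v = 0 := by
  unfold wptCnt
  rw [Nat.cast_eq_zero, Finset.card_eq_zero, Finset.filter_eq_empty_iff]
  intro s hs h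
  apply h.2
  rw [mem_ball]
  have : (r : ℝ) ≤ s := by exact_mod_cast (Finset.mem_Ico.mp hs).1
  linarith

lemma wpt_avg {d : ℕ} {w : Sym2 (Zd d) → ℝ} (hw : ∀ e, 0 ≤ w e) (U : Finset (Zd d)) (x y : Zd d)
    (r : ℕ) (hr : 2 * (r : ℝ) ≤ ‖y - x‖) :
    r * tau w U x y ≤ ∑ u ∈ ball x (2 * r), ∑ v ∈ U,
      wptCnt x r u v * (tau w U x u * w s(u, v) * tau w U v y) := by
  have hg : ∀ u v, 0 ≤ tau w U x u * w s(u, v) * tau w U v y := fun u v =>
    mul_nonneg (mul_nonneg (tau_nonneg hw _ _ _) (hw _)) (tau_nonneg hw _ _ _)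
  have h1 : ∀ s ∈ Finset.Ico r (2 * r), tau w U x y ≤ ∑ u ∈ ball x (2 * r), ∑ v ∈ U,
      if u ∈ ball x s ∧ v ∉ ball x s then tau w U x u * w s(u, v) * tau w U v y else 0 := by
    intro s hs
    have hs2 : (s : ℝ) < 2 * r := by exact_mod_cast (Finset.mem_Ico.mp hs).2
    have hx : x ∈ ball x s := by rw [mem_ball]; simp
    have hy : y ∉ ball x s := by rw [mem_ball]; linarith
    refine le_trans (sl_tau hw (ball x s) U hx hy) ?_
    have hsub : ball x s ⊆ ball x (2 * r) := fun u hu => by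
      rw [mem_ball] at hu ⊢
      push_cast
      linarith
    refine le_trans (le_of_eq ?_) (Finset.sum_le_sum_of_subset_of_nonneg hsub
      fun u _ _ => Finset.sum_nonneg fun v _ => by split_ifs; exacts [hg u v, le_rfl])
    refine Finset.sum_congr rfl fun u hu => ?_
    rw [← Finset.sum_filter]
    refine Finset.sum_congr ?_ fun _ _ => rfl
    ext v
    simp [hu]
  have h2 := Finset.sum_le_sum h1
  rw [Finset.sum_const, Nat.card_Ico, nsmul_eq_mul, show 2 * r - r = r by omega,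
    Finset.sum_comm] at h2
  refine h2.trans (le_of_eq (Finset.sum_congr rfl fun u _ => ?_))
  rw [Finset.sum_comm]
  refine Finset.sum_congr rfl fun v _ => ?_
  rw [← Finset.sum_filter, Finset.sum_const, nsmul_eq_mul]
  rfl

lemma wpt_kk_le {d : ℕ} {s r : ℝ} (hs : 0 ≤ s) (hr : 0 < r) {x : Zd d} (h : r ≤ ‖x‖) :
    kk s x ≤ r ^ (-s) :=
  Real.rpow_le_rpow_of_nonpos hr (by linarith) (by linarith)

lemma wpt_rpow_le {α c r : ℝ} (h1 : α ≤ 1) (hc : 1 ≤ c) (hr : 0 ≤ r) :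
    (c * r) ^ α ≤ c * r ^ α := by
  rw [Real.mul_rpow (by linarith) hr]
  refine mul_le_mul_of_nonneg_right ?_ (Real.rpow_nonneg hr _)
  calc c ^ α ≤ c ^ (1 : ℝ) := Real.rpow_le_rpow_of_exponent_le hc h1
    _ = c := Real.rpow_one c

/-- pointwise split of one term -/
lemma wpt_term {d : ℕ} {α C₁ F : ℝ} (hα : 0 < α) (hαd : α ≤ d) (hC₁ : 0 ≤ C₁) (hF : 0 ≤ F)
    {w : Sym2 (Zd d) → ℝ} (hw : ∀ e, 0 ≤ w e)
    (hup : ∀ x y, w s(x, y) ≤ C₁ * kk (d + α) (y - x)) (U : Finset (Zd d))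
    (hFb : ∀ x y, tau w U x y ≤ F * kk (d - α) (y - x)) (x y : Zd d) {A r : ℕ} (hA : 7 ≤ A)
    (hr : 1 ≤ r) (hn : ‖y - x‖ ≤ 8 * r) {u : Zd d} (hu : u ∈ ball x (2 * r)) (v : Zd d) :
    wptCnt x r u v * (tau w U x u * w s(u, v) * tau w U v y)
      ≤ (if v ∈ ball y (11 * r) then tau w U y v * (F * ((r : ℝ) / 2) ^ (-((d : ℝ) - α)) * C₁ *
            (kk (d + α) (u - v) * (min ‖u - v‖ ((r : ℝ) / A)) ^ (1 : ℝ))) else 0)
        + (if v ∈ ball y ((A + 10) * r) then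
            tau w U x u * (tau w U y v * (C₁ * ((r : ℝ) / A) ^ (-((d : ℝ) + α)) * r)) else 0)
        + (if (A : ℝ) * r ≤ ‖v - u‖ then
            tau w U x u * (kk (d + α) (v - u) * (C₁ * r * (F * (r : ℝ) ^ (-((d : ℝ) - α)))))
          else 0) := by
  have hr0 : (0 : ℝ) < r := by exact_mod_cast hr
  have hA7 : (7 : ℝ) ≤ A := by exact_mod_cast hA
  have hA0 : (0 : ℝ) < A := by linarith
  have hh0 : (0 : ℝ) < r / A := div_pos hr0 hA0
  have hh2 : (r : ℝ) / A ≤ r / 2 := div_le_div_of_nonneg_left hr0.le (by norm_num) (by linarith)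
  have t1 := tau_nonneg hw U x u
  have t2 := tau_nonneg hw U y v
  have k1 := (kk_pos (d + α) (u - v)).le
  have k2 := (kk_pos (d + α) (v - u)).le
  have hmin : 0 ≤ min ‖u - v‖ ((r : ℝ) / A) := le_min (norm_nonneg _) hh0.le
  have n1 : 0 ≤ (if v ∈ ball y (11 * r) then tau w U y v * (F * ((r : ℝ) / 2) ^ (-((d : ℝ) - α)) * C₁ *
            (kk (d + α) (u - v) * (min ‖u - v‖ ((r : ℝ) / A)) ^ (1 : ℝ))) else 0) := by
    split_ifs
    · positivity
    · exact le_rfl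
  have n2 : 0 ≤ (if v ∈ ball y ((A + 10) * r) then
            tau w U x u * (tau w U y v * (C₁ * ((r : ℝ) / A) ^ (-((d : ℝ) + α)) * r)) else 0) := by
    split_ifs
    · positivity
    · exact le_rfl
  have n3 : 0 ≤ (if (A : ℝ) * r ≤ ‖v - u‖ then
            tau w U x u * (kk (d + α) (v - u) * (C₁ * r * (F * (r : ℝ) ^ (-((d : ℝ) - α)))))
          else 0) := by
    split_ifs
    · positivity
    · exact le_rfl
  rw [mem_ball] at hu
  push_cast at hu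
  have hc0 := wpt_cnt_nonneg x r u v
  have hw0 := hw s(u, v)
  have tri1 : ‖v - x‖ ≤ ‖u - v‖ + ‖u - x‖ := by
    have := norm_sub_le_norm_sub_add_norm_sub v u x
    rwa [norm_sub_rev v u] at this
  have tri2 : ‖v - y‖ ≤ ‖v - x‖ + ‖y - x‖ := by
    have := norm_sub_le_norm_sub_add_norm_sub v x y
    rwa [norm_sub_rev x y] at this
  have tri3 : ‖v - x‖ ≤ ‖y - v‖ + ‖y - x‖ := by
    have := norm_sub_le_norm_sub_add_norm_sub v y x
    rwa [norm_sub_rev v y] at this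
  rw [tau_symm w U v y]
  by_cases hvx : ‖v - x‖ ≤ r
  · rw [wpt_cnt_zero x r u hvx, zero_mul]
    linarith
  rw [not_le] at hvx
  by_cases huv : ‖u - v‖ ≤ (r : ℝ) / A
  · have hv : v ∈ ball y (11 * r) := by
      rw [mem_ball]; push_cast; linarith
    have e1 : tau w U x u ≤ F * ((r : ℝ) / 2) ^ (-((d : ℝ) - α)) :=
      (hFb x u).trans (mul_le_mul_of_nonneg_left
        (wpt_kk_le (by linarith) (by positivity) (by linarith)) hF)
    have e2 : w s(u, v) ≤ C₁ * kk (d + α) (u - v) := by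
      rw [kk_sub_comm]; exact hup u v
    have e3 : wptCnt x r u v ≤ (min ‖u - v‖ ((r : ℝ) / A)) ^ (1 : ℝ) := by
      rw [Real.rpow_one, min_eq_left huv]; exact wpt_cnt_le_norm x r u v
    rw [if_pos hv]
    refine le_trans ?_ (le_add_of_le_of_nonneg (le_add_of_nonneg_right n2) n3)
    calc wptCnt x r u v * (tau w U x u * w s(u, v) * tau w U y v)
        ≤ (min ‖u - v‖ ((r : ℝ) / A)) ^ (1 : ℝ) *
            (F * ((r : ℝ) / 2) ^ (-((d : ℝ) - α)) * (C₁ * kk (d + α) (u - v)) * tau w U y v) := by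
          refine mul_le_mul e3 (mul_le_mul_of_nonneg_right
            (mul_le_mul e1 e2 hw0 (by positivity)) t2) (by positivity) (by positivity)
      _ = _ := by ring
  rw [not_le] at huv
  by_cases hv2 : ‖v - x‖ ≤ (A + 2) * r
  · have hv : v ∈ ball y ((A + 10) * r) := by
      rw [mem_ball]; push_cast; linarith
    have e2 : w s(u, v) ≤ C₁ * ((r : ℝ) / A) ^ (-((d : ℝ) + α)) := by
      refine (hup u v).trans (mul_le_mul_of_nonneg_left ?_ hC₁)
      rw [kk_sub_comm]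
      exact wpt_kk_le (by positivity) hh0 huv.le
    rw [if_pos hv]
    refine le_trans ?_ (le_add_of_le_of_nonneg (le_add_of_nonneg_left n1) n3)
    calc wptCnt x r u v * (tau w U x u * w s(u, v) * tau w U y v)
        ≤ r * (tau w U x u * (C₁ * ((r : ℝ) / A) ^ (-((d : ℝ) + α))) * tau w U y v) := by
          refine mul_le_mul (wpt_cnt_le x r u v) (mul_le_mul_of_nonneg_right
            (mul_le_mul_of_nonneg_left e2 t1) t2) (by positivity) (by positivity)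
      _ = _ := by ring
  rw [not_le] at hv2
  have hv : (A : ℝ) * r ≤ ‖v - u‖ := by rw [norm_sub_rev]; linarith
  have e1 : tau w U y v ≤ F * (r : ℝ) ^ (-((d : ℝ) - α)) := by
    refine (hFb y v).trans (mul_le_mul_of_nonneg_left ?_ hF)
    rw [kk_sub_comm]
    exact wpt_kk_le (by linarith) hr0 (by nlinarith)
  rw [if_pos hv]
  refine le_trans ?_ (le_add_of_nonneg_left (add_nonneg n1 n2))
  calc wptCnt x r u v * (tau w U x u * w s(u, v) * tau w U y v)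
      ≤ r * (tau w U x u * (C₁ * kk (d + α) (v - u)) * (F * (r : ℝ) ^ (-((d : ℝ) - α)))) := by
        refine mul_le_mul (wpt_cnt_le x r u v) (mul_le_mul
          (mul_le_mul_of_nonneg_left (hup u v) t1) e1 t2 (by positivity)) (by positivity)
          (by positivity)
    _ = _ := by ring

lemma wpt_sum_ite {d : ℕ} (U B : Finset (Zd d)) {f : Zd d → ℝ} (hf : ∀ v, 0 ≤ f v) :
    ∑ v ∈ U, (if v ∈ B then f v else 0) ≤ ∑ v ∈ B, f v := by
  rw [← Finset.sum_filter]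
  exact Finset.sum_le_sum_of_subset_of_nonneg (fun v hv => (Finset.mem_filter.mp hv).2)
    fun v _ _ => hf v

/-- one step of the bootstrap -/
lemma wpt_step (d : ℕ) (hd : 1 ≤ d) {α : ℝ} (hα : 0 < α) (h1 : α < 1) {C₀ C₁ : ℝ}
    (hC₀ : 0 ≤ C₀) (hC₁ : 0 ≤ C₁) :
    ∃ B : ℝ, 0 ≤ B ∧ ∀ A : ℕ, 7 ≤ A → ∃ CA : ℝ, 0 ≤ CA ∧ ∀ w : Sym2 (Zd d) → ℝ, (∀ e, 0 ≤ w e) →
      (∀ x y, w s(x, y) ≤ C₁ * kk (d + α) (y - x)) → ∀ (U : Finset (Zd d)),
      (∀ (x : Zd d) (t : ℕ), ∑ y ∈ ball x t, tau w U x y ≤ C₀ * (1 + (t : ℝ)) ^ α) →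
      ∀ F : ℝ, 0 ≤ F → (∀ x y, tau w U x y ≤ F * kk (d - α) (y - x)) →
      ∀ (x y : Zd d) (r : ℕ), A ≤ r → 2 * (r : ℝ) ≤ ‖y - x‖ → ‖y - x‖ ≤ 8 * r →
        tau w U x y ≤ (B * ((A : ℝ) ^ (α - 1) + (A : ℝ) ^ (-α)) * F + CA)
          * (r : ℝ) ^ (-((d : ℝ) - α)) := by
  have hd1 : (1 : ℝ) ≤ d := by exact_mod_cast hd
  obtain ⟨Cm, hCm, hm⟩ := sum_kk_min d hα h1 le_rfl
  obtain ⟨Ct, hCt, ht⟩ := sum_kk_tail d (s := d + α) (by linarith)
  refine ⟨12 * C₀ * C₁ * Cm * (2 : ℝ) ^ ((d : ℝ) - α) + 3 * C₀ * C₁ * Ct, by positivity,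
    fun A hA => ⟨3 * C₀ * ((A + 11) * C₀) * C₁ * (A : ℝ) ^ ((d : ℝ) + α), by positivity, ?_⟩⟩
  intro w hw hup U hav F hF hFb x y r hAr hn1 hn2
  have hr : 1 ≤ r := by omega
  have hr1 : (1 : ℝ) ≤ r := by exact_mod_cast hr
  have hr0 : (0 : ℝ) < r := by linarith
  have hA7 : (7 : ℝ) ≤ A := by exact_mod_cast hA
  have hA0 : (0 : ℝ) < A := by linarith
  have hh1 : (1 : ℝ) ≤ r / A := by
    rw [le_div_iff₀ hA0, one_mul]; exact_mod_cast hAr
  have hrα : 0 < (r : ℝ) ^ α := Real.rpow_pos_of_pos hr0 _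
  have hav' : ∀ (z : Zd d) (c : ℕ), ∑ v ∈ ball z (c * r), tau w U z v
      ≤ C₀ * ((c + 1) * (r : ℝ) ^ α) := by
    intro z c
    refine (hav z (c * r)).trans (mul_le_mul_of_nonneg_left ?_ hC₀)
    have hc : (0 : ℝ) ≤ c := Nat.cast_nonneg c
    refine le_trans (Real.rpow_le_rpow (by positivity) ?_ hα.le)
      (wpt_rpow_le h1.le (by linarith) hr0.le)
    push_cast
    linarith
  set P : ℝ := (r : ℝ) ^ (-((d : ℝ) - α)) with hP
  have hP0 : 0 < P := Real.rpow_pos_of_pos hr0 _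
  have s1 : ∑ u ∈ ball x (2 * r), ∑ v ∈ U,
      (if v ∈ ball y (11 * r) then tau w U y v * (F * ((r : ℝ) / 2) ^ (-((d : ℝ) - α)) * C₁ *
            (kk (d + α) (u - v) * (min ‖u - v‖ ((r : ℝ) / A)) ^ (1 : ℝ))) else 0)
      ≤ r * (12 * C₀ * C₁ * Cm * (2 : ℝ) ^ ((d : ℝ) - α) * (A : ℝ) ^ (α - 1) * F * P) := by
    rw [Finset.sum_comm]
    have e1 : ∀ v ∈ U, ∑ u ∈ ball x (2 * r),
        (if v ∈ ball y (11 * r) then tau w U y v * (F * ((r : ℝ) / 2) ^ (-((d : ℝ) - α)) * C₁ *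
            (kk (d + α) (u - v) * (min ‖u - v‖ ((r : ℝ) / A)) ^ (1 : ℝ))) else 0)
        ≤ if v ∈ ball y (11 * r) then tau w U y v * (F * ((r : ℝ) / 2) ^ (-((d : ℝ) - α)) * C₁ *
            (Cm * ((r : ℝ) / A) ^ (1 - α))) else 0 := by
      intro v _
      split_ifs
      · rw [← Finset.mul_sum, ← Finset.mul_sum]
        exact mul_le_mul_of_nonneg_left (mul_le_mul_of_nonneg_left (hm v _ _ hh1)
          (by positivity)) (tau_nonneg hw _ _ _)
      · simp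
    refine (Finset.sum_le_sum e1).trans ((wpt_sum_ite U _ fun v =>
      mul_nonneg (tau_nonneg hw _ _ _) (by positivity)).trans ?_)
    rw [← Finset.sum_mul]
    refine (mul_le_mul_of_nonneg_right (hav' y 11) (by positivity)).trans (le_of_eq ?_)
    have a1 : ((r : ℝ) / 2) ^ (-((d : ℝ) - α)) = (2 : ℝ) ^ ((d : ℝ) - α) * P := by
      rw [hP, Real.div_rpow hr0.le (by norm_num), Real.rpow_neg (by norm_num : (0 : ℝ) ≤ 2),
        div_inv_eq_mul, mul_comm]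
    have a2 : ((r : ℝ) / A) ^ (1 - α) = r / (r : ℝ) ^ α * (A : ℝ) ^ (α - 1) := by
      rw [Real.div_rpow hr0.le hA0.le, Real.rpow_sub hr0, Real.rpow_one,
        show α - 1 = -(1 - α) by ring, Real.rpow_neg hA0.le, div_eq_mul_inv]
    rw [a1, a2]
    push_cast
    field_simp
    ring
  have s2 : ∑ u ∈ ball x (2 * r), ∑ v ∈ U, (if v ∈ ball y ((A + 10) * r) then
            tau w U x u * (tau w U y v * (C₁ * ((r : ℝ) / A) ^ (-((d : ℝ) + α)) * r)) else 0)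
      ≤ r * (3 * C₀ * ((A + 11) * C₀) * C₁ * (A : ℝ) ^ ((d : ℝ) + α) * P) := by
    have e1 : ∀ u ∈ ball x (2 * r), ∑ v ∈ U, (if v ∈ ball y ((A + 10) * r) then
            tau w U x u * (tau w U y v * (C₁ * ((r : ℝ) / A) ^ (-((d : ℝ) + α)) * r)) else 0)
        ≤ tau w U x u * ((C₀ * ((((A + 10 : ℕ) : ℝ) + 1) * (r : ℝ) ^ α)) *
            (C₁ * ((r : ℝ) / A) ^ (-((d : ℝ) + α)) * r)) := by
      intro u _
      refine (wpt_sum_ite U _ fun v => mul_nonneg (tau_nonneg hw _ _ _)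
        (mul_nonneg (tau_nonneg hw _ _ _) (by positivity))).trans ?_
      rw [← Finset.mul_sum, ← Finset.sum_mul]
      exact mul_le_mul_of_nonneg_left (mul_le_mul_of_nonneg_right (hav' y (A + 10))
        (by positivity)) (tau_nonneg hw _ _ _)
    refine (Finset.sum_le_sum e1).trans ?_
    rw [← Finset.sum_mul]
    refine (mul_le_mul_of_nonneg_right (hav' x 2) (by positivity)).trans (le_of_eq ?_)
    have a1 : ((r : ℝ) / A) ^ (-((d : ℝ) + α))
        = P / ((r : ℝ) ^ α * (r : ℝ) ^ α) * (A : ℝ) ^ ((d : ℝ) + α) := by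
      rw [hP, Real.div_rpow hr0.le hA0.le, Real.rpow_neg hA0.le, div_inv_eq_mul,
        ← Real.rpow_add hr0, ← Real.rpow_sub hr0]
      congr 2
      ring
    rw [a1]
    push_cast
    field_simp
    ring
  have s3 : ∑ u ∈ ball x (2 * r), ∑ v ∈ U, (if (A : ℝ) * r ≤ ‖v - u‖ then
            tau w U x u * (kk (d + α) (v - u) * (C₁ * r * (F * P))) else 0)
      ≤ r * (3 * C₀ * C₁ * Ct * (A : ℝ) ^ (-α) * F * P) := by
    have e1 : ∀ u ∈ ball x (2 * r), ∑ v ∈ U, (if (A : ℝ) * r ≤ ‖v - u‖ then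
            tau w U x u * (kk (d + α) (v - u) * (C₁ * r * (F * P))) else 0)
        ≤ tau w U x u * ((Ct * ((A : ℝ) ^ (-α) / (r : ℝ) ^ α)) * (C₁ * r * (F * P))) := by
      intro u _
      rw [← Finset.sum_filter, ← Finset.mul_sum, ← Finset.sum_mul]
      refine mul_le_mul_of_nonneg_left (mul_le_mul_of_nonneg_right ?_ (by positivity))
        (tau_nonneg hw _ _ _)
      refine (ht u _ ((A : ℝ) * r) (by positivity)
        fun v hv => (Finset.mem_filter.mp hv).2).trans (mul_le_mul_of_nonneg_left ?_ hCt.le)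
      rw [show (d : ℝ) - (d + α) = -α by ring, div_eq_mul_inv, ← Real.rpow_neg hr0.le,
        ← Real.mul_rpow hA0.le hr0.le]
      exact Real.rpow_le_rpow_of_nonpos (by positivity) (by linarith) (by linarith)
    refine (Finset.sum_le_sum e1).trans ?_
    rw [← Finset.sum_mul]
    refine (mul_le_mul_of_nonneg_right (hav' x 2) (by positivity)).trans (le_of_eq ?_)
    push_cast
    field_simp
    ring
  have main := wpt_avg hw U x y r hn1
  have main2 := main.trans (Finset.sum_le_sum fun u hu => Finset.sum_le_sum fun v _ =>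
    wpt_term hα (by linarith) hC₁ hF hw hup U hFb x y hA hr hn2 hu v)
  simp only [Finset.sum_add_distrib] at main2
  have main3 := main2.trans (add_le_add (add_le_add s1 s2) s3)
  rw [← mul_add, ← mul_add] at main3
  refine (le_of_mul_le_mul_left main3 hr0).trans ?_
  have p1 : 0 ≤ (A : ℝ) ^ (α - 1) := by positivity
  have p2 : 0 ≤ (A : ℝ) ^ (-α) := by positivity
  have p3 : 0 ≤ 12 * C₀ * C₁ * Cm * (2 : ℝ) ^ ((d : ℝ) - α) * (A : ℝ) ^ (-α) * F * P := by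
    positivity
  have p4 : 0 ≤ 3 * C₀ * C₁ * Ct * (A : ℝ) ^ (α - 1) * F * P := by positivity
  nlinarith

lemma wpt_small {α B : ℝ} (hα : 0 < α) (h1 : α < 1) :
    ∃ A : ℕ, 7 ≤ A ∧ B * ((A : ℝ) ^ (α - 1) + (A : ℝ) ^ (-α)) ≤ 1 / 2 := by
  have t1 : Filter.Tendsto (fun A : ℕ => (A : ℝ) ^ (α - 1)) Filter.atTop (nhds 0) := by
    have := (tendsto_rpow_neg_atTop (by linarith : 0 < 1 - α)).comp tendsto_natCast_atTop_atTop
    refine this.congr fun A => ?_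
    simp
  have t2 : Filter.Tendsto (fun A : ℕ => (A : ℝ) ^ (-α)) Filter.atTop (nhds 0) :=
    (tendsto_rpow_neg_atTop hα).comp tendsto_natCast_atTop_atTop
  have t3 := (t1.add t2).const_mul B
  rw [add_zero, mul_zero] at t3
  obtain ⟨A, hA1, hA2⟩ := ((Filter.eventually_ge_atTop 7).and
    (t3.eventually (ge_mem_nhds (by norm_num : (0 : ℝ) < 1 / 2)))).exists
  exact ⟨A, hA1, hA2⟩

/-- Pointwise bound.  Fix `U`, let `F` be the maximum of `tau w U x y / kk (d-α) (y-x)` over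
`x, y ∈ U`.  For `n = ‖y - x‖` large let `r = ⌊n/4⌋` and average `sl_tau` over `S = ball x s`,
`r ≤ s < 2r`: `tau x y ≤ ∑ v, ψ v * tau v y`, `ψ v = r⁻¹ ∑ u ∈ ball x (2r), tau x u * w(u,v) *
#{s : u ∈ ball x s, v ∉ ball x s}`, the count being `≤ min ‖v-u‖ r` and zero unless `‖v - x‖ > r`.
Pairs with `‖v-u‖ ≤ εr` (then `‖u-x‖ ≥ r/2`, `‖v-x‖ ≤ 3r`) give `ψ₁ ≤ C F ε^(1-α) r^(-d)`
(`sum_kk_min` with `γ = 1`); the other pairs give `ψ₂ ≤ C_ε r^(-d)` everywhere and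
`∑_{‖v-x‖ ≥ r/ε} ψ₂ v ≤ C ε^α` (`sum_kk_tail`), where `tau v y ≤ F (1+r)^(α-d)`.  With the averaged
bound centred at `y` (`tau_symm`): `F ≤ C (ε^(1-α) + ε^α) F + C_ε`. -/
theorem pt_bound (d : ℕ) (hd : 1 ≤ d) {α : ℝ} (hα : 0 < α) (h1 : α < 1) (C₀ C₁ : ℝ) :
    ∃ C : ℝ, 0 < C ∧ ∀ w : Sym2 (Zd d) → ℝ, (∀ e, 0 ≤ w e) →
      (∀ x y, w s(x, y) ≤ C₁ * kk (d + α) (y - x)) →
      (∀ (U : Finset (Zd d)) (x : Zd d) (t : ℕ),
        ∑ y ∈ ball x t, tau w U x y ≤ C₀ * (1 + (t : ℝ)) ^ α) →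
      ∀ U x y, tau w U x y ≤ C * kk (d - α) (y - x) := by
  have hd1 : (1 : ℝ) ≤ d := by exact_mod_cast hd
  obtain ⟨B, hB, hstep⟩ := wpt_step d hd hα h1 (abs_nonneg C₀) (abs_nonneg C₁)
  obtain ⟨A, hA, hAs⟩ := wpt_small (B := (8 : ℝ) ^ ((d : ℝ) - α) * B) hα h1
  obtain ⟨CA, hCA, hs⟩ := hstep A hA
  have h8 : 0 < (8 : ℝ) ^ ((d : ℝ) - α) := by positivity
  have hA4 : 0 < (1 + 4 * (A : ℝ)) ^ ((d : ℝ) - α) := by positivity
  refine ⟨(1 + 4 * (A : ℝ)) ^ ((d : ℝ) - α) + 2 * ((8 : ℝ) ^ ((d : ℝ) - α) * CA), by positivity, ?_⟩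
  intro w hw hup hav U
  have hup' : ∀ x y, w s(x, y) ≤ |C₁| * kk (d + α) (y - x) := fun x y =>
    (hup x y).trans (mul_le_mul_of_nonneg_right (le_abs_self _) (kk_pos _ _).le)
  have hav' : ∀ (x : Zd d) (t : ℕ), ∑ y ∈ ball x t, tau w U x y ≤ |C₀| * (1 + (t : ℝ)) ^ α :=
    fun x t => (hav U x t).trans (mul_le_mul_of_nonneg_right (le_abs_self _) (by positivity))
  have hout : ∀ x y, x ∉ U ∨ y ∉ U → tau w U x y = 0 := by
    rintro x y (h | h)
    · rw [tau_symm]; exact tau_of_notMem w y h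
    · exact tau_of_notMem w x h
  rcases U.eq_empty_or_nonempty with hU | hU
  · intro x y
    rw [hout x y (Or.inl (by simp [hU]))]
    exact mul_nonneg (by positivity) (kk_pos _ _).le
  obtain ⟨p, -, hp⟩ := Finset.exists_max_image (U ×ˢ U)
    (fun p => tau w U p.1 p.2 / kk (d - α) (p.2 - p.1)) (hU.product hU)
  obtain ⟨x, y⟩ := p
  simp only at hp
  set F : ℝ := tau w U x y / kk (d - α) (y - x) with hFdef
  have hF : 0 ≤ F := div_nonneg (tau_nonneg hw _ _ _) (kk_pos _ _).le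
  have hFb : ∀ x' y', tau w U x' y' ≤ F * kk (d - α) (y' - x') := by
    intro x' y'
    by_cases h : x' ∈ U ∧ y' ∈ U
    · have := hp (x', y') (Finset.mem_product.mpr h)
      exact (div_le_iff₀ (kk_pos _ _)).mp this
    · rw [hout x' y' (not_and_or.mp h)]
      exact mul_nonneg hF (kk_pos _ _).le
  suffices hFle : F ≤ (1 + 4 * (A : ℝ)) ^ ((d : ℝ) - α) + 2 * ((8 : ℝ) ^ ((d : ℝ) - α) * CA) from
    fun x' y' => (hFb x' y').trans (mul_le_mul_of_nonneg_right hFle (kk_pos _ _).le)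
  obtain ⟨n, hn⟩ := exists_norm_eq_nat (y - x)
  have hFeq : F = tau w U x y * (1 + (n : ℝ)) ^ ((d : ℝ) - α) := by
    rw [hFdef, kk, hn, Real.rpow_neg (by positivity), div_inv_eq_mul]
  by_cases hsmall : n ≤ 4 * A
  · have e1 : (1 + (n : ℝ)) ^ ((d : ℝ) - α) ≤ (1 + 4 * (A : ℝ)) ^ ((d : ℝ) - α) := by
      have : (n : ℝ) ≤ 4 * A := by exact_mod_cast hsmall
      exact Real.rpow_le_rpow (by positivity) (by linarith) (by linarith)
    have e2 : F ≤ 1 * (1 + 4 * (A : ℝ)) ^ ((d : ℝ) - α) := by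
      rw [hFeq]
      exact mul_le_mul (tau_le_one hw _ _ _) e1 (by positivity) (by norm_num)
    have e3 : 0 ≤ 2 * ((8 : ℝ) ^ ((d : ℝ) - α) * CA) := by positivity
    linarith
  · obtain ⟨r, hr⟩ : ∃ r : ℕ, r = n / 4 := ⟨_, rfl⟩
    have hAr : A ≤ r := by omega
    have hr0 : (0 : ℝ) < r := by exact_mod_cast (by omega : 0 < r)
    have b1 : 2 * (r : ℝ) ≤ n := by exact_mod_cast (by omega : 2 * r ≤ n)
    have b2 : 1 + (n : ℝ) ≤ 8 * r := by exact_mod_cast (by omega : 1 + n ≤ 8 * r)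
    have e1 := hs w hw hup' U hav' F hF hFb x y r hAr (by rw [hn]; exact b1)
      (by rw [hn]; linarith)
    have e2 : (1 + (n : ℝ)) ^ ((d : ℝ) - α) ≤ (8 : ℝ) ^ ((d : ℝ) - α) * (r : ℝ) ^ ((d : ℝ) - α) := by
      rw [← Real.mul_rpow (by norm_num) hr0.le]
      exact Real.rpow_le_rpow (by positivity) b2 (by linarith)
    have hrp : 0 < (r : ℝ) ^ ((d : ℝ) - α) := by positivity
    have e3 : F ≤ (B * ((A : ℝ) ^ (α - 1) + (A : ℝ) ^ (-α)) * F + CA) * (8 : ℝ) ^ ((d : ℝ) - α) := by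
      calc F = tau w U x y * (1 + (n : ℝ)) ^ ((d : ℝ) - α) := hFeq
        _ ≤ (B * ((A : ℝ) ^ (α - 1) + (A : ℝ) ^ (-α)) * F + CA) * (r : ℝ) ^ (-((d : ℝ) - α))
            * ((8 : ℝ) ^ ((d : ℝ) - α) * (r : ℝ) ^ ((d : ℝ) - α)) :=
          mul_le_mul e1 e2 (by positivity) (by positivity)
        _ = _ := by
          rw [Real.rpow_neg hr0.le]
          field_simp
    have e4 := mul_le_mul_of_nonneg_right hAs hF
    nlinarith

end Pool.Agent.Lib.MP_6fc7d9_pr
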