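import Pool.Agent.Lib.MP_6fc7d9_pr.WL1
import Pool.Agent.Lib.MP_6fc7d9_pr.WFour
import Pool.Agent.Lib.MP_6fc7d9_pr.WAvg
import Pool.Agent.Lib.MP_6fc7d9_pr.WPt
import Pool.Agent.Lib.MP_6fc7d9_pr.WMainA

set_option linter.unusedSectionVars false

namespace Pool.Agent.Lib.MP_6fc7d9_pr
open Finset MeasureTheory Filter Topology

/-- averaged bound, uniformly over subcritical `β ≥ β₀` -/
lemma wmain_avg {d : ℕ} {α c : ℝ} (hα : 0 < α) (hd : α < d) (hc : 0 < c)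
    {J : Sym2 (Fin d → ℤ) → ℝ} (hK : Kernel d α c J) {β₀ : ℝ} (h0 : 0 < β₀) :
    ∃ C : ℝ, 0 < C ∧ ∀ β, β₀ ≤ β → (∃ S : Finset (Fin d → ℤ), 0 ∈ S ∧ phi J β S < 1) →
      ∀ (U : Finset (Zd d)) (x : Zd d) (t : ℕ),
        ∑ y ∈ ball x t, tau (β • J) U x y ≤ C * (1 + (t : ℝ)) ^ α := by
  have hs : 0 < √(d : ℝ) := Real.sqrt_pos.mpr (hα.trans hd)
  obtain ⟨C, hC, h⟩ := avg_bound d (c₀ := β₀ * (c * √d ^ (-((d : ℝ) + α)))) hα hd (by positivity)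
  refine ⟨C, hC, fun β hβ ⟨S, hS, hφ⟩ => ?_⟩
  have hβ0 : 0 ≤ β := h0.le.trans hβ
  refine h (β • J) (smul_nonneg' hK.nonneg hβ0) (fun u v a => ?_) (fun x y hxy => ?_)
    ⟨_, chi_le_of_phi hK hβ0 hS hφ⟩
  · simp only [Pi.smul_apply, hK.toInv u v a]
  · rw [mul_assoc]
    exact mul_le_mul hβ (wmain_lower hα hc hK hxy)
      (mul_nonneg (by positivity) (kk_pos _ _).le) hβ0

lemma wmain_nonempty {d : ℕ} {α c : ℝ} (hd : 1 ≤ d) (hα : 0 < α) (h1 : α < 1) (hc : 0 < c)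
    {J : Sym2 (Fin d → ℤ) → ℝ} (hK : Kernel d α c J) : (supercrit J).Nonempty := by
  have hd' : (1 : ℝ) ≤ d := by exact_mod_cast hd
  have hs : 0 < √(d : ℝ) := Real.sqrt_pos.mpr (by linarith)
  obtain ⟨C, hC, h⟩ := wmain_avg hα (by linarith) hc hK one_pos
  obtain ⟨t, ht⟩ : ∃ t : ℕ, 2 * C < (1 + (t : ℝ)) ^ (1 - α) := by
    have := (tendsto_rpow_atTop (sub_pos.mpr h1)).comp
      (tendsto_atTop_add_const_left _ 1 (tendsto_natCast_atTop_atTop (R := ℝ)))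
    exact (this.eventually_gt_atTop _).exists
  set a : ℝ := c * √d ^ (-((d : ℝ) + α)) * (1 + (t : ℝ)) ^ (-((d : ℝ) + α)) with ha
  have ha0 : 0 < a := by positivity
  refine ⟨1 + 1 / a + 1, by_contra fun hn => ?_⟩
  obtain ⟨β, hβ, hS⟩ := dct hK (β₁ := 1 + 1 / a) (by positivity) (lt_add_one _) hn
  have hβ1 : 1 ≤ β := le_trans (le_add_of_nonneg_right (by positivity)) hβ.1
  have hw := smul_nonneg' hK.nonneg (zero_le_one.trans hβ1)
  have hz : (0 : Zd d) ∈ ball 0 t := mem_ball_zero.mpr (by simp)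
  have h2 := h β hβ1 hS (ball 0 t) 0 t
  have h3 : ∀ y ∈ ball (0 : Zd d) t, 1 / 2 ≤ tau (β • J) (ball 0 t) 0 y := by
    intro y hy
    by_cases hy0 : y = 0
    · rw [hy0, wmain_self _ hz]; norm_num
    refine le_trans ?_ (wmain_edge hw hz hy)
    have b1 : a ≤ J s(0, y) := by
      refine le_trans ?_ (wmain_lower hα hc hK (Ne.symm hy0))
      refine mul_le_mul_of_nonneg_left ?_ (by positivity)
      rw [sub_zero]
      exact Real.rpow_le_rpow_of_nonpos (by positivity) (by linarith [mem_ball_zero.mp hy])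
        (by linarith)
    have b2 : 1 ≤ β * J s(0, y) := by
      calc (1 : ℝ) = 1 / a * a := by field_simp
        _ ≤ _ := mul_le_mul (by linarith [hβ.1]) b1 ha0.le (by linarith)
    have b3 : Real.exp (-(β * J s(0, y))) ≤ 1 / 2 := by
      rw [Real.exp_neg, one_div]
      exact inv_anti₀ (by norm_num) (by linarith [Real.add_one_le_exp (β * J s(0, y))])
    simp only [pw, Pi.smul_apply, smul_eq_mul]
    linarith
  have h4 := Finset.card_nsmul_le_sum _ _ _ h3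
  rw [card_ball, nsmul_eq_mul] at h4
  have h5 : 1 + (t : ℝ) ≤ (((2 * t + 1) ^ d : ℕ) : ℝ) := by
    have : 1 + t ≤ (2 * t + 1) ^ d := le_trans (by omega) (Nat.le_self_pow (by omega) _)
    exact_mod_cast this
  have h6 : (1 + (t : ℝ)) ^ (1 - α) * (1 + (t : ℝ)) ^ α = 1 + t := by
    rw [← Real.rpow_add (by positivity)]; simp
  have h7 : 0 < (1 + (t : ℝ)) ^ α := by positivity
  nlinarith

theorem main_reg {d : ℕ} {α c C : ℝ} (hd : 1 ≤ d) (hα : 0 < α) (h1 : α < 1) (hc : 0 < c)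
    {J : Sym2 (Fin d → ℤ) → ℝ} (hK : Kernel d α c J)
    (hup : ∀ x : Fin d → ℤ, x ≠ 0 →
      J s(0, x) ≤ C * euc (fun i => (x i : ℝ)) ^ (-((d : ℝ) + α)))
    (hbv : ∀ (i : Fin d) (l : ℝ) (T : Finset (Fin d → ℤ)), 1 ≤ l →
      (∀ x ∈ T, l ≤ euc fun k => (x k : ℝ)) →
      ∑ x ∈ T, |J s(0, x + Pi.single i 1) - J s(0, x)| ≤ C * l ^ (-(1 + α))) :
    ∃ βc : ℝ, IsGLB (supercrit J) βc ∧ ∃ C : ℝ, ∃ f : (Fin d → ℝ) → ℂ,
      IntegrableOn f (cube d) ∧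
      (∀ x : Fin d → ℤ, (twoPt J βc x : ℂ) = ((((2 * Real.pi) ^ d)⁻¹ : ℝ) : ℂ) *
        ∫ θ in cube d, f θ * Complex.exp (-(Complex.I * ((∑ i, θ i * x i : ℝ) : ℂ)))) ∧
      ∀ θ ∈ cube d, θ ≠ 0 → ‖f θ‖ ≤ C * euc θ ^ (-α) := by
  rcases lt_or_ge (3 * α) d with h3 | h3
  · exact main hα h3 hc hK
  have hd' : (1 : ℝ) ≤ d := by exact_mod_cast hd
  refine wmain_limit hα (by linarith) hK (wmain_nonempty hd hα h1 hc hK) fun β₀ β₁ h0 => ?_
  set A : ℝ := (2 * |C| + J s(0, 0)) * 2 ^ ((d : ℝ) + α) with hA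
  have hA0 : 0 ≤ A := mul_nonneg (add_nonneg (by positivity) (hK.nonneg _)) (by positivity)
  obtain ⟨C₀, -, hC₀⟩ := wmain_avg hα (by linarith) hc hK h0
  obtain ⟨C₁, -, hC₁⟩ := pt_bound d hd hα h1 C₀ (β₁ * A)
  obtain ⟨N, C₂, hC₂, hl⟩ := l1_bound d hd hα h1 h3 (max (β₁ * A) C₁)
  refine ⟨C₂ * (Real.pi * √d) ^ α, fun β hβ0 hβ1 hS => ?_⟩
  have hβ : 0 ≤ β := h0.le.trans hβ0
  have hw := smul_nonneg' hK.nonneg hβ
  have hu : ∀ x y, (β • J) s(x, y) ≤ β₁ * A * kk (d + α) (y - x) := fun x y => by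
    rw [mul_assoc]
    exact mul_le_mul hβ1 (wmain_upper hα hK hup x y) (hK.nonneg _) (hβ.trans hβ1)
  have hreg : Reg α (max (β₁ * A) C₁) (β • J) := by
    refine ⟨hw, fun u v a => ?_, fun x y => (hu x y).trans ?_, fun i l T hl hT => ?_,
      fun U x y => (hC₁ _ hw hu (hC₀ β hβ0 hS) U x y).trans ?_⟩
    · simp only [Pi.smul_apply, hK.toInv u v a]
    · exact mul_le_mul_of_nonneg_right (le_max_left _ _) (kk_pos _ _).le
    · simp only [Pi.smul_apply, smul_eq_mul, ← mul_sub, abs_mul, abs_of_nonneg hβ,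
        ← Finset.mul_sum]
      refine (mul_le_mul hβ1 (wmain_bv hd hα hK hup hbv i l T hl hT)
        (Finset.sum_nonneg fun _ _ => abs_nonneg _) (hβ.trans hβ1)).trans ?_
      rw [← mul_assoc]
      exact mul_le_mul_of_nonneg_right (le_max_left _ _) (by positivity)
    · exact mul_le_mul_of_nonneg_right (le_max_right _ _) (kk_pos _ _).le
  obtain ⟨S, hS0, hφ⟩ := hS
  exact four_of_l1 hα hC₂ (summable_twoPt hK hβ hS0 hφ)
    (hl J β hK.nonneg hK.toInv hβ hreg)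

end Pool.Agent.Lib.MP_6fc7d9_pr
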