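import Pool.Agent.Lib.MP_6fc7d9_pr.XTail
import Pool.Agent.Lib.MP_6fc7d9_pr.WMain

/-!
The volume tail at the critical point, and two-point functions truncated by the cluster size.
-/

set_option linter.unusedSectionVars false

namespace Pool.Agent.Lib.MP_6fc7d9_pr
open Finset MeasureTheory Filter Topology

lemma xlim_nonempty {d : ℕ} {α c : ℝ} (hα : 0 < α) (hd : α < d) (hc : 0 < c)
    {J : Sym2 (Fin d → ℤ) → ℝ} (hK : Kernel d α c J) : (supercrit J).Nonempty := by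
  have hs : 0 < √(d : ℝ) := Real.sqrt_pos.mpr (by linarith)
  obtain ⟨C, hC, h⟩ := wmain_avg hα hd hc hK one_pos
  obtain ⟨t, ht⟩ : ∃ t : ℕ, 2 * C < (1 + (t : ℝ)) ^ (d - α) := by
    have := (tendsto_rpow_atTop (sub_pos.mpr hd)).comp
      (tendsto_atTop_add_const_left _ 1 (tendsto_natCast_atTop_atTop (R := ℝ)))
    exact (this.eventually_gt_atTop _).exists
  set a : ℝ := c * √d ^ (-((d : ℝ) + α)) * (1 + (t : ℝ)) ^ (-((d : ℝ) + α)) with ha
  have ha0 : 0 < a := by positivity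
  refine ⟨1 + 1 / a + 1, by_contra fun hn => ?_⟩
  obtain ⟨β, hβ, hS⟩ := dct hK (β₁ := 1 + 1 / a) (by positivity) (lt_add_one _) hn
  have hβ1 : 1 ≤ β := le_trans (le_add_of_nonneg_right (by positivity)) hβ.1
  have hw := smul_nonneg' hK.nonneg (zero_le_one.trans hβ1)
  have hz : (0 : Zd d) ∈ ball 0 t := mem_ball_zero.mpr (by simp)
  have h2 := h β hβ1 hS (ball 0 t) 0 t
  have h3 : ∀ y ∈ ball (0 : Zd d) t, 1 / 2 ≤ tau (β • J) (ball 0 t) 0 y := by
    intro y hy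
    by_cases hy0 : y = 0
    · rw [hy0, wmain_self _ hz]; norm_num
    refine le_trans ?_ (wmain_edge hw hz hy)
    have b1 : a ≤ J s(0, y) := by
      refine le_trans ?_ (wmain_lower hα hc hK (Ne.symm hy0))
      refine mul_le_mul_of_nonneg_left ?_ (by positivity)
      rw [sub_zero]
      exact Real.rpow_le_rpow_of_nonpos (by positivity) (by linarith [mem_ball_zero.mp hy])
        (by linarith)
    have b2 : 1 ≤ β * J s(0, y) := by
      calc (1 : ℝ) = 1 / a * a := by field_simp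
        _ ≤ _ := mul_le_mul (by linarith [hβ.1]) b1 ha0.le (by linarith)
    have b3 : Real.exp (-(β * J s(0, y))) ≤ 1 / 2 := by
      rw [Real.exp_neg, one_div]
      exact inv_anti₀ (by norm_num) (by linarith [Real.add_one_le_exp (β * J s(0, y))])
    simp only [pw, Pi.smul_apply, smul_eq_mul]
    linarith
  have h4 := Finset.card_nsmul_le_sum _ _ _ h3
  rw [card_ball, nsmul_eq_mul] at h4
  have h5 : (1 + (t : ℝ)) ^ d ≤ (((2 * t + 1) ^ d : ℕ) : ℝ) := by
    have : (1 + t) ^ d ≤ (2 * t + 1) ^ d := Nat.pow_le_pow_left (by omega) _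
    exact_mod_cast this
  have h6 : (1 + (t : ℝ)) ^ (d - α) * (1 + (t : ℝ)) ^ α = (1 + (t : ℝ)) ^ d := by
    rw [← Real.rpow_add (by positivity), sub_add_cancel, Real.rpow_natCast]
  have h7 : 0 < (1 + (t : ℝ)) ^ α := by positivity
  nlinarith

theorem crit_tail {d : ℕ} {α c : ℝ} (hα : 0 < α) (hd : α < d) (h3 : d < 3 * α) (hc : 0 < c)
    {J : Sym2 (Fin d → ℤ) → ℝ} (hK : Kernel d α c J) :
    ∃ βc : ℝ, IsGLB (supercrit J) βc ∧ 0 ≤ βc ∧ ∃ A : ℝ, 0 < A ∧
      ∀ (U : Finset (Zd d)) (x : Zd d) (n : ℕ), 1 ≤ n →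
        EK (βc • J) U {x} (fun K => ind (n ≤ K.card)) ≤ A * (n : ℝ) ^ (-((d - α) / (d + α))) := by
  have hne := xlim_nonempty hα hd hc hK
  have hbdd : BddBelow (supercrit J) := ⟨0, fun β hβ => hβ.1⟩
  set βc := sInf (supercrit J) with hβc
  have hβc0 : 0 ≤ βc := le_csInf hne fun β hβ => hβ.1
  refine ⟨βc, isGLB_csInf hne hbdd, hβc0, ?_⟩
  rcases hβc0.eq_or_lt with h0 | h0
  · refine ⟨1, one_pos, fun U x n hn => ?_⟩
    rw [← h0, zero_smul, EK, wmerge_zero, cl_empty_config]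
    by_cases h : n ≤ ({x} ∩ U).card
    · have := Finset.card_le_card (Finset.inter_subset_left (s₁ := {x}) (s₂ := U))
      rw [Finset.card_singleton] at this
      rw [ind_pos h, show n = 1 by omega]
      simp
    · rw [ind_neg h]; positivity
  have hs : 0 < √(d : ℝ) := Real.sqrt_pos.mpr (hα.trans hd)
  obtain ⟨A, hA, h⟩ := sharp_tail d (c₀ := βc / 2 * (c * √d ^ (-((d : ℝ) + α)))) hα hd h3
    (by positivity)
  refine ⟨A, hA, fun U x n hn => ?_⟩
  have hcont : Continuous fun b : ℝ => EK (b • J) U {x} fun K => ind (n ≤ K.card) := by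
    unfold EK Ex wt pw
    simp only [Pi.smul_apply, smul_eq_mul]
    fun_prop
  refine le_of_tendsto (hcont.continuousWithinAt.tendsto (s := Set.Iio βc)) ?_
  filter_upwards [Ioo_mem_nhdsLT (half_lt_self h0)] with b hb
  obtain ⟨β, hβ, S, hS, hφ⟩ := dct hK (β₁ := b) (β₂ := (b + βc) / 2) (by linarith [hb.1])
    (by linarith [hb.2]) (notMem_of_lt_csInf (by linarith [hb.2]) hbdd)
  have hb0 : 0 ≤ b := by linarith [hb.1]
  have hβ0 : 0 ≤ β := hb0.trans hβ.1
  refine le_trans (EK_mono_dom (smul_nonneg' hK.nonneg hb0)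
    (fun e => mul_le_mul_of_nonneg_right hβ.1 (hK.nonneg e)) subset_rfl subset_rfl
    fun _ _ k => ind_mono fun k' => k'.trans (Finset.card_le_card k))
    (h (β • J) (smul_nonneg' hK.nonneg hβ0) (fun u v a => ?_) (fun x y hxy => ?_)
      ⟨_, chi_le_of_phi hK hβ0 hS hφ⟩ U x n hn)
  · simp only [Pi.smul_apply, hK.toInv u v a]
  · rw [mul_assoc]
    exact mul_le_mul (hb.1.le.trans hβ.1) (wmain_lower hα hc hK hxy)
      (mul_nonneg (by positivity) (kk_pos _ _).le) hβ0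

lemma xlim_pd {V : Type*} [DecidableEq V] (ω : Finset (Sym2 V)) (U B : Finset V) {φ : ℕ → ℝ}
    (hφ : ∀ n, 0 ≤ φ n) (u : V → ℝ) :
    0 ≤ ∑ x ∈ B, ∑ y ∈ B, ind (y ∈ cl ω U {x}) * φ (cl ω U {x}).card * (u x * u y) := by
  have e : ∀ x y, ind (y ∈ cl ω U {x}) * φ (cl ω U {x}).card = ∑ v ∈ U,
      φ (cl ω U {v}).card / (cl ω U {v}).card * (ind (x ∈ cl ω U {v}) * ind (y ∈ cl ω U {v})) := by
    intro x y
    have e1 : ∀ v ∈ U, φ (cl ω U {v}).card / (cl ω U {v}).card *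
        (ind (x ∈ cl ω U {v}) * ind (y ∈ cl ω U {v})) = ind (v ∈ cl ω U {x}) *
          (φ (cl ω U {x}).card / (cl ω U {x}).card * ind (y ∈ cl ω U {x})) := fun v _ => by
      by_cases h : v ∈ cl ω U {x}
      · rw [ind_pos h, ind_pos (mem_cl_symm h), cl_eq_of_mem h, one_mul, one_mul]
      · rw [ind_neg h, ind_neg fun h' => h (mem_cl_symm h'), zero_mul, mul_zero, zero_mul]
    rw [Finset.sum_congr rfl e1, ← Finset.sum_mul, sum_ind_mem,
      Finset.inter_eq_right.mpr (cl_subset _ _ _)]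
    by_cases h : y ∈ cl ω U {x}
    · have : ((cl ω U {x}).card : ℝ) ≠ 0 := by exact_mod_cast (Finset.card_pos.mpr ⟨y, h⟩).ne'
      rw [ind_pos h]; field_simp
    · rw [ind_neg h]; simp
  have e2 : ∑ x ∈ B, ∑ y ∈ B, ind (y ∈ cl ω U {x}) * φ (cl ω U {x}).card * (u x * u y)
      = ∑ v ∈ U, φ (cl ω U {v}).card / (cl ω U {v}).card *
        (∑ x ∈ B, ind (x ∈ cl ω U {v}) * u x) ^ 2 := by
    simp only [e, Finset.sum_mul, sq, Finset.mul_sum]
    rw [Finset.sum_comm (s := U)]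
    refine Finset.sum_congr rfl fun x _ => ?_
    rw [Finset.sum_comm (s := U)]
    exact Finset.sum_congr rfl fun y _ => Finset.sum_congr rfl fun v _ => by ring
  rw [e2]
  exact Finset.sum_nonneg fun v _ => mul_nonneg (div_nonneg (hφ _) (Nat.cast_nonneg _)) (sq_nonneg _)

variable {d : ℕ} {w : Sym2 (Zd d) → ℝ}

/-- probability that the cluster of the origin contains `z` and has at least `n` points -/
noncomputable def xT (w : Sym2 (Zd d) → ℝ) (n : ℕ) (z : Zd d) : ℝ :=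
  ⨆ U : Finset (Zd d), EK w U {0} fun K => ind (z ∈ K ∧ n ≤ K.card)

lemma xT_tendsto (hw : ∀ e, 0 ≤ w e) (hinv : Inv w) (n : ℕ) (x y : Zd d) :
    Tendsto (fun U : Finset (Zd d) => EK w U {x} fun K => ind (y ∈ K ∧ n ≤ K.card)) atTop
      (𝓝 (xT w n (y - x))) := by
  have hb : ∀ x y : Zd d, BddAbove (Set.range fun U : Finset (Zd d) =>
      EK w U {x} fun K => ind (y ∈ K ∧ n ≤ K.card)) := fun x y =>
    ⟨1, by rintro _ ⟨U, rfl⟩; exact EK_le_const hw _ fun _ _ => ind_le_one _⟩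
  have hs : ∀ x y c : Zd d, (⨆ U : Finset (Zd d), EK w U {x} fun K => ind (y ∈ K ∧ n ≤ K.card))
      ≤ ⨆ U : Finset (Zd d), EK w U {x + c} fun K => ind (y + c ∈ K ∧ n ≤ K.card) := fun x y c => by
    refine ciSup_le fun U => le_ciSup_of_le (hb _ _) (U.map (addRightEmbedding c)) (le_of_eq ?_)
    rw [xtail_shift hinv]
    exact EK_congr fun K _ => ind_congr (by
      rw [Finset.card_map, ← Finset.mem_map' (addRightEmbedding c)]; rfl)
  have e : xT w n (y - x) = ⨆ U : Finset (Zd d), EK w U {x} fun K => ind (y ∈ K ∧ n ≤ K.card) := by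
    refine le_antisymm ?_ ?_
    · simpa only [xT, zero_add, sub_add_cancel] using hs 0 (y - x) x
    · simpa only [xT, add_neg_cancel, ← sub_eq_add_neg] using hs x y (-x)
  rw [e]
  exact tendsto_atTop_ciSup (fun U U' h => EK_mono_dom hw (fun _ => le_rfl) h subset_rfl
    fun _ _ k => ind_mono fun k' => ⟨k k'.1, k'.2.trans (Finset.card_le_card k)⟩) (hb x y)

lemma xT_lim (hw : ∀ e, 0 ≤ w e) (hinv : Inv w) (n : ℕ) (y : Zd d) :
    Tendsto (fun U : Finset (Zd d) => EK w U {0} fun K => ind (y ∈ K ∧ n ≤ K.card)) atTop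
      (𝓝 (xT w n y)) := by simpa only [sub_zero] using xT_tendsto hw hinv n 0 y

lemma xT_nonneg (hw : ∀ e, 0 ≤ w e) (hinv : Inv w) (n : ℕ) (y : Zd d) : 0 ≤ xT w n y :=
  ge_of_tendsto' (xT_lim hw hinv n y) fun _ => EK_nonneg hw _ fun _ _ => ind_nonneg _

lemma xT_le_one (hw : ∀ e, 0 ≤ w e) (hinv : Inv w) (n : ℕ) (y : Zd d) : xT w n y ≤ 1 :=
  le_of_tendsto' (xT_lim hw hinv n y) fun _ => EK_le_const hw _ fun _ _ => ind_le_one _

lemma xT_anti (hw : ∀ e, 0 ≤ w e) (hinv : Inv w) {n m : ℕ} (h : n ≤ m) (y : Zd d) :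
    xT w m y ≤ xT w n y :=
  le_of_tendsto_of_tendsto' (xT_lim hw hinv m y) (xT_lim hw hinv n y) fun _ =>
    EK_mono hw _ fun _ _ => ind_mono fun k => ⟨k.1, h.trans k.2⟩

lemma xT_even (hw : ∀ e, 0 ≤ w e) (hinv : Inv w) (n : ℕ) (y : Zd d) : xT w n (-y) = xT w n y := by
  have := xT_tendsto hw hinv n y 0
  rw [zero_sub] at this
  refine tendsto_nhds_unique this ((xT_lim hw hinv n y).congr fun U => ?_)
  simpa only [ind_and, smul_eq_mul] using EK_reroot w U 0 y fun K => ind (n ≤ K.card)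

lemma xT_le (hw : ∀ e, 0 ≤ w e) (hinv : Inv w) {n : ℕ} {B : ℝ}
    (h : ∀ U, EK w U {0} (fun K => ind (n ≤ K.card)) ≤ B) (y : Zd d) : xT w n y ≤ B :=
  le_of_tendsto' (xT_lim hw hinv n y) fun U =>
    (EK_mono hw _ fun _ _ => ind_mono fun k => k.2).trans (h U)

lemma xT_set (hw : ∀ e, 0 ≤ w e) (hinv : Inv w) {T : Finset (Zd d)} {B : ℝ}
    (h : ∀ U, ∑ y ∈ T, tau w U 0 y ≤ B) : ∑ y ∈ T, xT w 0 y ≤ B :=
  le_of_tendsto' (tendsto_finsetSum T fun y _ => xT_lim hw hinv 0 y) fun U => by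
    simpa only [tau, zero_le, and_true] using h U

lemma xT_trunc (hw : ∀ e, 0 ≤ w e) (hinv : Inv w) {n : ℕ} {B : ℝ}
    (h : ∀ U, EK w U {0} (fun K => ((min K.card n : ℕ) : ℝ)) ≤ B) (T : Finset (Zd d)) :
    ∑ y ∈ T, (xT w 0 y - xT w n y) ≤ B := by
  refine le_of_tendsto' (tendsto_finsetSum T fun y _ =>
    (xT_lim hw hinv 0 y).sub (xT_lim hw hinv n y)) fun U => le_trans ?_ (h U)
  simp only [← EK_sub]
  rw [← EK_sum]
  refine EK_mono hw _ fun K _ => ?_
  simp only [zero_le, and_true]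
  by_cases k : n ≤ K.card
  · simp only [k, and_true, sub_self, Finset.sum_const_zero]; exact Nat.cast_nonneg _
  · simp only [k, and_false, ind_neg not_false, sub_zero]
    rw [sum_ind_mem, min_eq_left (not_le.mp k).le]
    exact_mod_cast Finset.card_le_card Finset.inter_subset_right

lemma xT_pd (hw : ∀ e, 0 ≤ w e) (hinv : Inv w) {n m : ℕ} (h : n ≤ m) (B : Finset (Zd d))
    (u : Zd d → ℝ) : 0 ≤ ∑ x ∈ B, ∑ y ∈ B, (xT w n (y - x) - xT w m (y - x)) * (u x * u y) := by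
  refine ge_of_tendsto' (tendsto_finsetSum B fun x _ => tendsto_finsetSum B fun y _ =>
    ((xT_tendsto hw hinv n x y).sub (xT_tendsto hw hinv m x y)).mul_const (u x * u y)) fun U => ?_
  simp only [EK, ← Ex_sub, ← Ex_mul_const, ← Ex_sum]
  refine Ex_nonneg (pw_nonneg hw) (pw_le_one w) fun ω _ => ?_
  simpa only [ind_and, ← mul_sub] using xlim_pd ω U B (φ := fun k => ind (n ≤ k) - ind (m ≤ k))
    (fun k => sub_nonneg.mpr (ind_mono h.trans)) u

end Pool.Agent.Lib.MP_6fc7d9_pr
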