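import Pool.Agent.Lib.MP_6fc7d9_pr.Main
import Pool.Agent.Lib.MP_6fc7d9_pr.XLim

/-!
The critical two-point function summed over an arbitrary finite set, and the volume tail.
-/

set_option linter.unusedSectionVars false

namespace Pool.Agent.Lib.MP_6fc7d9_pr
open Finset MeasureTheory Filter Topology

/-- On a finite group: a set with at most `ρ^i` points carries two-point mass at most `K q^i`. -/
lemma setb_local {q ρ D c₀ : ℝ} (hP : Par q ρ D c₀) {A : ℝ} (hA : 1 ≤ A) :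
    ∃ K : ℝ, 0 ≤ K ∧ ∀ (Γ : Type) [AddCommGroup Γ] [Fintype Γ] [DecidableEq Γ] (M : ℕ)
      (S : Setup Γ q ρ D c₀ M), (∀ j ≤ M, chi (S.W j) univ 0 ≤ A * q ^ j) →
        ∀ (T : Finset Γ) (i : ℕ), i ≤ M → (T.card : ℝ) ≤ ρ ^ i →
          ∑ y ∈ T, tau (S.W M) univ 0 y ≤ K * q ^ i := by
  have hq := hP.q_pos
  have hρ := hP.ρ_pos
  have hr0 : 0 < q / ρ := div_pos hq hρ
  have hr1 : q / ρ < 1 := (div_lt_one hρ).mpr hP.q_lt_ρ
  have h1r : 0 < 1 - q / ρ := sub_pos.mpr hr1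
  set K : ℝ := c₀ * A ^ 2 * q ^ 2 with hK
  have hK0 : 0 ≤ K := by have := hP.hc.le; positivity
  refine ⟨A + K / (1 - q / ρ), add_nonneg (zero_le_one.trans hA) (div_nonneg hK0 h1r.le), ?_⟩
  intro Γ _ _ _ M S hχ T i hiM hT
  obtain ⟨n, rfl⟩ := Nat.exists_eq_add_of_le hiM
  have main : ∀ m, m ≤ n → ∑ y ∈ T, tau (S.W (i + m)) univ 0 y
      ≤ (A + K / (1 - q / ρ) * (1 - (q / ρ) ^ m)) * q ^ i := by
    intro m
    induction m with
    | zero =>
      intro h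
      simp only [add_zero, pow_zero, sub_self, mul_zero]
      refine le_trans ?_ (hχ i (by omega))
      rw [chi_eq_sum_tau]
      exact Finset.sum_le_sum_of_subset_of_nonneg (Finset.subset_univ _)
        fun y _ _ => tau_nonneg (S.W_nonneg i) _ _ _
    | succ m ih =>
      intro h
      have h1 := ih (by omega)
      have h2 := local_step S T (i + m) (hχ (i + m + 1) (by omega))
      have h3 : c₀ / (q * ρ) ^ (i + m) * (T.card : ℝ) * (A * q ^ (i + m + 1)) ^ 2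
          ≤ c₀ / (q * ρ) ^ (i + m) * ρ ^ i * (A * q ^ (i + m + 1)) ^ 2 :=
        mul_le_mul_of_nonneg_right
          (mul_le_mul_of_nonneg_left hT (hP.c_pos _).le) (sq_nonneg _)
      have h4 : c₀ / (q * ρ) ^ (i + m) * ρ ^ i * (A * q ^ (i + m + 1)) ^ 2
          = K * (q / ρ) ^ m * q ^ i := by
        rw [hK, div_pow, mul_pow q ρ]
        field_simp
        ring
      have h5 : (A + K / (1 - q / ρ) * (1 - (q / ρ) ^ (m + 1))) * q ^ i
          = (A + K / (1 - q / ρ) * (1 - (q / ρ) ^ m)) * q ^ i + K * (q / ρ) ^ m * q ^ i := by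
        have h6 : K / (1 - q / ρ) * (1 - q / ρ) = K := div_mul_cancel₀ _ h1r.ne'
        generalize K / (1 - q / ρ) = L at h6 ⊢
        rw [← h6]
        ring
      rw [h5, ← add_assoc i m 1]
      linarith
  refine (main n le_rfl).trans (mul_le_mul_of_nonneg_right ?_ (pow_nonneg hq.le _))
  have h7 : 0 ≤ K / (1 - q / ρ) * (q / ρ) ^ n :=
    mul_nonneg (div_nonneg hK0 h1r.le) (pow_nonneg hr0.le _)
  nlinarith

/-- the dyadic scale of a set with `t` points -/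
lemma setb_scale {d : ℕ} {α t : ℝ} (hα : 0 < α) (hd : (0 : ℝ) < d) (ht : 1 ≤ t) :
    ∃ i : ℕ, t ≤ ((2 : ℝ) ^ d) ^ i ∧ ((2 : ℝ) ^ α) ^ i ≤ 2 ^ α * t ^ (α / d) := by
  have hd' : d ≠ 0 := by rintro rfl; simp at hd
  obtain ⟨n, h1, h2⟩ := exists_nat_pow_near ht
    (one_lt_pow₀ (by norm_num : (1 : ℝ) < 2) hd')
  refine ⟨n + 1, h2.le, ?_⟩
  rw [pow_succ, mul_comm]
  refine mul_le_mul_of_nonneg_left ?_ (by positivity)
  have e : ((2 : ℝ) ^ α) ^ n = (((2 : ℝ) ^ d) ^ n) ^ (α / d) := by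
    rw [← pow_mul, ← Real.rpow_natCast, ← Real.rpow_natCast, ← Real.rpow_mul (by norm_num),
      ← Real.rpow_mul (by norm_num)]
    congr 1
    push_cast
    field_simp
  rw [e]
  exact Real.rpow_le_rpow (by positivity) h1 (by positivity)

/-- the bound below the critical point, uniformly in `β ≥ β₀`, for `3 α < d` -/
lemma setb_sub {d : ℕ} {α c β₀ : ℝ} (hα : 0 < α) (h3 : 3 * α < d) (hc : 0 < c) (hβ₀ : 0 < β₀) :
    ∃ C : ℝ, ∀ J : Sym2 (Fin d → ℤ) → ℝ, Kernel d α c J → ∀ β, β₀ ≤ β →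
      (∃ S : Finset (Fin d → ℤ), 0 ∈ S ∧ phi J β S < 1) →
      ∀ U T : Finset (Fin d → ℤ), 0 ∈ U →
        ∑ x ∈ T, tau (β • J) U 0 x ≤ C * (T.card : ℝ) ^ (α / d) := by
  have hd : (0 : ℝ) < d := by linarith
  have hP := par_torus hα h3 hc hβ₀
  obtain ⟨A, hA, hchi⟩ := chi_bound hP
  obtain ⟨K, hK0, hloc⟩ := setb_local hP hA
  refine ⟨K * 2 ^ α, fun J hK β hβ ⟨S, h0, hφ⟩ U T hU => ?_⟩
  have hβ' : 0 ≤ β := hβ₀.le.trans hβ
  rcases T.eq_empty_or_nonempty with rfl | hT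
  · rw [Finset.sum_empty]; positivity
  have hT1 : (1 : ℝ) ≤ T.card := by exact_mod_cast hT.card_pos
  obtain ⟨i, hi1, hi2⟩ := setb_scale hα hd hT1
  obtain ⟨n₁, h1⟩ := submain_chi hK hβ' h0 hφ
  obtain ⟨M, hM₁, hM₂⟩ := torusmain_pow hP.hq hP.hc (S.card / (1 - phi J β S)) i
  set n := max (max n₁ (2 ^ (M + 1))) (4 * U.sup fun x => univ.sup fun k => (x k).natAbs) with hn
  have hS : ∀ x ∈ U, ∀ k, 4 * |x k| ≤ n := by
    intro x hx k
    have h1 : (x k).natAbs ≤ univ.sup fun k => (x k).natAbs :=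
      Finset.le_sup (f := fun k => (x k).natAbs) (Finset.mem_univ k)
    have h2 : (univ.sup fun k => (x k).natAbs) ≤ U.sup fun x => univ.sup fun k => (x k).natAbs :=
      Finset.le_sup (f := fun x : Fin d → ℤ => univ.sup fun k => (x k).natAbs) hx
    have h3 : 4 * (x k).natAbs ≤ n := by omega
    rw [← Int.natCast_natAbs]
    exact_mod_cast h3
  obtain ⟨hmap, htau, -⟩ := torussl_main hK hβ' hU hS
  obtain ⟨G, hG, -⟩ := torus_setup hα h3 hc hβ₀ hK hβ M n (by omega)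
  have hw0 := wT_nonneg hK.nonneg hβ' n
  set T' : Finset (Tor d n) := univ.filter fun u => rep u ∈ T with hT'
  have hsub : T'.map (torusslEmb d n) ⊆ T := fun x hx => by
    obtain ⟨u, hu, rfl⟩ := Finset.mem_map.mp hx
    exact (Finset.mem_filter.mp hu).2
  have hcard : (T'.card : ℝ) ≤ T.card := by
    have := Finset.card_le_card hsub
    rw [Finset.card_map] at this
    exact_mod_cast this
  have h2 := hloc (Tor d n) M G (hchi (Tor d n) M G (by
    rw [hG]; exact (h1 n (by omega)).trans hM₂)) T' i hM₁ (hcard.trans hi1)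
  rw [hG] at h2
  have h4 : ∑ x ∈ T, tau (β • J) U 0 x = ∑ x ∈ T'.map (torusslEmb d n), tau (β • J) U 0 x := by
    refine (Finset.sum_subset hsub fun x hx hx' => tau_of_notMem _ _ fun h => hx' ?_).symm
    rw [← hmap] at h
    obtain ⟨u, -, rfl⟩ := Finset.mem_map.mp h
    exact Finset.mem_map_of_mem _ (Finset.mem_filter.mpr ⟨Finset.mem_univ _, hx⟩)
  rw [h4, Finset.sum_map, mul_assoc]
  refine le_trans (Finset.sum_le_sum fun u _ => ?_)
    (h2.trans (mul_le_mul_of_nonneg_left hi2 hK0))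
  exact (htau u).le.trans (tau_mono hw0 (fun _ => le_rfl) (Finset.subset_univ _) _ _)

/-- from finite volume to the lattice -/
lemma setb_lim {d : ℕ} {J : Sym2 (Fin d → ℤ) → ℝ} {β B : ℝ} (hJ : ∀ e, 0 ≤ J e) (hβ : 0 ≤ β)
    {T : Finset (Fin d → ℤ)} (h : ∀ U, 0 ∈ U → ∑ x ∈ T, tau (β • J) U 0 x ≤ B) :
    ∑ x ∈ T, twoPt J β x ≤ B := by
  refine le_of_tendsto (tendsto_finsetSum T fun x _ => tendsto_tau hJ hβ x) ?_
  filter_upwards [eventually_ge_atTop ({0} : Finset (Fin d → ℤ))] with U hU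
  exact h U (hU (mem_singleton_self _))

theorem setb_high {d : ℕ} {α c : ℝ} (hα : 0 < α) (h3 : 3 * α < d) (hc : 0 < c)
    {J : Sym2 (Fin d → ℤ) → ℝ} (hK : Kernel d α c J) :
    ∃ βc : ℝ, IsGLB (supercrit J) βc ∧ ∃ C : ℝ, ∀ T : Finset (Fin d → ℤ),
      ∑ x ∈ T, twoPt J βc x ≤ C * (T.card : ℝ) ^ (α / d) := by
  have hd : (0 : ℝ) < d := by linarith
  have hne := xlim_nonempty hα (by linarith) hc hK
  have hbdd : BddBelow (supercrit J) := ⟨0, fun β hβ => hβ.1⟩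
  set βc := sInf (supercrit J) with hβc
  have hβc0 : 0 ≤ βc := le_csInf hne fun β hβ => hβ.1
  refine ⟨βc, isGLB_csInf hne hbdd, ?_⟩
  rcases hβc0.eq_or_lt with h0 | h0
  · refine ⟨1, fun T => ?_⟩
    simp only [← h0, twoPt_zero hK.nonneg, Finset.sum_ite_eq', one_mul]
    split_ifs with h
    · exact Real.one_le_rpow (by exact_mod_cast Finset.card_pos.mpr ⟨0, h⟩) (by positivity)
    · positivity
  obtain ⟨C, hC⟩ := setb_sub hα h3 hc (half_pos h0)
  refine ⟨C, fun T => setb_lim hK.nonneg hβc0 fun U hU => ?_⟩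
  have hcont : Continuous fun b : ℝ => ∑ x ∈ T, tau (b • J) U 0 x :=
    continuous_finsetSum _ fun x _ => link_cont J U x
  refine le_of_tendsto (hcont.continuousWithinAt.tendsto (s := Set.Iio βc)) ?_
  filter_upwards [Ioo_mem_nhdsLT (half_lt_self h0)] with b hb
  obtain ⟨β, hβ, hS⟩ := dct hK (β₁ := b) (β₂ := (b + βc) / 2) (by linarith [hb.1])
    (by linarith [hb.2]) (notMem_of_lt_csInf (by linarith [hb.2]) hbdd)
  have hb0 : 0 ≤ b := by linarith [hb.1]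
  refine le_trans (Finset.sum_le_sum fun x _ => ?_) (hC J hK β (hb.1.le.trans hβ.1) hS U T hU)
  exact tau_mono (smul_nonneg' hK.nonneg hb0)
    (fun e => mul_le_mul_of_nonneg_right hβ.1 (hK.nonneg e)) subset_rfl _ _

/-- the volume tail of the infinite-volume cluster from finite-volume bounds -/
lemma setb_tail {d : ℕ} {J : Sym2 (Fin d → ℤ) → ℝ} {β B : ℝ} (hJ : ∀ e, 0 ≤ J e) (hβ : 0 ≤ β)
    {n : ℕ} (h : ∀ U, EK (β • J) U {0} (fun K => ind (n ≤ K.card)) ≤ B) :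
    perc J β {ω | (n : ℕ∞) ≤ {y | (graphOf ω).Reachable 0 y}.encard} ≤ ENNReal.ofReal B := by
  have := isProb_perc hJ hβ
  set E : Finset (Fin d → ℤ) → Set (Sym2 (Fin d → ℤ) → Bool) :=
    fun S => {ω | n ≤ (cl (S.sym2.filter fun e => ω e = true) S {0}).card} with hE
  have hcl : ∀ (ω : Sym2 (Fin d → ℤ) → Bool) {S S' : Finset (Fin d → ℤ)}, S ⊆ S' →
      cl (S.sym2.filter fun e => ω e = true) S {0}
        ⊆ cl (S'.sym2.filter fun e => ω e = true) S' {0} := fun ω S S' hS =>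
    cl_mono (Finset.filter_subset_filter (fun e => ω e = true) (Finset.sym2_mono hS)) hS
      subset_rfl
  have hmono : Monotone E := fun S S' hS ω hω =>
    le_trans hω (Finset.card_le_card (hcl ω hS))
  have hU : {ω | (n : ℕ∞) ≤ {y | (graphOf ω).Reachable 0 y}.encard} ⊆ ⋃ S, E S := by
    intro ω hω
    obtain ⟨s, hs, hn⟩ := Set.exists_subset_encard_eq (show (n : ℕ∞) ≤ _ from hω)
    obtain ⟨s, rfl⟩ := (Set.finite_of_encard_eq_coe hn).exists_finset_coe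
    rw [Set.encard_coe_eq_coe_finsetCard, Nat.cast_inj] at hn
    choose! V hV using fun y (hy : (graphOf ω).Reachable 0 y) => exists_mem_cl_of_reachable ω hy
    refine Set.mem_iUnion.mpr ⟨s.biUnion V, ?_⟩
    refine hn.ge.trans (Finset.card_le_card fun y hy => ?_)
    exact hcl ω (Finset.subset_biUnion_of_mem V hy) (hV y (hs hy))
  refine (measure_mono hU).trans
    (le_of_tendsto' (tendsto_measure_iUnion_atTop (μ := perc J β) hmono) fun S => ?_)
  rw [Function.comp_apply, ← ENNReal.ofReal_toReal (measure_ne_top (perc J β) (E S))]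
  refine ENNReal.ofReal_le_ofReal (le_trans (le_of_eq ?_) (h S))
  exact perc_cyl hJ hβ S.sym2 fun ω => n ≤ (cl ω S {0}).card

theorem setb_main {d : ℕ} {α c : ℝ} (hα : 0 < α) (hd : α < d) (h3 : 3 * α ≠ d) (hc : 0 < c)
    {J : Sym2 (Fin d → ℤ) → ℝ} (hK : Kernel d α c J) :
    ∃ βc : ℝ, IsGLB (supercrit J) βc ∧ ∃ C : ℝ,
      ∀ T : Finset (Fin d → ℤ), ∑ x ∈ T, twoPt J βc x ≤ C * (T.card : ℝ) ^ (α / d) := by
  rcases lt_or_gt_of_ne h3 with h | h
  · exact setb_high hα h hc hK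
  obtain ⟨βc, hglb, hβ, A, hA, htail⟩ := crit_tail hα hd h hc hK
  have hd0 : (0 : ℝ) < d := by linarith
  have hda : 0 < (d : ℝ) + α := by linarith
  have ha0 : 0 < ((d : ℝ) - α) / (d + α) := div_pos (by linarith) hda
  have ha1 : ((d : ℝ) - α) / (d + α) ≤ 1 / 2 := by rw [div_le_iff₀ hda]; linarith
  obtain ⟨C, hC, hset⟩ := set_of_tail hA ha0 ha1
  rw [show (1 - ((d : ℝ) - α) / (d + α)) / (1 + (d - α) / (d + α)) = α / d by
    rw [one_sub_div hda.ne', one_add_div hda.ne', div_div_div_cancel_right₀ hda.ne',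
      div_eq_div_iff (by linarith) hd0.ne']
    ring] at hset
  exact ⟨βc, hglb, C, fun T => setb_lim hK.nonneg hβ fun U _ =>
    hset _ _ (smul_nonneg' hK.nonneg hβ) U (htail U) 0 T⟩

theorem setb_volume {d : ℕ} {α c : ℝ} (hα : 0 < α) (hd : α < d) (h3 : d < 3 * α) (hc : 0 < c)
    {J : Sym2 (Fin d → ℤ) → ℝ} (hK : Kernel d α c J) :
    ∃ βc : ℝ, IsGLB (supercrit J) βc ∧ ∃ A : ℝ, ∀ n : ℕ, 1 ≤ n →
      perc J βc {ω | (n : ℕ∞) ≤ {y | (graphOf ω).Reachable 0 y}.encard}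
        ≤ ENNReal.ofReal (A * (n : ℝ) ^ (-((d - α) / (d + α)))) := by
  obtain ⟨βc, hglb, hβ, A, -, htail⟩ := crit_tail hα hd h3 hc hK
  exact ⟨βc, hglb, A, fun n hn => setb_tail hK.nonneg hβ fun U => htail U 0 n hn⟩

end Pool.Agent.Lib.MP_6fc7d9_pr
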