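import Pool.Agent.Lib.MP_6fc7d9_pr.Link
import Pool.Agent.Lib.MP_6fc7d9_pr.SL

set_option linter.unusedSectionVars false

namespace Pool.Agent.Lib.MP_6fc7d9_pr
open Finset

open Filter Topology

variable {d : ℕ} {α c β : ℝ} {J : Sym2 (Fin d → ℤ) → ℝ}

lemma subcrit_tau_shift (hK : Kernel d α c J) (β : ℝ) (S : Finset (Fin d → ℤ))
    (x u : Fin d → ℤ) :
    tau (β • J) (S.map (addRightEmbedding x)) x (u + x) = tau (β • J) S 0 u := by
  have h := EK_map (addRightEmbedding x) (β • J) (β • J) S {0}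
    (fun a _ b _ => by
      simp only [addRightEmbedding_apply, Pi.smul_apply, hK.toInv a b x])
    (fun K => ind (u + x ∈ K))
  rw [Finset.map_singleton, addRightEmbedding_apply, zero_add] at h
  unfold tau
  rw [h]
  refine EK_congr fun K _ => ind_congr ?_
  exact Finset.mem_map' (addRightEmbedding x)

lemma subcrit_tsum_shift (hK : Kernel d α c J) (u : Fin d → ℤ) :
    ∑' y, J s(u, y) = ∑' y, J s(0, y) := by
  rw [← (Equiv.subRight u).tsum_eq fun y => J s(0, y)]
  exact tsum_congr fun y => by simp [hK.inv u y]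

lemma subcrit_tail_shift (hK : Kernel d α c J) (S : Finset (Fin d → ℤ)) (x u : Fin d → ℤ) :
    tail J (u + x) (S.map (addRightEmbedding x)) = tail J u S := by
  rw [tail_eq (hK.summable' _), tail_eq (hK.summable' _), subcrit_tsum_shift hK,
    subcrit_tsum_shift hK u, Finset.sum_map]
  congr 1
  exact Finset.sum_congr rfl fun y _ => hK.toInv u y x

lemma subcrit_tail_le (hK : Kernel d α c J) (S : Finset (Fin d → ℤ)) (u : Fin d → ℤ) :
    tail J u S ≤ ∑' y, J s(0, y) := by
  rw [tail_eq (hK.summable' _), subcrit_tsum_shift hK]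
  exact sub_le_self _ (Finset.sum_nonneg fun _ _ => hK.nonneg _)

lemma subcrit_twoPt_nonneg (β : ℝ) (x : Fin d → ℤ) : 0 ≤ twoPt J β x := ENNReal.toReal_nonneg

/-- Let `X` be the maximum of `chi (β • J) U y` over `y ∈ U` (`chi = 0` off `U`, `EK_of_notMem`).
For `x ∈ U` apply `simon_lieb` with the set `(S + x) ∩ U`; `chi_le_card`, `tau_mono`, `EK_map`
along `addRightEmbedding x` (with `hK.toInv`), and `sum_le_tail` give
`chi U x ≤ |S| + phi * X`. -/
theorem chi_le_of_phi (hK : Kernel d α c J) (hβ : 0 ≤ β) {S : Finset (Fin d → ℤ)} (h0 : 0 ∈ S)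
    (hφ : phi J β S < 1) (U : Finset (Fin d → ℤ)) (x : Fin d → ℤ) :
    chi (β • J) U x ≤ S.card / (1 - phi J β S) := by
  have hw : ∀ e, 0 ≤ (β • J) e := smul_nonneg' hK.nonneg hβ
  have hpos : 0 < 1 - phi J β S := sub_pos.mpr hφ
  have hoff : ∀ y, y ∉ U → chi (β • J) U y = 0 := fun y hy => by
    unfold chi
    rw [EK_of_notMem _ hy]
    simp
  by_cases hx : x ∈ U
  swap
  · rw [hoff x hx]
    exact div_nonneg (Nat.cast_nonneg _) hpos.le
  obtain ⟨z, hz, hmax⟩ := Finset.exists_max_image U (fun y => chi (β • J) U y) ⟨x, hx⟩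
  have hX : ∀ y, chi (β • J) U y ≤ chi (β • J) U z := fun y => by
    by_cases hy : y ∈ U
    · exact hmax y hy
    · rw [hoff y hy]; exact chi_nonneg hw _ _
  refine (hX x).trans ?_
  set T := S.map (addRightEmbedding z) with hT
  have hzT : z ∈ T := by
    have := Finset.mem_map_of_mem (addRightEmbedding z) h0
    rwa [addRightEmbedding_apply, zero_add] at this
  have hSL := simon_lieb hw (S := T ∩ U) (U := U) Finset.inter_subset_right
    (Finset.mem_inter.mpr ⟨hzT, hz⟩) hX
  have h1 : chi (β • J) (T ∩ U) z ≤ S.card := by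
    refine (chi_le_card hw _ _).trans ?_
    have : (T ∩ U).card ≤ T.card := Finset.card_le_card Finset.inter_subset_left
    rw [hT, Finset.card_map] at this
    exact_mod_cast this
  have h2 : ∑ u ∈ T ∩ U, tau (β • J) (T ∩ U) z u * ∑ v ∈ U \ (T ∩ U), (β • J) s(u, v)
      ≤ phi J β S := by
    calc ∑ u ∈ T ∩ U, tau (β • J) (T ∩ U) z u * ∑ v ∈ U \ (T ∩ U), (β • J) s(u, v)
        ≤ ∑ u ∈ T ∩ U, tau (β • J) T z u * (β * tail J u T) := by
          refine Finset.sum_le_sum fun u _ => ?_
          refine mul_le_mul (tau_mono hw (fun _ => le_rfl) Finset.inter_subset_left _ _) ?_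
            (Finset.sum_nonneg fun _ _ => hw _) (tau_nonneg hw _ _ _)
          simp only [Pi.smul_apply, smul_eq_mul]
          rw [← Finset.mul_sum]
          refine mul_le_mul_of_nonneg_left (sum_le_tail hK.nonneg (hK.summable' u) ?_) hβ
          refine Finset.disjoint_left.mpr fun v hv hv' => ?_
          have := Finset.mem_sdiff.mp hv'
          exact this.2 (Finset.mem_inter.mpr ⟨hv, this.1⟩)
      _ ≤ ∑ u ∈ T, tau (β • J) T z u * (β * tail J u T) :=
          Finset.sum_le_sum_of_subset_of_nonneg Finset.inter_subset_left fun u _ _ =>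
            mul_nonneg (tau_nonneg hw _ _ _) (mul_nonneg hβ (tail_nonneg hK.nonneg _ _))
      _ = phi J β S := by
          unfold phi
          conv_lhs => rw [hT, Finset.sum_map]
          refine Finset.sum_congr rfl fun u _ => ?_
          rw [addRightEmbedding_apply, subcrit_tau_shift hK, subcrit_tail_shift hK]
  have h3 := mul_le_mul_of_nonneg_right h2 (chi_nonneg hw U z)
  rw [le_div_iff₀ hpos]
  nlinarith

/-- finite sums `∑ x ∈ T, twoPt J β x` are limits of `∑ x ∈ T, tau U 0 x ≤ chi U 0`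
(`tendsto_tau`, `chi_eq_sum_tau`, `tau_of_notMem`); `summable_of_sum_le` -/
theorem summable_twoPt (hK : Kernel d α c J) (hβ : 0 ≤ β) {S : Finset (Fin d → ℤ)} (h0 : 0 ∈ S)
    (hφ : phi J β S < 1) : Summable (twoPt J β) := by
  have hw : ∀ e, 0 ≤ (β • J) e := smul_nonneg' hK.nonneg hβ
  refine summable_of_sum_le (c := S.card / (1 - phi J β S)) (subcrit_twoPt_nonneg β) fun T => ?_
  have hl : Tendsto (fun U : Finset (Fin d → ℤ) => ∑ x ∈ T, tau (β • J) U 0 x) atTop
      (𝓝 (∑ x ∈ T, twoPt J β x)) :=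
    tendsto_finsetSum _ fun x _ => tendsto_tau hK.nonneg hβ x
  refine le_of_tendsto' hl fun U => le_trans ?_ (chi_le_of_phi hK hβ h0 hφ U 0)
  rw [chi_eq_sum_tau]
  calc ∑ x ∈ T, tau (β • J) U 0 x = ∑ x ∈ T ∩ U, tau (β • J) U 0 x := by
        refine (Finset.sum_subset Finset.inter_subset_left fun x hx hx' => ?_).symm
        exact tau_of_notMem _ _ fun h => hx' (Finset.mem_inter.mpr ⟨hx, h⟩)
    _ ≤ _ := Finset.sum_le_sum_of_subset_of_nonneg Finset.inter_subset_right
        fun _ _ _ => tau_nonneg hw _ _ _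

/-- `0 ≤ phi J β U ≤ ∑' u, twoPt J β u * (β * tail J u U)`, which tends to zero by
`tendsto_tsum_of_dominated_convergence` (`tendsto_tail`, `tail ≤ ∑' y, J s(0,y)`) -/
theorem tendsto_phi (hK : Kernel d α c J) (hβ : 0 ≤ β) (hs : Summable (twoPt J β)) :
    Tendsto (fun U : Finset (Fin d → ℤ) => phi J β U) atTop (𝓝 0) := by
  have hw : ∀ e, 0 ≤ (β • J) e := smul_nonneg' hK.nonneg hβ
  have key := tendsto_tsum_of_dominated_convergence (𝓕 := (atTop : Filter (Finset (Fin d → ℤ))))
    (f := fun U u => tau (β • J) U 0 u * (β * tail J u U)) (g := fun _ => (0 : ℝ))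
    (bound := fun u => twoPt J β u * (β * ∑' y, J s(0, y))) (hs.mul_right _)
    (fun u => by
      have := (tendsto_tau hK.nonneg hβ u).mul ((tendsto_tail J u).const_mul β)
      simpa using this)
    (Eventually.of_forall fun U u => by
      have a1 := tau_nonneg hw U 0 u
      have a2 := mul_nonneg hβ (tail_nonneg hK.nonneg u U)
      rw [Real.norm_of_nonneg (mul_nonneg a1 a2)]
      exact mul_le_mul (tau_le_twoPt hK.nonneg hβ U u)
        (mul_le_mul_of_nonneg_left (subcrit_tail_le hK U u) hβ) a2 (subcrit_twoPt_nonneg β u))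
  rw [tsum_zero] at key
  refine key.congr fun U => ?_
  unfold phi
  exact tsum_eq_sum fun u hu => by rw [tau_of_notMem _ _ hu, zero_mul]

/-- dominated convergence again (`tau_of_notMem` turns the finite sum into a `tsum`) -/
theorem tendsto_sum_tau (hK : Kernel d α c J) (hβ : 0 ≤ β) (hs : Summable (twoPt J β))
    (g : (Fin d → ℤ) → ℂ) (hg : ∀ x, ‖g x‖ ≤ 1) :
    Tendsto (fun U : Finset (Fin d → ℤ) => ∑ x ∈ U, (tau (β • J) U 0 x : ℂ) * g x) atTop
      (𝓝 (∑' x, (twoPt J β x : ℂ) * g x)) := by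
  have hw : ∀ e, 0 ≤ (β • J) e := smul_nonneg' hK.nonneg hβ
  have key := tendsto_tsum_of_dominated_convergence (𝓕 := (atTop : Filter (Finset (Fin d → ℤ))))
    (f := fun U u => (tau (β • J) U 0 u : ℂ) * g u) (g := fun u => (twoPt J β u : ℂ) * g u)
    (bound := twoPt J β) hs
    (fun u => ((Complex.continuous_ofReal.tendsto _).comp (tendsto_tau hK.nonneg hβ u)).mul_const _)
    (Eventually.of_forall fun U u => by
      have a1 := tau_nonneg hw U 0 u
      rw [norm_mul, Complex.norm_real, Real.norm_of_nonneg a1]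
      exact (mul_le_of_le_one_right a1 (hg u)).trans (tau_le_twoPt hK.nonneg hβ U u))
  refine key.congr fun U => ?_
  exact tsum_eq_sum fun u hu => by rw [tau_of_notMem _ _ hu]; simp

end Pool.Agent.Lib.MP_6fc7d9_pr
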