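import Pool.Agent.Lib.MP_6fc7d9_pr.Torus
import Pool.Agent.Lib.MP_6fc7d9_pr.SL
import Pool.Agent.Lib.MP_6fc7d9_pr.Group

set_option linter.unusedSectionVars false

namespace Pool.Agent.Lib.MP_6fc7d9_pr
open Finset

lemma torussl_add {d : ℕ} (n : ℕ) (x y : Fin d → ℤ) : proj n (x + y) = proj n x + proj n y := by
  funext i; simp [proj]

lemma torussl_sub {d : ℕ} (n : ℕ) (x y : Fin d → ℤ) : proj n (x - y) = proj n x - proj n y := by
  funext i; simp [proj]

lemma torussl_zero {d n : ℕ} : rep (0 : Tor d n) = 0 := by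
  funext i; simp [rep]

/-- the embedding of the torus into the lattice -/
def torusslEmb (d n : ℕ) : Tor d n ↪ (Fin d → ℤ) :=
  ⟨rep, fun u v h => by rw [← proj_rep u, ← proj_rep v, h]⟩

lemma torussl_main {d : ℕ} {α c β : ℝ} {J : Sym2 (Fin d → ℤ) → ℝ} (hK : Kernel d α c J)
    (hβ : 0 ≤ β) {S : Finset (Fin d → ℤ)} (h0 : 0 ∈ S) {n : ℕ}
    (hS : ∀ x ∈ S, ∀ k, 4 * |x k| ≤ n) :
    (S.image (proj n)).map (torusslEmb d n) = S ∧
    (∀ u, tau (β • J) S 0 (rep u) = tau (wT J β n) (S.image (proj n)) 0 u) ∧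
    chi (wT J β n) univ 0
      ≤ chi (wT J β n) (S.image (proj n)) 0 + phi J β S * chi (wT J β n) univ 0 := by
  have hrp : ∀ x ∈ S, rep (proj n x) = x := fun x hx => rep_proj x fun k => by
    have := hS x hx k
    have := abs_nonneg (x k)
    linarith
  have hmem : ∀ u, u ∈ S.image (proj n) → rep u ∈ S := by
    intro u hu
    obtain ⟨x, hx, rfl⟩ := Finset.mem_image.mp hu
    rwa [hrp x hx]
  have hmap : (S.image (proj n)).map (torusslEmb d n) = S := by
    ext x
    constructor
    · intro hx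
      obtain ⟨u, hu, rfl⟩ := Finset.mem_map.mp hx
      exact hmem u hu
    · intro hx
      exact Finset.mem_map.mpr ⟨proj n x, Finset.mem_image_of_mem _ hx, hrp x hx⟩
  have hsub : ∀ u ∈ S.image (proj n), ∀ v ∈ S.image (proj n), rep (v - u) = rep v - rep u := by
    intro u hu v hv
    have h1 : v - u = proj n (rep v - rep u) := by rw [torussl_sub, proj_rep, proj_rep]
    rw [h1]
    refine rep_proj _ fun k => ?_
    have h2 := hS _ (hmem u hu) k
    have h3 := hS _ (hmem v hv) k
    have h4 := abs_sub (rep v k) (rep u k)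
    rw [Pi.sub_apply]
    linarith
  have hw : ∀ u ∈ S.image (proj n), ∀ v ∈ S.image (proj n),
      (β • J) s(torusslEmb d n u, torusslEmb d n v) = wT J β n s(u, v) := by
    intro u hu v hv
    rw [wT_mk, hsub u hu v hv, hsub v hv u hu, ← hK.inv, ← hK.inv,
      Sym2.eq_swap (a := rep v), min_self]
    rfl
  have hz : ({0} : Finset (Tor d n)).map (torusslEmb d n) = {0} := by
    rw [Finset.map_singleton]
    exact congrArg _ torussl_zero
  have htau : ∀ u, tau (β • J) S 0 (rep u) = tau (wT J β n) (S.image (proj n)) 0 u := by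
    intro u
    have := EK_map (torusslEmb d n) (wT J β n) (β • J) (S.image (proj n)) {0} hw
      fun K => ind (rep u ∈ K)
    rw [hmap, hz] at this
    unfold tau
    rw [this]
    exact EK_congr fun K _ => ind_congr (Finset.mem_map' (torusslEmb d n))
  refine ⟨hmap, htau, ?_⟩
  have hw0 := wT_nonneg hK.nonneg hβ n
  have h0' : (0 : Tor d n) ∈ S.image (proj n) :=
    Finset.mem_image.mpr ⟨0, h0, by rw [← torussl_zero (n := n), proj_rep]⟩
  refine (simon_lieb hw0 (Finset.subset_univ _) h0'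
    fun y => (chi_shift (wT_inv J β n) y).le).trans ?_
  refine add_le_add le_rfl (mul_le_mul_of_nonneg_right ?_ (chi_nonneg hw0 _ _))
  have hphi : phi J β S = ∑ u ∈ S.image (proj n),
      tau (β • J) S 0 (rep u) * (β * tail J (rep u) S) := by
    have := Finset.sum_map (S.image (proj n)) (torusslEmb d n)
      fun x => tau (β • J) S 0 x * (β * tail J x S)
    rw [hmap] at this
    exact this
  rw [hphi]
  refine Finset.sum_le_sum fun u _ => ?_
  rw [htau]
  refine mul_le_mul_of_nonneg_left ?_ (tau_nonneg hw0 _ _ _)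
  have hf : ∀ v : Tor d n, proj n (rep u + rep (v - u)) = v := fun v => by
    rw [torussl_add, proj_rep, proj_rep, add_sub_cancel]
  have hinj : Set.InjOn (fun v : Tor d n => rep u + rep (v - u))
      ((univ \ S.image (proj n) : Finset (Tor d n)) : Set (Tor d n)) := fun v _ v' _ h => by
    have h' : rep u + rep (v - u) = rep u + rep (v' - u) := h
    rw [← hf v, h', hf]
  have hdis : Disjoint S ((univ \ S.image (proj n)).image fun v => rep u + rep (v - u)) := by
    rw [Finset.disjoint_left]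
    intro x hx hx'
    obtain ⟨v, hv, rfl⟩ := Finset.mem_image.mp hx'
    refine (Finset.mem_sdiff.mp hv).2 ?_
    exact Finset.mem_image.mpr ⟨_, hx, hf v⟩
  have h1 := sum_le_tail hK.nonneg (hK.summable' (rep u)) hdis
  rw [Finset.sum_image hinj] at h1
  refine le_trans ?_ (mul_le_mul_of_nonneg_left h1 hβ)
  rw [Finset.mul_sum]
  refine Finset.sum_le_sum fun v _ => ?_
  rw [wT_mk, hK.inv (rep u), add_sub_cancel_left]
  exact mul_le_mul_of_nonneg_left (min_le_left _ _) hβ

/-- Simon-Lieb on the torus.  Choose `n₀` with `4 * |x k| ≤ n₀` for all `x ∈ S`.  `proj n` is not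
injective, so transport from the torus to the lattice along the embedding `ι = ⟨rep, _⟩`
(injective by `proj_rep`): with `S' = S.image (proj n)` one has `S'.map ι = S` (`rep_proj`), and
`(β • J) s(rep u, rep v) = wT J β n s(u, v)` on `S'` (`rep (v - u) = rep v - rep u` by `rep_proj`,
`hK.inv`, `Sym2.eq_swap`), so `EK_map` identifies `tau`, `chi`, `GG` in `S'` with those in `S`.
For `u ∈ S'`, `v ↦ rep u + rep (v - u)` is injective and sends `univ \ S'` outside `S`, so
`∑ v ∈ univ \ S', wT s(u,v) ≤ β * tail J (rep u) S` (`min_le_left`, `sum_le_tail`).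
Conclude with `simon_lieb` (`chi_shift`, `wT_inv`), `norm_GG_sub_le`, `GG_eq_sum_tau`. -/
theorem torus_sl {d : ℕ} {α c β : ℝ} {J : Sym2 (Fin d → ℤ) → ℝ} (hK : Kernel d α c J)
    (hβ : 0 ≤ β) {S : Finset (Fin d → ℤ)} (h0 : 0 ∈ S) :
    ∃ n₀ : ℕ, ∀ n, n₀ ≤ n →
      chi (wT J β n) univ 0 ≤ S.card + phi J β S * chi (wT J β n) univ 0 ∧
      ∀ g : (Fin d → ℤ) → ℂ, (∀ x, ‖g x‖ ≤ 1) →
        ‖GG (wT J β n) univ {0} (fun x => g (rep x)) - ∑ x ∈ S, (tau (β • J) S 0 x : ℂ) * g x‖
          ≤ phi J β S * chi (wT J β n) univ 0 := by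
  refine ⟨4 * S.sup fun x => univ.sup fun k => (x k).natAbs, fun n hn => ?_⟩
  have hS : ∀ x ∈ S, ∀ k, 4 * |x k| ≤ n := by
    intro x hx k
    have h1 : (x k).natAbs ≤ univ.sup fun k => (x k).natAbs :=
      Finset.le_sup (f := fun k => (x k).natAbs) (Finset.mem_univ k)
    have h2 : (univ.sup fun k => (x k).natAbs) ≤ S.sup fun x => univ.sup fun k => (x k).natAbs :=
      Finset.le_sup (f := fun x : Fin d → ℤ => univ.sup fun k => (x k).natAbs) hx
    have h3 : 4 * (x k).natAbs ≤ n := by omega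
    rw [← Int.natCast_natAbs]
    exact_mod_cast h3
  obtain ⟨hmap, htau, hsl⟩ := torussl_main hK hβ h0 hS
  have hw0 := wT_nonneg hK.nonneg hβ n
  refine ⟨hsl.trans (add_le_add ((chi_le_card hw0 _ _).trans ?_) le_rfl), fun g hg => ?_⟩
  · exact_mod_cast Finset.card_image_le
  · have h1 : ∑ x ∈ S, (tau (β • J) S 0 x : ℂ) * g x
        = GG (wT J β n) (S.image (proj n)) {0} fun x => g (rep x) := by
      have := Finset.sum_map (S.image (proj n)) (torusslEmb d n)
        fun x => (tau (β • J) S 0 x : ℂ) * g x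
      rw [hmap] at this
      rw [this, GG_eq_sum_tau]
      refine Finset.sum_congr rfl fun u _ => ?_
      rw [← htau, Complex.real_smul]
      rfl
    rw [h1]
    refine (norm_GG_sub_le hw0 (Finset.subset_univ _) 0 fun y => hg _).trans ?_
    linarith

end Pool.Agent.Lib.MP_6fc7d9_pr
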