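import Pool.Agent.Lib.MP_6fc7d9_pr.TorusMain
import Pool.Agent.Lib.MP_6fc7d9_pr.TorusSL
import Pool.Agent.Lib.MP_6fc7d9_pr.Subcrit

set_option linter.unusedSectionVars false

namespace Pool.Agent.Lib.MP_6fc7d9_pr
open Finset

open Filter Topology

theorem submain_floor (t : ℝ) (n : ℕ) :
    |2 * Real.pi * (⌊((n : ℝ) + 1) * t / (2 * Real.pi)⌋ : ℤ) / (n + 1) - t|
      ≤ 2 * Real.pi / (n + 1) := by
  have hp : 0 < 2 * Real.pi := by positivity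
  have hn : (0 : ℝ) < n + 1 := by positivity
  set u := ((n : ℝ) + 1) * t / (2 * Real.pi) with hu
  have e : 2 * Real.pi * (⌊u⌋ : ℤ) / (n + 1) - t = 2 * Real.pi / (n + 1) * ((⌊u⌋ : ℤ) - u) := by
    rw [hu]; field_simp
  rw [e, abs_mul, abs_of_pos (div_pos hp hn)]
  refine mul_le_of_le_one_right (div_pos hp hn).le (abs_le.2 ⟨?_, ?_⟩)
  · linarith [Int.lt_floor_add_one u]
  · linarith [Int.floor_le u]

theorem submain_tendsto (t : ℝ) :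
    Tendsto (fun n : ℕ => 2 * Real.pi * (⌊((n : ℝ) + 1) * t / (2 * Real.pi)⌋ : ℤ) / (n + 1))
      atTop (𝓝 t) := by
  rw [tendsto_iff_norm_sub_tendsto_zero]
  refine squeeze_zero (fun _ => norm_nonneg _) (fun n => submain_floor t n) ?_
  have := tendsto_one_div_add_atTop_nhds_zero_nat (𝕜 := ℝ).const_mul (2 * Real.pi)
  simpa [div_eq_mul_inv] using this

theorem submain_chi {d : ℕ} {α c β : ℝ} {J : Sym2 (Fin d → ℤ) → ℝ} (hK : Kernel d α c J)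
    (hβ : 0 ≤ β) {S : Finset (Fin d → ℤ)} (h0 : 0 ∈ S) (hφ : phi J β S < 1) :
    ∃ n₀ : ℕ, ∀ n, n₀ ≤ n → chi (wT J β n) univ 0 ≤ S.card / (1 - phi J β S) := by
  obtain ⟨n₀, h⟩ := torus_sl hK hβ h0
  refine ⟨n₀, fun n hn => ?_⟩
  rw [le_div_iff₀ (sub_pos.2 hφ)]
  linarith [(h n hn).1]

/-- The Fourier bound in the subcritical regime, uniformly in `β ≥ β₀`.
Let `X = |S| / (1 - phi S)`; by `torus_sl` for `S`, `chi (wT J β n) univ 0 ≤ X` for large `n`.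
Fix `U ∋ 0`; with `k i = ⌊(n+1) θ i / (2π)⌋`, `torus_bound` and `torus_sl` for `U` give
`‖∑ x ∈ U, tau U 0 x * exp (I ∑ i, θⁿ i * x i)‖ ≤ C euc θ ^ (-α) + phi U * X` for large `n`; let
`n → ∞` (`θⁿ → θ`, continuity of the finite sum), then `U → ∞` (`tendsto_phi`, `tendsto_sum_tau`). -/
theorem subcrit_bound {d : ℕ} {α c β₀ : ℝ} (hα : 0 < α) (h3 : 3 * α < d) (hc : 0 < c)
    (hβ₀ : 0 < β₀) :
    ∃ C : ℝ, ∀ J : Sym2 (Fin d → ℤ) → ℝ, Kernel d α c J → ∀ β, β₀ ≤ β →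
      (∃ S : Finset (Fin d → ℤ), 0 ∈ S ∧ phi J β S < 1) → ∀ θ ∈ cube d, θ ≠ 0 →
        ‖∑' x : Fin d → ℤ, (twoPt J β x : ℂ) *
            Complex.exp (Complex.I * ((∑ i, θ i * x i : ℝ) : ℂ))‖ ≤ C * euc θ ^ (-α) := by
  obtain ⟨C, hC⟩ := torus_bound hα h3 hc hβ₀
  refine ⟨C, fun J hK β hβ ⟨S, h0, hφ⟩ θ hθ hθ0 => ?_⟩
  have hβ' : 0 ≤ β := hβ₀.le.trans hβ
  have hs := summable_twoPt hK hβ' h0 hφ
  set X : ℝ := S.card / (1 - phi J β S) with hX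
  obtain ⟨n₁, h1⟩ := submain_chi hK hβ' h0 hφ
  obtain ⟨n₂, h2⟩ := hC J hK β hβ X θ hθ hθ0
  have hnorm : ∀ (t : Fin d → ℝ) (x : Fin d → ℤ),
      ‖Complex.exp (Complex.I * ((∑ i, t i * x i : ℝ) : ℂ))‖ ≤ 1 := fun t x =>
    (Complex.norm_exp_I_mul_ofReal _).le
  have key : ∀ U : Finset (Fin d → ℤ), 0 ∈ U →
      ‖∑ x ∈ U, (tau (β • J) U 0 x : ℂ) * Complex.exp (Complex.I * ((∑ i, θ i * x i : ℝ) : ℂ))‖
        ≤ C * euc θ ^ (-α) + phi J β U * X := by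
    intro U hU
    obtain ⟨n₃, h4⟩ := torus_sl hK hβ' hU
    let k : ℕ → Fin d → ℤ := fun n i => ⌊((n : ℝ) + 1) * θ i / (2 * Real.pi)⌋
    let t : ℕ → Fin d → ℝ := fun n i => 2 * Real.pi * k n i / (n + 1)
    have ht : Tendsto t atTop (𝓝 θ) := tendsto_pi_nhds.2 fun i => submain_tendsto (θ i)
    have hcont : Continuous fun u : Fin d → ℝ => ‖∑ x ∈ U, (tau (β • J) U 0 x : ℂ) *
        Complex.exp (Complex.I * ((∑ i, u i * x i : ℝ) : ℂ))‖ := by fun_prop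
    refine le_of_tendsto ((hcont.tendsto θ).comp ht) ?_
    filter_upwards [eventually_ge_atTop n₁, eventually_ge_atTop n₂, eventually_ge_atTop n₃]
      with n e1 e2 e3
    have h5 := h2 n e2 (k n) (fun i => submain_floor (θ i) n) (h1 n e1)
    have h6 := (h4 n e3).2 _ (hnorm (t n))
    have h7 : 0 ≤ phi J β U := sum_nonneg fun u _ => mul_nonneg
      (tau_nonneg (smul_nonneg' hK.nonneg hβ') _ _ _) (mul_nonneg hβ' (tail_nonneg hK.nonneg _ _))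
    have h8 := mul_le_mul_of_nonneg_left (h1 n e1) h7
    have h9 := norm_le_norm_add_norm_sub (GG (wT J β n) univ {0} (chr n (k n)))
      (∑ x ∈ U, (tau (β • J) U 0 x : ℂ) *
        Complex.exp (Complex.I * ((∑ i, t n i * x i : ℝ) : ℂ)))
    exact h9.trans (add_le_add h5 (h6.trans h8))
  have h5 := (tendsto_sum_tau hK hβ' hs _ (hnorm θ)).norm
  have h6 := ((tendsto_phi hK hβ' hs).mul_const X).const_add (C * euc θ ^ (-α))
  rw [zero_mul, add_zero] at h6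
  refine le_of_tendsto_of_tendsto h5 h6 ?_
  filter_upwards [eventually_ge_atTop ({0} : Finset (Fin d → ℤ))] with U hU
  exact key U (hU (mem_singleton_self _))

/-- from `torus_large` and the first part of `torus_sl` -/
theorem one_le_phi {d : ℕ} {α c : ℝ} (hα : 0 < α) (h3 : 3 * α < d) (hc : 0 < c)
    {J : Sym2 (Fin d → ℤ) → ℝ} (hK : Kernel d α c J) :
    ∃ β₁ : ℝ, 0 < β₁ ∧ ∀ β, β₁ ≤ β → ∀ S : Finset (Fin d → ℤ), 0 ∈ S → 1 ≤ phi J β S := by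
  obtain ⟨β₁, h1, h2⟩ := torus_large hα h3 hc
  refine ⟨β₁, h1, fun β hβ S h0 => ?_⟩
  by_contra hφ
  obtain ⟨n₁, h4⟩ := submain_chi hK (h1.le.trans hβ) h0 (not_le.1 hφ)
  obtain ⟨n₂, h5⟩ := h2 J hK β hβ (S.card / (1 - phi J β S))
  exact absurd (h4 _ (le_max_left n₁ n₂)) (not_le.2 (h5 _ (le_max_right n₁ n₂)))

end Pool.Agent.Lib.MP_6fc7d9_pr
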