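import Pool.Agent.Lib.MP_6fc7d9_pr.Defs

set_option linter.unusedSectionVars false

namespace Pool.Agent.Lib.MP_6fc7d9_pr
open Finset

lemma torus_mem_box {d n i : ℕ} {x : Tor d n} : x ∈ box d n i ↔ ∀ k, |rep x k| ≤ 2 ^ i := by
  simp [box]

lemma torus_card_pi (d i : ℕ) :
    ((Fintype.piFinset fun _ : Fin d => Finset.Icc (-(2 : ℤ) ^ i) (2 ^ i)).card : ℝ)
      = (2 * 2 ^ i + 1) ^ d := by
  rw [Fintype.card_piFinset]
  have h : ((Finset.Icc (-(2 : ℤ) ^ i) (2 ^ i)).card : ℤ) = 2 * 2 ^ i + 1 := by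
    rw [Int.card_Icc_of_le _ _ (by have : (0 : ℤ) < 2 ^ i := by positivity
                                   linarith)]
    ring
  have h' : ((Finset.Icc (-(2 : ℤ) ^ i) (2 ^ i)).card : ℝ) = 2 * 2 ^ i + 1 := by exact_mod_cast h
  rw [Finset.prod_const, Finset.card_univ, Fintype.card_fin, Nat.cast_pow, h']

/-- the projection restricted to a box is inverted by `rep` (`ZMod.valMinAbs_spec` or
`ZMod.valMinAbs_intCast`-type lemmas) -/
theorem rep_proj {d n : ℕ} (x : Fin d → ℤ) (hx : ∀ k, 2 * |x k| ≤ n) : rep (proj n x) = x := by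
  funext k
  have := hx k
  have h1 := le_abs_self (x k)
  have h2 := neg_abs_le (x k)
  refine (ZMod.valMinAbs_spec _ _).mpr ⟨rfl, ?_, ?_⟩ <;> push_cast <;> omega

/-- for `2^(i+1) ≤ n` the box is the injective image of the integer box -/
theorem sum_box {E : Type*} [AddCommMonoid E] {d n i : ℕ} (hn : 2 ^ (i + 1) ≤ n)
    (f : (Fin d → ℤ) → E) :
    ∑ x ∈ box d n i, f (rep x)
      = ∑ y ∈ Fintype.piFinset fun _ : Fin d => Finset.Icc (-(2 : ℤ) ^ i) (2 ^ i), f y := by
  have hn' : (2 : ℤ) * 2 ^ i ≤ n := by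
    have : ((2 ^ (i + 1) : ℕ) : ℤ) ≤ n := by exact_mod_cast hn
    push_cast at this
    rw [pow_succ] at this
    linarith
  have key : ∀ y ∈ Fintype.piFinset fun _ : Fin d => Finset.Icc (-(2 : ℤ) ^ i) (2 ^ i),
      rep (proj n y) = y := fun y hy => rep_proj y fun k => by
    have := abs_le.mpr (Finset.mem_Icc.mp (Fintype.mem_piFinset.mp hy k))
    linarith
  refine Finset.sum_nbij' rep (proj n) ?_ ?_ ?_ ?_ ?_
  · intro x hx
    exact Fintype.mem_piFinset.mpr fun k => Finset.mem_Icc.mpr (abs_le.mp (torus_mem_box.mp hx k))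
  · intro y hy
    refine torus_mem_box.mpr fun k => ?_
    rw [key y hy]
    exact abs_le.mpr (Finset.mem_Icc.mp (Fintype.mem_piFinset.mp hy k))
  · intro x _
    exact proj_rep x
  · exact key
  · intro x _
    rfl

/-- `rep` is injective (`proj_rep`) and maps the box into the integer box -/
theorem card_box_le (d n i : ℕ) : ((box d n i).card : ℝ) ≤ 3 ^ d * (2 ^ d) ^ i := by
  have h1 : (box d n i).card
      ≤ (Fintype.piFinset fun _ : Fin d => Finset.Icc (-(2 : ℤ) ^ i) (2 ^ i)).card := by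
    refine Finset.card_le_card_of_injOn rep ?_ ?_
    · intro x hx
      exact Finset.mem_coe.mpr (Fintype.mem_piFinset.mpr fun k =>
        Finset.mem_Icc.mpr (abs_le.mp (torus_mem_box.mp hx k)))
    · intro x _ y _ h
      rw [← proj_rep x, h, proj_rep]
  have h2 : ((box d n i).card : ℝ) ≤ (2 * 2 ^ i + 1) ^ d := by
    rw [← torus_card_pi]
    exact_mod_cast h1
  refine h2.trans ?_
  rw [← pow_mul, mul_comm d i, pow_mul, ← mul_pow]
  have h3 : (1 : ℝ) ≤ 2 ^ i := one_le_pow₀ (by norm_num)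
  exact pow_le_pow_left₀ (by positivity) (by linarith) d

theorem par_torus {d : ℕ} {α c β₀ : ℝ} (hα : 0 < α) (h3 : 3 * α < d) (hc : 0 < c)
    (hβ₀ : 0 < β₀) : Par ((2 : ℝ) ^ α) (2 ^ d) (8 * 3 ^ d) (cZero d α c β₀) := by
  have hd : (0 : ℝ) < d := by linarith
  have hd' : 1 ≤ d := by exact_mod_cast (Nat.cast_pos.mp hd)
  refine ⟨Real.one_lt_rpow (by norm_num) hα, ?_, ?_, ?_, ?_⟩
  · rw [← Real.rpow_natCast, ← Real.rpow_mul (by norm_num), ← Real.rpow_natCast]
    exact Real.rpow_lt_rpow_of_exponent_lt (by norm_num) (by push_cast; linarith)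
  · exact le_self_pow₀ (by norm_num) (by omega)
  · have : (1 : ℝ) ≤ 3 ^ d := one_le_pow₀ (by norm_num)
    linarith
  · unfold cZero
    have := Real.rpow_pos_of_pos hd (-((d : ℝ) + α) / 2)
    positivity

lemma torus_zero_mem {d n i : ℕ} : (0 : Tor d n) ∈ box d n i :=
  torus_mem_box.mpr fun k => by simp [rep]

lemma torus_neg_mem {d n i : ℕ} {x : Tor d n} (hx : x ∈ box d n i) : -x ∈ box d n i :=
  torus_mem_box.mpr fun k => by
    have h1 := torus_mem_box.mp hx k
    have h2 := ZMod.natAbs_valMinAbs_neg (x k)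
    simp only [rep, Pi.neg_apply] at h1 ⊢
    rw [Int.abs_eq_natAbs] at h1 ⊢
    rwa [h2]

lemma torus_add_mem {d n i : ℕ} {x y : Tor d n} (hx : x ∈ box d n i) (hy : y ∈ box d n i) :
    x + y ∈ box d n (i + 1) :=
  torus_mem_box.mpr fun k => by
    have h1 := torus_mem_box.mp hx k
    have h2 := torus_mem_box.mp hy k
    have h3 := ZMod.natAbs_valMinAbs_add_le (x k) (y k)
    simp only [rep, Pi.add_apply] at h1 h2 ⊢
    have h4 : |(x k + y k).valMinAbs| ≤ |(x k).valMinAbs + (y k).valMinAbs| := by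
      rw [Int.abs_eq_natAbs, Int.abs_eq_natAbs]
      exact_mod_cast h3
    have h5 := abs_add_le (x k).valMinAbs (y k).valMinAbs
    rw [pow_succ]
    linarith

lemma torus_rep_ne {d n : ℕ} {x : Tor d n} (hx : x ≠ 0) : rep x ≠ 0 := fun h => hx (by
  rw [← proj_rep x, h]
  funext k
  simp [proj])

/-- indicator kernels of the punctured boxes -/
noncomputable def torusK (d n : ℕ) (r : ℕ → ℝ) (j : ℕ) : Sym2 (Tor d n) → ℝ :=
  Sym2.lift ⟨fun u v => if v - u ∈ (box d n j).erase 0 then r j else 0, fun u v => by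
    have key : ∀ x : Tor d n, x ∈ (box d n j).erase 0 → -x ∈ (box d n j).erase 0 := fun x hx =>
      Finset.mem_erase.mpr ⟨neg_ne_zero.mpr (Finset.mem_erase.mp hx).1,
        torus_neg_mem (Finset.mem_erase.mp hx).2⟩
    refine if_congr ⟨fun h => ?_, fun h => ?_⟩ rfl rfl
    · simpa using key _ h
    · simpa using key _ h⟩

lemma torusK_mk (d n : ℕ) (r : ℕ → ℝ) (j : ℕ) (u v : Tor d n) :
    torusK d n r j s(u, v) = if v - u ∈ (box d n j).erase 0 then r j else 0 := rfl

lemma torus_geom {a x : ℝ} (ha : 0 ≤ a) (hx : 2 ≤ x) (i M : ℕ) :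
    ∑ j ∈ Finset.Ico i M, a / x ^ j ≤ 2 * (a / x ^ i) := by
  have hx0 : 0 < x := by linarith
  have h1 : x⁻¹ ≤ 1 / 2 := by
    rw [one_div]
    exact inv_anti₀ (by norm_num) hx
  have h2 := geom_sum_Ico_le_of_lt_one (x := x⁻¹) (m := i) (n := M) (by positivity) (by linarith)
  have h3 : x⁻¹ ^ i / (1 - x⁻¹) ≤ 2 * x⁻¹ ^ i := by
    rw [div_le_iff₀ (by linarith)]
    have : 0 ≤ x⁻¹ ^ i := by positivity
    nlinarith
  simp only [div_eq_mul_inv a, ← inv_pow]
  rw [← Finset.mul_sum]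
  nlinarith [mul_le_mul_of_nonneg_left (h2.trans h3) ha]

lemma torus_lower {d : ℕ} {α c : ℝ} (hα : 0 < α) (hc : 0 < c) (hd : (0 : ℝ) < d)
    {J : Sym2 (Fin d → ℤ) → ℝ} (hK : Kernel d α c J) (z : Fin d → ℤ) (hz : z ≠ 0) (i : ℕ)
    (hb : ∀ k, |z k| ≤ 2 ^ i) :
    c * (d : ℝ) ^ (-((d : ℝ) + α) / 2) / ((2 : ℝ) ^ α * 2 ^ d) ^ i ≤ J s(0, z) := by
  refine le_trans ?_ (hK.lower 0 z hz.symm)
  rw [mul_div_assoc]
  refine mul_le_mul_of_nonneg_left ?_ hc.le
  have h1 : 0 < euc fun k => (((0 : Fin d → ℤ) k - z k : ℤ) : ℝ) := by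
    obtain ⟨k, hk⟩ := Function.ne_iff.mp hz
    refine Real.sqrt_pos.mpr (Finset.sum_pos' (fun _ _ => sq_nonneg _) ⟨k, Finset.mem_univ _, ?_⟩)
    have : (z k : ℝ) ≠ 0 := by exact_mod_cast hk
    simp only [Pi.zero_apply, zero_sub, Int.cast_neg, neg_sq]
    positivity
  have h2 : (euc fun k => (((0 : Fin d → ℤ) k - z k : ℤ) : ℝ)) ≤ √d * 2 ^ i := by
    unfold euc
    rw [Real.sqrt_le_left (by positivity), mul_pow, Real.sq_sqrt hd.le]
    calc _ ≤ ∑ _k : Fin d, ((2 : ℝ) ^ i) ^ 2 := by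
          refine Finset.sum_le_sum fun k _ => ?_
          have h3 : |(z k : ℝ)| ≤ 2 ^ i := by exact_mod_cast hb k
          simp only [Pi.zero_apply, zero_sub, Int.cast_neg, neg_sq]
          exact sq_le_sq' (abs_le.mp h3).1 (abs_le.mp h3).2
      _ = _ := by simp
  refine le_trans (le_of_eq ?_) (Real.rpow_le_rpow_of_nonpos h1 h2 (by linarith))
  rw [Real.mul_rpow (by positivity) (by positivity), Real.sqrt_eq_rpow, ← Real.rpow_mul hd.le,
    Real.rpow_neg (by positivity : (0 : ℝ) ≤ 2 ^ i), div_eq_mul_inv]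
  congr 1
  · congr 1
    ring
  · congr 1
    rw [← Real.rpow_natCast (2 : ℝ) d, ← Real.rpow_add (by norm_num), ← Real.rpow_natCast,
      ← Real.rpow_natCast (2 : ℝ) i, ← Real.rpow_mul (by norm_num), ← Real.rpow_mul (by norm_num)]
    congr 1
    ring

/-- The torus with the kernel `wT J β n` carries the multi-stage structure.
`κ j = Sym2.lift` of the indicator kernel of `(box d n j).erase 0`,
`W j = wT J β n - ∑ i ∈ range M, κ i + ∑ i ∈ range j, κ i`.
Box properties: `ZMod.natAbs_valMinAbs_neg`, `ZMod.natAbs_valMinAbs_add_le`, `sum_box` with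
`f = 1` for the lower bound `(2 * 2^i + 1)^d - 1 ≥ (2^d)^i`.
Nonnegativity of `W 0` at `s(u,v)`, `y = v - u ≠ 0`: let `i` be least with `y ∈ box d n i`
(if there is none with `i < M` the sum is zero); `∑_{j ≥ i} c₀ / (qρ)^j ≤ 2 c₀ / (qρ)^i` since
`q ρ ≥ 2`; `euc (rep y) ≤ √d * 2^i`, the same for `rep (-y)`, both are nonzero, so by `hK.lower`
(with `x = 0`) both values of `J` are at least `c * (√d * 2^i)^(-(d+α)) = c d^(-(d+α)/2) / (qρ)^i`. -/
theorem torus_setup {d : ℕ} {α c β₀ : ℝ} (hα : 0 < α) (h3 : 3 * α < d) (hc : 0 < c)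
    (hβ₀ : 0 < β₀) {J : Sym2 (Fin d → ℤ) → ℝ} (hK : Kernel d α c J) {β : ℝ} (hβ : β₀ ≤ β)
    (M n : ℕ) (hn : 2 ^ (M + 1) ≤ n) :
    ∃ S : Setup (Tor d n) ((2 : ℝ) ^ α) (2 ^ d) (8 * 3 ^ d) (cZero d α c β₀) M,
      S.W M = wT J β n ∧ ∀ i, S.Λ i = box d n i := by
  have par := par_torus hα h3 hc hβ₀
  have hd : (0 : ℝ) < d := by linarith
  have hd' : 1 ≤ d := by exact_mod_cast (Nat.cast_pos.mp hd)
  have hβ0 : 0 ≤ β := hβ₀.le.trans hβ
  set r : ℕ → ℝ := fun j => cZero d α c β₀ / ((2 : ℝ) ^ α * 2 ^ d) ^ j with hr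
  refine ⟨⟨box d n, fun j => wT J β n - ∑ i ∈ range M, torusK d n r i + ∑ i ∈ range j, torusK d n r i,
    torusK d n r, par, fun i => torus_zero_mem, fun i x hx => torus_neg_mem hx,
    fun i x y hx hy => torus_add_mem hx hy, fun i => ?_, fun i hi => ?_, fun j u v => rfl,
    fun j => ?_, fun e => ?_, fun u v a => ?_⟩, ?_, fun i => rfl⟩
  · refine (card_box_le d n i).trans ?_
    have : (0 : ℝ) ≤ 3 ^ d * (2 ^ d) ^ i := by positivity
    linarith
  · have h1 := sum_box (E := ℝ) (d := d) (i := i) (n := n)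
      (le_trans (Nat.pow_le_pow_right (by norm_num) (by omega)) hn) fun _ => 1
    simp only [Finset.sum_const, nsmul_eq_mul, mul_one] at h1
    rw [torus_card_pi] at h1
    have h2 : (((box d n i).erase 0).card : ℝ) + 1 = (box d n i).card := by
      exact_mod_cast Finset.card_erase_add_one torus_zero_mem
    have h4 : ((2 : ℝ) ^ i) ^ d + 1 ^ d ≤ (2 ^ i + 1) ^ d :=
      pow_add_pow_le (by positivity) (by norm_num) (by omega)
    have h5 : ((2 : ℝ) ^ i + 1) ^ d ≤ (2 * 2 ^ i + 1) ^ d :=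
      pow_le_pow_left₀ (by positivity) (by have : (0 : ℝ) < 2 ^ i := by positivity
                                           linarith) d
    rw [← pow_mul, mul_comm d i, pow_mul]
    rw [one_pow] at h4
    linarith
  · rw [Finset.sum_range_succ, add_assoc]
  · induction e using Sym2.ind with
    | h u v =>
      simp only [Finset.range_zero, Finset.sum_empty, add_zero, Pi.sub_apply, Finset.sum_apply,
        sub_nonneg, torusK_mk]
      by_cases hex : ∃ i, v - u ∈ (box d n i).erase 0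
      · have hi := Nat.find_spec hex
        have hmin := fun m => Nat.find_min hex (m := m)
        set i := Nat.find hex
        have hne := (Finset.mem_erase.mp hi).1
        have hb := (Finset.mem_erase.mp hi).2
        have hq : 2 ≤ (2 : ℝ) ^ α * 2 ^ d := by nlinarith [par.hq, par.h2]
        have hs : ∑ j ∈ range M, (if v - u ∈ (box d n j).erase 0 then r j else 0) ≤ 2 * r i := by
          refine le_trans ?_ (torus_geom par.hc.le hq i M)
          rw [← Finset.sum_filter]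
          refine Finset.sum_le_sum_of_subset_of_nonneg ?_ fun j _ _ => (par.c_pos j).le
          intro j hj
          have hj' := Finset.mem_filter.mp hj
          refine Finset.mem_Ico.mpr ⟨?_, Finset.mem_range.mp hj'.1⟩
          by_contra hlt
          exact hmin j (not_le.mp hlt) hj'.2
        refine hs.trans ?_
        have l1 := torus_lower hα hc hd hK (rep (v - u)) (torus_rep_ne hne) i (torus_mem_box.mp hb)
        have l2 := torus_lower hα hc hd hK (rep (u - v))
          (torus_rep_ne fun h => hne (by rw [← neg_sub, h, neg_zero])) i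
          (torus_mem_box.mp (by rw [← neg_sub]; exact torus_neg_mem hb))
        have l3 := le_min l1 l2
        have l4 : 0 ≤ c * (d : ℝ) ^ (-((d : ℝ) + α) / 2) / ((2 : ℝ) ^ α * 2 ^ d) ^ i := by positivity
        rw [wT_mk]
        calc 2 * r i = β₀ * (c * (d : ℝ) ^ (-((d : ℝ) + α) / 2) / ((2 : ℝ) ^ α * 2 ^ d) ^ i) := by
              simp only [hr, cZero]
              ring
          _ ≤ β * (c * (d : ℝ) ^ (-((d : ℝ) + α) / 2) / ((2 : ℝ) ^ α * 2 ^ d) ^ i) :=
              mul_le_mul_of_nonneg_right hβ l4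
          _ ≤ _ := mul_le_mul_of_nonneg_left l3 hβ0
      · rw [Finset.sum_eq_zero fun j _ => if_neg fun h => hex ⟨j, h⟩]
        exact wT_nonneg hK.nonneg hβ0 n _
  · simp only [Pi.add_apply, Pi.sub_apply, Finset.sum_apply, torusK_mk, wT_inv J β n u v a,
      add_sub_add_right_eq_sub]
  · simp

end Pool.Agent.Lib.MP_6fc7d9_pr
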