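import Pool.Agent.Lib.MP_6fc7d9_pr.Torus

set_option linter.unusedSectionVars false

namespace Pool.Agent.Lib.MP_6fc7d9_pr
open Finset

/-- `rep (x + y) k ≡ rep x k + rep y k` modulo `n + 1`, and `exp (2 π I m) = 1` for integers `m` -/
theorem isChar_chr {d : ℕ} (n : ℕ) (k : Fin d → ℤ) : IsChar (chr n k) := by
  refine ⟨fun x y => ?_, fun x => (Complex.norm_exp_I_mul_ofReal _).le, by simp [chr, rep]⟩
  have h : ∀ i, ∃ m : ℤ, rep (x + y) i = rep x i + rep y i + m * (n + 1) := by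
    intro i
    have h1 : ((rep (x + y) i - (rep x i + rep y i) : ℤ) : ZMod (n + 1)) = 0 := by
      simp [rep]
    obtain ⟨m, hm⟩ := (ZMod.intCast_zmod_eq_zero_iff_dvd _ _).mp h1
    refine ⟨m, ?_⟩
    push_cast at hm
    linarith
  choose m hm using h
  have hn : ((n : ℝ) + 1) ≠ 0 := by positivity
  have h2 : (∑ i, 2 * Real.pi * k i / (n + 1) * rep (x + y) i : ℝ)
      = (∑ i, 2 * Real.pi * k i / (n + 1) * rep x i) + (∑ i, 2 * Real.pi * k i / (n + 1) * rep y i)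
        + ((∑ i, k i * m i : ℤ) : ℝ) * (2 * Real.pi) := by
    push_cast
    rw [Finset.sum_mul, ← Finset.sum_add_distrib, ← Finset.sum_add_distrib]
    refine Finset.sum_congr rfl fun i _ => ?_
    rw [hm i]
    push_cast
    field_simp
  unfold chr
  rw [h2, Complex.ofReal_add, Complex.ofReal_add, mul_add, mul_add, Complex.exp_add,
    Complex.exp_add]
  have h3 : Complex.exp (Complex.I * ((((∑ i, k i * m i : ℤ) : ℝ) * (2 * Real.pi) : ℝ) : ℂ)) = 1 := by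
    rw [← Complex.exp_int_mul_two_pi_mul_I (∑ i, k i * m i)]
    congr 1
    rw [Complex.ofReal_mul, Complex.ofReal_intCast, Complex.ofReal_mul, Complex.ofReal_ofNat]
    ring
  rw [h3, mul_one]

/-- geometric sum: `(z - 1) * ∑ y ∈ Icc (-R) R, z^y = z^(R+1) - z^(-R)` -/
theorem norm_sum_exp_le (a : ℝ) (R : ℕ) {η : ℝ} (hη : 0 < η)
    (h : η ≤ ‖Complex.exp (Complex.I * a) - 1‖) :
    ‖∑ y ∈ Finset.Icc (-(R : ℤ)) R, Complex.exp (Complex.I * ((a * y : ℝ) : ℂ))‖ ≤ 2 / η := by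
  set g : ℤ → ℂ := fun y => Complex.exp (Complex.I * ((a * y : ℝ) : ℂ)) with hg
  have h1 : ∀ y : ℤ, g (y + 1) = Complex.exp (Complex.I * a) * g y := fun y => by
    simp only [hg]
    rw [← Complex.exp_add]
    congr 1
    push_cast
    ring
  have h2 : ∀ m : ℕ, (Complex.exp (Complex.I * a) - 1) * ∑ y ∈ Finset.Ico (-(R : ℤ)) (-R + m), g y
      = g (-R + m) - g (-R) := by
    intro m
    induction m with
    | zero => simp
    | succ m ih =>
      have e : Finset.Ico (-(R : ℤ)) (-R + (m + 1 : ℕ))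
          = insert (-(R : ℤ) + m) (Finset.Ico (-(R : ℤ)) (-R + m)) := by
        ext y
        simp only [Finset.mem_Ico, Finset.mem_insert]
        push_cast
        omega
      rw [e, Finset.sum_insert (by simp), mul_add, ih, Nat.cast_succ, ← add_assoc, h1]
      ring
  have e : Finset.Icc (-(R : ℤ)) R = Finset.Ico (-(R : ℤ)) (-R + (2 * R + 1 : ℕ)) := by
    ext y
    simp only [Finset.mem_Ico, Finset.mem_Icc]
    push_cast
    omega
  have h3 := congrArg norm (h2 (2 * R + 1))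
  rw [← e, norm_mul] at h3
  have h4 : ‖g (-R + (2 * R + 1 : ℕ)) - g (-R)‖ ≤ 2 := by
    refine (norm_sub_le _ _).trans ?_
    simp only [hg, Complex.norm_exp_I_mul_ofReal]
    norm_num
  rw [le_div_iff₀ hη]
  nlinarith [mul_le_mul_of_nonneg_left h (norm_nonneg (∑ y ∈ Finset.Icc (-(R : ℤ)) R, g y))]

/-- By `sum_box` and `Finset.prod_univ_sum` the sum is a product of one-dimensional sums; use
`norm_sum_exp_le` in the coordinate `i₀` and the trivial bound `2 * 2^j + 1 ≤ 3 * 2^j` in the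
others.  For the lower bound on `‖exp (I a) - 1‖`, `a = 2 π k i₀ / (n+1)`:
`‖exp (I θ) - 1‖ = 2 |sin (θ/2)| ≥ (2/π) |θ|` for `|θ| ≤ π`
(`Complex.norm_exp_I_mul_ofReal_sub_one`, `Real.mul_abs_le_abs_sin`) and
`‖exp (I a) - exp (I θ)‖ ≤ |a - θ| ≤ |θ| / π`. -/
theorem norm_sum_chr_le {d n : ℕ} (k : Fin d → ℤ) (i₀ : Fin d) (θ : ℝ) (hθ : |θ| ≤ Real.pi)
    (hk : |2 * Real.pi * k i₀ / (n + 1) - θ| ≤ |θ| / Real.pi) {j₀ j : ℕ}
    (hj₀ : (1 / 2 : ℝ) ^ j₀ ≤ |θ|) (hj : j₀ ≤ j) (hn : 2 ^ (j + 1) ≤ n) :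
    ‖∑ y ∈ box d n j, chr n k y‖ ≤ 8 * 3 ^ d * (2 ^ d) ^ j * (1 / 2) ^ (j - j₀) := by
  have hpi := Real.pi_pos
  have hθ0 : 0 < |θ| := lt_of_lt_of_le (by positivity) hj₀
  set a : Fin d → ℝ := fun i => 2 * Real.pi * k i / (n + 1) with ha
  have e1 : ∑ y ∈ box d n j, chr n k y
      = ∏ i, ∑ y ∈ Finset.Icc (-(2 : ℤ) ^ j) (2 ^ j),
          Complex.exp (Complex.I * ((a i * y : ℝ) : ℂ)) := by
    rw [Finset.prod_univ_sum, ← sum_box hn]
    refine Finset.sum_congr rfl fun x _ => ?_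
    rw [← Complex.exp_sum, chr, ← Finset.mul_sum, ← Complex.ofReal_sum]
  have l1 : |θ| / Real.pi ≤ ‖Complex.exp (Complex.I * a i₀) - 1‖ := by
    have b1 : 2 * (|θ| / Real.pi) ≤ ‖Complex.exp (Complex.I * θ) - 1‖ := by
      rw [Complex.norm_exp_I_mul_ofReal_sub_one, Real.norm_eq_abs, abs_mul]
      have := Real.mul_abs_le_abs_sin (x := θ / 2) (by rw [abs_div]; norm_num; linarith)
      rw [abs_div] at this
      rw [abs_two] at this ⊢
      have e : 2 / Real.pi * (|θ| / 2) = |θ| / Real.pi := by ring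
      linarith
    have b2 : ‖Complex.exp (Complex.I * a i₀) - Complex.exp (Complex.I * θ)‖ ≤ |θ| / Real.pi := by
      have e : Complex.exp (Complex.I * a i₀) - Complex.exp (Complex.I * θ)
          = Complex.exp (Complex.I * θ) * (Complex.exp (Complex.I * ((a i₀ - θ : ℝ) : ℂ)) - 1) := by
        rw [mul_sub, ← Complex.exp_add]
        congr 2
        · push_cast
          ring
        · ring
      rw [e, norm_mul, Complex.norm_exp_I_mul_ofReal, one_mul]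
      exact Real.norm_exp_I_mul_ofReal_sub_one_le.trans hk
    have b3 := norm_sub_le (Complex.exp (Complex.I * a i₀) - 1)
      (Complex.exp (Complex.I * a i₀) - Complex.exp (Complex.I * θ))
    rw [sub_sub_sub_cancel_left] at b3
    linarith
  have l2 := norm_sum_exp_le (a i₀) (2 ^ j) (by positivity) l1
  push_cast at l2
  have l3 : ∀ i, ‖∑ y ∈ Finset.Icc (-(2 : ℤ) ^ j) (2 ^ j),
      Complex.exp (Complex.I * ((a i * y : ℝ) : ℂ))‖ ≤ 3 * 2 ^ j := fun i => by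
    refine (norm_sum_le _ _).trans ?_
    simp only [Complex.norm_exp_I_mul_ofReal, Finset.sum_const, nsmul_eq_mul, mul_one]
    have h : ((Finset.Icc (-(2 : ℤ) ^ j) (2 ^ j)).card : ℤ) = 2 * 2 ^ j + 1 := by
      rw [Int.card_Icc_of_le _ _ (by have : (0 : ℤ) < 2 ^ j := by positivity
                                     linarith)]
      ring
    have h' : ((Finset.Icc (-(2 : ℤ) ^ j) (2 ^ j)).card : ℝ) = 2 * 2 ^ j + 1 := by exact_mod_cast h
    have h3 : (1 : ℝ) ≤ 2 ^ j := one_le_pow₀ (by norm_num)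
    linarith
  have l4 : 2 / (|θ| / Real.pi) ≤ 8 * (1 / 2) ^ (j - j₀) * (3 * 2 ^ j) := by
    obtain ⟨m, rfl⟩ := Nat.exists_eq_add_of_le hj
    rw [Nat.add_sub_cancel_left, div_le_iff₀ (by positivity)]
    have c1 : (1 / 2 : ℝ) ^ m * 2 ^ m = 1 := by rw [← mul_pow]; norm_num
    have c2 : (1 / 2 : ℝ) ^ j₀ * 2 ^ j₀ = 1 := by rw [← mul_pow]; norm_num
    have c3 : 1 ≤ 2 ^ j₀ * |θ| := by
      have := mul_le_mul_of_nonneg_left hj₀ (by positivity : (0 : ℝ) ≤ 2 ^ j₀)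
      linarith
    have c4 : 8 * (1 / 2 : ℝ) ^ m * (3 * 2 ^ (j₀ + m)) * (|θ| / Real.pi)
        = 24 * ((1 / 2 : ℝ) ^ m * 2 ^ m) * (2 ^ j₀ * |θ|) / Real.pi := by ring
    rw [c4, c1, le_div_iff₀ hpi]
    nlinarith [Real.pi_le_four]
  rw [e1, norm_prod, ← Finset.mul_prod_erase _ _ (Finset.mem_univ i₀)]
  have l5 : ∏ i ∈ univ.erase i₀, ‖∑ y ∈ Finset.Icc (-(2 : ℤ) ^ j) (2 ^ j),
      Complex.exp (Complex.I * ((a i * y : ℝ) : ℂ))‖ ≤ ∏ _i ∈ univ.erase i₀, (3 * 2 ^ j : ℝ) :=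
    Finset.prod_le_prod (fun _ _ => norm_nonneg _) fun i _ => l3 i
  have l6 : (3 * 2 ^ j : ℝ) * ∏ _i ∈ univ.erase i₀, (3 * 2 ^ j : ℝ) = 3 ^ d * (2 ^ d) ^ j := by
    rw [Finset.mul_prod_erase univ (fun _ => (3 * 2 ^ j : ℝ)) (Finset.mem_univ i₀),
      Finset.prod_const, Finset.card_univ, Fintype.card_fin, mul_pow, ← pow_mul, ← pow_mul,
      mul_comm j d]
  have l7 : ‖∑ y ∈ Finset.Icc (-(2 : ℤ) ^ j) (2 ^ j),
      Complex.exp (Complex.I * ((a i₀ * y : ℝ) : ℂ))‖ ≤ 8 * (1 / 2) ^ (j - j₀) * (3 * 2 ^ j) := by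
    refine le_trans ?_ l4
    push_cast
    exact l2
  calc _ ≤ 8 * (1 / 2) ^ (j - j₀) * (3 * 2 ^ j) * ∏ _i ∈ univ.erase i₀, (3 * 2 ^ j : ℝ) :=
        mul_le_mul l7 l5 (Finset.prod_nonneg fun _ _ => norm_nonneg _) (by positivity)
    _ = 8 * (1 / 2) ^ (j - j₀) * (3 ^ d * (2 ^ d) ^ j) := by rw [← l6]; ring
    _ = _ := by ring

end Pool.Agent.Lib.MP_6fc7d9_pr
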