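import Pool.Agent.Lib.MP_6fc7d9_pr.TorusChar
import Pool.Agent.Lib.MP_6fc7d9_pr.Rec

set_option linter.unusedSectionVars false

namespace Pool.Agent.Lib.MP_6fc7d9_pr
open Finset

/-- a dyadic scale adapted to `t ∈ (0, 4]` -/
lemma torusmain_scale {t : ℝ} (ht : 0 < t) (ht4 : t ≤ 4) :
    ∃ j₀ : ℕ, (1 / 2 : ℝ) ^ j₀ ≤ t ∧ (2 : ℝ) ^ j₀ * t ≤ 4 := by
  have hex : ∃ j : ℕ, (1 / 2 : ℝ) ^ j ≤ t := by
    obtain ⟨j, hj⟩ := exists_pow_lt_of_lt_one ht (by norm_num : (1 / 2 : ℝ) < 1)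
    exact ⟨j, hj.le⟩
  classical
  refine ⟨Nat.find hex, Nat.find_spec hex, ?_⟩
  rcases h : Nat.find hex with _ | j
  · simpa using ht4
  · have h1 : ¬ (1 / 2 : ℝ) ^ j ≤ t := Nat.find_min hex (by omega)
    push Not at h1
    have h2 : (2 : ℝ) ^ j * (1 / 2) ^ j = 1 := by rw [← mul_pow]; norm_num
    have h3 : (0 : ℝ) < 2 ^ j := by positivity
    have h4 : (2 : ℝ) ^ j * t ≤ 1 := by
      rw [← h2]; exact mul_le_mul_of_nonneg_left h1.le h3.le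
    rw [pow_succ]
    nlinarith

/-- a coordinate of maximal modulus -/
lemma torusmain_coord {d : ℕ} {θ : Fin d → ℝ} (hθ : θ ≠ 0) :
    ∃ i₀ : Fin d, 0 < |θ i₀| ∧ 0 < euc θ ∧ euc θ ≤ √d * |θ i₀| := by
  obtain ⟨i₁, hi₁⟩ : ∃ i, θ i ≠ 0 := by
    by_contra h
    push Not at h
    exact hθ (funext h)
  obtain ⟨i₀, -, hi₀⟩ := Finset.exists_max_image (univ : Finset (Fin d)) (fun i => |θ i|)
    ⟨i₁, Finset.mem_univ _⟩
  have hpos : 0 < |θ i₀| := (abs_pos.mpr hi₁).trans_le (hi₀ i₁ (Finset.mem_univ _))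
  refine ⟨i₀, hpos, ?_, ?_⟩
  · unfold euc
    refine Real.sqrt_pos.mpr (lt_of_lt_of_le (by positivity : 0 < θ i₁ ^ 2) ?_)
    exact Finset.single_le_sum (f := fun i => θ i ^ 2) (fun i _ => sq_nonneg _)
      (Finset.mem_univ i₁)
  · unfold euc
    have h1 : ∑ i, θ i ^ 2 ≤ d * |θ i₀| ^ 2 := by
      calc ∑ i, θ i ^ 2 ≤ ∑ _i : Fin d, |θ i₀| ^ 2 := by
            refine Finset.sum_le_sum fun i _ => ?_
            rw [← sq_abs]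
            exact pow_le_pow_left₀ (abs_nonneg _) (hi₀ i (Finset.mem_univ _)) 2
        _ = d * |θ i₀| ^ 2 := by simp
    calc √(∑ i, θ i ^ 2) ≤ √(d * |θ i₀| ^ 2) := Real.sqrt_le_sqrt h1
      _ = √d * |θ i₀| := by
        rw [Real.sqrt_mul (Nat.cast_nonneg _), Real.sqrt_sq hpos.le]

/-- powers of `q > 1` beat any constant -/
lemma torusmain_pow {q c₀ : ℝ} (hq : 1 < q) (hc : 0 < c₀) (X : ℝ) (j₀ : ℕ) :
    ∃ M : ℕ, j₀ ≤ M ∧ X ≤ 2 * q ^ M / c₀ := by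
  obtain ⟨m, hm⟩ := pow_unbounded_of_one_lt (X * c₀ / 2) hq
  refine ⟨max m j₀, le_max_right _ _, ?_⟩
  have h1 : q ^ m ≤ q ^ max m j₀ := pow_le_pow_right₀ hq.le (le_max_left _ _)
  rw [le_div_iff₀ hc]
  linarith

/-- The Fourier bound on large tori.  Take `C₀` from `finite_bound (par_torus ..)`, a coordinate
`i₀` maximising `|θ i|` (so `euc θ ≤ √d * |θ i₀|`, `0 < |θ i₀| ≤ π ≤ 4`), `j₀` least with
`(1/2)^j₀ ≤ |θ i₀|` (so `2^j₀ ≤ 4 / |θ i₀| ≤ 4 √d / euc θ` and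
`(2^α)^j₀ ≤ (4 √d)^α * euc θ ^ (-α)`), `M ≥ j₀` with `X ≤ 2 (2^α)^M / cZero`, and `n₀ ≥ 2^(M+1)`
with `2 π / (n₀ + 1) ≤ |θ i₀| / π`; apply `torus_setup`, `isChar_chr`, `norm_sum_chr_le`. -/
theorem torus_bound {d : ℕ} {α c β₀ : ℝ} (hα : 0 < α) (h3 : 3 * α < d) (hc : 0 < c)
    (hβ₀ : 0 < β₀) :
    ∃ C : ℝ, ∀ J : Sym2 (Fin d → ℤ) → ℝ, Kernel d α c J → ∀ β, β₀ ≤ β → ∀ (X : ℝ),
      ∀ θ ∈ cube d, θ ≠ 0 → ∃ n₀ : ℕ, ∀ n, n₀ ≤ n → ∀ k : Fin d → ℤ,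
        (∀ i, |2 * Real.pi * k i / (n + 1) - θ i| ≤ 2 * Real.pi / (n + 1)) →
        chi (wT J β n) univ 0 ≤ X → ‖GG (wT J β n) univ {0} (chr n k)‖ ≤ C * euc θ ^ (-α) := by
  have hP := par_torus hα h3 hc hβ₀
  obtain ⟨C₀, hC₀, hfin⟩ := finite_bound hP
  refine ⟨C₀ * (4 * √d) ^ α, fun J hK β hβ X θ hθ hθ0 => ?_⟩
  obtain ⟨i₀, hpos, heuc, hle⟩ := torusmain_coord hθ0
  have hπ : |θ i₀| ≤ Real.pi := abs_le.mpr (hθ i₀ (Set.mem_univ _))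
  obtain ⟨j₀, hj₁, hj₂⟩ := torusmain_scale hpos (hπ.trans Real.pi_le_four)
  obtain ⟨M, hM₁, hM₂⟩ := torusmain_pow hP.hq hP.hc X j₀
  obtain ⟨n₁, hn₁⟩ := exists_nat_ge (2 * Real.pi * Real.pi / |θ i₀|)
  refine ⟨max (2 ^ (M + 1)) n₁, fun n hn k hk hχ => ?_⟩
  have hnM : 2 ^ (M + 1) ≤ n := (le_max_left _ _).trans hn
  have hn₂ : (n₁ : ℝ) ≤ n := by exact_mod_cast (le_max_right _ _).trans hn
  obtain ⟨S, hS₁, hS₂⟩ := torus_setup hα h3 hc hβ₀ hK hβ M n hnM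
  have hk' : |2 * Real.pi * k i₀ / (n + 1) - θ i₀| ≤ |θ i₀| / Real.pi := by
    refine (hk i₀).trans ?_
    rw [div_le_div_iff₀ (by positivity) Real.pi_pos]
    rw [div_le_iff₀ hpos] at hn₁
    nlinarith
  have hmain := hfin (Tor d n) M S (chr n k) j₀ (isChar_chr n k) hM₁
    (by rw [hS₁]; exact hχ.trans hM₂) (fun j hj hjM => by
      rw [hS₂]
      exact norm_sum_chr_le k i₀ (θ i₀) hπ hk' hj₁ hj
        ((Nat.pow_le_pow_right (by norm_num) (by omega)).trans hnM))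
  rw [hS₁] at hmain
  refine hmain.trans ?_
  rw [mul_assoc]
  refine mul_le_mul_of_nonneg_left ?_ hC₀
  have h1 : (2 : ℝ) ^ j₀ ≤ 4 * √d * (euc θ)⁻¹ := by
    rw [← div_eq_mul_inv, le_div_iff₀ heuc]
    have h2 : (0 : ℝ) < 2 ^ j₀ := by positivity
    have h4 : (0 : ℝ) ≤ √d := Real.sqrt_nonneg _
    calc (2 : ℝ) ^ j₀ * euc θ ≤ 2 ^ j₀ * (√d * |θ i₀|) := mul_le_mul_of_nonneg_left hle h2.le
      _ = (2 ^ j₀ * |θ i₀|) * √d := by ring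
      _ ≤ 4 * √d := mul_le_mul_of_nonneg_right hj₂ h4
  calc ((2 : ℝ) ^ α) ^ j₀ = ((2 : ℝ) ^ j₀) ^ α := by
        rw [← Real.rpow_natCast, ← Real.rpow_natCast, ← Real.rpow_mul (by norm_num),
          ← Real.rpow_mul (by norm_num), mul_comm]
    _ ≤ (4 * √d * (euc θ)⁻¹) ^ α := Real.rpow_le_rpow (by positivity) h1 hα.le
    _ = (4 * √d) ^ α * euc θ ^ (-α) := by
        rw [Real.mul_rpow (by positivity) (inv_nonneg.mpr heuc.le), Real.inv_rpow heuc.le,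
          Real.rpow_neg heuc.le]

/-- for large `β` the susceptibility of large tori is unbounded: choose `β₁` with
`4 * 2^α ≤ cZero d α c β₁`, `M` with `X ≤ 2 (2^α)^M / cZero`, and use `chi_large` -/
theorem torus_large {d : ℕ} {α c : ℝ} (hα : 0 < α) (h3 : 3 * α < d) (hc : 0 < c) :
    ∃ β₁ : ℝ, 0 < β₁ ∧ ∀ J : Sym2 (Fin d → ℤ) → ℝ, Kernel d α c J → ∀ β, β₁ ≤ β → ∀ (X : ℝ),
      ∃ n₀ : ℕ, ∀ n, n₀ ≤ n → X < chi (wT J β n) univ 0 := by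
  have h1 : 0 < cZero d α c 1 := (par_torus hα h3 hc one_pos).hc
  have h2 : (0 : ℝ) < 4 * 2 ^ α := by positivity
  have hβ₁ : 0 < 4 * 2 ^ α / cZero d α c 1 := div_pos h2 h1
  have hz : cZero d α c (4 * 2 ^ α / cZero d α c 1) = 4 * 2 ^ α := by
    have : ∀ b : ℝ, cZero d α c b = b * cZero d α c 1 := fun b => by
      unfold cZero; ring
    rw [this, div_mul_cancel₀ _ h1.ne']
  refine ⟨_, hβ₁, fun J hK β hβ X => ?_⟩
  have hP := par_torus hα h3 hc hβ₁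
  obtain ⟨M, -, hM⟩ := torusmain_pow hP.hq hP.hc X 0
  refine ⟨2 ^ (M + 1), fun n hn => ?_⟩
  obtain ⟨S, hS₁, -⟩ := torus_setup hα h3 hc hβ₁ hK hβ M n hn
  have := chi_large S hz.ge
  rw [hS₁] at this
  exact hM.trans_lt this

end Pool.Agent.Lib.MP_6fc7d9_pr
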