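import Pool.Agent.Lib.MP_6fc7d9_pr.WDefs
import Pool.Agent.Lib.MP_6fc7d9_pr.WDefsEq

set_option linter.unusedSectionVars false

namespace Pool.Agent.Lib.MP_6fc7d9_pr
open Finset

variable {V : Type*} [DecidableEq V] {ι : Type*} [Fintype ι] [DecidableEq ι]

lemma wavgsp_avg_const {Ω : Type*} [Fintype Ω] [Nonempty Ω] (c : ℝ) :
    avg (fun _ : Ω => c) = c := by
  have h : (Fintype.card Ω : ℝ) ≠ 0 := by exact_mod_cast Fintype.card_ne_zero
  simp only [avg, Finset.sum_const, Finset.card_univ, nsmul_eq_mul]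
  field_simp

lemma wavgsp_avg_nonneg {Ω : Type*} [Fintype Ω] {f : Ω → ℝ} (hf : ∀ W, 0 ≤ f W) : 0 ≤ avg f :=
  div_nonneg (Finset.sum_nonneg fun W _ => hf W) (Nat.cast_nonneg _)

lemma wavgsp_avg_sum {Ω κ : Type*} [Fintype Ω] (s : Finset κ) (f : κ → Ω → ℝ) :
    avg (fun W => ∑ i ∈ s, f i W) = ∑ i ∈ s, avg (f i) := by
  simp only [avg]
  rw [Finset.sum_comm, Finset.sum_div]

lemma wavgsp_avg_const_mul {Ω : Type*} [Fintype Ω] (c : ℝ) (f : Ω → ℝ) :
    avg (fun W => c * f W) = c * avg f := by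
  simp only [avg]
  rw [← Finset.mul_sum, mul_div_assoc]

lemma wavgsp_avg_EK {Ω : Type*} [Fintype Ω] (w : Sym2 V → ℝ) (U R : Finset V)
    (H : Ω → Finset V → ℝ) :
    avg (fun W => EK w U R (H W)) = EK w U R fun K => avg fun W => H W K := by
  simp only [avg, div_eq_mul_inv]
  rw [EK_mul_const, EK_sum]

/-- exchange of the coordinate `m` with an extra point -/
def wavgspSwap {Ω : Type*} (m : ι) : (ι → Ω) × Ω ≃ (ι → Ω) × Ω where
  toFun p := (Function.update p.1 m p.2, p.1 m)
  invFun p := (Function.update p.1 m p.2, p.1 m)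
  left_inv p := by simp
  right_inv p := by simp

lemma wavgsp_avg_mul {Ω : Type*} [Fintype Ω] [Nonempty Ω] (m : ι) (f : Ω → ℝ)
    (g : (ι → Ω) → ℝ) (hg : ∀ W t, g (Function.update W m t) = g W) :
    avg (fun W : ι → Ω => f (W m) * g W) = avg f * avg g := by
  have h : (Fintype.card Ω : ℝ) ≠ 0 := by exact_mod_cast Fintype.card_ne_zero
  have h' : (Fintype.card (ι → Ω) : ℝ) ≠ 0 := by exact_mod_cast Fintype.card_ne_zero
  have key : ∑ p : (ι → Ω) × Ω, f (p.1 m) * g p.1 = ∑ p : (ι → Ω) × Ω, f p.2 * g p.1 := by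
    refine Fintype.sum_equiv (wavgspSwap m) _ _ fun p => ?_
    simp only [wavgspSwap, Equiv.coe_fn_mk, hg]
  rw [Fintype.sum_prod_type, Fintype.sum_prod_type] at key
  simp only [Finset.sum_const, Finset.card_univ, nsmul_eq_mul, ← Finset.sum_mul,
    ← Finset.mul_sum] at key
  simp only [avg]
  field_simp
  linarith

lemma wavgsp_avg_prod {Ω : Type*} [Fintype Ω] [Nonempty Ω] (f : ι → Ω → ℝ) (T : Finset ι) :
    avg (fun W : ι → Ω => ∏ m ∈ T, f m (W m)) = ∏ m ∈ T, avg (f m) := by
  induction T using Finset.induction_on with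
  | empty => simpa using wavgsp_avg_const (Ω := ι → Ω) 1
  | insert m T hm ih =>
    simp only [Finset.prod_insert hm]
    rw [wavgsp_avg_mul m (f m) (fun W => ∏ m' ∈ T, f m' (W m')), ih]
    intro W t
    refine Finset.prod_congr rfl fun m' hm' => ?_
    rw [Function.update_of_ne]
    rintro rfl
    exact hm hm'

lemma wavgsp_serB_congr (w : Sym2 V → ℝ) (U : Finset V) {q q' : ι → V → V → ℝ} (z : V) (k : ℕ)
    (T : Finset ι) (h : ∀ m ∈ T, q m = q' m) (x : V) :
    SerB w U q z k T x = SerB w U q' z k T x := by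
  induction k generalizing T x with
  | zero => rfl
  | succ k ih =>
    simp only [SerB]
    refine Finset.sum_congr rfl fun m hm => Finset.sum_congr rfl fun a _ =>
      Finset.sum_congr rfl fun b _ => ?_
    rw [h m hm, ih (T.erase m) (fun m' hm' => h m' (Finset.mem_of_mem_erase hm')) b]

/-- Induction on `k`.  `SerB .. k (T.erase m)` does not depend on `W m`, so the average of the
product factorises (average over `Function.update W m t`). -/
theorem ser_avg {Ω : Type*} [Fintype Ω] [Nonempty Ω] {w : Sym2 V → ℝ} (hw : ∀ e, 0 ≤ w e)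
    (U B Z : Finset V) {q : ι → Ω → V → V → ℝ} (hq0 : ∀ m W a b, 0 ≤ q m W a b)
    (hqB : ∀ m W a b, a ∉ B → q m W a b = 0) {X μ : ℝ} (hμ : 0 ≤ μ)
    (hB : ∀ x, ∑ a ∈ B, tau w U x a ≤ X) (hZ : ∀ x, ∑ z ∈ Z, tau w U x z ≤ X)
    (hq : ∀ m a, ∑ b ∈ U, avg (fun W => q m W a b) ≤ μ) (k : ℕ) (T : Finset ι) (x : V) :
    ∑ z ∈ Z, avg (fun W : ι → Ω => SerB w U (fun m => q m (W m)) z k T x)
      ≤ X * (Fintype.card ι * μ * X) ^ k := by
  have hX : 0 ≤ X := (Finset.sum_nonneg fun a _ => tau_nonneg hw U x a).trans (hB x)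
  induction k generalizing T x with
  | zero =>
    simp only [SerB, wavgsp_avg_const, pow_zero, mul_one]
    exact hZ x
  | succ k ih =>
    set Y : ℝ := X * (Fintype.card ι * μ * X) ^ k with hY
    have hY0 : 0 ≤ Y := by positivity
    have h1 : ∀ z, avg (fun W : ι → Ω => SerB w U (fun m => q m (W m)) z (k + 1) T x)
        = ∑ m ∈ T, ∑ a ∈ U, ∑ b ∈ U, tau w U x a * (avg (fun W => q m W a b) *
          avg (fun W : ι → Ω => SerB w U (fun m => q m (W m)) z k (T.erase m) b)) := by
      intro z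
      simp only [SerB, wavgsp_avg_sum, mul_assoc, wavgsp_avg_const_mul]
      refine Finset.sum_congr rfl fun m _ => Finset.sum_congr rfl fun a _ =>
        Finset.sum_congr rfl fun b _ => ?_
      rw [wavgsp_avg_mul m (fun t => q m t a b)
        (fun W : ι → Ω => SerB w U (fun m => q m (W m)) z k (T.erase m) b)]
      intro W t
      refine wavgsp_serB_congr w U z k _ (fun m' hm' => ?_) b
      rw [Function.update_of_ne (Finset.ne_of_mem_erase hm')]
    have h2 : ∀ m, ∑ a ∈ U, ∑ b ∈ U, tau w U x a * avg (fun W => q m W a b) ≤ X * μ := by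
      intro m
      calc ∑ a ∈ U, ∑ b ∈ U, tau w U x a * avg (fun W => q m W a b)
          ≤ ∑ a ∈ U, (if a ∈ B then tau w U x a * μ else 0) := by
            refine Finset.sum_le_sum fun a _ => ?_
            rw [← Finset.mul_sum]
            split_ifs with ha
            · exact mul_le_mul_of_nonneg_left (hq m a) (tau_nonneg hw U x a)
            · simp only [hqB m _ a _ ha, wavgsp_avg_const, Finset.sum_const_zero, mul_zero, le_refl]
        _ = ∑ a ∈ U ∩ B, tau w U x a * μ := by rw [Finset.sum_ite_mem]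
        _ ≤ ∑ a ∈ B, tau w U x a * μ :=
            Finset.sum_le_sum_of_subset_of_nonneg Finset.inter_subset_right
              fun a _ _ => mul_nonneg (tau_nonneg hw U x a) hμ
        _ ≤ X * μ := by
            rw [← Finset.sum_mul]
            exact mul_le_mul_of_nonneg_right (hB x) hμ
    calc ∑ z ∈ Z, avg (fun W : ι → Ω => SerB w U (fun m => q m (W m)) z (k + 1) T x)
        = ∑ m ∈ T, ∑ a ∈ U, ∑ b ∈ U, tau w U x a * avg (fun W => q m W a b) *
          ∑ z ∈ Z, avg (fun W : ι → Ω => SerB w U (fun m => q m (W m)) z k (T.erase m) b) := by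
          simp only [h1, Finset.mul_sum, mul_assoc]
          rw [Finset.sum_comm]
          refine Finset.sum_congr rfl fun m _ => ?_
          rw [Finset.sum_comm]
          refine Finset.sum_congr rfl fun a _ => ?_
          rw [Finset.sum_comm]
      _ ≤ ∑ m ∈ T, ∑ a ∈ U, ∑ b ∈ U, tau w U x a * avg (fun W => q m W a b) * Y := by
          refine Finset.sum_le_sum fun m _ => Finset.sum_le_sum fun a _ =>
            Finset.sum_le_sum fun b _ => ?_
          exact mul_le_mul_of_nonneg_left (ih (T.erase m) b)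
            (mul_nonneg (tau_nonneg hw U x a) (wavgsp_avg_nonneg fun W => hq0 m W a b))
      _ ≤ ∑ _m ∈ T, X * μ * Y := by
          refine Finset.sum_le_sum fun m _ => ?_
          simp only [← Finset.sum_mul]
          exact mul_le_mul_of_nonneg_right (h2 m) hY0
      _ ≤ Fintype.card ι * (X * μ * Y) := by
          rw [Finset.sum_const, nsmul_eq_mul]
          refine mul_le_mul_of_nonneg_right ?_ (by positivity)
          exact_mod_cast Finset.card_le_univ T
      _ = X * (Fintype.card ι * μ * X) ^ (k + 1) := by rw [hY]; ring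

/-- the average of a product of functions of distinct coordinates is the product of the averages
(`Finset.prod_univ_sum` / `Fintype.piFinset_univ`) -/
theorem par_avg {Ω : Type*} [Fintype Ω] [Nonempty Ω] {w : Sym2 V → ℝ} (hw : ∀ e, 0 ≤ w e)
    (U : Finset V) {q : ι → Ω → V → V → ℝ} (hq0 : ∀ m W a b, 0 ≤ q m W a b) (x z : V)
    (T : Finset ι) :
    avg (fun W : ι → Ω => ParB w U (fun m => q m (W m)) x z T)
      ≤ EK w U {x} fun K => EK w U {z} fun K' =>
          (∑ a ∈ K, ∑ b ∈ K', ∑ m, avg fun W => q m W a b) ^ T.card := by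
  simp only [ParB]
  rw [wavgsp_avg_EK]
  refine EK_mono hw _ fun K _ => ?_
  rw [wavgsp_avg_EK]
  refine EK_mono hw _ fun K' _ => ?_
  rw [wavgsp_avg_prod (fun m t => ∑ a ∈ K, ∑ b ∈ K', q m t a b), ← Finset.prod_const]
  refine Finset.prod_le_prod (fun m _ => wavgsp_avg_nonneg fun t =>
    Finset.sum_nonneg fun a _ => Finset.sum_nonneg fun b _ => hq0 m t a b) fun m _ => ?_
  simp only [wavgsp_avg_sum]
  refine Finset.sum_le_sum fun a _ => Finset.sum_le_sum fun b _ => ?_
  exact Finset.single_le_sum (f := fun m => avg fun W => q m W a b)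
    (fun m' _ => wavgsp_avg_nonneg fun t => hq0 m' t a b) (Finset.mem_univ m)

end Pool.Agent.Lib.MP_6fc7d9_pr
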