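import Pool.Agent.Lib.MP_6fc7d9_pr.WDefs

set_option linter.unusedSectionVars false

namespace Pool.Agent.Lib.MP_6fc7d9_pr
open Finset

lemma wbool_split {ι : Type*} [DecidableEq ι] {G c : Finset ι} (hc : c ⊆ G) (f : Finset ι → ℝ) :
    ∑ S ∈ G.powerset, f S = ∑ ρ ∈ c.powerset, ∑ S ∈ (G \ c).powerset, f (ρ ∪ S) := by
  rw [← Finset.sum_product']
  refine Finset.sum_nbij' (fun S => (S ∩ c, S \ c)) (fun p => p.1 ∪ p.2) ?_ ?_ ?_ ?_ ?_
  · intro S hS
    rw [Finset.mem_powerset] at hS
    exact Finset.mem_product.2 ⟨Finset.mem_powerset.2 Finset.inter_subset_right,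
      Finset.mem_powerset.2 (Finset.sdiff_subset_sdiff hS subset_rfl)⟩
  · intro p hp
    obtain ⟨h1, h2⟩ := Finset.mem_product.1 hp
    rw [Finset.mem_powerset] at h1 h2 ⊢
    exact Finset.union_subset (h1.trans hc) (h2.trans Finset.sdiff_subset)
  · intro S _
    ext x
    simp only [Finset.mem_union, Finset.mem_inter, Finset.mem_sdiff]
    tauto
  · intro p hp
    obtain ⟨h1, h2⟩ := Finset.mem_product.1 hp
    rw [Finset.mem_powerset] at h1 h2
    refine Prod.ext ?_ ?_
    · ext x
      have a1 := @h1 x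
      have a2 := @h2 x
      simp only [Finset.mem_union, Finset.mem_inter, Finset.mem_sdiff] at a2 ⊢
      tauto
    · ext x
      have a1 := @h1 x
      have a2 := @h2 x
      simp only [Finset.mem_union, Finset.mem_sdiff] at a2 ⊢
      tauto
  · intro S _
    congr 1
    ext x
    simp only [Finset.mem_union, Finset.mem_inter, Finset.mem_sdiff]
    tauto

lemma wbool_main {ι : Type*} [DecidableEq ι] (s t : ℕ) : ∀ (G : Finset ι) (F : Finset ι → Prop),
    (∀ S S', S ⊆ S' → F S → F S') →
    (∀ S ⊆ G, F S → ∃ c ⊆ S, c.card ≤ s ∧ F c) →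
    (∀ S ⊆ G, ¬ F S → ∃ z ⊆ G, Disjoint z S ∧ z.card ≤ t ∧ ¬ F (G \ z)) →
    s * t < G.card → ∑ S ∈ G.powerset, (-1 : ℝ) ^ S.card * ind (F S) = 0 := by
  induction t with
  | zero =>
    intro G F hF _ h0 hG
    by_cases hall : ∀ S ⊆ G, F S
    · have hne : G.Nonempty := Finset.card_pos.1 (by omega)
      have h1 := Finset.sum_powerset_neg_one_pow_card_of_nonempty hne
      have h2 : ((∑ S ∈ G.powerset, (-1 : ℤ) ^ S.card : ℤ) : ℝ) = 0 := by rw [h1]; simp
      push_cast at h2
      rw [← h2]
      exact Finset.sum_congr rfl fun S hS => by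
        rw [ind_pos (hall S (Finset.mem_powerset.1 hS)), mul_one]
    · push Not at hall
      obtain ⟨S, hS, hn⟩ := hall
      obtain ⟨z, -, -, hz, hGz⟩ := h0 S hS hn
      rw [Finset.card_eq_zero.1 (Nat.le_zero.1 hz), Finset.sdiff_empty] at hGz
      exact Finset.sum_eq_zero fun S' hS' => by
        rw [ind_neg fun h => hGz (hF _ _ (Finset.mem_powerset.1 hS') h), mul_zero]
  | succ t ih =>
    intro G F hF h1 h0 hG
    by_cases hex : ∃ S ⊆ G, F S
    · obtain ⟨S₀, hS₀, hF₀⟩ := hex
      obtain ⟨c, hc₀, hcs, hFc⟩ := h1 S₀ hS₀ hF₀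
      have hc : c ⊆ G := hc₀.trans hS₀
      rw [wbool_split hc]
      refine Finset.sum_eq_zero fun ρ hρ => ?_
      rw [Finset.mem_powerset] at hρ
      have key := ih (G \ c) (fun S => F (ρ ∪ S))
        (fun S S' h => hF _ _ (Finset.union_subset_union subset_rfl h)) ?_ ?_ ?_
      · have : ∑ S ∈ (G \ c).powerset, (-1 : ℝ) ^ (ρ ∪ S).card * ind (F (ρ ∪ S))
            = (-1 : ℝ) ^ ρ.card * ∑ S ∈ (G \ c).powerset, (-1 : ℝ) ^ S.card * ind (F (ρ ∪ S)) := by
          rw [Finset.mul_sum]
          refine Finset.sum_congr rfl fun S hS => ?_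
          have hd : Disjoint ρ S := Finset.disjoint_left.2 fun x hx hx' =>
            (Finset.mem_sdiff.1 (Finset.mem_powerset.1 hS hx')).2 (hρ hx)
          rw [Finset.card_union_of_disjoint hd, pow_add, mul_assoc]
        rw [this, key, mul_zero]
      · intro S hS hFS
        obtain ⟨c', hc', hcs', hFc'⟩ := h1 (ρ ∪ S)
          (Finset.union_subset (hρ.trans hc) (hS.trans Finset.sdiff_subset)) hFS
        refine ⟨c' ∩ S, Finset.inter_subset_right,
          (Finset.card_le_card Finset.inter_subset_left).trans hcs', hF _ _ (fun x hx => ?_) hFc'⟩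
        have := hc' hx
        simp only [Finset.mem_union, Finset.mem_inter] at this ⊢
        tauto
      · intro S hS hFS
        obtain ⟨z, hz, hzd, hzt, hFz⟩ := h0 (ρ ∪ S)
          (Finset.union_subset (hρ.trans hc) (hS.trans Finset.sdiff_subset)) hFS
        have hmeet : ¬ Disjoint z c := fun hd => hFz (hF _ _
          (fun x hx => Finset.mem_sdiff.2 ⟨hc hx, fun hx' => Finset.disjoint_left.1 hd hx' hx⟩) hFc)
        refine ⟨z \ c, Finset.sdiff_subset_sdiff hz subset_rfl, ?_, ?_, fun h => hFz (hF _ _ ?_ h)⟩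
        · exact Finset.disjoint_of_subset_left Finset.sdiff_subset
            (Finset.disjoint_of_subset_right Finset.subset_union_right hzd)
        · have : (z \ c).card < z.card := Finset.card_lt_card
            ⟨Finset.sdiff_subset, fun h => hmeet (Finset.disjoint_left.2 fun x hx hx' =>
              (Finset.mem_sdiff.1 (h hx)).2 hx')⟩
          omega
        · intro x hx
          rw [Finset.mem_union] at hx
          rcases hx with hx | hx
          · exact Finset.mem_sdiff.2 ⟨hc (hρ hx), fun hx' =>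
              Finset.disjoint_left.1 hzd hx' (Finset.mem_union_left _ hx)⟩
          · simp only [Finset.mem_sdiff] at hx ⊢
            tauto
      · rw [Finset.card_sdiff_of_subset hc]
        rw [Nat.mul_succ] at hG
        omega
    · push Not at hex
      exact Finset.sum_eq_zero fun S hS => by
        rw [ind_neg (hex S (Finset.mem_powerset.1 hS)), mul_zero]

/-- Certificate complexity of a monotone Boolean function.  Suppose neither alternative holds.
Then every `S` with `F S` contains a `1`-certificate of size `< k` (a minimal subset with `F`), and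
every `S` with `¬ F S` has a `0`-certificate of size `< k` (complement of a maximal superset
without `F`).  Prove by induction on `t`, for functions on subsets of an arbitrary ground set
`G : Finset ι`: if all `1`-certificates have size `≤ s`, all `0`-certificates have size `≤ t` and
`s * t < |G|` then `∑ S ⊆ G, (-1)^|S| F S = 0`.  Step: fix a `1`-certificate `c`; it meets every
`0`-certificate; split `S = ρ ∪ S'` with `ρ ⊆ c`, `S' ⊆ G \ c`; the function `S' ↦ F (ρ ∪ S')` has
`0`-certificates of size `≤ t - 1`. -/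
theorem bool_cert {ι : Type*} [Fintype ι] [DecidableEq ι] (F : Finset ι → Prop)
    (hF : ∀ S S', S ⊆ S' → F S → F S') {k : ℕ} (hk : 1 ≤ k) (hN : k * k ≤ Fintype.card ι)
    (h : ∑ S : Finset ι, (-1 : ℝ) ^ S.card * ind (F S) ≠ 0) :
    (∃ S T : Finset ι, T ⊆ S ∧ T.card = k ∧ F S ∧ ∀ m ∈ T, ¬ F (S.erase m)) ∨
      ∃ S T : Finset ι, Disjoint S T ∧ T.card = k ∧ ¬ F S ∧ ∀ m ∈ T, F (insert m S) := by
  classical
  by_contra hcon
  rw [not_or] at hcon
  obtain ⟨hA, hB⟩ := hcon
  apply h
  obtain ⟨k, rfl⟩ : ∃ j, k = j + 1 := ⟨k - 1, by omega⟩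
  rw [← Finset.powerset_univ]
  refine wbool_main k k Finset.univ F hF ?_ ?_ ?_
  · intro S _ hS
    obtain ⟨c, hc, hmin⟩ := Finset.exists_min_image (S.powerset.filter F) Finset.card
      ⟨S, Finset.mem_filter.2 ⟨Finset.mem_powerset_self S, hS⟩⟩
    rw [Finset.mem_filter, Finset.mem_powerset] at hc
    refine ⟨c, hc.1, ?_, hc.2⟩
    by_contra hlt
    obtain ⟨T, hT, hTc⟩ := Finset.exists_subset_card_eq (s := c) (n := k + 1) (by omega)
    refine hA ⟨c, T, hT, hTc, hc.2, fun m hm hF' => ?_⟩
    have h1 := hmin (c.erase m) (Finset.mem_filter.2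
      ⟨Finset.mem_powerset.2 ((Finset.erase_subset _ _).trans hc.1), hF'⟩)
    have h2 := Finset.card_erase_lt_of_mem (hT hm)
    omega
  · intro S _ hS
    obtain ⟨c, hc, hmax⟩ := Finset.exists_max_image
      (Finset.univ.filter fun S' : Finset ι => S ⊆ S' ∧ ¬ F S') Finset.card
      ⟨S, Finset.mem_filter.2 ⟨Finset.mem_univ S, subset_rfl, hS⟩⟩
    rw [Finset.mem_filter] at hc
    refine ⟨Finset.univ \ c, Finset.subset_univ _,
      Finset.disjoint_left.2 fun x hx hx' => (Finset.mem_sdiff.1 hx).2 (hc.2.1 hx'), ?_, ?_⟩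
    · by_contra hlt
      obtain ⟨T, hT, hTc⟩ := Finset.exists_subset_card_eq (s := Finset.univ \ c) (n := k + 1)
        (by omega)
      refine hB ⟨c, T, Finset.disjoint_left.2 fun x hx hx' => (Finset.mem_sdiff.1 (hT hx')).2 hx,
        hTc, hc.2.2, fun m hm => ?_⟩
      by_contra hF'
      have h1 := hmax (insert m c) (Finset.mem_filter.2
        ⟨Finset.mem_univ _, hc.2.1.trans (Finset.subset_insert _ _), hF'⟩)
      rw [Finset.card_insert_of_notMem (Finset.mem_sdiff.1 (hT hm)).2] at h1
      omega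
    · rw [Finset.sdiff_sdiff_eq_self (Finset.subset_univ c)]
      exact hc.2.2
  · rw [Finset.card_univ]
    nlinarith

end Pool.Agent.Lib.MP_6fc7d9_pr
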