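import Pool.Agent.Lib.MP_6fc7d9_pr.WDefs
import Pool.Agent.Lib.MP_6fc7d9_pr.ODE
import Pool.Agent.Lib.MP_6fc7d9_pr.SL

set_option linter.unusedSectionVars false

namespace Pool.Agent.Lib.MP_6fc7d9_pr
open Finset

variable {V : Type*} [DecidableEq V]

/-- interpolate `w' + t (w - w')` and use `hasDerivAt_GG` with `φ = fun y => ind (y = z)`
(`GG_ind`, compare `local_step` in `Local.lean`) -/
theorem sprinkle {w w' : Sym2 V → ℝ} (hw' : ∀ e, 0 ≤ w' e) (hww : ∀ e, w' e ≤ w e) (U : Finset V)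
    (x z : V) :
    tau w U x z ≤ tau w' U x z
      + ∑ a ∈ U, ∑ b ∈ U, tau w U x a * (w s(a, b) - w' s(a, b)) * tau w U b z := by
  set κ : Sym2 V → ℝ := w - w' with hκ
  have hκ0 : ∀ e, 0 ≤ κ e := fun e => sub_nonneg.mpr (hww e)
  have hw : ∀ e, 0 ≤ w e := fun e => (hw' e).trans (hww e)
  have hd := fun t => hasDerivAt_GG w' κ U {x} (fun y => ind (y = z)) t
  have hbound : ∀ t ∈ interior (Set.Icc (0 : ℝ) 1),
      deriv (fun s : ℝ => GG (w' + s • κ) U {x} (fun y => ind (y = z))) t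
        ≤ ∑ a ∈ U, ∑ b ∈ U, tau w U x a * (w s(a, b) - w' s(a, b)) * tau w U b z := by
    intro t ht
    have ht' : t ∈ Set.Icc (0 : ℝ) 1 := interior_subset ht
    rw [(hd t).deriv]
    have h0 : ∀ e, 0 ≤ (w' + t • κ) e := fun e =>
      add_nonneg (hw' e) (mul_nonneg ht'.1 (hκ0 e))
    have h1 : ∀ e, (w' + t • κ) e ≤ w e := fun e => by
      have h2 : t * κ e ≤ κ e := mul_le_of_le_one_left (hκ0 e) ht'.2
      have h3 : κ e = w e - w' e := rfl
      show w' e + t * κ e ≤ w e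
      linarith
    have hc : ∀ a, 0 ≤ ∑ b ∈ U, κ s(a, b) * tau w U b z := fun a =>
      Finset.sum_nonneg fun b _ => mul_nonneg (hκ0 _) (tau_nonneg hw U b z)
    calc _ ≤ EK (w' + t • κ) U {x} (fun K =>
            ∑ a ∈ U, ind (a ∈ K) * ∑ b ∈ U, κ s(a, b) * tau w U b z) := by
          refine EK_mono h0 _ fun K hK => ?_
          have e : ∑ a ∈ U, ind (a ∈ K) * ∑ b ∈ U, κ s(a, b) * tau w U b z
              = ∑ a ∈ K, ∑ b ∈ U, κ s(a, b) * tau w U b z := by
            rw [← Finset.sum_subset hK fun a _ ha => by rw [ind_neg ha, zero_mul]]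
            exact Finset.sum_congr rfl fun a ha => by rw [ind_pos ha, one_mul]
          rw [e]
          refine Finset.sum_le_sum fun a _ => ?_
          refine le_trans (Finset.sum_le_sum fun b _ => ?_)
            (Finset.sum_le_sum_of_subset_of_nonneg (Finset.sdiff_subset (t := K))
              fun b _ _ => mul_nonneg (hκ0 _) (tau_nonneg hw U b z))
          rw [GG_ind, smul_eq_mul]
          exact mul_le_mul_of_nonneg_left (tau_mono h0 h1 Finset.sdiff_subset b z) (hκ0 _)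
      _ ≤ _ := by
          rw [EK_sum]
          refine Finset.sum_le_sum fun a _ => ?_
          rw [EK_mul_const]
          refine (mul_le_mul_of_nonneg_right (tau_mono h0 h1 subset_rfl x a) (hc a)).trans
            (le_of_eq ?_)
          rw [Finset.mul_sum]
          exact Finset.sum_congr rfl fun b _ => (mul_assoc _ _ _).symm
  have key := (convex_Icc (0 : ℝ) 1).image_sub_le_mul_sub_of_deriv_le
    (f := fun s : ℝ => GG (w' + s • κ) U {x} (fun y => ind (y = z)))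
    (fun t _ => (hd t).continuousAt.continuousWithinAt)
    (fun t _ => (hd t).differentiableAt.differentiableWithinAt) hbound
    0 (by simp) 1 (by simp) zero_le_one
  have e1 : w' + (1 : ℝ) • κ = w := by rw [one_smul, hκ, add_sub_cancel]
  have e0 : w' + (0 : ℝ) • κ = w' := by rw [zero_smul, add_zero]
  have e2 : ∀ v : Sym2 V → ℝ, GG v U {x} (fun y => ind (y = z)) = tau v U x z := fun v =>
    GG_ind v U {x} z
  rw [e1, e0, e2, e2] at key
  linarith

lemma wspr_pointwise (ω : Finset (Sym2 V)) (S U : Finset V) {x y : V} (hx : x ∈ S) (hy : y ∉ S) :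
    ind (y ∈ cl ω U {x}) ≤ ∑ u ∈ S, ∑ v ∈ U \ S,
      ind (u ∈ cl ω S {x} ∧ s(u, v) ∈ ω) * ind (y ∈ cl ω (U \ cl ω S {x}) {v}) := by
  classical
  set C := cl ω S {x} with hC
  have hn : ∀ u v, 0 ≤ ind (u ∈ C ∧ s(u, v) ∈ ω) * ind (y ∈ cl ω (U \ C) {v}) := fun u v =>
    mul_nonneg (ind_nonneg _) (ind_nonneg _)
  by_cases h : y ∈ cl ω U {x}
  · have key : y ∈ C ∨ ∃ u ∈ C, ∃ v ∈ U \ S, s(u, v) ∈ ω ∧ y ∈ cl ω (U \ C) {v} := by
      refine cl_induction
        (fun y => y ∈ C ∨ ∃ u ∈ C, ∃ v ∈ U \ S, s(u, v) ∈ ω ∧ y ∈ cl ω (U \ C) {v}) ?_ ?_ y h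
      · intro a ha _
        rw [Finset.mem_singleton.mp ha]
        exact Or.inl (self_mem_cl _ hx)
      · intro u v _ hu hv he
        by_cases hvC : v ∈ C
        · exact Or.inl hvC
        have hv' : v ∈ U \ C := Finset.mem_sdiff.mpr ⟨hv, hvC⟩
        rcases hu with hu | ⟨a, ha, b, hb, hab, hu⟩
        · have hvS : v ∉ S := fun h => hvC (cl_step hu h he)
          exact Or.inr ⟨u, hu, v, Finset.mem_sdiff.mpr ⟨hv, hvS⟩, he, self_mem_cl _ hv'⟩
        · exact Or.inr ⟨a, ha, b, hb, hab, cl_step hu hv' he⟩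
    rcases key with key | ⟨u, hu, v, hv, he, hy'⟩
    · exact absurd (cl_subset _ _ _ key) hy
    · rw [ind_pos h]
      refine le_trans ?_ (Finset.single_le_sum
        (fun u _ => Finset.sum_nonneg fun v _ => hn u v) (cl_subset _ _ _ hu))
      refine le_trans ?_ (Finset.single_le_sum (fun v _ => hn u v) hv)
      rw [ind_pos ⟨hu, he⟩, ind_pos hy', one_mul]
  · rw [ind_neg h]
    exact Finset.sum_nonneg fun u _ => Finset.sum_nonneg fun v _ => hn u v

lemma wspr_term {w : Sym2 V → ℝ} (hw : ∀ e, 0 ≤ w e) {S U : Finset V} (hSU : S ⊆ U) (x y : V)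
    {u v : V} (hu : u ∈ S) (hv : v ∈ U \ S) :
    Ex U.sym2 (pw w) (fun ω => ind (u ∈ cl ω S {x} ∧ s(u, v) ∈ ω) *
        ind (y ∈ cl ω (U \ cl ω S {x}) {v})) ≤ tau w U x u * w s(u, v) * tau w U v y := by
  have h0 := pw_nonneg hw
  have h1 := pw_le_one w
  have hvU : v ∈ U := (Finset.mem_sdiff.mp hv).1
  have hvS : v ∉ S := (Finset.mem_sdiff.mp hv).2
  have e1 := Ex_markov U.sym2 (pw w) S {x} (fun C ω => ind (u ∈ C ∧ s(u, v) ∈ ω))
    (fun C ω => ind (y ∈ cl ω (U \ C) {v}))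
    (fun C ω ω' h => ind_congr (and_congr_right fun huC => h u huC v))
    (fun C ω ω' h => by
      rw [cl_congr (ω := ω) (ω' := ω') {v} fun a ha b hb =>
        h a (Finset.mem_sdiff.mp ha).2 b (Finset.mem_sdiff.mp hb).2])
  have e2 : Ex U.sym2 (pw w) (fun ω => ind (u ∈ cl ω S {x}) • ind (s(u, v) ∈ ω))
      = Ex U.sym2 (pw w) (fun ω => ind (u ∈ cl ω S {x})) •
        Ex U.sym2 (pw w) (fun ω => ind (s(u, v) ∈ ω)) := by
    refine Ex_indep _ _ (fun e => e ≠ s(u, v)) _ _ ?_ ?_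
    · intro ω ω' h
      rw [cl_congr (ω := ω) (ω' := ω') {x} fun a ha b hb => h _ fun hab => ?_]
      rcases Sym2.eq_iff.mp hab with ⟨_, h2⟩ | ⟨h2, _⟩
      · exact hvS (h2 ▸ hb)
      · exact hvS (h2 ▸ ha)
    · intro ω ω' h
      exact ind_congr (h _ fun hh => hh rfl)
  have e3 : tau w S x u = Ex U.sym2 (pw w) (fun ω => ind (u ∈ cl ω S {x})) :=
    EK_eq_Ex w (Finset.sym2_mono hSU) _ _
  have e4 : Ex U.sym2 (pw w) (fun ω => ind (s(u, v) ∈ ω)) = pw w s(u, v) :=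
    Ex_ind_mem (Finset.mk_mem_sym2_iff.mpr ⟨hSU hu, hvU⟩) _
  calc _ = Ex U.sym2 (pw w) (fun ω => ind (u ∈ cl ω S {x} ∧ s(u, v) ∈ ω) •
          Ex U.sym2 (pw w) fun ω' => ind (y ∈ cl ω' (U \ cl ω S {x}) {v})) := e1
    _ ≤ Ex U.sym2 (pw w)
          (fun ω => (ind (u ∈ cl ω S {x}) • ind (s(u, v) ∈ ω)) * tau w U v y) := by
        refine Ex_mono h0 h1 fun ω _ => ?_
        rw [smul_eq_mul, smul_eq_mul, ← ind_and]
        refine mul_le_mul_of_nonneg_left ?_ (ind_nonneg _)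
        have e5 : tau w (U \ cl ω S {x}) v y
            = Ex U.sym2 (pw w) fun ω' => ind (y ∈ cl ω' (U \ cl ω S {x}) {v}) :=
          EK_eq_Ex w (Finset.sym2_mono Finset.sdiff_subset) _ _
        rw [← e5]
        exact tau_mono hw (fun _ => le_rfl) Finset.sdiff_subset v y
    _ = tau w S x u * pw w s(u, v) * tau w U v y := by
        rw [Ex_mul_const, e2, e3, e4, smul_eq_mul]
    _ ≤ _ := mul_le_mul_of_nonneg_right
        (mul_le_mul (tau_mono hw (fun _ => le_rfl) hSU x u) (pw_le w _) (h0 _)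
          (tau_nonneg hw U x u)) (tau_nonneg hw U v y)

/-- pointwise Simon-Lieb inequality (adapt `sl_pointwise`, `sl_term` with domain `S ∩ U`) -/
theorem sl_tau {w : Sym2 V → ℝ} (hw : ∀ e, 0 ≤ w e) (S U : Finset V) {x y : V} (hx : x ∈ S)
    (hy : y ∉ S) :
    tau w U x y ≤ ∑ u ∈ S, ∑ v ∈ U \ S, tau w U x u * w s(u, v) * tau w U v y := by
  have hn : ∀ u, 0 ≤ ∑ v ∈ U \ S, tau w U x u * w s(u, v) * tau w U v y := fun u =>
    Finset.sum_nonneg fun v _ =>
      mul_nonneg (mul_nonneg (tau_nonneg hw U x u) (hw _)) (tau_nonneg hw U v y)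
  by_cases hxU : x ∈ U
  · have hx' : x ∈ S ∩ U := Finset.mem_inter.mpr ⟨hx, hxU⟩
    have hy' : y ∉ S ∩ U := fun h => hy (Finset.mem_inter.mp h).1
    calc tau w U x y ≤ Ex U.sym2 (pw w) (fun ω => ∑ u ∈ S ∩ U, ∑ v ∈ U \ (S ∩ U),
          ind (u ∈ cl ω (S ∩ U) {x} ∧ s(u, v) ∈ ω) *
            ind (y ∈ cl ω (U \ cl ω (S ∩ U) {x}) {v})) :=
          Ex_mono (pw_nonneg hw) (pw_le_one w) fun ω _ => wspr_pointwise ω (S ∩ U) U hx' hy'
      _ ≤ ∑ u ∈ S ∩ U, ∑ v ∈ U \ (S ∩ U), tau w U x u * w s(u, v) * tau w U v y := by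
          rw [Ex_sum]
          refine Finset.sum_le_sum fun u hu => ?_
          rw [Ex_sum]
          exact Finset.sum_le_sum fun v hv => wspr_term hw Finset.inter_subset_right x y hu hv
      _ ≤ _ := by
          rw [Finset.sdiff_inter_self_right]
          exact Finset.sum_le_sum_of_subset_of_nonneg Finset.inter_subset_left fun u _ _ => hn u
  · rw [tau_symm, tau_of_notMem w y hxU]
    exact Finset.sum_nonneg fun u _ => hn u

end Pool.Agent.Lib.MP_6fc7d9_pr
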