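import Pool.Agent.Lib.MP_6fc7d9_pr.WTight
import Pool.Agent.Lib.MP_6fc7d9_pr.ODE

set_option linter.unusedSectionVars false

namespace Pool.Agent.Lib.MP_6fc7d9_pr
open Finset

section aux
variable {V : Type*} [DecidableEq V]

lemma wtlem_cl_off {ω : Finset (Sym2 V)} {U : Finset V} {x v : V} (hv : v ∈ U \ cl ω U {x}) :
    cl ω (U \ cl ω U {x}) {v} = cl ω U {v} := by
  apply Finset.Subset.antisymm (cl_mono subset_rfl Finset.sdiff_subset subset_rfl)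
  refine cl_subset_of_closed ?_ ?_
  · intro z hz _
    rw [Finset.mem_singleton.mp hz]
    exact self_mem_cl ω hv
  · intro a b ha ha' hb he
    refine cl_step ha' (Finset.mem_sdiff.mpr ⟨hb, fun hbK => ?_⟩) he
    have h1 : b ∈ cl ω U {v} := cl_step ha hb he
    exact (Finset.mem_sdiff.mp hv).2 (cl_trans hbK (mem_cl_symm h1))

lemma wtlem_block (κ : ℝ) (B : Finset V) {u v : V} (huv : u ≠ v) :
    blockK κ B s(u, v) = κ * (ind (u ∈ B) * ind (v ∈ B)) := by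
  unfold blockK
  rw [← ind_and]
  by_cases h : u ∈ B ∧ v ∈ B
  · rw [if_pos ⟨Finset.mk_mem_sym2_iff.mpr h, by simpa using huv⟩, ind_pos h, mul_one]
  · rw [if_neg (fun h' => h (Finset.mk_mem_sym2_iff.mp h'.1)), ind_neg h, mul_zero]

lemma wtlem_block_nonneg {κ : ℝ} (hκ : 0 ≤ κ) (B : Finset V) (e : Sym2 V) : 0 ≤ blockK κ B e := by
  unfold blockK
  split_ifs
  · exact hκ
  · exact le_rfl

lemma wtlem_sum_ind {U B : Finset V} (hB : B ⊆ U) (f : V → ℝ) :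
    ∑ v ∈ U, ind (v ∈ B) * f v = ∑ v ∈ B, f v := by
  rw [← Finset.sum_subset hB (fun v _ hv => by rw [ind_neg hv, zero_mul])]
  exact Finset.sum_congr rfl fun v hv => by rw [ind_pos hv, one_mul]

lemma wtlem_pointwise (κ : ℝ) {U B : Finset V} (hB : B ⊆ U) (ω : Finset (Sym2 V)) :
    ∑ e ∈ U.sym2, blockK κ B e • (∑ x ∈ B, ∑ y ∈ cl (insert e ω) U {x}, ind (y ∈ B)
        - ∑ x ∈ B, ∑ y ∈ cl ω U {x}, ind (y ∈ B))
      = κ * ((∑ x ∈ B, ∑ y ∈ cl ω U {x}, ind (y ∈ B)) ^ 2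
        - ∑ x ∈ B, (∑ y ∈ cl ω U {x}, ind (y ∈ B)) ^ 3) := by
  simp only [← Finset.sum_sub_distrib, Finset.smul_sum]
  rw [Finset.sum_comm]
  have h1 : ∀ x ∈ B, ∑ e ∈ U.sym2, blockK κ B e • (∑ y ∈ cl (insert e ω) U {x}, ind (y ∈ B)
        - ∑ y ∈ cl ω U {x}, ind (y ∈ B))
      = κ * ((∑ y ∈ cl ω U {x}, ind (y ∈ B)) * (∑ z ∈ B, ∑ y ∈ cl ω U {z}, ind (y ∈ B))
        - (∑ y ∈ cl ω U {x}, ind (y ∈ B)) ^ 3) := by
    intro x _
    rw [ode_pointwise]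
    have h2 : ∀ u ∈ cl ω U {x}, ∑ v ∈ U \ cl ω U {x},
        blockK κ B s(u, v) • ∑ y ∈ cl ω (U \ cl ω U {x}) {v}, ind (y ∈ B)
        = κ * (ind (u ∈ B) * ∑ v ∈ U \ cl ω U {x},
          ind (v ∈ B) * ∑ y ∈ cl ω U {v}, ind (y ∈ B)) := by
      intro u hu
      rw [Finset.mul_sum, Finset.mul_sum]
      refine Finset.sum_congr rfl fun v hv => ?_
      have huv : u ≠ v := fun h => (Finset.mem_sdiff.mp hv).2 (h ▸ hu)
      rw [wtlem_cl_off hv, wtlem_block κ B huv, smul_eq_mul]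
      ring
    rw [Finset.sum_congr rfl h2, ← Finset.mul_sum, ← Finset.sum_mul]
    have h3 : ∑ v ∈ U \ cl ω U {x}, ind (v ∈ B) * ∑ y ∈ cl ω U {v}, ind (y ∈ B)
        = ∑ z ∈ B, ∑ y ∈ cl ω U {z}, ind (y ∈ B) - (∑ y ∈ cl ω U {x}, ind (y ∈ B)) ^ 2 := by
      rw [Finset.sum_sdiff_eq_sub (cl_subset ω U {x}), wtlem_sum_ind hB]
      have h4 : ∑ v ∈ cl ω U {x}, ind (v ∈ B) * ∑ y ∈ cl ω U {v}, ind (y ∈ B)
          = ∑ v ∈ cl ω U {x}, ind (v ∈ B) * ∑ y ∈ cl ω U {x}, ind (y ∈ B) :=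
        Finset.sum_congr rfl fun v hv => by rw [cl_eq_of_mem hv]
      rw [h4, ← Finset.sum_mul, sq]
    rw [h3]
    ring
  rw [Finset.sum_congr rfl h1, ← Finset.mul_sum, Finset.sum_sub_distrib, ← Finset.sum_mul, sq]

lemma wtlem_T (w : Sym2 V → ℝ) (U B : Finset V) :
    Ex U.sym2 (pw w) (fun ω => ∑ x ∈ B, ∑ y ∈ cl ω U {x}, ind (y ∈ B))
      = ∑ x ∈ B, ∑ y ∈ B, tau w U x y := by
  rw [Ex_sum]
  refine Finset.sum_congr rfl fun x _ => ?_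
  unfold tau
  rw [← EK_sum]
  refine Ex_congr fun ω _ => ?_
  show ∑ y ∈ cl ω U {x}, ind (y ∈ B) = ∑ y ∈ B, ind (y ∈ cl ω U {x})
  rw [sum_ind_mem, sum_ind_mem, Finset.inter_comm]

lemma wtlem_jensen {ε : Type*} [DecidableEq ε] {F : Finset ε} {p : ε → ℝ} (h0 : ∀ e, 0 ≤ p e)
    (h1 : ∀ e, p e ≤ 1) (f : Finset ε → ℝ) : (Ex F p f) ^ 2 ≤ Ex F p (fun ω => f ω ^ 2) := by
  have h2 : Ex F p (fun ω => 2 * Ex F p f * f ω - (Ex F p f) ^ 2) ≤ Ex F p (fun ω => f ω ^ 2) :=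
    Ex_mono h0 h1 fun ω _ => by nlinarith [sq_nonneg (f ω - Ex F p f)]
  rw [Ex_sub, Ex_const_mul, Ex_const] at h2
  nlinarith

end aux

/-- Let `T t = ∑ x ∈ B, ∑ y ∈ B, tau (w' + t • blockK κ B) U x y`, the expectation of
`S ω = ∑ x ∈ B, |cl ω U {x} ∩ B|`.  By `hasDerivAt_Ex` and `ode_pointwise` (for `v ∉ K` the
cluster of `v` off `K` is the cluster of `v`) the derivative is
`κ E (S^2 - ∑ x ∈ B, |cl x ∩ B|^3) ≥ κ (T^2 - C a^2 T)` (Jensen, `moment_of_big` with `p = 3`,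
`bigP_mono`).  If `T 0 > 2 C a^2` then `T' ≥ κ T^2 / 2` on `[0,1]` (`T` is monotone), so
`1/T 0 ≥ κ/2`. -/
theorem t_lemma : ∃ CT : ℝ, 0 < CT ∧ ∀ (V : Type) [DecidableEq V] (w' : Sym2 V → ℝ),
    (∀ e, 0 ≤ w' e) → ∀ (U B : Finset V), B ⊆ U → ∀ κ a : ℝ, 0 < κ → 1 ≤ a →
      BigP (w' + blockK κ B) U (fun y => ind (y ∈ B)) a ≤ 1 / 2 →
      ∑ x ∈ B, ∑ y ∈ B, tau w' U x y ≤ CT * a ^ 2 + 2 / κ := by
  obtain ⟨C, hC, hmom⟩ := moment_of_big 3 (by norm_num)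
  refine ⟨2 * C, by positivity, ?_⟩
  intro V _ w' hw' U B hB κ a hκ ha hbig
  have hbk := wtlem_block_nonneg hκ.le B
  set T : ℝ → ℝ := fun t => Ex U.sym2 (pw (w' + t • blockK κ B))
    (fun ω => ∑ x ∈ B, ∑ y ∈ cl ω U {x}, ind (y ∈ B)) with hT
  set D : ℝ → ℝ := fun t => κ * Ex U.sym2 (pw (w' + t • blockK κ B))
    (fun ω => (∑ x ∈ B, ∑ y ∈ cl ω U {x}, ind (y ∈ B)) ^ 2
        - ∑ x ∈ B, (∑ y ∈ cl ω U {x}, ind (y ∈ B)) ^ 3) with hD
  have hder : ∀ t, HasDerivAt T (D t) t := by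
    intro t
    have h := hasDerivAt_Ex U.sym2 w' (blockK κ B)
      (fun ω => ∑ x ∈ B, ∑ y ∈ cl ω U {x}, ind (y ∈ B)) t
    refine HasDerivAt.congr_deriv h ?_
    simp only [← Ex_smul]
    rw [← Ex_sum]
    simp only [wtlem_pointwise κ hB]
    rw [Ex_const_mul]
  have hwt : ∀ t : ℝ, 0 ≤ t → ∀ e, 0 ≤ (w' + t • blockK κ B) e := by
    intro t ht e
    simp only [Pi.add_apply, Pi.smul_apply, smul_eq_mul]
    exact add_nonneg (hw' e) (mul_nonneg ht (hbk e))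
  have hT0 : T 0 = ∑ x ∈ B, ∑ y ∈ B, tau w' U x y := by
    simp only [hT, zero_smul, add_zero]
    exact wtlem_T _ _ _
  have hmono : ∀ t : ℝ, 0 ≤ t → T 0 ≤ T t := by
    intro t ht
    rw [hT0]
    simp only [hT]
    rw [wtlem_T]
    refine Finset.sum_le_sum fun x _ => Finset.sum_le_sum fun y _ => ?_
    refine tau_mono hw' (fun e => ?_) subset_rfl x y
    simp only [Pi.add_apply, Pi.smul_apply, smul_eq_mul]
    exact le_add_of_nonneg_right (mul_nonneg ht (hbk e))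
  have hlow : ∀ t : ℝ, 0 ≤ t → t ≤ 1 → κ * (T t ^ 2 - C * a ^ 2 * T t) ≤ D t := by
    intro t ht ht1
    refine mul_le_mul_of_nonneg_left ?_ hκ.le
    rw [Ex_sub]
    refine sub_le_sub (wtlem_jensen (pw_nonneg (hwt t ht)) (pw_le_one _) _) ?_
    have hb : BigP (w' + t • blockK κ B) U (fun y => ind (y ∈ B)) a ≤ 1 / 2 := by
      refine le_trans (bigP_mono (hwt t ht) (fun e => ?_) U (fun y => ind_nonneg _) le_rfl) hbig
      simp only [Pi.add_apply, Pi.smul_apply, smul_eq_mul]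
      nlinarith [hbk e]
    simp only [hT]
    rw [Ex_sum, Ex_sum, Finset.mul_sum]
    refine Finset.sum_le_sum fun x _ => ?_
    exact hmom V _ (hwt t ht) U (fun y => ind (y ∈ B)) (fun y => ind_nonneg _) a (by linarith)
      (fun y _ => (ind_le_one _).trans (by linarith)) hb x
  rw [← hT0]
  have hk2 : 0 < 2 / κ := by positivity
  have hCa : 0 < C * a ^ 2 := by positivity
  by_cases hcase : T 0 ≤ 2 * C * a ^ 2
  · linarith
  push Not at hcase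
  have hpos : ∀ t : ℝ, 0 ≤ t → 0 < T t := fun t ht => by linarith [hmono t ht]
  obtain ⟨c, hc, hcs⟩ := exists_hasDerivAt_eq_slope (fun t => (T t)⁻¹)
    (fun t => -D t / T t ^ 2) (show (0 : ℝ) < 1 by norm_num)
    (fun t ht => ((hder t).inv (hpos t ht.1).ne').continuousAt.continuousWithinAt)
    (fun t ht => (hder t).inv (hpos t ht.1.le).ne')
  have hc0 := hpos c hc.1.le
  have h1 := hlow c hc.1.le hc.2.le
  have h2 := hmono c hc.1.le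
  have h3 : -D c / T c ^ 2 ≤ -(κ / 2) := by
    rw [div_le_iff₀ (by positivity)]
    have h4 : 0 ≤ T c * (T c - 2 * C * a ^ 2) := mul_nonneg hc0.le (by linarith)
    nlinarith [mul_nonneg hκ.le h4]
  have h4 : 0 < (T 1)⁻¹ := inv_pos.mpr (hpos 1 (by norm_num))
  rw [hcs] at h3
  simp only [sub_zero, div_one] at h3
  have h5 : κ / 2 ≤ (T 0)⁻¹ := by linarith
  have h6 : T 0 ≤ 2 / κ := by
    have h7 := hpos 0 le_rfl
    rw [le_div_iff₀ hκ]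
    have h8 := mul_le_mul_of_nonneg_left h5 h7.le
    rw [mul_inv_cancel₀ h7.ne'] at h8
    linarith
  linarith

end Pool.Agent.Lib.MP_6fc7d9_pr
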