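import Pool.Agent.Lib.MP_6fc7d9_pr.WMlem
import Pool.Agent.Lib.MP_6fc7d9_pr.WTlem
import Pool.Agent.Lib.MP_6fc7d9_pr.WSpr

set_option linter.unusedSectionVars false

namespace Pool.Agent.Lib.MP_6fc7d9_pr
open Finset

lemma wchain_mem {d L n : ℕ} {g y : Zd d} :
    y ∈ Blk L n g ↔ ∀ k, g k ≤ y k ∧ y k < g k + ((L ^ n : ℕ) : ℤ) := by
  simp only [Blk, Fintype.mem_piFinset, Finset.mem_Ico]

/-- lower corner of the child `j` -/
def wchainCorner {d : ℕ} (L n : ℕ) (g : Zd d) (j : Fin d → Fin L) : Zd d :=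
  fun k => g k + ((L ^ n : ℕ) : ℤ) * ((j k : ℕ) : ℤ)

lemma wchain_sub {d L n : ℕ} (g : Zd d) (j : Fin d → Fin L) :
    Blk L n (wchainCorner L n g j) ⊆ Blk L (n + 1) g := by
  intro y hy
  rw [wchain_mem] at hy ⊢
  intro k
  obtain ⟨h1, h2⟩ := hy k
  simp only [wchainCorner] at h1 h2
  have hj : ((j k : ℕ) : ℤ) + 1 ≤ (L : ℤ) := by exact_mod_cast (j k).isLt
  have hj0 : (0 : ℤ) ≤ ((j k : ℕ) : ℤ) := Int.natCast_nonneg _
  have hP : (0 : ℤ) ≤ ((L ^ n : ℕ) : ℤ) := Int.natCast_nonneg _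
  have hE : ((L ^ (n + 1) : ℕ) : ℤ) = ((L ^ n : ℕ) : ℤ) * (L : ℤ) := by push_cast; ring
  rw [hE]
  constructor
  · nlinarith [mul_nonneg hP hj0]
  · nlinarith [mul_le_mul_of_nonneg_left hj hP]

lemma wchain_disj {d L n : ℕ} (g : Zd d) {j j' : Fin d → Fin L} (h : j ≠ j') :
    Disjoint (Blk L n (wchainCorner L n g j)) (Blk L n (wchainCorner L n g j')) := by
  rw [Finset.disjoint_left]
  intro y hy hy'
  apply h
  funext k
  obtain ⟨h1, h2⟩ := wchain_mem.1 hy k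
  obtain ⟨h3, h4⟩ := wchain_mem.1 hy' k
  simp only [wchainCorner] at h1 h2 h3 h4
  have hP : (0 : ℤ) ≤ ((L ^ n : ℕ) : ℤ) := Int.natCast_nonneg _
  apply Fin.ext
  rcases lt_trichotomy (j k : ℕ) (j' k : ℕ) with hlt | heq | hlt
  · have : ((j k : ℕ) : ℤ) + 1 ≤ ((j' k : ℕ) : ℤ) := by exact_mod_cast hlt
    nlinarith [mul_le_mul_of_nonneg_left this hP]
  · exact heq
  · have : ((j' k : ℕ) : ℤ) + 1 ≤ ((j k : ℕ) : ℤ) := by exact_mod_cast hlt
    nlinarith [mul_le_mul_of_nonneg_left this hP]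

lemma wchain_norm {d L n : ℕ} (hL : 1 ≤ L) {g x y : Zd d} (hx : x ∈ Blk L n g)
    (hy : y ∈ Blk L n g) : 1 + ‖y - x‖ ≤ (L : ℝ) ^ n := by
  have h1 : (1 : ℝ) ≤ (L : ℝ) ^ n := one_le_pow₀ (by exact_mod_cast hL)
  have : ‖y - x‖ ≤ (L : ℝ) ^ n - 1 := by
    rw [norm_le_iff (by linarith)]
    intro k
    obtain ⟨h1, h2⟩ := wchain_mem.1 hx k
    obtain ⟨h3, h4⟩ := wchain_mem.1 hy k
    have h5 : |y k - x k| ≤ ((L ^ n : ℕ) : ℤ) - 1 := by
      rw [abs_le]; constructor <;> omega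
    have h6 : ((|y k - x k| : ℤ) : ℝ) ≤ ((((L ^ n : ℕ) : ℤ) - 1 : ℤ) : ℝ) := by exact_mod_cast h5
    rw [Pi.sub_apply]
    push_cast at h6 ⊢
    exact h6
  linarith

lemma wchain_kk {d L n : ℕ} (hL : 1 ≤ L) {s : ℝ} (hs : 0 ≤ s) {g x y : Zd d} (hx : x ∈ Blk L n g)
    (hy : y ∈ Blk L n g) : 1 / ((L : ℝ) ^ (s / 2)) ^ (2 * n) ≤ kk s (y - x) := by
  have hL0 : (0 : ℝ) < L := by exact_mod_cast hL
  have h1 : ((L : ℝ) ^ (s / 2)) ^ (2 * n) = ((L : ℝ) ^ n) ^ s := by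
    rw [← Real.rpow_natCast, ← Real.rpow_mul hL0.le, ← Real.rpow_natCast (L : ℝ) n,
      ← Real.rpow_mul hL0.le]
    congr 1
    push_cast
    ring
  rw [h1, one_div, ← Real.rpow_neg (by positivity), kk]
  exact Real.rpow_le_rpow_of_nonpos (by positivity) (wchain_norm hL hx hy) (by linarith)

lemma wchain_L (d : ℕ) {α : ℝ} (hα : 0 < α) (hd : α < d) :
    ∃ L : ℕ, 2 ≤ L ∧ 80 * (L : ℝ) ^ (((d : ℝ) + α) / 2) ≤ (L : ℝ) ^ d ∧
      2 ≤ ((L : ℝ) ^ (((d : ℝ) + α) / 2)) ^ 2 := by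
  have hδ : 0 < ((d : ℝ) - α) / 2 := by linarith
  have ht := (tendsto_rpow_atTop hδ).comp tendsto_natCast_atTop_atTop
  obtain ⟨L, hL1, hL2⟩ := ((ht.eventually_ge_atTop 80).and (Filter.eventually_ge_atTop 2)).exists
  have hL0 : (0 : ℝ) < L := by exact_mod_cast (by omega : 0 < L)
  have hL2' : (2 : ℝ) ≤ L := by exact_mod_cast hL2
  have hd1 : (1 : ℝ) ≤ d := by
    have : 0 < d := by exact_mod_cast hα.trans hd
    exact_mod_cast this
  refine ⟨L, hL2, ?_, ?_⟩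
  · have h1 : (L : ℝ) ^ d = (L : ℝ) ^ (((d : ℝ) - α) / 2) * (L : ℝ) ^ (((d : ℝ) + α) / 2) := by
      rw [← Real.rpow_add hL0, ← Real.rpow_natCast]
      congr 1
      ring
    rw [h1]
    exact mul_le_mul_of_nonneg_right hL1 (by positivity)
  · rw [← Real.rpow_natCast, ← Real.rpow_mul hL0.le]
    calc (2 : ℝ) ≤ L := hL2'
      _ = (L : ℝ) ^ (1 : ℝ) := (Real.rpow_one _).symm
      _ ≤ _ := Real.rpow_le_rpow_of_exponent_le (by linarith) (by push_cast; linarith)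

lemma wchain_blockK_nonneg {V : Type*} [DecidableEq V] {κ : ℝ} (hκ : 0 ≤ κ) (B : Finset V)
    (e : Sym2 V) : 0 ≤ blockK κ B e := by
  unfold blockK; split_ifs; exacts [hκ, le_rfl]

lemma wchain_blockK_le {V : Type*} [DecidableEq V] {κ : ℝ} (hκ : 0 ≤ κ) (B : Finset V)
    (a b : V) : blockK κ B s(a, b) ≤ κ * (ind (a ∈ B) * ind (b ∈ B)) := by
  unfold blockK
  split_ifs with h
  · have h1 := Finset.mk_mem_sym2_iff.1 h.1
    rw [ind_pos h1.1, ind_pos h1.2]; simp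
  · exact mul_nonneg hκ (mul_nonneg (ind_nonneg _) (ind_nonneg _))

lemma wchain_sum_ind {V : Type*} [DecidableEq V] {U B : Finset V} (hB : B ⊆ U) (f : V → ℝ) :
    ∑ a ∈ U, ind (a ∈ B) * f a = ∑ a ∈ B, f a := by
  rw [← Finset.sum_subset hB fun a _ ha => by rw [ind_neg ha, zero_mul]]
  exact Finset.sum_congr rfl fun a ha => by rw [ind_pos ha, one_mul]

lemma wchain_cmp {V : Type*} [DecidableEq V] {w' : Sym2 V → ℝ} {κ : ℝ} (hκ : 0 ≤ κ)
    {U B : Finset V} (hB : B ⊆ U) (h0 : ∀ e, 0 ≤ (w' - blockK κ B) e) (x y : V) :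
    tau w' U x y ≤ tau (w' - blockK κ B) U x y
      + κ * ((∑ u ∈ B, tau w' U x u) * ∑ u ∈ B, tau w' U y u) := by
  have hle : ∀ e, (w' - blockK κ B) e ≤ w' e := fun e => by
    rw [Pi.sub_apply]; linarith [wchain_blockK_nonneg hκ B e]
  have hw' : ∀ e, 0 ≤ w' e := fun e => (h0 e).trans (hle e)
  refine (sprinkle h0 hle U x y).trans (add_le_add le_rfl ?_)
  rw [← wchain_sum_ind hB, ← wchain_sum_ind hB fun u => tau w' U y u, Finset.sum_mul_sum,
    Finset.mul_sum]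
  refine Finset.sum_le_sum fun a _ => ?_
  rw [Finset.mul_sum]
  refine Finset.sum_le_sum fun b _ => ?_
  rw [Pi.sub_apply, sub_sub_cancel, tau_symm w' U b y]
  have h1 := wchain_blockK_le hκ B a b
  have h2 := mul_nonneg (tau_nonneg hw' U x a) (tau_nonneg hw' U y b)
  nlinarith [mul_le_mul_of_nonneg_left h1 h2]

/-- One step down the chain.  Choose `L ≥ 2` with `80 lam ≤ L^d` (`lam = L^((d+α)/2)`), `A ≥ 1` with
`L^d exp (-c₀ A^2 / (2 lam^2)) ≤ 1/2`, `A₂ = (CT A^2 + 4/c₀) lam^2 + 1`, `A₃ = √(c₀/2) A₂`.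
With `B = Blk L (n+1) g`, `κ = (c₀/2) / lam^(2(n+1))` put `w'' = w' - blockK κ B`,
`G' x = G x + √κ ∑ u ∈ B, tau w' U x u` (`sprinkle`).  The children are
`Blk L n (g + L^n j)`, `j : Fin d → Fin L`; they partition `B`.  Fewer than half of them have
`BigP w'' .. (A lam^n) > 1/2` (else `m_lemma` contradicts `bigP_tail` with `k = 5`), and fewer than
half have `∑ G' > 2 L^(-d) ∑_B G'`; take a child with neither defect.  `two` is `t_lemma`. -/
theorem chain_step (d : ℕ) {α c₀ : ℝ} (hα : 0 < α) (hd : α < d) (hc : 0 < c₀) :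
    ∃ (L : ℕ) (A A₂ A₃ : ℝ), 2 ≤ L ∧ 1 ≤ A ∧ 1 ≤ A₂ ∧ 0 ≤ A₃ ∧
      ∀ w : Sym2 (Zd d) → ℝ, (∀ x y, x ≠ y → c₀ * kk (d + α) (y - x) ≤ w s(x, y)) →
      ∀ (U : Finset (Zd d)) (n : ℕ) (g : Zd d) (w' : Sym2 (Zd d) → ℝ) (G : Zd d → ℝ),
        ChainInv w U c₀ ((L : ℝ) ^ (((d : ℝ) + α) / 2)) A A₂ A₃ L (n + 1) g w' G →
        ∃ g' w'' G', ChainInv w U c₀ ((L : ℝ) ^ (((d : ℝ) + α) / 2)) A A₂ A₃ L n g' w'' G' ∧
          Blk L n g' ⊆ Blk L (n + 1) g := by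
  obtain ⟨CT, hCT, hT⟩ := t_lemma
  obtain ⟨L, hL2, hL80, hlam2⟩ := wchain_L d hα hd
  have hL1 : 1 ≤ L := by omega
  have hL0 : (0 : ℝ) < L := by exact_mod_cast hL1
  have hs : (0 : ℝ) ≤ (d : ℝ) + α := by positivity
  have hkk : ∀ {n : ℕ} {g x y : Zd d}, x ∈ Blk L n g → y ∈ Blk L n g →
      1 / ((L : ℝ) ^ (((d : ℝ) + α) / 2)) ^ (2 * n) ≤ kk (d + α) (y - x) :=
    fun hx hy => wchain_kk hL1 hs hx hy
  have hlam1 : (1 : ℝ) ≤ (L : ℝ) ^ (((d : ℝ) + α) / 2) :=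
    Real.one_le_rpow (by exact_mod_cast hL1) (by positivity)
  obtain ⟨lam, hlam⟩ : ∃ lam : ℝ, lam = (L : ℝ) ^ (((d : ℝ) + α) / 2) := ⟨_, rfl⟩
  rw [← hlam] at hL80 hlam2 hkk hlam1
  have hlam0 : 0 < lam := by linarith
  have hLd : (0 : ℝ) < (L : ℝ) ^ d := by positivity
  set A : ℝ := 1 + 4 * lam ^ 2 * (L : ℝ) ^ d / c₀ with hA
  have hA1 : 1 ≤ A := by
    have : 0 ≤ 4 * lam ^ 2 * (L : ℝ) ^ d / c₀ := by positivity
    linarith
  set A₂ : ℝ := (CT * A ^ 2 + 4 / c₀) * lam ^ 2 + 1 with hA₂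
  have hA₂1 : 1 ≤ A₂ := by
    have : 0 ≤ (CT * A ^ 2 + 4 / c₀) * lam ^ 2 := by positivity
    linarith
  set A₃ : ℝ := Real.sqrt (c₀ / 2) * A₂ with hA₃
  have hA₃0 : 0 < A₃ := mul_pos (Real.sqrt_pos.2 (by positivity)) (by linarith)
  refine ⟨L, A, A₂, A₃, hL2, hA1, hA₂1, hA₃0.le, ?_⟩
  rw [← hlam]
  intro w hw U n g w' G H
  set B := Blk L (n + 1) g with hB
  set κ : ℝ := (c₀ / 2) / lam ^ (2 * (n + 1)) with hκ
  have hP : 0 < lam ^ (2 * (n + 1)) := by positivity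
  have hκ0 : 0 < κ := by positivity
  have hκ2 : c₀ / lam ^ (2 * (n + 1)) = 2 * κ := by rw [hκ]; ring
  have hκ1 : c₀ / lam ^ (2 * (n + 1 + 1)) ≤ κ := by
    rw [hκ, div_div, show 2 * (n + 1 + 1) = 2 + 2 * (n + 1) by ring, pow_add]
    exact div_le_div_of_nonneg_left hc.le (by positivity)
      (mul_le_mul_of_nonneg_right hlam2 hP.le)
  have h0 : ∀ e, 0 ≤ (w' - blockK κ B) e := by
    intro e
    induction e using Sym2.ind with
    | h x y =>
      rw [Pi.sub_apply, blockK]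
      split_ifs with h
      · have h1 := Finset.mk_mem_sym2_iff.1 h.1
        have hxy : x ≠ y := fun hxy => h.2 (Sym2.mk_isDiag_iff.2 hxy)
        have h2 := H.keep x h1.1 y h1.2 hxy
        have h3 := hw x y hxy
        have h4 := mul_le_mul_of_nonneg_left (hkk h1.1 h1.2) hc.le
        rw [mul_one_div, hκ2] at h4
        linarith
      · simpa using H.nonneg _
  have hadd : w' - blockK κ B + blockK κ B = w' := sub_add_cancel _ _
  have hpow : ∀ m : ℕ, 1 ≤ lam ^ m := fun m => one_le_pow₀ hlam1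
  have hAm : ∀ m : ℕ, 1 ≤ A * lam ^ m := fun m => one_le_mul_of_one_le_of_one_le hA1 (hpow m)
  -- the new function `G'`
  set G' : Zd d → ℝ := fun x => G x + Real.sqrt κ * ∑ u ∈ B, tau w' U x u with hG'
  have hS : ∀ x, 0 ≤ ∑ u ∈ B, tau w' U x u := fun x =>
    Finset.sum_nonneg fun u _ => tau_nonneg H.nonneg U x u
  have hG'0 : ∀ x, 0 ≤ G' x := fun x =>
    add_nonneg (H.G_nonneg x) (mul_nonneg (Real.sqrt_nonneg _) (hS x))
  have hsq : Real.sqrt κ = Real.sqrt (c₀ / 2) / lam ^ (n + 1) := by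
    rw [hκ, Real.sqrt_div (by positivity), show 2 * (n + 1) = (n + 1) * 2 by ring, pow_mul,
      Real.sqrt_sq (by positivity)]
  have hG'sum : ∑ x ∈ B, G' x ≤ 2 * A₃ * lam ^ (n + 1) := by
    simp only [hG']
    rw [Finset.sum_add_distrib, ← Finset.mul_sum]
    have h1 := H.G_sum
    have h2 := mul_le_mul_of_nonneg_left H.two (Real.sqrt_nonneg κ)
    have h3 : Real.sqrt κ * (A₂ * lam ^ (2 * (n + 1))) = A₃ * lam ^ (n + 1) := by
      rw [hsq, hA₃, show 2 * (n + 1) = (n + 1) + (n + 1) by ring, pow_add lam (n + 1) (n + 1)]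
      field_simp
    rw [h3] at h2
    linarith
  -- children
  let C : (Fin d → Fin L) → Finset (Zd d) := fun j => Blk L n (wchainCorner L n g j)
  have hCB : ∀ j, C j ⊆ B := fun j => wchain_sub g j
  have hCd : ∀ j j', j ≠ j' → Disjoint (C j) (C j') := fun j j' h => wchain_disj g h
  have hcard : (Fintype.card (Fin d → Fin L) : ℝ) = (L : ℝ) ^ d := by simp
  have : Nonempty (Fin d → Fin L) := ⟨fun _ => ⟨0, by omega⟩⟩
  classical
  set Bad₁ : Finset (Fin d → Fin L) := Finset.univ.filter fun j =>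
    1 / 2 < BigP (w' - blockK κ B) U (fun y => ind (y ∈ C j)) (A * lam ^ n) with hBad₁
  set Bad₂ : Finset (Fin d → Fin L) := Finset.univ.filter fun j =>
    A₃ * lam ^ n < ∑ x ∈ C j, G' x with hBad₂
  have hb1 : 2 * Bad₁.card < Fintype.card (Fin d → Fin L) := by
    by_contra hcon
    push Not at hcon
    have hexp : Fintype.card (Fin d → Fin L) * Real.exp (-(κ * (A * lam ^ n) ^ 2)) ≤ 1 / 2 := by
      rw [hcard]
      have h1 : κ * (A * lam ^ n) ^ 2 = c₀ * A ^ 2 / (2 * lam ^ 2) := by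
        rw [hκ]; field_simp; ring
      have h2 : 2 * (L : ℝ) ^ d ≤ κ * (A * lam ^ n) ^ 2 := by
        rw [h1, le_div_iff₀ (by positivity)]
        have h3 : c₀ * A = c₀ + 4 * lam ^ 2 * (L : ℝ) ^ d := by rw [hA]; field_simp
        have h4 : c₀ * A ≤ c₀ * A ^ 2 := by
          have := mul_le_mul_of_nonneg_left hA1 (mul_nonneg hc.le (by linarith : (0 : ℝ) ≤ A))
          nlinarith
        nlinarith
      have h5 := Real.add_one_le_exp (κ * (A * lam ^ n) ^ 2)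
      rw [Real.exp_neg, ← div_eq_mul_inv, div_le_iff₀ (Real.exp_pos _)]
      linarith
    have hm := m_lemma h0 H.sub C hCB hCd hκ0.le (lt_of_lt_of_le one_pos (hAm n)) hexp Bad₁ hcon
      fun j hj => (Finset.mem_filter.1 hj).2.le
    rw [hadd, hcard] at hm
    have htail := bigP_tail H.nonneg U (ν := fun y => ind (y ∈ B)) (fun _ => ind_nonneg _)
      (lt_of_lt_of_le one_pos (hAm (n + 1)))
      (fun y _ => (ind_le_one _).trans (by linarith [hAm (n + 1)])) H.big 5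
    have hmono := bigP_mono H.nonneg (fun _ => le_rfl) U (ν := fun y => ind (y ∈ B))
      (fun _ => ind_nonneg _) (r := (L : ℝ) ^ d * (A * lam ^ n) / 8)
      (r' := 2 * ((5 : ℕ) : ℝ) * (A * lam ^ (n + 1))) (by
        have := mul_le_mul_of_nonneg_right hL80 (zero_le_one.trans (hAm n))
        push_cast
        rw [pow_succ]
        nlinarith)
    norm_num at htail hm hmono
    linarith
  have hb2 : (Bad₂.card : ℝ) ≤ 2 * lam := by
    have h1 : Bad₂.card • (A₃ * lam ^ n) ≤ ∑ j ∈ Bad₂, ∑ x ∈ C j, G' x :=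
      Finset.card_nsmul_le_sum _ _ _ fun j hj => (Finset.mem_filter.1 hj).2.le
    have h2 : ∑ j ∈ Bad₂, ∑ x ∈ C j, G' x ≤ ∑ x ∈ B, G' x := by
      rw [← Finset.sum_biUnion fun j _ j' _ h => hCd j j' h]
      exact Finset.sum_le_sum_of_subset_of_nonneg (Finset.biUnion_subset.2 fun j _ => hCB j)
        fun x _ _ => hG'0 x
    rw [nsmul_eq_mul] at h1
    have h3 : (Bad₂.card : ℝ) * (A₃ * lam ^ n) ≤ 2 * lam * (A₃ * lam ^ n) := by
      calc _ ≤ 2 * A₃ * lam ^ (n + 1) := h1.trans (h2.trans hG'sum)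
        _ = _ := by ring
    exact le_of_mul_le_mul_right h3 (by positivity)
  have hex : ∃ j, j ∉ Bad₁ ∪ Bad₂ := by
    by_contra hcon
    push Not at hcon
    have h1 : Fintype.card (Fin d → Fin L) ≤ Bad₁.card + Bad₂.card := by
      refine le_trans ?_ (Finset.card_union_le _ _)
      exact Finset.card_le_card fun j _ => hcon j
    have h2 : (Fintype.card (Fin d → Fin L) : ℝ) ≤ Bad₁.card + Bad₂.card := by exact_mod_cast h1
    have h3 : 2 * (Bad₁.card : ℝ) < Fintype.card (Fin d → Fin L) := by exact_mod_cast hb1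
    rw [hcard] at h2 h3
    linarith
  obtain ⟨j, hj⟩ := hex
  rw [Finset.mem_union, not_or] at hj
  have hj1 : BigP (w' - blockK κ B) U (fun y => ind (y ∈ C j)) (A * lam ^ n) ≤ 1 / 2 :=
    not_lt.1 fun h => hj.1 (Finset.mem_filter.2 ⟨Finset.mem_univ _, h⟩)
  have hj2 : ∑ x ∈ C j, G' x ≤ A₃ * lam ^ n :=
    not_lt.1 fun h => hj.2 (Finset.mem_filter.2 ⟨Finset.mem_univ _, h⟩)
  refine ⟨wchainCorner L n g j, w' - blockK κ B, G', ⟨(hCB j).trans H.sub, h0, ?_, hj1, ?_, hG'0,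
    ?_, hj2⟩, hCB j⟩
  · intro x hx y hy hxy
    have h1 := H.keep x (hCB j hx) y (hCB j hy) hxy
    have h2 := wchain_blockK_le hκ0.le B x y
    rw [ind_pos (hCB j hx), ind_pos (hCB j hy)] at h2
    rw [Pi.sub_apply, hκ2]
    linarith
  · have h1 := hT (Zd d) (w' - blockK κ B) h0 U B H.sub κ (A * lam ^ (n + 1)) hκ0 (hAm _)
      (by rw [hadd]; exact H.big)
    have h2 : ∑ x ∈ C j, ∑ y ∈ C j, tau (w' - blockK κ B) U x y
        ≤ ∑ x ∈ B, ∑ y ∈ B, tau (w' - blockK κ B) U x y := by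
      refine le_trans (Finset.sum_le_sum fun x _ => Finset.sum_le_sum_of_subset_of_nonneg (hCB j)
        fun y _ _ => tau_nonneg h0 U x y) ?_
      exact Finset.sum_le_sum_of_subset_of_nonneg (hCB j)
        fun x _ _ => Finset.sum_nonneg fun y _ => tau_nonneg h0 U x y
    have h3 : CT * (A * lam ^ (n + 1)) ^ 2 + 2 / κ
        = (CT * A ^ 2 + 4 / c₀) * lam ^ 2 * lam ^ (2 * n) := by
      rw [hκ]; field_simp; ring
    refine h2.trans (h1.trans ?_)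
    rw [h3, hA₂]
    exact mul_le_mul_of_nonneg_right (by linarith) (by positivity)
  · intro x y
    have h1 := H.cmp x y
    have h2 := wchain_cmp hκ0.le H.sub h0 x y
    have h3 : Real.sqrt κ * Real.sqrt κ = κ := Real.mul_self_sqrt hκ0.le
    have h4 := mul_nonneg (H.G_nonneg x) (mul_nonneg (Real.sqrt_nonneg κ) (hS y))
    have h5 := mul_nonneg (H.G_nonneg y) (mul_nonneg (Real.sqrt_nonneg κ) (hS x))
    have h6 : G' x * G' y = G x * G y + G x * (Real.sqrt κ * ∑ u ∈ B, tau w' U y u)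
        + G y * (Real.sqrt κ * ∑ u ∈ B, tau w' U x u)
        + (Real.sqrt κ * Real.sqrt κ) * ((∑ u ∈ B, tau w' U x u) * ∑ u ∈ B, tau w' U y u) := by
      simp only [hG']; ring
    rw [h3] at h6
    linarith

end Pool.Agent.Lib.MP_6fc7d9_pr
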