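import Pool.Agent.Lib.MP_6fc7d9_pr.Defs

/-!
Definitions for the multi-wall argument (range `α < 1`, regular kernels).
-/

set_option linter.unusedSectionVars false

namespace Pool.Agent.Lib.MP_6fc7d9_pr
open Finset

/-- the integer lattice; `‖x‖` is the sup norm -/
abbrev Zd (d : ℕ) : Type := Fin d → ℤ

/-- sup-norm ball of integer radius -/
noncomputable def ball {d : ℕ} (c : Zd d) (r : ℕ) : Finset (Zd d) :=
  Fintype.piFinset fun k => Finset.Icc (c k - r) (c k + r)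

/-- the power kernel `(1 + ‖x‖)^(-s)` -/
noncomputable def kk {d : ℕ} (s : ℝ) (x : Zd d) : ℝ := (1 + ‖x‖) ^ (-s)

/-- the shift vector `h e_i` -/
def sv {d : ℕ} (i : Fin d) (h : ℕ) : Zd d := Pi.single i (h : ℤ)

lemma abs_le_norm {d : ℕ} (x : Zd d) (k : Fin d) : |(x k : ℝ)| ≤ ‖x‖ := by
  have := norm_le_pi_norm x k
  rwa [Int.norm_eq_abs] at this

lemma norm_le_iff {d : ℕ} {x : Zd d} {r : ℝ} (hr : 0 ≤ r) : ‖x‖ ≤ r ↔ ∀ k, |(x k : ℝ)| ≤ r := by
  rw [pi_norm_le_iff_of_nonneg hr]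
  simp only [Int.norm_eq_abs]

lemma mem_ball_coord {d : ℕ} {c y : Zd d} {r : ℕ} :
    y ∈ ball c r ↔ ∀ k, c k - r ≤ y k ∧ y k ≤ c k + r := by
  simp [ball, Fintype.mem_piFinset]

lemma mem_ball {d : ℕ} {c y : Zd d} {r : ℕ} : y ∈ ball c r ↔ ‖y - c‖ ≤ r := by
  rw [mem_ball_coord, norm_le_iff (Nat.cast_nonneg r)]
  refine forall_congr' fun k => ?_
  rw [Pi.sub_apply, abs_le]
  constructor
  · rintro ⟨h1, h2⟩
    have h1' : ((c k - r : ℤ) : ℝ) ≤ (y k : ℝ) := by exact_mod_cast h1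
    have h2' : (y k : ℝ) ≤ ((c k + r : ℤ) : ℝ) := by exact_mod_cast h2
    push_cast at h1' h2' ⊢
    constructor <;> linarith
  · rintro ⟨h1, h2⟩
    push_cast at h1 h2
    have h1' : ((c k - r : ℤ) : ℝ) ≤ (y k : ℝ) := by push_cast; linarith
    have h2' : (y k : ℝ) ≤ ((c k + r : ℤ) : ℝ) := by push_cast; linarith
    exact ⟨by exact_mod_cast h1', by exact_mod_cast h2'⟩

lemma mem_ball_zero {d : ℕ} {y : Zd d} {r : ℕ} : y ∈ ball 0 r ↔ ‖y‖ ≤ r := by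
  rw [mem_ball, sub_zero]

lemma card_ball {d : ℕ} (c : Zd d) (r : ℕ) : (ball c r).card = (2 * r + 1) ^ d := by
  rw [ball, Fintype.card_piFinset]
  have : ∀ k : Fin d, (Finset.Icc (c k - r) (c k + r)).card = 2 * r + 1 := fun k => by
    rw [Int.card_Icc]; omega
  simp [this]

lemma exists_norm_eq_nat {d : ℕ} (x : Zd d) : ∃ n : ℕ, ‖x‖ = n := by
  refine ⟨Finset.univ.sup fun k => (x k).natAbs, le_antisymm ?_ ?_⟩
  · rw [norm_le_iff (Nat.cast_nonneg _)]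
    intro k
    have h : (x k).natAbs ≤ Finset.univ.sup fun k => (x k).natAbs :=
      Finset.le_sup (f := fun k => (x k).natAbs) (Finset.mem_univ k)
    have h2 : |(x k : ℝ)| = ((x k).natAbs : ℝ) := by
      rw [← Int.cast_abs, Int.abs_eq_natAbs, Int.cast_natCast]
    rw [h2]; exact_mod_cast h
  · rcases isEmpty_or_nonempty (Fin d) with hd | hd
    · simp
    · obtain ⟨k, -, hk⟩ := Finset.exists_mem_eq_sup Finset.univ Finset.univ_nonempty
        fun k => (x k).natAbs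
      rw [hk]
      have h2 : |(x k : ℝ)| = ((x k).natAbs : ℝ) := by
        rw [← Int.cast_abs, Int.abs_eq_natAbs, Int.cast_natCast]
      rw [← h2]; exact abs_le_norm x k

lemma norm_sv {d : ℕ} (i : Fin d) (h : ℕ) : ‖sv i h‖ = h := by
  rw [sv, Pi.norm_single]; simp

lemma kk_pos {d : ℕ} (s : ℝ) (x : Zd d) : 0 < kk s x :=
  Real.rpow_pos_of_pos (by positivity) _

lemma kk_neg {d : ℕ} (s : ℝ) (x : Zd d) : kk s (-x) = kk s x := by simp [kk]

lemma kk_sub_comm {d : ℕ} (s : ℝ) (x y : Zd d) : kk s (x - y) = kk s (y - x) := by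
  rw [← kk_neg, neg_sub]

lemma kk_le_one {d : ℕ} {s : ℝ} (hs : 0 ≤ s) (x : Zd d) : kk s x ≤ 1 :=
  Real.rpow_le_one_of_one_le_of_nonpos (by linarith [norm_nonneg x]) (by linarith)

lemma kk_le_of_le {d : ℕ} {s r : ℝ} (hs : 0 ≤ s) (hr : 0 ≤ r) {x : Zd d} (h : r ≤ ‖x‖) :
    kk s x ≤ (1 + r) ^ (-s) :=
  Real.rpow_le_rpow_of_nonpos (by linarith) (by linarith) (by linarith)

/-- average over a finite type -/
noncomputable def avg {Ω : Type*} [Fintype Ω] (f : Ω → ℝ) : ℝ := (∑ W, f W) / Fintype.card Ω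

section general
variable {V : Type*} [DecidableEq V]

/-- probability that some cluster has `ν`-mass at least `r` -/
noncomputable def BigP (w : Sym2 V → ℝ) (U : Finset V) (ν : V → ℝ) (r : ℝ) : ℝ :=
  Ex U.sym2 (pw w) fun ω => ind (∃ x, r ≤ ∑ y ∈ cl ω U {x}, ν y)

/-- complete-graph kernel of strength `κ` on `B` -/
noncomputable def blockK (κ : ℝ) (B : Finset V) : Sym2 V → ℝ :=
  fun e => if e ∈ B.sym2 ∧ ¬ e.IsDiag then κ else 0

variable {ι : Type*} [Fintype ι] [DecidableEq ι]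

/-- layered kernels: a base kernel and one extra kernel for each wall; the slab `A m` only
carries extra edges of the wall `m` -/
structure Lay (w base : Sym2 V → ℝ) (ext : ι → Sym2 V → ℝ) (A : ι → Finset V) : Prop where
  base_nonneg : ∀ e, 0 ≤ base e
  ext_nonneg : ∀ m e, 0 ≤ ext m e
  dom : ∀ e, base e + ∑ m, ext m e ≤ w e
  base_zero : ∀ m, ∀ x ∈ A m, ∀ y, base s(x, y) = 0
  ext_zero : ∀ m m', m ≠ m' → ∀ x ∈ A m', ∀ y, ext m s(x, y) = 0

/-- kernel of the layer `l` -/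
def layK (base : Sym2 V → ℝ) (ext : ι → Sym2 V → ℝ) : Option ι → Sym2 V → ℝ
  | none => base
  | some m => ext m

/-- labelled pairs inside `U` -/
def labF (ι : Type*) [Fintype ι] (U : Finset V) : Finset (Option ι × Sym2 V) :=
  Finset.univ ×ˢ U.sym2

/-- probabilities of the labelled pairs -/
noncomputable def labP (base : Sym2 V → ℝ) (ext : ι → Sym2 V → ℝ) : Option ι × Sym2 V → ℝ :=
  fun p => pw (layK base ext p.1) p.2

/-- all pairs of a labelled configuration -/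
def allE (Ω : Finset (Option ι × Sym2 V)) : Finset (Sym2 V) := Ω.image Prod.snd

/-- pairs carrying the base label or the label of a wall in `S` -/
def edges (Ω : Finset (Option ι × Sym2 V)) (S : Finset ι) : Finset (Sym2 V) :=
  (Ω.filter fun p => p.1 = none ∨ ∃ m ∈ S, p.1 = some m).image Prod.snd

/-- a labelled configuration respects the slabs -/
def Allowed (A : ι → Finset V) (Ω : Finset (Option ι × Sym2 V)) : Prop :=
  ∀ p ∈ Ω, ∀ m, ∀ x ∈ A m, x ∈ p.2 → p.1 = some m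

/-- excursion of the wall `m` from `a` to `b`, using labelled pairs of `E` -/
def Exc (U : Finset V) (A : ι → Finset V) (m : ι) (a b : V) (E : Finset (Option ι × Sym2 V)) :
    Prop :=
  a ∉ A m ∧ b ∉ A m ∧ ((some m, s(a, b)) ∈ E ∨ ∃ u ∈ A m, ∃ u' ∈ A m, ∃ E₁ E₂, Disjoint E₁ E₂ ∧
    E₁ ⊆ E ∧ E₂ ⊆ E ∧ ((some m, s(a, u)) ∈ E₁ ∧ (some m, s(u', b)) ∈ E₁ ∧ s(a, u) ≠ s(u', b)) ∧
      u' ∈ cl (allE E₂) U {u})

/-- series event: a chain from `x` to `z` through excursions of `k` distinct walls of `T` -/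
def SerE (U : Finset V) (A : ι → Finset V) (z : V) :
    ℕ → Finset ι → V → Finset (Option ι × Sym2 V) → Prop
  | 0, _, x, Ω => z ∈ cl (allE Ω) U {x}
  | k + 1, T, x, Ω => ∃ m ∈ T, ∃ a ∈ U, ∃ b ∈ U, ∃ Ω₀ Ω₁, Disjoint Ω₀ Ω₁ ∧ Ω₀ ⊆ Ω ∧ Ω₁ ⊆ Ω ∧
      a ∈ cl (allE Ω₀) U {x} ∧ ∃ E Ω₂, Disjoint E Ω₂ ∧ E ⊆ Ω₁ ∧ Ω₂ ⊆ Ω₁ ∧ Exc U A m a b E ∧
        SerE U A z k (T.erase m) b Ω₂

/-- parallel event: every wall of `T` has an excursion from the cluster of `x` to the cluster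
of `z`, with disjoint witnesses -/
def ParE (U : Finset V) (A : ι → Finset V) (x z : V) (T : Finset ι)
    (Ω : Finset (Option ι × Sym2 V)) : Prop :=
  ∃ Ω₀ Ω₁, Disjoint Ω₀ Ω₁ ∧ Ω₀ ⊆ Ω ∧ Ω₁ ⊆ Ω ∧ ∃ Ω₂ Ω₃, Disjoint Ω₂ Ω₃ ∧ Ω₂ ⊆ Ω₁ ∧ Ω₃ ⊆ Ω₁ ∧
    ∃ E : ι → Finset (Option ι × Sym2 V), (∀ m, E m ⊆ Ω₃) ∧
      (∀ m m', m ≠ m' → Disjoint (E m) (E m')) ∧
      ∀ m ∈ T, ∃ a ∈ cl (allE Ω₀) U {x}, ∃ b ∈ cl (allE Ω₂) U {z}, Exc U A m a b (E m)

/-- excursion kernel -/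
noncomputable def Qk (w : Sym2 V → ℝ) (U A : Finset V) (e : V → V → ℝ) (a b : V) : ℝ :=
  if a ∉ A ∧ b ∉ A then e a b + ∑ u ∈ A, ∑ u' ∈ A, e a u * tau w U u u' * e u' b else 0

/-- series bound -/
noncomputable def SerB (w : Sym2 V → ℝ) (U : Finset V) (q : ι → V → V → ℝ) (z : V) :
    ℕ → Finset ι → V → ℝ
  | 0, _, x => tau w U x z
  | k + 1, T, x => ∑ m ∈ T, ∑ a ∈ U, ∑ b ∈ U,
      tau w U x a * q m a b * SerB w U q z k (T.erase m) b

/-- parallel bound -/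
noncomputable def ParB (w : Sym2 V → ℝ) (U : Finset V) (q : ι → V → V → ℝ) (x z : V)
    (T : Finset ι) : ℝ :=
  EK w U {x} fun K => EK w U {z} fun K' => ∏ m ∈ T, ∑ a ∈ K, ∑ b ∈ K', q m a b

end general

/-- standing hypotheses on the rate kernel `w = β J` -/
structure Reg {d : ℕ} (α C₁ : ℝ) (w : Sym2 (Zd d) → ℝ) : Prop where
  nonneg : ∀ e, 0 ≤ w e
  inv : Inv w
  upper : ∀ x y, w s(x, y) ≤ C₁ * kk (d + α) (y - x)
  bv : ∀ (i : Fin d) (l : ℝ) (T : Finset (Zd d)), 0 ≤ l → (∀ x ∈ T, l ≤ ‖x‖) →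
    ∑ x ∈ T, |w s(0, x + sv i 1) - w s(0, x)| ≤ C₁ * (1 + l) ^ (-(1 + α))
  pt : ∀ U x y, tau w U x y ≤ C₁ * kk (d - α) (y - x)

section geom
variable {d : ℕ}

/-- lower corner of the slab of a wall with centre `o`, radius `P`; `b` = shifted state -/
def slo (i : Fin d) (h : ℕ) (o : Zd d) (b : Bool) (P : ℕ) (k : Fin d) : ℤ :=
  if k = i then (if b then o k - P - h else o k + P + 1) else o k - P

/-- upper corner of the slab -/
def shi (i : Fin d) (h : ℕ) (o : Zd d) (b : Bool) (P : ℕ) (k : Fin d) : ℤ :=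
  if k = i then (if b then o k - P - 1 else o k + P + h) else o k + P

/-- the slab of thickness `h` attached to the ball `ball o P` in direction `± e_i` -/
noncomputable def Sl (i : Fin d) (h : ℕ) (o : Zd d) (b : Bool) (P : ℕ) : Finset (Zd d) :=
  Fintype.piFinset fun k => Finset.Icc (slo i h o b P k) (shi i h o b P k)

/-- sum over the faces of the slab of (distance to the face)^(-s); for `p` in the slab it lies
between `δ^(-s)` and `2 d δ^(-s)`, `δ` the sup-distance from `p` to the complement of the slab -/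
noncomputable def fw (i : Fin d) (h : ℕ) (o : Zd d) (b : Bool) (P : ℕ) (s : ℝ) (p : Zd d) : ℝ :=
  ∑ k, (|((p k - (slo i h o b P k - 1) : ℤ) : ℝ)| ^ (-s)
    + |((p k - (shi i h o b P k + 1) : ℤ) : ℝ)| ^ (-s))

/-- oscillation of the kernel under the shift `± v` -/
noncomputable def osc (w : Sym2 (Zd d) → ℝ) (v t : Zd d) : ℝ :=
  |w s(0, t + v) - w s(0, t)| + |w s(0, t - v) - w s(0, t)|

/-- majorant of the extra kernel of one wall -/
noncomputable def Xk (w : Sym2 (Zd d) → ℝ) (i : Fin d) (h Rb : ℕ) (o : Zd d) (b : Bool) (P : ℕ)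
    (x y : Zd d) : ℝ :=
  if x ∈ ball 0 Rb ∧ y ∈ ball 0 Rb then
    (if x ∈ Sl i h o b P ∨ y ∈ Sl i h o b P then w s(x, y)
      else if (x ∈ ball o P ↔ y ∈ ball o P) then 0 else min (w s(x, y)) (osc w (sv i h) (y - x)))
  else 0

/-- excursion kernel of one wall -/
noncomputable def Qw (w : Sym2 (Zd d) → ℝ) (U : Finset (Zd d)) (i : Fin d) (h Rb : ℕ) (o : Zd d)
    (b : Bool) (P : ℕ) : Zd d → Zd d → ℝ :=
  Qk w U (Sl i h o b P) (Xk w i h Rb o b P)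

/-- majorant of the kernel of the discarded long pairs -/
noncomputable def Dk (w : Sym2 (Zd d) → ℝ) (i : Fin d) (h N ρ Rb : ℕ)
    (A : Fin N → Finset (Zd d)) (x y : Zd d) : ℝ :=
  if (x ∈ ball 0 Rb ∨ y ∈ ball 0 Rb) ∧ (ρ : ℝ) / 2 ≤ ‖y - x‖ then
    (∑ m, (ind (x ∈ A m) + ind (y ∈ A m))) * w s(x, y)
      + ∑ k ∈ Finset.Icc (-(N : ℤ)) N, |w s(0, y - x + k • sv i h) - w s(0, y - x)|
  else 0

/-- centre of the wall `m` in the coordinates of the state `σ` -/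
def cen (i : Fin d) (h : ℕ) {N : ℕ} (σ : Finset (Fin N)) (m : Fin N) : Zd d :=
  (σ.filter fun m' => m ≤ m').card • sv i h

/-- slab of the wall `m` in the coordinates of the state `σ` -/
noncomputable def SlS (i : Fin d) (h : ℕ) {N : ℕ} (P : Fin N → ℕ) (σ : Finset (Fin N)) (m : Fin N) :
    Finset (Zd d) :=
  Sl i h (cen i h σ m) (decide (m ∈ σ)) (P m)

/-- position of the wall `m` -/
def wpos (ρ : ℕ) {N : ℕ} (W : Fin N → Fin ρ) (m : Fin N) : ℕ := 4 * ρ * m + ρ + W m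

/-- block of side `L^n` with lower corner `g` -/
noncomputable def Blk (L n : ℕ) (g : Zd d) : Finset (Zd d) :=
  Fintype.piFinset fun k => Finset.Ico (g k) (g k + (L ^ n : ℕ))

/-- invariant of the descending chain of blocks; `lam = L^((d+α)/2)` -/
structure ChainInv (w : Sym2 (Zd d) → ℝ) (U : Finset (Zd d)) (c₀ lam A A₂ A₃ : ℝ) (L n : ℕ)
    (g : Zd d) (w' : Sym2 (Zd d) → ℝ) (G : Zd d → ℝ) : Prop where
  sub : Blk L n g ⊆ U
  nonneg : ∀ e, 0 ≤ w' e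
  keep : ∀ x ∈ Blk L n g, ∀ y ∈ Blk L n g, x ≠ y →
    w s(x, y) - c₀ / lam ^ (2 * (n + 1)) ≤ w' s(x, y)
  big : BigP w' U (fun y => ind (y ∈ Blk L n g)) (A * lam ^ n) ≤ 1 / 2
  two : ∑ x ∈ Blk L n g, ∑ y ∈ Blk L n g, tau w' U x y ≤ A₂ * lam ^ (2 * n)
  G_nonneg : ∀ x, 0 ≤ G x
  cmp : ∀ x y, tau w U x y ≤ tau w' U x y + G x * G y
  G_sum : ∑ x ∈ Blk L n g, G x ≤ A₃ * lam ^ n

end geom

end Pool.Agent.Lib.MP_6fc7d9_pr
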