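import Pool.Agent.Lib.MP_6fc7d9_pr.WSum2

set_option linter.unusedSectionVars false

namespace Pool.Agent.Lib.MP_6fc7d9_pr
open Finset

lemma wosc_nonneg {d : ℕ} {α C₁ : ℝ} {w : Sym2 (Zd d) → ℝ} (hw : Reg α C₁ w) : 0 ≤ C₁ := by
  have h1 := (hw.nonneg s(0, 0)).trans (hw.upper 0 0)
  have h2 := kk_pos (d + α) ((0 : Zd d) - 0)
  by_contra hc
  push Not at hc
  nlinarith

lemma wosc_sum_shift {d : ℕ} (f : Zd d → ℝ) (T : Finset (Zd d)) (a : Zd d) :
    ∑ t ∈ T, f (t + a) = ∑ u ∈ T.map (addRightEmbedding a), f u := by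
  rw [sum_map]; rfl

lemma wosc_tele {d : ℕ} (g : Zd d → ℝ) (v : Zd d) (hv : ‖v‖ ≤ 1) (l B : ℝ)
    (hg : ∀ T : Finset (Zd d), (∀ x ∈ T, l + 1 ≤ ‖x‖) → ∑ x ∈ T, |g (x + v) - g x| ≤ B) (n : ℕ) :
    ∀ T : Finset (Zd d), (∀ t ∈ T, l + n ≤ ‖t‖) → ∑ t ∈ T, |g (t + n • v) - g t| ≤ n * B := by
  induction n with
  | zero => intro T _; simp
  | succ n ih =>
    intro T hT
    have h1 := ih T fun t ht => by have := hT t ht; push_cast at this; linarith
    have h2 := hg (T.map (addRightEmbedding (n • v))) fun x hx => by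
      obtain ⟨t, ht, rfl⟩ := mem_map.mp hx
      have h3 := hT t ht
      have h4 : ‖n • v‖ ≤ n := by
        refine (norm_nsmul_le).trans ?_
        have : (0 : ℝ) ≤ n := Nat.cast_nonneg n
        nlinarith
      have h5 : ‖t‖ ≤ ‖t + n • v‖ + ‖n • v‖ := by
        simpa using norm_sub_le (t + n • v) (n • v)
      push_cast at h3
      change l + 1 ≤ ‖t + n • v‖
      linarith
    rw [← wosc_sum_shift (fun x => |g (x + v) - g x|)] at h2
    calc _ ≤ ∑ t ∈ T, (|g (t + n • v + v) - g (t + n • v)| + |g (t + n • v) - g t|) := by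
          refine sum_le_sum fun t _ => ?_
          rw [succ_nsmul, ← add_assoc]
          exact abs_sub_le _ _ _
      _ ≤ B + n * B := by rw [sum_add_distrib]; exact add_le_add h2 h1
      _ = _ := by push_cast; ring

/-- Telescope in unit steps `e_i`; each translate `T + j e_i`, `|j| ≤ |k| h`, lies in
`‖·‖ ≥ l/2`, so `Reg.bv` applies with `l/2`, and `(1 + l/2)^(-(1+α)) ≤ 4 (1+l)^(-(1+α))`. -/
theorem shift_tail {d : ℕ} {α C₁ : ℝ} (hα : 0 < α) (h1 : α < 1) {w : Sym2 (Zd d) → ℝ}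
    (hw : Reg α C₁ w) (i : Fin d) (h : ℕ) (k : ℤ) (l : ℝ) (T : Finset (Zd d))
    (hl : 2 * (|(k : ℝ)| * h) ≤ l) (hT : ∀ t ∈ T, l ≤ ‖t‖) :
    ∑ t ∈ T, |w s(0, t + k • sv i h) - w s(0, t)|
      ≤ 4 * C₁ * (|(k : ℝ)| * h) * (1 + l) ^ (-(1 + α)) := by
  have hC := wosc_nonneg hw
  have hkh : (0 : ℝ) ≤ |(k : ℝ)| * h := by positivity
  have hl0 : 0 ≤ l := by linarith
  have hl2 : 0 ≤ l / 2 := by linarith
  set n : ℕ := k.natAbs * h with hn
  have hnr : (n : ℝ) = |(k : ℝ)| * h := by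
    rw [hn]; push_cast; rw [Nat.cast_natAbs]; push_cast; rfl
  have he : ‖sv i 1‖ ≤ 1 := by rw [norm_sv]; simp
  have hsv : sv i h = h • sv i 1 := by
    funext j; by_cases hj : j = i
    · subst hj; simp [sv]
    · simp [sv, hj]
  have hTn : ∀ t ∈ T, l / 2 + n ≤ ‖t‖ := fun t ht => by have := hT t ht; rw [hnr]; linarith
  have key : ∑ t ∈ T, |w s(0, t + k • sv i h) - w s(0, t)|
      ≤ n * (C₁ * (1 + l / 2) ^ (-(1 + α))) := by
    rcases Int.natAbs_eq k with hk | hk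
    · have hv : k • sv i h = n • sv i 1 := by
        rw [hn, mul_nsmul', ← hsv]
        conv_lhs => rw [hk]
        rw [natCast_zsmul]
      rw [hv]
      exact wosc_tele (fun x => w s(0, x)) (sv i 1) he (l / 2) _
        (fun T' hT' => hw.bv i (l / 2) T' hl2 fun x hx => by linarith [hT' x hx]) n T hTn
    · have hv : k • sv i h = n • (-sv i 1) := by
        rw [hn, neg_nsmul, mul_nsmul', ← hsv]
        conv_lhs => rw [hk]
        rw [neg_zsmul, natCast_zsmul]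
      rw [hv]
      refine wosc_tele (fun x => w s(0, x)) (-sv i 1) (by rwa [norm_neg]) (l / 2) _
        (fun T' hT' => ?_) n T hTn
      have h2 := hw.bv i (l / 2) (T'.map (addRightEmbedding (-sv i 1))) hl2 fun x hx => by
        obtain ⟨t, ht, rfl⟩ := mem_map.mp hx
        have h3 := hT' t ht
        have h5 : ‖t‖ ≤ ‖t + -sv i 1‖ + ‖sv i 1‖ := by
          simpa using norm_add_le (t + -sv i 1) (sv i 1)
        change l / 2 ≤ ‖t + -sv i 1‖
        linarith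
      rw [← wosc_sum_shift (fun x => |w s(0, x + sv i 1) - w s(0, x)|)] at h2
      refine le_trans (le_of_eq (sum_congr rfl fun t _ => ?_)) h2
      rw [abs_sub_comm]; simp
  have h2 : (1 + l / 2) ^ (-(1 + α)) ≤ 4 * (1 + l) ^ (-(1 + α)) := by
    have h3 : (1 + l / 2) ^ (-(1 + α)) ≤ ((1 + l) / 2) ^ (-(1 + α)) :=
      Real.rpow_le_rpow_of_nonpos (by positivity) (by linarith) (by linarith)
    have h4 : ((1 + l) / 2) ^ (-(1 + α)) = (2 : ℝ) ^ (1 + α) * (1 + l) ^ (-(1 + α)) := by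
      rw [Real.div_rpow (by positivity) (by norm_num), Real.rpow_neg (by norm_num : (0 : ℝ) ≤ 2)]
      field_simp
    have h5 : (2 : ℝ) ^ (1 + α) ≤ 4 := by
      calc (2 : ℝ) ^ (1 + α) ≤ 2 ^ (2 : ℝ) :=
            Real.rpow_le_rpow_of_exponent_le (by norm_num) (by linarith)
        _ = 4 := by norm_num
    have h6 : 0 ≤ (1 + l) ^ (-(1 + α)) := by positivity
    rw [h4] at h3
    nlinarith
  rw [hnr] at key
  calc _ ≤ _ := key
    _ ≤ |(k : ℝ)| * h * (C₁ * (4 * (1 + l) ^ (-(1 + α)))) := by gcongr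
    _ = _ := by ring

lemma wosc_tail {d : ℕ} {α C₁ : ℝ} (hα : 0 < α) (h1 : α < 1) {w : Sym2 (Zd d) → ℝ}
    (hw : Reg α C₁ w) (i : Fin d) (h : ℕ) (l : ℝ) (T : Finset (Zd d))
    (hl : 2 * (h : ℝ) ≤ l) (hT : ∀ t ∈ T, l ≤ ‖t‖) :
    ∑ t ∈ T, osc w (sv i h) t ≤ 8 * C₁ * h * (1 + l) ^ (-(1 + α)) := by
  have ha := shift_tail hα h1 hw i h 1 l T (by simpa using hl) hT
  have hb := shift_tail hα h1 hw i h (-1) l T (by simpa using hl) hT
  simp only [one_smul, neg_smul, Int.cast_one, abs_one, one_mul, Int.cast_neg, abs_neg,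
    ← sub_eq_add_neg] at ha hb
  simp only [osc, sum_add_distrib]
  linarith

/-- For `‖t‖ ≤ 2h` use `w ≤ C₁ kk (d+α)` and `sum_kk_min` (or `sum_kk_ball`); for `‖t‖ > 2h`
write `‖t‖ = ∑_{n ≥ 1} ind (n ≤ ‖t‖)` (layer cake) or use dyadic shells, and `shift_tail` with
`k = ± 1`. -/
theorem osc_moment (d : ℕ) {α : ℝ} (hα : 0 < α) (h1 : α < 1) (C₁ : ℝ) :
    ∃ C : ℝ, 0 < C ∧ ∀ w : Sym2 (Zd d) → ℝ, Reg α C₁ w → ∀ (i : Fin d) (h : ℕ), 1 ≤ h →
      ∀ T : Finset (Zd d),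
        ∑ t ∈ T, min (w s(0, t)) (osc w (sv i h) t) * ‖t‖ ≤ C * (h : ℝ) ^ (1 - α) := by
  obtain ⟨Cm, hCm, hm⟩ := sum_kk_min d hα h1 le_rfl
  refine ⟨2 * Cm * |C₁| + 16 * |C₁| + 8 * |C₁| * (1 + 1 / α) + 1, by positivity,
    fun w hw i h hh T => ?_⟩
  have hC := wosc_nonneg hw
  rw [abs_of_nonneg hC]
  have hh1 : (1 : ℝ) ≤ h := by exact_mod_cast hh
  have hh0 : (0 : ℝ) < h := by linarith
  have hp : 0 < (h : ℝ) ^ (1 - α) := Real.rpow_pos_of_pos hh0 _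
  rw [← sum_filter_add_sum_filter_not T fun t => ‖t‖ ≤ 2 * (h : ℝ)]
  have hnear : ∑ t ∈ T.filter (fun t => ‖t‖ ≤ 2 * (h : ℝ)),
      min (w s(0, t)) (osc w (sv i h) t) * ‖t‖ ≤ 2 * Cm * C₁ * (h : ℝ) ^ (1 - α) := by
    have h2 := hm 0 (T.filter fun t => ‖t‖ ≤ 2 * (h : ℝ)) (2 * h) (by linarith)
    have h3 : (2 * (h : ℝ)) ^ (1 - α) ≤ 2 * (h : ℝ) ^ (1 - α) := by
      rw [Real.mul_rpow (by norm_num) hh0.le]
      have : (2 : ℝ) ^ (1 - α) ≤ 2 ^ (1 : ℝ) :=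
        Real.rpow_le_rpow_of_exponent_le (by norm_num) (by linarith)
      rw [Real.rpow_one] at this
      gcongr
    calc _ ≤ ∑ t ∈ T.filter (fun t => ‖t‖ ≤ 2 * (h : ℝ)),
          C₁ * (kk (d + α) (t - 0) * (min ‖t - 0‖ (2 * h)) ^ (1 : ℝ)) := by
          refine sum_le_sum fun t ht => ?_
          have ht2 := (mem_filter.mp ht).2
          rw [Real.rpow_one, sub_zero, min_eq_left ht2, ← mul_assoc]
          refine mul_le_mul_of_nonneg_right ((min_le_left _ _).trans ?_) (norm_nonneg _)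
          simpa using hw.upper 0 t
      _ ≤ C₁ * (Cm * (2 * (h : ℝ)) ^ (1 - α)) := by
          rw [← mul_sum]; exact mul_le_mul_of_nonneg_left h2 hC
      _ ≤ C₁ * (Cm * (2 * (h : ℝ) ^ (1 - α))) := by gcongr
      _ = _ := by ring
  set T' := T.filter fun t => ¬ ‖t‖ ≤ 2 * (h : ℝ) with hT'
  have hT2 : ∀ t ∈ T', 2 * (h : ℝ) ≤ ‖t‖ := fun t ht => (not_le.mp (mem_filter.mp ht).2).le
  have hosc : ∀ t, 0 ≤ osc w (sv i h) t := fun t => by unfold osc; positivity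
  set K : ℕ := T'.sup fun t => nrmN t with hK
  have hlayer : ∀ t ∈ T', ‖t‖ ≤ 2 * (h : ℝ)
      + ∑ n ∈ Ico (2 * h) (2 * h + K + 1), (if (n : ℝ) ≤ ‖t‖ then (1 : ℝ) else 0) := by
    intro t ht
    have h2 : nrmN t ≤ K := le_sup (f := fun t => nrmN t) ht
    have h3 : 2 * h ≤ nrmN t := by
      have := hT2 t ht
      rw [← nrmN_cast] at this
      exact_mod_cast this
    rw [sum_boole]
    have h4 : Ico (2 * h) (nrmN t) ⊆
        (Ico (2 * h) (2 * h + K + 1)).filter fun n : ℕ => (n : ℝ) ≤ ‖t‖ := by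
      intro n hn
      rw [mem_Ico] at hn
      rw [mem_filter, mem_Ico, ← nrmN_cast]
      refine ⟨⟨hn.1, by omega⟩, by exact_mod_cast hn.2.le⟩
    have h5 := card_le_card h4
    rw [Nat.card_Ico] at h5
    have h6 : nrmN t ≤ 2 * h
        + ((Ico (2 * h) (2 * h + K + 1)).filter fun n : ℕ => (n : ℝ) ≤ ‖t‖).card := by omega
    conv_lhs => rw [← nrmN_cast]
    exact_mod_cast h6
  have hA : 2 * (h : ℝ) * ∑ t ∈ T', osc w (sv i h) t ≤ 16 * C₁ * (h : ℝ) ^ (1 - α) := by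
    have h2 := wosc_tail hα h1 hw i h (2 * h) T' le_rfl hT2
    have h3 : (1 + 2 * (h : ℝ)) ^ (-(1 + α)) ≤ (h : ℝ) ^ (-(1 + α)) :=
      Real.rpow_le_rpow_of_nonpos hh0 (by linarith) (by linarith)
    have h4 : (h : ℝ) * h * (h : ℝ) ^ (-(1 + α)) = (h : ℝ) ^ (1 - α) := by
      rw [show (1 : ℝ) - α = 1 + 1 + -(1 + α) by ring, Real.rpow_add hh0, Real.rpow_add hh0,
        Real.rpow_one]
    calc _ ≤ 2 * (h : ℝ) * (8 * C₁ * h * (h : ℝ) ^ (-(1 + α))) := by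
          refine mul_le_mul_of_nonneg_left (h2.trans ?_) (by positivity)
          gcongr
      _ = 16 * C₁ * ((h : ℝ) * h * (h : ℝ) ^ (-(1 + α))) := by ring
      _ = _ := by rw [h4]
  have hB : ∑ n ∈ Ico (2 * h) (2 * h + K + 1), ∑ t ∈ T',
      osc w (sv i h) t * (if (n : ℝ) ≤ ‖t‖ then (1 : ℝ) else 0)
      ≤ 8 * C₁ * (1 + 1 / α) * (h : ℝ) ^ (1 - α) := by
    have h2 := sum_rpow_tail hα (2 * h) K
    have h3 : (1 + ((2 * h : ℕ) : ℝ)) ^ (-α) ≤ (h : ℝ) ^ (-α) :=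
      Real.rpow_le_rpow_of_nonpos hh0 (by push_cast; linarith) (by linarith)
    have h4 : 0 ≤ (1 + ((2 * h + K : ℕ) : ℝ)) ^ (-α) := by positivity
    have h5 : ∑ n ∈ Ico (2 * h) (2 * h + K + 1), (1 + (n : ℝ)) ^ (-α - 1)
        ≤ (1 + 1 / α) * (h : ℝ) ^ (-α) := by
      refine h2.trans ?_
      have h6 : ((1 + ((2 * h : ℕ) : ℝ)) ^ (-α) - (1 + ((2 * h + K : ℕ) : ℝ)) ^ (-α)) / α
          ≤ (h : ℝ) ^ (-α) / α := by gcongr; linarith
      have h7 : (1 + 1 / α) * (h : ℝ) ^ (-α) = (h : ℝ) ^ (-α) + (h : ℝ) ^ (-α) / α := by ring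
      linarith
    have h6 : (h : ℝ) * (h : ℝ) ^ (-α) = (h : ℝ) ^ (1 - α) := by
      rw [sub_eq_add_neg, Real.rpow_add hh0, Real.rpow_one]
    calc _ ≤ ∑ n ∈ Ico (2 * h) (2 * h + K + 1), 8 * C₁ * h * (1 + (n : ℝ)) ^ (-α - 1) := by
          refine sum_le_sum fun n hn => ?_
          have hn2 : 2 * (h : ℝ) ≤ n := by exact_mod_cast (mem_Ico.mp hn).1
          have h7 := wosc_tail hα h1 hw i h n (T'.filter fun t => (n : ℝ) ≤ ‖t‖) hn2
            fun t ht => (mem_filter.mp ht).2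
          rw [sum_filter] at h7
          rw [show -α - 1 = -(1 + α) by ring]
          refine le_trans (le_of_eq (sum_congr rfl fun t _ => ?_)) h7
          split_ifs <;> simp
      _ ≤ 8 * C₁ * h * ((1 + 1 / α) * (h : ℝ) ^ (-α)) := by
          rw [← mul_sum]; exact mul_le_mul_of_nonneg_left h5 (by positivity)
      _ = 8 * C₁ * (1 + 1 / α) * ((h : ℝ) * (h : ℝ) ^ (-α)) := by ring
      _ = _ := by rw [h6]
  have hfar : ∑ t ∈ T', min (w s(0, t)) (osc w (sv i h) t) * ‖t‖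
      ≤ 16 * C₁ * (h : ℝ) ^ (1 - α) + 8 * C₁ * (1 + 1 / α) * (h : ℝ) ^ (1 - α) := by
    refine le_trans ?_ (add_le_add hA hB)
    rw [sum_comm, mul_sum, ← sum_add_distrib]
    refine sum_le_sum fun t ht => ?_
    rw [← mul_sum]
    calc _ ≤ osc w (sv i h) t * ‖t‖ :=
          mul_le_mul_of_nonneg_right (min_le_right _ _) (norm_nonneg _)
      _ ≤ osc w (sv i h) t * (2 * (h : ℝ)
          + ∑ n ∈ Ico (2 * h) (2 * h + K + 1), (if (n : ℝ) ≤ ‖t‖ then (1 : ℝ) else 0)) :=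
          mul_le_mul_of_nonneg_left (hlayer t ht) (hosc t)
      _ = _ := by ring
  nlinarith

end Pool.Agent.Lib.MP_6fc7d9_pr
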