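import Pool.Agent.Lib.MP_6fc7d9_pr.WFace
import Pool.Agent.Lib.MP_6fc7d9_pr.WOsc

set_option linter.unusedSectionVars false

namespace Pool.Agent.Lib.MP_6fc7d9_pr
open Finset

lemma werr_avg_coord {N ρ : ℕ} (hρ : 0 < ρ) (m : Fin N) (f : Fin ρ → ℝ) :
    avg (fun W : Fin N → Fin ρ => f (W m)) = (∑ v, f v) / ρ := by
  classical
  unfold avg
  have e := Equiv.funSplitAt m (Fin ρ)
  have h1 : ∑ W : Fin N → Fin ρ, f (W m) =
      ∑ p : Fin ρ × ({j // j ≠ m} → Fin ρ), f p.1 :=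
    Fintype.sum_equiv (Equiv.funSplitAt m (Fin ρ)) _ _ (fun _ => rfl)
  have h2 : Fintype.card (Fin N → Fin ρ) = ρ * Fintype.card ({j // j ≠ m} → Fin ρ) := by
    rw [Fintype.card_congr (Equiv.funSplitAt m (Fin ρ)), Fintype.card_prod, Fintype.card_fin]
  have h3 : 0 < Fintype.card ({j // j ≠ m} → Fin ρ) :=
    Fintype.card_pos_iff.2 ⟨fun _ => ⟨0, hρ⟩⟩
  have h4 : (0 : ℝ) < (Fintype.card ({j // j ≠ m} → Fin ρ) : ℝ) := by exact_mod_cast h3
  have h5 : (0 : ℝ) < (ρ : ℝ) := by exact_mod_cast hρ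
  rw [h1, h2, Fintype.sum_prod_type]
  simp only [Finset.sum_const, Finset.card_univ, nsmul_eq_mul]
  rw [← Finset.mul_sum]
  push_cast
  field_simp

lemma werr_avg_sum {Ω ι : Type*} [Fintype Ω] (s : Finset ι) (f : ι → Ω → ℝ) :
    avg (fun W => ∑ a ∈ s, f a W) = ∑ a ∈ s, avg (f a) := by
  unfold avg
  rw [Finset.sum_comm, Finset.sum_div]

lemma werr_avg_add {Ω : Type*} [Fintype Ω] (f g : Ω → ℝ) :
    avg (fun W => f W + g W) = avg f + avg g := by
  unfold avg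
  rw [Finset.sum_add_distrib, add_div]

lemma werr_avg_mul {Ω : Type*} [Fintype Ω] (f : Ω → ℝ) (c c' : ℝ) :
    avg (fun W => c * f W * c') = c * avg f * c' := by
  unfold avg
  rw [← Finset.sum_mul, ← Finset.mul_sum]
  ring

lemma werr_avg_const {Ω : Type*} [Fintype Ω] [Nonempty Ω] (c : ℝ) :
    avg (fun _ : Ω => c) = c := by
  unfold avg
  have h : (0 : ℝ) < (Fintype.card Ω : ℝ) := by exact_mod_cast Fintype.card_pos
  rw [Finset.sum_const, Finset.card_univ, nsmul_eq_mul]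
  field_simp

/-- translation invariant majorant of the averaged kernel -/
noncomputable def werr_g {d : ℕ} (w : Sym2 (Zd d) → ℝ) (i : Fin d) (h N ρ : ℕ) (t : Zd d) : ℝ :=
  if (ρ : ℝ) / 2 ≤ ‖t‖ then
    2 * N * ((h : ℝ) / ρ) * w s(0, t)
      + ∑ k ∈ Finset.Icc (-(N : ℤ)) N, |w s(0, t + k • sv i h) - w s(0, t)|
  else 0

lemma werr_g_nonneg {d : ℕ} {w : Sym2 (Zd d) → ℝ} (hw : ∀ e, 0 ≤ w e) (i : Fin d) (h N ρ : ℕ)
    (t : Zd d) : 0 ≤ werr_g w i h N ρ t := by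
  unfold werr_g
  split_ifs
  · exact add_nonneg (mul_nonneg (by positivity) (hw _))
      (Finset.sum_nonneg fun _ _ => abs_nonneg _)
  · exact le_rfl

lemma werr_avg_Dk {d : ℕ} {w : Sym2 (Zd d) → ℝ} (hw : ∀ e, 0 ≤ w e) (hinv : Inv w) (i : Fin d)
    (h N ρ Rb : ℕ) (hρ : 0 < ρ) (σ : Finset (Fin N)) (a b : Zd d) :
    avg (fun W : Fin N → Fin ρ => Dk w i h N ρ Rb (SlS i h (wpos ρ W) σ) a b) ≤
      if a ∈ ball 0 Rb ∨ b ∈ ball 0 Rb then werr_g w i h N ρ (b - a) else 0 := by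
  haveI : Nonempty (Fin N → Fin ρ) := ⟨fun _ => ⟨0, hρ⟩⟩
  have hρ' : (0 : ℝ) < (ρ : ℝ) := by exact_mod_cast hρ
  unfold Dk werr_g
  by_cases h1 : a ∈ ball 0 Rb ∨ b ∈ ball 0 Rb
  · by_cases h2 : (ρ : ℝ) / 2 ≤ ‖b - a‖
    · simp only [h1, h2, and_self, if_true]
      rw [werr_avg_add, werr_avg_const]
      refine add_le_add ?_ le_rfl
      have e1 : w s(a, b) = w s(0, b - a) := by
        have := hinv 0 (b - a) a
        rwa [zero_add, sub_add_cancel] at this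
      have e2 : (fun W : Fin N → Fin ρ => (∑ m, (ind (a ∈ SlS i h (wpos ρ W) σ m) +
          ind (b ∈ SlS i h (wpos ρ W) σ m))) * w s(a, b)) =
          fun W : Fin N → Fin ρ => 1 * (∑ m, (ind (a ∈ SlS i h (wpos ρ W) σ m) +
          ind (b ∈ SlS i h (wpos ρ W) σ m))) * w s(a, b) := by
        funext W; rw [one_mul]
      rw [e2, werr_avg_mul, one_mul, e1]
      refine mul_le_mul_of_nonneg_right ?_ (hw _)
      rw [werr_avg_sum Finset.univ (fun m (W : Fin N → Fin ρ) =>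
        ind (a ∈ SlS i h (wpos ρ W) σ m) + ind (b ∈ SlS i h (wpos ρ W) σ m))]
      have hx : ∀ (x : Zd d) (m : Fin N),
          avg (fun W : Fin N → Fin ρ => ind (x ∈ SlS i h (wpos ρ W) σ m)) ≤ (h : ℝ) / ρ := by
        intro x m
        have e3 := werr_avg_coord hρ m (fun v : Fin ρ =>
          ind (x ∈ Sl i h (cen i h σ m) (decide (m ∈ σ)) (4 * ρ * m + ρ + v)))
        refine le_trans (le_of_eq e3) ?_
        exact div_le_div_of_nonneg_right (slab_count i h _ _ _ ρ x) hρ'.le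
      refine le_trans (Finset.sum_le_sum (g := fun _ => 2 * ((h : ℝ) / ρ)) fun m _ => ?_) ?_
      · rw [werr_avg_add]
        have := hx a m
        have := hx b m
        linarith
      · rw [Finset.sum_const, Finset.card_univ, Fintype.card_fin, nsmul_eq_mul]
        exact le_of_eq (by ring)
    · simp only [h1, h2, and_false, if_false, if_true]
      exact (werr_avg_const 0).le
  · simp only [h1, false_and, if_false]
    exact (werr_avg_const 0).le

lemma werr_half {ρ s c : ℝ} (hρ : 0 < ρ) (hs : 0 ≤ s) (hc : (2 : ℝ) ^ s ≤ c) :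
    (1 + ρ / 2) ^ (-s) ≤ c * ρ ^ (-s) := by
  have h1 : (1 + ρ / 2) ^ (-s) ≤ (ρ / 2) ^ (-s) :=
    Real.rpow_le_rpow_of_nonpos (by positivity) (by linarith) (by linarith)
  refine le_trans h1 ?_
  rw [Real.div_rpow hρ.le (by norm_num), Real.rpow_neg (by norm_num : (0 : ℝ) ≤ 2), div_inv_eq_mul,
    mul_comm]
  exact mul_le_mul_of_nonneg_right hc (Real.rpow_nonneg hρ.le _)

lemma werr_g_sum (d : ℕ) {α : ℝ} (hα : 0 < α) (h1 : α < 1) {C₁ : ℝ} (hC : 0 ≤ C₁) (N : ℕ) :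
    ∃ K : ℝ, 0 ≤ K ∧ ∀ w : Sym2 (Zd d) → ℝ, Reg α C₁ w → ∀ (i : Fin d) (h ρ : ℕ), 1 ≤ h →
      (4 * N + 4) * h ≤ ρ → ∀ T : Finset (Zd d),
        ∑ t ∈ T, werr_g w i h N ρ t ≤ K * (h * (ρ : ℝ) ^ (-(1 + α))) := by
  obtain ⟨Ct, hCt, ht⟩ := sum_kk_tail d (s := d + α) (by linarith)
  refine ⟨4 * N * C₁ * Ct + (2 * N + 1) * (16 * C₁ * N), by positivity, ?_⟩
  intro w hw i h ρ hh hρ T
  have hh' : (1 : ℝ) ≤ h := by exact_mod_cast hh
  have hρ1 : (4 * (N : ℝ) + 4) * h ≤ ρ := by exact_mod_cast hρ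
  have hN : (0 : ℝ) ≤ N := by positivity
  have hρ0 : (0 : ℝ) < ρ := by nlinarith
  unfold werr_g
  rw [← Finset.sum_filter, Finset.sum_add_distrib, ← Finset.mul_sum, Finset.sum_comm]
  set T' := T.filter (fun t => (ρ : ℝ) / 2 ≤ ‖t‖) with hT'
  have hT : ∀ t ∈ T', (ρ : ℝ) / 2 ≤ ‖t‖ := fun t ht => (Finset.mem_filter.1 ht).2
  have a1 : (2 : ℝ) ^ α ≤ 2 := by
    have := Real.rpow_le_rpow_of_exponent_le (x := 2) (by norm_num) h1.le
    rwa [Real.rpow_one] at this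
  have a2 : (2 : ℝ) ^ (1 + α) ≤ 4 := by
    rw [Real.rpow_add (by norm_num), Real.rpow_one]; linarith
  have b1 := werr_half hρ0 hα.le a1
  have b2 := werr_half hρ0 (by linarith : 0 ≤ 1 + α) a2
  have hp : 0 ≤ (ρ : ℝ) ^ (-(1 + α)) := Real.rpow_nonneg hρ0.le _
  have c1 : ∑ t ∈ T', w s(0, t) ≤ C₁ * (Ct * (2 * (ρ : ℝ) ^ (-α))) := by
    refine le_trans (Finset.sum_le_sum fun t _ => hw.upper 0 t) ?_
    rw [← Finset.mul_sum]
    refine mul_le_mul_of_nonneg_left ?_ hC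
    refine le_trans (ht 0 T' (ρ / 2) (by positivity) (fun t h => by rw [sub_zero]; exact hT t h)) ?_
    refine mul_le_mul_of_nonneg_left ?_ hCt.le
    rw [show (d : ℝ) - (d + α) = -α by ring]
    exact b1
  have c2 : (ρ : ℝ) ^ (-α) = ρ * (ρ : ℝ) ^ (-(1 + α)) := by
    rw [show -α = 1 + -(1 + α) by ring, Real.rpow_add hρ0, Real.rpow_one]
  have c3 : 2 * N * ((h : ℝ) / ρ) * ∑ t ∈ T', w s(0, t) ≤
      4 * N * C₁ * Ct * (h * (ρ : ℝ) ^ (-(1 + α))) := by
    refine le_trans (mul_le_mul_of_nonneg_left c1 (by positivity)) (le_of_eq ?_)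
    rw [c2]
    field_simp
    ring
  have c4 : ∀ k ∈ Finset.Icc (-(N : ℤ)) N,
      ∑ t ∈ T', |w s(0, t + k • sv i h) - w s(0, t)| ≤
        16 * C₁ * N * (h * (ρ : ℝ) ^ (-(1 + α))) := by
    intro k hk
    obtain ⟨hk1, hk2⟩ := Finset.mem_Icc.1 hk
    have hk3 : |(k : ℝ)| ≤ N := by
      rw [abs_le]
      constructor
      · exact_mod_cast hk1
      · exact_mod_cast hk2
    have hk4 : |(k : ℝ)| * h ≤ N * h := mul_le_mul_of_nonneg_right hk3 (by positivity)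
    refine le_trans (shift_tail hα h1 hw i h k (ρ / 2) T' (by nlinarith) hT) ?_
    calc 4 * C₁ * (|(k : ℝ)| * h) * (1 + (ρ : ℝ) / 2) ^ (-(1 + α))
        ≤ 4 * C₁ * (N * h) * (4 * (ρ : ℝ) ^ (-(1 + α))) :=
          mul_le_mul (mul_le_mul_of_nonneg_left hk4 (by positivity)) b2
            (Real.rpow_nonneg (by positivity) _) (by positivity)
      _ = 16 * C₁ * N * (h * (ρ : ℝ) ^ (-(1 + α))) := by ring
  have c5 := Finset.sum_le_sum c4
  rw [Finset.sum_const, Int.card_Icc, nsmul_eq_mul] at c5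
  have c6 : ((((N : ℤ) + 1 - -(N : ℤ)).toNat : ℕ) : ℝ) = 2 * N + 1 := by
    have : ((N : ℤ) + 1 - -(N : ℤ)).toNat = 2 * N + 1 := by omega
    rw [this]; push_cast; ring
  rw [c6] at c5
  linarith

lemma werr_pow {R c α : ℝ} (hR : 1 ≤ R) (hα : 0 ≤ α) (h1 : α ≤ 1) (hc : 0 ≤ c) :
    (1 + c * R) ^ α ≤ (1 + c) * R ^ α := by
  have a1 : (1 + c * R) ^ α ≤ ((1 + c) * R) ^ α :=
    Real.rpow_le_rpow (by positivity) (by nlinarith) hα
  refine le_trans a1 ?_
  rw [Real.mul_rpow (by positivity) (by positivity)]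
  refine mul_le_mul_of_nonneg_right ?_ (Real.rpow_nonneg (by positivity) _)
  have := Real.rpow_le_rpow_of_exponent_le (x := 1 + c) (by linarith) h1
  rwa [Real.rpow_one] at this

/-- The averaged kernel `D a b = avg_W Dk` is symmetric, vanishes unless one endpoint is in
`ball 0 (2R)`, and its row sums are `≤ C h ρ^(-1-α)` (`slab_count`: the average over
`W : Fin N → Fin ρ` of a function of `W m` is the average over `Fin ρ`; `sum_kk_tail`;
`shift_tail` with `l = ρ/2`).  `∑ z ∈ ball 0 (2R), tau b z ≤ C R^α` (`Reg.pt`, `sum_kk_ball`).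
For `a ∈ ball 0 (4R)` sum over `b` first; for the other `a`, `tau x₀ a ≤ C R^(α-d)` and
`b ∈ ball 0 (2R)`: sum over `a` first. -/
theorem err_bound (d : ℕ) (hd : 1 ≤ d) {α : ℝ} (hα : 0 < α) (h1 : α < 1) (C₁ : ℝ) (N : ℕ) :
    ∃ C : ℝ, 0 < C ∧ ∀ w : Sym2 (Zd d) → ℝ, Reg α C₁ w →
      ∀ (U : Finset (Zd d)) (i : Fin d) (h ρ R : ℕ) (σ : Finset (Fin N)) (x₀ : Zd d), 1 ≤ h →
        (4 * N + 4) * h ≤ ρ → 1 ≤ R → ‖x₀‖ ≤ R →
        ∑ z ∈ ball 0 (2 * R), avg (fun W : Fin N → Fin ρ => ∑ a ∈ U, ∑ b ∈ U,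
            tau w U x₀ a * Dk w i h N ρ (2 * R) (SlS i h (wpos ρ W) σ) a b * tau w U b z)
          ≤ C * (R : ℝ) ^ (2 * α) * h * (ρ : ℝ) ^ (-(1 + α)) := by
  rcases lt_or_ge C₁ 0 with hC | hC
  · refine ⟨1, one_pos, fun w hw => ?_⟩
    exfalso
    have a1 := hw.upper 0 0
    have a2 := hw.nonneg s(0, 0)
    have a3 := kk_pos (d + α) ((0 : Zd d) - 0)
    nlinarith
  have hd' : (1 : ℝ) ≤ d := by exact_mod_cast hd
  obtain ⟨K, hK, hg⟩ := werr_g_sum d hα h1 hC N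
  obtain ⟨Cb, hCb, hb⟩ := sum_kk_ball d (s := d - α) (by linarith) (by linarith)
  refine ⟨(C₁ * Cb * 5 + C₁ * 2 ^ d * 4) * K * (C₁ * Cb * 3) + 1, by positivity, ?_⟩
  intro w hw U i h ρ R σ x₀ hh hρ hR hx₀
  have hρ0 : 0 < ρ := by nlinarith
  have hR' : (1 : ℝ) ≤ R := by exact_mod_cast hR
  have hRα : 0 ≤ (R : ℝ) ^ α := Real.rpow_nonneg (by positivity) _
  set Y : ℝ := h * (ρ : ℝ) ^ (-(1 + α)) with hY
  have hY0 : 0 ≤ Y := mul_nonneg (by positivity) (Real.rpow_nonneg (by positivity) _)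
  have hτ : ∀ x y, 0 ≤ tau w U x y := tau_nonneg hw.nonneg U
  have hg0 := werr_g_nonneg hw.nonneg i h N ρ
  -- sums of the two point function over balls
  have hball : ∀ (x : Zd d) (c : ℕ), ∑ z ∈ ball 0 (c * R), tau w U x z ≤
      C₁ * Cb * (1 + c) * (R : ℝ) ^ α := by
    intro x c
    refine le_trans (Finset.sum_le_sum fun z _ => hw.pt U x z) ?_
    rw [← Finset.mul_sum, mul_assoc, mul_assoc]
    refine mul_le_mul_of_nonneg_left (le_trans (hb x 0 (c * R)) ?_) hC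
    refine mul_le_mul_of_nonneg_left ?_ hCb.le
    rw [show (d : ℝ) - (d - α) = α by ring]
    push_cast
    exact werr_pow hR' hα.le h1.le (by positivity)
  have hrow : ∀ (a : Zd d) (T : Finset (Zd d)), ∑ b ∈ T, werr_g w i h N ρ (b - a) ≤ K * Y := by
    intro a T
    have := hg w hw i h ρ hh hρ (T.image fun b => b - a)
    rwa [Finset.sum_image (fun x _ y _ hxy => sub_left_injective hxy)] at this
  have hcol : ∀ (b : Zd d) (T : Finset (Zd d)), ∑ a ∈ T, werr_g w i h N ρ (b - a) ≤ K * Y := by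
    intro b T
    have := hg w hw i h ρ hh hρ (T.image fun a => b - a)
    rwa [Finset.sum_image (fun x _ y _ hxy => sub_right_injective hxy)] at this
  set E : Zd d → Zd d → ℝ := fun a b =>
    if a ∈ ball 0 (2 * R) ∨ b ∈ ball 0 (2 * R) then werr_g w i h N ρ (b - a) else 0 with hE
  have hE0 : ∀ a b, 0 ≤ E a b := by
    intro a b
    simp only [hE]
    split_ifs
    · exact hg0 _
    · exact le_rfl
  have hE1 : ∀ a b, E a b ≤ werr_g w i h N ρ (b - a) := by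
    intro a b
    simp only [hE]
    split_ifs
    · exact le_rfl
    · exact hg0 _
  -- step 1
  have s1 : ∑ z ∈ ball 0 (2 * R), avg (fun W : Fin N → Fin ρ => ∑ a ∈ U, ∑ b ∈ U,
      tau w U x₀ a * Dk w i h N ρ (2 * R) (SlS i h (wpos ρ W) σ) a b * tau w U b z) ≤
      (∑ a ∈ U, ∑ b ∈ U, tau w U x₀ a * E a b) * (C₁ * Cb * 3 * (R : ℝ) ^ α) := by
    have e1 : ∀ z, avg (fun W : Fin N → Fin ρ => ∑ a ∈ U, ∑ b ∈ U,
        tau w U x₀ a * Dk w i h N ρ (2 * R) (SlS i h (wpos ρ W) σ) a b * tau w U b z) ≤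
        ∑ a ∈ U, ∑ b ∈ U, tau w U x₀ a * E a b * tau w U b z := by
      intro z
      rw [werr_avg_sum U (fun a (W : Fin N → Fin ρ) => ∑ b ∈ U,
        tau w U x₀ a * Dk w i h N ρ (2 * R) (SlS i h (wpos ρ W) σ) a b * tau w U b z)]
      refine Finset.sum_le_sum fun a _ => ?_
      rw [werr_avg_sum U (fun b (W : Fin N → Fin ρ) =>
        tau w U x₀ a * Dk w i h N ρ (2 * R) (SlS i h (wpos ρ W) σ) a b * tau w U b z)]
      refine Finset.sum_le_sum fun b _ => ?_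
      rw [werr_avg_mul (fun W : Fin N → Fin ρ => Dk w i h N ρ (2 * R) (SlS i h (wpos ρ W) σ) a b)]
      exact mul_le_mul_of_nonneg_right (mul_le_mul_of_nonneg_left
        (werr_avg_Dk hw.nonneg hw.inv i h N ρ (2 * R) hρ0 σ a b) (hτ _ _)) (hτ _ _)
    refine le_trans (Finset.sum_le_sum fun z _ => e1 z) ?_
    rw [Finset.sum_comm, Finset.sum_mul]
    refine Finset.sum_le_sum fun a _ => ?_
    rw [Finset.sum_comm, Finset.sum_mul]
    refine Finset.sum_le_sum fun b _ => ?_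
    rw [← Finset.mul_sum]
    refine mul_le_mul_of_nonneg_left ?_ (mul_nonneg (hτ _ _) (hE0 _ _))
    have := hball b 2
    norm_num at this
    exact this
  -- step 2
  have s2 : ∑ a ∈ U.filter (fun a => a ∈ ball 0 (4 * R)), ∑ b ∈ U, tau w U x₀ a * E a b ≤
      C₁ * Cb * 5 * (R : ℝ) ^ α * (K * Y) := by
    have e1 : ∀ a, ∑ b ∈ U, tau w U x₀ a * E a b ≤ tau w U x₀ a * (K * Y) := by
      intro a
      rw [← Finset.mul_sum]
      exact mul_le_mul_of_nonneg_left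
        (le_trans (Finset.sum_le_sum fun b _ => hE1 a b) (hrow a U)) (hτ _ _)
    refine le_trans (Finset.sum_le_sum fun a _ => e1 a) ?_
    rw [← Finset.sum_mul]
    refine mul_le_mul_of_nonneg_right ?_ (by positivity)
    refine le_trans (Finset.sum_le_sum_of_subset_of_nonneg
      (fun a ha => (Finset.mem_filter.1 ha).2) (fun a _ _ => hτ _ _)) ?_
    have := hball x₀ 4
    norm_num at this
    exact this
  -- step 3
  have s3 : ∑ a ∈ U.filter (fun a => ¬ a ∈ ball 0 (4 * R)), ∑ b ∈ U, tau w U x₀ a * E a b ≤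
      C₁ * 2 ^ d * 4 * (R : ℝ) ^ α * (K * Y) := by
    set q : ℝ := C₁ * (1 + 3 * (R : ℝ)) ^ (-((d : ℝ) - α)) with hq
    have hq0 : 0 ≤ q := mul_nonneg hC (Real.rpow_nonneg (by positivity) _)
    have e1 : ∀ a ∈ U.filter (fun a => ¬ a ∈ ball 0 (4 * R)),
        ∑ b ∈ U, tau w U x₀ a * E a b ≤
          q * ∑ b ∈ ball 0 (2 * R), werr_g w i h N ρ (b - a) := by
      intro a ha
      have ha1 := (Finset.mem_filter.1 ha).2
      rw [mem_ball_zero, not_le] at ha1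
      push_cast at ha1
      have ha2 : a ∉ ball 0 (2 * R) := by
        rw [mem_ball_zero, not_le]
        push_cast
        linarith
      have ha3 : 3 * (R : ℝ) ≤ ‖a - x₀‖ := by
        have := norm_sub_norm_le a x₀
        linarith
      have ha4 : tau w U x₀ a ≤ q :=
        le_trans (hw.pt U x₀ a) (mul_le_mul_of_nonneg_left
          (kk_le_of_le (by linarith) (by positivity) ha3) hC)
      rw [← Finset.mul_sum]
      refine mul_le_mul ha4 ?_ (Finset.sum_nonneg fun b _ => hE0 a b) hq0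
      have e2 : ∀ b, E a b = if b ∈ ball 0 (2 * R) then werr_g w i h N ρ (b - a) else 0 := by
        intro b
        simp only [hE, ha2, false_or]
      rw [Finset.sum_congr rfl (fun b _ => e2 b), ← Finset.sum_filter]
      exact Finset.sum_le_sum_of_subset_of_nonneg
        (fun b hb => (Finset.mem_filter.1 hb).2) (fun b _ _ => hg0 _)
    refine le_trans (Finset.sum_le_sum e1) ?_
    rw [← Finset.mul_sum, Finset.sum_comm]
    refine le_trans (mul_le_mul_of_nonneg_left (Finset.sum_le_sum fun b _ => hcol b _) hq0) ?_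
    rw [Finset.sum_const, card_ball, nsmul_eq_mul, ← mul_assoc]
    refine mul_le_mul_of_nonneg_right ?_ (by positivity)
    have f1 : (((2 * (2 * R) + 1) ^ d : ℕ) : ℝ) ≤ 2 ^ d * (1 + 3 * (R : ℝ)) ^ (d : ℝ) := by
      rw [Real.rpow_natCast, ← mul_pow]
      push_cast
      exact pow_le_pow_left₀ (by positivity) (by linarith) d
    have f2 : (1 + 3 * (R : ℝ)) ^ (-((d : ℝ) - α)) * (1 + 3 * (R : ℝ)) ^ (d : ℝ) =
        (1 + 3 * (R : ℝ)) ^ α := by
      rw [← Real.rpow_add (by positivity)]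
      congr 1
      ring
    have f3 := werr_pow hR' hα.le h1.le (by norm_num : (0 : ℝ) ≤ 3)
    calc q * (((2 * (2 * R) + 1) ^ d : ℕ) : ℝ)
        ≤ q * (2 ^ d * (1 + 3 * (R : ℝ)) ^ (d : ℝ)) := mul_le_mul_of_nonneg_left f1 hq0
      _ = C₁ * 2 ^ d * ((1 + 3 * (R : ℝ)) ^ (-((d : ℝ) - α)) * (1 + 3 * (R : ℝ)) ^ (d : ℝ)) := by
          rw [hq]; ring
      _ ≤ C₁ * 2 ^ d * ((1 + 3) * (R : ℝ) ^ α) := by
          rw [f2]; exact mul_le_mul_of_nonneg_left f3 (by positivity)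
      _ = C₁ * 2 ^ d * 4 * (R : ℝ) ^ α := by ring
  have s4 : ∑ a ∈ U, ∑ b ∈ U, tau w U x₀ a * E a b ≤
      (C₁ * Cb * 5 + C₁ * 2 ^ d * 4) * K * ((R : ℝ) ^ α * Y) := by
    rw [← Finset.sum_filter_add_sum_filter_not U (fun a => a ∈ ball 0 (4 * R))]
    linarith
  refine le_trans s1 (le_trans (mul_le_mul_of_nonneg_right s4 (by positivity)) ?_)
  have e3 : (R : ℝ) ^ (2 * α) = (R : ℝ) ^ α * (R : ℝ) ^ α := by
    rw [← Real.rpow_add (by positivity)]
    congr 1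
    ring
  rw [e3, mul_assoc _ (h : ℝ), ← hY]
  have e4 : 0 ≤ (R : ℝ) ^ α * (R : ℝ) ^ α * Y := by positivity
  nlinarith

end Pool.Agent.Lib.MP_6fc7d9_pr
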