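import Pool.Agent.Lib.MP_6fc7d9_pr.WDefs

set_option linter.unusedSectionVars false

namespace Pool.Agent.Lib.MP_6fc7d9_pr
open Finset

variable {V : Type*} [DecidableEq V] {ι : Type*} [Fintype ι] [DecidableEq ι]

lemma wexc_mem_edges {Ω : Finset (Option ι × Sym2 V)} {S : Finset ι} {e : Sym2 V} :
    e ∈ edges Ω S ↔ ∃ l, (l, e) ∈ Ω ∧ (l = none ∨ ∃ m ∈ S, l = some m) := by
  simp only [edges, Finset.mem_image, Finset.mem_filter]
  constructor
  · rintro ⟨p, ⟨h1, h2⟩, rfl⟩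
    exact ⟨p.1, h1, h2⟩
  · rintro ⟨l, h1, h2⟩
    exact ⟨(l, e), ⟨h1, h2⟩, rfl⟩

lemma wexc_mem_allE {Ω : Finset (Option ι × Sym2 V)} {l : Option ι} {e : Sym2 V}
    (h : (l, e) ∈ Ω) : e ∈ allE Ω := Finset.mem_image.2 ⟨(l, e), h, rfl⟩

lemma wexc_edges_mono {Ω Ω' : Finset (Option ι × Sym2 V)} {S S' : Finset ι} (hΩ : Ω ⊆ Ω')
    (hS : S ⊆ S') : edges Ω S ⊆ edges Ω' S' := fun e he => by
  obtain ⟨l, h1, h2⟩ := wexc_mem_edges.1 he
  exact wexc_mem_edges.2 ⟨l, hΩ h1, h2.imp id fun ⟨m, hm, h⟩ => ⟨m, hS hm, h⟩⟩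

lemma wexc_edges_allE (Ω : Finset (Option ι × Sym2 V)) (S : Finset ι) : edges Ω S ⊆ allE Ω :=
  fun e he => by
    obtain ⟨l, h1, -⟩ := wexc_mem_edges.1 he
    exact wexc_mem_allE h1

lemma wexc_allE_mono {Ω Ω' : Finset (Option ι × Sym2 V)} (hΩ : Ω ⊆ Ω') : allE Ω ⊆ allE Ω' :=
  Finset.image_subset_image hΩ

lemma wexc_cl_sub {ω ω' : Finset (Sym2 V)} {D U : Finset V} (hD : D ⊆ U) {x : V}
    (h : ∀ u ∈ cl ω D {x}, ∀ v ∈ cl ω D {x}, s(u, v) ∈ ω → s(u, v) ∈ ω') :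
    cl ω D {x} ⊆ cl ω' U {x} :=
  cl_subset_of_closed (fun _ hy hy' => root_mem_cl _ hy (hD hy'))
    fun u v hu hu' hv he => cl_step hu' (hD hv) (h u hu v (cl_step hu hv he) he)

/-- last exit from a set containing the root -/
lemma wexc_exit {ω : Finset (Sym2 V)} {D C : Finset V} {x z : V} (hx : x ∈ C)
    (hz : z ∈ cl ω D {x}) (hzC : z ∉ C) :
    ∃ a ∈ C, ∃ u ∈ D \ C, s(a, u) ∈ ω ∧ z ∈ cl ω (D \ C) {u} := by
  have key := cl_induction (ω := ω) (U := D) (R := {x})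
    (fun y => y ∈ C ∨ ∃ a ∈ C, ∃ u ∈ D \ C, s(a, u) ∈ ω ∧ y ∈ cl ω (D \ C) {u}) ?_ ?_ z hz
  · exact key.resolve_left hzC
  · intro y hy _
    exact Or.inl (Finset.mem_singleton.1 hy ▸ hx)
  · intro u v _ hP hv he
    by_cases hvC : v ∈ C
    · exact Or.inl hvC
    · have hv' : v ∈ D \ C := Finset.mem_sdiff.2 ⟨hv, hvC⟩
      rcases hP with hu | ⟨a, ha, u', hu', he', hc⟩
      · exact Or.inr ⟨u, hu, v, hv', he, self_mem_cl _ hv'⟩
      · exact Or.inr ⟨a, ha, u', hu', he', cl_step hc hv' he⟩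

/-- Exit lemma.  Let `C = cl (edges Ω S₀) D {x}`.  As in `sl_pointwise`, `z` lies in
`cl (edges Ω S) (D \ C) {u}` for some pair `s(a,u) ∈ edges Ω S`, `a ∈ C`, `u ∈ D \ C`; its label
is `some m` with `m ∈ S \ S₀`.  `a ∉ A m` (either `a = x`, or `a` is an endpoint of a pair of
`edges Ω S₀`, use `Allowed`).  If `u ∉ A m` take `b = u`, `C' = ∅`.  Otherwise let
`C' = cl (edges Ω S) ((D \ C) ∩ A m) {u}` and exit from `C'` in the same way through a pair
`s(u', b)`; then `b ∉ A m`, and all pairs touching `A m` have label `some m`. -/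
theorem exit_exc {U D : Finset V} (hD : D ⊆ U) {A : ι → Finset V}
    {Ω : Finset (Option ι × Sym2 V)} (hΩ : Allowed A Ω) {S S₀ : Finset ι} (hS : S₀ ⊆ S) {x z : V}
    (hx : ∀ m ∈ S, m ∉ S₀ → x ∉ A m) (hz : ∀ m, z ∉ A m) (h1 : z ∈ cl (edges Ω S) D {x})
    (h0 : z ∉ cl (edges Ω S₀) D {x}) :
    ∃ m ∈ S, m ∉ S₀ ∧ ∃ a ∈ cl (edges Ω S₀) D {x}, ∃ b, ∃ C' : Finset V,
      (∀ m', b ∉ A m') ∧ b ∈ cl (edges Ω (insert m S₀)) D {x} ∧
      z ∈ cl (edges Ω S) (D \ (cl (edges Ω S₀) D {x} ∪ C')) {b} ∧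
      Exc U A m a b (Ω.filter fun p => p.1 = some m ∧
        ∃ y ∈ cl (edges Ω S₀) D {x} ∪ C', y ∈ p.2) := by
  classical
  set C := cl (edges Ω S₀) D {x} with hC
  have hxD : x ∈ D := root_mem_of_mem_cl h1
  obtain ⟨a, ha, u, hu, he, hzu⟩ := wexc_exit (C := C) (self_mem_cl _ hxD) h1 h0
  have huD := (Finset.mem_sdiff.1 hu).1
  have huC := (Finset.mem_sdiff.1 hu).2
  obtain ⟨l, hl, hl'⟩ := wexc_mem_edges.1 he
  obtain ⟨m, hmS, hm0, rfl⟩ : ∃ m ∈ S, m ∉ S₀ ∧ l = some m := by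
    rcases hl' with rfl | ⟨m, hm, rfl⟩
    · exact absurd (cl_step ha huD (wexc_mem_edges.2 ⟨none, hl, Or.inl rfl⟩)) huC
    · exact ⟨m, hm, fun h => huC (cl_step ha huD
        (wexc_mem_edges.2 ⟨some m, hl, Or.inr ⟨m, h, rfl⟩⟩)), rfl⟩
  have hCA : ∀ y ∈ C, y ∉ A m := by
    refine cl_induction (fun y => y ∉ A m) ?_ ?_
    · intro y hy _
      rw [Finset.mem_singleton.1 hy]
      exact hx m hmS hm0
    · intro y v _ _ _ hyv hv
      obtain ⟨l', hl1, hl2⟩ := wexc_mem_edges.1 hyv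
      have h3 : l' = some m := hΩ _ hl1 m v hv (Sym2.mem_mk_right _ _)
      rcases hl2 with h4 | ⟨m', hm', h4⟩
      · rw [h4] at h3; exact absurd h3 (by simp)
      · rw [h4] at h3; exact hm0 (Option.some.inj h3 ▸ hm')
  have hlab : ∀ e, (some m, e) ∈ Ω → e ∈ edges Ω (insert m S₀) := fun e h =>
    wexc_mem_edges.2 ⟨some m, h, Or.inr ⟨m, Finset.mem_insert_self _ _, rfl⟩⟩
  have hout : ∀ y b, (some m, s(y, b)) ∈ Ω → b ∉ A m → ∀ m', b ∉ A m' := by
    intro y b h hb m' hb'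
    have h3 : some m = some m' := hΩ _ h m' b hb' (Sym2.mem_mk_right _ _)
    exact hb (Option.some.inj h3 ▸ hb')
  have hu1 : u ∈ cl (edges Ω (insert m S₀)) D {x} :=
    cl_step (cl_mono (wexc_edges_mono subset_rfl (Finset.subset_insert _ _)) subset_rfl subset_rfl ha)
      huD (hlab _ hl)
  refine ⟨m, hmS, hm0, a, ha, ?_⟩
  by_cases huA : u ∈ A m
  · set C' := cl (edges Ω S) ((D \ C) ∩ A m) {u} with hC'
    have hC'A : ∀ y ∈ C', y ∈ A m := fun y hy => (Finset.mem_inter.1 (cl_subset _ _ _ hy)).2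
    have huC' : u ∈ C' := self_mem_cl _ (Finset.mem_inter.2 ⟨hu, huA⟩)
    obtain ⟨u', hu', b, hb, he', hzb⟩ := wexc_exit (C := C') huC' hzu fun h => hz m (hC'A z h)
    have hbD := (Finset.mem_sdiff.1 hb).1
    have hbC' := (Finset.mem_sdiff.1 hb).2
    have hbA : b ∉ A m := fun h => hbC' (cl_step hu' (Finset.mem_inter.2 ⟨hbD, h⟩) he')
    have hlabA : ∀ y v, y ∈ A m → s(y, v) ∈ edges Ω S → (some m, s(y, v)) ∈ Ω := by
      intro y v hy h
      obtain ⟨l', hl1, -⟩ := wexc_mem_edges.1 h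
      have h3 : l' = some m := hΩ _ hl1 m y hy (Sym2.mem_mk_left _ _)
      exact h3 ▸ hl1
    have hl2 := hlabA u' b (hC'A _ hu') he'
    have hC'sub : C' ⊆ cl (edges Ω (insert m S₀)) D {x} :=
      cl_subset_of_closed (fun y hy _ => Finset.mem_singleton.1 hy ▸ hu1)
        fun y v hy hy' hv h => cl_step hy' (Finset.mem_sdiff.1 (Finset.mem_inter.1 hv).1).1
          (hlab _ (hlabA y v (hC'A y hy) h))
    refine ⟨b, C', hout u' b hl2 hbA,
      cl_step (hC'sub hu') (Finset.mem_sdiff.1 hbD).1 (hlab _ hl2), ?_, hCA a ha, hbA,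
      Or.inr ⟨u, huA, u', hC'A _ hu', {(some m, s(a, u)), (some m, s(u', b))},
        Ω.filter fun p => p.1 = some m ∧ ∀ y ∈ p.2, y ∈ C', ?_, ?_, ?_, ⟨?_, ?_, ?_⟩, ?_⟩⟩
    · have : D \ (C ∪ C') = (D \ C) \ C' := by
        ext y; simp only [Finset.mem_sdiff, Finset.mem_union]; tauto
      rw [this]; exact hzb
    · rw [Finset.disjoint_left]
      intro p hp hp'
      have h4 := (Finset.mem_filter.1 hp').2.2
      rcases Finset.mem_insert.1 hp with rfl | hp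
      · exact hCA a ha (hC'A a (h4 a (Sym2.mem_mk_left _ _)))
      · rw [Finset.mem_singleton.1 hp] at h4
        exact hbC' (h4 b (Sym2.mem_mk_right _ _))
    · intro p hp
      rcases Finset.mem_insert.1 hp with rfl | hp
      · exact Finset.mem_filter.2
          ⟨hl, rfl, a, Finset.mem_union_left _ ha, Sym2.mem_mk_left _ _⟩
      · rw [Finset.mem_singleton.1 hp]
        exact Finset.mem_filter.2
          ⟨hl2, rfl, u', Finset.mem_union_right _ hu', Sym2.mem_mk_left _ _⟩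
    · intro p hp
      obtain ⟨h4, h5, h6⟩ := Finset.mem_filter.1 hp
      exact Finset.mem_filter.2 ⟨h4, h5, p.2.out.1,
        Finset.mem_union_right _ (h6 _ (Sym2.out_fst_mem _)), Sym2.out_fst_mem _⟩
    · exact Finset.mem_insert_self _ _
    · exact Finset.mem_insert_of_mem (Finset.mem_singleton_self _)
    · intro h
      rcases Sym2.eq_iff.1 h with ⟨h4, -⟩ | ⟨h4, -⟩
      · exact hCA a ha (h4 ▸ hC'A _ hu')
      · exact (Finset.mem_sdiff.1 hbD).2 (h4 ▸ ha)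
    · refine wexc_cl_sub (fun y hy => hD (Finset.mem_sdiff.1 (Finset.mem_inter.1 hy).1).1) ?_ hu'
      intro y hy v hv h
      refine wexc_mem_allE (l := some m) (Finset.mem_filter.2 ⟨hlabA y v (hC'A y hy) h, rfl, ?_⟩)
      intro t ht
      rcases Sym2.mem_iff.1 ht with rfl | rfl
      exacts [hy, hv]
  · refine ⟨u, ∅, hout a u hl huA, hu1, by rw [Finset.union_empty]; exact hzu, hCA a ha, huA,
      Or.inl (Finset.mem_filter.2 ⟨hl, rfl, a, Finset.mem_union_left _ ha, Sym2.mem_mk_left _ _⟩)⟩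

theorem Exc.mono {U : Finset V} {A : ι → Finset V} {m : ι} {a b : V}
    {E E' : Finset (Option ι × Sym2 V)} (h : Exc U A m a b E) (hE : E ⊆ E') : Exc U A m a b E' := by
  obtain ⟨h1, h2, h3⟩ := h
  refine ⟨h1, h2, h3.imp (fun h => hE h) ?_⟩
  rintro ⟨u, hu, u', hu', E₁, E₂, hd, h4, h5, h6⟩
  exact ⟨u, hu, u', hu', E₁, E₂, hd, h4.trans hE, h5.trans hE, h6⟩

theorem SerE.mono {U : Finset V} {A : ι → Finset V} {z : V} {k : ℕ} {T T' : Finset ι} {x : V}
    {Ω Ω' : Finset (Option ι × Sym2 V)} (h : SerE U A z k T x Ω) (hT : T ⊆ T') (hΩ : Ω ⊆ Ω') :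
    SerE U A z k T' x Ω' := by
  induction k generalizing T T' x Ω Ω' with
  | zero => exact cl_mono (wexc_allE_mono hΩ) subset_rfl subset_rfl h
  | succ k ih =>
    obtain ⟨m, hm, a, ha, b, hb, Ω₀, Ω₁, hd, h0, h1, hc, E, Ω₂, hd', hE, h2, hx, hs⟩ := h
    exact ⟨m, hT hm, a, ha, b, hb, Ω₀, Ω₁, hd, h0.trans hΩ, h1.trans hΩ, hc, E, Ω₂, hd', hE, h2, hx,
      ih hs (Finset.erase_subset_erase m hT) subset_rfl⟩

lemma wexc_ser {U : Finset V} {A : ι → Finset V} {Ω : Finset (Option ι × Sym2 V)}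
    (hΩ : Allowed A Ω) {S : Finset ι} {z : V} (hz : ∀ m, z ∉ A m) (k : ℕ) :
    ∀ (T : Finset ι) (x : V) (D : Finset V) (Ω' : Finset (Option ι × Sym2 V)), T.card = k →
      T ⊆ S → D ⊆ U → Ω' ⊆ Ω → (∀ m, x ∉ A m) → z ∈ cl (edges Ω' S) D {x} →
      (∀ m ∈ T, z ∉ cl (edges Ω (S.erase m)) U {x}) → SerE U A z k T x Ω' := by
  classical
  induction k with
  | zero =>
    intro T x D Ω' _ _ hD _ _ h1 _
    exact cl_mono (wexc_edges_allE _ _) hD subset_rfl h1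
  | succ k ih =>
    intro T x D Ω' hk hT hD hΩ' hx h1 h0
    obtain ⟨m₀, hm₀⟩ : T.Nonempty := Finset.card_pos.1 (by omega)
    have hsub : ∀ m ∈ T, S \ T ⊆ S.erase m := fun m hm y hy =>
      Finset.mem_erase.2 ⟨fun h => (Finset.mem_sdiff.1 hy).2 (h ▸ hm), (Finset.mem_sdiff.1 hy).1⟩
    obtain ⟨m, hmS, hm0, a, ha, b, C', hb, hbx, hzb, hexc⟩ :=
      exit_exc hD (Ω := Ω') (fun p hp => hΩ p (hΩ' hp)) (S := S) (S₀ := S \ T) Finset.sdiff_subset
        (fun m _ _ => hx m) hz h1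
        fun h => h0 m₀ hm₀ (cl_mono (wexc_edges_mono hΩ' (hsub m₀ hm₀)) hD subset_rfl h)
    have hmT : m ∈ T := by
      by_contra h
      exact hm0 (Finset.mem_sdiff.2 ⟨hmS, h⟩)
    set C := cl (edges Ω' (S \ T)) D {x} with hC
    set Ω₀ := Ω'.filter fun p => p.1 ≠ some m ∧ ∀ y ∈ p.2, y ∈ C with hΩ₀
    set Ω₂ := Ω'.filter fun p => ∀ y ∈ p.2, y ∈ D \ (C ∪ C') with hΩ₂
    refine ⟨m, hmT, a, hD (cl_subset _ _ _ ha), b, hD (cl_subset _ _ _ hbx), Ω₀, Ω' \ Ω₀,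
      Finset.disjoint_sdiff, Finset.filter_subset _ _, Finset.sdiff_subset, ?_, _, Ω₂, ?_, ?_, ?_,
      hexc, ?_⟩
    · refine wexc_cl_sub hD ?_ ha
      intro y hy v hv h
      obtain ⟨l, hl1, hl2⟩ := wexc_mem_edges.1 h
      refine wexc_mem_allE (l := l) (Finset.mem_filter.2 ⟨hl1, ?_, ?_⟩)
      · rcases hl2 with rfl | ⟨m', hm', rfl⟩
        · simp
        · exact fun h => hm0 (Option.some.inj h ▸ hm')
      · intro t ht
        rcases Sym2.mem_iff.1 ht with rfl | rfl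
        exacts [hy, hv]
    · rw [Finset.disjoint_left]
      intro p hp hp'
      obtain ⟨-, -, y, hy, hy'⟩ := Finset.mem_filter.1 hp
      exact (Finset.mem_sdiff.1 ((Finset.mem_filter.1 hp').2 y hy')).2 hy
    · intro p hp
      obtain ⟨h2, h3, -⟩ := Finset.mem_filter.1 hp
      exact Finset.mem_sdiff.2 ⟨h2, fun h => (Finset.mem_filter.1 h).2.1 h3⟩
    · intro p hp
      obtain ⟨h2, h3⟩ := Finset.mem_filter.1 hp
      exact Finset.mem_sdiff.2 ⟨h2, fun h => (Finset.mem_sdiff.1 (h3 _ (Sym2.out_fst_mem _))).2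
        (Finset.mem_union_left _ ((Finset.mem_filter.1 h).2.2 _ (Sym2.out_fst_mem _)))⟩
    · refine ih (T.erase m) b (D \ (C ∪ C')) Ω₂ (by rw [Finset.card_erase_of_mem hmT]; omega)
        ((Finset.erase_subset _ _).trans hT) (Finset.sdiff_subset.trans hD)
        ((Finset.filter_subset _ _).trans hΩ') hb ?_ ?_
      · refine wexc_cl_sub subset_rfl ?_ hzb
        intro y hy v hv h
        obtain ⟨l, hl1, hl2⟩ := wexc_mem_edges.1 h
        refine wexc_mem_edges.2 ⟨l, Finset.mem_filter.2 ⟨hl1, ?_⟩, hl2⟩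
        intro t ht
        rcases Sym2.mem_iff.1 ht with rfl | rfl
        exacts [cl_subset _ _ _ hy, cl_subset _ _ _ hv]
      · intro m' hm' h
        obtain ⟨hne, hm'T⟩ := Finset.mem_erase.1 hm'
        refine h0 m' hm'T (cl_trans (cl_mono (wexc_edges_mono hΩ' ?_) hD subset_rfl hbx) h)
        exact Finset.insert_subset (Finset.mem_erase.2 ⟨hne.symm, hmS⟩) (hsub m' hm'T)

/-- Induction on `k`, generalizing `T`, `x`, the domain `D ⊆ U` and the pool `Ω' ⊆ Ω`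
(hypotheses: `z ∈ cl (edges Ω' S) D {x}`, `z ∉ cl (edges Ω (S.erase m)) U {x}` for `m ∈ T`).
Apply `exit_exc` with `S₀ = S \ T`; the witnesses are the labelled pairs with label in `S₀` inside
`C`, the excursion set, and the labelled pairs with both endpoints in `D \ (C ∪ C')`.  The new root
`b` is joined to `x` in `edges Ω (S.erase m')` for every `m' ∈ T.erase m`. -/
theorem serE_of {U : Finset V} {A : ι → Finset V} {Ω : Finset (Option ι × Sym2 V)}
    (hΩ : Allowed A Ω) {S T : Finset ι} (hT : T ⊆ S) {x z : V} (hx : ∀ m, x ∉ A m)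
    (hz : ∀ m, z ∉ A m) (h1 : z ∈ cl (edges Ω S) U {x})
    (h0 : ∀ m ∈ T, z ∉ cl (edges Ω (S.erase m)) U {x}) : SerE U A z T.card T x Ω :=
  wexc_ser hΩ hz T.card T x U Ω rfl hT subset_rfl subset_rfl hx h1 h0

/-- Let `C = cl (edges Ω S) U {x}`.  For `m ∈ T` apply `exit_exc` to `insert m S` and `S`.
`Ω₀` = labelled pairs with label `none` or in `S` and both endpoints in `C`; `E m` = the excursion
set (empty for `m ∉ T`); `Ω₃` = their union; `Ω₁ = Ω \ Ω₀`, `Ω₂ = Ω₁ \ Ω₃`. -/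
theorem parE_of {U : Finset V} {A : ι → Finset V} {Ω : Finset (Option ι × Sym2 V)}
    (hΩ : Allowed A Ω) {S T : Finset ι} (hT : Disjoint S T) {x z : V} (hx : ∀ m, x ∉ A m)
    (hz : ∀ m, z ∉ A m) (h0 : z ∉ cl (edges Ω S) U {x})
    (h1 : ∀ m ∈ T, z ∈ cl (edges Ω (insert m S)) U {x}) : ParE U A x z T Ω := by
  classical
  set C := cl (edges Ω S) U {x} with hC
  have hex : ∀ m, ∃ C' : Finset V, m ∈ T → ∃ a ∈ C, ∃ b,
      z ∈ cl (edges Ω (insert m S)) (U \ (C ∪ C')) {b} ∧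
      Exc U A m a b (Ω.filter fun p => p.1 = some m ∧ ∃ y ∈ C ∪ C', y ∈ p.2) := by
    intro m
    by_cases hm : m ∈ T
    · obtain ⟨m', hm', hm0, a, ha, b, C', -, -, hzb, hexc⟩ :=
        exit_exc (subset_rfl : U ⊆ U) hΩ (Finset.subset_insert m S) (fun m _ _ => hx m) hz
          (h1 m hm) h0
      obtain rfl : m' = m := (Finset.mem_insert.1 hm').resolve_right hm0
      exact ⟨C', fun _ => ⟨a, ha, b, hzb, hexc⟩⟩
    · exact ⟨∅, fun h => absurd h hm⟩
  choose C' hC' using hex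
  set E : ι → Finset (Option ι × Sym2 V) := fun m =>
    Ω.filter fun p => m ∈ T ∧ p.1 = some m ∧ ∃ y ∈ C ∪ C' m, y ∈ p.2 with hE
  set Ω₀ := Ω.filter fun p => (p.1 = none ∨ ∃ m ∈ S, p.1 = some m) ∧ ∀ y ∈ p.2, y ∈ C with hΩ₀
  refine ⟨Ω₀, Ω \ Ω₀, Finset.disjoint_sdiff, Finset.filter_subset _ _, Finset.sdiff_subset,
    (Ω \ Ω₀) \ Finset.univ.biUnion E, Finset.univ.biUnion E, Finset.sdiff_disjoint,
    Finset.sdiff_subset, ?_, E, fun m => Finset.subset_biUnion_of_mem E (Finset.mem_univ m),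
    ?_, ?_⟩
  · refine Finset.biUnion_subset.2 fun m _ p hp => ?_
    obtain ⟨h2, h3, h4, -⟩ := Finset.mem_filter.1 hp
    refine Finset.mem_sdiff.2 ⟨h2, fun h => ?_⟩
    rcases (Finset.mem_filter.1 h).2.1 with h5 | ⟨m', hm', h5⟩
    · rw [h4] at h5; exact absurd h5 (by simp)
    · rw [h4] at h5
      exact Finset.disjoint_left.1 hT hm' (Option.some.inj h5 ▸ h3)
  · intro m m' hne
    rw [Finset.disjoint_left]
    intro p hp hp'
    have h2 := (Finset.mem_filter.1 hp).2.2.1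
    have h3 := (Finset.mem_filter.1 hp').2.2.1
    rw [h2] at h3
    exact hne (Option.some.inj h3)
  · intro m hm
    obtain ⟨a, ha, b, hzb, hexc⟩ := hC' m hm
    refine ⟨a, ?_, b, mem_cl_symm ?_, hexc.mono fun p hp => ?_⟩
    · refine wexc_cl_sub subset_rfl ?_ ha
      intro y hy v hv h
      obtain ⟨l, hl1, hl2⟩ := wexc_mem_edges.1 h
      refine wexc_mem_allE (l := l) (Finset.mem_filter.2 ⟨hl1, hl2, ?_⟩)
      intro t ht
      rcases Sym2.mem_iff.1 ht with rfl | rfl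
      exacts [hy, hv]
    · refine wexc_cl_sub Finset.sdiff_subset ?_ hzb
      intro y hy v hv h
      obtain ⟨l, hl1, hl2⟩ := wexc_mem_edges.1 h
      have hend : ∀ t ∈ s(y, v), t ∉ C ∪ C' m := by
        intro t ht
        rcases Sym2.mem_iff.1 ht with rfl | rfl
        exacts [(Finset.mem_sdiff.1 (cl_subset _ _ _ hy)).2,
          (Finset.mem_sdiff.1 (cl_subset _ _ _ hv)).2]
      refine wexc_mem_allE (l := l) (Finset.mem_sdiff.2 ⟨Finset.mem_sdiff.2 ⟨hl1, fun h2 => ?_⟩,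
        fun h2 => ?_⟩)
      · exact hend y (Sym2.mem_mk_left _ _) (Finset.mem_union_left _
          ((Finset.mem_filter.1 h2).2.2 y (Sym2.mem_mk_left _ _)))
      · obtain ⟨m', -, h3⟩ := Finset.mem_biUnion.1 h2
        obtain ⟨-, h4, h5, t, ht, ht'⟩ := Finset.mem_filter.1 h3
        have h6 : l = some m' := h5
        obtain rfl : m' = m := by
          rcases hl2 with h7 | ⟨m'', hm'', h7⟩
          · rw [h6] at h7; exact absurd h7 (by simp)
          · rw [h6] at h7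
            rw [← Option.some.inj h7] at hm''
            exact (Finset.mem_insert.1 hm'').resolve_right
              fun h8 => Finset.disjoint_left.1 hT h8 h4
        exact hend t ht' ht
    · obtain ⟨h2, h3⟩ := Finset.mem_filter.1 hp
      exact Finset.mem_filter.2 ⟨h2, hm, h3⟩

end Pool.Agent.Lib.MP_6fc7d9_pr
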