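import Pool.Agent.Lib.MP_6fc7d9_pr.WSum2

set_option linter.unusedSectionVars false

namespace Pool.Agent.Lib.MP_6fc7d9_pr
open Finset

/-- distance to the lower face -/
def wface_lo {d : ℕ} (i : Fin d) (h : ℕ) (o : Zd d) (b : Bool) (P : ℕ) (p : Zd d) (k : Fin d) : ℤ :=
  p k - (slo i h o b P k - 1)

/-- distance to the upper face -/
def wface_hi {d : ℕ} (i : Fin d) (h : ℕ) (o : Zd d) (b : Bool) (P : ℕ) (p : Zd d) (k : Fin d) : ℤ :=
  shi i h o b P k + 1 - p k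

lemma wface_mem {d : ℕ} {i : Fin d} {h : ℕ} {o : Zd d} {b : Bool} {P : ℕ} {p : Zd d} :
    p ∈ Sl i h o b P ↔ ∀ k, 1 ≤ wface_lo i h o b P p k ∧ 1 ≤ wface_hi i h o b P p k := by
  simp only [Sl, Fintype.mem_piFinset, Finset.mem_Icc, wface_lo, wface_hi]
  refine forall_congr' fun k => ?_
  constructor <;> rintro ⟨h1, h2⟩ <;> constructor <;> omega

lemma wface_add {d : ℕ} (i : Fin d) (h : ℕ) (o : Zd d) (b : Bool) (P : ℕ) (p : Zd d) :
    wface_lo i h o b P p i + wface_hi i h o b P p i = h + 1 := by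
  cases b <;> simp [wface_lo, wface_hi, slo, shi] <;> ring

lemma wface_fw {d : ℕ} {i : Fin d} {h : ℕ} {o : Zd d} {b : Bool} {P : ℕ} {p : Zd d}
    (hp : p ∈ Sl i h o b P) (s : ℝ) :
    fw i h o b P s p = ∑ k, ((wface_lo i h o b P p k : ℝ) ^ (-s)
      + (wface_hi i h o b P p k : ℝ) ^ (-s)) := by
  refine Finset.sum_congr rfl fun k _ => ?_
  obtain ⟨h1, h2⟩ := wface_mem.mp hp k
  have e1 : |((p k - (slo i h o b P k - 1) : ℤ) : ℝ)| = (wface_lo i h o b P p k : ℝ) := by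
    rw [← Int.cast_abs, ← wface_lo, abs_of_nonneg (by omega)]
  have e2 : |((p k - (shi i h o b P k + 1) : ℤ) : ℝ)| = (wface_hi i h o b P p k : ℝ) := by
    rw [← Int.cast_abs, abs_sub_comm, ← wface_hi, abs_of_nonneg (by omega)]
  rw [e1, e2]

/-- the least face distance -/
lemma wface_delta {d : ℕ} {i : Fin d} {h : ℕ} {o : Zd d} {b : Bool} {P : ℕ} {p : Zd d}
    (hp : p ∈ Sl i h o b P) :
    ∃ δ : ℤ, 1 ≤ δ ∧ δ ≤ h ∧ (∀ c, c ∉ Sl i h o b P → (δ : ℝ) ≤ ‖c - p‖) ∧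
      (∀ k, δ ≤ wface_lo i h o b P p k ∧ δ ≤ wface_hi i h o b P p k) ∧
      ∃ k, δ = wface_lo i h o b P p k ∨ δ = wface_hi i h o b P p k := by
  obtain ⟨k₀, -, hk₀⟩ := Finset.exists_min_image Finset.univ
    (fun k => min (wface_lo i h o b P p k) (wface_hi i h o b P p k)) ⟨i, Finset.mem_univ i⟩
  have hm := wface_mem.mp hp
  have hall : ∀ k, min (wface_lo i h o b P p k₀) (wface_hi i h o b P p k₀) ≤ wface_lo i h o b P p k
      ∧ min (wface_lo i h o b P p k₀) (wface_hi i h o b P p k₀) ≤ wface_hi i h o b P p k :=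
    fun k => ⟨(hk₀ k (Finset.mem_univ k)).trans (min_le_left _ _),
      (hk₀ k (Finset.mem_univ k)).trans (min_le_right _ _)⟩
  refine ⟨min (wface_lo i h o b P p k₀) (wface_hi i h o b P p k₀), le_min (hm k₀).1 (hm k₀).2,
    ?_, ?_, hall, k₀, min_choice _ _⟩
  · have h1 := wface_add i h o b P p
    have h2 := (hall i).1
    have h3 := (hm i).2
    omega
  · intro c hc
    rw [wface_mem, not_forall] at hc
    obtain ⟨k, hk⟩ := hc
    obtain ⟨h1, h2⟩ := hall k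
    refine le_trans ?_ (abs_le_norm (c - p) k)
    rw [← Int.cast_abs]
    generalize min (wface_lo i h o b P p k₀) (wface_hi i h o b P p k₀) = δ at h1 h2 ⊢
    have h3 : δ ≤ |(c - p) k| := by
      rw [Pi.sub_apply, le_abs]
      simp only [wface_lo, wface_hi] at h1 h2 hk
      omega
    exact_mod_cast h3

lemma wface_le_fw {d : ℕ} {i : Fin d} {h : ℕ} {o : Zd d} {b : Bool} {P : ℕ} {p : Zd d}
    (hp : p ∈ Sl i h o b P) (s : ℝ) {δ : ℤ}
    (hδ : ∃ k, δ = wface_lo i h o b P p k ∨ δ = wface_hi i h o b P p k) :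
    (δ : ℝ) ^ (-s) ≤ fw i h o b P s p := by
  obtain ⟨k, hk⟩ := hδ
  have hm := wface_mem.mp hp
  have n1 : ∀ k, 0 ≤ (wface_lo i h o b P p k : ℝ) ^ (-s) := fun k =>
    Real.rpow_nonneg (by exact_mod_cast (le_trans zero_le_one (hm k).1)) _
  have n2 : ∀ k, 0 ≤ (wface_hi i h o b P p k : ℝ) ^ (-s) := fun k =>
    Real.rpow_nonneg (by exact_mod_cast (le_trans zero_le_one (hm k).2)) _
  rw [wface_fw hp]
  refine le_trans ?_ (Finset.single_le_sum (f := fun k => (wface_lo i h o b P p k : ℝ) ^ (-s)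
    + (wface_hi i h o b P p k : ℝ) ^ (-s)) (fun k _ => add_nonneg (n1 k) (n2 k))
    (Finset.mem_univ k))
  rcases hk with hk | hk
  · rw [hk]; exact le_add_of_nonneg_right (n2 k)
  · rw [hk]; exact le_add_of_nonneg_left (n1 k)

lemma wface_inj_sum {ρ : ℕ} {g : Fin ρ → ℤ} (hg : Function.Injective g) (S : Finset ℤ)
    {f : ℤ → ℝ} (hf : ∀ n ∈ S, 0 ≤ f n) :
    ∑ W, (if g W ∈ S then f (g W) else 0) ≤ ∑ n ∈ S, f n := by
  rw [← Finset.sum_filter, ← Finset.sum_image (f := f) fun x _ y _ hxy => hg hxy]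
  refine Finset.sum_le_sum_of_subset_of_nonneg (fun n hn => ?_) fun n hn _ => hf n hn
  obtain ⟨W, hW, rfl⟩ := Finset.mem_image.mp hn
  exact (Finset.mem_filter.mp hW).2

lemma wface_count {ρ : ℕ} {g : Fin ρ → ℤ} (hg : Function.Injective g) (S : Finset ℤ)
    {Q : Fin ρ → Prop} (hQ : ∀ W, Q W → g W ∈ S) : ∑ W, ind (Q W) ≤ (S.card : ℝ) := by
  have h1 := wface_inj_sum hg S (f := fun _ => (1 : ℝ)) fun _ _ => zero_le_one
  rw [Finset.sum_const, nsmul_eq_mul, mul_one] at h1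
  refine le_trans (Finset.sum_le_sum fun W _ => ?_) h1
  rw [← ind_eq_ite]
  exact ind_mono (hQ W)

lemma wface_lo_inj {d : ℕ} (i : Fin d) (h : ℕ) (o : Zd d) (b : Bool) (W₀ ρ : ℕ) (p : Zd d)
    (k : Fin d) : Function.Injective fun W : Fin ρ => wface_lo i h o b (W₀ + W) p k := by
  intro W W' hW
  apply Fin.ext
  simp only [wface_lo, slo] at hW
  split_ifs at hW <;> omega

lemma wface_hi_inj {d : ℕ} (i : Fin d) (h : ℕ) (o : Zd d) (b : Bool) (W₀ ρ : ℕ) (p : Zd d)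
    (k : Fin d) : Function.Injective fun W : Fin ρ => wface_hi i h o b (W₀ + W) p k := by
  intro W W' hW
  apply Fin.ext
  simp only [wface_hi, shi] at hW
  split_ifs at hW <;> omega

lemma wface_harm {η : ℝ} (hη : 0 ≤ η) (h1 : η < 1) (N : ℕ) :
    ∑ n ∈ Finset.Icc (1 : ℤ) N, (n : ℝ) ^ (-η) ≤ (N : ℝ) ^ (1 - η) / (1 - η) := by
  have hγ : 0 < 1 - η := by linarith
  induction N with
  | zero => simp [Real.zero_rpow hγ.ne']
  | succ N ih =>
    have e : Finset.Icc (1 : ℤ) ((N + 1 : ℕ) : ℤ)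
        = insert ((N + 1 : ℕ) : ℤ) (Finset.Icc (1 : ℤ) N) := by
      ext n
      simp only [Finset.mem_Icc, Finset.mem_insert]
      omega
    rw [e, Finset.sum_insert (by simp only [Finset.mem_Icc]; omega), Int.cast_natCast]
    set M : ℝ := ((N + 1 : ℕ) : ℝ) with hM
    have hM0 : 0 < M := by rw [hM]; positivity
    have hM1 : 1 ≤ M := by rw [hM]; exact_mod_cast Nat.le_add_left 1 N
    have hs : -1 ≤ -(1 / M) := by
      rw [neg_le_neg_iff, div_le_one hM0]; exact hM1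
    have hb := rpow_one_add_le_one_add_mul_self hs hγ.le (show 1 - η ≤ 1 by linarith)
    have hN : (N : ℝ) = M * (1 + -(1 / M)) := by
      rw [mul_add, mul_one, mul_neg, mul_one_div_cancel hM0.ne', hM]; push_cast; ring
    have h2 : (N : ℝ) ^ (1 - η) ≤ M ^ (1 - η) * (1 + (1 - η) * -(1 / M)) := by
      rw [hN, Real.mul_rpow hM0.le (by linarith)]
      exact mul_le_mul_of_nonneg_left hb (Real.rpow_nonneg hM0.le _)
    have h3 : M ^ (1 - η) = M * M ^ (-η) := by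
      rw [sub_eq_add_neg, Real.rpow_add hM0, Real.rpow_one]
    have h4 : M ^ (1 - η) * (1 + (1 - η) * -(1 / M)) = M ^ (1 - η) - (1 - η) * M ^ (-η) := by
      rw [h3]; field_simp; ring
    rw [h4] at h2
    have h5 : M ^ (-η) + (N : ℝ) ^ (1 - η) / (1 - η) ≤ M ^ (1 - η) / (1 - η) := by
      rw [le_div_iff₀ hγ, add_mul, div_mul_cancel₀ _ hγ.ne']
      linarith
    linarith

/-- Exit weight of a point of the slab.  If `δ ≥ 1` is the least of the `2d` face distances then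
`c ∉ Sl` forces `δ ≤ ‖c - p‖`, `δ ≤ h`, and `δ^(-s) ≤ fw s p`.  The sum is at most
`min (C δ^(-α)) ((2t+1)^d δ^(-d-α))` (`sum_kk_tail`, `card_ball`). -/
theorem face_exit (d : ℕ) {α η : ℝ} (hα : 0 < α) (hη : 0 ≤ η) (hηd : η ≤ d) :
    ∃ C : ℝ, 0 < C ∧ ∀ (i : Fin d) (h : ℕ) (o : Zd d) (b : Bool) (P : ℕ) (p : Zd d),
      p ∈ Sl i h o b P → ∀ T : Finset (Zd d), (∀ c ∈ T, c ∉ Sl i h o b P) →
        ∑ c ∈ T, kk (d + α) (c - p) ≤ C * (h : ℝ) ^ η * fw i h o b P (α + η) p ∧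
        ∀ (y : Zd d) (t : ℕ), T ⊆ ball y t →
          ∑ c ∈ T, kk (d + α) (c - p) ≤ C * (1 + (t : ℝ)) ^ η * fw i h o b P (α + η) p := by
  obtain ⟨Ct, hCt, htail⟩ := sum_kk_tail d (show (d : ℝ) < d + α by linarith)
  refine ⟨Ct + 2 ^ d, by positivity, ?_⟩
  intro i h o b P p hp T hT
  obtain ⟨δ, hδ1, hδh, hδc, -, hδk⟩ := wface_delta hp
  have hfw := wface_le_fw hp (α + η) hδk
  have hδ1' : (1 : ℝ) ≤ δ := by exact_mod_cast hδ1
  have hδ0 : (0 : ℝ) < δ := by linarith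
  have hδh' : (δ : ℝ) ≤ h := by exact_mod_cast hδh
  have hpos : 0 < (δ : ℝ) ^ (-(α + η)) := Real.rpow_pos_of_pos hδ0 _
  have h2d : (0 : ℝ) < 2 ^ d := by positivity
  have main : ∀ H : ℝ, (δ : ℝ) ≤ H →
      ∑ c ∈ T, kk (d + α) (c - p) ≤ (Ct + 2 ^ d) * H ^ η * fw i h o b P (α + η) p := by
    intro H hH
    have hH0 : 0 ≤ H ^ η := Real.rpow_nonneg (by linarith) _
    calc ∑ c ∈ T, kk (d + α) (c - p) ≤ Ct * (1 + (δ : ℝ)) ^ ((d : ℝ) - (d + α)) :=
          htail p T δ hδ0.le fun c hc => hδc c (hT c hc)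
      _ ≤ Ct * (δ : ℝ) ^ ((d : ℝ) - (d + α)) :=
          mul_le_mul_of_nonneg_left
            (Real.rpow_le_rpow_of_nonpos hδ0 (by linarith) (by linarith)) hCt.le
      _ = Ct * (δ : ℝ) ^ η * (δ : ℝ) ^ (-(α + η)) := by
          rw [mul_assoc, ← Real.rpow_add hδ0]
          exact congrArg _ (congrArg _ (by ring))
      _ ≤ (Ct + 2 ^ d) * H ^ η * fw i h o b P (α + η) p := by
          refine mul_le_mul (mul_le_mul (by linarith) (Real.rpow_le_rpow hδ0.le hH hη)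
            (Real.rpow_nonneg hδ0.le _) (by linarith)) hfw hpos.le ?_
          exact mul_nonneg (by linarith) hH0
  refine ⟨main h hδh', fun y t hTy => ?_⟩
  rcases le_total (δ : ℝ) (1 + (t : ℝ)) with hle | hle
  · exact main _ hle
  · have ht0 : (0 : ℝ) < 1 + (t : ℝ) := by positivity
    have hcard : (T.card : ℝ) ≤ 2 ^ d * (1 + (t : ℝ)) ^ (d : ℝ) := by
      have h1 : (T.card : ℝ) ≤ (((2 * t + 1) ^ d : ℕ) : ℝ) := by
        rw [← card_ball y t]
        exact_mod_cast Finset.card_le_card hTy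
      rw [Real.rpow_natCast, ← mul_pow]
      refine h1.trans ?_
      push_cast
      exact pow_le_pow_left₀ (by positivity) (by linarith) d
    have hH0 : 0 ≤ (1 + (t : ℝ)) ^ η := Real.rpow_nonneg ht0.le _
    calc ∑ c ∈ T, kk (d + α) (c - p) ≤ ∑ c ∈ T, (δ : ℝ) ^ (-((d : ℝ) + α)) := by
          refine Finset.sum_le_sum fun c hc => ?_
          have hdα : 0 ≤ (d : ℝ) + α := by positivity
          exact (kk_le_of_le hdα hδ0.le (hδc c (hT c hc))).trans
            (Real.rpow_le_rpow_of_nonpos hδ0 (by linarith) (by linarith))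
      _ = T.card * (δ : ℝ) ^ (-((d : ℝ) + α)) := by rw [Finset.sum_const, nsmul_eq_mul]
      _ ≤ 2 ^ d * (1 + (t : ℝ)) ^ (d : ℝ) * (δ : ℝ) ^ (-((d : ℝ) + α)) :=
          mul_le_mul_of_nonneg_right hcard (Real.rpow_nonneg hδ0.le _)
      _ = 2 ^ d * (1 + (t : ℝ)) ^ η
            * ((1 + (t : ℝ)) ^ ((d : ℝ) - η) * (δ : ℝ) ^ (-((d : ℝ) + α))) := by
          rw [show (1 + (t : ℝ)) ^ (d : ℝ) = (1 + (t : ℝ)) ^ η * (1 + (t : ℝ)) ^ ((d : ℝ) - η) by
            rw [← Real.rpow_add ht0]; exact congrArg _ (by ring)]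
          ring
      _ ≤ 2 ^ d * (1 + (t : ℝ)) ^ η
            * ((δ : ℝ) ^ ((d : ℝ) - η) * (δ : ℝ) ^ (-((d : ℝ) + α))) :=
          mul_le_mul_of_nonneg_left (mul_le_mul_of_nonneg_right
            (Real.rpow_le_rpow ht0.le hle (by linarith)) (Real.rpow_nonneg hδ0.le _))
            (mul_nonneg h2d.le hH0)
      _ = 2 ^ d * (1 + (t : ℝ)) ^ η * (δ : ℝ) ^ (-(α + η)) := by
          rw [← Real.rpow_add hδ0]
          exact congrArg _ (congrArg _ (by ring))
      _ ≤ _ := mul_le_mul (mul_le_mul_of_nonneg_right (by linarith) hH0) hfw hpos.le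
            (mul_nonneg (by linarith) hH0)

/-- `psi_bound` for each of the `2d` faces -/
theorem face_conv (d : ℕ) {α α' : ℝ} (hα : 0 < α) (hα' : α < α') (h1 : α' < 1) :
    ∃ C : ℝ, 0 < C ∧ ∀ (i : Fin d) (h : ℕ) (o : Zd d) (b : Bool) (P : ℕ) (p : Zd d),
      p ∈ Sl i h o b P →
        ∑ p' ∈ Sl i h o b P, kk (d - α) (p' - p) * fw i h o b P α' p'
          ≤ C * fw i h o b P (α' - α) p := by
  obtain ⟨C, hC, hpsi⟩ := psi_bound d hα hα' h1
  refine ⟨C, hC, ?_⟩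
  intro i h o b P p hp
  have hlo : ∀ q ∈ Sl i h o b P, ∀ k, q k ≠ slo i h o b P k - 1 := fun q hq k => by
    have := (wface_mem.mp hq k).1
    simp only [wface_lo] at this
    omega
  have hhi : ∀ q ∈ Sl i h o b P, ∀ k, q k ≠ shi i h o b P k + 1 := fun q hq k => by
    have := (wface_mem.mp hq k).2
    simp only [wface_hi] at this
    omega
  unfold fw
  simp only [Finset.mul_sum]
  rw [Finset.sum_comm]
  refine Finset.sum_le_sum fun k _ => ?_
  simp only [mul_add]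
  rw [Finset.sum_add_distrib, neg_sub]
  exact add_le_add (hpsi p k _ _ (hlo p hp k) fun q hq => hlo q hq k)
    (hpsi p k _ _ (hhi p hp k) fun q hq => hhi q hq k)

/-- Average over the radius.  With `δ = δ_P(p)` the least face distance, `fw η p ≤ 2 d δ^(-η)` and
`1 ≤ δ ≤ min ‖p - a‖ h`; each face distance is an injective function of `P`, so each value of `δ`
occurs for at most `2d` radii; `∑_{1 ≤ n ≤ m} n^(-η) ≤ C m^(1-η)`. -/
theorem face_avg (d : ℕ) {η : ℝ} (hη : 0 ≤ η) (h1 : η < 1) :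
    ∃ C : ℝ, 0 < C ∧ ∀ (i : Fin d) (h : ℕ) (o : Zd d) (b : Bool) (W₀ ρ : ℕ) (a p : Zd d),
      ∑ W : Fin ρ, ind (a ∉ Sl i h o b (W₀ + W) ∧ p ∈ Sl i h o b (W₀ + W)) *
          fw i h o b (W₀ + W) η p ≤ C * (min ‖p - a‖ h) ^ (1 - η) := by
  have hγ : 0 < 1 - η := by linarith
  refine ⟨(4 * (d : ℝ) ^ 2 + 1) / (1 - η), by positivity, ?_⟩
  intro i h o b W₀ ρ a p
  set m : ℝ := min ‖p - a‖ h with hm
  have hm0 : 0 ≤ m := le_min (norm_nonneg _) (Nat.cast_nonneg _)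
  set S : Finset ℤ := Finset.Icc (1 : ℤ) (⌊m⌋₊ : ℕ) with hS
  have hfS : ∀ n ∈ S, 0 ≤ (n : ℝ) ^ (-η) := fun n hn =>
    Real.rpow_nonneg (by exact_mod_cast le_trans zero_le_one (Finset.mem_Icc.mp hn).1) _
  have hite : ∀ n : ℤ, 0 ≤ (if n ∈ S then (n : ℝ) ^ (-η) else 0) := fun n => by
    split_ifs with hn
    · exact hfS n hn
    · exact le_rfl
  have hSm : ∑ n ∈ S, (n : ℝ) ^ (-η) ≤ m ^ (1 - η) / (1 - η) :=
    (wface_harm hη h1 _).trans (div_le_div_of_nonneg_right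
      (Real.rpow_le_rpow (Nat.cast_nonneg _) (Nat.floor_le hm0) hγ.le) hγ.le)
  have step : ∀ P : ℕ, ind (a ∉ Sl i h o b P ∧ p ∈ Sl i h o b P) * fw i h o b P η p
      ≤ 2 * d * ∑ k, ((if wface_lo i h o b P p k ∈ S then (wface_lo i h o b P p k : ℝ) ^ (-η) else 0)
        + (if wface_hi i h o b P p k ∈ S then (wface_hi i h o b P p k : ℝ) ^ (-η) else 0)) := by
    intro P
    have hnn : ∀ k, 0 ≤ (if wface_lo i h o b P p k ∈ S then (wface_lo i h o b P p k : ℝ) ^ (-η)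
        else 0) + (if wface_hi i h o b P p k ∈ S then (wface_hi i h o b P p k : ℝ) ^ (-η)
        else 0) := fun k => add_nonneg (hite _) (hite _)
    by_cases hap : a ∉ Sl i h o b P ∧ p ∈ Sl i h o b P
    · rw [ind_pos hap, one_mul]
      obtain ⟨δ, hδ1, hδh, hδc, hall, k₀, hk₀⟩ := wface_delta hap.2
      have hδ0 : (0 : ℝ) < δ := by exact_mod_cast lt_of_lt_of_le zero_lt_one hδ1
      have hδm : (δ : ℝ) ≤ m := by
        refine le_min ?_ (by exact_mod_cast hδh)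
        rw [norm_sub_rev]
        exact hδc a hap.1
      have hδS : δ ∈ S := by
        refine Finset.mem_Icc.mpr ⟨hδ1, ?_⟩
        rw [Int.natCast_floor_eq_floor hm0]
        exact Int.le_floor.mpr hδm
      have e1 : fw i h o b P η p ≤ 2 * d * (δ : ℝ) ^ (-η) := by
        rw [wface_fw hap.2]
        calc ∑ k, ((wface_lo i h o b P p k : ℝ) ^ (-η) + (wface_hi i h o b P p k : ℝ) ^ (-η))
            ≤ ∑ _k : Fin d, ((δ : ℝ) ^ (-η) + (δ : ℝ) ^ (-η)) := by
              refine Finset.sum_le_sum fun k _ => add_le_add ?_ ?_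
              · exact Real.rpow_le_rpow_of_nonpos hδ0 (by exact_mod_cast (hall k).1)
                  (by linarith)
              · exact Real.rpow_le_rpow_of_nonpos hδ0 (by exact_mod_cast (hall k).2)
                  (by linarith)
          _ = 2 * d * (δ : ℝ) ^ (-η) := by
              rw [Finset.sum_const, Finset.card_univ, Fintype.card_fin, nsmul_eq_mul]; ring
      refine e1.trans (mul_le_mul_of_nonneg_left ?_ (by positivity))
      refine le_trans ?_ (Finset.single_le_sum (fun k _ => hnn k) (Finset.mem_univ k₀))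
      rcases hk₀ with hk | hk
      · rw [← hk, if_pos hδS]
        exact le_add_of_nonneg_right (hite _)
      · rw [← hk, if_pos hδS]
        exact le_add_of_nonneg_left (hite _)
    · rw [ind_neg hap, zero_mul]
      exact mul_nonneg (by positivity) (Finset.sum_nonneg fun k _ => hnn k)
  have hmp : 0 ≤ m ^ (1 - η) / (1 - η) := div_nonneg (Real.rpow_nonneg hm0 _) hγ.le
  refine (Finset.sum_le_sum fun (W : Fin ρ) _ => step (W₀ + W)).trans ?_
  rw [← Finset.mul_sum, Finset.sum_comm]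
  calc 2 * (d : ℝ) * ∑ k, ∑ W : Fin ρ, ((if wface_lo i h o b (W₀ + W) p k ∈ S then
          (wface_lo i h o b (W₀ + W) p k : ℝ) ^ (-η) else 0)
        + (if wface_hi i h o b (W₀ + W) p k ∈ S then
          (wface_hi i h o b (W₀ + W) p k : ℝ) ^ (-η) else 0))
      ≤ 2 * (d : ℝ) * ∑ _k : Fin d, (m ^ (1 - η) / (1 - η) + m ^ (1 - η) / (1 - η)) := by
        refine mul_le_mul_of_nonneg_left (Finset.sum_le_sum fun k _ => ?_) (by positivity)
        rw [Finset.sum_add_distrib]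
        exact add_le_add
          ((wface_inj_sum (wface_lo_inj i h o b W₀ ρ p k) S hfS).trans hSm)
          ((wface_inj_sum (wface_hi_inj i h o b W₀ ρ p k) S hfS).trans hSm)
    _ = 4 * (d : ℝ) ^ 2 * (m ^ (1 - η) / (1 - η)) := by
        rw [Finset.sum_const, Finset.card_univ, Fintype.card_fin, nsmul_eq_mul]; ring
    _ ≤ (4 * (d : ℝ) ^ 2 + 1) * (m ^ (1 - η) / (1 - η)) :=
        mul_le_mul_of_nonneg_right (by linarith) hmp
    _ = _ := by ring

/-- a pair is separated by at most `‖y - x‖` of the spheres -/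
theorem sep_count {d : ℕ} (o : Zd d) (W₀ ρ : ℕ) (x y : Zd d) :
    ∑ W : Fin ρ, ind (¬ (x ∈ ball o (W₀ + W) ↔ y ∈ ball o (W₀ + W))) ≤ ‖y - x‖ := by
  obtain ⟨n₁, h₁⟩ := exists_norm_eq_nat (x - o)
  obtain ⟨n₂, h₂⟩ := exists_norm_eq_nat (y - o)
  have hg : Function.Injective fun W : Fin ρ => ((W₀ + W : ℕ) : ℤ) := by
    intro W W' hW
    apply Fin.ext
    simp only at hW
    omega
  have hc := wface_count hg (Finset.Ico (min (n₁ : ℤ) n₂) (max (n₁ : ℤ) n₂))
    (Q := fun W : Fin ρ => ¬ (x ∈ ball o (W₀ + W) ↔ y ∈ ball o (W₀ + W))) fun W hW => by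
      rw [mem_ball, mem_ball, h₁, h₂, Nat.cast_le, Nat.cast_le] at hW
      rw [Finset.mem_Ico]
      omega
  refine hc.trans ?_
  have h3 := abs_norm_sub_norm_le (y - o) (x - o)
  rw [h₁, h₂, sub_sub_sub_cancel_right] at h3
  refine le_trans (le_of_eq ?_) h3
  rw [Int.card_Ico]
  have h4 : (((max (n₁ : ℤ) n₂ - min (n₁ : ℤ) n₂).toNat : ℕ) : ℤ) = |(n₂ : ℤ) - n₁| := by
    rcases le_total (n₁ : ℤ) n₂ with hle | hle
    · rw [abs_of_nonneg (by omega)]; omega
    · rw [abs_of_nonpos (by omega)]; omega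
  exact_mod_cast h4

/-- a point lies in the slab for at most `h` radii -/
theorem slab_count {d : ℕ} (i : Fin d) (h : ℕ) (o : Zd d) (b : Bool) (W₀ ρ : ℕ) (x : Zd d) :
    ∑ W : Fin ρ, ind (x ∈ Sl i h o b (W₀ + W)) ≤ h := by
  have hc := wface_count (wface_lo_inj i h o b W₀ ρ x i) (Finset.Icc (1 : ℤ) h)
    (Q := fun W : Fin ρ => x ∈ Sl i h o b (W₀ + W)) fun W hW => by
      have h1 := wface_mem.mp hW i
      have h2 := wface_add i h o b (W₀ + W) x
      rw [Finset.mem_Icc]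
      omega
  refine hc.trans (le_of_eq ?_)
  rw [Int.card_Icc]
  simp

end Pool.Agent.Lib.MP_6fc7d9_pr
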