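import Pool.Agent.Lib.MP_6fc7d9_pr.WGeomA

set_option linter.unusedSectionVars false

namespace Pool.Agent.Lib.MP_6fc7d9_pr
open Finset

section aux
variable {d : ℕ}

open Classical in
/-- base kernel in the original coordinates -/
noncomputable def wgB (w : Sym2 (Zd d) → ℝ) (i : Fin d) (h : ℕ) {N : ℕ} (P : Fin N → ℕ)
    (e : Sym2 (Zd d)) : ℝ :=
  if ∃ m, ∃ x ∈ Sl i h 0 false (P m), x ∈ e then 0
  else (Finset.univ : Finset (Finset (Fin N))).inf' Finset.univ_nonempty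
    fun σ => w (e.map (wgF i h P σ))

open Classical in
/-- extra kernel of the wall `m` in the original coordinates -/
noncomputable def wgE (w : Sym2 (Zd d) → ℝ) (i : Fin d) (h ρ : ℕ) {N : ℕ} (P : Fin N → ℕ)
    (m : Fin N) (b : Prop) (e : Sym2 (Zd d)) : ℝ :=
  if ∀ x ∈ e, WgA ρ m x then w (e.map (wgF i h P (if b then {m} else ∅))) - wgB w i h P e else 0

variable {w : Sym2 (Zd d) → ℝ} {i : Fin d} {N h ρ : ℕ} {P : Fin N → ℕ}

lemma wg_inv (hinv : Inv w) (x y : Zd d) : w s(x, y) = w s(0, y - x) := by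
  have := hinv 0 (y - x) x
  rwa [zero_add, sub_add_cancel] at this

lemma wgB_nonneg (hw : ∀ e, 0 ≤ w e) (e : Sym2 (Zd d)) : 0 ≤ wgB w i h P e := by
  unfold wgB
  split_ifs
  · exact le_rfl
  · exact Finset.le_inf' _ _ fun σ _ => hw _

lemma wgB_le (hw : ∀ e, 0 ≤ w e) (σ : Finset (Fin N)) (e : Sym2 (Zd d)) :
    wgB w i h P e ≤ w (e.map (wgF i h P σ)) := by
  unfold wgB
  split_ifs
  · exact hw _
  · exact Finset.inf'_le _ (Finset.mem_univ σ)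

lemma wgB_slab {m : Fin N} {x : Zd d} (hx : x ∈ Sl i h 0 false (P m)) (y : Zd d) :
    wgB w i h P s(x, y) = 0 := if_pos ⟨m, x, hx, Sym2.mem_mk_left _ _⟩

lemma wgB_free {x y : Zd d} (hx : ∀ m, x ∉ Sl i h 0 false (P m))
    (hy : ∀ m, y ∉ Sl i h 0 false (P m)) :
    ∃ σ, wgB w i h P s(x, y) = w s(wgF i h P σ x, wgF i h P σ y) := by
  unfold wgB
  rw [if_neg]
  · obtain ⟨σ, -, hσ⟩ := Finset.exists_mem_eq_inf' (Finset.univ_nonempty (α := Finset (Fin N)))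
      fun σ => w (Sym2.map (wgF i h P σ) s(x, y))
    exact ⟨σ, by rw [hσ, Sym2.map_mk]⟩
  · rintro ⟨m, z, hz, hz'⟩
    rcases Sym2.mem_iff.mp hz' with rfl | rfl
    exacts [hx m hz, hy m hz]

lemma wgE_ann (hinv : Inv w) (H : WgH N h ρ P) (σ : Finset (Fin N)) {m : Fin N} {x y : Zd d}
    (hx : WgA ρ m x) (hy : WgA ρ m y) :
    wgE w i h ρ P m (m ∈ σ) s(x, y)
      = w s(wgF i h P σ x, wgF i h P σ y) - wgB w i h P s(x, y) := by
  unfold wgE
  rw [if_pos, Sym2.map_mk, wg_inv hinv, wg_inv hinv (wgF i h P σ x), wgF_sub_ann H _ hx hy]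
  · by_cases hm : m ∈ σ <;> simp [hm]
  · intro z hz
    rcases Sym2.mem_iff.mp hz with rfl | rfl
    exacts [hx, hy]

lemma wgE_not {m : Fin N} (b : Prop) {x y : Zd d} (hxy : ¬ (WgA ρ m x ∧ WgA ρ m y)) :
    wgE w i h ρ P m b s(x, y) = 0 :=
  if_neg fun H => hxy ⟨H x (Sym2.mem_mk_left _ _), H y (Sym2.mem_mk_right _ _)⟩

lemma wgE_nonneg (hw : ∀ e, 0 ≤ w e) (m : Fin N) (b : Prop) (e : Sym2 (Zd d)) :
    0 ≤ wgE w i h ρ P m b e := by
  unfold wgE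
  split_ifs
  · exact sub_nonneg.mpr (wgB_le hw _ _)
  · exact sub_nonneg.mpr (wgB_le hw _ _)
  · exact le_rfl

lemma wg_tot_ann (hinv : Inv w) (H : WgH N h ρ P) (σ : Finset (Fin N)) {m : Fin N} {x y : Zd d}
    (hx : WgA ρ m x) (hy : WgA ρ m y) :
    wgB w i h P s(x, y) + ∑ m', wgE w i h ρ P m' (m' ∈ σ) s(x, y)
      = w s(wgF i h P σ x, wgF i h P σ y) := by
  rw [Finset.sum_eq_single m (fun m' _ hm => wgE_not _ fun H' => hm (H'.1.unique H hx))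
    (fun hm => absurd (Finset.mem_univ m) hm), wgE_ann hinv H σ hx hy]
  ring

lemma wg_tot_not (σ : Finset (Fin N)) {x y : Zd d} (hxy : ¬ ∃ m : Fin N, WgA ρ m x ∧ WgA ρ m y) :
    wgB w i h P s(x, y) + ∑ m', wgE w i h ρ P m' (m' ∈ σ) s(x, y) = wgB w i h P s(x, y) := by
  rw [Finset.sum_eq_zero fun m _ => wgE_not _ fun H => hxy ⟨m, H⟩, add_zero]

lemma wg_osc_nonneg (v t : Zd d) : 0 ≤ osc w v t := add_nonneg (abs_nonneg _) (abs_nonneg _)

lemma wg_Xk_nonneg (hw : ∀ e, 0 ≤ w e) (Rb : ℕ) (o : Zd d) (b : Bool) (Q : ℕ) (x y : Zd d) :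
    0 ≤ Xk w i h Rb o b Q x y := by
  unfold Xk
  split_ifs
  exacts [hw _, le_rfl, le_min (hw _) (wg_osc_nonneg _ _), le_rfl]

lemma wg_Dk_nonneg (hw : ∀ e, 0 ≤ w e) (Rb : ℕ) (A : Fin N → Finset (Zd d)) (x y : Zd d) :
    0 ≤ Dk w i h N ρ Rb A x y := by
  unfold Dk
  split_ifs
  · exact add_nonneg (mul_nonneg (Finset.sum_nonneg fun _ _ =>
      add_nonneg (ind_nonneg _) (ind_nonneg _)) (hw _)) (Finset.sum_nonneg fun _ _ => abs_nonneg _)
  · exact le_rfl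

lemma wg_Dk_symm (hinv : Inv w) (Rb : ℕ) (A : Fin N → Finset (Zd d)) (x y : Zd d) :
    Dk w i h N ρ Rb A x y = Dk w i h N ρ Rb A y x := by
  have e1 : ∀ t : Zd d, w s(0, -t) = w s(0, t) := fun t => by
    rw [Sym2.eq_swap, wg_inv hinv, zero_sub, neg_neg]
  unfold Dk
  rw [norm_sub_rev y x, Sym2.eq_swap (a := x)]
  simp only [or_comm (a := x ∈ ball 0 Rb), add_comm (ind (x ∈ A _))]
  congr 2
  refine Finset.sum_bij' (fun k _ => -k) (fun k _ => -k) ?_ ?_ ?_ ?_ ?_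
  · intro k hk; rw [Finset.mem_Icc] at hk ⊢; omega
  · intro k hk; rw [Finset.mem_Icc] at hk ⊢; omega
  · intro k _; exact neg_neg k
  · intro k _; exact neg_neg k
  · intro k _
    rw [← e1 (y - x + k • sv i h), ← e1 (y - x)]
    congr 4
    · simp only [neg_smul]; abel
    · abel

lemma wg_free_ann (H : WgH N h ρ P) {m : Fin N} {x : Zd d} (hx : WgA ρ m x)
    (hs : x ∉ Sl i h 0 false (P m)) (m' : Fin N) : x ∉ Sl i h 0 false (P m') := fun H' => by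
  have := (wg_slab_ann H H').unique H hx
  subst this
  exact hs H'

lemma wg_ball_Rb (H : WgH N h ρ P) {Rb : ℕ} (hRb : 5 * N * ρ ≤ Rb) (σ : Finset (Fin N)) (m : Fin N)
    {x : Zd d} (hx : ‖x‖ ≤ 4 * (ρ : ℝ) * (m : ℕ) + 4 * ρ) : wgF i h P σ x ∈ ball 0 Rb := by
  rw [mem_ball_zero]
  have h1 := (wgF_norm (i := i) H σ x).1
  have h2 : (5 * N * ρ : ℝ) ≤ Rb := by exact_mod_cast hRb
  have := H.f4 m
  have := H.f5
  have := H.f6
  have := H.f7
  have := H.f8 m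
  linarith

lemma wgE_le (hw : ∀ e, 0 ≤ w e) (hinv : Inv w) (H : WgH N h ρ P) {Rb : ℕ} (hRb : 5 * N * ρ ≤ Rb)
    (σ : Finset (Fin N)) (m : Fin N) (x y : Zd d) :
    wgE w i h ρ P m (m ∈ σ) s(x, y) ≤ Xk w i h Rb (cen i h σ m) (decide (m ∈ σ)) (P m)
      (wgF i h P σ x) (wgF i h P σ y) := by
  by_cases hxy : WgA ρ m x ∧ WgA ρ m y
  swap
  · rw [wgE_not _ hxy]; exact wg_Xk_nonneg hw _ _ _ _ _ _
  obtain ⟨hx, hy⟩ := hxy
  rw [wgE_ann hinv H σ hx hy]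
  unfold Xk
  rw [if_pos ⟨wg_ball_Rb H hRb σ m hx.2.le, wg_ball_Rb H hRb σ m hy.2.le⟩]
  have hB := wgB_nonneg (i := i) (h := h) (P := P) hw s(x, y)
  by_cases hs : wgF i h P σ x ∈ Sl i h (cen i h σ m) (decide (m ∈ σ)) (P m) ∨
      wgF i h P σ y ∈ Sl i h (cen i h σ m) (decide (m ∈ σ)) (P m)
  · rw [if_pos hs]; linarith
  rw [if_neg hs]
  have hsx : x ∉ Sl i h 0 false (P m) := fun H' => hs (Or.inl ((wgF_mem_SlS H σ m x).mpr H'))
  have hsy : y ∉ Sl i h 0 false (P m) := fun H' => hs (Or.inr ((wgF_mem_SlS H σ m y).mpr H'))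
  obtain ⟨σ', hσ'⟩ := wgB_free (w := w) (wg_free_ann H hx hsx) (wg_free_ann H hy hsy)
  have hd : ∀ τ : Finset (Fin N), wgF i h P τ y - wgF i h P τ x = y - x +
      (if m ∈ τ then ((if y ∈ ball 0 (P m) then 1 else 0) - if x ∈ ball 0 (P m) then 1 else 0)
        else (0 : ℤ)) • sv i h := by
    intro τ
    unfold wgF
    rw [wg_sum_ann H τ hx, wg_sum_ann H τ hy, wgD_free hsx, wgD_free hsy, ← wg_single]
    by_cases hm : m ∈ τ
    · simp only [hm, if_true, sub_mul, Pi.single_add, Pi.single_sub]; abel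
    · simp only [hm, if_false, zero_mul, Pi.single_add, Pi.single_zero]; abel
  simp only [wgF_mem_ball H σ hx hsx, wgF_mem_ball H σ hy hsy]
  by_cases hb : x ∈ ball 0 (P m) ↔ y ∈ ball 0 (P m)
  · rw [if_pos hb, hσ', wg_inv hinv, wg_inv hinv (wgF i h P σ' x), hd, hd]
    simp [hb]
  rw [if_neg hb]
  refine le_min (by linarith) ?_
  rw [hσ', wg_inv hinv, wg_inv hinv (wgF i h P σ' x)]
  have hk : wgF i h P σ' y - wgF i h P σ' x = wgF i h P σ y - wgF i h P σ x ∨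
      wgF i h P σ' y - wgF i h P σ' x = wgF i h P σ y - wgF i h P σ x + sv i h ∨
      wgF i h P σ' y - wgF i h P σ' x = wgF i h P σ y - wgF i h P σ x - sv i h := by
    rw [hd, hd]
    split_ifs <;> simp [sub_eq_add_neg]
  unfold osc
  have a1 := abs_nonneg (w s(0, wgF i h P σ y - wgF i h P σ x + sv i h)
    - w s(0, wgF i h P σ y - wgF i h P σ x))
  have a2 := abs_nonneg (w s(0, wgF i h P σ y - wgF i h P σ x - sv i h)
    - w s(0, wgF i h P σ y - wgF i h P σ x))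
  have a3 := neg_abs_le (w s(0, wgF i h P σ y - wgF i h P σ x + sv i h)
    - w s(0, wgF i h P σ y - wgF i h P σ x))
  have a4 := neg_abs_le (w s(0, wgF i h P σ y - wgF i h P σ x - sv i h)
    - w s(0, wgF i h P σ y - wgF i h P σ x))
  rcases hk with hk | hk | hk <;> rw [hk] <;> linarith

lemma wg_far (H : WgH N h ρ P) {x y : Zd d} (hxy : ¬ ∃ m : Fin N, WgA ρ m x ∧ WgA ρ m y)
    {m : Fin N} (hx : x ∈ Sl i h 0 false (P m)) : ‖x‖ + ρ ≤ ‖y‖ ∨ ‖y‖ + ρ ≤ ‖x‖ := by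
  have h1 := wg_slab_norm H hx
  have h2 : ¬ WgA ρ m y := fun H' => hxy ⟨m, wg_slab_ann H hx, H'⟩
  unfold WgA at h2
  by_cases h3 : 4 * (ρ : ℝ) * (m : ℕ) ≤ ‖y‖
  · have := not_lt.mp fun H' => h2 ⟨h3, H'⟩
    left; linarith [h1.2]
  · right; linarith [h1.1, not_le.mp h3]

lemma wg_err_slab (hw : ∀ e, 0 ≤ w e) (H : WgH N h ρ P) {Rb : ℕ} (hRb : 5 * N * ρ ≤ Rb)
    (σ : Finset (Fin N)) {x y : Zd d} (hxy : ¬ ∃ m : Fin N, WgA ρ m x ∧ WgA ρ m y)
    {m : Fin N} (hx : x ∈ Sl i h 0 false (P m)) :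
    w s(wgF i h P σ x, wgF i h P σ y)
      ≤ Dk w i h N ρ Rb (SlS i h P σ) (wgF i h P σ x) (wgF i h P σ y) := by
  unfold Dk
  rw [if_pos]
  · have h1 : (1 : ℝ) ≤ ∑ m, (ind (wgF i h P σ x ∈ SlS i h P σ m)
        + ind (wgF i h P σ y ∈ SlS i h P σ m)) := by
      refine le_trans ?_ (Finset.single_le_sum
        (fun _ _ => add_nonneg (ind_nonneg _) (ind_nonneg _)) (Finset.mem_univ m))
      rw [ind_pos ((wgF_mem_SlS H σ m x).mpr hx)]
      exact le_add_of_nonneg_right (ind_nonneg _)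
    exact le_add_of_le_of_nonneg (le_mul_of_one_le_left (hw _) h1)
      (Finset.sum_nonneg fun _ _ => abs_nonneg _)
  · refine ⟨Or.inl (wg_ball_Rb H hRb σ m (wg_slab_ann H hx).2.le), ?_⟩
    rcases wg_far H hxy hx with h1 | h1
    · exact wgF_dist H σ h1
    · rw [norm_sub_rev]; exact wgF_dist H σ h1

lemma wg_err_free (hw : ∀ e, 0 ≤ w e) (hinv : Inv w) (H : WgH N h ρ P) {Rb : ℕ}
    (hRb : 5 * N * ρ ≤ Rb) (σ σ' : Finset (Fin N)) {x y : Zd d}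
    (hxy : ¬ ∃ m : Fin N, WgA ρ m x ∧ WgA ρ m y) (hx : ∀ m, x ∉ Sl i h 0 false (P m))
    (hy : ∀ m, y ∉ Sl i h 0 false (P m)) (hle : ‖x‖ ≤ ‖y‖) :
    w s(wgF i h P σ x, wgF i h P σ y) - w s(wgF i h P σ' x, wgF i h P σ' y)
      ≤ Dk w i h N ρ Rb (SlS i h P σ) (wgF i h P σ x) (wgF i h P σ y) := by
  have hk : wgF i h P σ' y - wgF i h P σ' x = wgF i h P σ y - wgF i h P σ x
      + ((wgN P σ x - wgN P σ y) - (wgN P σ' x - wgN P σ' y)) • sv i h := by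
    rw [wgF_free σ hx, wgF_free σ hy, wgF_free σ' hx, wgF_free σ' hy]
    simp only [sub_smul]; abel
  by_cases hsep : ∃ m, x ∈ ball 0 (P m) ∧ y ∉ ball 0 (P m)
  · obtain ⟨m, h1, h2⟩ := hsep
    have h3 := mem_ball_zero.mp h1
    have h4 : (P m : ℝ) < ‖y‖ := not_le.mp fun H' => h2 (mem_ball_zero.mpr H')
    have f1 := H.f1 m
    have f2 := H.f2 m
    have f0 : (0 : ℝ) ≤ ρ := Nat.cast_nonneg _
    have h5 : ‖x‖ + ρ ≤ ‖y‖ := by
      by_contra h6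
      exact hxy ⟨m, ⟨by linarith, by linarith⟩, ⟨by linarith, by linarith⟩⟩
    unfold Dk
    rw [if_pos ⟨Or.inl (wg_ball_Rb H hRb σ m (by linarith)), wgF_dist H σ h5⟩]
    refine le_add_of_nonneg_of_le (mul_nonneg (Finset.sum_nonneg fun _ _ =>
      add_nonneg (ind_nonneg _) (ind_nonneg _)) (hw _)) ?_
    have b1 := wgN_bounds (P := P) σ hle
    have b2 := wgN_bounds (P := P) σ' hle
    refine le_trans ?_ (Finset.single_le_sum (f := fun k : ℤ =>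
      |w s(0, wgF i h P σ y - wgF i h P σ x + k • sv i h) - w s(0, wgF i h P σ y - wgF i h P σ x)|)
      (fun _ _ => abs_nonneg _)
      (a := (wgN P σ x - wgN P σ y) - (wgN P σ' x - wgN P σ' y))
      (Finset.mem_Icc.mpr ⟨by omega, by omega⟩))
    rw [wg_inv hinv, wg_inv hinv (wgF i h P σ' x), hk, abs_sub_comm]
    exact le_abs_self _
  · have h0 : ∀ τ, wgN P τ x = wgN P τ y := fun τ => Finset.sum_congr rfl fun m _ => by
      by_cases h1 : y ∈ ball 0 (P m)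
      · rw [if_pos h1, if_pos (mem_ball_zero.mpr (hle.trans (mem_ball_zero.mp h1)))]
      · rw [if_neg h1, if_neg fun h2 => hsep ⟨m, h2, h1⟩]
    rw [wg_inv hinv, wg_inv hinv (wgF i h P σ' x), hk, h0, h0]
    simpa using wg_Dk_nonneg hw _ _ _ _

lemma wg_err (hw : ∀ e, 0 ≤ w e) (hinv : Inv w) (H : WgH N h ρ P) {Rb : ℕ}
    (hRb : 5 * N * ρ ≤ Rb) (σ : Finset (Fin N)) (x y : Zd d) :
    w s(wgF i h P σ x, wgF i h P σ y)
        - (wgB w i h P s(x, y) + ∑ m', wgE w i h ρ P m' (m' ∈ σ) s(x, y))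
      ≤ Dk w i h N ρ Rb (SlS i h P σ) (wgF i h P σ x) (wgF i h P σ y) := by
  by_cases hxy : ∃ m : Fin N, WgA ρ m x ∧ WgA ρ m y
  · obtain ⟨m, hx, hy⟩ := hxy
    rw [wg_tot_ann hinv H σ hx hy, sub_self]
    exact wg_Dk_nonneg hw _ _ _ _
  rw [wg_tot_not σ hxy]
  have hyx : ¬ ∃ m : Fin N, WgA ρ m y ∧ WgA ρ m x := fun ⟨m, h1, h2⟩ => hxy ⟨m, h2, h1⟩
  have hB := wgB_nonneg (i := i) (h := h) (P := P) hw s(x, y)
  by_cases hx : ∃ m, x ∈ Sl i h 0 false (P m)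
  · obtain ⟨m, hm⟩ := hx
    linarith [wg_err_slab hw H hRb σ hxy hm]
  by_cases hy : ∃ m, y ∈ Sl i h 0 false (P m)
  · obtain ⟨m, hm⟩ := hy
    have := wg_err_slab hw H hRb σ hyx hm
    rw [wg_Dk_symm hinv, Sym2.eq_swap] at this
    linarith
  push Not at hx hy
  obtain ⟨σ', hσ'⟩ := wgB_free (w := w) hx hy
  rw [hσ']
  rcases le_total ‖x‖ ‖y‖ with hle | hle
  · exact wg_err_free hw hinv H hRb σ σ' hxy hx hy hle
  · have := wg_err_free hw hinv H hRb σ σ' hyx hy hx hle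
    rwa [wg_Dk_symm hinv, Sym2.eq_swap, Sym2.eq_swap (a := wgF i h P σ' y)] at this

lemma wg_toggle {m₀ : Fin N} (g : Finset (Fin N) → ℝ) (hg : ∀ σ, m₀ ∉ σ → g (insert m₀ σ) = g σ) :
    ∑ σ : Finset (Fin N), (-1 : ℝ) ^ σ.card * g σ = 0 := by
  have h1 : (Finset.univ : Finset (Finset (Fin N)))
      = (insert m₀ (Finset.univ.erase m₀)).powerset := by
    rw [Finset.insert_erase (Finset.mem_univ _), Finset.powerset_univ]
  rw [h1, Finset.sum_powerset_insert (Finset.notMem_erase _ _), ← Finset.sum_add_distrib]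
  refine Finset.sum_eq_zero fun σ hσ => ?_
  have h2 : m₀ ∉ σ := fun H => Finset.notMem_erase _ _ (Finset.mem_powerset.mp hσ H)
  rw [Finset.card_insert_of_notMem h2, hg σ h2]
  ring

end aux

theorem geom_exists {d : ℕ} {w : Sym2 (Zd d) → ℝ} (hw : ∀ e, 0 ≤ w e) (hinv : Inv w)
    (i : Fin d) {N h ρ M Rb : ℕ} (hh : 1 ≤ h) (hρ : (4 * N + 4) * h ≤ ρ) (hM : 4 * N * ρ ≤ M)
    (hRb : 5 * N * ρ ≤ Rb) (P : Fin N → ℕ)
    (hP : ∀ m : Fin N, 4 * ρ * m + ρ ≤ P m ∧ P m < 4 * ρ * m + 2 * ρ) :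
    ∃ (base : Finset (Fin N) → Sym2 (Zd d) → ℝ)
      (ext : Finset (Fin N) → Fin N → Sym2 (Zd d) → ℝ),
      (∀ σ, Lay w (base σ) (ext σ) (SlS i h P σ)) ∧
      (∀ σ m x y, ext σ m s(x, y) ≤ Xk w i h Rb (cen i h σ m) (decide (m ∈ σ)) (P m) x y) ∧
      (∀ σ x y, w s(x, y) - (base σ + ∑ m, ext σ m) s(x, y)
        ≤ Dk w i h N ρ Rb (SlS i h P σ) x y) ∧
      (∀ σ m, σ.card • sv i h ∉ SlS i h P σ m) ∧
      (∀ σ m z, ((4 * N * ρ : ℕ) : ℝ) ≤ ‖z‖ → z ∉ SlS i h P σ m) ∧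
      ∀ z, ((4 * N * ρ : ℕ) : ℝ) ≤ ‖z‖ → ∀ S : Finset (Fin N), S ≠ Finset.univ →
        ∑ σ : Finset (Fin N), (-1 : ℝ) ^ σ.card *
          tau (base σ + ∑ m ∈ S, ext σ m) (ball 0 M) (σ.card • sv i h) z = 0 := by
  have H : WgH N h ρ P := ⟨hh, hρ, hP⟩
  let π : Finset (Fin N) → Zd d ≃ Zd d := fun σ => Equiv.ofBijective _ (wgF_bij (i := i) H σ)
  have hπ : ∀ σ x, (π σ).symm (wgF i h P σ x) = x := fun σ x => (π σ).symm_apply_apply x
  have hsur : ∀ σ x, ∃ x₀, wgF i h P σ x₀ = x := fun σ => (wgF_bij (i := i) H σ).2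
  have hfar : ∀ σ (z : Zd d), ((4 * N * ρ : ℕ) : ℝ) ≤ ‖z‖ → wgF i h P σ z = z := fun σ z hz =>
    wgF_far H σ (by push_cast at hz; linarith)
  refine ⟨fun σ e => wgB w i h P (e.map (π σ).symm),
    fun σ m e => wgE w i h ρ P m (m ∈ σ) (e.map (π σ).symm), fun σ => ⟨?_, ?_, ?_, ?_, ?_⟩,
    ?_, ?_, ?_, ?_, ?_⟩
  · exact fun e => wgB_nonneg hw _
  · exact fun m e => wgE_nonneg hw _ _ _
  · intro e
    induction e using Sym2.ind with
    | h x y =>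
      obtain ⟨x, rfl⟩ := hsur σ x
      obtain ⟨y, rfl⟩ := hsur σ y
      simp only [Sym2.map_mk, hπ]
      by_cases hxy : ∃ m : Fin N, WgA ρ m x ∧ WgA ρ m y
      · obtain ⟨m, hx, hy⟩ := hxy
        exact (wg_tot_ann hinv H σ hx hy).le
      · rw [wg_tot_not σ hxy]
        simpa using wgB_le hw σ s(x, y)
  · intro m x hx y
    obtain ⟨x, rfl⟩ := hsur σ x
    simp only [Sym2.map_mk, hπ]
    exact wgB_slab ((wgF_mem_SlS H σ m x).mp hx) _
  · intro m m' hm x hx y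
    obtain ⟨x, rfl⟩ := hsur σ x
    simp only [Sym2.map_mk, hπ]
    exact wgE_not _ fun H' =>
      hm (H'.1.unique H (wg_slab_ann H ((wgF_mem_SlS H σ m' x).mp hx)))
  · intro σ m x y
    obtain ⟨x, rfl⟩ := hsur σ x
    obtain ⟨y, rfl⟩ := hsur σ y
    simp only [Sym2.map_mk, hπ]
    exact wgE_le hw hinv H hRb σ m x y
  · intro σ x y
    obtain ⟨x, rfl⟩ := hsur σ x
    obtain ⟨y, rfl⟩ := hsur σ y
    simp only [Pi.add_apply, Finset.sum_apply, Sym2.map_mk, hπ]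
    exact wg_err hw hinv H hRb σ x y
  · intro σ m hm
    rw [← wgF_zero (P := P), wgF_mem_SlS H] at hm
    have := (wg_norm_Sl hm).1
    simp only [sub_zero, norm_zero] at this
    linarith [Nat.cast_nonneg (α := ℝ) (P m)]
  · intro σ m z hz hm
    rw [← hfar σ z hz, wgF_mem_SlS H] at hm
    have h1 := (wg_slab_ann H hm).2
    have h2 := H.f4 m
    push_cast at hz
    linarith
  · intro z hz S hS
    obtain ⟨m₀, hm₀⟩ : ∃ m₀, m₀ ∉ S := by
      by_contra hc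
      push Not at hc
      exact hS (Finset.eq_univ_of_forall hc)
    have key : ∀ σ : Finset (Fin N),
        tau ((fun e => wgB w i h P (e.map (π σ).symm))
          + ∑ m ∈ S, fun e => wgE w i h ρ P m (m ∈ σ) (e.map (π σ).symm)) (ball 0 M)
          (σ.card • sv i h) z
        = tau (wgB w i h P + ∑ m ∈ S, wgE w i h ρ P m (m ∈ σ)) (ball 0 M) 0 z := by
      intro σ
      let ι : Zd d ↪ Zd d := ⟨wgF i h P σ, wgF_inj H σ⟩
      have hb : (ball (0 : Zd d) M).map ι = ball 0 M := by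
        refine Finset.coe_injective ?_
        rw [Finset.coe_map]
        exact (wgF_bijOn H σ hM).image_eq
      have h1 := EK_map ι (wgB w i h P + ∑ m ∈ S, wgE w i h ρ P m (m ∈ σ))
        ((fun e => wgB w i h P (e.map (π σ).symm))
          + ∑ m ∈ S, fun e => wgE w i h ρ P m (m ∈ σ) (e.map (π σ).symm)) (ball 0 M) {0}
        (fun u _ v _ => by
          simp only [Pi.add_apply, Finset.sum_apply, Sym2.map_mk, ι,
            Function.Embedding.coeFn_mk, hπ])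
        (fun K => ind (z ∈ K))
      rw [hb, Finset.map_singleton] at h1
      have h2 : ι 0 = σ.card • sv i h := wgF_zero σ
      have h3 : ι z = z := hfar σ z hz
      unfold tau
      rw [← h2, h1]
      refine EK_congr fun K _ => ind_congr ?_
      conv_lhs => rw [← h3]
      exact Finset.mem_map' ι
    simp only [key]
    refine wg_toggle (m₀ := m₀) _ fun σ _ => ?_
    congr 2
    refine Finset.sum_congr rfl fun m hm => ?_
    congr 1
    have : m ≠ m₀ := fun H' => hm₀ (H' ▸ hm)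
    simp [this]

end Pool.Agent.Lib.MP_6fc7d9_pr
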