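import Pool.Agent.Lib.MP_6fc7d9_pr.WDefs

/-!
The permutations of the lattice attached to nested walls.
-/

set_option linter.unusedSectionVars false

namespace Pool.Agent.Lib.MP_6fc7d9_pr
open Finset

variable {d : ℕ}

lemma wg_mem_Sl {i : Fin d} {h : ℕ} {o : Zd d} {b : Bool} {P : ℕ} {x : Zd d} :
    x ∈ Sl i h o b P ↔ (∀ k, k ≠ i → o k - P ≤ x k ∧ x k ≤ o k + P) ∧
      (if b then o i - P - h ≤ x i ∧ x i ≤ o i - P - 1
        else o i + P + 1 ≤ x i ∧ x i ≤ o i + P + h) := by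
  simp only [Sl, Fintype.mem_piFinset, Finset.mem_Icc]
  constructor
  · intro H
    refine ⟨fun k hk => ?_, ?_⟩
    · simpa [slo, shi, hk] using H k
    · have := H i
      cases b <;> simpa [slo, shi] using this
  · rintro ⟨H1, H2⟩ k
    by_cases hk : k = i
    · subst hk
      cases b <;> simpa [slo, shi] using H2
    · simpa [slo, shi, hk] using H1 k hk

lemma wg_mem_ball {i : Fin d} {o : Zd d} {P : ℕ} {x : Zd d} :
    x ∈ ball o P ↔ (∀ k, k ≠ i → o k - P ≤ x k ∧ x k ≤ o k + P) ∧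
      (o i - P ≤ x i ∧ x i ≤ o i + P) := by
  rw [mem_ball_coord]
  constructor
  · intro H; exact ⟨fun k _ => H k, H i⟩
  · rintro ⟨H1, H2⟩ k
    by_cases hk : k = i
    · subst hk; exact H2
    · exact H1 k hk

lemma wg_norm_Sl {i : Fin d} {h : ℕ} {o : Zd d} {b : Bool} {P : ℕ} {x : Zd d}
    (hx : x ∈ Sl i h o b P) : (P : ℝ) + 1 ≤ ‖x - o‖ ∧ ‖x - o‖ ≤ (P : ℝ) + h := by
  obtain ⟨H1, H2⟩ := wg_mem_Sl.mp hx
  constructor
  · refine le_trans ?_ (abs_le_norm (x - o) i)
    have : (P : ℤ) + 1 ≤ |(x - o) i| := by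
      rw [Pi.sub_apply]
      cases b
      · simp only [Bool.false_eq_true, if_false] at H2
        exact le_abs.mpr (Or.inl (by omega))
      · simp only [if_true] at H2
        exact le_abs.mpr (Or.inr (by omega))
    exact_mod_cast this
  · have : x ∈ ball o (P + h) := by
      rw [wg_mem_ball (i := i)]
      refine ⟨fun k hk => ?_, ?_⟩
      · have := H1 k hk
        push_cast; omega
      · cases b
        · simp only [Bool.false_eq_true, if_false] at H2
          push_cast; omega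
        · simp only [if_true] at H2
          push_cast; omega
    simpa using mem_ball.mp this

/-- displacement produced by one wall -/
noncomputable def wgD (i : Fin d) (h P : ℕ) (x : Zd d) : ℤ :=
  if x ∈ ball 0 P then h else if x ∈ Sl i h 0 false P then -(2 * P + 1) else 0

lemma wgD_in {i : Fin d} {h P : ℕ} {x : Zd d} (hx : ‖x‖ ≤ P) : wgD i h P x = h :=
  if_pos (mem_ball_zero.mpr hx)

lemma wgD_out {i : Fin d} {h P : ℕ} {x : Zd d} (hx : (P : ℝ) + h < ‖x‖) : wgD i h P x = 0 := by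
  unfold wgD
  rw [if_neg, if_neg]
  · intro H
    have := (wg_norm_Sl H).2
    rw [sub_zero] at this
    linarith
  · intro H
    have := mem_ball_zero.mp H
    linarith [Nat.cast_nonneg (α := ℝ) h]

lemma wgD_slab {i : Fin d} {h P : ℕ} {x : Zd d} (hx : x ∈ Sl i h 0 false P) :
    wgD i h P x = -(2 * P + 1) := by
  unfold wgD
  rw [if_neg, if_pos hx]
  intro H
  have h1 := (wg_norm_Sl hx).1
  have h2 := mem_ball_zero.mp H
  rw [sub_zero] at h1
  linarith

lemma wgD_free {i : Fin d} {h P : ℕ} {x : Zd d} (hx : x ∉ Sl i h 0 false P) :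
    wgD i h P x = (if x ∈ ball 0 P then 1 else 0) * h := by
  unfold wgD
  rw [if_neg hx]
  split_ifs <;> simp

lemma wg_step_inj (i : Fin d) (h P : ℕ) :
    Function.Injective fun x : Zd d => x + Pi.single i (wgD i h P x) := by
  intro x y hxy
  have hk : ∀ k, k ≠ i → x k = y k := fun k hk => by
    simpa [Pi.single_eq_of_ne hk] using congrFun hxy k
  have hi : x i + wgD i h P x = y i + wgD i h P y := by simpa using congrFun hxy i
  have hT : (∀ k, k ≠ i → (0 : Zd d) k - P ≤ x k ∧ x k ≤ (0 : Zd d) k + P) ↔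
      (∀ k, k ≠ i → (0 : Zd d) k - P ≤ y k ∧ y k ≤ (0 : Zd d) k + P) :=
    forall_congr' fun k => imp_congr_right fun h => by rw [hk k h]
  have : x i = y i := by
    unfold wgD at hi
    simp only [wg_mem_ball (i := i), wg_mem_Sl, Bool.false_eq_true, if_false] at hi
    by_cases hx : ∀ k, k ≠ i → (0 : Zd d) k - P ≤ x k ∧ x k ≤ (0 : Zd d) k + P
    · have hy := hT.mp hx
      simp only [and_iff_right hx, and_iff_right hy] at hi
      simp only [Pi.zero_apply] at hi
      split_ifs at hi <;> omega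
    · have hy : ¬ _ := fun H => hx (hT.mpr H)
      rw [if_neg fun H => hx H.1, if_neg fun H => hx H.1, if_neg fun H => hy H.1,
        if_neg fun H => hy H.1] at hi
      omega
  funext k
  by_cases h : k = i
  · rw [h, this]
  · exact hk k h

lemma wg_keep {X : Type*} {f : X → X} (hf : Function.Injective f) {B : X → Prop}
    (h : ∀ x, ¬ B x → f x = x) {x : X} (hx : B x) : B (f x) := by
  by_contra H
  exact H (by rw [hf (h _ H)]; exact hx)

/-- numerical hypotheses on the walls -/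
structure WgH (N h ρ : ℕ) (P : Fin N → ℕ) : Prop where
  hh : 1 ≤ h
  hρ : (4 * N + 4) * h ≤ ρ
  hP : ∀ m : Fin N, 4 * ρ * m + ρ ≤ P m ∧ P m < 4 * ρ * m + 2 * ρ

namespace WgH
variable {N h ρ : ℕ} {P : Fin N → ℕ} (H : WgH N h ρ P)
include H

lemma f1 (m : Fin N) : 4 * (ρ : ℝ) * (m : ℕ) + ρ ≤ P m := by exact_mod_cast (H.hP m).1

lemma f2 (m : Fin N) : (P m : ℝ) + 1 ≤ 4 * (ρ : ℝ) * (m : ℕ) + 2 * ρ := by
  exact_mod_cast (H.hP m).2

lemma f3 {m m' : Fin N} (hm : m < m') :
    4 * (ρ : ℝ) * (m : ℕ) + 4 * ρ ≤ 4 * (ρ : ℝ) * (m' : ℕ) := by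
  have h1 : ((m : ℕ) : ℝ) + 1 ≤ (m' : ℕ) := by exact_mod_cast hm
  nlinarith [Nat.cast_nonneg (α := ℝ) ρ]

lemma f4 (m : Fin N) : 4 * (ρ : ℝ) * (m : ℕ) + 4 * ρ ≤ 4 * (N * ρ : ℝ) := by
  have h1 : ((m : ℕ) : ℝ) + 1 ≤ N := by exact_mod_cast m.2
  nlinarith [Nat.cast_nonneg (α := ℝ) ρ]

lemma f5 : 4 * ((N : ℝ) * h) + 4 * h ≤ ρ := by
  have : ((4 * N + 4) * h : ℝ) ≤ ρ := by exact_mod_cast H.hρ
  linarith

lemma f6 : (1 : ℝ) ≤ h := by exact_mod_cast H.hh

lemma f7 : (0 : ℝ) ≤ (N : ℝ) * h := by positivity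

lemma f8 (m : Fin N) : (ρ : ℝ) ≤ N * ρ := by
  have h1 : (1 : ℝ) ≤ N := by exact_mod_cast (Nat.succ_le_of_lt (Nat.zero_lt_of_lt m.2))
  nlinarith [Nat.cast_nonneg (α := ℝ) ρ]

end WgH

/-- the map attached to the state `σ` -/
noncomputable def wgF (i : Fin d) (h : ℕ) {N : ℕ} (P : Fin N → ℕ) (σ : Finset (Fin N))
    (x : Zd d) : Zd d :=
  x + Pi.single i (∑ m ∈ σ, wgD i h (P m) x)

variable {i : Fin d} {N h ρ : ℕ} {P : Fin N → ℕ}

lemma wgF_fix {σ : Finset (Fin N)} {x : Zd d} (hx : ∀ m ∈ σ, (P m : ℝ) + h < ‖x‖) :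
    wgF i h P σ x = x := by
  unfold wgF
  rw [Finset.sum_eq_zero fun m hm => wgD_out (hx m hm)]
  simp

lemma wgF_inj (H : WgH N h ρ P) (σ : Finset (Fin N)) : Function.Injective (wgF i h P σ) := by
  induction σ using Finset.induction_on_max with
  | empty => intro x y hxy; simpa [wgF] using hxy
  | insert a s ha ih =>
    have hfix : ∀ x : Zd d, ¬ ‖x‖ < 4 * (ρ : ℝ) * (a : ℕ) → wgF i h P s x = x := by
      intro x hx
      refine wgF_fix fun m hm => ?_
      have := H.f3 (ha m hm)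
      have := H.f2 m
      have := H.f5
      have := H.f6
      have := H.f7
      linarith [not_lt.mp hx]
    have key : wgF i h P (insert a s)
        = (fun x : Zd d => x + Pi.single i (wgD i h (P a) x)) ∘ wgF i h P s := by
      funext x
      have hD : wgD i h (P a) (wgF i h P s x) = wgD i h (P a) x := by
        by_cases hx : ‖x‖ < 4 * (ρ : ℝ) * (a : ℕ)
        · have h1 := wg_keep ih (B := fun x : Zd d => ‖x‖ < 4 * (ρ : ℝ) * (a : ℕ)) hfix hx
          have h2 := H.f1 a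
          have h3 : (0 : ℝ) ≤ ρ := Nat.cast_nonneg _
          rw [wgD_in (by linarith), wgD_in (by linarith)]
        · rw [hfix x hx]
      simp only [Function.comp_apply, hD]
      unfold wgF
      rw [Finset.sum_insert fun hm => lt_irrefl _ (ha a hm), Pi.single_add]
      abel
    rw [key]
    exact (wg_step_inj i h (P a)).comp ih

lemma wgF_far (H : WgH N h ρ P) (σ : Finset (Fin N)) {x : Zd d} (hx : 4 * (N * ρ : ℝ) ≤ ‖x‖ + 1) :
    wgF i h P σ x = x := by
  refine wgF_fix fun m _ => ?_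
  have := H.f4 m
  have := H.f2 m
  have := H.f5
  have := H.f6
  have := H.f7
  linarith

lemma wgF_bijOn (H : WgH N h ρ P) (σ : Finset (Fin N)) {M : ℕ} (hM : 4 * N * ρ ≤ M) :
    Set.BijOn (wgF i h P σ) (ball (0 : Zd d) M : Set (Zd d)) (ball (0 : Zd d) M : Set (Zd d)) := by
  refine ((ball (0 : Zd d) M).finite_toSet.injOn_iff_bijOn_of_mapsTo ?_).mp
    (wgF_inj H σ).injOn
  intro x hx
  refine wg_keep (wgF_inj H σ) (B := fun x => x ∈ ball (0 : Zd d) M) (fun y hy => ?_) hx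
  refine wgF_far H σ ?_
  have h1 : (M : ℝ) < ‖y‖ := not_le.mp fun h => hy (mem_ball_zero.mpr h)
  have h2 : (4 * N * ρ : ℝ) ≤ M := by exact_mod_cast hM
  linarith

lemma wgF_bij (H : WgH N h ρ P) (σ : Finset (Fin N)) : Function.Bijective (wgF i h P σ) := by
  refine ⟨wgF_inj H σ, fun y => ?_⟩
  by_cases hy : y ∈ ball (0 : Zd d) (4 * N * ρ)
  · obtain ⟨x, -, hx⟩ := (wgF_bijOn (i := i) H σ le_rfl).surjOn hy
    exact ⟨x, hx⟩
  · refine ⟨y, wgF_far H σ ?_⟩
    have h1 : ((4 * N * ρ : ℕ) : ℝ) < ‖y‖ := not_le.mp fun h => hy (mem_ball_zero.mpr h)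
    push_cast at h1
    linarith

lemma wg_single (c : ℤ) : (Pi.single i (c * h) : Zd d) = c • sv i h := by
  rw [sv, ← Pi.single_smul, smul_eq_mul]

lemma wg_single_nat (c : ℕ) : (Pi.single i ((c : ℤ) * h) : Zd d) = c • sv i h := by
  rw [wg_single, natCast_zsmul]

lemma wgF_zero (σ : Finset (Fin N)) : wgF i h P σ 0 = σ.card • sv i h := by
  unfold wgF
  rw [Finset.sum_congr rfl fun m _ => wgD_in (by simp), zero_add, Finset.sum_const,
    nsmul_eq_mul, wg_single_nat]

/-- the annulus of the wall `m` -/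
def WgA (ρ : ℕ) {N : ℕ} (m : Fin N) (x : Zd d) : Prop :=
  4 * (ρ : ℝ) * (m : ℕ) ≤ ‖x‖ ∧ ‖x‖ < 4 * (ρ : ℝ) * (m : ℕ) + 4 * ρ

lemma WgA.unique (H : WgH N h ρ P) {m m' : Fin N} {x : Zd d} (h1 : WgA ρ m x) (h2 : WgA ρ m' x) :
    m = m' := by
  rcases lt_trichotomy m m' with hm | hm | hm
  · linarith [H.f3 hm, h1.2, h2.1]
  · exact hm
  · linarith [H.f3 hm, h2.2, h1.1]

lemma wg_slab_norm (H : WgH N h ρ P) {m : Fin N} {x : Zd d} (hx : x ∈ Sl i h 0 false (P m)) :
    4 * (ρ : ℝ) * (m : ℕ) + ρ ≤ ‖x‖ ∧ ‖x‖ ≤ 4 * (ρ : ℝ) * (m : ℕ) + 3 * ρ := by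
  have h1 := wg_norm_Sl hx
  rw [sub_zero] at h1
  have := H.f1 m
  have := H.f2 m
  have := H.f5
  have := H.f6
  have := H.f7
  constructor <;> linarith [h1.1, h1.2]

lemma wg_slab_ann (H : WgH N h ρ P) {m : Fin N} {x : Zd d} (hx : x ∈ Sl i h 0 false (P m)) :
    WgA ρ m x := by
  have h1 := wg_slab_norm H hx
  have := H.f5
  have := H.f6
  have := H.f7
  constructor <;> linarith [h1.1, h1.2]

lemma wgD_other (H : WgH N h ρ P) {m m' : Fin N} {x : Zd d} (hx : WgA ρ m x) (hm : m' ≠ m) :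
    wgD i h (P m') x = if m < m' then (h : ℤ) else 0 := by
  have := H.f1 m'
  have := H.f2 m'
  have := H.f5
  have := H.f6
  have := H.f7
  split_ifs with h1
  · exact wgD_in (by linarith [H.f3 h1, hx.2])
  · exact wgD_out (by linarith [H.f3 (lt_of_le_of_ne (not_lt.mp h1) hm), hx.1])

lemma wg_sum_ann (H : WgH N h ρ P) (σ : Finset (Fin N)) {m : Fin N} {x : Zd d} (hx : WgA ρ m x) :
    ∑ m' ∈ σ, wgD i h (P m') x
      = ((σ.filter fun m' => m < m').card : ℤ) * h + if m ∈ σ then wgD i h (P m) x else 0 := by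
  have : ∀ m' ∈ σ, wgD i h (P m') x
      = (if m < m' then (h : ℤ) else 0) + if m = m' then wgD i h (P m) x else 0 := by
    intro m' _
    by_cases hm : m = m'
    · subst hm; simp
    · rw [wgD_other H hx (Ne.symm hm), if_neg hm, add_zero]
  rw [Finset.sum_congr rfl this, Finset.sum_add_distrib, Finset.sum_ite_eq, ← Finset.sum_filter,
    Finset.sum_const, nsmul_eq_mul]

lemma wg_cen (σ : Finset (Fin N)) (m : Fin N) :
    cen i h σ m = Pi.single i (((σ.filter fun m' => m < m').card : ℤ) * h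
      + if m ∈ σ then (h : ℤ) else 0) := by
  unfold cen
  rw [← wg_single_nat]
  congr 1
  by_cases hm : m ∈ σ
  · have : (σ.filter fun m' => m ≤ m') = insert m (σ.filter fun m' => m < m') := by
      ext a
      simp only [Finset.mem_filter, Finset.mem_insert]
      constructor
      · rintro ⟨h1, h2⟩
        rcases h2.eq_or_lt with h | h
        exacts [Or.inl h.symm, Or.inr ⟨h1, h⟩]
      · rintro (rfl | ⟨h1, h2⟩)
        exacts [⟨hm, le_rfl⟩, ⟨h1, h2.le⟩]
    rw [this, Finset.card_insert_of_notMem (by simp), if_pos hm]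
    push_cast; ring
  · have : (σ.filter fun m' => m ≤ m') = (σ.filter fun m' => m < m') :=
      Finset.filter_congr fun a ha => ⟨fun h1 => lt_of_le_of_ne h1 fun h2 => hm (h2 ▸ ha), le_of_lt⟩
    rw [this, if_neg hm, add_zero]

lemma wg_norm_cen (σ : Finset (Fin N)) (m : Fin N) : ‖cen i h σ m‖ ≤ (N : ℝ) * h := by
  unfold cen
  refine norm_nsmul_le.trans ?_
  rw [norm_sv]
  refine mul_le_mul_of_nonneg_right ?_ (Nat.cast_nonneg _)
  have := Finset.card_le_univ (σ.filter fun m' => m ≤ m')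
  rw [Fintype.card_fin] at this
  exact_mod_cast this

/-- slabs correspond under the map -/
lemma wgF_mem_SlS (H : WgH N h ρ P) (σ : Finset (Fin N)) (m : Fin N) (x : Zd d) :
    wgF i h P σ x ∈ SlS i h P σ m ↔ x ∈ Sl i h 0 false (P m) := by
  set s : ℤ := ((σ.filter fun m' => m < m').card : ℤ) * h
    + if m ∈ σ then -(2 * (P m : ℤ) + 1) else 0 with hs
  have h1 : ∀ a ∈ Sl i h 0 false (P m), wgF i h P σ a = a + Pi.single i s := by
    intro a ha
    unfold wgF
    rw [wg_sum_ann H σ (wg_slab_ann H ha), wgD_slab ha]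
  have h2 : ∀ a : Zd d, a + Pi.single i s ∈ SlS i h P σ m ↔ a ∈ Sl i h 0 false (P m) := by
    intro a
    unfold SlS
    rw [wg_mem_Sl, wg_mem_Sl, wg_cen]
    refine and_congr (forall_congr' fun k => imp_congr_right fun hk => ?_) ?_
    · simp [Pi.single_eq_of_ne hk]
    · by_cases hm : m ∈ σ
      · simp only [hs, hm, decide_true, if_true, Pi.add_apply, Pi.single_eq_same,
          Bool.false_eq_true, if_false, Pi.zero_apply]
        omega
      · simp only [hs, hm, decide_false, Pi.add_apply, Pi.single_eq_same,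
          Bool.false_eq_true, if_false, Pi.zero_apply]
        omega
  constructor
  · intro hx
    have h3 : wgF i h P σ x - Pi.single i s ∈ Sl i h 0 false (P m) := by
      rw [← h2, sub_add_cancel]; exact hx
    have h4 := h1 _ h3
    rw [sub_add_cancel] at h4
    rw [← wgF_inj H σ h4]; exact h3
  · intro hx
    rw [h1 x hx, h2]; exact hx

/-- balls correspond under the map, away from the slab -/
lemma wgF_mem_ball (H : WgH N h ρ P) (σ : Finset (Fin N)) {m : Fin N} {x : Zd d} (hx : WgA ρ m x)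
    (hs : x ∉ Sl i h 0 false (P m)) :
    wgF i h P σ x ∈ ball (cen i h σ m) (P m) ↔ x ∈ ball 0 (P m) := by
  unfold wgF
  rw [wg_sum_ann H σ hx, wgD_free hs, wg_cen]
  rw [wg_mem_Sl] at hs
  by_cases hb : x ∈ ball 0 (P m)
  · simp only [hb, if_true, one_mul, iff_true]
    rw [mem_ball, add_sub_cancel_right]
    exact mem_ball_zero.mp hb
  · simp only [hb, if_false, zero_mul, ite_self, add_zero, iff_false]
    intro hc
    rw [wg_mem_ball (i := i)] at hb hc
    obtain ⟨c1, c2⟩ := hc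
    have c3 : ∀ k, k ≠ i → (0 : Zd d) k - P m ≤ x k ∧ x k ≤ (0 : Zd d) k + P m := fun k hk => by
      simpa [Pi.single_eq_of_ne hk] using c1 k hk
    simp only [Pi.add_apply, Pi.single_eq_same] at c2
    rw [and_iff_right c3] at hb hs
    simp only [Bool.false_eq_true, if_false, Pi.zero_apply] at hb hs
    split_ifs at c2 <;> omega

/-- number of walls of `σ` around `x` -/
noncomputable def wgN (P : Fin N → ℕ) (σ : Finset (Fin N)) (x : Zd d) : ℤ :=
  ∑ m ∈ σ, if x ∈ ball 0 (P m) then 1 else 0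

lemma wgF_free (σ : Finset (Fin N)) {x : Zd d} (hx : ∀ m, x ∉ Sl i h 0 false (P m)) :
    wgF i h P σ x = x + wgN P σ x • sv i h := by
  unfold wgF wgN
  rw [Finset.sum_congr rfl fun m _ => wgD_free (hx m), ← Finset.sum_mul, wg_single]

lemma wgN_bounds (σ : Finset (Fin N)) {x y : Zd d} (hxy : ‖x‖ ≤ ‖y‖) :
    0 ≤ wgN P σ x - wgN P σ y ∧ wgN P σ x - wgN P σ y ≤ N := by
  unfold wgN
  rw [← Finset.sum_sub_distrib]
  constructor
  · refine Finset.sum_nonneg fun m _ => ?_
    by_cases hy : y ∈ ball 0 (P m)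
    · rw [if_pos hy, if_pos (mem_ball_zero.mpr (hxy.trans (mem_ball_zero.mp hy)))]; simp
    · rw [if_neg hy]; split_ifs <;> simp
  · refine (Finset.sum_le_card_nsmul _ _ 1 fun m _ => ?_).trans ?_
    · split_ifs <;> simp
    · have := Finset.card_le_univ σ
      rw [Fintype.card_fin] at this
      simpa using this

lemma wgN_abs (σ : Finset (Fin N)) (x : Zd d) : |(wgN P σ x : ℝ)| ≤ N := by
  have h0 : 0 ≤ wgN P σ x := Finset.sum_nonneg fun m _ => by split_ifs <;> simp
  have h1 : wgN P σ x ≤ N := by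
    refine (Finset.sum_le_card_nsmul _ _ 1 fun m _ => ?_).trans ?_
    · split_ifs <;> simp
    · have := Finset.card_le_univ σ
      rw [Fintype.card_fin] at this
      simpa using this
  rw [abs_of_nonneg (by exact_mod_cast h0)]
  exact_mod_cast h1

lemma wgF_norm (H : WgH N h ρ P) (σ : Finset (Fin N)) (x : Zd d) :
    ‖wgF i h P σ x‖ ≤ ‖x‖ + (N * h + h) ∧ ‖x‖ ≤ ‖wgF i h P σ x‖ + (N * h + h) := by
  have h6 := H.f6
  by_cases hx : ∃ m, x ∈ Sl i h 0 false (P m)
  · obtain ⟨m, hm⟩ := hx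
    have h1 := wg_norm_Sl hm
    have h2 := wg_norm_Sl ((wgF_mem_SlS H σ m x).mpr hm)
    have h3 := wg_norm_cen (i := i) (h := h) σ m
    rw [sub_zero] at h1
    have h4 := norm_sub_le (wgF i h P σ x) (cen i h σ m)
    have h5 := norm_sub_norm_le (wgF i h P σ x) (cen i h σ m)
    constructor <;> linarith [h1.1, h1.2, h2.1, h2.2]
  · push Not at hx
    rw [wgF_free σ hx]
    have h1 : ‖wgN P σ x • sv i h‖ ≤ (N : ℝ) * h := by
      refine norm_zsmul_le _ _ |>.trans ?_
      rw [norm_sv, Int.norm_eq_abs]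
      exact mul_le_mul_of_nonneg_right (wgN_abs σ x) (Nat.cast_nonneg _)
    have h2 := norm_add_le x (wgN P σ x • sv i h)
    have h3 := norm_sub_le (x + wgN P σ x • sv i h) (wgN P σ x • sv i h)
    rw [add_sub_cancel_right] at h3
    constructor <;> linarith

lemma wgF_dist (H : WgH N h ρ P) (σ : Finset (Fin N)) {x y : Zd d} (hxy : ‖x‖ + ρ ≤ ‖y‖) :
    (ρ : ℝ) / 2 ≤ ‖wgF i h P σ y - wgF i h P σ x‖ := by
  have h1 := (wgF_norm (i := i) H σ x).1
  have h2 := (wgF_norm (i := i) H σ y).2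
  have h3 := norm_sub_norm_le (wgF i h P σ y) (wgF i h P σ x)
  have := H.f5
  linarith

/-- inside one annulus only the state of its wall matters -/
lemma wgF_sub_ann (H : WgH N h ρ P) {σ σ' : Finset (Fin N)} {m : Fin N} (hσ : m ∈ σ ↔ m ∈ σ')
    {x y : Zd d} (hx : WgA ρ m x) (hy : WgA ρ m y) :
    wgF i h P σ y - wgF i h P σ x = wgF i h P σ' y - wgF i h P σ' x := by
  unfold wgF
  rw [wg_sum_ann H σ hx, wg_sum_ann H σ hy, wg_sum_ann H σ' hx, wg_sum_ann H σ' hy]
  simp only [hσ, Pi.single_add]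
  abel

end Pool.Agent.Lib.MP_6fc7d9_pr
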