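import Pool.Agent.Lib.MP_6fc7d9_pr.WProb
import Pool.Agent.Lib.MP_6fc7d9_pr.WBool

set_option linter.unusedSectionVars false

namespace Pool.Agent.Lib.MP_6fc7d9_pr
open Finset

variable {V : Type*} [DecidableEq V] {ι : Type*} [Fintype ι] [DecidableEq ι]

theorem wmixed_edges_mono (Ω : Finset (Option ι × Sym2 V)) {S S' : Finset ι} (h : S ⊆ S') :
    edges Ω S ⊆ edges Ω S' := by
  unfold edges
  refine Finset.image_subset_image fun p hp => ?_
  rw [Finset.mem_filter] at hp ⊢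
  refine ⟨hp.1, hp.2.imp_right ?_⟩
  rintro ⟨m, hm, e⟩
  exact ⟨m, h hm, e⟩

theorem wmixed_pointwise {U : Finset V} {A : ι → Finset V} {Ω : Finset (Option ι × Sym2 V)}
    (hΩ : Allowed A Ω) {x z : V} (hx : ∀ m, x ∉ A m) (hz : ∀ m, z ∉ A m) {k : ℕ} (hk : 1 ≤ k)
    (hN : k * k ≤ Fintype.card ι) :
    |∑ S : Finset ι, (-1 : ℝ) ^ S.card * ind (z ∈ cl (edges Ω S) U {x})|
      ≤ 2 ^ Fintype.card ι * (ind (SerE U A z k Finset.univ x Ω)
        + ∑ T ∈ Finset.powersetCard k Finset.univ, ind (ParE U A x z T Ω)) := by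
  have n1 := ind_nonneg (SerE U A z k Finset.univ x Ω)
  have n2 : 0 ≤ ∑ T ∈ Finset.powersetCard k Finset.univ, ind (ParE U A x z T Ω) :=
    Finset.sum_nonneg fun T _ => ind_nonneg _
  by_cases h0 : ∑ S : Finset ι, (-1 : ℝ) ^ S.card * ind (z ∈ cl (edges Ω S) U {x}) = 0
  · rw [h0, abs_zero]
    positivity
  have hb : |∑ S : Finset ι, (-1 : ℝ) ^ S.card * ind (z ∈ cl (edges Ω S) U {x})|
      ≤ 2 ^ Fintype.card ι := by
    refine (Finset.abs_sum_le_sum_abs _ _).trans ?_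
    refine (Finset.sum_le_sum (g := fun _ => (1 : ℝ)) fun S _ => ?_).trans (le_of_eq ?_)
    · rw [abs_mul, abs_pow, abs_neg, abs_one, one_pow, one_mul, abs_of_nonneg (ind_nonneg _)]
      exact ind_le_one _
    · simp
  refine hb.trans (le_mul_of_one_le_right (by positivity) ?_)
  rcases bool_cert (fun S => z ∈ cl (edges Ω S) U {x})
    (fun S S' h hS => cl_mono (wmixed_edges_mono Ω h) subset_rfl subset_rfl hS) hk hN h0 with
    ⟨S, T, hTS, hT, h1, h2⟩ | ⟨S, T, hST, hT, h1, h2⟩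
  · have h3 := serE_of hΩ hTS hx hz h1 h2
    rw [hT] at h3
    rw [ind_pos (h3.mono (Finset.subset_univ _) subset_rfl)]
    linarith
  · have h3 := parE_of hΩ hST hx hz h1 h2
    have h4 := Finset.single_le_sum (f := fun T => ind (ParE U A x z T Ω))
      (fun T _ => ind_nonneg _)
      (Finset.mem_powersetCard.2 ⟨Finset.subset_univ T, hT⟩)
    rw [ind_pos h3] at h4
    linarith

/-- `Ex_edges` writes the sum as the expectation of `∑ S, (-1)^|S| ind (z ∈ cl (edges Ω S) U {x})`,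
whose modulus is at most `2^|ι|` and which vanishes unless `SerE .. k univ` or some `ParE .. T`,
`|T| = k`, holds (`bool_cert`, `serE_of`, `SerE.mono`, `parE_of`, `Ex_mono_supp`,
`allowed_of_supp`). -/
theorem mixed_bound {w base : Sym2 V → ℝ} {ext : ι → Sym2 V → ℝ} {A : ι → Finset V}
    (hL : Lay w base ext A) (U : Finset V) {q : ι → V → V → ℝ}
    (hq : ∀ m a b, Qk w U (A m) (fun a b => ext m s(a, b)) a b ≤ q m a b) {x z : V}
    (hx : ∀ m, x ∉ A m) (hz : ∀ m, z ∉ A m) {k : ℕ} (hk : 1 ≤ k) (hN : k * k ≤ Fintype.card ι) :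
    |∑ S : Finset ι, (-1 : ℝ) ^ S.card * tau (base + ∑ m ∈ S, ext m) U x z|
      ≤ 2 ^ Fintype.card ι * (SerB w U q z k Finset.univ x
        + ∑ T ∈ Finset.powersetCard k Finset.univ, ParB w U q x z T) := by
  have h0 := labP_nonneg hL
  have h1 := labP_le_one base ext
  have e1 : ∑ S : Finset ι, (-1 : ℝ) ^ S.card * tau (base + ∑ m ∈ S, ext m) U x z =
      Ex (labF ι U) (labP base ext)
        fun Ω => ∑ S : Finset ι, (-1 : ℝ) ^ S.card * ind (z ∈ cl (edges Ω S) U {x}) := by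
    rw [Ex_sum]
    refine Finset.sum_congr rfl fun S _ => ?_
    rw [Ex_const_mul, Ex_edges U base ext S fun ω => ind (z ∈ cl ω U {x})]
    rfl
  rw [e1]
  have e2 := norm_Ex_le (F := labF ι U) h0 h1
    (f := fun Ω => ∑ S : Finset ι, (-1 : ℝ) ^ S.card * ind (z ∈ cl (edges Ω S) U {x}))
    (g := fun Ω => |∑ S : Finset ι, (-1 : ℝ) ^ S.card * ind (z ∈ cl (edges Ω S) U {x})|)
    fun Ω _ => le_rfl
  refine le_trans e2 ?_
  refine (Ex_mono_supp h0 h1 fun Ω _ hΩ =>
    wmixed_pointwise (U := U) (allowed_of_supp hL hΩ) hx hz hk hN).trans ?_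
  rw [Ex_const_mul, Ex_add, Ex_sum]
  refine mul_le_mul_of_nonneg_left ?_ (by positivity)
  exact add_le_add (prob_ser hL U hq z k _ x)
    (Finset.sum_le_sum fun T _ => prob_par hL U hq x z T)

theorem Qk_nonneg {w : Sym2 V → ℝ} (hw : ∀ e, 0 ≤ w e) (U A : Finset V) {e : V → V → ℝ}
    (he : ∀ a b, 0 ≤ e a b) (a b : V) : 0 ≤ Qk w U A e a b := by
  unfold Qk
  split_ifs
  · exact add_nonneg (he a b) (Finset.sum_nonneg fun u _ => Finset.sum_nonneg fun u' _ =>
      mul_nonneg (mul_nonneg (he _ _) (tau_nonneg hw _ _ _)) (he _ _))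
  · exact le_rfl

theorem Qk_mono {w : Sym2 V → ℝ} (hw : ∀ e, 0 ≤ w e) (U A : Finset V) {e e' : V → V → ℝ}
    (he : ∀ a b, 0 ≤ e a b) (hee : ∀ a b, e a b ≤ e' a b) (a b : V) :
    Qk w U A e a b ≤ Qk w U A e' a b := by
  unfold Qk
  split_ifs
  · refine add_le_add (hee a b) (Finset.sum_le_sum fun u _ => Finset.sum_le_sum fun u' _ => ?_)
    have ht := tau_nonneg hw U u u'
    exact mul_le_mul (mul_le_mul_of_nonneg_right (hee _ _) ht) (hee _ _) (he _ _)
      (mul_nonneg ((he _ _).trans (hee _ _)) ht)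
  · exact le_rfl

theorem Qk_symm (w : Sym2 V → ℝ) (U A : Finset V) {e : V → V → ℝ} (he : ∀ a b, e a b = e b a)
    (a b : V) : Qk w U A e a b = Qk w U A e b a := by
  unfold Qk
  by_cases h : a ∉ A ∧ b ∉ A
  · rw [if_pos h, if_pos h.symm, he a b, Finset.sum_comm]
    congr 1
    refine Finset.sum_congr rfl fun u _ => Finset.sum_congr rfl fun u' _ => ?_
    rw [he a u', he u b, tau_symm w U u' u]
    ring
  · rw [if_neg h, if_neg fun h' => h h'.symm]

end Pool.Agent.Lib.MP_6fc7d9_pr
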