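import Pool.Agent.Lib.MP_6fc7d9_pr.WFace
import Pool.Agent.Lib.MP_6fc7d9_pr.WOsc
import Pool.Agent.Lib.MP_6fc7d9_pr.WMixed

set_option linter.unusedSectionVars false

namespace Pool.Agent.Lib.MP_6fc7d9_pr
open Finset

lemma wkq_w0 {d : ℕ} {w : Sym2 (Zd d) → ℝ} (hw : Inv w) (x y : Zd d) :
    w s(x, y) = w s(0, y - x) := by
  have := hw 0 (y - x) x
  rw [zero_add, sub_add_cancel] at this
  exact this

lemma wkq_neg {d : ℕ} {w : Sym2 (Zd d) → ℝ} (hw : Inv w) (t : Zd d) :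
    w s(0, -t) = w s(0, t) := by
  rw [Sym2.eq_swap, wkq_w0 hw, zero_sub, neg_neg]

lemma wkq_osc_neg {d : ℕ} {w : Sym2 (Zd d) → ℝ} (hw : Inv w) (v t : Zd d) :
    osc w v (-t) = osc w v t := by
  have h1 : -t + v = -(t - v) := by abel
  have h2 : -t - v = -(t + v) := by abel
  rw [osc, osc, h1, h2, wkq_neg hw, wkq_neg hw, wkq_neg hw, add_comm]

lemma wkq_osc_nonneg {d : ℕ} (w : Sym2 (Zd d) → ℝ) (v t : Zd d) : 0 ≤ osc w v t :=
  add_nonneg (abs_nonneg _) (abs_nonneg _)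

theorem Xk_nonneg {d : ℕ} {w : Sym2 (Zd d) → ℝ} (hw : ∀ e, 0 ≤ w e) (i : Fin d) (h Rb : ℕ)
    (o : Zd d) (b : Bool) (P : ℕ) (x y : Zd d) : 0 ≤ Xk w i h Rb o b P x y := by
  unfold Xk
  split_ifs
  · exact hw _
  · exact le_rfl
  · exact le_min (hw _) (wkq_osc_nonneg _ _ _)
  · exact le_rfl

theorem Xk_symm {d : ℕ} {w : Sym2 (Zd d) → ℝ} (hw : Inv w) (i : Fin d) (h Rb : ℕ)
    (o : Zd d) (b : Bool) (P : ℕ) (x y : Zd d) :
    Xk w i h Rb o b P x y = Xk w i h Rb o b P y x := by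
  have h1 : w s(x, y) = w s(y, x) := by rw [Sym2.eq_swap]
  have h2 : osc w (sv i h) (y - x) = osc w (sv i h) (x - y) := by
    rw [← wkq_osc_neg hw, neg_sub]
  unfold Xk
  rw [h1, h2]
  refine if_congr and_comm (if_congr or_comm rfl (if_congr iff_comm rfl rfl)) rfl

theorem Qw_eq_zero {d : ℕ} (w : Sym2 (Zd d) → ℝ) (U : Finset (Zd d)) (i : Fin d) (h Rb : ℕ)
    (o : Zd d) (b : Bool) (P : ℕ) {x : Zd d} (hx : x ∉ ball 0 Rb) (y : Zd d) :
    Qw w U i h Rb o b P x y = 0 := by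
  have h0 : ∀ z, Xk w i h Rb o b P x z = 0 := fun z => by
    unfold Xk
    rw [if_neg fun hh => hx hh.1]
  unfold Qw Qk
  simp only [h0, zero_mul, Finset.sum_const_zero, add_zero, ite_self]

lemma wkq_Xk_le {d : ℕ} {w : Sym2 (Zd d) → ℝ} (hw : ∀ e, 0 ≤ w e) (i : Fin d) (h Rb : ℕ)
    (o : Zd d) (b : Bool) (P : ℕ) (x y : Zd d) : Xk w i h Rb o b P x y ≤ w s(x, y) := by
  unfold Xk
  split_ifs
  · exact le_rfl
  · exact hw _
  · exact min_le_left _ _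
  · exact hw _

lemma wkq_direct {d : ℕ} {w : Sym2 (Zd d) → ℝ} (hw : ∀ e, 0 ≤ w e) (hI : Inv w) (i : Fin d)
    (h Rb : ℕ) (o : Zd d) (b : Bool) (P : ℕ) {a c : Zd d} (ha : a ∉ Sl i h o b P)
    (hc : c ∉ Sl i h o b P) :
    Xk w i h Rb o b P a c ≤ ind (¬ (a ∈ ball o P ↔ c ∈ ball o P)) *
      min (w s(0, c - a)) (osc w (sv i h) (c - a)) := by
  have hm : 0 ≤ min (w s(0, c - a)) (osc w (sv i h) (c - a)) :=
    le_min (hw _) (wkq_osc_nonneg _ _ _)
  have h0 : 0 ≤ ind (¬ (a ∈ ball o P ↔ c ∈ ball o P)) *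
      min (w s(0, c - a)) (osc w (sv i h) (c - a)) := mul_nonneg (ind_nonneg _) hm
  unfold Xk
  split_ifs with h1 h2 h3
  · exact absurd h2 (not_or.mpr ⟨ha, hc⟩)
  · exact h0
  · rw [ind_pos h3, one_mul, wkq_w0 hI a c]
  · exact h0

lemma wkq_fw_nonneg {d : ℕ} (i : Fin d) (h : ℕ) (o : Zd d) (b : Bool) (P : ℕ) (s : ℝ) (p : Zd d) :
    0 ≤ fw i h o b P s p :=
  Finset.sum_nonneg fun _ _ =>
    add_nonneg (Real.rpow_nonneg (abs_nonneg _) _) (Real.rpow_nonneg (abs_nonneg _) _)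

lemma wkq_C_nonneg {d : ℕ} {α C₁ : ℝ} {w : Sym2 (Zd d) → ℝ} (hw : Reg α C₁ w) : 0 ≤ C₁ := by
  have h1 := (hw.nonneg _).trans (hw.upper 0 0)
  exact nonneg_of_mul_nonneg_left h1 (kk_pos _ _)

/-- majorant of the slab term -/
noncomputable def wkq_S {d : ℕ} (α : ℝ) (A : Finset (Zd d)) (a c : Zd d) : ℝ :=
  ind (a ∉ A) * ∑ u ∈ A, kk (d + α) (u - a) * ∑ u' ∈ A, kk (d - α) (u' - u) *
    (if c ∉ A then kk (d + α) (c - u') else 0)

lemma wkq_S_nonneg {d : ℕ} (α : ℝ) (A : Finset (Zd d)) (a c : Zd d) : 0 ≤ wkq_S α A a c := by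
  refine mul_nonneg (ind_nonneg _) (Finset.sum_nonneg fun u _ => mul_nonneg (kk_pos _ _).le
    (Finset.sum_nonneg fun u' _ => mul_nonneg (kk_pos _ _).le ?_))
  split_ifs
  · exact le_rfl
  · exact (kk_pos _ _).le

lemma wkq_split {d : ℕ} {α C₁ : ℝ} {w : Sym2 (Zd d) → ℝ} (hw : Reg α C₁ w) (U : Finset (Zd d))
    (i : Fin d) (h Rb : ℕ) (o : Zd d) (b : Bool) (P : ℕ) (a c : Zd d) :
    Qw w U i h Rb o b P a c ≤ ind (¬ (a ∈ ball o P ↔ c ∈ ball o P)) *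
      min (w s(0, c - a)) (osc w (sv i h) (c - a)) + C₁ ^ 3 * wkq_S α (Sl i h o b P) a c := by
  have hC := wkq_C_nonneg hw
  unfold Qw Qk
  split_ifs with hac
  · refine add_le_add (wkq_direct hw.nonneg hw.inv i h Rb o b P hac.1 hac.2) ?_
    rw [wkq_S, ind_pos hac.1, one_mul, Finset.mul_sum]
    refine Finset.sum_le_sum fun u _ => ?_
    rw [Finset.mul_sum, Finset.mul_sum]
    refine Finset.sum_le_sum fun u' _ => ?_
    rw [if_pos hac.2]
    have e1 : Xk w i h Rb o b P a u ≤ C₁ * kk (d + α) (u - a) :=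
      (wkq_Xk_le hw.nonneg i h Rb o b P a u).trans (hw.upper a u)
    have e2 : tau w U u u' ≤ C₁ * kk (d - α) (u' - u) := hw.pt U u u'
    have e3 : Xk w i h Rb o b P u' c ≤ C₁ * kk (d + α) (c - u') :=
      (wkq_Xk_le hw.nonneg i h Rb o b P u' c).trans (hw.upper u' c)
    have n1 : 0 ≤ C₁ * kk (d + α) (u - a) := mul_nonneg hC (kk_pos _ _).le
    have n2 : 0 ≤ C₁ * kk (d - α) (u' - u) := mul_nonneg hC (kk_pos _ _).le
    calc Xk w i h Rb o b P a u * tau w U u u' * Xk w i h Rb o b P u' c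
        ≤ (C₁ * kk (d + α) (u - a)) * (C₁ * kk (d - α) (u' - u)) * (C₁ * kk (d + α) (c - u')) :=
          mul_le_mul (mul_le_mul e1 e2 (tau_nonneg hw.nonneg U u u') n1) e3
            (Xk_nonneg hw.nonneg i h Rb o b P u' c) (mul_nonneg n1 n2)
      _ = _ := by ring
  · exact add_nonneg (mul_nonneg (ind_nonneg _) (le_min (hw.nonneg _) (wkq_osc_nonneg _ _ _)))
      (mul_nonneg (pow_nonneg hC 3) (wkq_S_nonneg _ _ _ _))

lemma wkq_slab (d : ℕ) {α η : ℝ} (hα : 0 < α) (hη : 0 < η) (h1 : α + η < 1) :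
    ∃ K : ℝ, 0 < K ∧ ∀ (i : Fin d) (h W₀ ρ : ℕ) (o : Zd d) (b : Bool), 1 ≤ h →
      ∀ (a : Zd d) (T : Finset (Zd d)) (E : ℝ), 0 ≤ E →
      (∀ P, ∀ p ∈ Sl i h o b P, ∑ c ∈ T.filter (fun c => c ∉ Sl i h o b P), kk (d + α) (c - p)
        ≤ E * fw i h o b P (α + η) p) →
      ∑ c ∈ T, ∑ W : Fin ρ, wkq_S α (Sl i h o b (W₀ + W)) a c
        ≤ K * E * (h : ℝ) ^ (1 - η - α) := by
  obtain ⟨Cc, hCc, hconv⟩ := face_conv d hα (lt_add_of_pos_right α hη) h1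
  obtain ⟨Ca, hCa, havg⟩ := face_avg d hη.le (show η < 1 by linarith)
  obtain ⟨Cm, hCm, hmin⟩ := sum_kk_min d hα (show α < 1 - η by linarith)
    (show 1 - η ≤ 1 by linarith)
  refine ⟨Cc * Ca * Cm, by positivity, ?_⟩
  intro i h W₀ ρ o b hh a T E hE hexit
  set Ω : Finset (Zd d) := Finset.univ.biUnion fun W : Fin ρ => Sl i h o b (W₀ + W) with hΩ
  have step1 : ∀ W : Fin ρ, ∑ c ∈ T, wkq_S α (Sl i h o b (W₀ + W)) a c
      ≤ ∑ u ∈ Ω, E * Cc * (kk (d + α) (u - a) *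
        (ind (a ∉ Sl i h o b (W₀ + W) ∧ u ∈ Sl i h o b (W₀ + W)) * fw i h o b (W₀ + W) η u)) := by
    intro W
    set P := W₀ + (W : ℕ) with hP
    set A := Sl i h o b P with hA
    have hAΩ : A ⊆ Ω := fun u hu => Finset.mem_biUnion.mpr ⟨W, Finset.mem_univ _, hu⟩
    have inner : ∀ u ∈ A, ∑ c ∈ T, ∑ u' ∈ A, kk (d - α) (u' - u) *
        (if c ∉ A then kk (d + α) (c - u') else 0) ≤ E * Cc * fw i h o b P η u := by
      intro u hu
      calc ∑ c ∈ T, ∑ u' ∈ A, kk (d - α) (u' - u) * (if c ∉ A then kk (d + α) (c - u') else 0)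
          = ∑ u' ∈ A, kk (d - α) (u' - u) *
              ∑ c ∈ T.filter (fun c => c ∉ A), kk (d + α) (c - u') := by
            rw [Finset.sum_comm]
            refine Finset.sum_congr rfl fun u' _ => ?_
            rw [Finset.sum_filter, Finset.mul_sum]
        _ ≤ ∑ u' ∈ A, kk (d - α) (u' - u) * (E * fw i h o b P (α + η) u') :=
            Finset.sum_le_sum fun u' hu' =>
              mul_le_mul_of_nonneg_left (hexit P u' hu') (kk_pos _ _).le
        _ = E * ∑ u' ∈ A, kk (d - α) (u' - u) * fw i h o b P (α + η) u' := by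
            rw [Finset.mul_sum]
            exact Finset.sum_congr rfl fun u' _ => by ring
        _ ≤ E * (Cc * fw i h o b P (α + η - α) u) :=
            mul_le_mul_of_nonneg_left (hconv i h o b P u hu) hE
        _ = E * Cc * fw i h o b P η u := by rw [add_sub_cancel_left, mul_assoc]
    calc ∑ c ∈ T, wkq_S α A a c
        = ind (a ∉ A) * ∑ u ∈ A, kk (d + α) (u - a) * ∑ c ∈ T, ∑ u' ∈ A, kk (d - α) (u' - u) *
            (if c ∉ A then kk (d + α) (c - u') else 0) := by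
          unfold wkq_S
          rw [← Finset.mul_sum, Finset.sum_comm]
          refine congrArg _ (Finset.sum_congr rfl fun u _ => ?_)
          rw [← Finset.mul_sum]
      _ ≤ ind (a ∉ A) * ∑ u ∈ A, kk (d + α) (u - a) * (E * Cc * fw i h o b P η u) :=
          mul_le_mul_of_nonneg_left (Finset.sum_le_sum fun u hu =>
            mul_le_mul_of_nonneg_left (inner u hu) (kk_pos _ _).le) (ind_nonneg _)
      _ = ∑ u ∈ A, E * Cc * (kk (d + α) (u - a) * (ind (a ∉ A ∧ u ∈ A) * fw i h o b P η u)) := by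
          rw [Finset.mul_sum]
          refine Finset.sum_congr rfl fun u hu => ?_
          rw [ind_and, ind_pos hu]
          ring
      _ ≤ _ := by
          refine Finset.sum_le_sum_of_subset_of_nonneg hAΩ fun u _ _ => ?_
          exact mul_nonneg (mul_nonneg hE hCc.le) (mul_nonneg (kk_pos _ _).le
            (mul_nonneg (ind_nonneg _) (wkq_fw_nonneg _ _ _ _ _ _ _)))
  have hh' : (1 : ℝ) ≤ h := by exact_mod_cast hh
  calc ∑ c ∈ T, ∑ W : Fin ρ, wkq_S α (Sl i h o b (W₀ + W)) a c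
      = ∑ W : Fin ρ, ∑ c ∈ T, wkq_S α (Sl i h o b (W₀ + W)) a c := Finset.sum_comm
    _ ≤ ∑ W : Fin ρ, ∑ u ∈ Ω, E * Cc * (kk (d + α) (u - a) *
        (ind (a ∉ Sl i h o b (W₀ + W) ∧ u ∈ Sl i h o b (W₀ + W)) * fw i h o b (W₀ + W) η u)) :=
        Finset.sum_le_sum fun W _ => step1 W
    _ = ∑ u ∈ Ω, E * Cc * (kk (d + α) (u - a) * ∑ W : Fin ρ,
        ind (a ∉ Sl i h o b (W₀ + W) ∧ u ∈ Sl i h o b (W₀ + W)) * fw i h o b (W₀ + W) η u) := by
        rw [Finset.sum_comm]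
        refine Finset.sum_congr rfl fun u _ => ?_
        rw [Finset.mul_sum, Finset.mul_sum]
    _ ≤ ∑ u ∈ Ω, E * Cc * (kk (d + α) (u - a) * (Ca * (min ‖u - a‖ h) ^ (1 - η))) :=
        Finset.sum_le_sum fun u _ => mul_le_mul_of_nonneg_left
          (mul_le_mul_of_nonneg_left (havg i h o b W₀ ρ a u) (kk_pos _ _).le)
          (mul_nonneg hE hCc.le)
    _ = E * Cc * Ca * ∑ u ∈ Ω, kk (d + α) (u - a) * (min ‖u - a‖ h) ^ (1 - η) := by
        rw [Finset.mul_sum]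
        exact Finset.sum_congr rfl fun u _ => by ring
    _ ≤ E * Cc * Ca * (Cm * (h : ℝ) ^ (1 - η - α)) :=
        mul_le_mul_of_nonneg_left (hmin a Ω h hh') (by positivity)
    _ = _ := by ring

/-- reduction to the direct sum and the slab sum -/
lemma wkq_total {d : ℕ} {α C₁ : ℝ} {w : Sym2 (Zd d) → ℝ} (hw : Reg α C₁ w) (U : Finset (Zd d))
    (i : Fin d) (h Rb W₀ ρ : ℕ) (o : Zd d) (b : Bool) (a : Zd d) (T : Finset (Zd d)) :
    ∑ c ∈ T, avg (fun W : Fin ρ => Qw w U i h Rb o b (W₀ + W) a c)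
      ≤ (∑ c ∈ T, min (w s(0, c - a)) (osc w (sv i h) (c - a)) * ‖c - a‖
        + C₁ ^ 3 * ∑ c ∈ T, ∑ W : Fin ρ, wkq_S α (Sl i h o b (W₀ + W)) a c) / ρ := by
  unfold avg
  rw [Fintype.card_fin, ← Finset.sum_div, Finset.mul_sum, ← Finset.sum_add_distrib]
  refine div_le_div_of_nonneg_right (Finset.sum_le_sum fun c _ => ?_) (Nat.cast_nonneg _)
  have hm : 0 ≤ min (w s(0, c - a)) (osc w (sv i h) (c - a)) :=
    le_min (hw.nonneg _) (wkq_osc_nonneg _ _ _)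
  calc ∑ W : Fin ρ, Qw w U i h Rb o b (W₀ + W) a c
      ≤ ∑ W : Fin ρ, (ind (¬ (a ∈ ball o (W₀ + W) ↔ c ∈ ball o (W₀ + W))) *
          min (w s(0, c - a)) (osc w (sv i h) (c - a))
          + C₁ ^ 3 * wkq_S α (Sl i h o b (W₀ + W)) a c) :=
        Finset.sum_le_sum fun W _ => wkq_split hw U i h Rb o b _ a c
    _ = (∑ W : Fin ρ, ind (¬ (a ∈ ball o (W₀ + W) ↔ c ∈ ball o (W₀ + W)))) *
          min (w s(0, c - a)) (osc w (sv i h) (c - a))
          + C₁ ^ 3 * ∑ W : Fin ρ, wkq_S α (Sl i h o b (W₀ + W)) a c := by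
        rw [Finset.sum_add_distrib, Finset.sum_mul, Finset.mul_sum]
    _ ≤ _ := by
        refine add_le_add ?_ le_rfl
        rw [mul_comm]
        exact mul_le_mul_of_nonneg_left (sep_count o W₀ ρ a c) hm

lemma wkq_small {d : ℕ} {α C₁ : ℝ} {w : Sym2 (Zd d) → ℝ} (hw : Reg α C₁ w) (v t : Zd d) :
    min (w s(0, t)) (osc w v t) * ‖t‖ ≤ C₁ * kk (d + α - 1) t := by
  have hC := wkq_C_nonneg hw
  have h1 : min (w s(0, t)) (osc w v t) ≤ C₁ * kk (d + α) t := by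
    have := hw.upper 0 t
    rw [sub_zero] at this
    exact (min_le_left _ _).trans this
  have hpos : 0 < 1 + ‖t‖ := by positivity
  have h2 : kk (d + α - 1) t = kk (d + α) t * (1 + ‖t‖) := by
    rw [kk, kk, show -((d : ℝ) + α - 1) = -((d : ℝ) + α) + 1 by ring, Real.rpow_add hpos,
      Real.rpow_one]
  rw [h2, ← mul_assoc]
  exact mul_le_mul h1 (by linarith) (norm_nonneg _) (mul_nonneg hC (kk_pos _ _).le)

/-- Take `η = (1-α)/2`.  Direct term: `sep_count` and `osc_moment` (`w s(a,c) = w s(0,c-a)` by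
`Inv`); on a ball of radius `t < h` use instead `w ‖·‖ ≤ C₁ kk (d+α-1)` and `sum_kk_ball`; for
`t ≥ h` the second bound follows from the first.  Slab term: `face_exit`, `face_conv` with
`α' = α + η`, `face_avg`, `sum_kk_min` with `γ = 1 - η`. -/
theorem kq_bound (d : ℕ) (hd : 1 ≤ d) {α : ℝ} (hα : 0 < α) (h1 : α < 1) (C₁ : ℝ) :
    ∃ η C : ℝ, 0 < η ∧ 0 < C ∧ ∀ w : Sym2 (Zd d) → ℝ, Reg α C₁ w →
      ∀ (U : Finset (Zd d)) (i : Fin d) (h Rb W₀ ρ : ℕ) (o : Zd d) (b : Bool), 1 ≤ h → 1 ≤ ρ →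
      ∀ a : Zd d,
        (∀ T : Finset (Zd d), ∑ c ∈ T, avg (fun W : Fin ρ => Qw w U i h Rb o b (W₀ + W) a c)
          ≤ C * (h : ℝ) ^ (1 - α) / ρ) ∧
        ∀ (y : Zd d) (t : ℕ),
          ∑ c ∈ ball y t, avg (fun W : Fin ρ => Qw w U i h Rb o b (W₀ + W) a c)
            ≤ C * (h : ℝ) ^ (1 - α) / ρ * ((1 + (t : ℝ)) / h) ^ η := by
  have hd' : (1 : ℝ) ≤ d := by exact_mod_cast hd
  set η : ℝ := (1 - α) / 2 with hη
  have hη0 : 0 < η := by rw [hη]; linarith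
  have hη1 : α + η < 1 := by rw [hη]; linarith
  obtain ⟨K, hK, hslab⟩ := wkq_slab d hα hη0 hη1
  obtain ⟨Ce, hCe, hexit⟩ := face_exit d hα hη0.le (show η ≤ d by linarith)
  obtain ⟨Co, hCo, hosc⟩ := osc_moment d hα h1 C₁
  obtain ⟨Cb, hCb, hball⟩ := sum_kk_ball d (show (0 : ℝ) ≤ d + α - 1 by linarith)
    (show (d : ℝ) + α - 1 < d by linarith)
  refine ⟨η, Co + |C₁| * Cb + |C₁| ^ 3 * (K * Ce), hη0, by positivity, ?_⟩
  intro w hw U i h Rb W₀ ρ o b hh hρ a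
  have hC := wkq_C_nonneg hw
  rw [abs_of_nonneg hC]
  have hh1 : (1 : ℝ) ≤ h := by exact_mod_cast hh
  have hh0 : (0 : ℝ) < h := by linarith
  have hρ0 : (0 : ℝ) < ρ := by exact_mod_cast hρ
  have hpow : 0 < (h : ℝ) ^ (1 - α) := Real.rpow_pos_of_pos hh0 _
  have hdir : ∀ T : Finset (Zd d),
      ∑ c ∈ T, min (w s(0, c - a)) (osc w (sv i h) (c - a)) * ‖c - a‖
        ≤ Co * (h : ℝ) ^ (1 - α) := by
    intro T
    have := hosc w hw i h hh (T.map (Equiv.subRight a).toEmbedding)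
    rw [Finset.sum_map] at this
    exact this
  have hsplit : (h : ℝ) ^ η * (h : ℝ) ^ (1 - η - α) = (h : ℝ) ^ (1 - α) := by
    rw [← Real.rpow_add hh0]
    exact congrArg _ (by ring)
  have hfirst : ∀ T : Finset (Zd d),
      ∑ c ∈ T, avg (fun W : Fin ρ => Qw w U i h Rb o b (W₀ + W) a c)
        ≤ (Co + C₁ * Cb + C₁ ^ 3 * (K * Ce)) * (h : ℝ) ^ (1 - α) / ρ := by
    intro T
    refine (wkq_total hw U i h Rb W₀ ρ o b a T).trans (div_le_div_of_nonneg_right ?_ hρ0.le)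
    have h2 := hslab i h W₀ ρ o b hh a T (Ce * (h : ℝ) ^ η)
      (mul_nonneg hCe.le (Real.rpow_nonneg hh0.le _)) fun P p hp =>
        (hexit i h o b P p hp _ fun c hc => (Finset.mem_filter.mp hc).2).1
    have h3 : K * (Ce * (h : ℝ) ^ η) * (h : ℝ) ^ (1 - η - α) = K * Ce * (h : ℝ) ^ (1 - α) := by
      rw [← hsplit]; ring
    rw [h3] at h2
    have h4 := mul_le_mul_of_nonneg_left h2 (pow_nonneg hC 3)
    have h5 : 0 ≤ C₁ * Cb * (h : ℝ) ^ (1 - α) := by positivity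
    have h6 := hdir T
    linarith
  refine ⟨hfirst, fun y t => ?_⟩
  have ht0 : (0 : ℝ) < 1 + (t : ℝ) := by positivity
  have hq0 : 0 < (1 + (t : ℝ)) / h := div_pos ht0 hh0
  rcases le_total (h : ℝ) (1 + (t : ℝ)) with hle | hle
  · have h2 : 1 ≤ ((1 + (t : ℝ)) / h) ^ η :=
      Real.one_le_rpow ((one_le_div hh0).mpr hle) hη0.le
    refine (hfirst _).trans (le_mul_of_one_le_right ?_ h2)
    positivity
  · have hq1 : (1 + (t : ℝ)) / h ≤ 1 := (div_le_one hh0).mpr hle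
    set q := ((1 + (t : ℝ)) / h) ^ η with hq
    have hqpos : 0 < q := Real.rpow_pos_of_pos hq0 _
    have e1 : (1 + (t : ℝ)) ^ (1 - α) ≤ (h : ℝ) ^ (1 - α) * q := by
      have h7 : (1 + (t : ℝ)) ^ (1 - α)
          = (h : ℝ) ^ (1 - α) * ((1 + (t : ℝ)) / h) ^ (1 - α) := by
        rw [Real.div_rpow ht0.le hh0.le]
        field_simp
      rw [h7]
      refine mul_le_mul_of_nonneg_left ?_ hpow.le
      exact Real.rpow_le_rpow_of_exponent_ge hq0 hq1 (by rw [hη]; linarith)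
    have e2 : (1 + (t : ℝ)) ^ η * (h : ℝ) ^ (1 - η - α) = (h : ℝ) ^ (1 - α) * q := by
      have hp : 0 < (h : ℝ) ^ η := Real.rpow_pos_of_pos hh0 _
      rw [hq, Real.div_rpow ht0.le hh0.le, ← hsplit]
      field_simp
    have hd2 : ∑ c ∈ ball y t, min (w s(0, c - a)) (osc w (sv i h) (c - a)) * ‖c - a‖
        ≤ C₁ * Cb * ((h : ℝ) ^ (1 - α) * q) := by
      calc ∑ c ∈ ball y t, min (w s(0, c - a)) (osc w (sv i h) (c - a)) * ‖c - a‖
          ≤ ∑ c ∈ ball y t, C₁ * kk (d + α - 1) (c - a) :=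
            Finset.sum_le_sum fun c _ => wkq_small hw _ _
        _ = C₁ * ∑ c ∈ ball y t, kk (d + α - 1) (c - a) := by rw [Finset.mul_sum]
        _ ≤ C₁ * (Cb * (1 + (t : ℝ)) ^ ((d : ℝ) - (d + α - 1))) :=
            mul_le_mul_of_nonneg_left (hball a y t) hC
        _ = C₁ * Cb * (1 + (t : ℝ)) ^ (1 - α) := by
            rw [show (d : ℝ) - (d + α - 1) = 1 - α by ring, mul_assoc]
        _ ≤ _ := mul_le_mul_of_nonneg_left e1 (mul_nonneg hC hCb.le)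
    have h2 := hslab i h W₀ ρ o b hh a (ball y t) (Ce * (1 + (t : ℝ)) ^ η)
      (mul_nonneg hCe.le (Real.rpow_nonneg ht0.le _)) fun P p hp =>
        (hexit i h o b P p hp _ fun c hc => (Finset.mem_filter.mp hc).2).2 y t
          (Finset.filter_subset _ _)
    have h3 : K * (Ce * (1 + (t : ℝ)) ^ η) * (h : ℝ) ^ (1 - η - α)
        = K * Ce * ((h : ℝ) ^ (1 - α) * q) := by
      rw [← e2]; ring
    rw [h3] at h2
    have h4 := mul_le_mul_of_nonneg_left h2 (pow_nonneg hC 3)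
    have h5 : 0 ≤ Co * ((h : ℝ) ^ (1 - α) * q) := by positivity
    refine (wkq_total hw U i h Rb W₀ ρ o b a _).trans ?_
    rw [div_mul_eq_mul_div]
    refine div_le_div_of_nonneg_right ?_ hρ0.le
    linarith

end Pool.Agent.Lib.MP_6fc7d9_pr
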