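import Pool.Agent.Lib.MP_6fc7d9_pr.WShell
import Pool.Agent.Lib.MP_6fc7d9_pr.Subcrit

set_option linter.unusedSectionVars false

namespace Pool.Agent.Lib.MP_6fc7d9_pr
open Finset

open Filter Topology

theorem wl1_mono {d : ℕ} (c : Zd d) {r r' : ℕ} (h : r ≤ r') : ball c r ⊆ ball c r' :=
  fun _ hy => mem_ball.2 ((mem_ball.1 hy).trans (by exact_mod_cast h))

/-- `tau w U x z = tau w (U - x) 0 (z - x)` by translation invariance, and the translated balls
tend to `atTop` in `Finset (Zd d)`; `tendsto_tau`. -/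
theorem tendsto_tau_ball {d : ℕ} {J : Sym2 (Zd d) → ℝ} (hJ : ∀ e, 0 ≤ J e) (hinv : Inv J) {β : ℝ}
    (hβ : 0 ≤ β) (x z : Zd d) :
    Tendsto (fun M : ℕ => tau (β • J) (ball 0 M) x z) atTop (𝓝 (twoPt J β (z - x))) := by
  have h1 : Tendsto (fun M : ℕ => ball (-x) M) atTop atTop := by
    refine Filter.tendsto_atTop_finset_of_monotone (fun M M' h => wl1_mono _ h) fun y => ?_
    obtain ⟨n, hn⟩ := exists_norm_eq_nat (y - -x)
    exact ⟨n, mem_ball.2 hn.le⟩
  refine ((tendsto_tau hJ hβ (z - x)).comp h1).congr fun M => ?_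
  have h := EK_map (addRightEmbedding x) (β • J) (β • J) (ball (-x) M) {0}
    (fun a _ b _ => by simp only [addRightEmbedding_apply, Pi.smul_apply, hinv a b x])
    (fun K => ind (z ∈ K))
  have h2 : (ball (-x) M).map (addRightEmbedding x) = ball 0 M := by
    ext y
    simp only [Finset.mem_map, addRightEmbedding_apply, mem_ball, sub_neg_eq_add, sub_zero]
    exact ⟨fun ⟨a, ha, hy⟩ => hy ▸ ha, fun hy => ⟨y - x, by rwa [sub_add_cancel], sub_add_cancel _ _⟩⟩
  rw [Finset.map_singleton, addRightEmbedding_apply, zero_add, h2] at h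
  simp only [Function.comp, tau]
  rw [h]
  refine EK_congr fun K _ => ind_congr ?_
  simp only [Finset.mem_map, addRightEmbedding_apply]
  exact ⟨fun hy => ⟨_, hy, sub_add_cancel z x⟩, fun ⟨a, ha, hy⟩ => by rwa [← hy, add_sub_cancel_right]⟩

theorem wl1_sum {d : ℕ} {g : Zd d → ℝ} (hg : ∀ z, 0 ≤ g z) {R : ℕ} (hR : 1 ≤ R) {A B r : ℝ}
    (hB : 0 ≤ B) (hr0 : 0 ≤ r) (hr : r < 1) (h0 : ∑ z ∈ ball 0 R, g z ≤ A)
    (h1 : ∀ j : ℕ, ∑ z ∈ ball 0 (2 * (2 ^ j * R)) \ ball 0 (2 ^ j * R), g z ≤ B * r ^ j)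
    (T : Finset (Zd d)) : ∑ z ∈ T, g z ≤ A + B * (1 - r)⁻¹ := by
  have key : ∀ j : ℕ, ∑ z ∈ ball 0 (2 ^ j * R), g z ≤ A + B * ∑ i ∈ Finset.range j, r ^ i := by
    intro j
    induction j with
    | zero => simpa using h0
    | succ j ih =>
      rw [pow_succ', mul_assoc, ← Finset.sum_sdiff (wl1_mono 0 (by omega : 2 ^ j * R ≤ _)),
        Finset.sum_range_succ, mul_add]
      linarith [h1 j]
  obtain ⟨j, hj⟩ := pow_unbounded_of_one_lt (∑ z ∈ T, ‖z‖) (one_lt_two (α := ℝ))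
  have hT : T ⊆ ball 0 (2 ^ j * R) := fun z hz => by
    have h2 := Finset.single_le_sum (f := fun z : Zd d => ‖z‖) (fun z _ => norm_nonneg z) hz
    have h3 : (1 : ℝ) ≤ R := by exact_mod_cast hR
    rw [mem_ball_zero]
    push_cast
    nlinarith [pow_pos (two_pos (α := ℝ)) j]
  refine (Finset.sum_le_sum_of_subset_of_nonneg hT fun z _ _ => hg z).trans ((key j).trans ?_)
  gcongr
  rw [← tsum_geometric_of_lt_one hr0 hr]
  exact (summable_geometric_of_lt_one hr0 hr).sum_le_tsum _ fun i _ => pow_nonneg hr0 i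

/-- `ℓ¹` bound for the `N`-th difference.  Points of `ball 0 (L h)` contribute at most
`2^N C (1 + L h)^α` (`Reg.pt` in the limit, `sum_kk_ball`); the shells `R = 2^j L h` contribute a
geometric series (`shell_bound`, `tendsto_tau_ball`, `le_of_tendsto`). -/
theorem l1_bound (d : ℕ) (hd : 1 ≤ d) {α : ℝ} (hα : 0 < α) (h1 : α < 1) (h3 : (d : ℝ) ≤ 3 * α)
    (C₁ : ℝ) :
    ∃ (N : ℕ) (C : ℝ), 0 < C ∧ ∀ (J : Sym2 (Zd d) → ℝ) (β : ℝ), (∀ e, 0 ≤ J e) → Inv J → 0 ≤ β →
      Reg α C₁ (β • J) → ∀ (i : Fin d) (h : ℕ), 1 ≤ h → ∀ T : Finset (Zd d),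
        ∑ z ∈ T, |∑ σ : Finset (Fin N), (-1 : ℝ) ^ σ.card * twoPt J β (z - σ.card • sv i h)|
          ≤ C * (h : ℝ) ^ α := by
  have hd' : (1 : ℝ) ≤ d := by exact_mod_cast hd
  obtain ⟨N, L, C₀, hL, hC₀, hsh⟩ := shell_bound d hd hα h1 h3 C₁
  obtain ⟨C₂, hC₂, hb⟩ := sum_kk_ball d (s := d - α) (by linarith) (by linarith)
  set r : ℝ := 2 ^ (α - 1) with hr
  have hr0 : 0 < r := Real.rpow_pos_of_pos two_pos _
  have hr1 : r < 1 := Real.rpow_lt_one_of_one_lt_of_neg one_lt_two (by linarith)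
  have hr2 : 0 < (1 - r)⁻¹ := inv_pos.2 (by linarith)
  have hL' : (1 : ℝ) ≤ L := by exact_mod_cast hL
  refine ⟨N, 2 ^ N * (|C₁| * C₂ * (2 * L) ^ α) + C₀ * (1 - r)⁻¹, by positivity, ?_⟩
  intro J β hJ hinv hβ hreg i h hh T
  have hh' : (1 : ℝ) ≤ h := by exact_mod_cast hh
  rw [add_mul, mul_right_comm C₀]
  refine wl1_sum (fun z => abs_nonneg _) (R := L * h) (Nat.mul_pos hL hh) (by positivity) hr0.le
    hr1 ?_ (fun j => ?_) T
  · have hpt : ∀ x z, twoPt J β (z - x) ≤ |C₁| * kk (d - α) (z - x) := fun x z =>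
      le_of_tendsto' (tendsto_tau_ball hJ hinv hβ x z) fun M => (hreg.pt _ x z).trans
        (mul_le_mul_of_nonneg_right (le_abs_self _) (kk_pos _ _).le)
    calc ∑ z ∈ ball 0 (L * h),
          |∑ σ : Finset (Fin N), (-1 : ℝ) ^ σ.card * twoPt J β (z - σ.card • sv i h)|
        ≤ ∑ z ∈ ball 0 (L * h), ∑ σ : Finset (Fin N),
            |C₁| * kk (d - α) (z - σ.card • sv i h) := by
          refine Finset.sum_le_sum fun z _ => (Finset.abs_sum_le_sum_abs _ _).trans
            (Finset.sum_le_sum fun σ _ => ?_)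
          rw [abs_mul, abs_pow, abs_neg, abs_one, one_pow, one_mul,
            abs_of_nonneg (subcrit_twoPt_nonneg _ _)]
          exact hpt _ _
      _ ≤ ∑ _σ : Finset (Fin N), |C₁| * C₂ * (2 * L) ^ α * (h : ℝ) ^ α := by
          rw [Finset.sum_comm]
          refine Finset.sum_le_sum fun σ _ => ?_
          rw [← Finset.mul_sum, mul_assoc, mul_assoc, ← Real.mul_rpow (by positivity)
            (by positivity)]
          refine mul_le_mul_of_nonneg_left ((hb _ 0 _).trans ?_) (abs_nonneg _)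
          rw [sub_sub_cancel]
          gcongr
          push_cast
          nlinarith
      _ = _ := by
          rw [Finset.sum_const, Finset.card_univ, Fintype.card_finset, Fintype.card_fin,
            nsmul_eq_mul]
          push_cast
          ring
  · have hR : L * h ≤ 2 ^ j * (L * h) := Nat.le_mul_of_pos_left _ (by positivity)
    refine le_trans (le_of_tendsto (tendsto_finsetSum _ fun z _ =>
      (tendsto_finsetSum _ fun σ _ => (tendsto_tau_ball hJ hinv hβ _ z).const_mul _).abs)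
      ((eventually_ge_atTop _).mono fun M hM => hsh _ hreg i h _ M hh hR hM)) ?_
    have h4 : ((2 : ℝ) ^ j * L) ^ (α - 1) ≤ r ^ j := by
      rw [hr, ← Real.rpow_mul_natCast two_pos.le, mul_comm (α - 1), Real.rpow_natCast_mul
        two_pos.le]
      exact Real.rpow_le_rpow_of_nonpos (by positivity)
        (le_mul_of_one_le_right (by positivity) hL') (by linarith)
    rw [Real.rpow_sub_one (by positivity)] at h4
    push_cast
    rw [← mul_assoc (2 ^ j : ℝ), Real.mul_rpow (by positivity) (by positivity)]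
    calc C₀ * (((2 : ℝ) ^ j * L) ^ α * (h : ℝ) ^ α) * (h / (2 ^ j * L * h))
        = C₀ * (h : ℝ) ^ α * (((2 : ℝ) ^ j * L) ^ α / (2 ^ j * L)) := by field_simp
      _ ≤ _ := by gcongr

end Pool.Agent.Lib.MP_6fc7d9_pr
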