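import Pool.Agent.Lib.MP_6fc7d9_pr.WDefs

set_option linter.unusedSectionVars false

namespace Pool.Agent.Lib.MP_6fc7d9_pr
open Finset

variable {V : Type*} [DecidableEq V] {ι : Type*} [Fintype ι] [DecidableEq ι]

/-- outcomes containing an element of probability zero can be ignored -/
theorem Ex_mono_supp {ε : Type*} [DecidableEq ε] {F : Finset ε} {p : ε → ℝ} (h0 : ∀ e, 0 ≤ p e)
    (h1 : ∀ e, p e ≤ 1) {f g : Finset ε → ℝ}
    (h : ∀ ω ⊆ F, (∀ e ∈ ω, p e ≠ 0) → f ω ≤ g ω) : Ex F p f ≤ Ex F p g := by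
  refine Finset.sum_le_sum fun ω hω => ?_
  by_cases hz : ∀ e ∈ ω, p e ≠ 0
  · exact smul_le_smul_of_nonneg_left (h ω (Finset.mem_powerset.mp hω) hz) (wt_nonneg h0 h1 ω)
  · push Not at hz
    obtain ⟨e, he, hp⟩ := hz
    have : wt F p ω = 0 := by
      unfold wt
      rw [Finset.prod_eq_zero he hp, zero_mul]
    rw [this, zero_smul, zero_smul]

/-- two independent layers (induction on `F`, `Ex_insert`) -/
theorem Ex_add_layers (F : Finset (Sym2 V)) (w κ : Sym2 V → ℝ) (f : Finset (Sym2 V) → ℝ) :
    Ex F (pw (w + κ)) f = Ex F (pw w) fun ω₁ => Ex F (pw κ) fun ω₂ => f (ω₁ ∪ ω₂) := by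
  induction F using Finset.induction_on generalizing f with
  | empty => simp [Ex_empty]
  | insert e F he ih =>
    rw [Ex_insert he, Ex_insert he, ih, ih]
    simp only [Ex_insert he, Finset.insert_union, Finset.union_insert, Finset.insert_idem]
    rw [Ex_add, Ex_add, Ex_smul, Ex_smul, Ex_smul]
    simp only [smul_eq_mul, pw, Pi.add_apply, neg_add, Real.exp_add]
    ring

lemma wmerge_zero (F : Finset (Sym2 V)) (f : Finset (Sym2 V) → ℝ) :
    Ex F (pw (0 : Sym2 V → ℝ)) f = f ∅ := by
  induction F using Finset.induction_on with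
  | empty => exact Ex_empty _ _
  | insert e F he ih => rw [Ex_insert he, ih]; simp [pw]

lemma wmerge_aux {Λ : Type*} [DecidableEq Λ] (F : Finset (Sym2 V)) (k : Λ → Sym2 V → ℝ)
    (D : Λ → Prop) [DecidablePred D] (L : Finset Λ) (f : Finset (Sym2 V) → ℝ) :
    Ex (L ×ˢ F) (fun p : Λ × Sym2 V => pw (k p.1) p.2)
        (fun Ω => f ((Ω.filter fun p => D p.1).image Prod.snd))
      = Ex F (pw (∑ l ∈ L.filter D, k l)) f := by
  induction L using Finset.induction_on generalizing f with
  | empty => simp [Ex_empty, wmerge_zero]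
  | insert l L hl ih =>
    let j : Sym2 V ↪ Λ × Sym2 V := ⟨fun e => (l, e), fun a b h => (Prod.ext_iff.mp h).2⟩
    have hU : insert l L ×ˢ F = F.map j ∪ L ×ˢ F := by
      ext ⟨a, e⟩
      simp only [Finset.mem_product, Finset.mem_insert, Finset.mem_union, Finset.mem_map, j,
        Function.Embedding.coeFn_mk, Prod.mk.injEq]
      constructor
      · rintro ⟨h | h, h'⟩
        · exact Or.inl ⟨e, h', h.symm, rfl⟩
        · exact Or.inr ⟨h, h'⟩
      · rintro (⟨e', h, h1, h2⟩ | ⟨h, h'⟩)
        · exact ⟨Or.inl h1.symm, h2 ▸ h⟩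
        · exact ⟨Or.inr h, h'⟩
    have hD : Disjoint (F.map j) (L ×ˢ F) := by
      rw [Finset.disjoint_left]
      intro p hp hp'
      obtain ⟨e, -, rfl⟩ := Finset.mem_map.mp hp
      exact hl (Finset.mem_product.mp hp').1
    rw [hU, Ex_union hD, Ex_map]
    by_cases hDl : D l
    · have h1 : ∀ (ω : Finset (Sym2 V)) (Ω : Finset (Λ × Sym2 V)),
          ((ω.map j ∪ Ω).filter fun p => D p.1).image Prod.snd
            = ω ∪ (Ω.filter fun p => D p.1).image Prod.snd := by
        intro ω Ω
        rw [Finset.filter_union, Finset.image_union]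
        congr 1
        ext e
        simp only [Finset.mem_image, Finset.mem_filter, Finset.mem_map, j,
          Function.Embedding.coeFn_mk]
        constructor
        · rintro ⟨p, ⟨⟨e', he', rfl⟩, -⟩, rfl⟩
          exact he'
        · intro he
          exact ⟨(l, e), ⟨⟨e, he, rfl⟩, hDl⟩, rfl⟩
      simp only [h1]
      have hl' : l ∉ L.filter D := fun h => hl (Finset.mem_filter.mp h).1
      rw [Finset.filter_insert, if_pos hDl, Finset.sum_insert hl', Ex_add_layers]
      exact Ex_congr fun ω _ => ih fun ω₂ => f (ω ∪ ω₂)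
    · have h1 : ∀ (ω : Finset (Sym2 V)) (Ω : Finset (Λ × Sym2 V)),
          ((ω.map j ∪ Ω).filter fun p => D p.1).image Prod.snd
            = (Ω.filter fun p => D p.1).image Prod.snd := by
        intro ω Ω
        rw [Finset.filter_union, Finset.filter_false_of_mem, Finset.empty_union]
        intro p hp
        obtain ⟨e, -, rfl⟩ := Finset.mem_map.mp hp
        exact hDl
      simp only [h1]
      rw [Ex_const, Finset.filter_insert, if_neg hDl]
      exact ih f

/-- forgetting the labels (induction on `S` and `Ex_add_layers`, or induction on the pairs) -/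
theorem Ex_edges (U : Finset V) (base : Sym2 V → ℝ) (ext : ι → Sym2 V → ℝ) (S : Finset ι)
    (f : Finset (Sym2 V) → ℝ) :
    Ex (labF ι U) (labP base ext) (fun Ω => f (edges Ω S))
      = Ex U.sym2 (pw (base + ∑ m ∈ S, ext m)) f := by
  have h := wmerge_aux U.sym2 (layK base ext) (fun l : Option ι => l = none ∨ ∃ m ∈ S, l = some m)
    Finset.univ f
  have h2 : (Finset.univ.filter fun l : Option ι => l = none ∨ ∃ m ∈ S, l = some m)
      = Finset.insertNone S := by
    ext l
    cases l with
    | none => simp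
    | some m => simp
  rw [h2, Finset.sum_insertNone] at h
  exact h

theorem edges_univ (Ω : Finset (Option ι × Sym2 V)) : edges Ω Finset.univ = allE Ω := by
  unfold edges allE
  rw [Finset.filter_true_of_mem]
  rintro ⟨l, e⟩ _
  cases l with
  | none => exact Or.inl rfl
  | some m => exact Or.inr ⟨m, Finset.mem_univ _, rfl⟩

/-- increasing functions of a cluster of the labelled configuration -/
theorem Ex_allE_le {w base : Sym2 V → ℝ} {ext : ι → Sym2 V → ℝ} {A : ι → Finset V}
    (hL : Lay w base ext A) (U : Finset V) (x : V) {H : Finset V → ℝ} (hH : Monotone H) :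
    Ex (labF ι U) (labP base ext) (fun Ω => H (cl (allE Ω) U {x})) ≤ EK w U {x} H := by
  have h := Ex_edges U base ext Finset.univ fun ω => H (cl ω U {x})
  simp only [edges_univ] at h
  rw [h]
  refine EK_mono_dom (w := base + ∑ m, ext m) (fun e => ?_) (fun e => ?_) subset_rfl subset_rfl hH
  · rw [Pi.add_apply, Finset.sum_apply]
    exact add_nonneg (hL.base_nonneg e) (Finset.sum_nonneg fun m _ => hL.ext_nonneg m e)
  · rw [Pi.add_apply, Finset.sum_apply]
    exact hL.dom e

theorem labP_nonneg {w base : Sym2 V → ℝ} {ext : ι → Sym2 V → ℝ} {A : ι → Finset V}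
    (hL : Lay w base ext A) (p : Option ι × Sym2 V) : 0 ≤ labP base ext p := by
  obtain ⟨l, e⟩ := p
  cases l with
  | none => exact pw_nonneg hL.base_nonneg e
  | some m => exact pw_nonneg (hL.ext_nonneg m) e

theorem labP_le_one (base : Sym2 V → ℝ) (ext : ι → Sym2 V → ℝ) (p : Option ι × Sym2 V) :
    labP base ext p ≤ 1 := pw_le_one _ _

theorem allowed_of_supp {w base : Sym2 V → ℝ} {ext : ι → Sym2 V → ℝ} {A : ι → Finset V}
    (hL : Lay w base ext A) {Ω : Finset (Option ι × Sym2 V)}
    (h : ∀ p ∈ Ω, labP base ext p ≠ 0) : Allowed A Ω := by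
  rintro ⟨l, e⟩ hp m x hx hxe
  have h1 := h _ hp
  obtain ⟨y, rfl⟩ := Sym2.mem_iff_exists.mp hxe
  by_contra hne
  apply h1
  cases l with
  | none => simp [labP, layK, pw, hL.base_zero m x hx y]
  | some m' =>
    have hm : m' ≠ m := fun h => hne (by rw [h])
    simp [labP, layK, pw, hL.ext_zero m' m hm x hx y]

end Pool.Agent.Lib.MP_6fc7d9_pr
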