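import Pool.Agent.Lib.MP_6fc7d9_pr.WTight
import Pool.Agent.Lib.MP_6fc7d9_pr.WMerge

set_option linter.unusedSectionVars false

namespace Pool.Agent.Lib.MP_6fc7d9_pr
open Finset

variable {V : Type*} [DecidableEq V]

/-- probability that no element of `T` is chosen -/
lemma wmlem_disj {ε : Type*} [DecidableEq ε] {F T : Finset ε} (h : T ⊆ F) (p : ε → ℝ) :
    Ex F p (fun ω => ind (Disjoint ω T)) = ∏ e ∈ T, (1 - p e) := by
  rw [Ex_ambient h p _ (fun ω => ind_congr (by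
    simp only [Finset.disjoint_left, Finset.mem_inter]
    exact ⟨fun H a ha hT => H ⟨ha, hT⟩ hT, fun H a ha => H ha.1⟩))]
  unfold Ex
  beta_reduce
  rw [Finset.sum_eq_single ∅]
  · rw [ind_pos (Finset.disjoint_empty_left _)]; simp [wt]
  · intro ω hω hne
    have hω' : ω ⊆ T := Finset.mem_powerset.mp hω
    obtain ⟨e, he⟩ := Finset.nonempty_iff_ne_empty.mpr hne
    rw [ind_neg fun H => Finset.disjoint_left.mp H he (hω' he), smul_zero]
  · intro H; exact absurd (Finset.empty_mem_powerset _) H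

lemma wmlem_blockK_nonneg {κ : ℝ} (hκ : 0 ≤ κ) (B : Finset V) (e : Sym2 V) : 0 ≤ blockK κ B e := by
  unfold blockK; split_ifs; exacts [hκ, le_rfl]

/-- probability that the second layer has no pair between two large disjoint pieces -/
lemma wmlem_pair {U B P Q : Finset V} (hB : B ⊆ U) (hP : P ⊆ B) (hQ : Q ⊆ B) (hPQ : Disjoint P Q)
    {κ a : ℝ} (hκ : 0 ≤ κ) (ha : 0 < a) (haP : a ≤ P.card) (haQ : a ≤ Q.card) :
    Ex U.sym2 (pw (blockK κ B)) (fun ω => ind (∀ u ∈ P, ∀ v ∈ Q, s(u, v) ∉ ω))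
      ≤ Real.exp (-(κ * a ^ 2)) := by
  set T : Finset (Sym2 V) := (P ×ˢ Q).image fun z => s(z.1, z.2) with hT
  have hTU : T ⊆ U.sym2 := by
    intro e he
    obtain ⟨z, hz, rfl⟩ := Finset.mem_image.mp he
    obtain ⟨h1, h2⟩ := Finset.mem_product.mp hz
    exact Finset.mk_mem_sym2_iff.mpr ⟨hB (hP h1), hB (hQ h2)⟩
  have h1 : (fun ω : Finset (Sym2 V) => ind (∀ u ∈ P, ∀ v ∈ Q, s(u, v) ∉ ω))
      = fun ω => ind (Disjoint ω T) := by
    funext ω
    refine ind_congr ⟨fun H => ?_, fun H u hu v hv he => ?_⟩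
    · refine Finset.disjoint_left.mpr fun e he heT => ?_
      obtain ⟨z, hz, rfl⟩ := Finset.mem_image.mp heT
      obtain ⟨h1, h2⟩ := Finset.mem_product.mp hz
      exact H _ h1 _ h2 he
    · exact Finset.disjoint_left.mp H he
        (Finset.mem_image.mpr ⟨(u, v), Finset.mem_product.mpr ⟨hu, hv⟩, rfl⟩)
  have hcard : T.card = P.card * Q.card := by
    rw [hT, Finset.card_image_of_injOn, Finset.card_product]
    intro z hz z' hz' hzz
    obtain ⟨h1, h2⟩ := Finset.mem_product.mp (Finset.mem_coe.mp hz)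
    obtain ⟨h3, h4⟩ := Finset.mem_product.mp (Finset.mem_coe.mp hz')
    rcases Sym2.eq_iff.mp hzz with ⟨e1, e2⟩ | ⟨e1, e2⟩
    · exact Prod.ext e1 e2
    · exact absurd (e1 ▸ h4) (Finset.disjoint_left.mp hPQ h1)
  have h2 : ∀ e ∈ T, 1 - pw (blockK κ B) e = Real.exp (-κ) := by
    intro e he
    obtain ⟨z, hz, rfl⟩ := Finset.mem_image.mp he
    obtain ⟨h1, h2⟩ := Finset.mem_product.mp hz
    have hne : z.1 ≠ z.2 := fun h => Finset.disjoint_left.mp hPQ h1 (h ▸ h2)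
    have : blockK κ B s(z.1, z.2) = κ := by
      unfold blockK
      rw [if_pos ⟨Finset.mk_mem_sym2_iff.mpr ⟨hP h1, hQ h2⟩, by simpa using hne⟩]
    simp [pw, this]
  rw [h1, wmlem_disj hTU, Finset.prod_congr rfl h2, Finset.prod_const, ← Real.exp_nat_mul, hcard]
  apply Real.exp_le_exp.mpr
  have h3 : a ^ 2 ≤ (P.card : ℝ) * Q.card := by
    rw [sq]; exact mul_le_mul haP haQ ha.le (ha.le.trans haP)
  push_cast
  nlinarith [mul_le_mul_of_nonneg_left h3 hκ]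

/-- the second layer merges the large pieces with probability at least one half -/
lemma wmlem_second {I : Type*} [Fintype I] {U B : Finset V} (hB : B ⊆ U) (Bj : I → Finset V)
    (hBj : ∀ j, Bj j ⊆ B) (hdis : ∀ j j', j ≠ j' → Disjoint (Bj j) (Bj j')) {κ a : ℝ} (hκ : 0 ≤ κ)
    (ha : 0 < a) (hexp : Fintype.card I * Real.exp (-(κ * a ^ 2)) ≤ 1 / 2) (ω₁ : Finset (Sym2 V))
    (J : Finset I) (hJ : J.Nonempty)
    (hbig : ∀ j ∈ J, ∃ x, a ≤ ∑ y ∈ cl ω₁ U {x}, ind (y ∈ Bj j)) {r : ℝ} (hr : r ≤ J.card * a) :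
    1 / 2 ≤ Ex U.sym2 (pw (blockK κ B))
      fun ω₂ => ind (∃ x, r ≤ ∑ y ∈ cl (ω₁ ∪ ω₂) U {x}, ind (y ∈ B)) := by
  classical
  obtain ⟨j₀, hj₀⟩ := hJ
  obtain ⟨x₀, -⟩ := hbig j₀ hj₀
  have : Nonempty V := ⟨x₀⟩
  choose! x hx using hbig
  set P : I → Finset V := fun j => cl ω₁ U {x j} ∩ Bj j with hP
  have hPa : ∀ j ∈ J, a ≤ (P j).card := fun j hj => by
    have := hx j hj
    rwa [sum_ind_mem] at this
  have hPB : ∀ j, P j ⊆ B := fun j => Finset.inter_subset_right.trans (hBj j)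
  have hPd : ∀ j j', j ≠ j' → Disjoint (P j) (P j') := fun j j' h =>
    (hdis j j' h).mono Finset.inter_subset_right Finset.inter_subset_right
  have h0 := pw_nonneg (wmlem_blockK_nonneg hκ B)
  have h1 := pw_le_one (blockK κ B)
  have key : ∀ ω₂ : Finset (Sym2 V),
      1 - ∑ j ∈ J.erase j₀, ind (∀ u ∈ P j₀, ∀ v ∈ P j, s(u, v) ∉ ω₂)
        ≤ ind (∃ x, r ≤ ∑ y ∈ cl (ω₁ ∪ ω₂) U {x}, ind (y ∈ B)) := by
    intro ω₂
    by_cases H : ∃ j ∈ J.erase j₀, ∀ u ∈ P j₀, ∀ v ∈ P j, s(u, v) ∉ ω₂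
    · obtain ⟨j, hj, H⟩ := H
      have h2 : ind (∀ u ∈ P j₀, ∀ v ∈ P j, s(u, v) ∉ ω₂)
          ≤ ∑ j ∈ J.erase j₀, ind (∀ u ∈ P j₀, ∀ v ∈ P j, s(u, v) ∉ ω₂) :=
        Finset.single_le_sum (f := fun j => ind (∀ u ∈ P j₀, ∀ v ∈ P j, s(u, v) ∉ ω₂))
          (fun j _ => ind_nonneg _) hj
      rw [ind_pos H] at h2
      linarith [ind_nonneg (∃ x, r ≤ ∑ y ∈ cl (ω₁ ∪ ω₂) U {x}, ind (y ∈ B))]
    · push Not at H
      have hsub : ∀ j ∈ J, P j ⊆ cl (ω₁ ∪ ω₂) U {x j₀} := by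
        intro j hj
        have hm : ∀ i, cl ω₁ U {x i} ⊆ cl (ω₁ ∪ ω₂) U {x i} := fun i =>
          cl_mono Finset.subset_union_left subset_rfl subset_rfl
        by_cases hjj : j = j₀
        · rw [hjj]; exact Finset.inter_subset_left.trans (hm j₀)
        · obtain ⟨u, hu, v, hv, he⟩ := H j (Finset.mem_erase.mpr ⟨hjj, hj⟩)
          have hv' : v ∈ cl (ω₁ ∪ ω₂) U {x j₀} :=
            cl_step (hm j₀ (Finset.mem_inter.mp hu).1) (hB (hPB j hv))
              (Finset.mem_union_right _ he)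
          have hv'' : v ∈ cl (ω₁ ∪ ω₂) U {x j} := hm j (Finset.mem_inter.mp hv).1
          refine Finset.inter_subset_left.trans ((hm j).trans ?_)
          rw [← cl_eq_of_mem hv'']
          exact cl_trans hv'
      have hcard : r ≤ ∑ y ∈ cl (ω₁ ∪ ω₂) U {x j₀}, ind (y ∈ B) := by
        rw [sum_ind_mem]
        have h3 : J.biUnion P ⊆ cl (ω₁ ∪ ω₂) U {x j₀} ∩ B :=
          Finset.biUnion_subset.mpr fun j hj => Finset.subset_inter (hsub j hj) (hPB j)
        have h4 : (J.biUnion P).card = ∑ j ∈ J, (P j).card :=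
          Finset.card_biUnion fun j _ j' _ h => hPd j j' h
        have h5 : (J.card : ℝ) * a ≤ ∑ j ∈ J, ((P j).card : ℝ) := by
          have := Finset.card_nsmul_le_sum J (fun j => ((P j).card : ℝ)) a hPa
          rwa [nsmul_eq_mul] at this
        have h6 : ((J.biUnion P).card : ℝ) ≤ ((cl (ω₁ ∪ ω₂) U {x j₀} ∩ B).card : ℝ) := by
          exact_mod_cast Finset.card_le_card h3
        rw [h4] at h6
        push_cast at h6
        linarith
      rw [ind_pos ⟨x j₀, hcard⟩]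
      linarith [Finset.sum_nonneg (s := J.erase j₀)
        (f := fun j => ind (∀ u ∈ P j₀, ∀ v ∈ P j, s(u, v) ∉ ω₂)) fun j _ => ind_nonneg _]
  refine le_trans ?_ (Ex_mono h0 h1 fun ω _ => key ω)
  rw [Ex_sub, Ex_const, Ex_sum]
  have h7 : ∑ j ∈ J.erase j₀, Ex U.sym2 (pw (blockK κ B))
      (fun ω₂ => ind (∀ u ∈ P j₀, ∀ v ∈ P j, s(u, v) ∉ ω₂))
      ≤ (J.erase j₀).card • Real.exp (-(κ * a ^ 2)) :=
    Finset.sum_le_card_nsmul _ _ _ fun j hj =>
      wmlem_pair hB (hPB j₀) (hPB j) (hPd _ _ (Finset.mem_erase.mp hj).1.symm) hκ ha (hPa j₀ hj₀)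
        (hPa j (Finset.mem_erase.mp hj).2)
  rw [nsmul_eq_mul] at h7
  have h8 : ((J.erase j₀).card : ℝ) ≤ Fintype.card I := by
    exact_mod_cast Finset.card_le_univ _
  have h9 := mul_le_mul_of_nonneg_right h8 (Real.exp_pos (-(κ * a ^ 2))).le
  linarith

/-- Merging of large pieces.  `Ex_add_layers`.  Under `w'` the number `n` of indices `j` such that
some cluster has at least `a` points in `B j` satisfies `E n ≥ |I|/4`, `n ≤ |I|`, so
`P(n ≥ |I|/8) ≥ 1/8`.  On this event choose pieces `P j = cl ∩ B j` (disjoint, `|P j| ≥ a`) and one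
index `j₀`; for `j ≠ j₀` the probability that the second layer has no pair between `P j` and
`P j₀` is `exp (-κ |P j| |P j₀|) ≤ exp (-κ a^2)`, so with probability `≥ 1/2` all pieces lie in one
cluster of the union. -/
theorem m_lemma {I : Type*} [Fintype I] [Nonempty I] {w' : Sym2 V → ℝ} (hw' : ∀ e, 0 ≤ w' e)
    {U B : Finset V} (hB : B ⊆ U) (Bj : I → Finset V) (hBj : ∀ j, Bj j ⊆ B)
    (hdis : ∀ j j', j ≠ j' → Disjoint (Bj j) (Bj j')) {κ a : ℝ} (hκ : 0 ≤ κ) (ha : 0 < a)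
    (hexp : Fintype.card I * Real.exp (-(κ * a ^ 2)) ≤ 1 / 2) (G : Finset I)
    (hG : Fintype.card I ≤ 2 * G.card)
    (hbig : ∀ j ∈ G, 1 / 2 ≤ BigP w' U (fun y => ind (y ∈ Bj j)) a) :
    1 / 16 ≤ BigP (w' + blockK κ B) U (fun y => ind (y ∈ B)) (Fintype.card I * a / 8) := by
  classical
  set N : ℝ := (Fintype.card I : ℝ) with hN
  have hNpos : 0 < N := by rw [hN]; exact_mod_cast Fintype.card_pos
  set J : Finset (Sym2 V) → Finset I := fun ω =>
    Finset.univ.filter fun j => ∃ x, a ≤ ∑ y ∈ cl ω U {x}, ind (y ∈ Bj j) with hJ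
  have h0 := pw_nonneg hw'
  have h1 := pw_le_one w'
  have hJc : ∀ ω, ((J ω).card : ℝ) = ∑ j, ind (∃ x, a ≤ ∑ y ∈ cl ω U {x}, ind (y ∈ Bj j)) := by
    intro ω
    rw [hJ, Finset.card_filter]
    push_cast
    exact Finset.sum_congr rfl fun j _ => (ind_eq_ite _).symm
  have hE : N / 4 ≤ Ex U.sym2 (pw w') fun ω => ((J ω).card : ℝ) := by
    simp only [hJc]
    rw [Ex_sum]
    have h2 : G.card • (1 / 2 : ℝ) ≤ ∑ j ∈ G, BigP w' U (fun y => ind (y ∈ Bj j)) a :=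
      Finset.card_nsmul_le_sum _ _ _ hbig
    have h3 : ∑ j ∈ G, BigP w' U (fun y => ind (y ∈ Bj j)) a
        ≤ ∑ j, BigP w' U (fun y => ind (y ∈ Bj j)) a :=
      Finset.sum_le_sum_of_subset_of_nonneg (Finset.subset_univ _) fun j _ _ =>
        Ex_nonneg h0 h1 fun ω _ => ind_nonneg _
    have h4 : N ≤ 2 * (G.card : ℝ) := by rw [hN]; exact_mod_cast hG
    rw [nsmul_eq_mul] at h2
    unfold BigP at h2 h3
    linarith
  have hP : 1 / 8 ≤ Ex U.sym2 (pw w') fun ω => ind (N / 8 ≤ ((J ω).card : ℝ)) := by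
    have h2 : Ex U.sym2 (pw w') (fun ω => ((J ω).card : ℝ))
        ≤ Ex U.sym2 (pw w') fun ω => N / 8 + N * ind (N / 8 ≤ ((J ω).card : ℝ)) := by
      refine Ex_mono h0 h1 fun ω _ => ?_
      by_cases H : N / 8 ≤ ((J ω).card : ℝ)
      · rw [ind_pos H]
        have : ((J ω).card : ℝ) ≤ N := by rw [hN]; exact_mod_cast Finset.card_le_univ _
        linarith
      · rw [ind_neg H]; linarith [not_le.mp H]
    rw [Ex_add, Ex_const, Ex_const_mul] at h2
    by_contra H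
    have h3 := mul_lt_mul_of_pos_left (not_le.mp H) hNpos
    linarith
  unfold BigP
  rw [Ex_add_layers]
  have h5 : Ex U.sym2 (pw w') (fun ω => 1 / 2 * ind (N / 8 ≤ ((J ω).card : ℝ)))
      ≤ Ex U.sym2 (pw w') fun ω₁ => Ex U.sym2 (pw (blockK κ B))
        fun ω₂ => ind (∃ x, N * a / 8 ≤ ∑ y ∈ cl (ω₁ ∪ ω₂) U {x}, ind (y ∈ B)) := by
    refine Ex_mono h0 h1 fun ω _ => ?_
    by_cases H : N / 8 ≤ ((J ω).card : ℝ)
    · rw [ind_pos H, mul_one]
      have hne : (J ω).Nonempty := by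
        rw [← Finset.card_pos]
        have : (0 : ℝ) < (J ω).card := by linarith
        exact_mod_cast this
      refine wmlem_second hB Bj hBj hdis hκ ha hexp ω (J ω) hne
        (fun j hj => (Finset.mem_filter.mp hj).2) ?_
      nlinarith
    · rw [ind_neg H, mul_zero]
      exact Ex_nonneg (pw_nonneg (wmlem_blockK_nonneg hκ B)) (pw_le_one _) fun _ _ => ind_nonneg _
  rw [Ex_const_mul] at h5
  linarith

end Pool.Agent.Lib.MP_6fc7d9_pr
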