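import Pool.Agent.Lib.MP_6fc7d9_pr.WDefs

set_option linter.unusedSectionVars false

namespace Pool.Agent.Lib.MP_6fc7d9_pr
open Finset

/-- the sup norm as a natural number -/
noncomputable def nrmN {d : ℕ} (x : Zd d) : ℕ := ⌊‖x‖⌋₊

lemma nrmN_cast {d : ℕ} (x : Zd d) : (nrmN x : ℝ) = ‖x‖ := by
  obtain ⟨n, hn⟩ := exists_norm_eq_nat x
  rw [nrmN, hn, Nat.floor_natCast]

lemma pow_sub_pow_le_aux (x : ℝ) (hx : 0 ≤ x) (d : ℕ) :
    (x + 2) ^ (d + 1) - x ^ (d + 1) ≤ 2 * (d + 1) * (x + 2) ^ d := by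
  induction d with
  | zero => simp
  | succ d ih =>
    have h1 : x ^ (d + 1) ≤ (x + 2) ^ (d + 1) := pow_le_pow_left₀ hx (by linarith) _
    have h2 : (x + 2) ^ (d + 1 + 1) - x ^ (d + 1 + 1)
        = (x + 2) * ((x + 2) ^ (d + 1) - x ^ (d + 1)) + 2 * x ^ (d + 1) := by ring
    have h3 : (x + 2) * ((x + 2) ^ (d + 1) - x ^ (d + 1))
        ≤ (x + 2) * (2 * (d + 1) * (x + 2) ^ d) :=
      mul_le_mul_of_nonneg_left ih (by linarith)
    have h4 : (x + 2) * (2 * (d + 1) * (x + 2) ^ d) = 2 * (d + 1) * (x + 2) ^ (d + 1) := by ring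
    rw [h2]
    push_cast
    nlinarith

lemma card_shell_le (d : ℕ) (a : Zd d) (T : Finset (Zd d)) (n : ℕ) :
    ((T.filter fun b => nrmN (b - a) = n).card : ℝ)
      ≤ (2 * d * 2 ^ d + 1) * (1 + (n : ℝ)) ^ ((d : ℝ) - 1) := by
  have hK : (0 : ℝ) ≤ 2 * d * 2 ^ d := by positivity
  rcases n with _ | n
  · have hsub : (T.filter fun b => nrmN (b - a) = 0) ⊆ ball a 0 := by
      intro b hb
      rw [mem_filter] at hb
      rw [mem_ball, ← nrmN_cast, hb.2]
    have h1 := card_le_card hsub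
    rw [card_ball] at h1
    simp only [mul_zero, zero_add, one_pow] at h1
    have h2 : ((T.filter fun b => nrmN (b - a) = 0).card : ℝ) ≤ 1 := by exact_mod_cast h1
    simp only [Nat.cast_zero, add_zero, Real.one_rpow, mul_one]
    linarith
  · have hsub : (T.filter fun b => nrmN (b - a) = n + 1) ⊆ ball a (n + 1) \ ball a n := by
      intro b hb
      rw [mem_filter] at hb
      rw [mem_sdiff, mem_ball, mem_ball, ← nrmN_cast, hb.2]
      push_cast
      constructor <;> linarith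
    have hsub2 : ball a n ⊆ ball a (n + 1) := by
      intro b hb
      rw [mem_ball] at hb ⊢
      push_cast
      linarith
    have h1 := card_le_card hsub
    have h2 : ((ball a (n + 1) \ ball a n).card : ℝ)
        = (2 * (n : ℝ) + 1 + 2) ^ d - (2 * (n : ℝ) + 1) ^ d := by
      rw [card_sdiff_of_subset hsub2, Nat.cast_sub (card_le_card hsub2), card_ball, card_ball]
      push_cast
      ring
    have h3 : ((T.filter fun b => nrmN (b - a) = n + 1).card : ℝ)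
        ≤ (2 * (n : ℝ) + 1 + 2) ^ d - (2 * (n : ℝ) + 1) ^ d := by
      rw [← h2]; exact_mod_cast h1
    have hn : (0 : ℝ) ≤ n := Nat.cast_nonneg n
    rcases d with _ | d
    · simp only [pow_zero, sub_self] at h3
      refine h3.trans ?_
      positivity
    · have h4 := pow_sub_pow_le_aux (2 * (n : ℝ) + 1) (by positivity) d
      have h5 : (((d + 1 : ℕ) : ℝ) - 1) = (d : ℝ) := by push_cast; ring
      rw [h5, Real.rpow_natCast]
      have h6 : (2 * (n : ℝ) + 1 + 2) ^ d ≤ (2 * (1 + ((n + 1 : ℕ) : ℝ))) ^ d :=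
        pow_le_pow_left₀ (by positivity) (by push_cast; linarith) _
      rw [mul_pow] at h6
      have h7 : (0 : ℝ) ≤ (1 + ((n + 1 : ℕ) : ℝ)) ^ d := by positivity
      have h8 : (0 : ℝ) < 2 ^ d := by positivity
      have h9 : 2 * ((d : ℝ) + 1) * (2 * (n : ℝ) + 1 + 2) ^ d
          ≤ 2 * ((d : ℝ) + 1) * (2 ^ d * (1 + ((n + 1 : ℕ) : ℝ)) ^ d) :=
        mul_le_mul_of_nonneg_left h6 (by positivity)
      have h10 : 2 * ((d : ℝ) + 1) * 2 ^ d ≤ 2 * ((d + 1 : ℕ) : ℝ) * 2 ^ (d + 1) + 1 := by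
        push_cast
        have : (0 : ℝ) ≤ ((d : ℝ) + 1) * 2 ^ d := by positivity
        rw [pow_succ]
        nlinarith
      calc _ ≤ 2 * ((d : ℝ) + 1) * (2 ^ d * (1 + ((n + 1 : ℕ) : ℝ)) ^ d) := by linarith
        _ = (2 * ((d : ℝ) + 1) * 2 ^ d) * (1 + ((n + 1 : ℕ) : ℝ)) ^ d := by ring
        _ ≤ _ := mul_le_mul_of_nonneg_right h10 h7

lemma sum_kk_shell (d : ℕ) (s : ℝ) (a : Zd d) (T : Finset (Zd d)) (S : Finset ℕ)
    (hS : ∀ b ∈ T, nrmN (b - a) ∈ S) :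
    ∑ b ∈ T, kk s (b - a)
      ≤ (2 * d * 2 ^ d + 1) * ∑ n ∈ S, (1 + (n : ℝ)) ^ ((d : ℝ) - s - 1) := by
  rw [← sum_fiberwise_of_maps_to hS, mul_sum]
  refine sum_le_sum fun n _ => ?_
  have h1 : ∑ b ∈ T.filter (fun b => nrmN (b - a) = n), kk s (b - a)
      = ((T.filter fun b => nrmN (b - a) = n).card : ℝ) * (1 + (n : ℝ)) ^ (-s) := by
    rw [← nsmul_eq_mul, ← sum_const]
    refine sum_congr rfl fun b hb => ?_
    rw [mem_filter] at hb
    rw [kk, ← nrmN_cast, hb.2]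
  have hp : (0 : ℝ) < 1 + (n : ℝ) := by positivity
  rw [h1]
  calc _ ≤ ((2 * d * 2 ^ d + 1) * (1 + (n : ℝ)) ^ ((d : ℝ) - 1)) * (1 + (n : ℝ)) ^ (-s) :=
        mul_le_mul_of_nonneg_right (card_shell_le d a T n) (Real.rpow_nonneg hp.le _)
    _ = _ := by
        rw [mul_assoc, ← Real.rpow_add hp]
        congr 2
        ring

lemma sum_rpow_head {p : ℝ} (hp : 0 < p) :
    ∃ C : ℝ, 0 < C ∧ ∀ t : ℕ,
      ∑ n ∈ range (t + 1), (1 + (n : ℝ)) ^ (p - 1) ≤ C * (1 + (t : ℝ)) ^ p := by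
  rcases le_total 1 p with h1 | h1
  · refine ⟨1, one_pos, fun t => ?_⟩
    have ht : (0 : ℝ) < 1 + (t : ℝ) := by positivity
    calc _ ≤ ∑ _n ∈ range (t + 1), (1 + (t : ℝ)) ^ (p - 1) := by
          refine sum_le_sum fun n hn => ?_
          have : (n : ℝ) ≤ t := by exact_mod_cast Nat.lt_succ_iff.mp (mem_range.mp hn)
          exact Real.rpow_le_rpow (by positivity) (by linarith) (by linarith)
      _ = _ := by
          rw [sum_const, card_range, nsmul_eq_mul, Real.rpow_sub_one ht.ne']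
          push_cast
          field_simp
          ring
  · refine ⟨1 / p, by positivity, fun t => ?_⟩
    induction t with
    | zero =>
      simp only [zero_add, range_one, sum_singleton, Nat.cast_zero, add_zero, Real.one_rpow,
        mul_one]
      rw [le_div_iff₀ hp]
      linarith
    | succ t ih =>
      rw [sum_range_succ]
      set y : ℝ := 1 + ((t + 1 : ℕ) : ℝ) with hy
      have ht : (0 : ℝ) ≤ t := Nat.cast_nonneg t
      have hy1 : y = 2 + (t : ℝ) := by rw [hy]; push_cast; ring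
      have hy0 : 0 < y := by rw [hy1]; linarith
      have hb := rpow_one_add_le_one_add_mul_self (s := -(1 / y))
        (by rw [neg_le_neg_iff, div_le_one hy0]; linarith) hp.le h1
      have he : (1 + (t : ℝ)) = y * (1 + -(1 / y)) := by
        field_simp
        linarith
      have hnn : (0 : ℝ) ≤ 1 + -(1 / y) := by
        have : 1 / y ≤ 1 := by rw [div_le_one hy0]; linarith
        linarith
      have h2 : (1 + (t : ℝ)) ^ p ≤ y ^ p * (1 + p * -(1 / y)) := by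
        rw [he, Real.mul_rpow hy0.le hnn]
        exact mul_le_mul_of_nonneg_left hb (Real.rpow_nonneg hy0.le _)
      rw [Real.rpow_sub_one hy0.ne']
      have h3 : 1 / p * (y ^ p * (1 + p * -(1 / y))) + y ^ p / y = 1 / p * y ^ p := by
        field_simp
        ring
      have h4 : 1 / p * (1 + (t : ℝ)) ^ p ≤ 1 / p * (y ^ p * (1 + p * -(1 / y))) :=
        mul_le_mul_of_nonneg_left h2 (by positivity)
      linarith

lemma rpow_tail_step {q y : ℝ} (hq : 0 < q) (hy : 0 < y) :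
    q * (y + 1) ^ (-q - 1) ≤ y ^ (-q) - (y + 1) ^ (-q) := by
  have hy1 : 0 < y + 1 := by linarith
  have hr : 0 < y / (y + 1) := by positivity
  have he : y = (y + 1) * (y / (y + 1)) := by field_simp
  have hlog : Real.log (y / (y + 1)) ≤ y / (y + 1) - 1 := Real.log_le_sub_one_of_pos hr
  have h1 : 1 + q / (y + 1) ≤ (y / (y + 1)) ^ (-q) := by
    rw [Real.rpow_def_of_pos hr]
    have h2 : q / (y + 1) ≤ Real.log (y / (y + 1)) * -q := by
      have h3 : y / (y + 1) - 1 = -(1 / (y + 1)) := by field_simp; ring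
      rw [h3] at hlog
      have : q / (y + 1) = q * (1 / (y + 1)) := by ring
      nlinarith
    have := Real.add_one_le_exp (Real.log (y / (y + 1)) * -q)
    linarith
  have h4 : y ^ (-q) = (y + 1) ^ (-q) * (y / (y + 1)) ^ (-q) := by
    rw [← Real.mul_rpow hy1.le hr.le, ← he]
  have h5 : (y + 1) ^ (-q) * (1 + q / (y + 1)) ≤ (y + 1) ^ (-q) * (y / (y + 1)) ^ (-q) :=
    mul_le_mul_of_nonneg_left h1 (Real.rpow_nonneg hy1.le _)
  rw [Real.rpow_sub_one hy1.ne', h4]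
  have h6 : (y + 1) ^ (-q) * (1 + q / (y + 1))
      = (y + 1) ^ (-q) + q * ((y + 1) ^ (-q) / (y + 1)) := by ring
  linarith

lemma sum_rpow_tail {q : ℝ} (hq : 0 < q) (m k : ℕ) :
    ∑ n ∈ Ico m (m + k + 1), (1 + (n : ℝ)) ^ (-q - 1)
      ≤ (1 + (m : ℝ)) ^ (-q) + ((1 + (m : ℝ)) ^ (-q) - (1 + ((m + k : ℕ) : ℝ)) ^ (-q)) / q := by
  induction k with
  | zero =>
    simp only [add_zero, Nat.Ico_succ_singleton, sum_singleton, sub_self, zero_div]
    have hm : (0 : ℝ) ≤ m := Nat.cast_nonneg m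
    exact Real.rpow_le_rpow_of_exponent_le (by linarith) (by linarith)
  | succ k ih =>
    rw [show m + (k + 1) + 1 = (m + k + 1) + 1 by ring, sum_Ico_succ_top (by omega)]
    have hy : (0 : ℝ) < 1 + ((m + k : ℕ) : ℝ) := by positivity
    have h1 := rpow_tail_step hq hy
    have e1 : (1 + ((m + k + 1 : ℕ) : ℝ)) = 1 + ((m + k : ℕ) : ℝ) + 1 := by push_cast; ring
    have e2 : (1 + ((m + (k + 1) : ℕ) : ℝ)) = 1 + ((m + k : ℕ) : ℝ) + 1 := by push_cast; ring
    rw [e1, e2]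
    have h2 : (1 + ((m + k : ℕ) : ℝ) + 1) ^ (-q - 1)
        ≤ ((1 + ((m + k : ℕ) : ℝ)) ^ (-q) - (1 + ((m + k : ℕ) : ℝ) + 1) ^ (-q)) / q := by
      rw [le_div_iff₀ hq]
      linarith
    have h3 : ((1 + (m : ℝ)) ^ (-q) - (1 + ((m + k : ℕ) : ℝ) + 1) ^ (-q)) / q
        = ((1 + (m : ℝ)) ^ (-q) - (1 + ((m + k : ℕ) : ℝ)) ^ (-q)) / q
          + ((1 + ((m + k : ℕ) : ℝ)) ^ (-q) - (1 + ((m + k : ℕ) : ℝ) + 1) ^ (-q)) / q := by ring
    rw [h3]
    linarith

/-- Count the points with `‖b - a‖ = n` (at most `(2n+1)^d - (2n-1)^d ≤ 2 d (2n+1)^(d-1)` for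
`n ≥ 1`, `card_ball`, `exists_norm_eq_nat`), or use dyadic balls.  For `b` with `‖b - a‖ ≤ t` use the
ball centred at `a`; for the other `b` use `kk_le_of_le` and `card_ball`. -/
theorem sum_kk_ball (d : ℕ) {s : ℝ} (hs0 : 0 ≤ s) (hs : s < d) :
    ∃ C : ℝ, 0 < C ∧ ∀ (a c : Zd d) (t : ℕ),
      ∑ b ∈ ball c t, kk s (b - a) ≤ C * (1 + (t : ℝ)) ^ ((d : ℝ) - s) := by
  obtain ⟨C, hC, h⟩ := sum_rpow_head (p := (d : ℝ) - s) (by linarith)
  refine ⟨(2 * d * 2 ^ d + 1) * C + 2 ^ d, by positivity, fun a c t => ?_⟩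
  have ht : (0 : ℝ) < 1 + (t : ℝ) := by positivity
  rw [← sum_filter_add_sum_filter_not (ball c t) fun b => nrmN (b - a) ≤ t]
  have h1 := sum_kk_shell d s a ((ball c t).filter fun b => nrmN (b - a) ≤ t) (range (t + 1))
    (fun b hb => mem_range.mpr (Nat.lt_succ_of_le (mem_filter.mp hb).2))
  have h2 : (2 * (d : ℝ) * 2 ^ d + 1) * ∑ n ∈ range (t + 1), (1 + (n : ℝ)) ^ ((d : ℝ) - s - 1)
      ≤ (2 * (d : ℝ) * 2 ^ d + 1) * (C * (1 + (t : ℝ)) ^ ((d : ℝ) - s)) :=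
    mul_le_mul_of_nonneg_left (h t) (by positivity)
  have h3 : ∑ b ∈ (ball c t).filter (fun b => ¬ nrmN (b - a) ≤ t), kk s (b - a)
      ≤ ∑ _b ∈ ball c t, (1 + (t : ℝ)) ^ (-s) := by
    calc _ ≤ ∑ _b ∈ (ball c t).filter (fun b => ¬ nrmN (b - a) ≤ t), (1 + (t : ℝ)) ^ (-s) := by
          refine sum_le_sum fun b hb => kk_le_of_le hs0 (Nat.cast_nonneg t) ?_
          have := (mem_filter.mp hb).2
          rw [← nrmN_cast]
          exact_mod_cast (not_le.mp this).le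
      _ ≤ _ := sum_le_sum_of_subset_of_nonneg (filter_subset _ _)
          fun _ _ _ => Real.rpow_nonneg ht.le _
  rw [sum_const, card_ball, nsmul_eq_mul] at h3
  have h4 : (((2 * t + 1) ^ d : ℕ) : ℝ) ≤ 2 ^ d * (1 + (t : ℝ)) ^ d := by
    rw [← mul_pow]
    push_cast
    exact pow_le_pow_left₀ (by positivity) (by linarith) _
  have h5 : (((2 * t + 1) ^ d : ℕ) : ℝ) * (1 + (t : ℝ)) ^ (-s)
      ≤ 2 ^ d * (1 + (t : ℝ)) ^ ((d : ℝ) - s) := by
    rw [sub_eq_add_neg, Real.rpow_add ht, Real.rpow_natCast, ← mul_assoc]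
    exact mul_le_mul_of_nonneg_right h4 (Real.rpow_nonneg ht.le _)
  nlinarith

theorem sum_kk_tail (d : ℕ) {s : ℝ} (hs : (d : ℝ) < s) :
    ∃ C : ℝ, 0 < C ∧ ∀ (a : Zd d) (T : Finset (Zd d)) (r : ℝ), 0 ≤ r →
      (∀ b ∈ T, r ≤ ‖b - a‖) → ∑ b ∈ T, kk s (b - a) ≤ C * (1 + r) ^ ((d : ℝ) - s) := by
  have hq : 0 < s - d := by linarith
  refine ⟨(2 * d * 2 ^ d + 1) * (1 + 1 / (s - d)), by positivity, fun a T r hr hT => ?_⟩
  set m : ℕ := ⌈r⌉₊ with hm
  set k : ℕ := T.sup fun b => nrmN (b - a) with hk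
  have h1 := sum_kk_shell d s a T (Ico m (m + k + 1)) (fun b hb => by
    rw [mem_Ico]
    constructor
    · rw [hm, Nat.ceil_le, nrmN_cast]
      exact hT b hb
    · have : nrmN (b - a) ≤ k := le_sup (f := fun b => nrmN (b - a)) hb
      omega)
  have h2 := sum_rpow_tail hq m k
  have e : -(s - (d : ℝ)) = (d : ℝ) - s := by ring
  rw [e] at h2
  have h3 : (1 + (m : ℝ)) ^ ((d : ℝ) - s) ≤ (1 + r) ^ ((d : ℝ) - s) :=
    Real.rpow_le_rpow_of_nonpos (by linarith) (by linarith [Nat.le_ceil r]) (by linarith)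
  have h4 : (0 : ℝ) ≤ (1 + ((m + k : ℕ) : ℝ)) ^ ((d : ℝ) - s) :=
    Real.rpow_nonneg (by positivity) _
  have h5 : ((1 + (m : ℝ)) ^ ((d : ℝ) - s) - (1 + ((m + k : ℕ) : ℝ)) ^ ((d : ℝ) - s)) / (s - d)
      ≤ (1 + r) ^ ((d : ℝ) - s) / (s - d) :=
    div_le_div_of_nonneg_right (by linarith) hq.le
  have h6 : ∑ n ∈ Ico m (m + k + 1), (1 + (n : ℝ)) ^ ((d : ℝ) - s - 1)
      ≤ (1 + 1 / (s - d)) * (1 + r) ^ ((d : ℝ) - s) := by
    have : (1 + 1 / (s - d)) * (1 + r) ^ ((d : ℝ) - s)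
        = (1 + r) ^ ((d : ℝ) - s) + (1 + r) ^ ((d : ℝ) - s) / (s - d) := by ring
    linarith
  rw [mul_assoc]
  exact h1.trans (mul_le_mul_of_nonneg_left h6 (by positivity))

/-- Rearrangement.  If `m ≤ s` the sum is at most `m ≤ s^(1-α/d) m^(α/d)`.  Otherwise take the
natural number `r = ⌈(m/s)^(1/d)⌉`: points of `ball x r` give `s * C (1+r)^α`
(`sum_kk_ball`), the others give `m (1+r)^(α-d)`. -/
theorem rearr (d : ℕ) {α : ℝ} (hα : 0 < α) (hd : α < d) :
    ∃ C : ℝ, 0 < C ∧ ∀ (T : Finset (Zd d)) (f : Zd d → ℝ) (s m : ℝ) (x : Zd d), 0 ≤ s → 0 ≤ m →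
      (∀ a, 0 ≤ f a) → (∀ a, f a ≤ s) → ∑ a ∈ T, f a ≤ m →
      ∑ a ∈ T, f a * kk (d - α) (a - x) ≤ C * s ^ (1 - α / d) * m ^ (α / d) := by
  have hd0 : (0 : ℝ) < d := by linarith
  obtain ⟨C, hC, h⟩ := sum_kk_ball d (s := (d : ℝ) - α) (by linarith) (by linarith)
  have h3α : (0 : ℝ) < 3 ^ α := Real.rpow_pos_of_pos (by norm_num) _
  refine ⟨C * 3 ^ α + 1, by positivity, fun T f s m x hs hm hf0 hfs hfm => ?_⟩
  have hθ0 : 0 < α / d := by positivity
  have hθ1 : α / d < 1 := by rw [div_lt_one hd0]; exact hd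
  have hR : 0 ≤ s ^ (1 - α / d) * m ^ (α / d) :=
    mul_nonneg (Real.rpow_nonneg hs _) (Real.rpow_nonneg hm _)
  have hCC : 0 ≤ C * 3 ^ α := by positivity
  rw [mul_assoc]
  rcases le_or_gt m s with hms | hms
  · have h1 : ∑ a ∈ T, f a * kk (d - α) (a - x) ≤ ∑ a ∈ T, f a :=
      sum_le_sum fun a _ => mul_le_of_le_one_right (hf0 a) (kk_le_one (by linarith) _)
    have h2 : m ≤ s ^ (1 - α / d) * m ^ (α / d) := by
      calc m = m ^ (1 - α / d) * m ^ (α / d) := by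
            rw [← Real.rpow_add' hm (by simp)]
            simp
        _ ≤ _ := mul_le_mul_of_nonneg_right
            (Real.rpow_le_rpow hm hms (by linarith)) (Real.rpow_nonneg hm _)
    nlinarith
  · rcases hs.eq_or_lt with hs0 | hs0
    · have h1 : ∑ a ∈ T, f a * kk (d - α) (a - x) = 0 :=
        sum_eq_zero fun a _ => by rw [le_antisymm ((hfs a).trans hs0.ge) (hf0 a), zero_mul]
      rw [h1]
      positivity
    have hm0 : 0 < m := by linarith
    set ρ : ℝ := (m / s) ^ (1 / (d : ℝ)) with hρ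
    have hms1 : 1 ≤ m / s := by rw [le_div_iff₀ hs0]; linarith
    have hρ1 : 1 ≤ ρ := Real.one_le_rpow hms1 (by positivity)
    set r : ℕ := ⌈ρ⌉₊ with hr
    have hr1 : ρ ≤ r := Nat.le_ceil ρ
    have hr2 : (r : ℝ) < ρ + 1 := Nat.ceil_lt_add_one (by linarith)
    rw [← sum_filter_add_sum_filter_not T fun a => a ∈ ball x r]
    have h1 : ∑ a ∈ T.filter (fun a => a ∈ ball x r), f a * kk (d - α) (a - x)
        ≤ s * (C * (1 + (r : ℝ)) ^ α) := by
      have h2 := h x x r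
      rw [show (d : ℝ) - (d - α) = α by ring] at h2
      calc _ ≤ ∑ a ∈ T.filter (fun a => a ∈ ball x r), s * kk (d - α) (a - x) :=
            sum_le_sum fun a _ => mul_le_mul_of_nonneg_right (hfs a) (kk_pos _ _).le
        _ ≤ ∑ a ∈ ball x r, s * kk (d - α) (a - x) :=
            sum_le_sum_of_subset_of_nonneg (fun a ha => (mem_filter.mp ha).2)
              fun a _ _ => mul_nonneg hs (kk_pos _ _).le
        _ = s * ∑ a ∈ ball x r, kk (d - α) (a - x) := by rw [mul_sum]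
        _ ≤ _ := mul_le_mul_of_nonneg_left h2 hs
    have h3 : ∑ a ∈ T.filter (fun a => ¬ a ∈ ball x r), f a * kk (d - α) (a - x)
        ≤ m * (1 + (r : ℝ)) ^ (-((d : ℝ) - α)) := by
      have hp : 0 ≤ (1 + (r : ℝ)) ^ (-((d : ℝ) - α)) := Real.rpow_nonneg (by positivity) _
      calc _ ≤ ∑ a ∈ T.filter (fun a => ¬ a ∈ ball x r), f a * (1 + (r : ℝ)) ^ (-((d : ℝ) - α)) := by
            refine sum_le_sum fun a ha => mul_le_mul_of_nonneg_left
              (kk_le_of_le (by linarith) (Nat.cast_nonneg r) ?_) (hf0 a)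
            have := (mem_filter.mp ha).2
            rw [mem_ball] at this
            exact (not_le.mp this).le
        _ ≤ ∑ a ∈ T, f a * (1 + (r : ℝ)) ^ (-((d : ℝ) - α)) :=
            sum_le_sum_of_subset_of_nonneg (filter_subset _ _)
              fun a _ _ => mul_nonneg (hf0 a) hp
        _ = (∑ a ∈ T, f a) * (1 + (r : ℝ)) ^ (-((d : ℝ) - α)) := by rw [sum_mul]
        _ ≤ _ := mul_le_mul_of_nonneg_right hfm hp
    have hρα : ρ ^ α = (m / s) ^ (α / d) := by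
      rw [hρ, ← Real.rpow_mul (by positivity)]
      congr 1
      field_simp
    have hρβ : ρ ^ (-((d : ℝ) - α)) = (m / s) ^ (α / d - 1) := by
      rw [hρ, ← Real.rpow_mul (by positivity)]
      congr 1
      field_simp
      ring
    have hA : s * (m / s) ^ (α / d) = s ^ (1 - α / d) * m ^ (α / d) := by
      rw [Real.div_rpow hm hs, Real.rpow_sub hs0, Real.rpow_one]
      ring
    have hB : m * (m / s) ^ (α / d - 1) = s ^ (1 - α / d) * m ^ (α / d) := by
      rw [← hA, Real.rpow_sub_one (by positivity)]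
      field_simp
    have h4 : (1 + (r : ℝ)) ^ α ≤ 3 ^ α * (m / s) ^ (α / d) := by
      rw [← hρα, ← Real.mul_rpow (by norm_num) (by linarith)]
      exact Real.rpow_le_rpow (by positivity) (by linarith) hα.le
    have h5 : (1 + (r : ℝ)) ^ (-((d : ℝ) - α)) ≤ (m / s) ^ (α / d - 1) := by
      rw [← hρβ]
      exact Real.rpow_le_rpow_of_nonpos (by linarith) (by linarith) (by linarith)
    have h6 : s * (C * (1 + (r : ℝ)) ^ α) ≤ C * 3 ^ α * (s ^ (1 - α / d) * m ^ (α / d)) := by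
      rw [← hA]
      calc _ ≤ s * (C * (3 ^ α * (m / s) ^ (α / d))) :=
            mul_le_mul_of_nonneg_left (mul_le_mul_of_nonneg_left h4 hC.le) hs
        _ = _ := by ring
    have h7 : m * (1 + (r : ℝ)) ^ (-((d : ℝ) - α)) ≤ s ^ (1 - α / d) * m ^ (α / d) := by
      rw [← hB]
      exact mul_le_mul_of_nonneg_left h5 hm
    nlinarith

end Pool.Agent.Lib.MP_6fc7d9_pr
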