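import Pool.Agent.Lib.MP_6fc7d9_pr.WTight
import Pool.Agent.Lib.MP_6fc7d9_pr.WSum1

set_option linter.unusedSectionVars false

namespace Pool.Agent.Lib.MP_6fc7d9_pr
open Finset

/-- Minkowski inequality in the form needed: with `a = ∑ a i`, Jensen gives
`(∑ X i)^p ≤ a^(p-1) ∑ (a i)^(1-p) (X i)^p`. -/
theorem mink {V κ : Type*} [DecidableEq V] {w : Sym2 V → ℝ} (hw : ∀ e, 0 ≤ w e) (U R : Finset V)
    (s : Finset κ) (g : Finset V → ℝ) (hg : ∀ K, 0 ≤ g K) (X : κ → Finset V → ℝ)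
    (hX : ∀ i K, 0 ≤ X i K) (a : κ → ℝ) (ha : ∀ i ∈ s, 0 < a i) (Z : ℝ) (p : ℕ) (hp : 1 ≤ p)
    (h : ∀ i ∈ s, EK w U R (fun K => g K * X i K ^ p) ≤ Z * a i ^ p) (hZ : 0 ≤ Z) :
    EK w U R (fun K => g K * (∑ i ∈ s, X i K) ^ p) ≤ Z * (∑ i ∈ s, a i) ^ p := by
  rcases s.eq_empty_or_nonempty with hs | hs
  · subst hs
    have hp0 : p ≠ 0 := by omega
    simp only [Finset.sum_empty, zero_pow hp0, mul_zero]
    rw [EK_const]
  · set A : ℝ := ∑ i ∈ s, a i with hA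
    have hApos : 0 < A := Finset.sum_pos ha hs
    have hw1 : ∑ i ∈ s, a i / A = 1 := by
      rw [← Finset.sum_div, ← hA, div_self hApos.ne']
    have key : ∀ K, g K * (∑ i ∈ s, X i K) ^ p
        ≤ ∑ i ∈ s, (A ^ p * (a i / A) / a i ^ p) * (g K * X i K ^ p) := by
      intro K
      have h1 := Real.pow_arith_mean_le_arith_mean_pow s (fun i => a i / A)
        (fun i => X i K / a i) (fun i hi => (div_pos (ha i hi) hApos).le) hw1
        (fun i hi => div_nonneg (hX i K) (ha i hi).le) p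
      have h2 : ∑ i ∈ s, X i K = A * ∑ i ∈ s, a i / A * (X i K / a i) := by
        rw [Finset.mul_sum]
        refine Finset.sum_congr rfl fun i hi => ?_
        have := (ha i hi).ne'
        field_simp
      rw [h2, mul_pow]
      calc g K * (A ^ p * (∑ i ∈ s, a i / A * (X i K / a i)) ^ p)
          ≤ g K * (A ^ p * ∑ i ∈ s, a i / A * (X i K / a i) ^ p) :=
            mul_le_mul_of_nonneg_left (mul_le_mul_of_nonneg_left h1 (pow_nonneg hApos.le _)) (hg K)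
        _ = _ := by
            rw [Finset.mul_sum, Finset.mul_sum]
            refine Finset.sum_congr rfl fun i _ => ?_
            rw [div_pow]
            ring
    calc EK w U R (fun K => g K * (∑ i ∈ s, X i K) ^ p)
        ≤ EK w U R (fun K => ∑ i ∈ s, (A ^ p * (a i / A) / a i ^ p) * (g K * X i K ^ p)) :=
          EK_mono hw R fun K _ => key K
      _ = ∑ i ∈ s, (A ^ p * (a i / A) / a i ^ p) * EK w U R (fun K => g K * X i K ^ p) := by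
          rw [EK_sum]
          exact Finset.sum_congr rfl fun i _ => EK_const_mul _ _ _ _ _
      _ ≤ ∑ i ∈ s, (A ^ p * (a i / A) / a i ^ p) * (Z * a i ^ p) := by
          refine Finset.sum_le_sum fun i hi => mul_le_mul_of_nonneg_left (h i hi) ?_
          have := ha i hi
          positivity
      _ = ∑ i ∈ s, Z * A ^ p * (a i / A) := by
          refine Finset.sum_congr rfl fun i hi => ?_
          have := (ha i hi).ne'
          field_simp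
      _ = Z * A ^ p := by rw [← Finset.mul_sum, hw1, mul_one]

lemma wmom_young {x y : ℝ} (hx : 0 ≤ x) (hy : 0 ≤ y) (p q : ℕ) :
    x ^ p * y ^ q ≤ x ^ (p + q) + y ^ (p + q) := by
  rcases le_total x y with h | h
  · have h1 : x ^ p * y ^ q ≤ y ^ (p + q) := by
      rw [pow_add]
      exact mul_le_mul_of_nonneg_right (pow_le_pow_left₀ hx h p) (pow_nonneg hy q)
    linarith [pow_nonneg hx (p + q)]
  · have h1 : x ^ p * y ^ q ≤ x ^ (p + q) := by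
      rw [pow_add]
      exact mul_le_mul_of_nonneg_left (pow_le_pow_left₀ hy h q) (pow_nonneg hx p)
    linarith [pow_nonneg hy (p + q)]

lemma wmom_rpow1 {s m θ : ℝ} (hs : 0 < s) (hm : 0 < m) :
    (s ^ ((1 - θ) / 2) * m ^ ((1 + θ) / 2)) ^ 2 = m * (s ^ (1 - θ) * m ^ θ) := by
  have h1 : s ^ ((1 - θ) / 2) * s ^ ((1 - θ) / 2) = s ^ (1 - θ) := by
    rw [← Real.rpow_add hs]; congr 1; ring
  have h2 : m ^ ((1 + θ) / 2) * m ^ ((1 + θ) / 2) = m * m ^ θ := by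
    rw [← Real.rpow_add hm, show (1 + θ) / 2 + (1 + θ) / 2 = 1 + θ by ring, Real.rpow_add hm,
      Real.rpow_one]
  calc (s ^ ((1 - θ) / 2) * m ^ ((1 + θ) / 2)) ^ 2
      = (s ^ ((1 - θ) / 2) * s ^ ((1 - θ) / 2)) * (m ^ ((1 + θ) / 2) * m ^ ((1 + θ) / 2)) := by
        ring
    _ = _ := by rw [h1, h2]; ring

lemma wmom_rpow2 {s m θ : ℝ} (hs : 0 < s) (hm : 0 < m) :
    (s ^ ((1 - θ) / 2) * m ^ ((1 + θ) / 2)) * (s / m) ^ ((1 - θ) / 2) = s ^ (1 - θ) * m ^ θ := by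
  have h1 : s ^ ((1 - θ) / 2) * s ^ ((1 - θ) / 2) = s ^ (1 - θ) := by
    rw [← Real.rpow_add hs]; congr 1; ring
  have h2 : m ^ ((1 + θ) / 2) / m ^ ((1 - θ) / 2) = m ^ θ := by
    rw [← Real.rpow_sub hm]; congr 1; ring
  rw [Real.div_rpow hs.le hm.le, ← h1, ← h2]
  ring

/-- moments of one weight -/
lemma wmom_one (d : ℕ) {α : ℝ} (hα : 0 < α) (hd : α < d) (C₁ : ℝ) (n : ℕ) (hn : 1 ≤ n) :
    ∃ C : ℝ, 0 < C ∧ ∀ w : Sym2 (Zd d) → ℝ, (∀ e, 0 ≤ w e) →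
      (∀ U x y, tau w U x y ≤ C₁ * kk (d - α) (y - x)) →
      ∀ (U : Finset (Zd d)) (ν : Zd d → ℝ) (s m : ℝ), 0 < s → s ≤ m →
        (∀ a, 0 ≤ ν a) → (∀ a, ν a ≤ s) → ∑ a ∈ U, ν a ≤ m → ∀ x,
        EK w U {x} (fun K => (∑ a ∈ K, ν a) ^ n)
          ≤ C * (s ^ ((1 - α / d) / 2) * m ^ ((1 + α / d) / 2)) ^ n
            * (s / m) ^ ((1 - α / d) / 2) := by
  obtain ⟨Cr, hCr, hr⟩ := rearr d hα hd
  obtain ⟨Cn, hCn, hmom⟩ := moment_of_sq n hn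
  have hc : 0 < Cr * max C₁ 1 := mul_pos hCr (lt_of_lt_of_le one_pos (le_max_right _ _))
  set c := Real.sqrt (Cr * max C₁ 1) with hcdef
  have hc0 : 0 < c := Real.sqrt_pos.mpr hc
  have hc2 : c ^ 2 = Cr * max C₁ 1 := Real.sq_sqrt hc.le
  refine ⟨Cn * c ^ (n + 1), by positivity, ?_⟩
  intro w hw htau U ν s m hs hsm hν0 hνs hνm x
  have hm : 0 < m := lt_of_lt_of_le hs hsm
  set θ := α / d with hθ
  set N := s ^ ((1 - θ) / 2) * m ^ ((1 + θ) / 2) with hN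
  have hN0 : 0 < N := mul_pos (Real.rpow_pos_of_pos hs _) (Real.rpow_pos_of_pos hm _)
  set e := s ^ (1 - θ) * m ^ θ with he
  have he0 : 0 < e := mul_pos (Real.rpow_pos_of_pos hs _) (Real.rpow_pos_of_pos hm _)
  have hone : ∀ z, ∑ b ∈ U, ν b * tau w U z b ≤ c ^ 2 * e := by
    intro z
    calc ∑ b ∈ U, ν b * tau w U z b
        ≤ ∑ b ∈ U, max C₁ 1 * (ν b * kk (d - α) (b - z)) := by
          refine Finset.sum_le_sum fun b _ => ?_
          have h1 : tau w U z b ≤ max C₁ 1 * kk (d - α) (b - z) :=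
            (htau U z b).trans (mul_le_mul_of_nonneg_right (le_max_left _ _) (kk_pos _ _).le)
          calc ν b * tau w U z b ≤ ν b * (max C₁ 1 * kk (d - α) (b - z)) :=
                mul_le_mul_of_nonneg_left h1 (hν0 b)
            _ = _ := by ring
      _ = max C₁ 1 * ∑ b ∈ U, ν b * kk (d - α) (b - z) := by rw [Finset.mul_sum]
      _ ≤ max C₁ 1 * (Cr * s ^ (1 - θ) * m ^ θ) :=
          mul_le_mul_of_nonneg_left (hr U ν s m z hs.le hm.le hν0 hνs hνm)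
            (le_trans zero_le_one (le_max_right _ _))
      _ = c ^ 2 * e := by rw [hc2, he]; ring
  have hE : EK w U {x} (fun K => ∑ y ∈ K, ν y) ≤ c ^ 2 * e := by
    have h1 : EK w U {x} (fun K => ∑ y ∈ K, ν y) = ∑ b ∈ U, ν b * tau w U x b := by
      have := GG_eq_sum_tau w U x ν
      rw [GG] at this
      rw [this]
      exact Finset.sum_congr rfl fun b _ => by rw [smul_eq_mul, mul_comm]
    rw [h1]; exact hone x
  have hsq : ∑ a ∈ U, ∑ b ∈ U, ν a * ν b * tau w U a b ≤ (c * N) ^ 2 := by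
    calc ∑ a ∈ U, ∑ b ∈ U, ν a * ν b * tau w U a b
        = ∑ a ∈ U, ν a * ∑ b ∈ U, ν b * tau w U a b := by
          refine Finset.sum_congr rfl fun a _ => ?_
          rw [Finset.mul_sum]
          exact Finset.sum_congr rfl fun b _ => by ring
      _ ≤ ∑ a ∈ U, ν a * (c ^ 2 * e) :=
          Finset.sum_le_sum fun a _ => mul_le_mul_of_nonneg_left (hone a) (hν0 a)
      _ = (∑ a ∈ U, ν a) * (c ^ 2 * e) := by rw [Finset.sum_mul]
      _ ≤ m * (c ^ 2 * e) := mul_le_mul_of_nonneg_right hνm (by positivity)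
      _ = (c * N) ^ 2 := by rw [mul_pow, hN, wmom_rpow1 hs hm, he]; ring
  have h3 := hmom (Zd d) w hw U ν hν0 (c * N) (by positivity) hsq x
  have h4 : N * (s / m) ^ ((1 - θ) / 2) = e := wmom_rpow2 hs hm
  obtain ⟨k, rfl⟩ : ∃ k, n = k + 1 := ⟨n - 1, by omega⟩
  rw [Nat.add_sub_cancel] at h3
  calc EK w U {x} (fun K => (∑ a ∈ K, ν a) ^ (k + 1))
      ≤ Cn * (c * N) ^ k * EK w U {x} (fun K => ∑ y ∈ K, ν y) := h3
    _ ≤ Cn * (c * N) ^ k * (c ^ 2 * e) := mul_le_mul_of_nonneg_left hE (by positivity)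
    _ = Cn * c ^ (k + 1 + 1) * N ^ (k + 1) * (s / m) ^ ((1 - θ) / 2) := by
        rw [← h4]; ring

/-- Mixed moment of two weights, each bounded by `s j` with total mass `≤ m j`, `s j ≤ m j`.
By `rearr`, `E ν_j(K) ≤ e j := C C₁ (s j)^(1-α/d) (m j)^(α/d)` and
`∑∑ ν_j ν_j tau ≤ m j * e j =: (M j)^2`.  Use `x^p y^q ≤ x^(p+q) + y^(p+q)` for
`x = ν₁(K)/M 1`, `y = ν₂(K)/M 2`, `moment_of_sq`, and `e j / M j = √(e j / m j)`. -/
theorem mixed_moment (d : ℕ) {α : ℝ} (hα : 0 < α) (hd : α < d) (C₁ : ℝ) (p q : ℕ) (hp : 1 ≤ p) :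
    ∃ C : ℝ, 0 < C ∧ ∀ w : Sym2 (Zd d) → ℝ, (∀ e, 0 ≤ w e) →
      (∀ U x y, tau w U x y ≤ C₁ * kk (d - α) (y - x)) →
      ∀ (U : Finset (Zd d)) (ν₁ ν₂ : Zd d → ℝ) (s₁ m₁ s₂ m₂ : ℝ), 0 < s₁ → s₁ ≤ m₁ → 0 < s₂ →
        s₂ ≤ m₂ → (∀ a, 0 ≤ ν₁ a) → (∀ a, ν₁ a ≤ s₁) → ∑ a ∈ U, ν₁ a ≤ m₁ →
        (∀ a, 0 ≤ ν₂ a) → (∀ a, ν₂ a ≤ s₂) → ∑ a ∈ U, ν₂ a ≤ m₂ → ∀ x,
        EK w U {x} (fun K => (∑ a ∈ K, ν₁ a) ^ p * (∑ a ∈ K, ν₂ a) ^ q)
          ≤ C * (s₁ ^ ((1 - α / d) / 2) * m₁ ^ ((1 + α / d) / 2)) ^ p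
            * (s₂ ^ ((1 - α / d) / 2) * m₂ ^ ((1 + α / d) / 2)) ^ q
            * ((s₁ / m₁) ^ ((1 - α / d) / 2) + (s₂ / m₂) ^ ((1 - α / d) / 2)) := by
  obtain ⟨C, hC, hone⟩ := wmom_one d hα hd C₁ (p + q) (by omega)
  refine ⟨C, hC, ?_⟩
  intro w hw htau U ν₁ ν₂ s₁ m₁ s₂ m₂ hs₁ hsm₁ hs₂ hsm₂ h01 h1s h1m h02 h2s h2m x
  have hm₁ : 0 < m₁ := lt_of_lt_of_le hs₁ hsm₁
  have hm₂ : 0 < m₂ := lt_of_lt_of_le hs₂ hsm₂
  have e1 := hone w hw htau U ν₁ s₁ m₁ hs₁ hsm₁ h01 h1s h1m x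
  have e2 := hone w hw htau U ν₂ s₂ m₂ hs₂ hsm₂ h02 h2s h2m x
  set N₁ := s₁ ^ ((1 - α / d) / 2) * m₁ ^ ((1 + α / d) / 2) with hN₁
  set N₂ := s₂ ^ ((1 - α / d) / 2) * m₂ ^ ((1 + α / d) / 2) with hN₂
  have hN1 : 0 < N₁ := mul_pos (Real.rpow_pos_of_pos hs₁ _) (Real.rpow_pos_of_pos hm₁ _)
  have hN2 : 0 < N₂ := mul_pos (Real.rpow_pos_of_pos hs₂ _) (Real.rpow_pos_of_pos hm₂ _)
  set t₁ := (s₁ / m₁) ^ ((1 - α / d) / 2) with ht₁
  set t₂ := (s₂ / m₂) ^ ((1 - α / d) / 2) with ht₂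
  have key : ∀ K : Finset (Zd d), (∑ a ∈ K, ν₁ a) ^ p * (∑ a ∈ K, ν₂ a) ^ q
      ≤ (N₁ ^ p * N₂ ^ q / N₁ ^ (p + q)) * (∑ a ∈ K, ν₁ a) ^ (p + q)
        + (N₁ ^ p * N₂ ^ q / N₂ ^ (p + q)) * (∑ a ∈ K, ν₂ a) ^ (p + q) := by
    intro K
    have hx : 0 ≤ ∑ a ∈ K, ν₁ a := Finset.sum_nonneg fun a _ => h01 a
    have hy : 0 ≤ ∑ a ∈ K, ν₂ a := Finset.sum_nonneg fun a _ => h02 a
    generalize (∑ a ∈ K, ν₁ a) = X at hx ⊢
    generalize (∑ a ∈ K, ν₂ a) = Y at hy ⊢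
    have h1 := wmom_young (div_nonneg hx hN1.le) (div_nonneg hy hN2.le) p q
    have h2 := mul_le_mul_of_nonneg_left h1 (show 0 ≤ N₁ ^ p * N₂ ^ q by positivity)
    have h3 : N₁ ^ p * N₂ ^ q * ((X / N₁) ^ p * (Y / N₂) ^ q) = X ^ p * Y ^ q := by
      rw [div_pow, div_pow]
      field_simp
    rw [h3, div_pow, div_pow] at h2
    refine h2.trans (le_of_eq ?_)
    ring
  calc EK w U {x} (fun K => (∑ a ∈ K, ν₁ a) ^ p * (∑ a ∈ K, ν₂ a) ^ q)
      ≤ EK w U {x} (fun K => (N₁ ^ p * N₂ ^ q / N₁ ^ (p + q)) * (∑ a ∈ K, ν₁ a) ^ (p + q)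
        + (N₁ ^ p * N₂ ^ q / N₂ ^ (p + q)) * (∑ a ∈ K, ν₂ a) ^ (p + q)) :=
        EK_mono hw _ fun K _ => key K
    _ = (N₁ ^ p * N₂ ^ q / N₁ ^ (p + q)) * EK w U {x} (fun K => (∑ a ∈ K, ν₁ a) ^ (p + q))
        + (N₁ ^ p * N₂ ^ q / N₂ ^ (p + q)) * EK w U {x} (fun K => (∑ a ∈ K, ν₂ a) ^ (p + q)) := by
        rw [EK_add, EK_const_mul, EK_const_mul]
    _ ≤ (N₁ ^ p * N₂ ^ q / N₁ ^ (p + q)) * (C * N₁ ^ (p + q) * t₁)
        + (N₁ ^ p * N₂ ^ q / N₂ ^ (p + q)) * (C * N₂ ^ (p + q) * t₂) :=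
        add_le_add (mul_le_mul_of_nonneg_left e1 (by positivity))
          (mul_le_mul_of_nonneg_left e2 (by positivity))
    _ = C * N₁ ^ p * N₂ ^ q * (t₁ + t₂) := by
        field_simp

lemma wmom_scale (d : ℕ) {α : ℝ} (hd : α < d) {R : ℕ} (hR : 1 ≤ R) {b b' : Zd d}
    (hb : b ∈ ball 0 R) (hb' : b' ∈ ball 0 R) :
    ∃ j ∈ (Finset.range (4 * R)).filter (fun j => 2 ^ j ≤ 4 * R), b' ∈ ball b (2 ^ j) ∧
      kk (d - α) (b' - b) ≤ (2 : ℝ) ^ ((d : ℝ) - α) * ((2 : ℝ) ^ j) ^ (α - d) := by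
  obtain ⟨n, hn⟩ := exists_norm_eq_nat (b' - b)
  have h1 : ‖b' - b‖ ≤ 2 * R := by
    have := norm_sub_le b' b
    rw [mem_ball_zero] at hb hb'
    linarith
  have hn2 : n ≤ 2 * R := by
    rw [hn] at h1
    exact_mod_cast h1
  have hlt : n < 2 ^ (Nat.log 2 n + 1) := Nat.lt_pow_succ_log_self (by norm_num) n
  have hle : 2 ^ (Nat.log 2 n + 1) ≤ 2 * max n 1 := by
    rw [pow_succ, mul_comm]
    refine Nat.mul_le_mul_left 2 ?_
    rcases Nat.eq_zero_or_pos n with h0 | h0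
    · subst h0; simp
    · exact (Nat.pow_log_le_self 2 h0.ne').trans (le_max_left _ _)
  set j := Nat.log 2 n + 1 with hj
  have hj4 : 2 ^ j ≤ 4 * R := by
    refine hle.trans ?_
    rcases le_total n 1 with h | h
    · rw [max_eq_right h]; omega
    · rw [max_eq_left h]; omega
  refine ⟨j, Finset.mem_filter.mpr ⟨Finset.mem_range.mpr ?_, hj4⟩, ?_, ?_⟩
  · exact lt_of_lt_of_le (Nat.lt_two_pow_self) hj4
  · rw [mem_ball, hn]
    exact_mod_cast hlt.le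
  · have hle2 : 2 ^ j ≤ 2 * (1 + n) := by
      refine hle.trans (Nat.mul_le_mul_left 2 ?_)
      exact max_le (by omega) (by omega)
    have hle3 : (2 : ℝ) ^ j / 2 ≤ 1 + n := by
      have : ((2 ^ j : ℕ) : ℝ) ≤ ((2 * (1 + n) : ℕ) : ℝ) := by exact_mod_cast hle2
      push_cast at this
      linarith
    have hpos : (0 : ℝ) < (2 : ℝ) ^ j / 2 := by positivity
    have h5 : kk (d - α) (b' - b) ≤ ((2 : ℝ) ^ j / 2) ^ (-((d : ℝ) - α)) := by
      rw [kk, hn]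
      exact Real.rpow_le_rpow_of_nonpos hpos hle3 (by linarith)
    refine h5.trans (le_of_eq ?_)
    rw [Real.div_rpow (by positivity) (by norm_num), Real.rpow_neg (by norm_num : (0 : ℝ) ≤ 2),
      div_inv_eq_mul, neg_sub, mul_comm]

/-- Energy of a weight, by dyadic scales: for `‖b - b'‖ ≤ 2R` there is `j` with `2^j ≤ 4R` and
`‖b - b'‖ ≤ 2^j`, `kk (d-α) (b'-b) ≤ C (2^j)^(α-d)`. -/
theorem energy_le (d : ℕ) {α : ℝ} (hα : 0 < α) (hd : α < d) :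
    ∃ C : ℝ, 0 < C ∧ ∀ (R : ℕ), 1 ≤ R → ∀ (U : Finset (Zd d)) (ν : Zd d → ℝ), (∀ b, 0 ≤ ν b) →
      (∀ b, b ∉ ball 0 R → ν b = 0) →
      ∑ b ∈ U, ∑ b' ∈ U, ν b * ν b' * kk (d - α) (b' - b)
        ≤ C * ∑ j ∈ (Finset.range (4 * R)).filter (fun j => 2 ^ j ≤ 4 * R),
          ((2 : ℝ) ^ j) ^ (α - d) * ∑ b ∈ ball 0 R, ν b * ∑ b' ∈ ball b (2 ^ j), ν b' := by
  refine ⟨(2 : ℝ) ^ ((d : ℝ) - α), Real.rpow_pos_of_pos (by norm_num) _, ?_⟩
  intro R hR U ν hν hz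
  set C : ℝ := (2 : ℝ) ^ ((d : ℝ) - α) with hC
  have hC0 : 0 < C := Real.rpow_pos_of_pos (by norm_num) _
  set J := (Finset.range (4 * R)).filter (fun j => 2 ^ j ≤ 4 * R) with hJ
  have hcj : ∀ j : ℕ, 0 ≤ ((2 : ℝ) ^ j) ^ (α - d) := fun j => Real.rpow_nonneg (by positivity) _
  have hsub : ∀ f : Zd d → ℝ, (∀ b, 0 ≤ f b) → (∀ b, b ∉ ball 0 R → f b = 0) →
      ∑ b ∈ U, f b ≤ ∑ b ∈ ball 0 R, f b := by
    intro f hf hf0
    calc ∑ b ∈ U, f b = ∑ b ∈ U.filter (fun b => b ∈ ball 0 R), f b := by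
          rw [Finset.sum_filter]
          refine Finset.sum_congr rfl fun b _ => ?_
          split_ifs with h
          · rfl
          · exact hf0 b h
      _ ≤ ∑ b ∈ ball 0 R, f b :=
          Finset.sum_le_sum_of_subset_of_nonneg (fun b hb => (Finset.mem_filter.mp hb).2)
            fun b _ _ => hf b
  have hin : ∀ b ∈ ball (0 : Zd d) R, ∑ b' ∈ U, ν b * ν b' * kk (d - α) (b' - b)
      ≤ ∑ j ∈ J, C * (((2 : ℝ) ^ j) ^ (α - d) * (ν b * ∑ b' ∈ ball b (2 ^ j), ν b')) := by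
    intro b hb
    calc ∑ b' ∈ U, ν b * ν b' * kk (d - α) (b' - b)
        ≤ ∑ b' ∈ ball 0 R, ν b * ν b' * kk (d - α) (b' - b) :=
          hsub _ (fun b' => mul_nonneg (mul_nonneg (hν b) (hν b')) (kk_pos _ _).le)
            fun b' h => by rw [hz b' h]; ring
      _ ≤ ∑ b' ∈ ball 0 R, ∑ j ∈ J, C * (((2 : ℝ) ^ j) ^ (α - d)
            * (ν b * if b' ∈ ball b (2 ^ j) then ν b' else 0)) := by
          refine Finset.sum_le_sum fun b' hb' => ?_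
          obtain ⟨j, hj, hj1, hj2⟩ := wmom_scale d hd hR hb hb'
          refine le_trans ?_ (Finset.single_le_sum (f := fun j => C * (((2 : ℝ) ^ j) ^ (α - d)
            * (ν b * if b' ∈ ball b (2 ^ j) then ν b' else 0))) (fun i _ => ?_) hj)
          · simp only [if_pos hj1]
            calc ν b * ν b' * kk (d - α) (b' - b)
                ≤ ν b * ν b' * (C * ((2 : ℝ) ^ j) ^ (α - d)) :=
                  mul_le_mul_of_nonneg_left hj2 (mul_nonneg (hν b) (hν b'))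
              _ = _ := by ring
          · refine mul_nonneg hC0.le (mul_nonneg (hcj i) (mul_nonneg (hν b) ?_))
            split_ifs
            · exact hν b'
            · exact le_rfl
      _ = ∑ j ∈ J, C * (((2 : ℝ) ^ j) ^ (α - d)
            * (ν b * ∑ b' ∈ ball 0 R, if b' ∈ ball b (2 ^ j) then ν b' else 0)) := by
          rw [Finset.sum_comm]
          refine Finset.sum_congr rfl fun j _ => ?_
          rw [Finset.mul_sum, Finset.mul_sum, Finset.mul_sum]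
      _ ≤ _ := by
          refine Finset.sum_le_sum fun j _ => mul_le_mul_of_nonneg_left
            (mul_le_mul_of_nonneg_left (mul_le_mul_of_nonneg_left ?_ (hν b)) (hcj j)) hC0.le
          rw [← Finset.sum_filter]
          exact Finset.sum_le_sum_of_subset_of_nonneg (fun b hb => (Finset.mem_filter.mp hb).2)
            fun b _ _ => hν b
  calc ∑ b ∈ U, ∑ b' ∈ U, ν b * ν b' * kk (d - α) (b' - b)
      ≤ ∑ b ∈ ball 0 R, ∑ b' ∈ U, ν b * ν b' * kk (d - α) (b' - b) :=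
        hsub _ (fun b => Finset.sum_nonneg fun b' _ =>
            mul_nonneg (mul_nonneg (hν b) (hν b')) (kk_pos _ _).le)
          fun b h => Finset.sum_eq_zero fun b' _ => by rw [hz b h]; ring
    _ ≤ ∑ b ∈ ball 0 R, ∑ j ∈ J,
          C * (((2 : ℝ) ^ j) ^ (α - d) * (ν b * ∑ b' ∈ ball b (2 ^ j), ν b')) :=
        Finset.sum_le_sum hin
    _ = _ := by
        rw [Finset.sum_comm, Finset.mul_sum]
        refine Finset.sum_congr rfl fun j _ => ?_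
        rw [Finset.mul_sum, Finset.mul_sum]

end Pool.Agent.Lib.MP_6fc7d9_pr
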