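import Pool.Agent.Lib.MP_6fc7d9_pr.WPar1

set_option linter.unusedSectionVars false

namespace Pool.Agent.Lib.MP_6fc7d9_pr
open Finset

lemma wpar_geo {r : ℝ} (h0 : 0 ≤ r) (h1 : r < 1) (S : Finset ℕ) (f : ℕ → ℕ)
    (hf : Set.InjOn f S) : ∑ j ∈ S, r ^ f j ≤ (1 - r)⁻¹ := by
  rw [← sum_image (f := fun i => r ^ i) hf, ← tsum_geometric_of_lt_one h0 h1]
  exact (summable_geometric_of_lt_one h0 h1).sum_le_tsum _ fun _ _ => by positivity

lemma wpar_half_pow (κ : ℝ) (n : ℕ) :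
    (((2 : ℝ) ^ n)⁻¹) ^ κ = ((2 : ℝ) ^ (-κ)) ^ n := by
  rw [← Real.rpow_natCast, ← Real.rpow_neg (by norm_num), ← Real.rpow_mul (by norm_num),
    ← Real.rpow_natCast, ← Real.rpow_mul (by norm_num)]
  congr 1; ring

lemma wpar_two_series {β γ : ℝ} (hβ : 0 < β) (hγ : β < γ) :
    ∃ C : ℝ, 0 < C ∧ ∀ (h : ℕ), 1 ≤ h → ∀ S : Finset ℕ,
      ∑ j ∈ S, ((h : ℝ) / 2 ^ j) ^ β * (min 1 ((2 : ℝ) ^ j / h)) ^ γ ≤ C := by
  have hr1 : (2 : ℝ) ^ (-(γ - β)) < 1 :=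
    Real.rpow_lt_one_of_one_lt_of_neg (by norm_num) (by linarith)
  have hr2 : (2 : ℝ) ^ (-β) < 1 := Real.rpow_lt_one_of_one_lt_of_neg (by norm_num) (by linarith)
  have hp1 : (0 : ℝ) ≤ (2 : ℝ) ^ (-(γ - β)) := by positivity
  have hp2 : (0 : ℝ) ≤ (2 : ℝ) ^ (-β) := by positivity
  refine ⟨(1 - (2 : ℝ) ^ (-(γ - β)))⁻¹ + (1 - (2 : ℝ) ^ (-β))⁻¹,
    add_pos (inv_pos.mpr (by linarith)) (inv_pos.mpr (by linarith)), fun h hh S => ?_⟩
  set m := Nat.log 2 h with hm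
  have hh0 : (0 : ℝ) < h := by exact_mod_cast hh
  have hm1 : (2 : ℝ) ^ m ≤ h := by exact_mod_cast Nat.pow_log_le_self 2 (by omega)
  have hm2 : (h : ℝ) ≤ 2 ^ (m + 1) := by
    exact_mod_cast (Nat.lt_pow_succ_log_self (by norm_num) h).le
  rw [← sum_filter_add_sum_filter_not S fun j => j ≤ m]
  refine add_le_add ?_ ?_
  · refine le_trans (sum_le_sum fun j hj => ?_)
      (wpar_geo hp1 hr1 (S.filter fun j => j ≤ m) (fun j => m - j) fun a ha b hb hab => ?_)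
    · have hjm := (mem_filter.mp hj).2
      have h2 : (2 : ℝ) ^ j ≤ 2 ^ m := pow_le_pow_right₀ (by norm_num) hjm
      have hj0 : (0 : ℝ) < 2 ^ j := by positivity
      have hx : (0 : ℝ) < (2 : ℝ) ^ j / h := by positivity
      rw [min_eq_right ((div_le_one hh0).mpr (h2.trans hm1)), ← inv_div, Real.inv_rpow hx.le,
        ← Real.rpow_neg hx.le, ← Real.rpow_add hx, ← wpar_half_pow,
        show -β + γ = γ - β by ring]
      refine Real.rpow_le_rpow hx.le ?_ (by linarith)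
      rw [div_le_iff₀ hh0, inv_mul_eq_div, le_div_iff₀ (by positivity), ← pow_add,
        show j + (m - j) = m by omega]
      exact hm1
    · have h1 := (mem_filter.mp (mem_coe.mp ha)).2
      have h2 := (mem_filter.mp (mem_coe.mp hb)).2
      simp only at hab; omega
  · refine le_trans (sum_le_sum fun j hj => ?_)
      (wpar_geo hp2 hr2 (S.filter fun j => ¬ j ≤ m) (fun j => j - (m + 1)) fun a ha b hb hab => ?_)
    · have hjm := (mem_filter.mp hj).2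
      have h2 : (2 : ℝ) ^ (m + 1) ≤ 2 ^ j := pow_le_pow_right₀ (by norm_num) (by omega)
      have hj0 : (0 : ℝ) < 2 ^ j := by positivity
      rw [min_eq_left ((one_le_div hh0).mpr (hm2.trans h2)), Real.one_rpow, mul_one,
        ← wpar_half_pow]
      refine Real.rpow_le_rpow (by positivity) ?_ hβ.le
      rw [div_le_iff₀ hj0, inv_mul_eq_div, le_div_iff₀ (by positivity)]
      calc (h : ℝ) * 2 ^ (j - (m + 1)) ≤ 2 ^ (m + 1) * 2 ^ (j - (m + 1)) := by gcongr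
        _ = 2 ^ j := by rw [← pow_add, show m + 1 + (j - (m + 1)) = j by omega]
    · have h1 := (mem_filter.mp (mem_coe.mp ha)).2
      have h2 := (mem_filter.mp (mem_coe.mp hb)).2
      simp only at hab; omega

lemma wpar_term {D α β γ μ R t h : ℝ} (h3 : D ≤ 3 * α) (hR : 0 < R) (ht : 0 < t) (hh : 0 < h)
    (htR : t ≤ 4 * R) :
    t ^ (α - D) * (R / t) ^ β * (μ ^ 2 * (R * t) ^ ((D + α) / 2) * (min 1 (t / h)) ^ γ)
      ≤ 4 ^ ((3 * α - D) / 2) * (μ * R ^ α) ^ 2 * (R / h) ^ β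
        * ((h / t) ^ β * (min 1 (t / h)) ^ γ) := by
  have h1 : (R / t) ^ β = (R / h) ^ β * (h / t) ^ β := by
    rw [← Real.mul_rpow (by positivity) (by positivity)]
    congr 1; field_simp
  have h2 : t ^ (α - D) * (R * t) ^ ((D + α) / 2) = R ^ ((D + α) / 2) * t ^ ((3 * α - D) / 2) := by
    rw [Real.mul_rpow hR.le ht.le, mul_left_comm, ← Real.rpow_add ht]
    congr 2; ring
  have h4 : t ^ ((3 * α - D) / 2) ≤ 4 ^ ((3 * α - D) / 2) * R ^ ((3 * α - D) / 2) := by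
    rw [← Real.mul_rpow (by norm_num) hR.le]
    exact Real.rpow_le_rpow ht.le htR (by linarith)
  have h5 : R ^ ((D + α) / 2) * R ^ ((3 * α - D) / 2) = (R ^ α) ^ 2 := by
    rw [← Real.rpow_add hR, ← Real.rpow_natCast, ← Real.rpow_mul hR.le]
    congr 1; push_cast; ring
  have hm : 0 ≤ (min 1 (t / h)) ^ γ :=
    Real.rpow_nonneg (le_min zero_le_one (by positivity)) _
  calc _ = μ ^ 2 * (t ^ (α - D) * (R * t) ^ ((D + α) / 2)) * (R / h) ^ β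
        * ((h / t) ^ β * (min 1 (t / h)) ^ γ) := by rw [h1]; ring
    _ ≤ μ ^ 2 * (R ^ ((D + α) / 2) * (4 ^ ((3 * α - D) / 2) * R ^ ((3 * α - D) / 2)))
        * (R / h) ^ β * ((h / t) ^ β * (min 1 (t / h)) ^ γ) := by rw [h2]; gcongr
    _ = 4 ^ ((3 * α - D) / 2) * (μ ^ 2 * (R ^ ((D + α) / 2) * R ^ ((3 * α - D) / 2)))
        * (R / h) ^ β * ((h / t) ^ β * (min 1 (t / h)) ^ γ) := by ring
    _ = _ := by rw [h5]; ring

lemma wpar_inner (d : ℕ) {α : ℝ} (hα : 0 < α) (hd : α < d) (C₁ : ℝ) (p : ℕ) :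
    ∃ C : ℝ, 0 < C ∧ ∀ w : Sym2 (Zd d) → ℝ, (∀ e, 0 ≤ w e) →
      (∀ U x y, tau w U x y ≤ C₁ * kk (d - α) (y - x)) →
      ∀ (U : Finset (Zd d)) (R : ℕ) (ν : Zd d → ℝ), 1 ≤ R → (∀ b, 0 ≤ ν b) →
        (∀ b, b ∉ ball 0 R → ν b = 0) →
        ∑ z ∈ ball 0 R, EK w U {z} (fun K' => (∑ b ∈ K', ν b) ^ (2 * p + 1))
          ≤ C * (R : ℝ) ^ α * ((∑ b ∈ ball 0 R, ν b) *
            (∑ j ∈ (Finset.range (4 * R)).filter (fun j => 2 ^ j ≤ 4 * R),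
              ((2 : ℝ) ^ j) ^ (α - d) * ∑ b ∈ ball 0 R, ν b * ∑ b' ∈ ball b (2 ^ j), ν b') ^ p) := by
  obtain ⟨Cm, hCm, hm⟩ := moment_of_sq (2 * p + 1) (by omega)
  obtain ⟨Cb, hCb, hb⟩ := sum_kk_ball d (s := (d : ℝ) - α) (by linarith) (by linarith)
  obtain ⟨Ce, hCe, he⟩ := energy_le d hα hd
  refine ⟨Cm * ((|C₁| + 1) * Ce) ^ p * ((|C₁| + 1) * (Cb * 2 ^ α)), by positivity,
    fun w hw hτ U R ν hR hν hν0 => ?_⟩
  have hτ' : ∀ x y, tau w U x y ≤ (|C₁| + 1) * kk (d - α) (y - x) := fun x y =>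
    (hτ U x y).trans (mul_le_mul_of_nonneg_right (by linarith [le_abs_self C₁]) (kk_pos _ _).le)
  set X := ∑ j ∈ (Finset.range (4 * R)).filter (fun j => 2 ^ j ≤ 4 * R),
    ((2 : ℝ) ^ j) ^ (α - d) * ∑ b ∈ ball 0 R, ν b * ∑ b' ∈ ball b (2 ^ j), ν b' with hX
  have hX0 : 0 ≤ X := sum_nonneg fun j _ => mul_nonneg (by positivity)
    (sum_nonneg fun b _ => mul_nonneg (hν b) (sum_nonneg fun b' _ => hν b'))
  have hE : ∑ a ∈ U, ∑ b ∈ U, ν a * ν b * tau w U a b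
      ≤ Real.sqrt ((|C₁| + 1) * Ce * X) ^ 2 := by
    rw [Real.sq_sqrt (by positivity), mul_assoc]
    refine le_trans ?_ (mul_le_mul_of_nonneg_left (he R hR U ν hν hν0) (by positivity))
    rw [mul_sum]
    refine sum_le_sum fun a _ => ?_
    rw [mul_sum]
    refine sum_le_sum fun b _ => ?_
    have := mul_le_mul_of_nonneg_left (hτ' a b) (mul_nonneg (hν a) (hν b))
    linarith
  have hM : Real.sqrt ((|C₁| + 1) * Ce * X) ^ (2 * p + 1 - 1) = ((|C₁| + 1) * Ce) ^ p * X ^ p := by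
    rw [Nat.add_sub_cancel, pow_mul, Real.sq_sqrt (by positivity), mul_pow]
  have hR1 : (1 : ℝ) ≤ R := by exact_mod_cast hR
  have hball : ∀ b : Zd d, ∑ z ∈ ball 0 R, tau w U z b
      ≤ (|C₁| + 1) * (Cb * 2 ^ α) * (R : ℝ) ^ α := fun b => by
    have h1 := hb b 0 R
    rw [sub_sub_cancel] at h1
    have h2 : (1 + (R : ℝ)) ^ α ≤ 2 ^ α * (R : ℝ) ^ α := by
      rw [← Real.mul_rpow (by norm_num) (by positivity)]
      exact Real.rpow_le_rpow (by positivity) (by linarith) hα.le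
    calc _ ≤ ∑ z ∈ ball 0 R, (|C₁| + 1) * kk (d - α) (z - b) :=
          sum_le_sum fun z _ => by rw [tau_symm]; exact hτ' b z
      _ ≤ (|C₁| + 1) * (Cb * (1 + (R : ℝ)) ^ α) := by
          rw [← mul_sum]; exact mul_le_mul_of_nonneg_left h1 (by positivity)
      _ ≤ (|C₁| + 1) * (Cb * (2 ^ α * (R : ℝ) ^ α)) := by gcongr
      _ = _ := by ring
  have hU : ∑ b ∈ U, ν b ≤ ∑ b ∈ ball 0 R, ν b := by
    rw [← sum_filter_add_sum_filter_not U fun b => b ∈ ball 0 R]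
    rw [sum_eq_zero (s := U.filter fun b => b ∉ ball 0 R) fun b hb => hν0 b (mem_filter.mp hb).2,
      add_zero]
    exact sum_le_sum_of_subset_of_nonneg (fun b hb => (mem_filter.mp hb).2) fun b _ _ => hν b
  have hfirst : ∑ z ∈ ball 0 R, EK w U {z} (fun K => ∑ y ∈ K, ν y)
      ≤ (|C₁| + 1) * (Cb * 2 ^ α) * (R : ℝ) ^ α * ∑ b ∈ ball 0 R, ν b := by
    have h1 : ∀ z, EK w U {z} (fun K => ∑ y ∈ K, ν y) = ∑ y ∈ U, tau w U z y * ν y := fun z =>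
      GG_eq_sum_tau w U z ν
    simp only [h1]
    rw [sum_comm]
    calc _ ≤ ∑ y ∈ U, (|C₁| + 1) * (Cb * 2 ^ α) * (R : ℝ) ^ α * ν y := by
          refine sum_le_sum fun y _ => ?_
          rw [← sum_mul]
          exact mul_le_mul_of_nonneg_right (hball y) (hν y)
      _ ≤ _ := by rw [← mul_sum]; exact mul_le_mul_of_nonneg_left hU (by positivity)
  calc _ ≤ ∑ z ∈ ball 0 R, Cm * (((|C₁| + 1) * Ce) ^ p * X ^ p)
        * EK w U {z} (fun K => ∑ y ∈ K, ν y) := by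
        refine sum_le_sum fun z _ => ?_
        rw [← hM]
        exact hm _ w hw U ν hν _ (Real.sqrt_nonneg _) hE z
    _ ≤ Cm * (((|C₁| + 1) * Ce) ^ p * X ^ p)
        * ((|C₁| + 1) * (Cb * 2 ^ α) * (R : ℝ) ^ α * ∑ b ∈ ball 0 R, ν b) := by
        rw [← mul_sum]; exact mul_le_mul_of_nonneg_left hfirst (by positivity)
    _ = _ := by ring

/-- Inner expectation: `moment_of_sq` with `M^2 = C₁ * energy of ν`, and
`∑ z ∈ ball 0 R, E ν(K_z) ≤ C R^α ν_B`.  Then `energy_le`, `mink` with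
`a j = t^(α-d) (R/t)^(2d/p) μ^2 (R t)^((d+α)/2) (min 1 (t/h))^γ`, `t = 2^j`, `par_scale`, and
`∑_j a j ≤ C μ^2 R^(2α) (R/h)^(2d/p)`: use `(3α-d)/2 ≥ 0` and, when `2d/p < γ = η(1-α/d)/2`, two
geometric series (`t ≥ h` and `t < h`). -/
theorem par_bound (d : ℕ) {α η : ℝ} (hα : 0 < α) (hd : α < d) (h3 : (d : ℝ) ≤ 3 * α) (hη : 0 < η)
    (C₁ : ℝ) : ∃ p₀ : ℕ, ∀ p : ℕ, p₀ ≤ p →
    ∃ C : ℝ, 0 < C ∧ ∀ w : Sym2 (Zd d) → ℝ, (∀ e, 0 ≤ w e) →
      (∀ U x y, tau w U x y ≤ C₁ * kk (d - α) (y - x)) →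
      ∀ (U : Finset (Zd d)) (R h : ℕ) (μ : ℝ) (q : Zd d → Zd d → ℝ), 1 ≤ h → h ≤ R →
        0 < μ → (∀ a b, 0 ≤ q a b) → (∀ a b, q a b = q b a) →
        (∀ a b, a ∉ ball 0 R → q a b = 0) → (∀ a (T : Finset (Zd d)), ∑ b ∈ T, q a b ≤ μ) →
        (∀ a y (t : ℕ), ∑ b ∈ ball y t, q a b ≤ μ * ((1 + (t : ℝ)) / h) ^ η) → ∀ x,
        ∑ z ∈ ball 0 R, EK w U {x} (fun K => EK w U {z} fun K' =>
            (∑ a ∈ K, ∑ b ∈ K', q a b) ^ (2 * p + 1))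
          ≤ C * (R : ℝ) ^ α * (μ * (R : ℝ) ^ α) ^ (2 * p + 1) * ((R : ℝ) / h) ^ (2 * d : ℝ) := by
  have hd0 : (0 : ℝ) < d := by linarith
  set γ : ℝ := η * (1 - α / d) / 2 with hγ
  have hγ0 : 0 < γ := by
    have : α / d < 1 := (div_lt_one hd0).mpr hd
    rw [hγ]; apply div_pos (mul_pos hη (by linarith)) (by norm_num)
  refine ⟨⌊2 * d / γ⌋₊ + 1, fun p hp => ?_⟩
  have hp1 : 1 ≤ p := by omega
  have hp0 : (0 : ℝ) < p := by exact_mod_cast hp1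
  set β : ℝ := 2 * d / p with hβ
  have hβ0 : 0 < β := by positivity
  have hβγ : β < γ := by
    have h1 : 2 * d / γ < p := by
      refine (Nat.lt_floor_add_one _).trans_le ?_
      exact_mod_cast hp
    rw [hβ, div_lt_iff₀ hp0]
    rw [div_lt_iff₀ hγ0] at h1
    linarith
  obtain ⟨Ci, hCi, hi⟩ := wpar_inner d hα hd C₁ p
  obtain ⟨Cs, hCs, hs⟩ := par_scale d hα hd hη C₁ p hp1
  obtain ⟨Cg, hCg, hg⟩ := wpar_two_series hβ0 hβγ
  refine ⟨Ci * Cs * (4 ^ ((3 * α - d) / 2) * Cg) ^ p, by positivity,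
    fun w hw hτ U R h μ q hh hhR hμ hq0 hqs hqB hq1 hq2 x => ?_⟩
  have hR : 1 ≤ R := hh.trans hhR
  have hR0 : (0 : ℝ) < R := by exact_mod_cast hR
  have hh0 : (0 : ℝ) < h := by exact_mod_cast hh
  set S := (Finset.range (4 * R)).filter (fun j => 2 ^ j ≤ 4 * R) with hS
  set a : ℕ → ℝ := fun j => ((2 : ℝ) ^ j) ^ (α - d) * ((R : ℝ) / 2 ^ j) ^ β *
    (μ ^ 2 * ((R : ℝ) * 2 ^ j) ^ (((d : ℝ) + α) / 2) * (min 1 ((2 : ℝ) ^ j / h)) ^ γ) with ha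
  have ha0 : ∀ j, 0 < a j := fun j => by
    have : 0 < min 1 ((2 : ℝ) ^ j / h) := lt_min one_pos (by positivity)
    simp only [ha]; positivity
  have hpow : ∀ y : ℝ, 0 ≤ y → (y ^ β) ^ p = y ^ (2 * d : ℝ) := fun y hy => by
    rw [← Real.rpow_natCast, ← Real.rpow_mul hy, hβ]
    congr 1; field_simp
  have hsum : ∑ j ∈ S, a j
      ≤ 4 ^ ((3 * α - d) / 2) * Cg * (μ * (R : ℝ) ^ α) ^ 2 * ((R : ℝ) / h) ^ β := by
    calc _ ≤ ∑ j ∈ S, 4 ^ ((3 * α - d) / 2) * (μ * (R : ℝ) ^ α) ^ 2 * ((R : ℝ) / h) ^ β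
          * (((h : ℝ) / 2 ^ j) ^ β * (min 1 ((2 : ℝ) ^ j / h)) ^ γ) := by
          refine sum_le_sum fun j hj => wpar_term h3 hR0 (by positivity) hh0 ?_
          exact_mod_cast (mem_filter.mp hj).2
      _ ≤ 4 ^ ((3 * α - d) / 2) * (μ * (R : ℝ) ^ α) ^ 2 * ((R : ℝ) / h) ^ β * Cg := by
          rw [← mul_sum]; exact mul_le_mul_of_nonneg_left (hg h hh S) (by positivity)
      _ = _ := by ring
  have hmk := mink hw U {x} S (fun K => ∑ b ∈ ball 0 R, ∑ a ∈ K, q a b)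
    (fun K => sum_nonneg fun b _ => sum_nonneg fun a _ => hq0 a b)
    (fun j K => ((2 : ℝ) ^ j) ^ (α - d) *
      ∑ b ∈ ball 0 R, (∑ a ∈ K, q a b) * ∑ b' ∈ ball b (2 ^ j), ∑ a ∈ K, q a b')
    (fun j K => mul_nonneg (by positivity) (sum_nonneg fun b _ => mul_nonneg
      (sum_nonneg fun a _ => hq0 a b) (sum_nonneg fun b' _ => sum_nonneg fun a _ => hq0 a b')))
    a (fun j _ => ha0 j) (Cs * (μ * (R : ℝ) ^ α)) p hp1 (fun j hj => by
      have h1 := hs w hw hτ U R h (2 ^ j) μ q hh hR Nat.one_le_two_pow (mem_filter.mp hj).2 hμ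
        hq0 hqs hqB hq1 hq2 x
      push_cast at h1
      simp only [mul_pow, mul_left_comm _ ((((2 : ℝ) ^ j) ^ (α - d)) ^ p)]
      rw [EK_const_mul]
      refine (mul_le_mul_of_nonneg_left h1 (by positivity)).trans (le_of_eq ?_)
      simp only [ha]
      rw [← hγ, ← hpow ((R : ℝ) / 2 ^ j) (by positivity)]
      simp only [mul_pow]
      ring) (by positivity)
  rw [← EK_sum]
  calc _ ≤ EK w U {x} (fun K => Ci * (R : ℝ) ^ α * ((∑ b ∈ ball 0 R, ∑ a ∈ K, q a b) *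
        (∑ j ∈ S, ((2 : ℝ) ^ j) ^ (α - d) *
          ∑ b ∈ ball 0 R, (∑ a ∈ K, q a b) * ∑ b' ∈ ball b (2 ^ j), ∑ a ∈ K, q a b') ^ p)) := by
        refine EK_mono hw _ fun K _ => ?_
        have h1 := hi w hw hτ U R (fun b => ∑ a ∈ K, q a b) hR
          (fun b => sum_nonneg fun a _ => hq0 a b)
          (fun b hb => sum_eq_zero fun a _ => by rw [hqs]; exact hqB b a hb)
        refine le_trans (le_of_eq (sum_congr rfl fun z _ => EK_congr fun K' _ => ?_)) h1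
        rw [sum_comm]
    _ ≤ Ci * (R : ℝ) ^ α * (Cs * (μ * (R : ℝ) ^ α) * (∑ j ∈ S, a j) ^ p) := by
        rw [EK_const_mul]; exact mul_le_mul_of_nonneg_left hmk (by positivity)
    _ ≤ Ci * (R : ℝ) ^ α * (Cs * (μ * (R : ℝ) ^ α) *
        (4 ^ ((3 * α - d) / 2) * Cg * (μ * (R : ℝ) ^ α) ^ 2 * ((R : ℝ) / h) ^ β) ^ p) := by
        have := sum_nonneg fun j (_ : j ∈ S) => (ha0 j).le
        gcongr
    _ = _ := by
        rw [mul_pow _ (((R : ℝ) / h) ^ β), hpow _ (by positivity), mul_pow _ (_ ^ 2), ← pow_mul]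
        ring

end Pool.Agent.Lib.MP_6fc7d9_pr
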