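import Pool.Agent.Lib.MP_6fc7d9_pr.WMom

set_option linter.unusedSectionVars false

namespace Pool.Agent.Lib.MP_6fc7d9_pr
open Finset

lemma wpar1_ball_sub {d : ℕ} {b c : Zd d} {t : ℕ} (hc : c ∈ ball b t) :
    ball b t ⊆ ball c (2 * t) := by
  intro y hy
  rw [mem_ball_coord] at hc hy ⊢
  intro k
  have h1 := hc k
  have h2 := hy k
  push_cast
  constructor <;> linarith [h1.1, h1.2, h2.1, h2.2]

lemma wpar1_ball_sub' {d : ℕ} {b : Zd d} {R t : ℕ} (hb : b ∈ ball 0 R) :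
    ball b t ⊆ ball 0 (R + t) := by
  intro y hy
  rw [mem_ball_coord] at hb hy ⊢
  intro k
  have h1 := hb k
  have h2 := hy k
  simp only [Pi.zero_apply] at h1 ⊢
  push_cast
  constructor <;> linarith [h1.1, h1.2, h2.1, h2.2]

lemma wpar1_avg {d : ℕ} (f : Zd d → ℝ) (hf : ∀ b, 0 ≤ f b) {R t : ℕ} (p : ℕ) {b : Zd d}
    (hb : b ∈ ball 0 R) :
    (∑ b' ∈ ball b t, f b') ^ p ≤ (1 / (2 * (t : ℝ) + 1) ^ d) *
      ∑ c ∈ ball 0 (R + t), (∑ b' ∈ ball c (2 * t), f b') ^ p := by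
  have hpos : (0 : ℝ) < (2 * (t : ℝ) + 1) ^ d := by positivity
  have h1 : ∑ _c ∈ ball b t, (∑ b' ∈ ball b t, f b') ^ p
      ≤ ∑ c ∈ ball b t, (∑ b' ∈ ball c (2 * t), f b') ^ p := by
    refine sum_le_sum fun c hc => ?_
    refine pow_le_pow_left₀ (sum_nonneg fun b' _ => hf b') ?_ p
    exact sum_le_sum_of_subset_of_nonneg (wpar1_ball_sub hc) fun b' _ _ => hf b'
  have h2 : ∑ c ∈ ball b t, (∑ b' ∈ ball c (2 * t), f b') ^ p
      ≤ ∑ c ∈ ball 0 (R + t), (∑ b' ∈ ball c (2 * t), f b') ^ p :=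
    sum_le_sum_of_subset_of_nonneg (wpar1_ball_sub' hb) fun c _ _ =>
      pow_nonneg (sum_nonneg fun b' _ => hf b') p
  rw [sum_const, card_ball, nsmul_eq_mul] at h1
  push_cast at h1
  rw [one_div, inv_mul_eq_div, le_div_iff₀ hpos]
  linarith

lemma wpar1_pt {d : ℕ} (f : Zd d → ℝ) (hf : ∀ b, 0 ≤ f b) (R t p : ℕ) :
    (∑ b ∈ ball 0 R, f b) * (∑ b ∈ ball 0 R, f b * ∑ b' ∈ ball b t, f b') ^ p
      ≤ ∑ c ∈ ball 0 (R + t), (1 / (2 * (t : ℝ) + 1) ^ d) *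
        ((∑ b ∈ ball 0 R, f b) ^ (p + 1) * (∑ b' ∈ ball c (2 * t), f b') ^ p) := by
  have hne : (ball (0 : Zd d) R).Nonempty := ⟨0, by rw [mem_ball_zero]; simp⟩
  obtain ⟨b0, hb0, hmax⟩ := exists_max_image _ (fun b => ∑ b' ∈ ball b t, f b') hne
  have hS : 0 ≤ ∑ b ∈ ball (0 : Zd d) R, f b := sum_nonneg fun b _ => hf b
  have h1 : ∑ b ∈ ball 0 R, f b * ∑ b' ∈ ball b t, f b'
      ≤ (∑ b ∈ ball 0 R, f b) * ∑ b' ∈ ball b0 t, f b' := by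
    rw [sum_mul]
    exact sum_le_sum fun b hb => mul_le_mul_of_nonneg_left (hmax b hb) (hf b)
  have h2 : (∑ b ∈ ball 0 R, f b * ∑ b' ∈ ball b t, f b') ^ p
      ≤ (∑ b ∈ ball 0 R, f b) ^ p * (∑ b' ∈ ball b0 t, f b') ^ p := by
    rw [← mul_pow]
    exact pow_le_pow_left₀ (sum_nonneg fun b _ =>
      mul_nonneg (hf b) (sum_nonneg fun b' _ => hf b')) h1 p
  have h3 := wpar1_avg f hf (t := t) p hb0
  calc (∑ b ∈ ball 0 R, f b) * (∑ b ∈ ball 0 R, f b * ∑ b' ∈ ball b t, f b') ^ p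
      ≤ (∑ b ∈ ball 0 R, f b) * ((∑ b ∈ ball 0 R, f b) ^ p * ((1 / (2 * (t : ℝ) + 1) ^ d) *
          ∑ c ∈ ball 0 (R + t), (∑ b' ∈ ball c (2 * t), f b') ^ p)) :=
        mul_le_mul_of_nonneg_left (h2.trans (mul_le_mul_of_nonneg_left h3 (pow_nonneg hS p))) hS
    _ = _ := by
        rw [mul_sum, mul_sum, mul_sum]
        refine sum_congr rfl fun c _ => ?_
        ring

lemma wpar1_r1 (d : ℕ) {μ θ z a b : ℝ} (hμ : 0 < μ) (hθ : 0 < θ) (hz : 0 < z) (hab : a + b = 1) :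
    (μ * θ) ^ a * (μ * z ^ d) ^ b = μ * θ ^ a * z ^ ((d : ℝ) * b) := by
  rw [Real.mul_rpow hμ.le hθ.le, Real.mul_rpow hμ.le (by positivity), Real.rpow_mul hz.le,
    Real.rpow_natCast]
  have : μ ^ a * μ ^ b = μ := by rw [← Real.rpow_add hμ, hab, Real.rpow_one]
  calc μ ^ a * θ ^ a * (μ ^ b * (z ^ d) ^ b) = (μ ^ a * μ ^ b) * θ ^ a * (z ^ d) ^ b := by ring
    _ = _ := by rw [this]

lemma wpar1_r2 (d : ℕ) {μ θ z y a : ℝ} (hμ : 0 < μ) (hθ : 0 < θ) (hθ1 : θ ≤ 1) (hy : 0 < y)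
    (hyz : y ≤ z) (ha : 0 ≤ a) :
    (μ * θ / (μ * z ^ d)) ^ a ≤ y ^ (-((d : ℝ) * a)) := by
  have hz : 0 < z := hy.trans_le hyz
  have h1 : μ * θ / (μ * z ^ d) ≤ (y ^ d)⁻¹ := by
    rw [mul_div_mul_left _ _ hμ.ne', div_le_iff₀ (by positivity), inv_mul_eq_div,
      le_div_iff₀ (by positivity)]
    have : y ^ d ≤ z ^ d := pow_le_pow_left₀ hy.le hyz d
    have h0 : 0 < y ^ d := by positivity
    nlinarith
  calc (μ * θ / (μ * z ^ d)) ^ a ≤ ((y ^ d)⁻¹) ^ a :=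
        Real.rpow_le_rpow (by positivity) h1 ha
    _ = y ^ (-((d : ℝ) * a)) := by
        rw [Real.rpow_neg hy.le, Real.rpow_mul hy.le, Real.rpow_natCast, Real.inv_rpow (by positivity)]

lemma wpar1_theta {η a t h : ℝ} (hη : 0 < η) (ha : 0 ≤ a) (ht : 1 ≤ t) (hh : 0 < h) :
    (min 1 (((1 + 2 * t) / h) ^ η)) ^ a ≤ 3 ^ (η * a) * (min 1 (t / h)) ^ (η * a) := by
  have hm : 0 < min 1 (t / h) := lt_min one_pos (by positivity)
  have h1 : min 1 (((1 + 2 * t) / h) ^ η) ≤ (3 * min 1 (t / h)) ^ η := by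
    rcases le_total 1 (t / h) with h2 | h2
    · rw [min_eq_left h2]
      refine (min_le_left _ _).trans ?_
      exact Real.one_le_rpow (by norm_num) hη.le
    · rw [min_eq_right h2]
      refine (min_le_right _ _).trans ?_
      refine Real.rpow_le_rpow (by positivity) ?_ hη.le
      rw [← mul_div_assoc]
      exact div_le_div_of_nonneg_right (by linarith) hh.le
  have h0 : 0 ≤ min 1 (((1 + 2 * t) / h) ^ η) := le_min zero_le_one (by positivity)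
  calc (min 1 (((1 + 2 * t) / h) ^ η)) ^ a ≤ ((3 * min 1 (t / h)) ^ η) ^ a :=
        Real.rpow_le_rpow h0 h1 ha
    _ = _ := by
        rw [← Real.rpow_mul (by positivity), Real.mul_rpow (by norm_num) hm.le]

lemma wpar1_tail (d : ℕ) {α R t : ℝ} (hα : 0 < α) (hd : α < d) (hR : 1 ≤ R) (ht : 1 ≤ t)
    (htR : t ≤ 4 * R) :
    (2 * (R + t) + 1) ^ d * (1 / (2 * t + 1) ^ d) * R ^ (((d : ℝ) + α) / 2) *
      (R ^ (-(((d : ℝ) - α) / 2)) + t ^ (-(((d : ℝ) - α) / 2)))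
      ≤ 11 ^ d * (2 * 4 ^ d) * R ^ α * (R / t) ^ (2 * d : ℝ) := by
  have hR0 : 0 < R := by linarith
  have ht0 : 0 < t := by linarith
  have hu : 0 < R / t := by positivity
  have hu4 : 1 ≤ 4 * (R / t) := by
    rw [← mul_div_assoc, le_div_iff₀ ht0]; linarith
  have h1 : (2 * (R + t) + 1) ^ d * (1 / (2 * t + 1) ^ d) ≤ 11 ^ d * (R / t) ^ d := by
    rw [mul_one_div, ← div_pow, ← mul_pow]
    refine pow_le_pow_left₀ (by positivity) ?_ d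
    rw [← mul_div_assoc, div_le_div_iff₀ (by positivity) ht0]
    nlinarith
  have h2 : R ^ (((d : ℝ) + α) / 2) * R ^ (-(((d : ℝ) - α) / 2)) = R ^ α := by
    rw [← Real.rpow_add hR0]; congr 1; ring
  have h3 : R ^ (((d : ℝ) + α) / 2) * t ^ (-(((d : ℝ) - α) / 2))
      = R ^ α * (R / t) ^ (((d : ℝ) - α) / 2) := by
    rw [Real.div_rpow hR0.le ht0.le, Real.rpow_neg ht0.le, ← mul_div_assoc, ← Real.rpow_add hR0,
      div_eq_mul_inv _ (t ^ _)]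
    congr 2; ring
  have h4 : (R / t) ^ (((d : ℝ) - α) / 2) ≤ (4 * (R / t)) ^ d := by
    calc (R / t) ^ (((d : ℝ) - α) / 2) ≤ (4 * (R / t)) ^ (((d : ℝ) - α) / 2) :=
          Real.rpow_le_rpow hu.le (by linarith) (by linarith)
      _ ≤ (4 * (R / t)) ^ (d : ℝ) :=
          Real.rpow_le_rpow_of_exponent_le hu4 (by linarith)
      _ = _ := Real.rpow_natCast _ _
  have h5 : 1 ≤ (4 * (R / t)) ^ d := one_le_pow₀ hu4
  have h6 : (R / t) ^ (2 * d : ℝ) = (R / t) ^ d * (R / t) ^ d := by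
    rw [two_mul, Real.rpow_add hu, Real.rpow_natCast]
  have h7 : R ^ (((d : ℝ) + α) / 2) *
      (R ^ (-(((d : ℝ) - α) / 2)) + t ^ (-(((d : ℝ) - α) / 2)))
      ≤ R ^ α * (2 * (4 * (R / t)) ^ d) := by
    rw [mul_add, h2, h3]
    have : 0 < R ^ α := by positivity
    nlinarith
  calc (2 * (R + t) + 1) ^ d * (1 / (2 * t + 1) ^ d) * R ^ (((d : ℝ) + α) / 2) *
      (R ^ (-(((d : ℝ) - α) / 2)) + t ^ (-(((d : ℝ) - α) / 2)))
      = ((2 * (R + t) + 1) ^ d * (1 / (2 * t + 1) ^ d)) * (R ^ (((d : ℝ) + α) / 2) *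
        (R ^ (-(((d : ℝ) - α) / 2)) + t ^ (-(((d : ℝ) - α) / 2)))) := by ring
    _ ≤ (11 ^ d * (R / t) ^ d) * (R ^ α * (2 * (4 * (R / t)) ^ d)) :=
        mul_le_mul h1 h7 (by positivity) (by positivity)
    _ = _ := by rw [h6, mul_pow]; ring

/-- One scale.  Write `ν b = ∑ a ∈ K, q a b`, `ν_B = ∑ b ∈ ball 0 R, ν b`.  For `b ∈ ball 0 R`,
`(∑ b' ∈ ball b t, ν b')^p ≤ (2t+1)^(-d) ∑ c ∈ ball 0 (R+t), (∑ b' ∈ ball c (2t), ν b')^p`
(average over `c ∈ ball b t`), so the left side is at most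
`(2t+1)^(-d) ∑ c, E (ν_B^(p+1) (ν(ball c (2t)))^p)`.  Both factors are masses of `K` for the
deterministic weights `a ↦ ∑ b ∈ ball 0 R, q a b` (`s = μ`, `m = μ (2R+1)^d`) and
`a ↦ ∑ b ∈ ball c (2t), q a b` (`s = μ θ`, `θ = min 1 (((1+2t)/h)^η)`, `m = μ (4t+1)^d`, by
symmetry of `q`); apply `mixed_moment`. -/
theorem par_scale (d : ℕ) {α η : ℝ} (hα : 0 < α) (hd : α < d) (hη : 0 < η) (C₁ : ℝ) (p : ℕ)
    (hp : 1 ≤ p) :
    ∃ C : ℝ, 0 < C ∧ ∀ w : Sym2 (Zd d) → ℝ, (∀ e, 0 ≤ w e) →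
      (∀ U x y, tau w U x y ≤ C₁ * kk (d - α) (y - x)) →
      ∀ (U : Finset (Zd d)) (R h t : ℕ) (μ : ℝ) (q : Zd d → Zd d → ℝ), 1 ≤ h → 1 ≤ R → 1 ≤ t →
        t ≤ 4 * R → 0 < μ → (∀ a b, 0 ≤ q a b) → (∀ a b, q a b = q b a) →
        (∀ a b, a ∉ ball 0 R → q a b = 0) → (∀ a (T : Finset (Zd d)), ∑ b ∈ T, q a b ≤ μ) →
        (∀ a y (t : ℕ), ∑ b ∈ ball y t, q a b ≤ μ * ((1 + (t : ℝ)) / h) ^ η) → ∀ x,
        EK w U {x} (fun K => (∑ b ∈ ball 0 R, ∑ a ∈ K, q a b) *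
            (∑ b ∈ ball 0 R, (∑ a ∈ K, q a b) * ∑ b' ∈ ball b t, ∑ a ∈ K, q a b') ^ p)
          ≤ C * (μ * (R : ℝ) ^ α) * ((R : ℝ) / t) ^ (2 * d : ℝ) *
            (μ ^ 2 * ((R : ℝ) * t) ^ (((d : ℝ) + α) / 2) *
              (min 1 ((t : ℝ) / h)) ^ (η * (1 - α / d) / 2)) ^ p := by
  have hd0 : (0 : ℝ) < d := hα.trans hd
  obtain ⟨C, hC, hmm⟩ := mixed_moment d hα hd C₁ (p + 1) p (by omega)
  obtain ⟨a, ha⟩ : ∃ a : ℝ, a = (1 - α / d) / 2 := ⟨_, rfl⟩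
  obtain ⟨b, hb⟩ : ∃ b : ℝ, b = (1 + α / d) / 2 := ⟨_, rfl⟩
  obtain ⟨e, he⟩ : ∃ e : ℝ, e = ((d : ℝ) + α) / 2 := ⟨_, rfl⟩
  have hab : a + b = 1 := by rw [ha, hb]; ring
  have ha0 : 0 ≤ a := by
    rw [ha]
    have : α / d < 1 := (div_lt_one hd0).2 hd
    linarith
  have hdb : (d : ℝ) * b = e := by rw [hb, he]; field_simp
  have hda : (d : ℝ) * a = ((d : ℝ) - α) / 2 := by rw [ha]; field_simp
  have he0 : 0 ≤ e := by rw [he]; positivity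
  have hηa : η * (1 - α / d) / 2 = η * a := by rw [ha]; ring
  rw [← ha, ← hb] at hmm
  refine ⟨C * (11 ^ d * (2 * 4 ^ d)) * 3 ^ e * (3 ^ e * 5 ^ e * 3 ^ (η * a)) ^ p, by positivity, ?_⟩
  intro w hw hpt U R h t μ q hh hR ht htR hμ hq0 hsym hsupp hrow hloc x
  rw [hηa, ← he]
  have hR' : (1 : ℝ) ≤ R := by exact_mod_cast hR
  have ht' : (1 : ℝ) ≤ t := by exact_mod_cast ht
  have hh' : (0 : ℝ) < h := by exact_mod_cast hh
  have htR' : (t : ℝ) ≤ 4 * R := by exact_mod_cast htR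
  obtain ⟨θ, hθ⟩ : ∃ θ : ℝ, θ = min 1 (((1 + 2 * (t : ℝ)) / h) ^ η) := ⟨_, rfl⟩
  have hθ0 : 0 < θ := by rw [hθ]; exact lt_min one_pos (by positivity)
  have hθ1 : θ ≤ 1 := by rw [hθ]; exact min_le_left _ _
  have hmass : ∀ (c : Zd d) (r : ℕ),
      ∑ a ∈ U, ∑ b ∈ ball c r, q a b ≤ μ * (2 * (r : ℝ) + 1) ^ d := by
    intro c r
    rw [sum_comm]
    calc ∑ b ∈ ball c r, ∑ a ∈ U, q a b ≤ ∑ _b ∈ ball c r, μ := by
          refine sum_le_sum fun b _ => ?_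
          simp only [hsym _ b]
          exact hrow b U
      _ = _ := by rw [sum_const, card_ball, nsmul_eq_mul]; push_cast; ring
  have hX1 : (1 : ℝ) ≤ (2 * (R : ℝ) + 1) ^ d := one_le_pow₀ (by linarith)
  have hX2 : (1 : ℝ) ≤ (4 * (t : ℝ) + 1) ^ d := one_le_pow₀ (by linarith)
  obtain ⟨m, hm⟩ : ∃ m : ℝ, m = (min 1 ((t : ℝ) / h)) ^ (η * a) := ⟨_, rfl⟩
  have hm0 : 0 < m := by
    rw [hm]; exact Real.rpow_pos_of_pos (lt_min one_pos (by positivity)) _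
  rw [← hm]
  have hA : (μ * 1) ^ a * (μ * (2 * (R : ℝ) + 1) ^ d) ^ b ≤ μ * (3 ^ e * (R : ℝ) ^ e) := by
    rw [wpar1_r1 d hμ one_pos (by positivity) hab, Real.one_rpow, mul_one, hdb,
      ← Real.mul_rpow (by norm_num) (by positivity)]
    exact mul_le_mul_of_nonneg_left (Real.rpow_le_rpow (by positivity) (by linarith) he0) hμ.le
  have hB : (μ * θ) ^ a * (μ * (4 * (t : ℝ) + 1) ^ d) ^ b
      ≤ μ * (3 ^ (η * a) * m) * (5 ^ e * (t : ℝ) ^ e) := by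
    rw [wpar1_r1 d hμ hθ0 (by positivity) hab, hdb,
      ← Real.mul_rpow (by norm_num) (by positivity)]
    refine mul_le_mul (mul_le_mul_of_nonneg_left ?_ hμ.le)
      (Real.rpow_le_rpow (by positivity) (by linarith) he0) (by positivity) (by positivity)
    rw [hθ, hm]
    exact wpar1_theta hη ha0 ht' hh'
  have hD : (μ * 1 / (μ * (2 * (R : ℝ) + 1) ^ d)) ^ a + (μ * θ / (μ * (4 * (t : ℝ) + 1) ^ d)) ^ a
      ≤ (R : ℝ) ^ (-(((d : ℝ) - α) / 2)) + (t : ℝ) ^ (-(((d : ℝ) - α) / 2)) := by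
    rw [← hda]
    exact add_le_add (wpar1_r2 d hμ one_pos le_rfl (by linarith) (by linarith) ha0)
      (wpar1_r2 d hμ hθ0 hθ1 (by linarith) (by linarith) ha0)
  obtain ⟨Z, hZ⟩ : ∃ Z : ℝ, Z = C * (μ * (3 ^ e * (R : ℝ) ^ e)) ^ (p + 1) *
      (μ * (3 ^ (η * a) * m) * (5 ^ e * (t : ℝ) ^ e)) ^ p *
      ((R : ℝ) ^ (-(((d : ℝ) - α) / 2)) + (t : ℝ) ^ (-(((d : ℝ) - α) / 2))) := ⟨_, rfl⟩
  have hc : ∀ c : Zd d, EK w U {x} (fun K => (∑ b ∈ ball 0 R, ∑ a ∈ K, q a b) ^ (p + 1) *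
      (∑ b' ∈ ball c (2 * t), ∑ a ∈ K, q a b') ^ p) ≤ Z := by
    intro c
    have h1 := hmm w hw hpt U (fun a => ∑ b ∈ ball 0 R, q a b)
      (fun a => ∑ b ∈ ball c (2 * t), q a b) (μ * 1) (μ * (2 * (R : ℝ) + 1) ^ d) (μ * θ)
      (μ * (4 * (t : ℝ) + 1) ^ d) (by positivity) (mul_le_mul_of_nonneg_left hX1 hμ.le)
      (by positivity) (mul_le_mul_of_nonneg_left (hθ1.trans hX2) hμ.le)
      (fun a => sum_nonneg fun b _ => hq0 a b) (fun a => by rw [mul_one]; exact hrow a _)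
      (hmass 0 R) (fun a => sum_nonneg fun b _ => hq0 a b)
      (fun a => by
        rw [hθ, mul_min_of_nonneg _ _ hμ.le]
        refine le_min (by rw [mul_one]; exact hrow a _) ?_
        have := hloc a c (2 * t)
        push_cast at this
        exact this)
      (by
        have := hmass c (2 * t)
        push_cast at this
        refine this.trans (le_of_eq ?_)
        ring) x
    have h2 : EK w U {x} (fun K => (∑ b ∈ ball 0 R, ∑ a ∈ K, q a b) ^ (p + 1) *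
        (∑ b' ∈ ball c (2 * t), ∑ a ∈ K, q a b') ^ p) = EK w U {x} (fun K =>
          (∑ a ∈ K, ∑ b ∈ ball 0 R, q a b) ^ (p + 1) *
            (∑ a ∈ K, ∑ b ∈ ball c (2 * t), q a b) ^ p) := by
      congr 1
      funext K
      rw [sum_comm, sum_comm (s := ball c (2 * t))]
    rw [h2]
    refine h1.trans ?_
    rw [hZ]
    refine mul_le_mul (mul_le_mul (mul_le_mul_of_nonneg_left
      (pow_le_pow_left₀ (by positivity) hA _) hC.le) (pow_le_pow_left₀ (by positivity) hB _)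
      (by positivity) (by positivity)) hD (by positivity) (by positivity)
  have h3 : EK w U {x} (fun K => (∑ b ∈ ball 0 R, ∑ a ∈ K, q a b) *
        (∑ b ∈ ball 0 R, (∑ a ∈ K, q a b) * ∑ b' ∈ ball b t, ∑ a ∈ K, q a b') ^ p)
      ≤ (2 * ((R : ℝ) + t) + 1) ^ d * (1 / (2 * (t : ℝ) + 1) ^ d) * Z := by
    calc _ ≤ EK w U {x} (fun K => ∑ c ∈ ball 0 (R + t), (1 / (2 * (t : ℝ) + 1) ^ d) *
          ((∑ b ∈ ball 0 R, ∑ a ∈ K, q a b) ^ (p + 1) *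
            (∑ b' ∈ ball c (2 * t), ∑ a ∈ K, q a b') ^ p)) :=
          EK_mono hw _ fun K _ => wpar1_pt (fun b => ∑ a ∈ K, q a b)
            (fun b => sum_nonneg fun a _ => hq0 a b) R t p
      _ ≤ ∑ _c ∈ ball (0 : Zd d) (R + t), (1 / (2 * (t : ℝ) + 1) ^ d) * Z := by
          rw [EK_sum]
          refine sum_le_sum fun c _ => ?_
          rw [EK_const_mul]
          exact mul_le_mul_of_nonneg_left (hc c) (by positivity)
      _ = _ := by rw [sum_const, card_ball, nsmul_eq_mul]; push_cast; ring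
  refine h3.trans ?_
  have h4 := wpar1_tail d hα hd hR' ht' htR'
  rw [← he] at h4
  have h5 : ((R : ℝ) * t) ^ e = (R : ℝ) ^ e * (t : ℝ) ^ e :=
    Real.mul_rpow (by positivity) (by positivity)
  have h6 : (μ * (3 ^ e * (R : ℝ) ^ e)) ^ p * (μ * (3 ^ (η * a) * m) * (5 ^ e * (t : ℝ) ^ e)) ^ p
      = (3 ^ e * 5 ^ e * 3 ^ (η * a)) ^ p * (μ ^ 2 * ((R : ℝ) * t) ^ e * m) ^ p := by
    rw [← mul_pow, ← mul_pow, h5]
    congr 1
    ring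
  obtain ⟨Y, hY⟩ : ∃ Y : ℝ, Y = (3 ^ e * 5 ^ e * 3 ^ (η * a)) ^ p *
    (μ ^ 2 * ((R : ℝ) * t) ^ e * m) ^ p := ⟨_, rfl⟩
  have hY0 : 0 ≤ Y := by rw [hY]; positivity
  calc (2 * ((R : ℝ) + t) + 1) ^ d * (1 / (2 * (t : ℝ) + 1) ^ d) * Z
      = (C * μ * 3 ^ e * Y) * ((2 * ((R : ℝ) + t) + 1) ^ d * (1 / (2 * (t : ℝ) + 1) ^ d) *
          (R : ℝ) ^ e *
          ((R : ℝ) ^ (-(((d : ℝ) - α) / 2)) + (t : ℝ) ^ (-(((d : ℝ) - α) / 2)))) := by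
        rw [hZ, hY, ← h6, pow_succ]; ring
    _ ≤ (C * μ * 3 ^ e * Y) * (11 ^ d * (2 * 4 ^ d) * (R : ℝ) ^ α * ((R : ℝ) / t) ^ (2 * d : ℝ)) :=
        mul_le_mul_of_nonneg_left h4 (by positivity)
    _ = _ := by rw [hY]; ring

end Pool.Agent.Lib.MP_6fc7d9_pr
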