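import Pool.Agent.Lib.MP_6fc7d9_pr.WMainA
import Pool.Agent.Lib.MP_6fc7d9_pr.WSum1

/-!
The pure power law satisfies the hypotheses of `main_reg`.
-/

namespace Pool.Agent.Lib.MP_6fc7d9_pr
open Finset

lemma wpow_euc {d : ℕ} (v : Fin d → ℝ) :
    euc v = ‖(WithLp.toLp 2 v : EuclideanSpace ℝ (Fin d))‖ := by
  rw [EuclideanSpace.norm_eq, euc]
  simp

lemma wpow_neg {d : ℕ} (x y : Zd d) :
    euc (fun i => ((x i - y i : ℤ) : ℝ)) = euc fun i => ((y i - x i : ℤ) : ℝ) := by
  unfold euc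
  congr 1
  refine Finset.sum_congr rfl fun i _ => ?_
  push_cast; ring

/-- the pure power law -/
noncomputable def powJ (d : ℕ) (α : ℝ) : Sym2 (Fin d → ℤ) → ℝ :=
  Sym2.lift ⟨fun x y => euc (fun i => ((x i - y i : ℤ) : ℝ)) ^ (-((d : ℝ) + α)),
    fun x y => by simp only [wpow_neg x y]⟩

lemma powJ_zero {d : ℕ} (α : ℝ) (x : Zd d) :
    powJ d α s(0, x) = euc (fun i => (x i : ℝ)) ^ (-((d : ℝ) + α)) := by
  show euc (fun i => (((0 : Zd d) i - x i : ℤ) : ℝ)) ^ (-((d : ℝ) + α)) = _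
  rw [wpow_neg]
  simp

lemma wpow_step {d : ℕ} (x : Zd d) (i : Fin d) :
    |euc (fun k => ((x + Pi.single i 1 : Zd d) k : ℝ)) - euc (fun k => (x k : ℝ))| ≤ 1 := by
  rw [wpow_euc, wpow_euc]
  refine (abs_norm_sub_norm_le _ _).trans (le_of_eq ?_)
  rw [← WithLp.toLp_sub, ← wpow_euc]
  have : ∀ k, ((fun k => ((x + Pi.single i 1 : Zd d) k : ℝ)) - fun k => (x k : ℝ)) k ^ 2
      = if k = i then 1 else 0 := by
    intro k
    by_cases hk : k = i
    · subst hk; simp
    · simp [hk]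
  simp only [euc, this]
  simp

lemma wpow_lip {s a b : ℝ} (hs : 0 < s) (hb : 1 ≤ b) (ha : a = 0 ∨ 1 ≤ a) (hab : |a - b| ≤ 1) :
    |a ^ (-s) - b ^ (-s)| ≤ (s + 1) * 2 ^ (s + 1) * b ^ (-(s + 1)) := by
  have e : (2 : ℝ) ^ (s + 1) * b ^ (-(s + 1)) = (b / 2) ^ (-(s + 1)) := by
    rw [Real.div_rpow (by linarith) (by norm_num), Real.rpow_neg (x := 2) (by norm_num),
      div_inv_eq_mul, mul_comm]
  have hp : 0 < (b / 2) ^ (-(s + 1)) := Real.rpow_pos_of_pos (by linarith) _
  rw [mul_assoc, e]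
  rcases le_total b 2 with h2 | h2
  · have h1 : 1 ≤ (b / 2) ^ (-(s + 1)) :=
      Real.one_le_rpow_of_pos_of_le_one_of_nonpos (by linarith) (by linarith) (by linarith)
    have a0 : 0 ≤ a ^ (-s) := Real.rpow_nonneg (by rcases ha with h | h <;> linarith) _
    have a1 : a ^ (-s) ≤ 1 := by
      rcases ha with h | h
      · rw [h, Real.zero_rpow (by linarith)]; norm_num
      · exact Real.rpow_le_one_of_one_le_of_nonpos h (by linarith)
    have b0 : 0 ≤ b ^ (-s) := Real.rpow_nonneg (by linarith) _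
    have b1 : b ^ (-s) ≤ 1 := Real.rpow_le_one_of_one_le_of_nonpos hb (by linarith)
    rw [abs_le]
    constructor <;> nlinarith
  · have h1 := Convex.norm_image_sub_le_of_norm_hasDerivWithin_le (s := Set.Ici (b / 2))
      (f := fun t : ℝ => t ^ (-s)) (f' := fun t : ℝ => -s * t ^ (-s - 1))
      (C := s * (b / 2) ^ (-(s + 1))) (x := b) (y := a)
      (fun t ht => (Real.hasDerivAt_rpow_const
        (Or.inl (by linarith [Set.mem_Ici.mp ht] : 0 < t).ne')).hasDerivWithinAt)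
      (fun t ht => by
        have ht' := Set.mem_Ici.mp ht
        rw [norm_mul, norm_neg, Real.norm_of_nonneg hs.le,
          Real.norm_of_nonneg (Real.rpow_nonneg (by linarith) _), show -s - 1 = -(s + 1) by ring]
        exact mul_le_mul_of_nonneg_left
          (Real.rpow_le_rpow_of_nonpos (by linarith) ht' (by linarith)) hs.le)
      (convex_Ici _) (Set.mem_Ici.mpr (by linarith))
      (Set.mem_Ici.mpr (by linarith [(abs_le.mp hab).1]))
    rw [Real.norm_eq_abs, Real.norm_eq_abs] at h1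
    nlinarith [mul_le_mul_of_nonneg_left hab (mul_pos hs hp).le]

lemma wpow_kk {d : ℕ} {s : ℝ} (hs : 0 ≤ s) {x : Zd d} (hx : x ≠ 0) :
    euc (fun i => (x i : ℝ)) ^ (-s) ≤ 2 ^ s * kk s (x - 0) := by
  have h1 := wmain_one_le hx
  rw [sub_zero]
  exact (Real.rpow_le_rpow_of_nonpos (by linarith) (wmain_norm_le _) (by linarith)).trans
    (wmain_half hs h1)

theorem powJ_kernel (d : ℕ) {α : ℝ} (hα : 0 < α) : Kernel d α 1 (powJ d α) := by
  have hs : (0 : ℝ) < d + α := by positivity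
  have h0 : ∀ e, 0 ≤ powJ d α e := fun e => by
    induction e using Sym2.ind with
    | h x y => exact Real.rpow_nonneg (Real.sqrt_nonneg _) _
  refine ⟨h0, fun x y => ?_, ?_, fun x y _ => (one_mul _).le⟩
  · rw [powJ_zero]
    exact congrArg (· ^ (-((d : ℝ) + α))) (wpow_neg x y)
  · obtain ⟨C, -, hC⟩ := sum_kk_tail d (s := d + α) (by linarith)
    refine summable_of_sum_le (c := 2 ^ ((d : ℝ) + α) * (C * (1 + 0) ^ ((d : ℝ) - (d + α))))
      (fun _ => h0 _) fun T => le_trans (Finset.sum_le_sum fun x _ => ?_)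
      ((Finset.mul_sum _ _ _).symm.trans_le (mul_le_mul_of_nonneg_left
        (hC 0 T 0 le_rfl fun _ _ => norm_nonneg _) (by positivity)))
    rw [powJ_zero]
    by_cases hx : x = 0
    · subst hx
      simp only [euc, Pi.zero_apply, Int.cast_zero, ne_eq, OfNat.ofNat_ne_zero, not_false_eq_true,
        zero_pow, Finset.sum_const_zero, Real.sqrt_zero]
      rw [Real.zero_rpow (by linarith)]
      exact mul_nonneg (by positivity) (kk_pos _ _).le
    · exact wpow_kk hs.le hx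

theorem powJ_reg (d : ℕ) (hd : 1 ≤ d) {α : ℝ} (hα : 0 < α) : ∃ A : ℝ,
    (∀ x : Fin d → ℤ, x ≠ 0 →
      powJ d α s(0, x) ≤ A * euc (fun i => (x i : ℝ)) ^ (-((d : ℝ) + α))) ∧
    ∀ (i : Fin d) (l : ℝ) (T : Finset (Fin d → ℤ)), 1 ≤ l →
      (∀ x ∈ T, l ≤ euc fun k => (x k : ℝ)) →
      ∑ x ∈ T, |powJ d α s(0, x + Pi.single i 1) - powJ d α s(0, x)| ≤ A * l ^ (-(1 + α)) := by
  have hs : (0 : ℝ) < d + α := by positivity
  have hd' : (0 : ℝ) < √d := Real.sqrt_pos.mpr (by exact_mod_cast hd)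
  obtain ⟨C, hC0, hC⟩ := sum_kk_tail d (s := d + α + 1) (by linarith)
  set B : ℝ := ((d : ℝ) + α + 1) * 2 ^ ((d : ℝ) + α + 1) * 2 ^ ((d : ℝ) + α + 1) with hB
  refine ⟨max 1 (B * (C * √d ^ (1 + α))), fun x _ => ?_, fun i l T hl hT => ?_⟩
  · rw [powJ_zero]
    exact le_mul_of_one_le_left (Real.rpow_nonneg (Real.sqrt_nonneg _) _) (le_max_left _ _)
  · have h1 : ∀ x ∈ T, |powJ d α s(0, x + Pi.single i 1) - powJ d α s(0, x)|
        ≤ B * kk (d + α + 1) (x - 0) := by
      intro x hx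
      have hx0 : x ≠ 0 := by
        rintro rfl
        have := hl.trans (hT _ hx)
        simp [euc] at this
        linarith
      rw [powJ_zero, powJ_zero]
      refine (wpow_lip hs (hl.trans (hT x hx)) ?_ (wpow_step x i)).trans ?_
      · by_cases h : x + Pi.single i 1 = 0
        · left; rw [h]; simp [euc]
        · exact Or.inr ((wmain_one_le h).trans (wmain_norm_le _))
      · rw [hB, mul_assoc (_ * _)]
        exact mul_le_mul_of_nonneg_left (wpow_kk (by linarith) hx0) (by positivity)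
    have h2 := hC 0 T (l / √d) (by positivity) fun x hx => by
      rw [sub_zero, div_le_iff₀' hd']
      exact (hT x hx).trans (wmain_euc_le x)
    have h3 : (1 + l / √d) ^ ((d : ℝ) - (d + α + 1)) ≤ √d ^ (1 + α) * l ^ (-(1 + α)) := by
      rw [show (d : ℝ) - (d + α + 1) = -(1 + α) by ring]
      refine (Real.rpow_le_rpow_of_nonpos (x := l / √d) (by positivity) (by linarith)
        (by linarith)).trans (le_of_eq ?_)
      rw [Real.div_rpow (by linarith) hd'.le, Real.rpow_neg hd'.le, div_inv_eq_mul, mul_comm]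
    calc _ ≤ ∑ x ∈ T, B * kk (d + α + 1) (x - 0) := Finset.sum_le_sum h1
      _ ≤ B * (C * (√d ^ (1 + α) * l ^ (-(1 + α)))) := by
          rw [← Finset.mul_sum]
          exact mul_le_mul_of_nonneg_left (h2.trans (mul_le_mul_of_nonneg_left h3 hC0.le))
            (by positivity)
      _ = B * (C * √d ^ (1 + α)) * l ^ (-(1 + α)) := by ring
      _ ≤ _ := mul_le_mul_of_nonneg_right (le_max_right _ _) (by positivity)

end Pool.Agent.Lib.MP_6fc7d9_pr
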