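import Pool.Agent.Lib.MP_6fc7d9_pr.WMerge
import Pool.Agent.Lib.MP_6fc7d9_pr.WExc
import Pool.Agent.Lib.MP_6fc7d9_pr.BK
import Pool.Agent.Lib.MP_6fc7d9_pr.WDefsEq

set_option linter.unusedSectionVars false

namespace Pool.Agent.Lib.MP_6fc7d9_pr
open Finset

variable {V : Type*} [DecidableEq V] {ι : Type*} [Fintype ι] [DecidableEq ι]

lemma wprob_ind_or (P Q : Prop) : ind (P ∨ Q) ≤ ind P + ind Q := by
  by_cases hP : P
  · rw [ind_pos hP]
    linarith [ind_le_one (P ∨ Q), ind_nonneg Q]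
  · rw [ind_neg hP, zero_add]
    exact ind_mono fun h => h.resolve_left hP

lemma wprob_ind_exists {α : Type*} (s : Finset α) (P : α → Prop) :
    ind (∃ a ∈ s, P a) ≤ ∑ a ∈ s, ind (P a) := by
  by_cases h : ∃ a ∈ s, P a
  · rw [ind_pos h]
    obtain ⟨a, ha, hP⟩ := h
    rw [← ind_pos hP]
    exact single_le_sum (f := fun a => ind (P a)) (fun b _ => ind_nonneg _) ha
  · rw [ind_neg h]
    exact sum_nonneg fun a _ => ind_nonneg _

lemma wprob_Ex_exists {ε α : Type*} [DecidableEq ε] {F : Finset ε} {p : ε → ℝ}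
    (h0 : ∀ e, 0 ≤ p e) (h1 : ∀ e, p e ≤ 1) (s : Finset α) (P : α → Finset ε → Prop)
    (c : α → ℝ) (h : ∀ a ∈ s, Ex F p (fun ω => ind (P a ω)) ≤ c a) :
    Ex F p (fun ω => ind (∃ a ∈ s, P a ω)) ≤ ∑ a ∈ s, c a := by
  refine (Ex_mono h0 h1 fun ω _ => wprob_ind_exists s (fun a => P a ω)).trans ?_
  rw [Ex_sum F p s (fun a ω => ind (P a ω))]
  exact sum_le_sum h

lemma wprob_mem_le {ε : Type*} [DecidableEq ε] (F : Finset ε) {p : ε → ℝ} (h0 : ∀ e, 0 ≤ p e)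
    (e : ε) : Ex F p (fun ω => ind (e ∈ ω)) ≤ p e := by
  by_cases he : e ∈ F
  · exact (Ex_ind_mem he p).le
  · have : Ex F p (fun ω => ind (e ∈ ω)) = 0 := by
      rw [← Ex_const F p (0 : ℝ)]
      exact Ex_congr fun ω hω => ind_neg fun h => he (hω h)
    rw [this]
    exact h0 e

lemma wprob_w_nonneg {w base : Sym2 V → ℝ} {ext : ι → Sym2 V → ℝ} {A : ι → Finset V}
    (hL : Lay w base ext A) (e : Sym2 V) : 0 ≤ w e :=
  le_trans (add_nonneg (hL.base_nonneg e) (sum_nonneg fun m _ => hL.ext_nonneg m e)) (hL.dom e)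

lemma wprob_allE_mono {Ω Ω' : Finset (Option ι × Sym2 V)} (h : Ω ⊆ Ω') : allE Ω ⊆ allE Ω' :=
  image_subset_image h

lemma wprob_cl_mono (U : Finset V) (x : V) {Ω Ω' : Finset (Option ι × Sym2 V)} (h : Ω ⊆ Ω') :
    cl (allE Ω) U {x} ⊆ cl (allE Ω') U {x} :=
  cl_mono (wprob_allE_mono h) subset_rfl subset_rfl

lemma wprob_one {w base : Sym2 V → ℝ} {ext : ι → Sym2 V → ℝ} {A : ι → Finset V}
    (hL : Lay w base ext A) (U : Finset V) (m : ι) (e : Sym2 V) :
    Ex (labF ι U) (labP base ext) (fun Ω => ind ((some m, e) ∈ Ω)) ≤ ext m e :=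
  (wprob_mem_le _ (labP_nonneg hL) _).trans (pw_le (ext m) e)

lemma wprob_two {w base : Sym2 V → ℝ} {ext : ι → Sym2 V → ℝ} {A : ι → Finset V}
    (hL : Lay w base ext A) (U : Finset V) (m : ι) (e e' : Sym2 V) :
    Ex (labF ι U) (labP base ext)
      (fun Ω => ind ((some m, e) ∈ Ω ∧ (some m, e') ∈ Ω ∧ e ≠ e')) ≤ ext m e * ext m e' := by
  have h0 := labP_nonneg hL
  have h1 := labP_le_one base ext
  have h := bk_prod (labF ι U) h0 h1 (fun S => (some m, e) ∈ S) (fun S => (some m, e') ∈ S)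
    (fun S S' hS h => hS h) (fun S S' hS h => hS h)
  refine (Ex_mono h0 h1 fun Ω _ => ind_mono ?_).trans (h.trans ?_)
  · rintro ⟨ha, hb, hne⟩
    refine ⟨{(some m, e)}, {(some m, e')}, ?_, singleton_subset_iff.2 ha,
      singleton_subset_iff.2 hb, mem_singleton_self _, mem_singleton_self _⟩
    rw [disjoint_singleton]
    exact fun h => hne (Prod.ext_iff.1 h).2
  · exact mul_le_mul (wprob_one hL U m e) (wprob_one hL U m e')
      (Ex_nonneg h0 h1 fun _ _ => ind_nonneg _) (hL.ext_nonneg m e)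

lemma wprob_cl {w base : Sym2 V → ℝ} {ext : ι → Sym2 V → ℝ} {A : ι → Finset V}
    (hL : Lay w base ext A) (U : Finset V) (x y : V) :
    Ex (labF ι U) (labP base ext) (fun Ω => ind (y ∈ cl (allE Ω) U {x})) ≤ tau w U x y :=
  Ex_allE_le hL U x (H := fun K => ind (y ∈ K)) fun _ _ h => ind_mono fun h' => h h'

/-- union bound, `bk_prod`, `Ex_indep` / `Ex_ind_mem` (a labelled pair outside `labF ι U` never
occurs), `pw_le`, `Ex_allE_le` -/
theorem prob_exc {w base : Sym2 V → ℝ} {ext : ι → Sym2 V → ℝ} {A : ι → Finset V}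
    (hL : Lay w base ext A) (U : Finset V) (m : ι) (a b : V) :
    Ex (labF ι U) (labP base ext) (fun Ω => ind (Exc U A m a b Ω))
      ≤ Qk w U (A m) (fun a b => ext m s(a, b)) a b := by
  have h0 := labP_nonneg hL
  have h1 := labP_le_one base ext
  unfold Qk
  by_cases hab : a ∉ A m ∧ b ∉ A m
  · rw [if_pos hab]
    refine (Ex_mono h0 h1 fun Ω _ =>
      (ind_mono (fun h : Exc U A m a b Ω => h.2.2)).trans (wprob_ind_or _ _)).trans ?_
    rw [Ex_add]
    refine add_le_add (wprob_one hL U m _) ?_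
    refine wprob_Ex_exists h0 h1 (A m) _ _ fun u _ => ?_
    refine wprob_Ex_exists h0 h1 (A m) _ _ fun u' _ => ?_
    have h := bk_prod (labF ι U) h0 h1
      (fun S => (some m, s(a, u)) ∈ S ∧ (some m, s(u', b)) ∈ S ∧ s(a, u) ≠ s(u', b))
      (fun S => u' ∈ cl (allE S) U {u})
      (fun S S' hS h => ⟨hS h.1, hS h.2.1, h.2.2⟩) (fun S S' hS h => wprob_cl_mono U u hS h)
    refine h.trans ?_
    have h2 := mul_le_mul (wprob_two hL U m s(a, u) s(u', b)) (wprob_cl hL U u u')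
      (Ex_nonneg h0 h1 fun _ _ => ind_nonneg _)
      (mul_nonneg (hL.ext_nonneg m _) (hL.ext_nonneg m _))
    refine h2.trans (le_of_eq ?_)
    ring
  · rw [if_neg hab]
    exact Ex_le_const h0 h1 fun Ω _ => (ind_neg fun h : Exc U A m a b Ω => hab ⟨h.1, h.2.1⟩).le

lemma wprob_exc_q {w base : Sym2 V → ℝ} {ext : ι → Sym2 V → ℝ} {A : ι → Finset V}
    (hL : Lay w base ext A) (U : Finset V) {q : ι → V → V → ℝ}
    (hq : ∀ m a b, Qk w U (A m) (fun a b => ext m s(a, b)) a b ≤ q m a b) (m : ι) (a b : V) :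
    Ex (labF ι U) (labP base ext) (fun Ω => ind (Exc U A m a b Ω)) ≤ q m a b :=
  (prob_exc hL U m a b).trans (hq m a b)

lemma wprob_q_nonneg {w base : Sym2 V → ℝ} {ext : ι → Sym2 V → ℝ} {A : ι → Finset V}
    (hL : Lay w base ext A) (U : Finset V) {q : ι → V → V → ℝ}
    (hq : ∀ m a b, Qk w U (A m) (fun a b => ext m s(a, b)) a b ≤ q m a b) (m : ι) (a b : V) :
    0 ≤ q m a b :=
  (Ex_nonneg (labP_nonneg hL) (labP_le_one base ext) fun _ _ => ind_nonneg _).trans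
    (wprob_exc_q hL U hq m a b)

/-- induction on `k`, union bound and `bk_prod` twice -/
theorem prob_ser {w base : Sym2 V → ℝ} {ext : ι → Sym2 V → ℝ} {A : ι → Finset V}
    (hL : Lay w base ext A) (U : Finset V) {q : ι → V → V → ℝ}
    (hq : ∀ m a b, Qk w U (A m) (fun a b => ext m s(a, b)) a b ≤ q m a b) (z : V) (k : ℕ)
    (T : Finset ι) (x : V) :
    Ex (labF ι U) (labP base ext) (fun Ω => ind (SerE U A z k T x Ω)) ≤ SerB w U q z k T x := by
  have h0 := labP_nonneg hL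
  have h1 := labP_le_one base ext
  induction k generalizing T x with
  | zero => exact wprob_cl hL U x z
  | succ k ih =>
    simp only [SerE, SerB]
    refine wprob_Ex_exists h0 h1 T _ _ fun m _ => ?_
    refine wprob_Ex_exists h0 h1 U _ _ fun a _ => ?_
    refine wprob_Ex_exists h0 h1 U _ _ fun b _ => ?_
    have hin := bk_prod (labF ι U) h0 h1 (fun E => Exc U A m a b E)
      (fun Ω₂ => SerE U A z k (T.erase m) b Ω₂) (fun S S' hS h => h.mono hS)
      (fun S S' hS h => h.mono subset_rfl hS)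
    have hin2 := hin.trans (mul_le_mul (wprob_exc_q hL U hq m a b) (ih (T.erase m) b)
      (Ex_nonneg h0 h1 fun _ _ => ind_nonneg _) (wprob_q_nonneg hL U hq m a b))
    have hout := bk_prod (labF ι U) h0 h1 (fun Ω₀ => a ∈ cl (allE Ω₀) U {x})
      (fun Ω₁ => ∃ E Ω₂, Disjoint E Ω₂ ∧ E ⊆ Ω₁ ∧ Ω₂ ⊆ Ω₁ ∧ Exc U A m a b E ∧
        SerE U A z k (T.erase m) b Ω₂)
      (fun S S' hS h => wprob_cl_mono U x hS h)
      (fun S S' hS ⟨E, Ω₂, hd, hE, hΩ, h⟩ => ⟨E, Ω₂, hd, hE.trans hS, hΩ.trans hS, h⟩)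
    refine hout.trans ?_
    rw [mul_assoc]
    exact mul_le_mul (wprob_cl hL U x a) hin2 (Ex_nonneg h0 h1 fun _ _ => ind_nonneg _)
      (tau_nonneg (wprob_w_nonneg hL) U x a)

/-- disjoint excursions from `K` to `K'` for all walls of `T` -/
def wprobG (U : Finset V) (A : ι → Finset V) (T : Finset ι) (K K' : Finset V)
    (Ω : Finset (Option ι × Sym2 V)) : Prop :=
  ∃ E : ι → Finset (Option ι × Sym2 V), (∀ m, E m ⊆ Ω) ∧
    (∀ m m', m ≠ m' → Disjoint (E m) (E m')) ∧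
    ∀ m ∈ T, ∃ a ∈ K, ∃ b ∈ K', Exc U A m a b (E m)

lemma wprobG_mono {U : Finset V} {A : ι → Finset V} {T : Finset ι} {K₁ K₂ K₁' K₂' : Finset V}
    {Ω Ω' : Finset (Option ι × Sym2 V)} (hK : K₁ ⊆ K₂) (hK' : K₁' ⊆ K₂') (hΩ : Ω ⊆ Ω')
    (h : wprobG U A T K₁ K₁' Ω) : wprobG U A T K₂ K₂' Ω' := by
  obtain ⟨E, hE, hd, h⟩ := h
  refine ⟨E, fun m => (hE m).trans hΩ, hd, fun m hm => ?_⟩
  obtain ⟨a, ha, b, hb, hx⟩ := h m hm
  exact ⟨a, hK ha, b, hK' hb, hx⟩

lemma wprobG_le {w base : Sym2 V → ℝ} {ext : ι → Sym2 V → ℝ} {A : ι → Finset V}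
    (hL : Lay w base ext A) (U : Finset V) {q : ι → V → V → ℝ}
    (hq : ∀ m a b, Qk w U (A m) (fun a b => ext m s(a, b)) a b ≤ q m a b) (K K' : Finset V)
    (T : Finset ι) :
    Ex (labF ι U) (labP base ext) (fun Ω => ind (wprobG U A T K K' Ω))
      ≤ ∏ m ∈ T, ∑ a ∈ K, ∑ b ∈ K', q m a b := by
  have h0 := labP_nonneg hL
  have h1 := labP_le_one base ext
  induction T using Finset.induction_on with
  | empty =>
    rw [prod_empty]
    exact Ex_le_const h0 h1 fun _ _ => ind_le_one _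
  | insert m T hm ih =>
    rw [prod_insert hm]
    have h := bk_prod (labF ι U) h0 h1 (fun S => ∃ a ∈ K, ∃ b ∈ K', Exc U A m a b S)
      (fun S => wprobG U A T K K' S)
      (fun S S' hS ⟨a, ha, b, hb, h⟩ => ⟨a, ha, b, hb, h.mono hS⟩)
      (fun S S' hS h => wprobG_mono subset_rfl subset_rfl hS h)
    have hA : Ex (labF ι U) (labP base ext)
        (fun S => ind (∃ a ∈ K, ∃ b ∈ K', Exc U A m a b S)) ≤ ∑ a ∈ K, ∑ b ∈ K', q m a b :=
      wprob_Ex_exists h0 h1 K _ _ fun a _ =>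
        wprob_Ex_exists h0 h1 K' _ _ fun b _ => wprob_exc_q hL U hq m a b
    refine (Ex_mono h0 h1 fun Ω _ => ind_mono ?_).trans (h.trans ?_)
    · rintro ⟨E, hE, hd, hx⟩
      refine ⟨E m, Ω \ E m, disjoint_sdiff, hE m, sdiff_subset, hx m (mem_insert_self _ _),
        fun m' => if m' = m then ∅ else E m', fun m' => ?_, fun m₁ m₂ hne => ?_, fun m' hm' => ?_⟩
      · by_cases hmm : m' = m
        · simp only [if_pos hmm]
          exact empty_subset _
        · simp only [if_neg hmm]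
          exact subset_sdiff.2 ⟨hE m', hd m' m hmm⟩
      · by_cases e1 : m₁ = m
        · simp only [if_pos e1]
          exact disjoint_empty_left _
        · by_cases e2 : m₂ = m
          · simp only [if_pos e2]
            exact disjoint_empty_right _
          · simp only [if_neg e1, if_neg e2]
            exact hd m₁ m₂ hne
      · have hne : m' ≠ m := fun h => hm (h ▸ hm')
        simp only [if_neg hne]
        exact hx m' (mem_insert_of_mem hm')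
    · exact mul_le_mul hA ih (Ex_nonneg h0 h1 fun _ _ => ind_nonneg _)
        (sum_nonneg fun a _ => sum_nonneg fun b _ => wprob_q_nonneg hL U hq m a b)

/-- For fixed `K, K'` the event that there are disjoint `E m ⊆ Ω`, `m ∈ T`, with excursions from
`K` to `K'` has probability at most `∏ m ∈ T, ∑ a ∈ K, ∑ b ∈ K', q m a b` (induction on `T`,
`bk_prod`, `prob_exc`).  Then `bk_rel` twice and `Ex_allE_le` twice. -/
theorem prob_par {w base : Sym2 V → ℝ} {ext : ι → Sym2 V → ℝ} {A : ι → Finset V}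
    (hL : Lay w base ext A) (U : Finset V) {q : ι → V → V → ℝ}
    (hq : ∀ m a b, Qk w U (A m) (fun a b => ext m s(a, b)) a b ≤ q m a b) (x z : V)
    (T : Finset ι) :
    Ex (labF ι U) (labP base ext) (fun Ω => ind (ParE U A x z T Ω)) ≤ ParB w U q x z T := by
  have h0 := labP_nonneg hL
  have h1 := labP_le_one base ext
  have hqn := wprob_q_nonneg hL U hq
  have hprod : ∀ {K₁ K₂ K₁' K₂' : Finset V}, K₁ ⊆ K₂ → K₁' ⊆ K₂' →
      ∏ m ∈ T, ∑ a ∈ K₁, ∑ b ∈ K₁', q m a b ≤ ∏ m ∈ T, ∑ a ∈ K₂, ∑ b ∈ K₂', q m a b := by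
    intro K₁ K₂ K₁' K₂' hK hK'
    refine prod_le_prod (fun m _ => sum_nonneg fun a _ => sum_nonneg fun b _ => hqn m a b)
      fun m _ => ?_
    refine le_trans (sum_le_sum fun a _ => ?_)
      (sum_le_sum_of_subset_of_nonneg hK fun a _ _ => sum_nonneg fun b _ => hqn m a b)
    exact sum_le_sum_of_subset_of_nonneg hK' fun b _ _ => hqn m a b
  have hout := bk_rel (labF ι U) h0 h1
    (fun Ω₀ Ω₁ => ∃ Ω₂ Ω₃, Disjoint Ω₂ Ω₃ ∧ Ω₂ ⊆ Ω₁ ∧ Ω₃ ⊆ Ω₁ ∧
      wprobG U A T (cl (allE Ω₀) U {x}) (cl (allE Ω₂) U {z}) Ω₃)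
    (fun S S' R R' hS hR ⟨Ω₂, Ω₃, hd, h2, h3, h⟩ => ⟨Ω₂, Ω₃, hd, h2.trans hR, h3.trans hR,
      wprobG_mono (wprob_cl_mono U x hS) subset_rfl subset_rfl h⟩)
  refine le_trans hout ?_
  have hin : ∀ K : Finset V, Ex (labF ι U) (labP base ext)
      (fun Ω₁ => ind (∃ Ω₂ Ω₃, Disjoint Ω₂ Ω₃ ∧ Ω₂ ⊆ Ω₁ ∧ Ω₃ ⊆ Ω₁ ∧
        wprobG U A T K (cl (allE Ω₂) U {z}) Ω₃))
      ≤ EK w U {z} fun K' => ∏ m ∈ T, ∑ a ∈ K, ∑ b ∈ K', q m a b := by
    intro K
    refine (bk_rel (labF ι U) h0 h1 (fun Ω₂ Ω₃ => wprobG U A T K (cl (allE Ω₂) U {z}) Ω₃)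
      (fun S S' R R' hS hR h => wprobG_mono subset_rfl (wprob_cl_mono U z hS) hR h)).trans ?_
    refine (Ex_mono h0 h1 fun Ω₂ _ => wprobG_le hL U hq K (cl (allE Ω₂) U {z}) T).trans ?_
    exact Ex_allE_le hL U z (H := fun K' => ∏ m ∈ T, ∑ a ∈ K, ∑ b ∈ K', q m a b)
      fun _ _ h => hprod subset_rfl h
  refine (Ex_mono h0 h1 fun Ω₀ _ => hin (cl (allE Ω₀) U {x})).trans ?_
  exact Ex_allE_le hL U x
    (H := fun K => EK w U {z} fun K' => ∏ m ∈ T, ∑ a ∈ K, ∑ b ∈ K', q m a b)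
    fun _ _ h => EK_mono (wprob_w_nonneg hL) _ fun _ _ => hprod h subset_rfl

end Pool.Agent.Lib.MP_6fc7d9_pr
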