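import Pool.Agent.Lib.MP_6fc7d9_pr.WGeom
import Pool.Agent.Lib.MP_6fc7d9_pr.WKQ
import Pool.Agent.Lib.MP_6fc7d9_pr.WErr
import Pool.Agent.Lib.MP_6fc7d9_pr.WAvgSP
import Pool.Agent.Lib.MP_6fc7d9_pr.WPar
import Pool.Agent.Lib.MP_6fc7d9_pr.WSpr

set_option linter.unusedSectionVars false

namespace Pool.Agent.Lib.MP_6fc7d9_pr
open Finset

lemma wshell_avg_nonneg {Ω : Type*} [Fintype Ω] {f : Ω → ℝ} (h : ∀ W, 0 ≤ f W) : 0 ≤ avg f :=
  div_nonneg (Finset.sum_nonneg fun W _ => h W) (Nat.cast_nonneg _)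

lemma wshell_le_avg {Ω : Type*} [Fintype Ω] [Nonempty Ω] {f : Ω → ℝ} {c : ℝ}
    (h : ∀ W, c ≤ f W) : c ≤ avg f := by
  have hc : (0 : ℝ) < Fintype.card Ω := by exact_mod_cast Fintype.card_pos
  rw [avg, le_div_iff₀ hc]
  have := Finset.card_nsmul_le_sum Finset.univ f c fun W _ => h W
  rw [Finset.card_univ, nsmul_eq_mul] at this
  linarith

lemma wshell_avg_add {Ω : Type*} [Fintype Ω] (f g : Ω → ℝ) :
    avg (fun W => f W + g W) = avg f + avg g := by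
  simp only [avg, Finset.sum_add_distrib, add_div]

lemma wshell_avg_mul {Ω : Type*} [Fintype Ω] (c : ℝ) (f : Ω → ℝ) :
    avg (fun W => c * f W) = c * avg f := by
  simp only [avg, ← Finset.mul_sum, mul_div_assoc]

lemma wshell_avg_sum {Ω κ : Type*} [Fintype Ω] (s : Finset κ) (f : κ → Ω → ℝ) :
    avg (fun W => ∑ j ∈ s, f j W) = ∑ j ∈ s, avg (f j) := by
  simp only [avg]
  rw [Finset.sum_comm, Finset.sum_div]

lemma wshell_Dk_nonneg {d : ℕ} {w : Sym2 (Zd d) → ℝ} (hw : ∀ e, 0 ≤ w e) (i : Fin d)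
    (h N ρ Rb : ℕ) (A : Fin N → Finset (Zd d)) (x y : Zd d) : 0 ≤ Dk w i h N ρ Rb A x y := by
  unfold Dk
  split_ifs
  · exact add_nonneg (mul_nonneg (Finset.sum_nonneg fun m _ =>
      add_nonneg (ind_nonneg _) (ind_nonneg _)) (hw _))
      (Finset.sum_nonneg fun k _ => abs_nonneg _)
  · exact le_rfl

lemma wshell_abs_sign (n : ℕ) (x : ℝ) : |(-1 : ℝ) ^ n * x| = |x| := by
  rw [abs_mul, abs_neg_one_pow, one_mul]

/-- the bound for a fixed position of the walls -/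
lemma wshell_point {d : ℕ} {w : Sym2 (Zd d) → ℝ} (hw : ∀ e, 0 ≤ w e) (hinv : Inv w)
    (i : Fin d) {N h ρ M Rb k : ℕ} (hh : 1 ≤ h) (hρ : (4 * N + 4) * h ≤ ρ) (hM : 4 * N * ρ ≤ M)
    (hRb : 5 * N * ρ ≤ Rb) (hk : 1 ≤ k) (hN : k * k ≤ N) (P : Fin N → ℕ)
    (hP : ∀ m : Fin N, 4 * ρ * m + ρ ≤ P m ∧ P m < 4 * ρ * m + 2 * ρ) (z : Zd d)
    (hz : ((4 * N * ρ : ℕ) : ℝ) ≤ ‖z‖) :
    |∑ σ : Finset (Fin N), (-1 : ℝ) ^ σ.card * tau w (ball 0 M) (σ.card • sv i h) z|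
      ≤ ∑ σ : Finset (Fin N), ((∑ a ∈ ball 0 M, ∑ b ∈ ball 0 M,
          tau w (ball 0 M) (σ.card • sv i h) a * Dk w i h N ρ Rb (SlS i h P σ) a b
            * tau w (ball 0 M) b z)
        + 2 ^ N * (SerB w (ball 0 M)
            (fun m => Qw w (ball 0 M) i h Rb (cen i h σ m) (decide (m ∈ σ)) (P m)) z k
              Finset.univ (σ.card • sv i h)
          + ∑ T ∈ Finset.powersetCard k Finset.univ, ParB w (ball 0 M)
            (fun m => Qw w (ball 0 M) i h Rb (cen i h σ m) (decide (m ∈ σ)) (P m))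
              (σ.card • sv i h) z T)) := by
  obtain ⟨base, ext, hL, hX, hD, hx, hz', hvan⟩ := geom_exists hw hinv i hh hρ hM hRb P hP
  set U : Finset (Zd d) := ball 0 M with hU
  set f : Finset (Fin N) → Finset (Fin N) → ℝ :=
    fun σ S => tau (base σ + ∑ m ∈ S, ext σ m) U (σ.card • sv i h) z with hf
  have hA : ∀ σ : Finset (Fin N), |tau w U (σ.card • sv i h) z - f σ Finset.univ|
      ≤ ∑ a ∈ U, ∑ b ∈ U, tau w U (σ.card • sv i h) a * Dk w i h N ρ Rb (SlS i h P σ) a b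
            * tau w U b z := by
    intro σ
    have h0 : ∀ e, 0 ≤ (base σ + ∑ m, ext σ m) e := fun e => by
      rw [Pi.add_apply, Finset.sum_apply]
      exact add_nonneg ((hL σ).base_nonneg e) (Finset.sum_nonneg fun m _ => (hL σ).ext_nonneg m e)
    have hle : ∀ e, (base σ + ∑ m, ext σ m) e ≤ w e := fun e => by
      rw [Pi.add_apply, Finset.sum_apply]
      exact (hL σ).dom e
    have h1 := tau_mono h0 hle (Finset.Subset.refl U) (σ.card • sv i h) z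
    have h2 := sprinkle h0 hle U (σ.card • sv i h) z
    rw [abs_of_nonneg (sub_nonneg.mpr h1)]
    refine le_trans (sub_le_iff_le_add'.mpr h2) ?_
    refine Finset.sum_le_sum fun a _ => Finset.sum_le_sum fun b _ => ?_
    exact mul_le_mul_of_nonneg_right
      (mul_le_mul_of_nonneg_left (hD σ a b) (tau_nonneg hw _ _ _)) (tau_nonneg hw _ _ _)
  have hB : ∀ σ : Finset (Fin N), |∑ S : Finset (Fin N), (-1 : ℝ) ^ S.card * f σ S|
      ≤ 2 ^ N * (SerB w U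
            (fun m => Qw w U i h Rb (cen i h σ m) (decide (m ∈ σ)) (P m)) z k
              Finset.univ (σ.card • sv i h)
          + ∑ T ∈ Finset.powersetCard k Finset.univ, ParB w U
            (fun m => Qw w U i h Rb (cen i h σ m) (decide (m ∈ σ)) (P m))
              (σ.card • sv i h) z T) := by
    intro σ
    have := mixed_bound (hL σ) U
      (q := fun m => Qw w U i h Rb (cen i h σ m) (decide (m ∈ σ)) (P m))
      (fun m a b => Qk_mono hw U _ (fun a b => (hL σ).ext_nonneg m _) (fun a b => hX σ m a b) a b)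
      (x := σ.card • sv i h) (z := z) (hx σ) (fun m => hz' σ m z hz) hk
      (by rw [Fintype.card_fin]; exact hN)
    rw [Fintype.card_fin] at this
    exact this
  have hC : ∑ σ : Finset (Fin N), (-1 : ℝ) ^ σ.card * ∑ S : Finset (Fin N), (-1 : ℝ) ^ S.card * f σ S
      = (-1 : ℝ) ^ N * ∑ σ : Finset (Fin N), (-1 : ℝ) ^ σ.card * f σ Finset.univ := by
    have e1 : ∀ σ : Finset (Fin N),
        (-1 : ℝ) ^ σ.card * ∑ S : Finset (Fin N), (-1 : ℝ) ^ S.card * f σ S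
        = ∑ S : Finset (Fin N), (-1 : ℝ) ^ S.card * ((-1 : ℝ) ^ σ.card * f σ S) := fun σ => by
      rw [Finset.mul_sum]
      exact Finset.sum_congr rfl fun S _ => by ring
    simp only [e1]
    rw [Finset.sum_comm]
    simp only [← Finset.mul_sum]
    rw [Finset.sum_eq_single Finset.univ]
    · rw [Finset.card_univ, Fintype.card_fin]
    · intro S _ hS
      rw [hvan z hz S hS, mul_zero]
    · intro hn
      exact absurd (Finset.mem_univ _) hn
  have hsplit : ∑ σ : Finset (Fin N), (-1 : ℝ) ^ σ.card * tau w U (σ.card • sv i h) z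
      = ∑ σ : Finset (Fin N), (-1 : ℝ) ^ σ.card * (tau w U (σ.card • sv i h) z - f σ Finset.univ)
        + ∑ σ : Finset (Fin N), (-1 : ℝ) ^ σ.card * f σ Finset.univ := by
    rw [← Finset.sum_add_distrib]
    exact Finset.sum_congr rfl fun σ _ => by ring
  rw [hsplit, Finset.sum_add_distrib]
  refine le_trans (abs_add_le _ _) (add_le_add ?_ ?_)
  · refine le_trans (Finset.abs_sum_le_sum_abs _ _) (Finset.sum_le_sum fun σ _ => ?_)
    rw [wshell_abs_sign]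
    exact hA σ
  · rw [← wshell_abs_sign N, ← hC]
    refine le_trans (Finset.abs_sum_le_sum_abs _ _) (Finset.sum_le_sum fun σ _ => ?_)
    rw [wshell_abs_sign]
    exact hB σ

lemma wshell_err_num {R h ρ c α : ℝ} (hR : 0 < R) (hh : 0 ≤ h) (hc : 0 < c)
    (hRρ : R ≤ c * ρ) (hα : 0 ≤ 1 + α) :
    R ^ (2 * α) * h * ρ ^ (-(1 + α)) ≤ c ^ (1 + α) * (R ^ α * (h / R)) := by
  have h1 : R / c ≤ ρ := by rw [div_le_iff₀ hc]; linarith
  have h2 : ρ ^ (-(1 + α)) ≤ (R / c) ^ (-(1 + α)) :=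
    Real.rpow_le_rpow_of_nonpos (div_pos hR hc) h1 (by linarith)
  have h3 : (R / c) ^ (-(1 + α)) = c ^ (1 + α) / (R * R ^ α) := by
    rw [Real.rpow_neg (div_pos hR hc).le, Real.div_rpow hR.le hc.le, inv_div,
      Real.rpow_add hR, Real.rpow_one]
  have h4 : R ^ (2 * α) = R ^ α * R ^ α := by rw [two_mul, Real.rpow_add hR]
  have h5 : 0 < R ^ α := Real.rpow_pos_of_pos hR _
  calc R ^ (2 * α) * h * ρ ^ (-(1 + α)) ≤ R ^ (2 * α) * h * (c ^ (1 + α) / (R * R ^ α)) := by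
        rw [← h3]
        exact mul_le_mul_of_nonneg_left h2 (mul_nonneg (Real.rpow_nonneg hR.le _) hh)
    _ = _ := by rw [h4]; field_simp

lemma wshell_mu_num {R h ρ c α : ℝ} (hR : 0 < R) (hh : 0 ≤ h) (hρ : 0 < ρ)
    (hRρ : R ≤ c * ρ) : h ^ (1 - α) / ρ * R ^ α ≤ c * (h / R) ^ (1 - α) := by
  have h5 : 0 < R ^ α := Real.rpow_pos_of_pos hR _
  have h6 : 0 ≤ h ^ (1 - α) := Real.rpow_nonneg hh _
  rw [Real.div_rpow hh hR.le, Real.rpow_sub hR, Real.rpow_one]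
  have e : c * (h ^ (1 - α) / (R / R ^ α)) = h ^ (1 - α) * R ^ α * (c / R) := by field_simp
  have e' : h ^ (1 - α) / ρ * R ^ α = h ^ (1 - α) * R ^ α * (1 / ρ) := by field_simp
  rw [e, e']
  refine mul_le_mul_of_nonneg_left ?_ (mul_nonneg h6 h5.le)
  rw [div_le_div_iff₀ hρ hR]
  linarith

lemma wshell_pow_num {u α e : ℝ} (hu : 0 < u) (hu1 : u ≤ 1) (k : ℕ)
    (hk : 1 ≤ k * (1 - α) - e) : (u ^ (1 - α)) ^ k * u⁻¹ ^ e ≤ u := by
  rw [← Real.rpow_natCast, ← Real.rpow_mul hu.le, Real.inv_rpow hu.le, ← Real.rpow_neg hu.le,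
    ← Real.rpow_add hu]
  calc u ^ ((1 - α) * k + -e) ≤ u ^ (1 : ℝ) :=
        Real.rpow_le_rpow_of_exponent_ge hu hu1 (by linarith)
    _ = u := Real.rpow_one u

/-- Assembly.  Take `η` from `kq_bound`, `p ≥ p₀` (`par_bound`) with `(2p+1)(1-α) - 2d ≥ 1`,
`k = 2p+1`, `N = k*k`, `L = 4N(4N+4)`, `ρ = R/(4N)` (so `R ≤ 8Nρ`), `Rb = 2R`, `U = ball 0 M`.
For every `W : Fin N → Fin ρ` apply `geom_exists` to `P = wpos ρ W`.  With
`f σ S = tau (base σ + ∑ m ∈ S, ext σ m) U (|σ| v) z` one has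
`∑ σ (-1)^|σ| f σ univ = (-1)^N ∑ σ (-1)^|σ| ∑ S (-1)^|S| f σ S` (the terms `S ≠ univ` vanish),
`0 ≤ tau w - f σ univ ≤ ∑∑ tau * Dk * tau` (`tau_mono`, `sprinkle`), and `mixed_bound` with
`q m = Qw w U i h (2R) (cen i h σ m) (decide (m ∈ σ)) (wpos ρ W m)` (`Qk_mono`).  The left side does
not depend on `W`; average over `W` and use `err_bound`, `ser_avg` (`B = ball 0 (2R)`,
`X = C C₁ (1+2R)^α` by `Reg.pt` and `sum_kk_ball`, `μ = C h^(1-α)/ρ`), `par_avg`, and `par_bound`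
with radius `2R` and the kernel `∑ m, avg ..` (row sums `≤ N μ`). -/
theorem shell_bound (d : ℕ) (hd : 1 ≤ d) {α : ℝ} (hα : 0 < α) (h1 : α < 1)
    (h3 : (d : ℝ) ≤ 3 * α) (C₁ : ℝ) :
    ∃ (N L : ℕ) (C : ℝ), 1 ≤ L ∧ 0 < C ∧ ∀ w : Sym2 (Zd d) → ℝ, Reg α C₁ w →
      ∀ (i : Fin d) (h R M : ℕ), 1 ≤ h → L * h ≤ R → R ≤ M →
        ∑ z ∈ ball 0 (2 * R) \ ball 0 R, |∑ σ : Finset (Fin N), (-1 : ℝ) ^ σ.card *
            tau w (ball 0 M) (σ.card • sv i h) z| ≤ C * (R : ℝ) ^ α * (h / R) := by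
  have hd1 : (1 : ℝ) ≤ d := by exact_mod_cast hd
  have hαd : α < d := by linarith
  obtain ⟨η, Cq, hη, hCq, hkq⟩ := kq_bound d hd hα h1 C₁
  obtain ⟨p₀, hp₀⟩ := par_bound d hα hαd h3 hη C₁
  obtain ⟨n, hn⟩ := exists_nat_ge ((2 * d + 1) / (1 - α))
  obtain ⟨p, hpp, hpn⟩ : ∃ p : ℕ, p₀ ≤ p ∧ n ≤ p := ⟨max p₀ n, le_max_left _ _, le_max_right _ _⟩
  obtain ⟨Cp, hCp, hpar⟩ := hp₀ p hpp
  obtain ⟨k, hk⟩ : ∃ k : ℕ, k = 2 * p + 1 := ⟨_, rfl⟩
  rw [← hk] at hpar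
  have hk1 : 1 ≤ k := by omega
  have hkα : 1 ≤ (k : ℝ) * (1 - α) - 2 * d := by
    have h1' : 0 < 1 - α := by linarith
    rw [div_le_iff₀ h1'] at hn
    have : (n : ℝ) ≤ k := by exact_mod_cast (by omega : n ≤ k)
    nlinarith
  have hkα0 : 1 ≤ (k : ℝ) * (1 - α) - 0 := by linarith
  obtain ⟨N, hN⟩ : ∃ N : ℕ, N = k * k := ⟨_, rfl⟩
  have hN1 : 1 ≤ N := by rw [hN]; exact Nat.mul_pos hk1 hk1
  have hN0 : (0 : ℝ) < N := by exact_mod_cast hN1
  obtain ⟨Ce, hCe, herr⟩ := err_bound d hd hα h1 C₁ N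
  obtain ⟨Cs, hCs, hsum⟩ := sum_kk_ball d (s := d - α) (by linarith) (by linarith)
  set c : ℝ := 3 * |C₁| * Cs with hc
  have hc0 : 0 ≤ c := by positivity
  set K₁ : ℝ := Ce * (8 * N : ℝ) ^ (1 + α) with hK₁
  set K₂ : ℝ := c * (N * Cq * c * (8 * N)) ^ k with hK₂
  set K₃ : ℝ := Cp * 2 * (N * Cq * 2 * (8 * N)) ^ k * (2 : ℝ) ^ (2 * d : ℝ) with hK₃
  set nT : ℝ := ((Finset.powersetCard k (Finset.univ : Finset (Fin N))).card : ℝ) with hnT
  have hK₁0 : 0 < K₁ := by positivity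
  have hK₂0 : 0 ≤ K₂ := by positivity
  have hK₃0 : 0 ≤ K₃ := by positivity
  have hnT0 : 0 ≤ nT := by positivity
  refine ⟨N, 4 * N * (4 * N + 4), 2 ^ N * (K₁ + 2 ^ N * (K₂ + nT * K₃)), ?_, by positivity, ?_⟩
  · exact Nat.mul_pos (by omega) (by omega)
  intro w hw i h R M hh hL hM
  obtain ⟨ρ, hρ⟩ : ∃ ρ : ℕ, ρ = R / (4 * N) := ⟨_, rfl⟩
  have hρh : (4 * N + 4) * h ≤ ρ := by
    rw [hρ, Nat.le_div_iff_mul_le (by omega)]
    calc (4 * N + 4) * h * (4 * N) = 4 * N * (4 * N + 4) * h := by ring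
      _ ≤ R := hL
  have hρR : 4 * N * ρ ≤ R := by rw [hρ]; exact Nat.mul_div_le _ _
  have hNh : N * h ≤ ρ := le_trans (Nat.mul_le_mul_right h (by omega)) hρh
  have hhρ : h ≤ ρ := le_trans (Nat.le_mul_of_pos_left h hN1) hNh
  have hρ1 : 1 ≤ ρ := le_trans hh hhρ
  have hρR' : ρ ≤ R := le_trans (Nat.le_mul_of_pos_left ρ (by omega)) hρR
  have hR1 : 1 ≤ R := le_trans hρ1 hρR'
  have hRρ : R ≤ 8 * N * ρ := by
    have h5 : R < 4 * N * (ρ + 1) := by rw [hρ]; exact Nat.lt_mul_div_succ _ (by omega)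
    have h6 : 4 * N * (ρ + 1) ≤ 4 * N * (2 * ρ) := Nat.mul_le_mul_left _ (by omega)
    calc R ≤ 4 * N * (2 * ρ) := by omega
      _ = 8 * N * ρ := by ring
  have hRb : 5 * N * ρ ≤ 2 * R := by
    have e1 : 5 * N * ρ = 5 * (N * ρ) := by ring
    have e2 : 4 * N * ρ = 4 * (N * ρ) := by ring
    omega
  have hR0 : (0 : ℝ) < R := by exact_mod_cast hR1
  have hh0 : (0 : ℝ) < h := by exact_mod_cast hh
  have hρ0 : (0 : ℝ) < ρ := by exact_mod_cast hρ1
  have hRρ' : (R : ℝ) ≤ 8 * N * ρ := by exact_mod_cast hRρ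
  have hu0 : (0 : ℝ) < h / R := div_pos hh0 hR0
  have hu1 : (h : ℝ) / R ≤ 1 := by
    rw [div_le_one hR0]; exact_mod_cast le_trans hhρ hρR'
  have hRα : 0 < (R : ℝ) ^ α := Real.rpow_pos_of_pos hR0 _
  have : Nonempty (Fin ρ) := ⟨⟨0, hρ1⟩⟩
  set U : Finset (Zd d) := ball 0 M with hU
  set Z : Finset (Zd d) := ball 0 (2 * R) \ ball 0 R with hZ
  have hZsub : Z ⊆ ball 0 (2 * R) := Finset.sdiff_subset
  have hw0 := hw.nonneg
  set q : Finset (Fin N) → Fin N → Fin ρ → Zd d → Zd d → ℝ := fun σ m W =>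
    Qw w U i h (2 * R) (cen i h σ m) (decide (m ∈ σ)) (4 * ρ * m + ρ + W) with hq
  have hq0 : ∀ σ m W a b, 0 ≤ q σ m W a b := fun σ m W a b =>
    Qk_nonneg hw0 U _ (fun a b => Xk_nonneg hw0 i h _ _ _ _ a b) a b
  have hqs : ∀ σ m W a b, q σ m W a b = q σ m W b a := fun σ m W a b =>
    Qk_symm w U _ (fun a b => Xk_symm hw.inv i h _ _ _ _ a b) a b
  have hqB : ∀ σ m W a b, a ∉ ball 0 (2 * R) → q σ m W a b = 0 := fun σ m W a b ha =>
    Qw_eq_zero w U i h _ _ _ _ ha b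
  set μ : ℝ := Cq * (h : ℝ) ^ (1 - α) / ρ with hμ
  have hμ0 : 0 < μ := by positivity
  have hqT : ∀ σ m a (T : Finset (Zd d)), ∑ b ∈ T, avg (fun W => q σ m W a b) ≤ μ :=
    fun σ m a T => (hkq w hw U i h (2 * R) (4 * ρ * m + ρ) ρ _ _ hh hρ1 a).1 T
  have hqt : ∀ σ m a (y : Zd d) (t : ℕ), ∑ b ∈ ball y t, avg (fun W => q σ m W a b)
      ≤ μ * ((1 + (t : ℝ)) / h) ^ η :=
    fun σ m a y t => (hkq w hw U i h (2 * R) (4 * ρ * m + ρ) ρ _ _ hh hρ1 a).2 y t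
  have hμR : μ * (R : ℝ) ^ α ≤ Cq * (8 * N) * ((h : ℝ) / R) ^ (1 - α) := by
    have := wshell_mu_num (α := α) hR0 hh0.le hρ0 hRρ'
    calc μ * (R : ℝ) ^ α = Cq * ((h : ℝ) ^ (1 - α) / ρ * (R : ℝ) ^ α) := by rw [hμ]; ring
      _ ≤ Cq * (8 * N * ((h : ℝ) / R) ^ (1 - α)) := mul_le_mul_of_nonneg_left this hCq.le
      _ = _ := by ring
  have huα : 0 ≤ ((h : ℝ) / R) ^ (1 - α) := Real.rpow_nonneg hu0.le _
  -- the three averaged terms
  have hE : ∀ σ : Finset (Fin N), ∑ z ∈ Z, avg (fun W : Fin N → Fin ρ => ∑ a ∈ U, ∑ b ∈ U,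
      tau w U (σ.card • sv i h) a * Dk w i h N ρ (2 * R) (SlS i h (wpos ρ W) σ) a b * tau w U b z)
        ≤ K₁ * ((R : ℝ) ^ α * (h / R)) := by
    intro σ
    have hx : ‖σ.card • sv i h‖ ≤ R := by
      refine le_trans norm_nsmul_le ?_
      rw [norm_sv]
      have h5 : σ.card ≤ N := by simpa using Finset.card_le_univ σ
      have h6 : σ.card * h ≤ R := le_trans (Nat.mul_le_mul_right h h5) (le_trans hNh hρR')
      exact_mod_cast h6
    refine le_trans (Finset.sum_le_sum_of_subset_of_nonneg hZsub fun z _ _ => ?_)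
      (le_trans (herr w hw U i h ρ R σ _ hh hρh hR1 hx) ?_)
    · exact wshell_avg_nonneg fun W => Finset.sum_nonneg fun a _ => Finset.sum_nonneg fun b _ =>
        mul_nonneg (mul_nonneg (tau_nonneg hw0 _ _ _) (wshell_Dk_nonneg hw0 _ _ _ _ _ _ _ _))
          (tau_nonneg hw0 _ _ _)
    · have := wshell_err_num (α := α) hR0 hh0.le (by positivity : (0 : ℝ) < 8 * N) hRρ'
        (by linarith)
      calc Ce * (R : ℝ) ^ (2 * α) * h * (ρ : ℝ) ^ (-(1 + α))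
          = Ce * ((R : ℝ) ^ (2 * α) * h * (ρ : ℝ) ^ (-(1 + α))) := by ring
        _ ≤ Ce * ((8 * N : ℝ) ^ (1 + α) * ((R : ℝ) ^ α * (h / R))) :=
          mul_le_mul_of_nonneg_left this hCe.le
        _ = _ := by rw [hK₁]; ring
  have hX : ∀ x, ∑ a ∈ ball 0 (2 * R), tau w U x a ≤ c * (R : ℝ) ^ α := by
    intro x
    have h5 := hsum x 0 (2 * R)
    have h6 : (1 + ((2 * R : ℕ) : ℝ)) ^ ((d : ℝ) - (d - α)) ≤ 3 * (R : ℝ) ^ α := by
      rw [sub_sub_cancel]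
      have hR1' : (1 : ℝ) ≤ R := by exact_mod_cast hR1
      calc (1 + ((2 * R : ℕ) : ℝ)) ^ α ≤ (3 * (R : ℝ)) ^ α :=
            Real.rpow_le_rpow (by positivity) (by push_cast; linarith) hα.le
        _ = (3 : ℝ) ^ α * (R : ℝ) ^ α := Real.mul_rpow (by norm_num) hR0.le
        _ ≤ 3 * (R : ℝ) ^ α := by
            refine mul_le_mul_of_nonneg_right ?_ hRα.le
            calc (3 : ℝ) ^ α ≤ (3 : ℝ) ^ (1 : ℝ) :=
                  Real.rpow_le_rpow_of_exponent_le (by norm_num) h1.le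
              _ = 3 := Real.rpow_one 3
    calc ∑ a ∈ ball 0 (2 * R), tau w U x a ≤ ∑ a ∈ ball 0 (2 * R), |C₁| * kk (d - α) (a - x) :=
          Finset.sum_le_sum fun a _ => le_trans (hw.pt U x a)
            (mul_le_mul_of_nonneg_right (le_abs_self _) (kk_pos _ _).le)
      _ = |C₁| * ∑ a ∈ ball 0 (2 * R), kk (d - α) (a - x) := by rw [Finset.mul_sum]
      _ ≤ |C₁| * (Cs * (3 * (R : ℝ) ^ α)) :=
          mul_le_mul_of_nonneg_left (le_trans h5 (mul_le_mul_of_nonneg_left h6 hCs.le))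
            (abs_nonneg _)
      _ = _ := by rw [hc]; ring
  have hS : ∀ σ : Finset (Fin N), ∑ z ∈ Z, avg (fun W : Fin N → Fin ρ =>
      SerB w U (fun m => q σ m (W m)) z k Finset.univ (σ.card • sv i h))
        ≤ K₂ * ((R : ℝ) ^ α * (h / R)) := by
    intro σ
    have h5 := ser_avg hw0 U (ball 0 (2 * R)) Z (hq0 σ) (hqB σ) hμ0.le hX
      (fun x => le_trans (Finset.sum_le_sum_of_subset_of_nonneg hZsub
        fun z _ _ => tau_nonneg hw0 _ _ _) (hX x)) (fun m a => hqT σ m a U) k Finset.univ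
        (σ.card • sv i h)
    rw [Fintype.card_fin] at h5
    refine le_trans h5 ?_
    have h6 : (N : ℝ) * μ * (c * (R : ℝ) ^ α)
        ≤ N * Cq * c * (8 * N) * ((h : ℝ) / R) ^ (1 - α) := by
      calc (N : ℝ) * μ * (c * (R : ℝ) ^ α) = N * c * (μ * (R : ℝ) ^ α) := by ring
        _ ≤ N * c * (Cq * (8 * N) * ((h : ℝ) / R) ^ (1 - α)) :=
          mul_le_mul_of_nonneg_left hμR (by positivity)
        _ = _ := by ring
    have h7 := wshell_pow_num hu0 hu1 k hkα0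
    rw [Real.rpow_zero, mul_one] at h7
    calc c * (R : ℝ) ^ α * ((N : ℝ) * μ * (c * (R : ℝ) ^ α)) ^ k
        ≤ c * (R : ℝ) ^ α * (N * Cq * c * (8 * N) * ((h : ℝ) / R) ^ (1 - α)) ^ k :=
          mul_le_mul_of_nonneg_left (pow_le_pow_left₀ (by positivity) h6 k) (by positivity)
      _ = K₂ * ((R : ℝ) ^ α * (((h : ℝ) / R) ^ (1 - α)) ^ k) := by rw [hK₂, mul_pow _ (_ ^ (1 - α))]; ring
      _ ≤ _ := mul_le_mul_of_nonneg_left (mul_le_mul_of_nonneg_left h7 hRα.le) hK₂0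
  have hP : ∀ σ : Finset (Fin N), ∀ T ∈ Finset.powersetCard k (Finset.univ : Finset (Fin N)),
      ∑ z ∈ Z, avg (fun W : Fin N → Fin ρ =>
        ParB w U (fun m => q σ m (W m)) (σ.card • sv i h) z T)
        ≤ K₃ * ((R : ℝ) ^ α * (h / R)) := by
    intro σ T hT
    have hTk : T.card = k := (Finset.mem_powersetCard.mp hT).2
    have hQ0 : ∀ a b, 0 ≤ ∑ m, avg fun W => q σ m W a b := fun a b =>
      Finset.sum_nonneg fun m _ => wshell_avg_nonneg fun W => hq0 σ m W a b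
    have h5 := hpar w hw0 hw.pt U (2 * R) h (N * μ) (fun a b => ∑ m, avg fun W => q σ m W a b) hh
      (by omega) (by positivity) hQ0
      (fun a b => Finset.sum_congr rfl fun m _ => by simp only [hqs σ m _ a b])
      (fun a b ha => Finset.sum_eq_zero fun m _ => by simp only [hqB σ m _ a b ha, avg]; simp)
      (fun a T => by
        rw [Finset.sum_comm]
        refine le_trans (Finset.sum_le_sum fun m _ => hqT σ m a T) ?_
        simp)
      (fun a y t => by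
        rw [Finset.sum_comm]
        refine le_trans (Finset.sum_le_sum fun m _ => hqt σ m a y t) ?_
        simp [mul_assoc])
      (σ.card • sv i h)
    refine le_trans (Finset.sum_le_sum fun z _ => par_avg hw0 U (hq0 σ) _ z T) ?_
    rw [hTk]
    refine le_trans (Finset.sum_le_sum_of_subset_of_nonneg hZsub fun z _ _ =>
      EK_nonneg hw0 _ fun K _ => EK_nonneg hw0 _ fun K' _ => pow_nonneg
        (Finset.sum_nonneg fun a _ => Finset.sum_nonneg fun b _ => hQ0 a b) _) (le_trans h5 ?_)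
    have h2R : (((2 * R : ℕ) : ℝ)) ^ α ≤ 2 * (R : ℝ) ^ α := by
      push_cast
      rw [Real.mul_rpow (by norm_num) hR0.le]
      refine mul_le_mul_of_nonneg_right ?_ hRα.le
      calc (2 : ℝ) ^ α ≤ (2 : ℝ) ^ (1 : ℝ) :=
            Real.rpow_le_rpow_of_exponent_le (by norm_num) h1.le
        _ = 2 := Real.rpow_one 2
    have h6 : (N : ℝ) * μ * (((2 * R : ℕ) : ℝ)) ^ α
        ≤ N * Cq * 2 * (8 * N) * ((h : ℝ) / R) ^ (1 - α) := by
      calc (N : ℝ) * μ * (((2 * R : ℕ) : ℝ)) ^ α ≤ (N : ℝ) * μ * (2 * (R : ℝ) ^ α) :=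
            mul_le_mul_of_nonneg_left h2R (by positivity)
        _ = N * 2 * (μ * (R : ℝ) ^ α) := by ring
        _ ≤ N * 2 * (Cq * (8 * N) * ((h : ℝ) / R) ^ (1 - α)) :=
          mul_le_mul_of_nonneg_left hμR (by positivity)
        _ = _ := by ring
    have h7 := wshell_pow_num hu0 hu1 k hkα
    have h8 : (((2 * R : ℕ) : ℝ) / h) ^ (2 * d : ℝ)
        = (2 : ℝ) ^ (2 * d : ℝ) * ((h : ℝ) / R)⁻¹ ^ (2 * d : ℝ) := by
      rw [← Real.mul_rpow (by norm_num) (by positivity), inv_div]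
      push_cast
      rw [mul_div_assoc]
    have h9 : 0 ≤ ((h : ℝ) / R)⁻¹ ^ (2 * d : ℝ) := by positivity
    rw [h8]
    calc Cp * (((2 * R : ℕ) : ℝ)) ^ α * ((N : ℝ) * μ * (((2 * R : ℕ) : ℝ)) ^ α) ^ k
          * ((2 : ℝ) ^ (2 * d : ℝ) * ((h : ℝ) / R)⁻¹ ^ (2 * d : ℝ))
        ≤ Cp * (2 * (R : ℝ) ^ α) * (N * Cq * 2 * (8 * N) * ((h : ℝ) / R) ^ (1 - α)) ^ k
          * ((2 : ℝ) ^ (2 * d : ℝ) * ((h : ℝ) / R)⁻¹ ^ (2 * d : ℝ)) := by
          refine mul_le_mul_of_nonneg_right ?_ (by positivity)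
          exact mul_le_mul (mul_le_mul_of_nonneg_left h2R hCp.le)
            (pow_le_pow_left₀ (by positivity) h6 k) (by positivity) (by positivity)
      _ = K₃ * ((R : ℝ) ^ α * ((((h : ℝ) / R) ^ (1 - α)) ^ k * ((h : ℝ) / R)⁻¹ ^ (2 * d : ℝ))) := by
          rw [hK₃, mul_pow _ (_ ^ (1 - α))]; ring
      _ ≤ _ := mul_le_mul_of_nonneg_left (mul_le_mul_of_nonneg_left h7 hRα.le) hK₃0
  -- pointwise bound, averaged
  have hpt : ∀ z ∈ Z, |∑ σ : Finset (Fin N), (-1 : ℝ) ^ σ.card * tau w U (σ.card • sv i h) z|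
      ≤ ∑ σ : Finset (Fin N), (avg (fun W : Fin N → Fin ρ => ∑ a ∈ U, ∑ b ∈ U,
          tau w U (σ.card • sv i h) a * Dk w i h N ρ (2 * R) (SlS i h (wpos ρ W) σ) a b
            * tau w U b z)
        + 2 ^ N * (avg (fun W : Fin N → Fin ρ =>
            SerB w U (fun m => q σ m (W m)) z k Finset.univ (σ.card • sv i h))
          + ∑ T ∈ Finset.powersetCard k (Finset.univ : Finset (Fin N)),
            avg (fun W : Fin N → Fin ρ =>
              ParB w U (fun m => q σ m (W m)) (σ.card • sv i h) z T))) := by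
    intro z hz
    have hz' : ((4 * N * ρ : ℕ) : ℝ) ≤ ‖z‖ := by
      have h5 := (Finset.mem_sdiff.mp hz).2
      rw [mem_ball_zero, not_le] at h5
      have h6 : ((4 * N * ρ : ℕ) : ℝ) ≤ R := by exact_mod_cast hρR
      linarith
    have h5 := wshell_le_avg (Ω := Fin N → Fin ρ) fun W =>
      wshell_point hw0 hw.inv i hh hρh (le_trans hρR hM) hRb hk1 hN.ge (wpos ρ W)
        (fun m => by
          have := (W m).isLt
          unfold wpos
          constructor <;> omega) z hz'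
    refine le_trans h5 (le_of_eq ?_)
    rw [wshell_avg_sum]
    refine Finset.sum_congr rfl fun σ _ => ?_
    rw [wshell_avg_add, wshell_avg_mul, wshell_avg_add,
      wshell_avg_sum (Finset.powersetCard k (Finset.univ : Finset (Fin N)))]
    rfl
  refine le_trans (Finset.sum_le_sum hpt) ?_
  rw [Finset.sum_comm]
  have hσ : ∀ σ : Finset (Fin N), ∑ z ∈ Z, (avg (fun W : Fin N → Fin ρ => ∑ a ∈ U, ∑ b ∈ U,
          tau w U (σ.card • sv i h) a * Dk w i h N ρ (2 * R) (SlS i h (wpos ρ W) σ) a b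
            * tau w U b z)
        + 2 ^ N * (avg (fun W : Fin N → Fin ρ =>
            SerB w U (fun m => q σ m (W m)) z k Finset.univ (σ.card • sv i h))
          + ∑ T ∈ Finset.powersetCard k (Finset.univ : Finset (Fin N)),
            avg (fun W : Fin N → Fin ρ =>
              ParB w U (fun m => q σ m (W m)) (σ.card • sv i h) z T)))
      ≤ (K₁ + 2 ^ N * (K₂ + nT * K₃)) * ((R : ℝ) ^ α * (h / R)) := by
    intro σ
    rw [Finset.sum_add_distrib, ← Finset.mul_sum, Finset.sum_add_distrib, Finset.sum_comm]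
    have h5 := le_trans (Finset.sum_le_card_nsmul _ _ _ (hP σ)) (le_of_eq (nsmul_eq_mul _ _))
    rw [← hnT] at h5
    have h6 := add_le_add (hE σ)
      (mul_le_mul_of_nonneg_left (add_le_add (hS σ) h5) (by positivity : (0 : ℝ) ≤ 2 ^ N))
    refine le_trans h6 (le_of_eq ?_)
    ring
  refine le_trans (Finset.sum_le_sum fun σ _ => hσ σ) (le_of_eq ?_)
  rw [Finset.sum_const, Finset.card_univ, Fintype.card_finset, Fintype.card_fin, nsmul_eq_mul]
  push_cast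
  ring

end Pool.Agent.Lib.MP_6fc7d9_pr
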