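import Pool.Agent.Lib.MP_6fc7d9_pr.WDefs
import Pool.Agent.Lib.MP_6fc7d9_pr.Tight

set_option linter.unusedSectionVars false

namespace Pool.Agent.Lib.MP_6fc7d9_pr
open Finset

variable {V : Type*} [DecidableEq V]

lemma wtight_mono {ν : V → ℝ} (hν : ∀ y, 0 ≤ ν y) {K K' : Finset V} (h : K ⊆ K') :
    ∑ y ∈ K, ν y ≤ ∑ y ∈ K', ν y :=
  Finset.sum_le_sum_of_subset_of_nonneg h fun y _ _ => hν y

lemma wtight_union {ν : V → ℝ} (hν : ∀ y, 0 ≤ ν y) {K K₁ K₂ : Finset V} (h : K ⊆ K₁ ∪ K₂) :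
    ∑ y ∈ K, ν y ≤ ∑ y ∈ K₁, ν y + ∑ y ∈ K₂, ν y := by
  have h1 := wtight_mono hν h
  have h2 := Finset.sum_union_inter (s₁ := K₁) (s₂ := K₂) (f := ν)
  have h3 : 0 ≤ ∑ y ∈ K₁ ∩ K₂, ν y := Finset.sum_nonneg fun y _ => hν y
  linarith

lemma wtight_big_mono {U : Finset V} {ν : V → ℝ} (hν : ∀ y, 0 ≤ ν y) (s : ℝ)
    (S S' : Finset (Sym2 V)) (h : S ⊆ S') (hb : ∃ z, s ≤ ∑ y ∈ cl S U {z}, ν y) :
    ∃ z, s ≤ ∑ y ∈ cl S' U {z}, ν y := by
  obtain ⟨z, hz⟩ := hb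
  exact ⟨z, hz.trans (wtight_mono hν (cl_mono h subset_rfl subset_rfl))⟩

/-- weighted version of `split_two` (same proof) -/
theorem split_two_w (ω : Finset (Sym2 V)) (U : Finset V) {ν : V → ℝ} (hν : ∀ y, 0 ≤ ν y) (x : V)
    {r : ℝ} (hr : 0 < r) (hat : ∀ y ∈ U, ν y ≤ 2 * r) (h : r ≤ ∑ y ∈ cl ω U {x}, ν y) :
    ∃ S ⊆ ω, ∃ y, (∀ e ∈ S, ∃ u ∈ cl ω U {x}, u ∈ e) ∧ r ≤ ∑ u ∈ cl S U {y}, ν u ∧
      ∑ u ∈ cl S U {y}, ν u ≤ 2 * r ∧ cl ω U {x} ⊆ cl S U {y} ∪ cl (ω \ S) U {x} := by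
  induction hn : ω.card using Nat.strong_induction_on generalizing ω x with
  | _ n ih =>
  have hx : x ∈ U := by
    by_contra hx
    rw [cl_of_notMem ω hx, Finset.sum_empty] at h
    linarith
  by_cases hex : ∃ x' ∈ U, s(x, x') ∈ ω
  · obtain ⟨x', hx', he⟩ := hex
    have hlt : (ω.erase s(x, x')).card < n := hn ▸ Finset.card_erase_lt_of_mem he
    have hsub : ω.erase s(x, x') ⊆ ω := Finset.erase_subset _ _
    have hcov := tight_aux2 (ω := ω) hx hx'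
    have hK : cl (ω.erase s(x, x')) U {x} ⊆ cl ω U {x} := cl_mono hsub subset_rfl subset_rfl
    have hx'mem : x' ∈ cl ω U {x} := cl_step (self_mem_cl _ hx) hx' he
    have hK' : cl (ω.erase s(x, x')) U {x'} ⊆ cl ω U {x} :=
      (cl_mono hsub subset_rfl subset_rfl).trans (cl_trans hx'mem)
    have hstep : ∀ S ⊆ ω.erase s(x, x'),
        cl (ω.erase s(x, x') \ S) U {x} ⊆ cl (ω \ S) U {x} ∧
        cl (ω.erase s(x, x') \ S) U {x'} ⊆ cl (ω \ S) U {x} := by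
      intro S hS
      have h1 : ω.erase s(x, x') \ S ⊆ ω \ S := Finset.sdiff_subset_sdiff hsub subset_rfl
      have h2 : x' ∈ cl (ω \ S) U {x} :=
        cl_step (self_mem_cl _ hx) hx' (Finset.mem_sdiff.mpr
          ⟨he, fun h => (Finset.notMem_erase _ _) (hS h)⟩)
      exact ⟨cl_mono h1 subset_rfl subset_rfl,
        (cl_mono h1 subset_rfl subset_rfl).trans (cl_trans h2)⟩
    by_cases h1 : r ≤ ∑ y ∈ cl (ω.erase s(x, x')) U {x}, ν y
    · obtain ⟨S, hS, y, e1, e2, e3, e4⟩ := ih _ hlt _ x h1 rfl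
      refine ⟨S, hS.trans hsub, y, fun e he' => ?_, e2, e3, ?_⟩
      · obtain ⟨u, hu, hue⟩ := e1 e he'
        exact ⟨u, hK hu, hue⟩
      · have e5 : cl (ω.erase s(x, x')) U {x} ⊆ cl S U {y} ∪ cl (ω \ S) U {x} :=
          e4.trans (Finset.union_subset_union_right (hstep S hS).1)
        refine hcov.trans (Finset.union_subset e5 ?_)
        by_cases hm : x' ∈ cl (ω.erase s(x, x')) U {x}
        · exact (cl_trans hm).trans e5
        · exact ((tight_aux1 hm e1).trans (hstep S hS).2).trans Finset.subset_union_right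
    · by_cases h2 : r ≤ ∑ y ∈ cl (ω.erase s(x, x')) U {x'}, ν y
      · obtain ⟨S, hS, y, e1, e2, e3, e4⟩ := ih _ hlt _ x' h2 rfl
        refine ⟨S, hS.trans hsub, y, fun e he' => ?_, e2, e3, ?_⟩
        · obtain ⟨u, hu, hue⟩ := e1 e he'
          exact ⟨u, hK' hu, hue⟩
        · have e5 : cl (ω.erase s(x, x')) U {x'} ⊆ cl S U {y} ∪ cl (ω \ S) U {x} :=
            e4.trans (Finset.union_subset_union_right (hstep S hS).2)
          refine hcov.trans (Finset.union_subset ?_ e5)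
          by_cases hm : x ∈ cl (ω.erase s(x, x')) U {x'}
          · exact (cl_trans hm).trans e5
          · exact ((tight_aux1 hm e1).trans (hstep S hS).1).trans Finset.subset_union_right
      · classical
        have h3 := wtight_union hν hcov
        have h4 : cl (ω.filter fun e => ∃ u ∈ cl ω U {x}, u ∈ e) U {x} = cl ω U {x} :=
          cl_local fun u hu v _ => ⟨fun h => Finset.mem_filter.mpr
            ⟨h, u, hu, Sym2.mem_mk_left _ _⟩, fun h => (Finset.mem_filter.mp h).1⟩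
        refine ⟨ω.filter fun e => ∃ u ∈ cl ω U {x}, u ∈ e, Finset.filter_subset _ _, x,
          fun e he' => (Finset.mem_filter.mp he').2, ?_, ?_, ?_⟩
        · rw [h4]; exact h
        · rw [h4]; linarith
        · rw [h4]; exact Finset.subset_union_left
  · have h1 : cl ω U {x} ⊆ {x} := by
      refine cl_subset_of_closed (fun z hz _ => hz) ?_
      intro u v _ hu hv he
      rw [Finset.mem_singleton.mp hu] at he
      exact absurd ⟨v, hv, he⟩ hex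
    have h2 : cl (∅ : Finset (Sym2 V)) U {x} = {x} := by
      rw [cl_empty_config, Finset.singleton_inter_of_mem hx]
    have h3 := wtight_mono hν h1
    refine ⟨∅, Finset.empty_subset _, x, fun e he => absurd he (Finset.notMem_empty _), ?_, ?_, ?_⟩
    · rw [h2]; linarith
    · rw [h2, Finset.sum_singleton]; exact hat x hx
    · rw [h2]; exact h1.trans Finset.subset_union_left

theorem bigP_nonneg {w : Sym2 V → ℝ} (hw : ∀ e, 0 ≤ w e) (U : Finset V) (ν : V → ℝ) (r : ℝ) :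
    0 ≤ BigP w U ν r := by
  exact Ex_nonneg (pw_nonneg hw) (pw_le_one w) fun ω _ => ind_nonneg _

theorem bigP_mono {w w' : Sym2 V → ℝ} (hw : ∀ e, 0 ≤ w e) (hww : ∀ e, w e ≤ w' e) (U : Finset V)
    {ν : V → ℝ} (hν : ∀ y, 0 ≤ ν y) {r r' : ℝ} (hr : r' ≤ r) : BigP w U ν r ≤ BigP w' U ν r' := by
  calc BigP w U ν r ≤ BigP w U ν r' :=
        Ex_mono (pw_nonneg hw) (pw_le_one w) fun ω _ => ind_mono fun ⟨x, hx⟩ => ⟨x, hr.trans hx⟩
    _ ≤ _ := Ex_mono_p _ (pw_nonneg hw) (pw_le_one w') (pw_mono hww)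
        fun ω ω' h => ind_mono (wtight_big_mono hν r' ω ω' h)

/-- Markov inequality for the sum over clusters of the squared masses -/
theorem bigP_le {w : Sym2 V → ℝ} (hw : ∀ e, 0 ≤ w e) (U : Finset V) {ν : V → ℝ}
    (hν : ∀ y, 0 ≤ ν y) {r : ℝ} (hr : 0 < r) :
    BigP w U ν r ≤ (∑ a ∈ U, ∑ b ∈ U, ν a * ν b * tau w U a b) / r ^ 2 := by
  have e1 : Ex U.sym2 (pw w) (fun ω => ∑ a ∈ U, ∑ b ∈ U, ν a * ν b * ind (b ∈ cl ω U {a}))
      = ∑ a ∈ U, ∑ b ∈ U, ν a * ν b * tau w U a b := by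
    rw [Ex_sum]
    refine Finset.sum_congr rfl fun a _ => ?_
    rw [Ex_sum]
    refine Finset.sum_congr rfl fun b _ => ?_
    rw [Ex_const_mul]
    rfl
  have hnn : ∀ (ω : Finset (Sym2 V)) (a b : V), 0 ≤ ν a * ν b * ind (b ∈ cl ω U {a}) :=
    fun ω a b => mul_nonneg (mul_nonneg (hν a) (hν b)) (ind_nonneg _)
  have e2 : Ex U.sym2 (pw w) (fun ω => r ^ 2 * ind (∃ z, r ≤ ∑ y ∈ cl ω U {z}, ν y))
      ≤ Ex U.sym2 (pw w) (fun ω => ∑ a ∈ U, ∑ b ∈ U, ν a * ν b * ind (b ∈ cl ω U {a})) := by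
    refine Ex_mono (pw_nonneg hw) (pw_le_one w) fun ω _ => ?_
    by_cases hb : ∃ z, r ≤ ∑ y ∈ cl ω U {z}, ν y
    · rw [ind_pos hb, mul_one]
      obtain ⟨z, hz⟩ := hb
      calc r ^ 2 ≤ (∑ y ∈ cl ω U {z}, ν y) * ∑ y ∈ cl ω U {z}, ν y := by
            rw [sq]; exact mul_le_mul hz hz hr.le (hr.le.trans hz)
        _ = ∑ a ∈ cl ω U {z}, ∑ b ∈ cl ω U {z}, ν a * ν b * ind (b ∈ cl ω U {a}) := by
            rw [Finset.sum_mul_sum]
            refine Finset.sum_congr rfl fun a ha => Finset.sum_congr rfl fun b hb => ?_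
            rw [cl_eq_of_mem ha, ind_pos hb, mul_one]
        _ ≤ ∑ a ∈ cl ω U {z}, ∑ b ∈ U, ν a * ν b * ind (b ∈ cl ω U {a}) :=
            Finset.sum_le_sum fun a _ =>
              Finset.sum_le_sum_of_subset_of_nonneg (cl_subset _ _ _) fun b _ _ => hnn ω a b
        _ ≤ _ := Finset.sum_le_sum_of_subset_of_nonneg (cl_subset _ _ _)
            fun a _ _ => Finset.sum_nonneg fun b _ => hnn ω a b
    · rw [ind_neg hb, mul_zero]
      exact Finset.sum_nonneg fun a _ => Finset.sum_nonneg fun b _ => hnn ω a b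
  rw [Ex_const_mul, e1] at e2
  have hr2 : 0 < r ^ 2 := by positivity
  rw [le_div_iff₀ hr2, mul_comm]
  exact e2

/-- `split_two_w` and `bk_prod`: `P(Big (2(k+1)r)) ≤ P(Big r) P(Big (2kr))` -/
theorem bigP_tail {w : Sym2 V → ℝ} (hw : ∀ e, 0 ≤ w e) (U : Finset V) {ν : V → ℝ}
    (hν : ∀ y, 0 ≤ ν y) {r : ℝ} (hr : 0 < r) (hat : ∀ y ∈ U, ν y ≤ 2 * r)
    (hb : BigP w U ν r ≤ 1 / 2) (k : ℕ) : BigP w U ν (2 * k * r) ≤ (1 / 2) ^ k := by
  induction k with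
  | zero => exact Ex_le_const (pw_nonneg hw) (pw_le_one w) fun ω _ => by simpa using ind_le_one _
  | succ k ih =>
    have hk : (0 : ℝ) ≤ k := Nat.cast_nonneg k
    have hbk := bk_prod U.sym2 (pw_nonneg hw) (pw_le_one w)
      (fun ω => ∃ z, r ≤ ∑ y ∈ cl ω U {z}, ν y)
      (fun ω => ∃ z, 2 * k * r ≤ ∑ y ∈ cl ω U {z}, ν y)
      (wtight_big_mono hν r) (wtight_big_mono hν (2 * k * r))
    refine le_trans (Ex_mono (pw_nonneg hw) (pw_le_one w) fun ω _ => ind_mono ?_) (hbk.trans ?_)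
    · rintro ⟨z, hz⟩
      push_cast at hz
      obtain ⟨S, hS, y, -, e2, e3, e4⟩ := split_two_w ω U hν z hr hat (by nlinarith)
      have e5 := wtight_union hν e4
      exact ⟨S, ω \ S, Finset.disjoint_sdiff, hS, Finset.sdiff_subset, ⟨y, e2⟩, z, by nlinarith⟩
    · rw [pow_succ']
      exact mul_le_mul hb ih (bigP_nonneg hw U ν _) (by norm_num)

/-- rooted tail -/
lemma wtight_root {w : Sym2 V → ℝ} (hw : ∀ e, 0 ≤ w e) (U : Finset V) {ν : V → ℝ}
    (hν : ∀ y, 0 ≤ ν y) {r : ℝ} (hr : 0 < r) (hat : ∀ y ∈ U, ν y ≤ 2 * r)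
    (hb : BigP w U ν r ≤ 1 / 2) (x : V) (k : ℕ) :
    EK w U {x} (fun K => ind ((2 * k + 1) * r ≤ ∑ y ∈ K, ν y))
      ≤ (1 / 2) ^ k * ((EK w U {x} fun K => ∑ y ∈ K, ν y) / r) := by
  induction k with
  | zero =>
    rw [pow_zero, one_mul, le_div_iff₀ hr, ← EK_mul_const]
    refine EK_mono hw _ fun K _ => ?_
    by_cases h : (2 * ((0 : ℕ) : ℝ) + 1) * r ≤ ∑ y ∈ K, ν y
    · rw [ind_pos h]; simpa using h
    · rw [ind_neg h, zero_mul]; exact Finset.sum_nonneg fun y _ => hν y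
  | succ k ih =>
    have hk : (0 : ℝ) ≤ k := Nat.cast_nonneg k
    have hbk := bk_prod U.sym2 (pw_nonneg hw) (pw_le_one w)
      (fun ω => ∃ z, r ≤ ∑ y ∈ cl ω U {z}, ν y)
      (fun ω => (2 * k + 1) * r ≤ ∑ y ∈ cl ω U {x}, ν y)
      (wtight_big_mono hν r)
      (fun S S' h h' => h'.trans (wtight_mono hν (cl_mono h subset_rfl subset_rfl)))
    refine le_trans (Ex_mono (pw_nonneg hw) (pw_le_one w) fun ω _ => ind_mono ?_) (hbk.trans ?_)
    · intro hz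
      push_cast at hz
      obtain ⟨S, hS, y, -, e2, e3, e4⟩ := split_two_w ω U hν x hr hat (by nlinarith)
      have e5 := wtight_union hν e4
      exact ⟨S, ω \ S, Finset.disjoint_sdiff, hS, Finset.sdiff_subset, ⟨y, e2⟩, by nlinarith⟩
    · rw [pow_succ', mul_assoc]
      exact mul_le_mul hb ih
        (Ex_nonneg (pw_nonneg hw) (pw_le_one w) fun ω _ => ind_nonneg _) (by norm_num)

/-- layer decomposition of a power -/
lemma wtight_layer {p : ℕ} (hp : 1 ≤ p) {r t : ℝ} (hr : 0 < r) (ht : 0 ≤ t) (N : ℕ)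
    (hN : t < (2 * N + 1) * r) :
    t ^ p ≤ r ^ (p - 1) * t
      + ∑ k ∈ Finset.range N, ((2 * k + 3) * r) ^ p * ind ((2 * (k : ℝ) + 1) * r ≤ t) := by
  induction N with
  | zero =>
    have h1 : t ≤ r := by simpa using hN.le
    rw [Finset.sum_range_zero, add_zero]
    obtain ⟨q, rfl⟩ := Nat.exists_eq_add_of_le' hp
    rw [Nat.add_sub_cancel, pow_succ]
    exact mul_le_mul_of_nonneg_right (pow_le_pow_left₀ ht h1 q) ht
  | succ N ih =>
    rw [Finset.sum_range_succ]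
    have hN0 : (0 : ℝ) ≤ N := Nat.cast_nonneg N
    by_cases h : t < (2 * N + 1) * r
    · have h1 := ih h
      have h2 : 0 ≤ ((2 * (N : ℝ) + 3) * r) ^ p * ind ((2 * (N : ℝ) + 1) * r ≤ t) :=
        mul_nonneg (by positivity) (ind_nonneg _)
      linarith
    · rw [ind_pos (not_lt.1 h), mul_one]
      push_cast at hN
      have h1 : t ^ p ≤ ((2 * (N : ℝ) + 3) * r) ^ p := pow_le_pow_left₀ ht (by linarith) p
      have h2 : 0 ≤ ∑ k ∈ Finset.range N,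
          ((2 * (k : ℝ) + 3) * r) ^ p * ind ((2 * (k : ℝ) + 1) * r ≤ t) :=
        Finset.sum_nonneg fun k _ => mul_nonneg (by positivity) (ind_nonneg _)
      have h3 : 0 ≤ r ^ (p - 1) * t := by positivity
      linarith

lemma wtight_summable (p : ℕ) : Summable fun k : ℕ => (2 * (k : ℝ) + 3) ^ p * (1 / 2) ^ k := by
  have h1 : Summable fun k : ℕ => ((k : ℝ)) ^ p * (1 / 2 : ℝ) ^ k :=
    summable_pow_mul_geometric_of_norm_lt_one p (by rw [Real.norm_eq_abs, abs_lt]; constructor <;> norm_num)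
  have h2 := ((summable_nat_add_iff 1).2 h1).mul_left (3 ^ p * 2)
  refine Summable.of_nonneg_of_le (fun k => by positivity) (fun k => ?_) h2
  have hk : (0 : ℝ) ≤ k := Nat.cast_nonneg k
  have h3 : (2 * (k : ℝ) + 3) ^ p ≤ (3 * ((k : ℝ) + 1)) ^ p :=
    pow_le_pow_left₀ (by positivity) (by linarith) p
  refine (mul_le_mul_of_nonneg_right h3 (by positivity)).trans (le_of_eq ?_)
  push_cast
  rw [mul_pow, pow_succ]; ring

/-- Rooted tail: `P(ν(K_x) ≥ (2k+1) r) ≤ 2^(-k) P(ν(K_x) ≥ r) ≤ 2^(-k) E ν(K_x) / r`; then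
`ν^p ≤ r^(p-1) ν + ∑_k ((2k+3) r)^p ind ((2k+1) r ≤ ν)` (finite sum, `k ≤ ∑_U ν / r`), and
`∑_k (2k+3)^p 2^(-k) < ∞`. -/
theorem moment_of_big (p : ℕ) (hp : 1 ≤ p) :
    ∃ C : ℝ, 0 < C ∧ ∀ (V : Type) [DecidableEq V] (w : Sym2 V → ℝ), (∀ e, 0 ≤ w e) →
      ∀ (U : Finset V) (ν : V → ℝ), (∀ y, 0 ≤ ν y) → ∀ r : ℝ, 0 < r → (∀ y ∈ U, ν y ≤ 2 * r) →
      BigP w U ν r ≤ 1 / 2 → ∀ x, EK w U {x} (fun K => (∑ y ∈ K, ν y) ^ p)
        ≤ C * r ^ (p - 1) * EK w U {x} fun K => ∑ y ∈ K, ν y := by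
  have hS := wtight_summable p
  have hS0 : 0 ≤ ∑' k : ℕ, (2 * (k : ℝ) + 3) ^ p * (1 / 2) ^ k :=
    tsum_nonneg fun k => by positivity
  refine ⟨1 + ∑' k : ℕ, (2 * (k : ℝ) + 3) ^ p * (1 / 2) ^ k, by linarith, ?_⟩
  intro V _ w hw U ν hν r hr hat hb x
  obtain ⟨N, hN⟩ := exists_nat_gt ((∑ y ∈ U, ν y) / r)
  rw [div_lt_iff₀ hr] at hN
  have hN0 : (0 : ℝ) ≤ N := Nat.cast_nonneg N
  set E := EK w U {x} fun K => ∑ y ∈ K, ν y with hE
  have hE0 : 0 ≤ E := EK_nonneg hw _ fun K _ => Finset.sum_nonneg fun y _ => hν y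
  have h1 : EK w U {x} (fun K => (∑ y ∈ K, ν y) ^ p) ≤ EK w U {x} (fun K =>
      r ^ (p - 1) * (∑ y ∈ K, ν y) + ∑ k ∈ Finset.range N,
        ((2 * k + 3) * r) ^ p * ind ((2 * (k : ℝ) + 1) * r ≤ ∑ y ∈ K, ν y)) := by
    refine EK_mono hw _ fun K hK => wtight_layer hp hr (Finset.sum_nonneg fun y _ => hν y) N ?_
    have := wtight_mono hν hK
    nlinarith
  rw [EK_add, EK_const_mul, EK_sum] at h1
  refine h1.trans ?_
  have hrp : r ^ p = r ^ (p - 1) * r := by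
    obtain ⟨q, rfl⟩ := Nat.exists_eq_add_of_le' hp
    rw [Nat.add_sub_cancel, pow_succ]
  have h2 : ∑ k ∈ Finset.range N, EK w U {x} (fun K =>
      ((2 * k + 3) * r) ^ p * ind ((2 * (k : ℝ) + 1) * r ≤ ∑ y ∈ K, ν y))
      ≤ ∑ k ∈ Finset.range N, ((2 * (k : ℝ) + 3) ^ p * (1 / 2) ^ k) * (r ^ (p - 1) * E) := by
    refine Finset.sum_le_sum fun k _ => ?_
    rw [EK_const_mul]
    refine (mul_le_mul_of_nonneg_left (wtight_root hw U hν hr hat hb x k)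
      (by positivity)).trans (le_of_eq ?_)
    rw [mul_pow, hrp, ← hE]
    field_simp
  rw [← Finset.sum_mul] at h2
  have h3 := hS.sum_le_tsum (Finset.range N) fun k _ => by positivity
  have h4 : 0 ≤ r ^ (p - 1) * E := by positivity
  have h5 := mul_le_mul_of_nonneg_right h3 h4
  rw [mul_assoc, add_mul, one_mul]
  linarith

/-- `moment_of_big` with `r = 2 M` (`bigP_le`; `ν y ^ 2 ≤ M ^ 2` since `tau w U y y = 1` for
`y ∈ U`); if `M = 0` then `ν = 0` on `U`. -/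
theorem moment_of_sq (p : ℕ) (hp : 1 ≤ p) :
    ∃ C : ℝ, 0 < C ∧ ∀ (V : Type) [DecidableEq V] (w : Sym2 V → ℝ), (∀ e, 0 ≤ w e) →
      ∀ (U : Finset V) (ν : V → ℝ), (∀ y, 0 ≤ ν y) → ∀ M : ℝ, 0 ≤ M →
      ∑ a ∈ U, ∑ b ∈ U, ν a * ν b * tau w U a b ≤ M ^ 2 → ∀ x,
      EK w U {x} (fun K => (∑ y ∈ K, ν y) ^ p)
        ≤ C * M ^ (p - 1) * EK w U {x} fun K => ∑ y ∈ K, ν y := by
  obtain ⟨C, hC, hM⟩ := moment_of_big p hp
  refine ⟨C * 2 ^ (p - 1), by positivity, ?_⟩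
  intro V _ w hw U ν hν M hM0 hsq x
  have hnn : ∀ a b, 0 ≤ ν a * ν b * tau w U a b := fun a b =>
    mul_nonneg (mul_nonneg (hν a) (hν b)) (tau_nonneg hw U a b)
  have hat : ∀ y ∈ U, ν y ≤ M := by
    intro y hy
    have h1 : tau w U y y = 1 := by
      rw [← Ex_const U.sym2 (pw w) (1 : ℝ)]
      exact Ex_congr fun ω _ => ind_pos (self_mem_cl ω hy)
    have h2 : ν y * ν y * tau w U y y ≤ ∑ b ∈ U, ν y * ν b * tau w U y b :=
      Finset.single_le_sum (f := fun b => ν y * ν b * tau w U y b) (fun b _ => hnn y b) hy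
    have h3 : ∑ b ∈ U, ν y * ν b * tau w U y b ≤ ∑ a ∈ U, ∑ b ∈ U, ν a * ν b * tau w U a b :=
      Finset.single_le_sum (f := fun a => ∑ b ∈ U, ν a * ν b * tau w U a b)
        (fun a _ => Finset.sum_nonneg fun b _ => hnn a b) hy
    rw [h1, mul_one] at h2
    have h4 : ν y ^ 2 ≤ M ^ 2 := by nlinarith
    exact (pow_le_pow_iff_left₀ (hν y) hM0 two_ne_zero).1 h4
  have hE0 : 0 ≤ EK w U {x} fun K => ∑ y ∈ K, ν y :=
    EK_nonneg hw _ fun K _ => Finset.sum_nonneg fun y _ => hν y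
  rcases hM0.eq_or_lt with h0 | hpos
  · have h1 : EK w U {x} (fun K => (∑ y ∈ K, ν y) ^ p) = 0 := by
      rw [← EK_const w U {x} (0 : ℝ)]
      refine EK_congr fun K hK => ?_
      rw [Finset.sum_eq_zero fun y hy => le_antisymm (h0 ▸ hat y (hK hy)) (hν y),
        zero_pow (by omega)]
    rw [h1]
    positivity
  · have hb : BigP w U ν (2 * M) ≤ 1 / 2 := by
      refine (bigP_le hw U hν (by positivity)).trans ?_
      rw [div_le_iff₀ (by positivity)]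
      nlinarith
    refine (hM V w hw U ν hν (2 * M) (by positivity) (fun y hy => by linarith [hat y hy]) hb
      x).trans (le_of_eq ?_)
    rw [mul_pow]; ring

end Pool.Agent.Lib.MP_6fc7d9_pr
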