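import Pool.Agent.Lib.MP_6fc7d9_pr.XHar

/-!
Exploration of a cluster through the edges of a second layer, and the fluctuation bound for the
second-layer edges between heavy vertices.
-/

set_option linter.unusedSectionVars false

namespace Pool.Agent.Lib.MP_6fc7d9_pr
open Finset

variable {V : Type*} [DecidableEq V]

/-- pairs of `F` joining `u` to `W` -/
def xB (u : V) (W : Finset V) (F : Finset (Sym2 V)) : Finset (Sym2 V) :=
  F ∩ W.image fun y => s(u, y)

/-- first-layer cluster in `W` of the second-layer neighbours of `u` -/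
noncomputable def xC (ω : Finset (Sym2 V)) (u : V) (W : Finset V) (ξ : Finset (Sym2 V)) :
    Finset V := cl ω W (W.filter fun y => s(u, y) ∈ ξ)

/-- expected compensated number of examined pairs during `n` exploration steps -/
noncomputable def xRec (p : Sym2 V → ℝ) (N₀ : ℕ) (ρ : ℝ) (ω : Finset (Sym2 V)) :
    ℕ → Finset V → Finset V → Finset (Sym2 V) → ℝ
  | 0, _, _, _ => 0
  | n + 1, W, A, F => if h : A.Nonempty then
      (∑ y ∈ W, p s(h.choose, y) * ind (N₀ ≤ (cl ω W {y}).card) - ρ) +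
        Ex (xB h.choose W F) p fun ξ => xRec p N₀ ρ ω n (W \ xC ω h.choose W ξ)
          (A.erase h.choose ∪ xC ω h.choose W ξ) (F \ xB h.choose W F)
    else 0

lemma xRec_congr (p : Sym2 V → ℝ) (N₀ : ℕ) (ρ : ℝ) {ω ω' : Finset (Sym2 V)} (n : ℕ) :
    ∀ (W A : Finset V) (F : Finset (Sym2 V)),
      (∀ u ∈ W, ∀ v ∈ W, s(u, v) ∈ ω ↔ s(u, v) ∈ ω') →
      xRec p N₀ ρ ω n W A F = xRec p N₀ ρ ω' n W A F := by
  induction n with
  | zero => intro W A F _; rfl
  | succ n ih =>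
    intro W A F h
    simp only [xRec]
    split_ifs with hA
    · have e : ∀ R, cl ω W R = cl ω' W R := fun R => cl_congr R h
      simp only [xC, e]
      congr 1
      exact Ex_congr fun ξ _ => ih _ _ _ fun u hu v hv =>
        h u (Finset.mem_sdiff.mp hu).1 v (Finset.mem_sdiff.mp hv).1
    · rfl

lemma xRec_mean {w : Sym2 V → ℝ} (hw : ∀ e, 0 ≤ w e) {p : Sym2 V → ℝ} (h0 : ∀ e, 0 ≤ p e)
    (h1 : ∀ e, p e ≤ 1) {N₀ : ℕ} {ρ : ℝ}
    (hρ : ∀ (W : Finset V) u, ∑ y ∈ W, p s(u, y) * EK w W {y} (fun K => ind (N₀ ≤ K.card)) ≤ ρ)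
    (E : Finset (Sym2 V)) (n : ℕ) : ∀ (W A : Finset V) (F : Finset (Sym2 V)), W.sym2 ⊆ E →
      Ex E (pw w) (fun ω => xRec p N₀ ρ ω n W A F) ≤ 0 := by
  induction n with
  | zero => intro W A F _; exact (Ex_zero _ _).le
  | succ n ih =>
    intro W A F hE
    simp only [xRec]
    split_ifs with hA
    · rw [Ex_add, Ex_sub, Ex_sum, Ex_const, Ex_comm]
      refine add_nonpos (sub_nonpos.mpr (le_trans (le_of_eq ?_) (hρ W hA.choose))) ?_
      · refine Finset.sum_congr rfl fun y _ => ?_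
        rw [Ex_const_mul, EK_eq_Ex w hE]
      · refine Ex_le_const h0 h1 fun ξ _ => ?_
        have := Ex_markov E (pw w) W (W.filter fun y => s(hA.choose, y) ∈ ξ) (fun _ _ => 1)
          (fun C ω => xRec p N₀ ρ ω n (W \ C) (A.erase hA.choose ∪ C) (F \ xB hA.choose W F))
          (fun _ _ _ _ => rfl) (fun C ω ω' h => xRec_congr p N₀ ρ n _ _ _ fun u hu v hv =>
            h u (Finset.mem_sdiff.mp hu).2 v (Finset.mem_sdiff.mp hv).2)
        simp only [one_smul] at this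
        unfold xC
        rw [this]
        exact Ex_le_const (pw_nonneg hw) (pw_le_one w) fun ω _ => ih _ _ _
          ((Finset.sym2_mono Finset.sdiff_subset).trans hE)
    · exact (Ex_zero _ _).le

lemma xexp_step {ω F ξ₁ ξ₂ : Finset (Sym2 V)} {U W : Finset V} (hW : W ⊆ U) {u : V}
    (hu : u ∈ U \ W) (h1 : ξ₁ ⊆ xB u W F) :
    cl (ω ∪ (ξ₁ ∪ ξ₂)) U (U \ W) = cl (ω ∪ ξ₂) U (U \ (W \ xC ω u W ξ₁)) := by
  have hu' := Finset.mem_sdiff.mp hu
  refine Finset.Subset.antisymm (cl_subset_of_closed (fun x hx hxU => ?_) ?_)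
    (cl_subset_of_closed (fun x hx hxU => ?_) ?_)
  · refine root_mem_cl _ (Finset.mem_sdiff.mpr ⟨hxU, fun h => ?_⟩) hxU
    exact (Finset.mem_sdiff.mp hx).2 (Finset.mem_sdiff.mp h).1
  · intro a b _ ha hb he
    rcases Finset.mem_union.mp he with he | he
    · exact cl_step ha hb (Finset.mem_union_left _ he)
    rcases Finset.mem_union.mp he with he | he
    · obtain ⟨y, hy, e⟩ := Finset.mem_image.mp (Finset.mem_inter.mp (h1 he)).2
      have hyC : y ∈ xC ω u W ξ₁ := root_mem_cl _ (Finset.mem_filter.mpr ⟨hy, e ▸ he⟩) hy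
      refine root_mem_cl _ (Finset.mem_sdiff.mpr ⟨hb, fun h => ?_⟩) hb
      rcases Sym2.eq_iff.mp e with ⟨-, rfl⟩ | ⟨rfl, -⟩
      · exact (Finset.mem_sdiff.mp h).2 hyC
      · exact hu'.2 (Finset.mem_sdiff.mp h).1
    · exact cl_step ha hb (Finset.mem_union_right _ he)
  · by_cases hxW : x ∈ W
    · have hxC : x ∈ xC ω u W ξ₁ := by
        by_contra h
        exact (Finset.mem_sdiff.mp hx).2 (Finset.mem_sdiff.mpr ⟨hxW, h⟩)
      refine cl_subset_of_closed (fun y hy hyW => ?_) (fun a b _ ha hb he => ?_) hxC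
      · exact cl_step (root_mem_cl _ hu hu'.1) (hW hyW) (Finset.mem_union_right _
          (Finset.mem_union_left _ (Finset.mem_filter.mp hy).2))
      · exact cl_step ha (hW hb) (Finset.mem_union_left _ he)
    · exact root_mem_cl _ (Finset.mem_sdiff.mpr ⟨hxU, hxW⟩) hxU
  · intro a b _ ha hb he
    refine cl_step ha hb ?_
    rcases Finset.mem_union.mp he with he | he
    · exact Finset.mem_union_left _ he
    · exact Finset.mem_union_right _ (Finset.mem_union_right _ he)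

lemma xexp_const (F : Finset (Sym2 V)) (G : Sym2 V → Prop) (p : Sym2 V → ℝ) {f : Finset (Sym2 V) → ℝ}
    (P : Prop) (hf : ∀ ξ ⊆ F, f ξ = ind P) {l c r : ℝ} (hl : 0 < l) (hr : 0 ≤ r) :
    Ex F p (fun ξ => f ξ * (cs F G p ξ + c)) ≤ l / 2 * Ex F p f + (c ^ 2 + r) / (2 * l) := by
  have e1 : Ex F p (fun ξ => f ξ * (cs F G p ξ + c)) = ind P * c := by
    rw [Ex_congr (g := fun ξ => ind P * (cs F G p ξ + c)) fun ξ h => by rw [hf ξ h],
      Ex_const_mul, Ex_add, Ex_cs, Ex_const, zero_add]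
  rw [e1, Ex_congr hf, Ex_const, ← sub_le_iff_le_add', le_div_iff₀ (by positivity)]
  by_cases hP : P
  · rw [ind_pos hP]; nlinarith [sq_nonneg (c - l)]
  · rw [ind_neg hP]; nlinarith [sq_nonneg c]

lemma xexp_count {ω F : Finset (Sym2 V)} {U W : Finset V} {N₀ : ℕ} {G : Sym2 V → Prop}
    (hG : ∀ a y, G s(a, y) → N₀ ≤ (cl ω U {y}).card)
    (hI : ∀ a ∈ U \ W, ∀ y ∈ W, s(a, y) ∉ ω) {p : Sym2 V → ℝ} (h0 : ∀ e, 0 ≤ p e) (u : V) :
    ∑ e ∈ xB u W F, ind (G e) * p e ≤ ∑ y ∈ W, p s(u, y) * ind (N₀ ≤ (cl ω W {y}).card) := by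
  have hn : ∀ e, 0 ≤ ind (G e) * p e := fun e => mul_nonneg (ind_nonneg _) (h0 e)
  refine (Finset.sum_le_sum_of_subset_of_nonneg Finset.inter_subset_right fun e _ _ => hn e).trans
    ((Finset.sum_image_le_of_nonneg fun e _ => hn e).trans (Finset.sum_le_sum fun y hy => ?_))
  rw [mul_comm]
  refine mul_le_mul_of_nonneg_left (ind_mono fun h => (hG u y h).trans (Finset.card_le_card ?_))
    (h0 _)
  refine cl_subset_of_closed (fun x hx _ => ?_) fun a b _ ha hb he => ?_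
  · rw [Finset.mem_singleton.mp hx]; exact self_mem_cl _ hy
  · refine cl_step ha ?_ he
    by_contra hbW
    exact hI b (Finset.mem_sdiff.mpr ⟨hb, hbW⟩) a (cl_subset _ _ _ ha) (Sym2.eq_swap ▸ he)

lemma xexp_quenched {p : Sym2 V → ℝ} (h0 : ∀ e, 0 ≤ p e) (h1 : ∀ e, p e ≤ 1) {N₀ : ℕ} {ρ l : ℝ}
    (hρ : 0 ≤ ρ) (hl : 0 < l) {ω : Finset (Sym2 V)} {U : Finset V} {G : Sym2 V → Prop}
    (hG : ∀ a y, G s(a, y) → N₀ ≤ (cl ω U {y}).card) (k n : ℕ) :
    ∀ (W A : Finset V) (F : Finset (Sym2 V)) (c : ℝ), W ⊆ U → A ⊆ U \ W →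
      (∀ a ∈ U \ W, ∀ y ∈ W, s(a, y) ∉ ω) → (∀ a ∈ (U \ W) \ A, ∀ y ∈ W, s(a, y) ∉ F) →
      k = ((U \ W) \ A).card + n →
      Ex F p (fun ξ => ind (k ≤ (cl (ω ∪ ξ) U (U \ W)).card) * (cs F G p ξ + c))
        ≤ l / 2 * Ex F p (fun ξ => ind (k ≤ (cl (ω ∪ ξ) U (U \ W)).card))
          + (c ^ 2 + (xRec p N₀ ρ ω n W A F + ρ * Ex F p fun ξ =>
            ((min (cl (ω ∪ ξ) U (U \ W)).card k : ℕ) : ℝ) - ((U \ W) \ A).card)) / (2 * l) := by
  have hsub : ∀ (W : Finset V) ξ, U \ W ⊆ cl (ω ∪ ξ) U (U \ W) := fun W ξ x hx =>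
    root_mem_cl _ hx (Finset.mem_sdiff.mp hx).1
  have hT : ∀ (W A : Finset V) (F : Finset (Sym2 V)), ((U \ W) \ A).card ≤ k →
      0 ≤ ρ * Ex F p fun ξ =>
        ((min (cl (ω ∪ ξ) U (U \ W)).card k : ℕ) : ℝ) - ((U \ W) \ A).card := fun W A F h =>
    mul_nonneg hρ (Ex_nonneg h0 h1 fun ξ _ => sub_nonneg.mpr (Nat.cast_le.mpr
      (le_min (Finset.card_le_card (Finset.sdiff_subset.trans (hsub W ξ))) h)))
  induction n with
  | zero =>
    intro W A F c _ _ _ _ hk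
    refine xexp_const F G p True (fun ξ _ => ind_congr (iff_true_intro ?_)) hl ?_
    · rw [hk, add_zero]
      exact Finset.card_le_card (Finset.sdiff_subset.trans (hsub W ξ))
    · rw [xRec, zero_add]; exact hT W A F (by omega)
  | succ n ih =>
    intro W A F c hW hA hI hF hk
    by_cases hne : A.Nonempty
    swap
    · refine xexp_const F G p (k ≤ (U \ W).card) (fun ξ hξ => ?_) hl ?_
      · rw [Finset.Subset.antisymm (cl_subset_of_closed (fun x hx _ => hx) ?_) (hsub W ξ)]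
        intro a b _ ha hb he
        refine Finset.mem_sdiff.mpr ⟨hb, fun hbW => ?_⟩
        rcases Finset.mem_union.mp he with he | he
        · exact hI a ha b hbW he
        · exact hF a (Finset.mem_sdiff.mpr ⟨ha, fun h => hne ⟨a, h⟩⟩) b hbW (hξ he)
      · rw [xRec, dif_neg hne, zero_add]; exact hT W A F (by omega)
    rw [xRec, dif_pos hne]
    have huA := hne.choose_spec
    generalize hne.choose = u at huA ⊢
    have hu := hA huA
    have hBF : xB u W F ⊆ F := Finset.inter_subset_left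
    have hd : Disjoint (xB u W F) (F \ xB u W F) := Finset.disjoint_sdiff
    have hsplit : ∀ f : Finset (Sym2 V) → ℝ, Ex F p f
        = Ex (xB u W F) p fun ξ₁ => Ex (F \ xB u W F) p fun ξ₂ => f (ξ₁ ∪ ξ₂) := fun f => by
      rw [← Ex_union hd, Finset.union_sdiff_of_subset hBF]
    have hcs : ∀ ξ₁ ⊆ xB u W F, ∀ ξ₂ ⊆ F \ xB u W F, cs F G p (ξ₁ ∪ ξ₂) + c
        = cs (F \ xB u W F) G p ξ₂ + (cs (xB u W F) G p ξ₁ + c) := fun ξ₁ a ξ₂ b => by
      have := cs_union hd G p a b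
      rw [Finset.union_sdiff_of_subset hBF] at this
      rw [this]; ring
    have hCW : ∀ ξ, xC ω u W ξ ⊆ W := fun ξ => cl_subset _ _ _
    have hset : ∀ ξ, (U \ (W \ xC ω u W ξ)) \ (A.erase u ∪ xC ω u W ξ) = insert u ((U \ W) \ A) := by
      intro ξ
      ext z
      have a1 := @hCW ξ z
      have a2 := Finset.mem_sdiff.mp hu
      simp only [Finset.mem_sdiff, Finset.mem_union, Finset.mem_erase, Finset.mem_insert]
      by_cases hz : z = u
      · subst hz; tauto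
      · tauto
    have hcard : ∀ ξ, ((U \ (W \ xC ω u W ξ)) \ (A.erase u ∪ xC ω u W ξ)).card
        = ((U \ W) \ A).card + 1 := fun ξ => by
      rw [hset, Finset.card_insert_of_notMem fun h => (Finset.mem_sdiff.mp h).2 huA]
    have key : ∀ ξ₁ ⊆ xB u W F, Ex (F \ xB u W F) p (fun ξ₂ =>
        ind (k ≤ (cl (ω ∪ (ξ₁ ∪ ξ₂)) U (U \ W)).card) * (cs F G p (ξ₁ ∪ ξ₂) + c))
        ≤ l / 2 * Ex (F \ xB u W F) p (fun ξ₂ => ind (k ≤ (cl (ω ∪ (ξ₁ ∪ ξ₂)) U (U \ W)).card))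
          + ((cs (xB u W F) G p ξ₁ + c) ^ 2 + (xRec p N₀ ρ ω n (W \ xC ω u W ξ₁)
            (A.erase u ∪ xC ω u W ξ₁) (F \ xB u W F) + ρ * (Ex (F \ xB u W F) p (fun ξ₂ =>
              ((min (cl (ω ∪ (ξ₁ ∪ ξ₂)) U (U \ W)).card k : ℕ) : ℝ) - ((U \ W) \ A).card) - 1)))
            * (2 * l)⁻¹ := by
      intro ξ₁ hξ₁
      have := ih (W \ xC ω u W ξ₁) (A.erase u ∪ xC ω u W ξ₁) (F \ xB u W F)
        (cs (xB u W F) G p ξ₁ + c) (Finset.sdiff_subset.trans hW) ?_ ?_ ?_ (by rw [hcard]; omega)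
      · simp only [xexp_step hW hu hξ₁]
        rw [Ex_congr fun ξ₂ h => by rw [hcs ξ₁ hξ₁ ξ₂ h]]
        refine this.trans (le_of_eq ?_)
        rw [hcard, div_eq_mul_inv _ (2 * l), Ex_sub, Ex_sub, Ex_const, Ex_const]
        push_cast
        ring
      · intro z hz
        rcases Finset.mem_union.mp hz with hz | hz
        · have := Finset.mem_sdiff.mp (hA (Finset.mem_of_mem_erase hz))
          exact Finset.mem_sdiff.mpr ⟨this.1, fun h => this.2 (Finset.mem_sdiff.mp h).1⟩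
        · exact Finset.mem_sdiff.mpr ⟨hW (hCW _ hz), fun h => (Finset.mem_sdiff.mp h).2 hz⟩
      · intro a ha y hy he
        have hy' := Finset.mem_sdiff.mp hy
        by_cases haW : a ∈ W
        · have haC : a ∈ xC ω u W ξ₁ := by
            by_contra h
            exact (Finset.mem_sdiff.mp ha).2 (Finset.mem_sdiff.mpr ⟨haW, h⟩)
          exact hy'.2 (cl_step haC hy'.1 he)
        · exact hI a (Finset.mem_sdiff.mpr ⟨(Finset.mem_sdiff.mp ha).1, haW⟩) y hy'.1 he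
      · intro a ha y hy he
        have hy' := Finset.mem_sdiff.mp hy
        have he' := Finset.mem_sdiff.mp he
        rw [hset] at ha
        rcases Finset.mem_insert.mp ha with rfl | ha
        · exact he'.2 (Finset.mem_inter.mpr ⟨he'.1, Finset.mem_image_of_mem _ hy'.1⟩)
        · exact hF a ha y hy'.1 he'.1
    rw [hsplit, hsplit fun ξ => ind (k ≤ (cl (ω ∪ ξ) U (U \ W)).card), hsplit fun ξ =>
      ((min (cl (ω ∪ ξ) U (U \ W)).card k : ℕ) : ℝ) - ((U \ W) \ A).card]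
    refine (Ex_mono h0 h1 key).trans ?_
    rw [Ex_add, Ex_const_mul, Ex_mul_const, Ex_add, Ex_add, Ex_const_mul, Ex_sub _ _ _ fun _ => 1,
      Ex_const, div_eq_mul_inv _ (2 * l)]
    refine add_le_add le_rfl (mul_le_mul_of_nonneg_right ?_ (by positivity))
    have a1 := Ex_cs_sq (xB u W F) G h0 h1 c
    have a2 := xexp_count (F := F) hG hI h0 u
    linarith

/-- fluctuation bound for the second-layer pairs whose endpoints are heavy in the first layer -/
theorem explore_bound {w : Sym2 V → ℝ} (hw : ∀ e, 0 ≤ w e) {p : Sym2 V → ℝ} (h0 : ∀ e, 0 ≤ p e)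
    (h1 : ∀ e, p e ≤ 1) {N₀ : ℕ} {ρ l : ℝ} (hρ0 : 0 ≤ ρ) (hl : 0 < l)
    (hρ : ∀ (W : Finset V) u, ∑ y ∈ W, p s(u, y) * EK w W {y} (fun K => ind (N₀ ≤ K.card)) ≤ ρ)
    (U : Finset V) (G : Finset (Sym2 V) → Sym2 V → Prop)
    (hG : ∀ ω a y, G ω s(a, y) → N₀ ≤ (cl ω U {y}).card) (k : ℕ) (x : V) :
    Ex U.sym2 (pw w) (fun ω => Ex U.sym2 p fun ξ =>
        ind (k ≤ (cl (ω ∪ ξ) U {x}).card) * cs U.sym2 (G ω) p ξ)
      ≤ l / 2 * Ex U.sym2 (pw w) (fun ω => Ex U.sym2 p fun ξ => ind (k ≤ (cl (ω ∪ ξ) U {x}).card))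
        + ρ * Ex U.sym2 (pw w) (fun ω => Ex U.sym2 p fun ξ =>
          ((min (cl (ω ∪ ξ) U {x}).card k : ℕ) : ℝ)) / (2 * l) := by
  have key : ∀ ω ⊆ U.sym2, Ex U.sym2 p (fun ξ =>
        ind (k ≤ (cl (ω ∪ ξ) U {x}).card) * cs U.sym2 (G ω) p ξ)
      ≤ l / 2 * Ex U.sym2 p (fun ξ => ind (k ≤ (cl (ω ∪ ξ) U {x}).card))
        + (xRec p N₀ ρ ω k (U \ cl ω U {x}) (cl ω U {x}) U.sym2 + ρ * Ex U.sym2 p fun ξ =>
          ((min (cl (ω ∪ ξ) U {x}).card k : ℕ) : ℝ)) * (2 * l)⁻¹ := by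
    intro ω _
    have e0 : U \ (U \ cl ω U {x}) = cl ω U {x} := Finset.sdiff_sdiff_eq_self (cl_subset _ _ _)
    have e1 : ∀ ξ, cl (ω ∪ ξ) U (cl ω U {x}) = cl (ω ∪ ξ) U {x} := fun ξ =>
      Finset.Subset.antisymm (cl_subset_of_closed (fun y hy _ =>
        cl_mono Finset.subset_union_left subset_rfl subset_rfl hy)
        fun a b _ ha hb he => cl_step ha hb he) (cl_subset_of_closed (fun y hy hyU =>
          root_mem_cl _ (root_mem_cl _ hy hyU) hyU) fun a b _ ha hb he => cl_step ha hb he)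
    have := xexp_quenched h0 h1 hρ0 hl (hG ω) k k (U \ cl ω U {x}) (cl ω U {x}) U.sym2 0
      Finset.sdiff_subset e0.ge (fun a ha y hy he => ?_) (fun a ha => ?_) (by rw [e0]; simp)
    · rw [e0] at this
      simpa only [e1, add_zero, sdiff_self, Finset.bot_eq_empty, Finset.card_empty, Nat.cast_zero,
        sub_zero, zero_pow two_ne_zero, zero_add, div_eq_mul_inv _ (2 * l)] using this
    · rw [e0] at ha
      exact (Finset.mem_sdiff.mp hy).2 (cl_step ha (Finset.mem_sdiff.mp hy).1 he)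
    · rw [e0, sdiff_self] at ha
      exact absurd ha (Finset.notMem_empty a)
  refine (Ex_mono (pw_nonneg hw) (pw_le_one w) key).trans ?_
  rw [Ex_add, Ex_const_mul, Ex_mul_const, Ex_add, Ex_const_mul, div_eq_mul_inv _ (2 * l)]
  refine add_le_add le_rfl (mul_le_mul_of_nonneg_right (add_le_of_nonpos_left ?_) (by positivity))
  have := Ex_markov U.sym2 (pw w) U {x} (fun _ _ => 1)
    (fun C ω => xRec p N₀ ρ ω k (U \ C) C U.sym2) (fun _ _ _ _ => rfl)
    (fun C ω ω' h => xRec_congr p N₀ ρ k _ _ _ fun u hu v hv =>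
      h u (Finset.mem_sdiff.mp hu).2 v (Finset.mem_sdiff.mp hv).2)
  simp only [one_smul] at this
  rw [this]
  exact Ex_le_const (pw_nonneg hw) (pw_le_one w) fun ω _ => xRec_mean hw h0 h1 hρ _ k _ _ _
    (Finset.sym2_mono Finset.sdiff_subset)

end Pool.Agent.Lib.MP_6fc7d9_pr
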