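import Pool.Agent.Lib.MP_6fc7d9_pr.XHar
import Pool.Agent.Lib.MP_6fc7d9_pr.WTight

/-!
Large clusters rooted at a vertex that is light in the first layer; truncated moments; the bound
on the two-point function summed over an arbitrary finite set.
-/

set_option linter.unusedSectionVars false

namespace Pool.Agent.Lib.MP_6fc7d9_pr
open Finset

variable {V : Type*} [DecidableEq V]

lemma xlight_min {ι : Type*} (s : Finset ι) (f : ι → ℕ) (N : ℕ) :
    min (∑ i ∈ s, f i) N ≤ ∑ i ∈ s, min (f i) N := by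
  by_cases h : ∃ i ∈ s, N ≤ f i
  · obtain ⟨i, hi, h⟩ := h
    exact (min_le_right _ _).trans ((min_eq_right h).ge.trans
      (Finset.single_le_sum (f := fun i => min (f i) N) (fun _ _ => Nat.zero_le _) hi))
  · push Not at h
    exact (min_le_left _ _).trans (Finset.sum_le_sum fun i hi => (min_eq_left (h i hi).le).ge)

lemma xlight_pt (ω ξ : Finset (Sym2 V)) (U : Finset V) (x : V) {N₀ N : ℕ} (hN : 2 * N₀ ≤ N) :
    ind (N ≤ (cl (ω ∪ ξ) U {x}).card ∧ ¬ N₀ ≤ (cl ω U {x}).card) * (N / 2)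
      ≤ ind (¬ N₀ ≤ (cl ω U {x}).card) * ∑ u ∈ cl ω U {x}, ∑ v ∈ U \ cl ω U {x},
        ind (s(u, v) ∈ ξ) * ((min (cl (ω ∪ ξ) (U \ cl ω U {x}) {v}).card N : ℕ) : ℝ) := by
  by_cases h : N ≤ (cl (ω ∪ ξ) U {x}).card ∧ ¬ N₀ ≤ (cl ω U {x}).card
  swap
  · rw [ind_neg h, zero_mul]
    exact mul_nonneg (ind_nonneg _) (Finset.sum_nonneg fun _ _ => Finset.sum_nonneg fun _ _ =>
      mul_nonneg (ind_nonneg _) (Nat.cast_nonneg _))
  rw [ind_pos h, ind_pos h.2, one_mul, one_mul]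
  set D := cl ω U {x} with hD
  set T := (D ×ˢ (U \ D)).filter fun q => s(q.1, q.2) ∈ ξ with hT
  have h1 : cl (ω ∪ ξ) U {x} ⊆ D ∪ T.biUnion fun q => cl (ω ∪ ξ) (U \ D) {q.2} := by
    refine cl_subset_of_closed (fun y hy hyU => Finset.mem_union_left _ (root_mem_cl _ hy hyU))
      fun a b _ ha hb he => ?_
    by_cases hbD : b ∈ D
    · exact Finset.mem_union_left _ hbD
    have hb' := Finset.mem_sdiff.mpr ⟨hb, hbD⟩
    refine Finset.mem_union_right _ (Finset.mem_biUnion.mpr ?_)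
    rcases Finset.mem_union.mp ha with ha | ha
    · rcases Finset.mem_union.mp he with he | he
      · exact absurd (cl_step ha hb he) hbD
      · exact ⟨(a, b), Finset.mem_filter.mpr ⟨Finset.mem_product.mpr ⟨ha, hb'⟩, he⟩,
          self_mem_cl _ hb'⟩
    · obtain ⟨q, hq, ha⟩ := Finset.mem_biUnion.mp ha
      exact ⟨q, hq, cl_step ha hb' he⟩
  have h2 := (Finset.card_le_card h1).trans ((Finset.card_union_le _ _).trans
    (Nat.add_le_add_left Finset.card_biUnion_le _))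
  have h3 := xlight_min T (fun q => (cl (ω ∪ ξ) (U \ D) {q.2}).card) N
  have h4 : N ≤ 2 * ∑ q ∈ T, min (cl (ω ∪ ξ) (U \ D) {q.2}).card N := by
    have := h.1
    have := h.2
    omega
  have h5 : (N : ℝ) ≤ 2 * ∑ q ∈ T, ((min (cl (ω ∪ ξ) (U \ D) {q.2}).card N : ℕ) : ℝ) := by
    exact_mod_cast h4
  rw [hT, Finset.sum_filter, Finset.sum_product] at h5
  simp only [ind_eq_ite, ite_mul, one_mul, zero_mul]
  linarith

theorem light_bound {w κ : Sym2 V → ℝ} (hw : ∀ e, 0 ≤ w e) (hκ : ∀ e, 0 ≤ κ e) {N₀ N : ℕ}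
    (hN : 2 * N₀ ≤ N) {ε Y Y₀ : ℝ} (hε0 : 0 ≤ ε) (hY0 : 0 ≤ Y)
    (hε : ∀ (W : Finset V) u, ∑ y ∈ W, pw κ s(u, y) ≤ ε)
    (hY : ∀ W v, EK (w + κ) W {v} (fun K => ((min K.card N : ℕ) : ℝ)) ≤ Y) (U : Finset V) (x : V)
    (hY₀ : EK w U {x} (fun K => ((min K.card N₀ : ℕ) : ℝ)) ≤ Y₀) :
    Ex U.sym2 (pw w) (fun ω => Ex U.sym2 (pw κ) fun ξ =>
      ind (N ≤ (cl (ω ∪ ξ) U {x}).card ∧ ¬ N₀ ≤ (cl ω U {x}).card)) * (N / 2) ≤ Y₀ * (ε * Y) := by
  have h0 := pw_nonneg hκ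
  have h1 := pw_le_one κ
  set H : Finset V → Finset (Sym2 V) → ℝ := fun C ω => ∑ u ∈ C, ∑ v ∈ U \ C, pw κ s(u, v) *
    Ex U.sym2 (pw κ) fun ξ => ((min (cl (ω ∪ ξ) (U \ C) {v}).card N : ℕ) : ℝ) with hH
  have s1 : ∀ ω ⊆ U.sym2, Ex U.sym2 (pw κ) (fun ξ =>
      ind (N ≤ (cl (ω ∪ ξ) U {x}).card ∧ ¬ N₀ ≤ (cl ω U {x}).card) * (N / 2))
      ≤ ind (¬ N₀ ≤ (cl ω U {x}).card) • H (cl ω U {x}) ω := fun ω _ => by
    refine (Ex_mono h0 h1 fun ξ _ => xlight_pt ω ξ U x hN).trans (le_of_eq ?_)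
    rw [Ex_const_mul, smul_eq_mul, Ex_sum]
    refine congrArg _ (Finset.sum_congr rfl fun u hu => ?_)
    rw [Ex_sum]
    refine Finset.sum_congr rfl fun v hv => ?_
    have := Ex_indep U.sym2 (pw κ) (fun e => e = s(u, v)) (fun ξ => ind (s(u, v) ∈ ξ))
      (fun ξ => ((min (cl (ω ∪ ξ) (U \ cl ω U {x}) {v}).card N : ℕ) : ℝ))
      (fun ξ ξ' h => ind_congr (h _ rfl)) (fun ξ ξ' h => by
        rw [cl_congr (ω' := ω ∪ ξ') {v} fun a ha b hb => ?_]
        rw [Finset.mem_union, Finset.mem_union, h s(a, b) fun e => ?_]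
        rcases Sym2.eq_iff.mp e with ⟨rfl, -⟩ | ⟨-, rfl⟩
        · exact (Finset.mem_sdiff.mp ha).2 hu
        · exact (Finset.mem_sdiff.mp hb).2 hu)
    rw [Ex_ind_mem (Finset.mk_mem_sym2_iff.mpr
      ⟨cl_subset _ _ _ hu, (Finset.mem_sdiff.mp hv).1⟩)] at this
    exact this
  have s2 := Ex_markov U.sym2 (pw w) U {x} (fun C _ => ind (¬ N₀ ≤ C.card)) H
    (fun _ _ _ _ => rfl) (fun C ω ω' h => Finset.sum_congr rfl fun u _ =>
      Finset.sum_congr rfl fun v _ => congrArg _ (Ex_congr fun ξ _ => by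
        rw [cl_congr (ω' := ω' ∪ ξ) {v} fun a ha b hb => ?_]
        rw [Finset.mem_union, Finset.mem_union,
          h a (Finset.mem_sdiff.mp ha).2 b (Finset.mem_sdiff.mp hb).2]))
  have s3 : ∀ C : Finset V, Ex U.sym2 (pw w) (H C) ≤ C.card * (ε * Y) := fun C => by
    rw [hH, Ex_sum, ← nsmul_eq_mul]
    refine Finset.sum_le_card_nsmul _ _ _ fun u _ => ?_
    rw [Ex_sum]
    refine le_trans (Finset.sum_le_sum fun v _ => ?_)
      ((Finset.sum_mul _ _ _).ge.trans (mul_le_mul_of_nonneg_right (hε (U \ C) u) hY0))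
    rw [Ex_const_mul]
    refine mul_le_mul_of_nonneg_left (le_trans (le_of_eq ?_) (hY (U \ C) v)) (h0 _)
    rw [EK_eq_Ex _ (Finset.sym2_mono (Finset.sdiff_subset (s := U) (t := C))), Ex_add_layers]
  rw [← Ex_mul_const]
  simp only [← Ex_mul_const U.sym2 (pw κ)]
  refine (Ex_mono (pw_nonneg hw) (pw_le_one w) s1).trans (s2.le.trans ?_)
  refine le_trans ?_ (mul_le_mul_of_nonneg_right hY₀ (mul_nonneg hε0 hY0))
  rw [← EK_mul_const]
  refine Ex_mono (pw_nonneg hw) (pw_le_one w) fun ω _ => ?_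
  beta_reduce
  by_cases h : N₀ ≤ (cl ω U {x}).card
  · rw [ind_neg (not_not.mpr h), zero_smul]
    exact mul_nonneg (Nat.cast_nonneg _) (mul_nonneg hε0 hY0)
  · rw [ind_pos h, one_smul, min_eq_left (not_le.mp h).le]
    exact s3 _

lemma xlight_sqrt (k : ℕ) : ∑ j ∈ Finset.range k, 1 / √((j + 1 : ℕ) : ℝ) ≤ 2 * √(k : ℝ) := by
  induction k with
  | zero => simp
  | succ k ih =>
    rw [Finset.sum_range_succ]
    have p : 0 < √((k + 1 : ℕ) : ℝ) := Real.sqrt_pos.mpr (by positivity)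
    have e1 := Real.mul_self_sqrt (Nat.cast_nonneg (α := ℝ) k)
    have e2 := Real.mul_self_sqrt (Nat.cast_nonneg (α := ℝ) (k + 1))
    have : 1 / √((k + 1 : ℕ) : ℝ) ≤ 2 * (√((k + 1 : ℕ) : ℝ) - √(k : ℝ)) := by
      rw [div_le_iff₀ p]
      push_cast at e2 ⊢
      nlinarith [sq_nonneg (√((k : ℝ) + 1) - √(k : ℝ))]
    linarith

/-- truncated first moment from a power tail -/
theorem trunc_of_tail {w : Sym2 V → ℝ} {U : Finset V} {x : V} {A a : ℝ} (hA : 0 ≤ A)
    (ha : a ≤ 1 / 2)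
    (h : ∀ n : ℕ, 1 ≤ n → EK w U {x} (fun K => ind (n ≤ K.card)) ≤ A * (n : ℝ) ^ (-a)) (k : ℕ) :
    EK w U {x} (fun K => ((min K.card k : ℕ) : ℝ)) ≤ 2 * A * (k : ℝ) ^ (1 - a) := by
  have e : ∀ n : ℕ, ((min n k : ℕ) : ℝ) = ∑ j ∈ Finset.range k, ind (j + 1 ≤ n) := fun n => by
    induction k with
    | zero => simp
    | succ k ih =>
      rw [Finset.sum_range_succ, ← ih]
      by_cases hk : k + 1 ≤ n
      · rw [ind_pos hk, min_eq_right hk, min_eq_right (by omega)]; push_cast; ring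
      · rw [ind_neg hk, min_eq_left (by omega), min_eq_left (by omega), add_zero]
  simp only [e]
  rw [EK_sum]
  rcases Nat.eq_zero_or_pos k with rfl | hk
  · simp only [Finset.sum_range_zero]; positivity
  have hk' : (0 : ℝ) < k := by exact_mod_cast hk
  have t : ∀ j ∈ Finset.range k, EK w U {x} (fun K => ind (j + 1 ≤ K.card))
      ≤ A * (k : ℝ) ^ (1 / 2 - a) * (1 / √((j + 1 : ℕ) : ℝ)) := fun j hj => by
    refine (h _ (by omega)).trans ?_
    have p : (0 : ℝ) < (j + 1 : ℕ) := by positivity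
    rw [mul_assoc, Real.sqrt_eq_rpow, one_div (_ ^ _), ← Real.rpow_neg p.le,
      show -a = (1 / 2 - a) + -(1 / 2) by ring, Real.rpow_add p]
    refine mul_le_mul_of_nonneg_left (mul_le_mul_of_nonneg_right (Real.rpow_le_rpow p.le ?_
      (by linarith)) (by positivity)) hA
    exact_mod_cast Finset.mem_range.mp hj
  refine (Finset.sum_le_sum t).trans ?_
  rw [← Finset.mul_sum]
  refine (mul_le_mul_of_nonneg_left (xlight_sqrt k) (by positivity)).trans (le_of_eq ?_)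
  rw [Real.sqrt_eq_rpow, show 1 - a = (1 / 2 - a) + 1 / 2 by ring, Real.rpow_add hk']
  ring

/-- a power tail bounds the two-point function summed over any finite set -/
theorem set_of_tail {A a : ℝ} (hA : 0 < A) (ha0 : 0 < a) (ha : a ≤ 1 / 2) :
    ∃ C : ℝ, 0 < C ∧ ∀ (V : Type) [DecidableEq V] (w : Sym2 V → ℝ), (∀ e, 0 ≤ w e) →
      ∀ U : Finset V,
      (∀ x (n : ℕ), 1 ≤ n → EK w U {x} (fun K => ind (n ≤ K.card)) ≤ A * (n : ℝ) ^ (-a)) →
      ∀ x (T : Finset V), ∑ y ∈ T, tau w U x y ≤ C * (T.card : ℝ) ^ ((1 - a) / (1 + a)) := by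
  obtain ⟨C, hC, hm⟩ := moment_of_sq 2 (by norm_num)
  set B : ℝ := 4 * A * (2 * C + 1) ^ (1 - a) with hB
  have hB0 : 0 < B := by positivity
  refine ⟨B ^ (2 / (1 + a)) + 1, by positivity, fun V _ w hw U h x T => ?_⟩
  rcases T.eq_empty_or_nonempty with rfl | hT
  · rw [Finset.sum_empty]; positivity
  have hT1 : (1 : ℝ) ≤ T.card := by exact_mod_cast hT.card_pos
  have hb : 0 ≤ (1 - a) / (1 + a) := div_nonneg (by linarith) (by linarith)
  have hT2 : 1 ≤ (T.card : ℝ) ^ ((1 - a) / (1 + a)) := Real.one_le_rpow hT1 hb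
  obtain ⟨z, -, hz⟩ := Finset.exists_max_image (insert x T) (fun z => ∑ y ∈ T, tau w U z y)
    (Finset.insert_nonempty _ _)
  set X := ∑ y ∈ T, tau w U z y with hX
  refine (hz x (Finset.mem_insert_self _ _)).trans ?_
  rcases le_or_gt X 1 with hX1 | hX1
  · have : 0 ≤ B ^ (2 / (1 + a)) := by positivity
    nlinarith
  have hX0 : 0 < X := by linarith
  set M := √(T.card * X) with hM
  have hM1 : 1 ≤ M := Real.one_le_sqrt.mpr (by nlinarith)
  have e1 : EK w U {z} (fun K => ∑ y ∈ K, ind (y ∈ T)) = X := by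
    rw [hX]
    unfold tau
    rw [← EK_sum]
    exact EK_congr fun K _ => by rw [sum_ind_mem, sum_ind_mem, Finset.inter_comm]
  have e2 := hm V w hw U (fun y => ind (y ∈ T)) (fun _ => ind_nonneg _) M (by linarith) (by
    rw [hM, Real.sq_sqrt (by positivity), ← nsmul_eq_mul]
    refine le_trans ?_ (Finset.sum_le_card_nsmul T _ _ fun b hb =>
      hz b (Finset.mem_insert_of_mem hb))
    simp only [ind_eq_ite, ite_mul, mul_ite, one_mul, mul_one, mul_zero, zero_mul,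
      Finset.sum_ite_mem, Finset.sum_ite_irrel, Finset.sum_const_zero]
    refine (Finset.sum_le_sum fun b _ => Finset.sum_le_sum_of_subset_of_nonneg
      Finset.inter_subset_right fun y _ _ => tau_nonneg hw U b y).trans ?_
    exact Finset.sum_le_sum_of_subset_of_nonneg Finset.inter_subset_right fun b _ _ =>
      Finset.sum_nonneg fun y _ => tau_nonneg hw U b y) z
  rw [e1, show 2 - 1 = 1 from rfl, pow_one] at e2
  set n := ⌈2 * C * M⌉₊ with hn
  have n1 : 2 * C * M ≤ n := Nat.le_ceil _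
  have n2 : (n : ℝ) ≤ (2 * C + 1) * M := by
    have := Nat.ceil_lt_add_one (a := 2 * C * M) (by positivity)
    nlinarith
  have n0 : (0 : ℝ) < n := lt_of_lt_of_le (by positivity) n1
  have e3 : X ≤ 2 * A * (n : ℝ) ^ (1 - a) + C * M * X * (n : ℝ)⁻¹ := by
    refine le_trans ?_ (add_le_add (trunc_of_tail hA.le ha (h z) n)
      (mul_le_mul_of_nonneg_right e2 (by positivity)))
    rw [← EK_mul_const, ← EK_add, ← e1]
    refine EK_mono hw _ fun K _ => ?_
    rw [sum_ind_mem]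
    have c1 : (K ∩ T).card ≤ K.card := Finset.card_le_card Finset.inter_subset_left
    rcases le_total (K ∩ T).card n with c | c
    · have : ((K ∩ T).card : ℝ) ≤ (min K.card n : ℕ) := by exact_mod_cast le_min c1 c
      exact this.trans (le_add_of_nonneg_right (by positivity))
    · have c' : (n : ℝ) ≤ (K ∩ T).card := by exact_mod_cast c
      refine le_trans ?_ (le_add_of_nonneg_left (Nat.cast_nonneg _))
      rw [← div_eq_mul_inv, le_div_iff₀ n0]
      nlinarith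
  have e4 : C * M * X * (n : ℝ)⁻¹ ≤ X / 2 := by
    rw [← div_eq_mul_inv, div_le_iff₀ n0]
    nlinarith
  have e5 : X ≤ B * ((T.card : ℝ) ^ ((1 - a) / 2) * X ^ ((1 - a) / 2)) := by
    have := Real.rpow_le_rpow n0.le n2 (by linarith : 0 ≤ 1 - a)
    rw [Real.mul_rpow (by positivity) (by positivity), hM, Real.sqrt_eq_rpow,
      ← Real.rpow_mul (by positivity), Real.mul_rpow (by positivity) hX0.le,
      show 1 / 2 * (1 - a) = (1 - a) / 2 by ring] at this
    have := mul_le_mul_of_nonneg_left this (by positivity : 0 ≤ 4 * A)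
    rw [hB]
    linarith
  have e6 : X ^ ((1 + a) / 2) ≤ B * (T.card : ℝ) ^ ((1 - a) / 2) := by
    refine le_of_mul_le_mul_right ?_ (Real.rpow_pos_of_pos hX0 ((1 - a) / 2))
    rwa [← Real.rpow_add hX0, show (1 + a) / 2 + (1 - a) / 2 = 1 by ring, Real.rpow_one, mul_assoc]
  have e7 := Real.rpow_le_rpow (by positivity) e6 (by positivity : 0 ≤ 2 / (1 + a))
  rw [← Real.rpow_mul hX0.le, Real.mul_rpow hB0.le (by positivity), ← Real.rpow_mul (by positivity),
    show (1 + a) / 2 * (2 / (1 + a)) = 1 by field_simp, Real.rpow_one,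
    show (1 - a) / 2 * (2 / (1 + a)) = (1 - a) / (1 + a) by field_simp] at e7
  nlinarith

end Pool.Agent.Lib.MP_6fc7d9_pr
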