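import Pool.Agent.Lib.MP_6fc7d9_pr.XGhost
import Pool.Agent.Lib.MP_6fc7d9_pr.XLight
import Pool.Agent.Lib.MP_6fc7d9_pr.WAvg

/-!
The sharp volume tail for every kernel, in the range `d < 3 α`.
-/

set_option linter.unusedSectionVars false

namespace Pool.Agent.Lib.MP_6fc7d9_pr
open Finset Filter Topology

lemma xtail_ratio (d ρ : ℕ) {δ : ℝ} (hδ : 0 < δ) :
    ∃ R : ℕ, (((2 * (R + ρ) + 1) ^ d : ℕ) : ℝ) ≤ (1 + δ) * (((2 * R + 1) ^ d : ℕ) : ℝ) := by
  have hc : Tendsto (fun t : ℝ => (1 + t) ^ d) (𝓝[>] 0) (𝓝 ((1 + 0) ^ d)) :=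
    (((continuous_const.add continuous_id).pow d).tendsto 0).mono_left nhdsWithin_le_nhds
  rw [add_zero, one_pow] at hc
  obtain ⟨t, ht, ht0⟩ := ((hc.eventually_lt_const (lt_add_of_pos_right 1 hδ)).and
    self_mem_nhdsWithin).exists
  have ht0' : 0 < t := ht0
  obtain ⟨R, hR⟩ := exists_nat_ge (ρ / t)
  rw [div_le_iff₀ ht0'] at hR
  refine ⟨R, le_trans ?_ (mul_le_mul_of_nonneg_right ht.le (Nat.cast_nonneg _))⟩
  push_cast
  rw [← mul_pow]
  exact pow_le_pow_left₀ (by positivity) (by nlinarith) d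

lemma xtail_ball {d : ℕ} {x y : Zd d} {r R : ℕ} (h : y ∈ ball x r) : ball y R ⊆ ball x (r + R) := by
  intro z hz
  rw [mem_ball] at h hz ⊢
  have := norm_add_le (z - y) (y - x)
  rw [sub_add_sub_cancel] at this
  push_cast
  linarith

lemma xtail_self {d : ℕ} (x : Zd d) (r : ℕ) : x ∈ ball x r := mem_ball.mpr (by simp)

lemma xtail_exists {d : ℕ} (U : Finset (Zd d)) (x : Zd d) : ∃ R : ℕ, U ⊆ ball x R := by
  obtain ⟨M, hM⟩ := (U.image fun y => ‖y - x‖).bddAbove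
  obtain ⟨R, hR⟩ := exists_nat_ge M
  exact ⟨R, fun y hy => mem_ball.mpr ((hM (Finset.mem_coe.mpr
    (Finset.mem_image_of_mem _ hy))).trans hR)⟩

lemma xtail_shift {d : ℕ} {w : Sym2 (Zd d) → ℝ} (hinv : Inv w) (U : Finset (Zd d)) (x c : Zd d)
    (H : Finset (Zd d) → ℝ) : EK w (U.map (addRightEmbedding c)) {x + c} H
      = EK w U {x} fun K => H (K.map (addRightEmbedding c)) := by
  have h := EK_map (addRightEmbedding c) w w U {x} (fun a _ b _ => hinv a b c) H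
  rwa [Finset.map_singleton, addRightEmbedding_apply] at h

lemma xtail_card {d r : ℕ} (hd : 1 ≤ d) (hr : 1 ≤ r) (x : Zd d) :
    (1 + (r : ℝ)) ^ d ≤ ((2 * r + 1) ^ d - 1 : ℕ) ∧
      ((ball x r).erase x).card = (2 * r + 1) ^ d - 1 := by
  refine ⟨?_, by rw [Finset.card_erase_of_mem (xtail_self x r), card_ball]⟩
  have : (1 + r) ^ d < (2 * r + 1) ^ d := Nat.pow_lt_pow_left (by omega) (by omega)
  exact_mod_cast Nat.le_sub_one_of_lt this

/-- uniform kernel on the pairs at distance at most `r` -/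
noncomputable def xK {d : ℕ} (r : ℕ) (η : ℝ) : Sym2 (Zd d) → ℝ :=
  Sym2.lift ⟨fun x y => η * ind (y ≠ x ∧ ‖y - x‖ ≤ r), fun x y => by
    simp only [norm_sub_rev x y, ne_comm (a := x)]⟩

lemma xK_mk {d : ℕ} (r : ℕ) (η : ℝ) (x y : Zd d) :
    xK r η s(x, y) = η * ind (y ∈ (ball x r).erase x) := by
  rw [Finset.mem_erase, mem_ball]; rfl

lemma xtail_core {d : ℕ} (hd : 1 ≤ d) {α c₀ C : ℝ} (hα : 0 < α) {w : Sym2 (Zd d) → ℝ}
    (hw : ∀ e, 0 ≤ w e) (hinv : Inv w)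
    (hlow : ∀ x y, x ≠ y → c₀ * kk (d + α) (y - x) ≤ w s(x, y))
    (havg : ∀ (U : Finset (Zd d)) (x : Zd d) (t : ℕ),
      ∑ y ∈ ball x t, tau w U x y ≤ C * (1 + (t : ℝ)) ^ α)
    {N₀ N r : ℕ} (hN : 1 ≤ N) (hN₀ : 2 * N₀ ≤ N) (hr : 1 ≤ r) {D P Y ε : ℝ} (hD : 0 < D)
    (hP0 : 0 < P) (hε0 : 0 < ε) (hε1 : ε ≤ 1) (hεr : ε * (1 + (r : ℝ)) ^ α ≤ c₀)
    (hD1 : ∀ U x k, N ≤ k → EK w U {x} (fun K => ind (k ≤ K.card)) ≤ D)
    (hD2 : ∀ U x k, N ≤ k → EK w U {x} (fun K => ((min K.card k : ℕ) : ℝ)) ≤ 2 * k * D)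
    (hP : ∀ U x, EK w U {x} (fun K => ind (N₀ ≤ K.card)) ≤ P)
    (hY : ∀ U x, EK w U {x} (fun K => ((min K.card N₀ : ℕ) : ℝ)) ≤ Y) (hYε : 16 * Y * ε ≤ 1)
    (hsm : 1152 * √(ε * P) ≤ ε * D * √N) {U₀ : Finset (Zd d)} {x₀ : Zd d}
    (hnear : D / 2 ≤ EK w U₀ {x₀} fun K => ind (N ≤ K.card)) :
    (1 + (r : ℝ)) ^ d * D ^ 2 ≤ 32 * (C * (1 + (r : ℝ)) ^ α) := by
  set m : ℝ := (((2 * r + 1) ^ d - 1 : ℕ) : ℝ) with hm
  have hr0 : (0 : ℝ) < 1 + r := by positivity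
  have hm1 : (1 + (r : ℝ)) ^ d ≤ m := (xtail_card hd hr (0 : Zd d)).1
  have hm2 : ∀ x : Zd d, (((ball x r).erase x).card : ℝ) = m := fun x => by
    rw [(xtail_card hd hr x).2]
  have hm3 : 1 ≤ m := (one_le_pow₀ (by linarith [Nat.cast_nonneg (α := ℝ) r])).trans hm1
  have hm0 : 0 < m := by linarith
  set η := ε / m with hη
  have hη0 : 0 < η := by positivity
  have hη1 : η ≤ 1 := by rw [hη, div_le_one hm0]; linarith
  set κ : Sym2 (Zd d) → ℝ := xK r η with hκd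
  have hκ : ∀ e, 0 ≤ κ e := fun e => by
    induction e using Sym2.ind with
    | h x y => rw [hκd, xK_mk]; exact mul_nonneg hη0.le (ind_nonneg _)
  have hκw : ∀ e, κ e ≤ w e := fun e => by
    induction e using Sym2.ind with
    | h x y =>
      rw [hκd, xK_mk]
      by_cases h : y ∈ (ball x r).erase x
      swap
      · rw [ind_neg h, mul_zero]; exact hw _
      rw [ind_pos h, mul_one]
      obtain ⟨h1, h2⟩ := Finset.mem_erase.mp h
      refine le_trans ?_ (hlow x y (Ne.symm h1))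
      have b1 : (1 + (r : ℝ)) ^ (-((d : ℝ) + α)) ≤ kk (d + α) (y - x) :=
        Real.rpow_le_rpow_of_nonpos (by positivity) (by linarith [mem_ball.mp h2])
          (by linarith [Nat.cast_nonneg (α := ℝ) d])
      have b2 : η ≤ ε * (1 + (r : ℝ)) ^ α * (1 + (r : ℝ)) ^ (-((d : ℝ) + α)) := by
        rw [mul_assoc, ← Real.rpow_add hr0, show α + -((d : ℝ) + α) = -(d : ℝ) by ring,
          Real.rpow_neg hr0.le, Real.rpow_natCast, ← div_eq_mul_inv]
        exact div_le_div_of_nonneg_left hε0.le (by positivity) hm1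
      exact b2.trans (mul_le_mul hεr b1 (by positivity) (le_trans (by positivity) hεr))
  have hw' : ∀ e, 0 ≤ (w - κ) e := fun e => sub_nonneg.mpr (hκw e)
  have hle : ∀ e, (w - κ) e ≤ w e := fun e => sub_le_self _ (hκ e)
  have hadd : w - κ + κ = w := sub_add_cancel _ _
  have hε : ∀ (W : Finset (Zd d)) u, ∑ y ∈ W, pw κ s(u, y) ≤ ε := fun W u => by
    refine (Finset.sum_le_sum fun y _ => pw_le κ _).trans ?_
    simp only [hκd, xK_mk]
    rw [← Finset.mul_sum, sum_ind_mem, hη, div_mul_eq_mul_div, div_le_iff₀ hm0, ← hm2 u]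
    exact mul_le_mul_of_nonneg_left (Nat.cast_le.mpr (Finset.card_le_card
      Finset.inter_subset_right)) hε0.le
  have mono1 : ∀ k : ℕ, Monotone fun K : Finset (Zd d) => ind (k ≤ K.card) := fun k _ _ h =>
    ind_mono fun h' => h'.trans (Finset.card_le_card h)
  have hρ : ∀ (W : Finset (Zd d)) u, ∑ y ∈ W, pw κ s(u, y) *
      EK (w - κ) W {y} (fun K => ind (N₀ ≤ K.card)) ≤ ε * P := fun W u => by
    refine le_trans (Finset.sum_le_sum fun y _ => mul_le_mul_of_nonneg_left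
      ((EK_mono_dom hw' hle subset_rfl subset_rfl (mono1 N₀)).trans (hP W y)) (pw_nonneg hκ _)) ?_
    rw [← Finset.sum_mul]
    exact mul_le_mul_of_nonneg_right (hε W u) hP0.le
  obtain ⟨R₀, hR₀⟩ := xtail_exists U₀ x₀
  obtain ⟨R, hR⟩ := xtail_ratio d (r + R₀) one_pos
  set U : Finset (Zd d) := ball 0 (R + (r + R₀)) with hU
  have q0 := pw_nonneg hw'
  have q1 := pw_le_one (w - κ)
  have p0 := pw_nonneg hκ
  have p1 := pw_le_one κ
  have hN' : (0 : ℝ) < N := by exact_mod_cast hN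
  set f : Zd d → Finset (Sym2 (Zd d)) → Finset (Sym2 (Zd d)) → ℝ := fun x ω ξ =>
    ind (N₀ ≤ (cl ω U {x}).card ∧ N ≤ (cl (ω ∪ ξ) U {x}).card) with hf
  have s1 : ∀ x ∈ ball (0 : Zd d) (R + r),
      D / 4 ≤ Ex U.sym2 (pw (w - κ)) fun ω => Ex U.sym2 (pw κ) (f x ω) := fun x hx => by
    have a1 : D / 2 ≤ EK w U {x} fun K => ind (N ≤ K.card) := by
      have := xtail_shift hinv U₀ x₀ (x - x₀) fun K => ind (N ≤ K.card)
      simp only [Finset.card_map, add_sub_cancel] at this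
      refine hnear.trans (this.ge.trans (EK_mono_dom hw (fun _ => le_rfl) (fun z hz => ?_)
        subset_rfl (mono1 N)))
      obtain ⟨y, hy, rfl⟩ := Finset.mem_map.mp hz
      rw [hU, ← add_assoc]
      refine xtail_ball hx (mem_ball.mpr ?_)
      rw [addRightEmbedding_apply, show y + (x - x₀) - x = y - x₀ by abel]
      exact mem_ball.mp (hR₀ hy)
    have a2 := light_bound hw' hκ hN₀ hε0.le (Y := 2 * N * D) (by positivity) hε
      (fun W v => by rw [hadd]; exact hD2 W v N le_rfl) U x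
      ((EK_mono_dom hw' hle subset_rfl subset_rfl fun _ _ h => Nat.cast_le.mpr
        (min_le_min (Finset.card_le_card h) le_rfl)).trans (hY U x))
    rw [← hadd, EK, Ex_add_layers] at a1
    have a3 : Ex U.sym2 (pw (w - κ)) (fun ω => Ex U.sym2 (pw κ) (f x ω))
        = Ex U.sym2 (pw (w - κ)) (fun ω => Ex U.sym2 (pw κ) fun ξ =>
            ind (N ≤ (cl (ω ∪ ξ) U {x}).card)) - Ex U.sym2 (pw (w - κ)) fun ω =>
          Ex U.sym2 (pw κ) fun ξ =>
            ind (N ≤ (cl (ω ∪ ξ) U {x}).card ∧ ¬ N₀ ≤ (cl ω U {x}).card) := by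
      rw [← Ex_sub]
      refine Ex_congr fun ω _ => ?_
      rw [← Ex_sub]
      exact Ex_congr fun ξ _ => by simp only [hf, ind_and, ind_not]; ring
    rw [a3]
    have a4 : Y * (ε * (2 * N * D)) ≤ D / 4 * (N / 2) := by
      nlinarith [mul_le_mul_of_nonneg_right hYε (mul_pos hN' hD).le]
    have a5 := le_of_mul_le_mul_right (a2.trans a4) (by positivity)
    linarith
  have mf : ∀ x a a' b b', a ⊆ a' → b ⊆ b' → f x a b ≤ f x a' b' := fun x a a' b b' h h' =>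
    ind_mono fun k => ⟨k.1.trans (Finset.card_le_card (cl_mono h subset_rfl subset_rfl)),
      k.2.trans (Finset.card_le_card (cl_mono (Finset.union_subset_union h h') subset_rfl
        subset_rfl))⟩
  have hg := two_ghost hw' hκ hN (mul_pos hε0 hP0) hρ U hD.le
    (fun x k hk => by rw [hadd]; exact hD1 U x k hk) (fun x k hk => by rw [hadd]; exact hD2 U x k hk)
  set g : Zd d → Zd d → ℝ := fun x y => pw κ s(x, y) * Ex U.sym2 (pw (w - κ)) (fun ω =>
    Ex U.sym2 (pw κ) fun ξ => ind ((N₀ ≤ (cl ω U {x}).card ∧ N₀ ≤ (cl ω U {y}).card) ∧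
      y ∉ cl (ω ∪ ξ) U {x} ∧ N ≤ (cl (ω ∪ ξ) U {x}).card ∧ N ≤ (cl (ω ∪ ξ) U {y}).card)) with hgd
  have g0 : ∀ x y, 0 ≤ g x y := fun x y => mul_nonneg (p0 _)
    (Ex_nonneg q0 q1 fun _ _ => Ex_nonneg p0 p1 fun _ _ => ind_nonneg _)
  set π := 1 - Real.exp (-η) with hπ
  have hπ1 : η / 2 ≤ π := by
    have b1 := Real.add_one_le_exp η
    have b2 : Real.exp (-η) * Real.exp η = 1 := by rw [← Real.exp_add]; simp
    have b3 := Real.exp_pos (-η)
    rw [hπ]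
    nlinarith [mul_le_mul_of_nonneg_left b1 b3.le]
  have hsub : ∀ k, k ≤ r + R₀ → ball (0 : Zd d) (R + k) ⊆ U := fun k hk z hz =>
    mem_ball.mpr ((mem_ball.mp hz).trans (by exact_mod_cast Nat.add_le_add_left hk R))
  have s2 : ∀ x ∈ ball (0 : Zd d) R, π * (m * (D ^ 2 / 16) - C * (1 + (r : ℝ)) ^ α)
      ≤ ∑ y ∈ U, g x y := fun x hx => by
    have hxr : ball x r ⊆ ball 0 (R + r) := xtail_ball hx
    refine le_trans ?_ (Finset.sum_le_sum_of_subset_of_nonneg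
      ((Finset.erase_subset x _).trans (hxr.trans (hsub r (by omega)))) fun y _ _ => g0 x y)
    have t : ∀ y ∈ (ball x r).erase x, π * (D ^ 2 / 16 - tau w U x y) ≤ g x y := fun y hy => by
      have e : pw κ s(x, y) = π := by rw [pw, hκd, xK_mk, ind_pos hy, mul_one]
      simp only [hgd, e]
      refine mul_le_mul_of_nonneg_left ?_ (by linarith)
      have b1 := harris_two U.sym2 U.sym2 q0 q1 p0 p1 (mf x) (mf y)
      have b2 := mul_le_mul (s1 x (hxr (xtail_self x r))) (s1 y (hxr (Finset.mem_of_mem_erase hy)))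
        (by positivity) ((by positivity : 0 ≤ D / 4).trans (s1 x (hxr (xtail_self x r))))
      have b3 : tau w U x y = Ex U.sym2 (pw (w - κ)) fun ω => Ex U.sym2 (pw κ) fun ξ =>
          ind (y ∈ cl (ω ∪ ξ) U {x}) := by
        rw [← Ex_add_layers U.sym2 (w - κ) κ fun ω => ind (y ∈ cl ω U {x}), hadd]; rfl
      refine le_trans (sub_le_sub_right (le_trans (by linarith) (b2.trans b1)) _) ?_
      rw [b3, ← Ex_sub]
      refine Ex_mono q0 q1 fun ω _ => ?_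
      rw [← Ex_sub]
      refine Ex_mono p0 p1 fun ξ _ => ?_
      simp only [hf, ← ind_and]
      by_cases h : y ∈ cl (ω ∪ ξ) U {x}
      · rw [ind_pos h]; exact (sub_nonpos.mpr (ind_le_one _)).trans (ind_nonneg _)
      · rw [ind_neg h, sub_zero]; exact ind_mono fun k => ⟨⟨k.1.1, k.2.1⟩, h, k.1.2, k.2.2⟩
    refine le_trans ?_ (Finset.sum_le_sum t)
    rw [← Finset.mul_sum, Finset.sum_sub_distrib, Finset.sum_const, nsmul_eq_mul, hm2]
    refine mul_le_mul_of_nonneg_left (sub_le_sub_left (le_trans ?_ (havg U x r)) _) (by linarith)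
    exact Finset.sum_le_sum_of_subset_of_nonneg (Finset.erase_subset _ _) fun y _ _ =>
      tau_nonneg hw U x y
  have s3 := (Finset.card_nsmul_le_sum _ _ _ s2).trans ((Finset.sum_le_sum_of_subset_of_nonneg
    (hsub 0 (by omega)) fun x _ _ => Finset.sum_nonneg fun y _ => g0 x y).trans hg)
  rw [nsmul_eq_mul, hU, card_ball, card_ball] at s3
  have b0 : (0 : ℝ) < ((2 * R + 1) ^ d : ℕ) := by positivity
  have hs : 0 < √(N : ℝ) := Real.sqrt_pos.mpr hN'
  have s4 : π * (m * (D ^ 2 / 16) - C * (1 + (r : ℝ)) ^ α) ≤ ε * D ^ 2 / 64 := by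
    refine le_of_mul_le_mul_left (s3.trans ?_) b0
    rw [div_le_iff₀ hs]
    have c1 : 0 ≤ D * √(ε * P) := by positivity
    have c2 := mul_le_mul_of_nonneg_right hR c1
    have c3 := mul_le_mul_of_nonneg_left hsm (mul_pos b0 hD).le
    nlinarith
  have hC : 0 ≤ C * (1 + (r : ℝ)) ^ α :=
    le_trans (Finset.sum_nonneg fun y _ => tau_nonneg hw U 0 y) (havg U 0 r)
  refine (mul_le_mul_of_nonneg_right hm1 (sq_nonneg D)).trans ?_
  rcases le_or_gt (m * (D ^ 2 / 16) - C * (1 + (r : ℝ)) ^ α) 0 with h | h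
  · linarith
  · have c1 := (mul_le_mul_of_nonneg_right hπ1 h.le).trans s4
    have c2 : ε = η * m := by rw [hη]; field_simp
    rw [c2] at c1
    have c3 : η * (m * D ^ 2) ≤ η * (32 * (C * (1 + (r : ℝ)) ^ α)) := by linarith
    exact le_of_mul_le_mul_left c3 hη0

lemma xtail_sm {A a N₀ N L ε : ℝ} (hA0 : 0 < A) (ha1 : a < 1 / 2) (n0 : 0 < N₀) (hN0 : 0 < N)
    (hL0 : 0 < L) (hL1 : 7373 ≤ L ^ (1 / 2 - a)) (n2 : N₀ * L ≤ N)
    (hε : ε = 1 / (32 * (A * N₀ ^ (1 - a)))) :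
    1152 * √(ε * (A * N₀ ^ (-a))) ≤ ε * (A * N ^ (-a)) * √N := by
  have s0 : 0 < √N₀ := Real.sqrt_pos.mpr n0
  have q0 : 0 < N₀ ^ (1 / 2 - a) := by positivity
  have e1 : N₀ ^ (1 - a) = N₀ ^ (1 / 2 - a) * √N₀ := by
    rw [Real.sqrt_eq_rpow, ← Real.rpow_add n0]; congr 1; ring
  have e2 : N₀ ^ (1 - a) = N₀ * N₀ ^ (-a) := by
    rw [sub_eq_add_neg, Real.rpow_add n0, Real.rpow_one]
  have e3 : N ^ (-a) * √N = N ^ (1 / 2 - a) := by
    rw [Real.sqrt_eq_rpow, ← Real.rpow_add hN0]; congr 1; ring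
  have b1 : √(ε * (A * N₀ ^ (-a))) ≤ 1 / (5 * √N₀) := by
    rw [Real.sqrt_le_left (by positivity), div_pow, mul_pow, Real.sq_sqrt n0.le, hε, e2,
      show 1 / (32 * (A * (N₀ * N₀ ^ (-a)))) * (A * N₀ ^ (-a)) = 1 / (32 * N₀) by
        field_simp, one_pow]
    exact one_div_le_one_div_of_le (by positivity) (by nlinarith)
  have b2 : N₀ ^ (1 / 2 - a) * 7373 ≤ N ^ (1 / 2 - a) := by
    refine (mul_le_mul_of_nonneg_left hL1 q0.le).trans ?_
    rw [← Real.mul_rpow n0.le hL0.le]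
    exact Real.rpow_le_rpow (by positivity) n2 (by linarith)
  have e4 : ε * (A * N ^ (-a)) * √N
      = N ^ (1 / 2 - a) / (32 * (N₀ ^ (1 / 2 - a) * √N₀)) := by
    rw [← e3, hε, e1]; field_simp
  rw [e4]
  refine (mul_le_mul_of_nonneg_left b1 (by norm_num)).trans (le_trans ?_
    (div_le_div_of_nonneg_right b2 (by positivity)))
  rw [mul_one_div, div_le_div_iff₀ (by positivity) (by positivity)]
  nlinarith [mul_pos q0 s0]

lemma xtail_close {d : ℕ} {α c₀ C A a N₀ N L r ε : ℝ} (hα : 0 < α) (hd : α < d) (hc : 0 < c₀)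
    (hC : 0 < C) (hA1 : 1 ≤ A) (hae : (1 - a) * ((α - d) / α) = -(2 * a)) (ha0 : 0 < a)
    (n0 : 0 < N₀) (hN0 : 0 < N) (hL0 : 0 < L) (n3 : N ≤ 2 * L * N₀) (hr0 : 0 < r) (hε0 : 0 < ε)
    (hcε : c₀ / ε = 32 * c₀ * (A * N₀ ^ (1 - a))) (hr3 : (c₀ / ε) ^ α⁻¹ / 2 ≤ r)
    (core : r ^ d * (A * N ^ (-a)) ^ 2 ≤ 32 * (C * r ^ α)) :
    A ≤ 32 * C * (2 ^ (d - α) * ((32 * c₀) ^ ((α - d) / α) * (2 * L) ^ (2 * a))) := by
  have c1 : (A * N ^ (-a)) ^ 2 ≤ 32 * C * r ^ (α - d) := by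
    rw [Real.rpow_sub hr0, Real.rpow_natCast, ← mul_div_assoc, le_div_iff₀ (by positivity)]
    linarith
  have c2 : r ^ (α - d) ≤ 2 ^ (d - α) * (c₀ / ε) ^ ((α - d) / α) := by
    refine (Real.rpow_le_rpow_of_nonpos (by positivity) hr3 (by linarith)).trans (le_of_eq ?_)
    rw [Real.div_rpow (by positivity) (by norm_num), ← Real.rpow_mul (by positivity), div_eq_mul_inv,
      ← Real.rpow_neg (by norm_num), neg_sub, mul_comm, inv_mul_eq_div]
  have hneg : (α - d) / α ≤ 0 := div_nonpos_of_nonpos_of_nonneg (by linarith) hα.le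
  have c3 : (c₀ / ε) ^ ((α - d) / α)
      ≤ (32 * c₀) ^ ((α - d) / α) * ((2 * L) ^ (2 * a) * (N ^ (-a)) ^ 2) := by
    rw [hcε, Real.mul_rpow (by positivity) (by positivity)]
    refine mul_le_mul_of_nonneg_left ?_ (by positivity)
    refine (Real.rpow_le_rpow_of_nonpos (by positivity : 0 < N₀ ^ (1 - a))
      (le_mul_of_one_le_left (by positivity) hA1) hneg).trans ?_
    rw [← Real.rpow_mul n0.le, hae]
    refine (Real.rpow_le_rpow_of_nonpos (by positivity : 0 < N / (2 * L)) ?_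
      (by linarith)).trans (le_of_eq ?_)
    · rw [div_le_iff₀' (by positivity)]; exact n3
    · rw [Real.div_rpow hN0.le (by positivity), div_eq_mul_inv, ← Real.rpow_neg (by positivity),
        neg_neg, mul_comm, ← Real.rpow_natCast, ← Real.rpow_mul hN0.le]
      congr 2
      push_cast
      ring
  have c4 : A ^ 2 * (N ^ (-a)) ^ 2 ≤ (32 * C * (2 ^ (d - α) * ((32 * c₀) ^ ((α - d) / α) * (2 * L) ^ (2 * a)))) * (N ^ (-a)) ^ 2 := by
    rw [← mul_pow]
    refine c1.trans ((mul_le_mul_of_nonneg_left (c2.trans (mul_le_mul_of_nonneg_left c3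
      (by positivity))) (by positivity)).trans (le_of_eq ?_))
    ring
  have c5 := le_of_mul_le_mul_right c4 (by positivity)
  nlinarith

theorem sharp_tail (d : ℕ) {α c₀ : ℝ} (hα : 0 < α) (hd : α < d) (h3 : d < 3 * α) (hc : 0 < c₀) :
    ∃ A : ℝ, 0 < A ∧ ∀ w : Sym2 (Zd d) → ℝ, (∀ e, 0 ≤ w e) → Inv w →
      (∀ x y, x ≠ y → c₀ * kk (d + α) (y - x) ≤ w s(x, y)) → (∃ X : ℝ, ∀ U x, chi w U x ≤ X) →
      ∀ (U : Finset (Zd d)) (x : Zd d) (n : ℕ), 1 ≤ n →
        EK w U {x} (fun K => ind (n ≤ K.card)) ≤ A * (n : ℝ) ^ (-((d - α) / (d + α))) := by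
  obtain ⟨C, hC, havg⟩ := avg_bound d hα hd hc
  have hda : 0 < (d : ℝ) + α := by linarith
  have hd1 : 1 ≤ d := by
    have : (0 : ℝ) < d := by linarith
    exact_mod_cast this
  set a : ℝ := (d - α) / (d + α) with ha
  have ha0 : 0 < a := div_pos (by linarith) hda
  have ha1 : a < 1 / 2 := by rw [ha, div_lt_iff₀ hda]; linarith
  have hae : (1 - a) * ((α - d) / α) = -(2 * a) := by rw [ha]; field_simp; ring
  obtain ⟨L, hL1, hL2⟩ := ((((tendsto_rpow_atTop (sub_pos.mpr ha1)).comp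
    (tendsto_natCast_atTop_atTop (R := ℝ))).eventually_ge_atTop 7373).and
      (eventually_ge_atTop 2)).exists
  simp only [Function.comp_apply] at hL1
  have hL0 : (0 : ℝ) < L := by exact_mod_cast (by omega : 0 < L)
  set K : ℝ := 32 * C * (2 ^ (d - α) * ((32 * c₀) ^ ((α - d) / α) * (2 * L) ^ (2 * a))) with hK
  have hK0 : 0 < K := by positivity
  have hK1 : 0 < 2 ^ α / (32 * c₀) := by positivity
  refine ⟨2 * L + 2 ^ α / (32 * c₀) + K, by positivity, ?_⟩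
  rintro w hw hinv hlow ⟨X, hX⟩
  set S : Set ℝ := {t | ∃ (U : Finset (Zd d)) (x : Zd d) (n : ℕ), 1 ≤ n ∧
    t = EK w U {x} (fun K => ind (n ≤ K.card)) * (n : ℝ) ^ a} with hS
  have pw1 : ∀ n : ℕ, 1 ≤ n → (n : ℝ) ^ a ≤ n := fun n hn =>
    Real.rpow_le_self_of_one_le (by exact_mod_cast hn) (by linarith)
  have hb : BddAbove S := by
    refine ⟨X, ?_⟩
    rintro _ ⟨U, x, n, hn, rfl⟩
    refine (mul_le_mul_of_nonneg_left (pw1 n hn) (EK_nonneg hw _ fun _ _ => ind_nonneg _)).trans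
      (le_trans ?_ (hX U x))
    rw [← EK_mul_const]
    refine EK_mono hw _ fun K _ => ?_
    by_cases h : n ≤ K.card
    · rw [ind_pos h, one_mul]; exact_mod_cast h
    · rw [ind_neg h, zero_mul]; exact Nat.cast_nonneg _
  have h1S : (1 : ℝ) ∈ S := by
    refine ⟨{0}, 0, 1, le_rfl, ?_⟩
    rw [Nat.cast_one, Real.one_rpow, mul_one]
    exact (Ex_const _ _ _).symm.trans (Ex_congr fun ω _ => (ind_pos
      (Finset.one_le_card.mpr ⟨0, self_mem_cl ω (Finset.mem_singleton_self _)⟩)).symm)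
  set A := sSup S with hA
  have hA1 : 1 ≤ A := le_csSup hb h1S
  have hA0 : 0 < A := by linarith
  have hval : ∀ (U : Finset (Zd d)) x (n : ℕ), 1 ≤ n →
      EK w U {x} (fun K => ind (n ≤ K.card)) ≤ A * (n : ℝ) ^ (-a) := fun U x n hn => by
    have p : (0 : ℝ) < n := by exact_mod_cast hn
    rw [Real.rpow_neg p.le, ← div_eq_mul_inv, le_div_iff₀ (by positivity)]
    exact le_csSup hb ⟨U, x, n, hn, rfl⟩
  suffices h : A ≤ 2 * L + 2 ^ α / (32 * c₀) + K from fun U x n hn =>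
    (hval U x n hn).trans (mul_le_mul_of_nonneg_right h (by positivity))
  obtain ⟨_, ⟨U₀, x₀, N, hN, rfl⟩, hnear⟩ := exists_lt_of_lt_csSup ⟨1, h1S⟩ (half_lt_self hA0)
  have hN0 : (0 : ℝ) < N := by exact_mod_cast hN
  rcases lt_or_ge N L with hNL | hNL
  · have b1 : EK w U₀ {x₀} (fun K => ind (N ≤ K.card)) ≤ 1 :=
      EK_le_const hw _ fun _ _ => ind_le_one _
    have b2 := mul_le_mul b1 (pw1 N hN) (by positivity) zero_le_one
    have b3 : (N : ℝ) ≤ L := by exact_mod_cast hNL.le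
    linarith
  set N₀ := N / L with hN₀
  have n1 : 1 ≤ N₀ := (Nat.one_le_div_iff (by omega)).mpr hNL
  have n2 : N₀ * L ≤ N := Nat.div_mul_le_self _ _
  have n3 : N ≤ 2 * L * N₀ := by
    have := Nat.lt_mul_div_succ N (by omega : 0 < L)
    rw [← hN₀] at this
    nlinarith
  have n0 : (0 : ℝ) < N₀ := by exact_mod_cast n1
  have n4 : 1 ≤ (N₀ : ℝ) ^ (1 - a) := Real.one_le_rpow (by exact_mod_cast n1) (by linarith)
  set ε := 1 / (32 * (A * (N₀ : ℝ) ^ (1 - a))) with hε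
  have hε0 : 0 < ε := by positivity
  have hcε : c₀ / ε = 32 * c₀ * (A * (N₀ : ℝ) ^ (1 - a)) := by rw [hε]; field_simp
  set Z := (c₀ / ε) ^ α⁻¹ with hZ
  have hZ0 : 0 < Z := by positivity
  have hZα : Z ^ α = c₀ / ε := Real.rpow_inv_rpow (by positivity) hα.ne'
  rcases lt_or_ge Z 2 with hZ2 | hZ2
  · have b1 := Real.rpow_le_rpow hZ0.le hZ2.le hα.le
    rw [hZα, hcε] at b1
    have b2 : A ≤ 2 ^ α / (32 * c₀) := by
      rw [le_div_iff₀ (by positivity)]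
      nlinarith [mul_le_mul_of_nonneg_left n4 (by positivity : 0 ≤ 32 * c₀ * A)]
    linarith
  obtain ⟨r, hr1, hr2, hr3⟩ : ∃ r : ℕ, 1 ≤ r ∧ 1 + (r : ℝ) ≤ Z ∧ Z / 2 ≤ 1 + r := by
    have f1 : 2 ≤ ⌊Z⌋₊ := Nat.le_floor (by exact_mod_cast hZ2)
    obtain ⟨r, hr⟩ : ∃ r, ⌊Z⌋₊ = r + 1 := ⟨⌊Z⌋₊ - 1, by omega⟩
    have f2 := Nat.floor_le hZ0.le
    have f3 := Nat.lt_floor_add_one Z
    rw [hr] at f2 f3
    push_cast at f2 f3
    exact ⟨r, by omega, by linarith, by linarith [Nat.cast_nonneg (α := ℝ) r]⟩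
  have hr0 : (0 : ℝ) < 1 + r := by positivity
  have dec : ∀ k : ℕ, N ≤ k → A * (k : ℝ) ^ (-a) ≤ A * (N : ℝ) ^ (-a) := fun k hk =>
    mul_le_mul_of_nonneg_left (Real.rpow_le_rpow_of_nonpos hN0 (by exact_mod_cast hk)
      (by linarith)) hA0.le
  have core := xtail_core hd1 hα hw hinv hlow (havg w hw hinv hlow ⟨X, hX⟩) hN
    (N₀ := N₀) (by nlinarith) hr1 (D := A * (N : ℝ) ^ (-a)) (P := A * (N₀ : ℝ) ^ (-a))
    (Y := 2 * A * (N₀ : ℝ) ^ (1 - a)) (by positivity) (by positivity) hε0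
    (by rw [hε, div_le_one (by positivity)]; nlinarith)
    (by rw [← le_div_iff₀' hε0, ← hZα]; exact Real.rpow_le_rpow hr0.le hr2 hα.le)
    (fun U x k hk => (hval U x k (hN.trans hk)).trans (dec k hk))
    (fun U x k hk => (trunc_of_tail hA0.le ha1.le (hval U x) k).trans (by
      have p : (0 : ℝ) < k := by exact_mod_cast hN.trans hk
      rw [sub_eq_add_neg, Real.rpow_add p, Real.rpow_one]
      nlinarith [mul_le_mul_of_nonneg_left (dec k hk) p.le]))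
    (fun U x => hval U x N₀ n1) (fun U x => trunc_of_tail hA0.le ha1.le (hval U x) N₀)
    (le_of_eq (by rw [hε]; field_simp; ring)) (xtail_sm hA0 ha1 n0 hN0 hL0 hL1 (by exact_mod_cast n2) hε)
    (U₀ := U₀) (x₀ := x₀) (by
      rw [Real.rpow_neg hN0.le, ← div_eq_mul_inv, div_right_comm, div_le_iff₀ (by positivity)]
      exact hnear.le)
  have c := xtail_close hα hd hc hC hA1 hae ha0 n0 hN0 hL0 (by exact_mod_cast n3) hr0 hε0 hcε hr3 core
  linarith

end Pool.Agent.Lib.MP_6fc7d9_pr
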