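import Pool.Agent.Lib.MP_6fc7d9_pr.WFour
import Pool.Agent.Lib.MP_6fc7d9_pr.XTail

/-!
Fourier series of summable families: square integral, level sets, positive definite families.
-/

namespace Pool.Agent.Lib.MP_6fc7d9_pr
open Finset MeasureTheory Filter Topology

variable {d : ℕ}

/-- the Fourier series -/
noncomputable def xF (σ : Zd d → ℝ) (θ : Fin d → ℝ) : ℂ := ∑' x : Zd d, (σ x : ℂ) * wfour_e θ x

lemma xF_cont {σ : Zd d → ℝ} (h : Summable σ) : Continuous (xF σ) := continuous_series h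

lemma xF_int {σ : Zd d → ℝ} (h : Summable σ) : IntegrableOn (xF σ) (cube d) :=
  (xF_cont h).continuousOn.integrableOn_compact (fourier_compact d)

lemma xF_sub {σ σ' : Zd d → ℝ} (h : Summable σ) (h' : Summable σ') (θ : Fin d → ℝ) :
    xF (fun x => σ x - σ' x) θ = xF σ θ - xF σ' θ := by
  rw [xF, xF, xF, ← (wfour_summable θ h).tsum_sub (wfour_summable θ h')]
  exact tsum_congr fun x => by push_cast; ring

lemma xF_norm_le {σ : Zd d → ℝ} (h : Summable σ) (θ : Fin d → ℝ) : ‖xF σ θ‖ ≤ ∑' x, |σ x| := by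
  refine tsum_of_norm_bounded h.abs.hasSum fun x => ?_
  rw [norm_mul, wfour_norm, mul_one, Complex.norm_real, Real.norm_eq_abs]

lemma xF_planch {σ : Zd d → ℝ} (h : Summable σ) {B : ℝ}
    (hB : ∀ T : Finset (Zd d), ∑ x ∈ T, σ x ^ 2 ≤ B) :
    ∫ θ in cube d, ‖xF σ θ‖ ^ 2 ≤ (2 * Real.pi) ^ d * B := by
  set E : Zd d → (Fin d → ℝ) → ℂ := fun y θ =>
    Complex.exp (-(Complex.I * ((∑ i, θ i * y i : ℝ) : ℂ))) with hE
  have e1 : ∀ θ, ((‖xF σ θ‖ ^ 2 : ℝ) : ℂ) = ∑' y : Zd d, (σ y : ℂ) * (xF σ θ * E y θ) := fun θ => by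
    rw [← Complex.normSq_eq_norm_sq, ← Complex.mul_conj]
    nth_rw 2 [xF]
    rw [Complex.conj_tsum, ← tsum_mul_left]
    refine tsum_congr fun y => ?_
    rw [map_mul, Complex.conj_ofReal, wfour_e, ← Complex.exp_conj, map_mul, Complex.conj_ofReal,
      Complex.conj_I, neg_mul, mul_left_comm]
  have hc : ∀ y, Continuous fun θ => (σ y : ℂ) * (xF σ θ * E y θ) := fun y =>
    continuous_const.mul ((xF_cont h).mul (by simp only [hE]; fun_prop))
  have hn : ∀ y θ, ‖(σ y : ℂ) * (xF σ θ * E y θ)‖ = ‖σ y‖ * ‖xF σ θ‖ := fun y θ => by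
    simp only [hE]
    rw [norm_mul, norm_mul, Complex.norm_real, ← mul_neg, ← Complex.ofReal_neg, fourier_norm, mul_one]
  have e2 := integral_tsum_of_summable_integral_norm (μ := volume.restrict (cube d))
    (fun y => (hc y).continuousOn.integrableOn_compact (fourier_compact d))
    (by simp only [hn, integral_const_mul]; exact h.norm.mul_right _)
  have e3 : ∀ y, ∫ θ in cube d, (σ y : ℂ) * (xF σ θ * E y θ)
      = (((2 * Real.pi) ^ d * σ y ^ 2 : ℝ) : ℂ) := fun y => by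
    rw [integral_const_mul, show ∫ θ in cube d, xF σ θ * E y θ = _ from inversion h y]
    push_cast
    ring
  simp only [e3, ← e1] at e2
  rw [← Complex.ofReal_tsum, integral_complex_ofReal, Complex.ofReal_inj] at e2
  rw [← e2, tsum_mul_left]
  exact mul_le_mul_of_nonneg_left (Real.tsum_le_of_sum_le (fun _ => sq_nonneg _) hB) (by positivity)

lemma xF_cheb {σ : Zd d → ℝ} (h : Summable σ) {B t : ℝ} (ht : 0 < t)
    (hB : ∀ T : Finset (Zd d), ∑ x ∈ T, σ x ^ 2 ≤ B) :
    (volume.restrict (cube d)).real {θ | t ≤ ‖xF σ θ‖} ≤ (2 * Real.pi) ^ d * B / t ^ 2 := by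
  have := mul_meas_ge_le_integral_of_nonneg (μ := volume.restrict (cube d))
    (f := fun θ => ‖xF σ θ‖ ^ 2) (Eventually.of_forall fun _ => sq_nonneg _)
    (((xF_cont h).norm.pow 2).continuousOn.integrableOn_compact (fourier_compact d)) (t ^ 2)
  simp only [sq_le_sq₀ ht.le (norm_nonneg _)] at this
  rw [le_div_iff₀' (by positivity)]
  exact this.trans (xF_planch h hB)

lemma xF_fejer {g : Zd d → ℝ} (h : Summable g)
    (hp : ∀ B : Finset (Zd d), 0 ≤ ∑ x ∈ B, ∑ y ∈ B, g (y - x)) : 0 ≤ ∑' x, g x := by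
  by_contra hS
  push Not at hS
  set S := ∑' x, g x with hSd
  set M := ∑' x, |g x| with hM
  have hM0 : 0 ≤ M := tsum_nonneg fun _ => abs_nonneg _
  obtain ⟨T₀, hT₀⟩ := eventually_atTop.mp
    ((show Tendsto (fun T : Finset (Zd d) => ∑ x ∈ T, g x) atTop (𝓝 S) from
      h.hasSum).eventually_lt_const (by linarith : S < S / 2))
  obtain ⟨ρ, hρ⟩ := xtail_exists T₀ 0
  obtain ⟨R, hR⟩ := xtail_ratio d ρ (δ := -S / (4 * (M + 1))) (div_pos (by linarith) (by positivity))
  have e : ∀ (B : Finset (Zd d)) x, ∑ y ∈ B, g (y - x) = ∑ z ∈ B.map (addRightEmbedding (-x)), g z :=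
    fun B x => by rw [Finset.sum_map]; simp only [addRightEmbedding_apply, sub_eq_add_neg]
  have hsub : ball (0 : Zd d) R ⊆ ball 0 (R + ρ) := fun z hz =>
    xtail_ball hz (xtail_self z ρ)
  have a1 : ∀ x ∈ ball (0 : Zd d) R, ∑ y ∈ ball 0 (R + ρ), g (y - x) ≤ S / 2 := fun x hx => by
    rw [e]
    refine (hT₀ _ fun z hz => Finset.mem_map.mpr ⟨z + x, xtail_ball hx (mem_ball.mpr ?_), ?_⟩).le
    · rw [add_sub_cancel_right]; exact mem_ball_zero.mp (hρ hz)
    · simp
  have a2 : ∀ x ∈ ball (0 : Zd d) (R + ρ) \ ball 0 R, ∑ y ∈ ball 0 (R + ρ), g (y - x) ≤ M :=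
    fun x _ => by
      rw [e]
      exact (Finset.sum_le_sum fun z _ => le_abs_self _).trans
        (h.abs.sum_le_tsum _ fun _ _ => abs_nonneg _)
  have a3 := hp (ball 0 (R + ρ))
  rw [← Finset.sum_sdiff hsub] at a3
  have a4 := a3.trans (add_le_add (Finset.sum_le_card_nsmul _ _ _ a2)
    (Finset.sum_le_card_nsmul _ _ _ a1))
  rw [nsmul_eq_mul, nsmul_eq_mul, Finset.card_sdiff_of_subset hsub,
    Nat.cast_sub (Finset.card_le_card hsub), card_ball, card_ball] at a4
  have b0 : (0 : ℝ) < ((2 * R + 1) ^ d : ℕ) := by positivity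
  have b1 : -S / (4 * (M + 1)) * M ≤ -S / 4 := by
    rw [div_mul_eq_mul_div, div_le_div_iff₀ (by positivity) (by norm_num)]
    nlinarith
  have b2 := mul_le_mul_of_nonneg_right hR hM0
  have b3 := mul_le_mul_of_nonneg_right b1 b0.le
  nlinarith [mul_pos b0 (neg_pos.mpr hS)]

lemma xF_pd {σ : Zd d → ℝ} (h : Summable σ) (hev : ∀ x, σ (-x) = σ x)
    (hp : ∀ (B : Finset (Zd d)) (u : Zd d → ℝ), 0 ≤ ∑ x ∈ B, ∑ y ∈ B, σ (y - x) * (u x * u y)) :
    ∫ θ in cube d, ‖xF σ θ‖ = (2 * Real.pi) ^ d * σ 0 := by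
  have e1 : ∀ θ, ((‖xF σ θ‖ : ℝ) : ℂ) = xF σ θ := fun θ => by
    set φ : Zd d → ℝ := fun x => ∑ i, θ i * x i with hφ
    have φn : ∀ x, φ (-x) = -φ x := fun x => by simp [hφ]
    have φs : ∀ x y, φ (y - x) = φ y - φ x := fun x y => by
      simp [hφ, mul_sub, Finset.sum_sub_distrib]
    have s1 : Summable fun x => σ x * Real.cos (φ x) := Summable.of_norm_bounded h.norm fun x => by
      rw [norm_mul]
      exact mul_le_of_le_one_right (norm_nonneg _) (Real.abs_cos_le_one _)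
    have hc := wfour_summable θ h
    have re : (xF σ θ).re = ∑' x, σ x * Real.cos (φ x) := by
      rw [xF, Complex.re_tsum hc]
      exact tsum_congr fun x => by
        rw [Complex.re_ofReal_mul, wfour_e, mul_comm Complex.I, Complex.exp_ofReal_mul_I_re]
    have im : (xF σ θ).im = ∑' x, σ x * Real.sin (φ x) := by
      rw [xF, Complex.im_tsum hc]
      exact tsum_congr fun x => by
        rw [Complex.im_ofReal_mul, wfour_e, mul_comm Complex.I, Complex.exp_ofReal_mul_I_im]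
    have im0 : (xF σ θ).im = 0 := by
      have := (Equiv.neg (Zd d)).tsum_eq fun x => σ x * Real.sin (φ x)
      simp only [Equiv.neg_apply, hev, φn, Real.sin_neg, mul_neg, tsum_neg] at this
      rw [im]; linarith
    have re0 : 0 ≤ (xF σ θ).re := by
      rw [re]
      refine xF_fejer s1 fun B => le_trans (add_nonneg (hp B fun x => Real.cos (φ x))
        (hp B fun x => Real.sin (φ x))) (le_of_eq ?_)
      rw [← Finset.sum_add_distrib]
      refine Finset.sum_congr rfl fun x _ => ?_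
      rw [← Finset.sum_add_distrib]
      exact Finset.sum_congr rfl fun y _ => by rw [φs, Real.cos_sub]; ring
    have : xF σ θ = ((xF σ θ).re : ℂ) := Complex.ext rfl (by rw [im0]; rfl)
    rw [this, Complex.norm_real, Real.norm_of_nonneg re0]
  have e2 := inversion h 0
  simp only [Pi.zero_apply, Int.cast_zero, mul_zero, Finset.sum_const_zero, Complex.ofReal_zero,
    neg_zero, Complex.exp_zero, mul_one] at e2
  rw [← Complex.ofReal_inj, ← integral_complex_ofReal, Complex.ofReal_mul, ← e2]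
  exact integral_congr_ae (Eventually.of_forall e1)

/-- an integrable limit of a sequence that is Cauchy in the mean -/
lemma xF_limit {P : ℕ → (Fin d → ℝ) → ℂ} (hP : ∀ n, IntegrableOn (P n) (cube d)) {t : ℕ → ℝ}
    (ht : Tendsto t atTop (𝓝 0)) (h : ∀ n m, n ≤ m → ∫ θ in cube d, ‖P n θ - P m θ‖ ≤ t n) :
    ∃ f : (Fin d → ℝ) → ℂ, IntegrableOn f (cube d) ∧ ∀ n, ∫ θ in cube d, ‖P n θ - f θ‖ ≤ t n := by
  have e : ∀ n m, dist ((hP n).toL1 _) ((hP m).toL1 _) = ∫ θ in cube d, ‖P n θ - P m θ‖ :=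
    fun n m => by
      rw [L1.dist_eq_integral_dist]
      refine integral_congr_ae ?_
      filter_upwards [(hP n).coeFn_toL1, (hP m).coeFn_toL1] with θ h1 h2
      rw [h1, h2, dist_eq_norm]
  obtain ⟨f, hf⟩ := cauchySeq_tendsto_of_complete (cauchySeq_of_le_tendsto_0'
    (s := fun n => (hP n).toL1 _) t (fun n m hnm => (e n m).le.trans (h n m hnm)) ht)
  refine ⟨f, L1.integrable_coeFn f, fun n => le_trans (le_of_eq ?_) (le_of_tendsto
    (tendsto_const_nhds.dist hf) (eventually_atTop.mpr ⟨n, fun m hm =>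
      (e n m).le.trans (h n m hm)⟩))⟩
  rw [L1.dist_eq_integral_dist]
  refine integral_congr_ae ?_
  filter_upwards [(hP n).coeFn_toL1] with θ h1
  rw [h1, dist_eq_norm]

end Pool.Agent.Lib.MP_6fc7d9_pr
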