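import Pool.Agent.Lib.MP_6fc7d9_pr.XExp

/-!
A pruned two-cluster inequality: two distinct large clusters are rarely adjacent through a
second-layer pair with heavy endpoints.
-/

set_option linter.unusedSectionVars false

namespace Pool.Agent.Lib.MP_6fc7d9_pr
open Finset

variable {V : Type*} [DecidableEq V]

/-- the sum over clusters of `min (size, N) / N` -/
noncomputable def xPsi (U : Finset V) (N : ℕ) (ω : Finset (Sym2 V)) : ℝ :=
  ∑ x ∈ U, 1 / ((max (cl ω U {x}).card N : ℕ) : ℝ)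

lemma xghost_union {ω : Finset (Sym2 V)} {U : Finset V} {a b x : V} (hb : b ∈ U)
    (hx : x ∈ cl ω U {a}) : cl ω U {a} ∪ cl ω U {b} ⊆ cl (insert s(a, b) ω) U {x} := by
  have m : ∀ z, cl ω U {z} ⊆ cl (insert s(a, b) ω) U {z} := fun z =>
    cl_mono (Finset.subset_insert _ _) subset_rfl subset_rfl
  have ha : a ∈ cl (insert s(a, b) ω) U {x} := m x (mem_cl_symm hx)
  exact Finset.union_subset ((m a).trans (cl_trans ha))
    ((m b).trans (cl_trans (cl_step ha hb (Finset.mem_insert_self _ _))))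

lemma xpsi_merge {U : Finset V} {N : ℕ} (hN : 1 ≤ N) {a b : V} (ha : a ∈ U) (hb : b ∈ U)
    (ω : Finset (Sym2 V)) :
    ind (b ∉ cl ω U {a} ∧ N ≤ (cl ω U {a}).card ∧ N ≤ (cl ω U {b}).card)
      ≤ xPsi U N ω - xPsi U N (insert s(a, b) ω) := by
  have hle : ∀ m n : ℕ, 1 ≤ m → m ≤ n → 1 / (n : ℝ) ≤ 1 / (m : ℝ) := fun m n h1 h2 =>
    one_div_le_one_div_of_le (by exact_mod_cast h1) (by exact_mod_cast h2)
  have hd : ∀ x, 0 ≤ 1 / ((max (cl ω U {x}).card N : ℕ) : ℝ)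
      - 1 / ((max (cl (insert s(a, b) ω) U {x}).card N : ℕ) : ℝ) := fun x =>
    sub_nonneg.mpr (hle _ _ (hN.trans (le_max_right _ _)) (max_le_max (Finset.card_le_card
      (cl_mono (Finset.subset_insert _ _) subset_rfl subset_rfl)) le_rfl))
  rw [xPsi, xPsi, ← Finset.sum_sub_distrib]
  by_cases h : b ∉ cl ω U {a} ∧ N ≤ (cl ω U {a}).card ∧ N ≤ (cl ω U {b}).card
  swap
  · rw [ind_neg h]; exact Finset.sum_nonneg fun x _ => hd x
  rw [ind_pos h]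
  obtain ⟨h1, h2, h3⟩ := h
  have hdis : Disjoint (cl ω U {a}) (cl ω U {b}) := Finset.disjoint_left.mpr fun z za zb =>
    h1 (cl_trans za (mem_cl_symm zb))
  have hcard := Finset.card_union_of_disjoint hdis
  refine le_trans ?_ (Finset.sum_le_sum_of_subset_of_nonneg
    (Finset.union_subset (cl_subset ω U {a}) (cl_subset ω U {b})) fun x _ _ => hd x)
  rw [Finset.sum_union hdis]
  have t : ∀ c, N ≤ (cl ω U {c}).card → (∀ x ∈ cl ω U {c},
      cl ω U {a} ∪ cl ω U {b} ⊆ cl (insert s(a, b) ω) U {x}) →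
      ((cl ω U {c}).card : ℝ) * (1 / (cl ω U {c}).card - 1 / ((cl ω U {a}).card + (cl ω U {b}).card))
        ≤ ∑ x ∈ cl ω U {c}, (1 / ((max (cl ω U {x}).card N : ℕ) : ℝ)
          - 1 / ((max (cl (insert s(a, b) ω) U {x}).card N : ℕ) : ℝ)) := fun c hc hx => by
    rw [← nsmul_eq_mul]
    refine Finset.card_nsmul_le_sum _ _ _ fun x hxc => sub_le_sub ?_ ?_
    · rw [cl_eq_of_mem hxc, max_eq_left hc]
    · rw [← Nat.cast_add, ← hcard]
      exact hle _ _ (by omega) ((Finset.card_le_card (hx x hxc)).trans (le_max_left _ _))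
  have t1 := t a h2 fun x hx => xghost_union hb hx
  have t2 := t b h3 fun x hx => by
    rw [Finset.union_comm, Sym2.eq_swap]; exact xghost_union ha hx
  refine le_trans (le_of_eq ?_) (add_le_add t1 t2)
  have p1 : (0 : ℝ) < (cl ω U {a}).card := by exact_mod_cast hN.trans h2
  have p2 : (0 : ℝ) < (cl ω U {b}).card := by exact_mod_cast hN.trans h3
  field_simp
  ring

lemma xghost_tele (N n M : ℕ) :
    1 / ((max (min n (N + M)) N : ℕ) : ℝ) = 1 / N - ∑ j ∈ Finset.range M,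
      (1 / ((N + j : ℕ) : ℝ) - 1 / ((N + j + 1 : ℕ) : ℝ)) * ind (N + j + 1 ≤ n) := by
  induction M with
  | zero => rw [add_zero, max_eq_right (min_le_right _ _), Finset.sum_range_zero, sub_zero]
  | succ M ih =>
    rw [Finset.sum_range_succ, ← sub_sub, ← ih]
    by_cases h : N + M + 1 ≤ n
    · rw [ind_pos h, show max (min n (N + (M + 1))) N = N + M + 1 by omega,
        show max (min n (N + M)) N = N + M by omega]
      ring
    · rw [ind_neg h, show max (min n (N + (M + 1))) N = max (min n (N + M)) N by omega]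
      ring

lemma xghost_wt {m : ℕ} (hm : 1 ≤ m) :
    (1 / (m : ℝ) - 1 / ((m + 1 : ℕ) : ℝ)) * √((m + 1 : ℕ) : ℝ)
      ≤ 3 * (1 / √(m : ℝ) - 1 / √((m + 1 : ℕ) : ℝ)) := by
  have h1 : (1 : ℝ) ≤ m := by exact_mod_cast hm
  have e1 : (m : ℝ) = √(m : ℝ) ^ 2 := (Real.sq_sqrt (by linarith)).symm
  have e2 : ((m + 1 : ℕ) : ℝ) = √((m + 1 : ℕ) : ℝ) ^ 2 := (Real.sq_sqrt (by positivity)).symm
  have a1 : √(m : ℝ) ≤ √((m + 1 : ℕ) : ℝ) := Real.sqrt_le_sqrt (by push_cast; linarith)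
  have a2 : √((m + 1 : ℕ) : ℝ) ≤ 2 * √(m : ℝ) := by
    rw [Real.sqrt_le_left (by positivity), mul_pow, ← e1]; push_cast; linarith
  have a3 : 0 < √(m : ℝ) := Real.sqrt_pos.mpr (by linarith)
  rw [e1, e2]
  generalize √(m : ℝ) = s at *
  generalize √((m + 1 : ℕ) : ℝ) = t at *
  have a4 : 0 < t := by linarith
  rw [Real.sqrt_sq a3.le, Real.sqrt_sq a4.le]
  have e3 : (1 / s ^ 2 - 1 / t ^ 2) * t = (1 / s - 1 / t) * (t / s + 1) := by field_simp; ring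
  rw [e3, mul_comm]
  refine mul_le_mul_of_nonneg_right ?_ (sub_nonneg.mpr (one_div_le_one_div_of_le a3 a1))
  have : t / s ≤ 2 := by rwa [div_le_iff₀ a3]
  linarith

lemma xghost_wsum {N : ℕ} (hN : 1 ≤ N) (M : ℕ) :
    ∑ j ∈ Finset.range M, (1 / ((N + j : ℕ) : ℝ) - 1 / ((N + j + 1 : ℕ) : ℝ)) * √((N + j + 1 : ℕ) : ℝ)
      ≤ 3 / √(N : ℝ) := by
  refine (Finset.sum_le_sum fun j _ => xghost_wt (m := N + j) (by omega)).trans ?_
  have e : ∑ j ∈ Finset.range M, (1 / √((N + j : ℕ) : ℝ) - 1 / √((N + j + 1 : ℕ) : ℝ))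
      = 1 / √((N + 0 : ℕ) : ℝ) - 1 / √((N + M : ℕ) : ℝ) :=
    Finset.sum_range_sub' (fun j => 1 / √((N + j : ℕ) : ℝ)) M
  rw [← Finset.mul_sum, e, add_zero, div_eq_mul_one_div 3]
  have : 0 ≤ 1 / √((N + M : ℕ) : ℝ) := by positivity
  linarith

lemma xghost_pairs (U : Finset V) {h : Sym2 V → ℝ} (h0 : ∀ e ∈ U.sym2, 0 ≤ h e) :
    ∑ x ∈ U, ∑ y ∈ U, h s(x, y) ≤ 2 * ∑ e ∈ U.sym2, h e := by
  rw [← Finset.sum_product', ← Finset.sum_fiberwise_of_maps_to (t := U.sym2)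
    (g := fun q : V × V => s(q.1, q.2)) fun q hq =>
      Finset.mk_mem_sym2_iff.mpr (Finset.mem_product.mp hq), Finset.mul_sum]
  refine Finset.sum_le_sum fun e he => ?_
  rw [Finset.sum_congr rfl fun q hq => by rw [(Finset.mem_filter.mp hq).2], Finset.sum_const,
    nsmul_eq_mul]
  refine mul_le_mul_of_nonneg_right ?_ (h0 e he)
  induction e using Sym2.ind with
  | h a b =>
    have : ((U ×ˢ U).filter fun q : V × V => s(q.1, q.2) = s(a, b)) ⊆ {(a, b), (b, a)} := by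
      rintro ⟨x, y⟩ hq
      rcases Sym2.eq_iff.mp (Finset.mem_filter.mp hq).2 with ⟨rfl, rfl⟩ | ⟨rfl, rfl⟩ <;> simp
    exact_mod_cast (Finset.card_le_card this).trans Finset.card_le_two

theorem two_ghost {w κ : Sym2 V → ℝ} (hw : ∀ e, 0 ≤ w e) (hκ : ∀ e, 0 ≤ κ e) {N₀ N : ℕ}
    (hN : 1 ≤ N) {ρ D : ℝ} (hρ0 : 0 < ρ)
    (hρ : ∀ (W : Finset V) u,
      ∑ y ∈ W, pw κ s(u, y) * EK w W {y} (fun K => ind (N₀ ≤ K.card)) ≤ ρ)
    (U : Finset V) (hD0 : 0 ≤ D)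
    (hD1 : ∀ x k, N ≤ k → EK (w + κ) U {x} (fun K => ind (k ≤ K.card)) ≤ D)
    (hD2 : ∀ x k, N ≤ k → EK (w + κ) U {x} (fun K => ((min K.card k : ℕ) : ℝ)) ≤ 2 * k * D) :
    ∑ x ∈ U, ∑ y ∈ U, pw κ s(x, y) * Ex U.sym2 (pw w) (fun ω => Ex U.sym2 (pw κ) fun ξ =>
        ind ((N₀ ≤ (cl ω U {x}).card ∧ N₀ ≤ (cl ω U {y}).card) ∧ y ∉ cl (ω ∪ ξ) U {x} ∧
          N ≤ (cl (ω ∪ ξ) U {x}).card ∧ N ≤ (cl (ω ∪ ξ) U {y}).card))
      ≤ 9 * U.card * D * √ρ / √N := by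
  have h0 := pw_nonneg hκ
  have h1 := pw_le_one κ
  set G : Finset (Sym2 V) → Sym2 V → Prop := fun ω e => ∀ z ∈ e, N₀ ≤ (cl ω U {z}).card with hG
  set h : Finset (Sym2 V) → Sym2 V → ℝ := fun ω e => ind (G ω e) *
    Ex U.sym2 (pw κ) fun ξ => xPsi U N (ω ∪ ξ) * (pw κ e - ind (e ∈ ξ)) with hh
  have s1 : ∀ ω, ∀ x ∈ U, ∀ y ∈ U, pw κ s(x, y) * Ex U.sym2 (pw κ) (fun ξ =>
        ind ((N₀ ≤ (cl ω U {x}).card ∧ N₀ ≤ (cl ω U {y}).card) ∧ y ∉ cl (ω ∪ ξ) U {x} ∧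
          N ≤ (cl (ω ∪ ξ) U {x}).card ∧ N ≤ (cl (ω ∪ ξ) U {y}).card)) ≤ h ω s(x, y) := by
    intro ω x hx y hy
    simp only [ind_and (_ ∧ _), Ex_const_mul, hh]
    rw [mul_left_comm, ind_congr (Q := G ω s(x, y)) (by simp [hG])]
    refine mul_le_mul_of_nonneg_left (Ex_edge (Finset.mk_mem_sym2_iff.mpr ⟨hx, hy⟩) h0 h1
      (fun ξ => ind_neg fun h => h.1 (cl_step (self_mem_cl _ hx) hy (by simp))) fun ξ => ?_)
      (ind_nonneg _)
    rw [Finset.union_insert]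
    exact xpsi_merge hN hx hy _
  have s2 : ∀ ω, ∀ e ∈ U.sym2, 0 ≤ h ω e := fun ω e he => by
    induction e using Sym2.ind with
    | h x y =>
      obtain ⟨hx, hy⟩ := Finset.mk_mem_sym2_iff.mp he
      exact le_trans (mul_nonneg (h0 _) (Ex_nonneg h0 h1 fun _ _ => ind_nonneg _)) (s1 ω x hx y hy)
  have s3 : ∀ ω, ∑ e ∈ U.sym2, h ω e = ∑ x ∈ U, ∑ j ∈ Finset.range U.card,
      (1 / ((N + j : ℕ) : ℝ) - 1 / ((N + j + 1 : ℕ) : ℝ)) * Ex U.sym2 (pw κ) fun ξ =>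
        ind (N + j + 1 ≤ (cl (ω ∪ ξ) U {x}).card) * cs U.sym2 (G ω) (pw κ) ξ := fun ω => by
    simp only [hh, ← Ex_const_mul, ← Ex_sum]
    have e0 : Ex U.sym2 (pw κ) (fun ξ => (U.card * (1 / N) : ℝ) * cs U.sym2 (G ω) (pw κ) ξ) = 0 := by
      rw [Ex_const_mul, Ex_cs, mul_zero]
    rw [← sub_zero (Ex U.sym2 (pw κ) fun ξ => ∑ x ∈ U, _), ← e0, ← Ex_sub]
    refine Ex_congr fun ξ _ => ?_
    have e1 : xPsi U N (ω ∪ ξ) = U.card * (1 / N) - ∑ x ∈ U, ∑ j ∈ Finset.range U.card,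
        (1 / ((N + j : ℕ) : ℝ) - 1 / ((N + j + 1 : ℕ) : ℝ)) *
          ind (N + j + 1 ≤ (cl (ω ∪ ξ) U {x}).card) := by
      rw [xPsi, ← nsmul_eq_mul, ← Finset.sum_const, ← Finset.sum_sub_distrib]
      refine Finset.sum_congr rfl fun x _ => ?_
      rw [← xghost_tele, min_eq_left ((Finset.card_le_card (cl_subset _ _ _)).trans
        (Nat.le_add_left _ _))]
    have e2 : ∑ e ∈ U.sym2, ind (G ω e) * (xPsi U N (ω ∪ ξ) * (pw κ e - ind (e ∈ ξ)))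
        = -(xPsi U N (ω ∪ ξ) * cs U.sym2 (G ω) (pw κ) ξ) := by
      rw [cs, Finset.mul_sum, ← Finset.sum_neg_distrib]
      exact Finset.sum_congr rfl fun e _ => by ring
    rw [e2, e1, sub_mul, neg_sub, Finset.sum_mul]
    congr 1
    refine Finset.sum_congr rfl fun x _ => ?_
    rw [Finset.sum_mul]
    exact Finset.sum_congr rfl fun j _ => by ring
  have s4 : ∀ x k, N ≤ k → Ex U.sym2 (pw w) (fun ω => Ex U.sym2 (pw κ) fun ξ =>
      ind (k ≤ (cl (ω ∪ ξ) U {x}).card) * cs U.sym2 (G ω) (pw κ) ξ) ≤ 3 / 2 * D * √ρ * √k := by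
    intro x k hk
    have hk0 : (0 : ℝ) < k := by exact_mod_cast hN.trans hk
    have p1 : 0 < √ρ := Real.sqrt_pos.mpr hρ0
    have p2 : 0 < √(k : ℝ) := Real.sqrt_pos.mpr hk0
    refine (explore_bound hw h0 h1 hρ0.le (mul_pos p1 p2) hρ U G
      (fun ω a y hy => hy y (Sym2.mem_mk_right _ _)) k x).trans ?_
    have b1 := hD1 x k hk
    have b2 := hD2 x k hk
    rw [EK, Ex_add_layers] at b1 b2
    have b3 : ρ * (2 * k * D) / (2 * (√ρ * √k)) = D * √ρ * √k := by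
      rw [div_eq_iff (by positivity)]
      nth_rw 1 [← Real.mul_self_sqrt hρ0.le, ← Real.mul_self_sqrt hk0.le]
      ring
    have b4 := mul_le_mul_of_nonneg_left b1 (by positivity : 0 ≤ √ρ * √(k : ℝ) / 2)
    have b5 := div_le_div_of_nonneg_right (mul_le_mul_of_nonneg_left b2 hρ0.le)
      (by positivity : 0 ≤ 2 * (√ρ * √(k : ℝ)))
    rw [b3] at b5
    linarith
  simp only [← Ex_const_mul U.sym2 (pw w), ← Ex_sum]
  refine (Ex_mono (pw_nonneg hw) (pw_le_one w) fun ω _ => (Finset.sum_le_sum fun x hx =>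
    Finset.sum_le_sum fun y hy => s1 ω x hx y hy).trans (xghost_pairs U (s2 ω))).trans ?_
  simp only [s3, Ex_const_mul, Ex_sum]
  have s5 : ∀ x ∈ U, ∑ j ∈ Finset.range U.card,
      (1 / ((N + j : ℕ) : ℝ) - 1 / ((N + j + 1 : ℕ) : ℝ)) * Ex U.sym2 (pw w) (fun ω =>
        Ex U.sym2 (pw κ) fun ξ => ind (N + j + 1 ≤ (cl (ω ∪ ξ) U {x}).card) *
          cs U.sym2 (G ω) (pw κ) ξ) ≤ 3 / 2 * D * √ρ * (3 / √N) := fun x _ => by
    refine le_trans ?_ (mul_le_mul_of_nonneg_left (xghost_wsum hN U.card) (by positivity))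
    rw [Finset.mul_sum]
    refine Finset.sum_le_sum fun j _ => ?_
    rw [mul_left_comm]
    refine mul_le_mul_of_nonneg_left (s4 x _ (by omega)) (sub_nonneg.mpr ?_)
    exact one_div_le_one_div_of_le (by exact_mod_cast (by omega : 0 < N + j))
      (by exact_mod_cast Nat.le_succ _)
  have := Finset.sum_le_card_nsmul _ _ _ s5
  rw [nsmul_eq_mul] at this
  calc _ ≤ 2 * (U.card * (3 / 2 * D * √ρ * (3 / √N))) := by linarith
    _ = _ := by ring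

end Pool.Agent.Lib.MP_6fc7d9_pr
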