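import Pool.Agent.Lib.MP_6fc7d9_pr.WMerge

/-!
Positive association and centred sums of edge variables.
-/

set_option linter.unusedSectionVars false

namespace Pool.Agent.Lib.MP_6fc7d9_pr
open Finset

variable {ε : Type*} [DecidableEq ε]

theorem harris (F : Finset ε) {p : ε → ℝ} (h0 : ∀ e, 0 ≤ p e) (h1 : ∀ e, p e ≤ 1)
    {f g : Finset ε → ℝ} (hf : Monotone f) (hg : Monotone g) :
    Ex F p f * Ex F p g ≤ Ex F p fun ω => f ω * g ω := by
  induction F using Finset.induction_on generalizing f g with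
  | empty => simp only [Ex_empty, le_refl]
  | insert e F he ih =>
    have hf' : Monotone fun ω => f (insert e ω) := fun _ _ h => hf (Finset.insert_subset_insert _ h)
    have hg' : Monotone fun ω => g (insert e ω) := fun _ _ h => hg (Finset.insert_subset_insert _ h)
    have a1 := ih hf' hg'
    have a2 := ih hf hg
    have b1 : Ex F p f ≤ Ex F p fun ω => f (insert e ω) :=
      Ex_mono h0 h1 fun ω _ => hf (Finset.subset_insert _ _)
    have b2 : Ex F p g ≤ Ex F p fun ω => g (insert e ω) :=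
      Ex_mono h0 h1 fun ω _ => hg (Finset.subset_insert _ _)
    simp only [Ex_insert he, smul_eq_mul]
    have c1 := mul_le_mul_of_nonneg_left a1 (h0 e)
    have c2 := mul_le_mul_of_nonneg_left a2 (sub_nonneg.mpr (h1 e))
    have c3 := mul_nonneg (mul_nonneg (h0 e) (sub_nonneg.mpr (h1 e)))
      (mul_nonneg (sub_nonneg.mpr b1) (sub_nonneg.mpr b2))
    nlinarith

theorem harris_two (F F' : Finset ε) {p q : ε → ℝ} (h0 : ∀ e, 0 ≤ p e) (h1 : ∀ e, p e ≤ 1)
    (k0 : ∀ e, 0 ≤ q e) (k1 : ∀ e, q e ≤ 1) {f g : Finset ε → Finset ε → ℝ}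
    (hf : ∀ a a' b b', a ⊆ a' → b ⊆ b' → f a b ≤ f a' b')
    (hg : ∀ a a' b b', a ⊆ a' → b ⊆ b' → g a b ≤ g a' b') :
    (Ex F p fun ω => Ex F' q (f ω)) * (Ex F p fun ω => Ex F' q (g ω))
      ≤ Ex F p fun ω => Ex F' q fun ξ => f ω ξ * g ω ξ := by
  have m1 : Monotone fun ω => Ex F' q (f ω) := fun a a' h =>
    Ex_mono k0 k1 fun b _ => hf _ _ _ _ h subset_rfl
  have m2 : Monotone fun ω => Ex F' q (g ω) := fun a a' h =>
    Ex_mono k0 k1 fun b _ => hg _ _ _ _ h subset_rfl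
  refine (harris F h0 h1 m1 m2).trans (Ex_mono h0 h1 fun ω _ => ?_)
  have m3 : Monotone (f ω) := fun b b' h => hf _ _ _ _ subset_rfl h
  have m4 : Monotone (g ω) := fun b b' h => hg _ _ _ _ subset_rfl h
  exact harris F' k0 k1 m3 m4

/-- centred number of open edges among those of `F` that satisfy `G` -/
noncomputable def cs (F : Finset ε) (G : ε → Prop) (p : ε → ℝ) (ξ : Finset ε) : ℝ :=
  ∑ e ∈ F, ind (G e) * (ind (e ∈ ξ) - p e)

lemma Ex_cs (F : Finset ε) (G : ε → Prop) (p : ε → ℝ) : Ex F p (cs F G p) = 0 := by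
  unfold cs
  rw [Ex_sum]
  refine Finset.sum_eq_zero fun e he => ?_
  rw [Ex_const_mul, Ex_sub, Ex_ind_mem he, Ex_const, sub_self, mul_zero]

lemma cs_union {B F : Finset ε} (h : Disjoint B F) (G : ε → Prop) (p : ε → ℝ) {ξ₁ ξ₂ : Finset ε}
    (h1 : ξ₁ ⊆ B) (h2 : ξ₂ ⊆ F) : cs (B ∪ F) G p (ξ₁ ∪ ξ₂) = cs B G p ξ₁ + cs F G p ξ₂ := by
  unfold cs
  rw [Finset.sum_union h]
  congr 1
  · refine Finset.sum_congr rfl fun e he => ?_
    rw [ind_congr (P := e ∈ ξ₁ ∪ ξ₂) (Q := e ∈ ξ₁)]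
    rw [Finset.mem_union]
    exact or_iff_left fun h' => Finset.disjoint_left.mp h he (h2 h')
  · refine Finset.sum_congr rfl fun e he => ?_
    rw [ind_congr (P := e ∈ ξ₁ ∪ ξ₂) (Q := e ∈ ξ₂)]
    rw [Finset.mem_union]
    exact or_iff_right fun h' => Finset.disjoint_left.mp h (h1 h') he

lemma Ex_cs_sq (F : Finset ε) (G : ε → Prop) {p : ε → ℝ} (h0 : ∀ e, 0 ≤ p e) (h1 : ∀ e, p e ≤ 1)
    (c : ℝ) : Ex F p (fun ξ => (cs F G p ξ + c) ^ 2) ≤ c ^ 2 + ∑ e ∈ F, ind (G e) * p e := by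
  induction F using Finset.induction_on generalizing c with
  | empty => simp [Ex_empty, cs]
  | insert e F he ih =>
    have hd : Disjoint ({e} : Finset ε) F := Finset.disjoint_singleton_left.mpr he
    have e1 : Ex F p (fun ω => (cs (insert e F) G p (insert e ω) + c) ^ 2)
        = Ex F p fun ω => (cs F G p ω + (ind (G e) * (1 - p e) + c)) ^ 2 := by
      refine Ex_congr fun ω hω => ?_
      have := cs_union hd G p (ξ₁ := {e}) subset_rfl hω
      rw [← Finset.insert_eq, ← Finset.insert_eq] at this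
      rw [this, cs, Finset.sum_singleton, ind_pos (Finset.mem_singleton_self e)]
      ring
    have e2 : Ex F p (fun ω => (cs (insert e F) G p ω + c) ^ 2)
        = Ex F p fun ω => (cs F G p ω + (ind (G e) * (0 - p e) + c)) ^ 2 := by
      refine Ex_congr fun ω hω => ?_
      have := cs_union hd G p (ξ₁ := ∅) (Finset.empty_subset _) hω
      rw [← Finset.insert_eq, Finset.empty_union] at this
      rw [this, cs, Finset.sum_singleton, ind_neg (Finset.notMem_empty e)]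
      ring
    rw [Ex_insert he, e1, e2, Finset.sum_insert he, smul_eq_mul, smul_eq_mul]
    have c1 := mul_le_mul_of_nonneg_left (ih (ind (G e) * (1 - p e) + c)) (h0 e)
    have c2 := mul_le_mul_of_nonneg_left (ih (ind (G e) * (0 - p e) + c)) (sub_nonneg.mpr (h1 e))
    by_cases hG : G e
    · rw [ind_pos hG] at c1 c2 ⊢
      nlinarith [mul_nonneg (h0 e) (h0 e)]
    · rw [ind_neg hG] at c1 c2 ⊢
      nlinarith

/-- the covariance with one edge variable -/
lemma Ex_edge {F : Finset ε} {e : ε} (he : e ∈ F) {p : ε → ℝ} (h0 : ∀ e, 0 ≤ p e)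
    (h1 : ∀ e, p e ≤ 1) {Φ I : Finset ε → ℝ} (hI : ∀ ξ, I (insert e ξ) = 0)
    (h : ∀ ξ, I ξ ≤ Φ ξ - Φ (insert e ξ)) :
    p e * Ex F p I ≤ Ex F p fun ξ => Φ ξ * (p e - ind (e ∈ ξ)) := by
  obtain ⟨F', he', rfl⟩ : ∃ F', e ∉ F' ∧ F = insert e F' :=
    ⟨F.erase e, Finset.notMem_erase _ _, (Finset.insert_erase he).symm⟩
  have e1 : Ex F' p (fun ξ => Φ ξ * (p e - ind (e ∈ ξ))) = Ex F' p Φ * p e := by
    rw [← Ex_mul_const]
    exact Ex_congr fun ξ hξ => by rw [ind_neg fun h' => he' (hξ h'), sub_zero]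
  have e2 := Ex_mono (F := F') h0 h1 fun ξ _ => h ξ
  rw [Ex_sub] at e2
  simp only [Ex_insert he', hI, Ex_zero, smul_eq_mul, e1, ind_pos (Finset.mem_insert_self e _),
    Ex_mul_const]
  have := mul_le_mul_of_nonneg_left e2 (mul_nonneg (h0 e) (sub_nonneg.mpr (h1 e)))
  nlinarith

end Pool.Agent.Lib.MP_6fc7d9_pr
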