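import Pool.Agent.Lib.MP_6fc7d9_pr.ExBasic

/-!
Level sets of a nonnegative family whose sums over finite sets grow like a power of the size.
-/

namespace Pool.Agent.Lib.MP_6fc7d9_pr
open Finset Filter Topology

variable {ι : Type*}

lemma xseq_level {σ : ι → ℝ} {C b : ℝ} (hC : 0 < C) (hb0 : 0 < b) (hb : b < 1)
    (h : ∀ T : Finset ι, ∑ x ∈ T, σ x ≤ C * (T.card : ℝ) ^ b) {s : ℝ} (hs : 0 < s) (T : Finset ι) :
    ∑ x ∈ T, σ x * ind (s < σ x) ≤ C ^ (1 / (1 - b)) * s ^ (-(b / (1 - b))) := by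
  classical
  have hb1 : 0 < 1 - b := by linarith
  have e : ∑ x ∈ T, σ x * ind (s < σ x) = ∑ x ∈ T.filter fun x => s < σ x, σ x := by
    rw [Finset.sum_filter]
    exact Finset.sum_congr rfl fun x _ => by rw [ind_eq_ite, mul_ite, mul_one, mul_zero]
  rw [e]
  set L := T.filter fun x => s < σ x with hL
  set X := ∑ x ∈ L, σ x with hX
  rcases le_or_gt X 0 with hX0 | hX0
  · exact hX0.trans (by positivity)
  have a1 : (L.card : ℝ) ≤ X / s := by
    rw [le_div_iff₀ hs, ← nsmul_eq_mul]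
    exact Finset.card_nsmul_le_sum _ _ _ fun x hx => (Finset.mem_filter.mp hx).2.le
  have a2 : X ≤ C * (X ^ b * s ^ (-b)) := by
    refine (h L).trans (mul_le_mul_of_nonneg_left ?_ hC.le)
    rw [Real.rpow_neg hs.le, ← div_eq_mul_inv, ← Real.div_rpow hX0.le hs.le]
    exact Real.rpow_le_rpow (Nat.cast_nonneg _) a1 hb0.le
  have a3 : X ^ (1 - b) ≤ C * s ^ (-b) := by
    refine le_of_mul_le_mul_right ?_ (Real.rpow_pos_of_pos hX0 b)
    rw [← Real.rpow_add hX0, sub_add_cancel, Real.rpow_one]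
    linarith
  have a4 := Real.rpow_le_rpow (by positivity) a3 (by positivity : 0 ≤ 1 / (1 - b))
  rwa [← Real.rpow_mul hX0.le, mul_one_div_cancel hb1.ne', Real.rpow_one,
    Real.mul_rpow hC.le (by positivity), ← Real.rpow_mul hs.le, neg_mul, mul_one_div] at a4

lemma xseq_low {H γ : ℝ} (hH : 0 < H) (hγ : γ < 1) : ∃ D : ℝ, 0 < D ∧ ∀ σ : ι → ℝ, (∀ x, 0 ≤ σ x) →
    (∀ s, 0 < s → ∀ T : Finset ι, ∑ x ∈ T, σ x * ind (s < σ x) ≤ H * s ^ (-γ)) →
    ∀ s, 0 < s → ∀ T : Finset ι, ∑ x ∈ T, (σ x * ind (σ x ≤ s)) ^ 2 ≤ D * s ^ (1 - γ) := by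
  have hq : (2 : ℝ) ^ (γ - 1) < 1 := Real.rpow_lt_one_of_one_lt_of_neg (by norm_num) (by linarith)
  have hq' : 0 < 1 - (2 : ℝ) ^ (γ - 1) := by linarith
  set D := H * 2 ^ γ / (1 - (2 : ℝ) ^ (γ - 1)) with hD
  refine ⟨D, by positivity, fun σ h0 h s hs T => ?_⟩
  have key : ∀ j : ℕ, ∀ s, 0 < s → ∑ x ∈ T, (σ x * ind (σ x ≤ s)) ^ 2
      ≤ D * s ^ (1 - γ) + s * (∑ x ∈ T, σ x) * (1 / 2) ^ j := by
    intro j
    induction j with
    | zero =>
      intro s hs
      rw [pow_zero, mul_one, Finset.mul_sum]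
      refine le_trans (Finset.sum_le_sum fun x _ => ?_) (le_add_of_nonneg_left (by positivity))
      by_cases hx : σ x ≤ s
      · rw [ind_pos hx]; nlinarith [h0 x]
      · rw [ind_neg hx]; nlinarith [h0 x]
    | succ j ih =>
      intro s hs
      have a1 := ih (s / 2) (by positivity)
      have a2 := mul_le_mul_of_nonneg_left (h (s / 2) (by positivity) T) hs.le
      have a3 : ∑ x ∈ T, (σ x * ind (σ x ≤ s)) ^ 2 ≤ s * ∑ x ∈ T, σ x * ind (s / 2 < σ x)
          + ∑ x ∈ T, (σ x * ind (σ x ≤ s / 2)) ^ 2 := by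
        rw [Finset.mul_sum, ← Finset.sum_add_distrib]
        refine Finset.sum_le_sum fun x _ => ?_
        by_cases hx : σ x ≤ s / 2
        · rw [ind_pos hx, ind_pos (by linarith), ind_neg (not_lt.mpr hx)]; simp
        · rw [ind_neg hx, ind_pos (not_le.mp hx)]
          by_cases hx' : σ x ≤ s
          · rw [ind_pos hx']; nlinarith [h0 x]
          · rw [ind_neg hx']; nlinarith [h0 x]
      have e1 : (s / 2) ^ (1 - γ) = 2 ^ (γ - 1) * s ^ (1 - γ) := by
        rw [Real.div_rpow hs.le (by norm_num), div_eq_mul_inv, ← Real.rpow_neg (by norm_num),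
          neg_sub, mul_comm]
      have e2 : s * (H * (s / 2) ^ (-γ)) = H * 2 ^ γ * s ^ (1 - γ) := by
        rw [Real.div_rpow hs.le (by norm_num), div_eq_mul_inv, ← Real.rpow_neg (by norm_num),
          neg_neg, sub_eq_add_neg, Real.rpow_add hs, Real.rpow_one]
        ring
      have e3 : H * 2 ^ γ = D * (1 - (2 : ℝ) ^ (γ - 1)) := by rw [hD]; field_simp
      rw [e1] at a1
      rw [e2, e3] at a2
      rw [pow_succ]
      linarith
  have lim := ((tendsto_pow_atTop_nhds_zero_of_lt_one (r := (1 / 2 : ℝ)) (by norm_num)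
    (by norm_num)).const_mul (s * ∑ x ∈ T, σ x)).const_add (D * s ^ (1 - γ))
  rw [mul_zero, add_zero] at lim
  exact ge_of_tendsto' lim fun j => key j s hs

lemma xseq_high {H γ : ℝ} (hH : 0 < H) (hγ : 1 < γ) : ∃ D : ℝ, 0 < D ∧ ∀ σ : ι → ℝ,
    (∀ x, 0 ≤ σ x) → (∀ x, σ x ≤ 1) →
    (∀ s, 0 < s → ∀ T : Finset ι, ∑ x ∈ T, σ x * ind (s < σ x) ≤ H * s ^ (-γ)) →
    ∀ s, 0 < s → ∀ T : Finset ι, ∑ x ∈ T, σ x ^ 2 ≤ D * s ^ (1 - γ) + s * ∑ x ∈ T, σ x := by
  have hq : (2 : ℝ) ^ (1 - γ) < 1 := Real.rpow_lt_one_of_one_lt_of_neg (by norm_num) (by linarith)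
  have hq' : 0 < 1 - (2 : ℝ) ^ (1 - γ) := by linarith
  set D := 2 * H / (1 - (2 : ℝ) ^ (1 - γ)) with hD
  refine ⟨D, by positivity, fun σ h0 h1 h s hs T => ?_⟩
  have key : ∀ j : ℕ, ∀ s, 0 < s → 1 ≤ s * 2 ^ j →
      ∑ x ∈ T, σ x ^ 2 * ind (s < σ x) ≤ D * s ^ (1 - γ) := by
    intro j
    induction j with
    | zero =>
      intro s hs hj
      rw [Finset.sum_eq_zero fun x _ => by
        rw [ind_neg (not_lt.mpr ((h1 x).trans (by simpa using hj))), mul_zero]]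
      positivity
    | succ j ih =>
      intro s hs hj
      have a1 := ih (2 * s) (by positivity) (by rw [pow_succ] at hj; linarith)
      have a2 := mul_le_mul_of_nonneg_left (h s hs T) (by positivity : 0 ≤ 2 * s)
      have a3 : ∑ x ∈ T, σ x ^ 2 * ind (s < σ x) ≤ 2 * s * ∑ x ∈ T, σ x * ind (s < σ x)
          + ∑ x ∈ T, σ x ^ 2 * ind (2 * s < σ x) := by
        rw [Finset.mul_sum, ← Finset.sum_add_distrib]
        refine Finset.sum_le_sum fun x _ => ?_
        by_cases hx : 2 * s < σ x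
        · rw [ind_pos hx, ind_pos (by linarith)]; nlinarith [h0 x]
        · rw [ind_neg hx]
          by_cases hx' : s < σ x
          · rw [ind_pos hx']; nlinarith [h0 x]
          · rw [ind_neg hx']; simp
      have e2 : 2 * s * (H * s ^ (-γ)) = 2 * H * s ^ (1 - γ) := by
        rw [sub_eq_add_neg, Real.rpow_add hs, Real.rpow_one]
        ring
      have e3 : 2 * H = D * (1 - (2 : ℝ) ^ (1 - γ)) := by rw [hD]; field_simp
      rw [Real.mul_rpow (by norm_num) hs.le] at a1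
      rw [e2, e3] at a2
      linarith
  obtain ⟨j, hj⟩ := pow_unbounded_of_one_lt (1 / s) (by norm_num : (1 : ℝ) < 2)
  rw [div_lt_iff₀' hs] at hj
  refine le_trans ?_ (add_le_add (key j s hs hj.le) le_rfl)
  rw [Finset.mul_sum, ← Finset.sum_add_distrib]
  refine Finset.sum_le_sum fun x _ => ?_
  by_cases hx : s < σ x
  · rw [ind_pos hx]; nlinarith [h0 x]
  · rw [ind_neg hx]; nlinarith [h0 x]

end Pool.Agent.Lib.MP_6fc7d9_pr
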