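import Pool.Agent.Lib.MP_6fc7d9_pr.XLim
import Pool.Agent.Lib.MP_6fc7d9_pr.XFour
import Pool.Agent.Lib.MP_6fc7d9_pr.XSeq

/-!
Level-set bound for the Fourier transform of the critical two-point function.
-/

namespace Pool.Agent.Lib.MP_6fc7d9_pr
open Finset MeasureTheory Filter Topology

lemma xmain_low {d : ℕ} {H γ : ℝ} (hH : 0 < H) (hγ0 : 0 < γ) (hγ : γ < 1) :
    ∃ K : ℝ, ∀ σ : Zd d → ℝ, (∀ x, 0 ≤ σ x) → Summable σ →
      (∀ s, 0 < s → ∀ T : Finset (Zd d), ∑ x ∈ T, σ x * ind (s < σ x) ≤ H * s ^ (-γ)) →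
      ∀ t, 0 < t →
        (volume.restrict (cube d)).real {θ | t ≤ ‖xF σ θ‖} ≤ K * t ^ (-((1 + γ) / γ)) := by
  have : IsFiniteMeasure (volume.restrict (cube d)) :=
    isFiniteMeasure_restrict.mpr (fourier_compact d).measure_ne_top
  obtain ⟨D, hD, h⟩ := xseq_low (ι := Zd d) hH hγ
  refine ⟨(2 * Real.pi) ^ d * D * (2 * H) ^ ((1 + γ) / γ) / H ^ 2, fun σ h0 hs hl t ht => ?_⟩
  have u0 : 0 < t / (2 * H) := by positivity
  set s := (t / (2 * H)) ^ (-(1 / γ)) with hsd
  have s0 : 0 < s := by positivity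
  have n1 : ∀ x, 0 ≤ σ x * ind (s < σ x) := fun x => mul_nonneg (h0 x) (ind_nonneg _)
  have s1 : Summable fun x => σ x * ind (s < σ x) := summable_of_sum_le n1 (hl s s0)
  have e : (fun x => σ x * ind (σ x ≤ s)) = fun x => σ x - σ x * ind (s < σ x) := funext fun x => by
    rw [ind_congr not_lt.symm, ind_not]; ring
  have s2 : Summable fun x => σ x * ind (σ x ≤ s) := e ▸ hs.sub s1
  have b1 : ∀ θ, ‖xF (fun x => σ x * ind (s < σ x)) θ‖ ≤ t / 2 := fun θ => by
    refine (xF_norm_le s1 θ).trans ?_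
    simp only [abs_of_nonneg (n1 _)]
    refine (Real.tsum_le_of_sum_le n1 (hl s s0)).trans (le_of_eq ?_)
    rw [hsd, ← Real.rpow_mul u0.le, show -(1 / γ) * -γ = 1 by field_simp, Real.rpow_one]
    field_simp
  refine (measureReal_mono (s₂ := {θ | t / 2 ≤ ‖xF (fun x => σ x * ind (σ x ≤ s)) θ‖})
    (fun θ hθ => ?_) (measure_ne_top _ _)).trans ((xF_cheb s2 (half_pos ht) (h σ h0 hl s s0)).trans (le_of_eq ?_))
  · have b2 := norm_sub_norm_le (xF σ θ) (xF (fun x => σ x * ind (s < σ x)) θ)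
    have b3 : t ≤ ‖xF σ θ‖ := hθ
    rw [Set.mem_ofPred_eq, e, xF_sub hs s1]
    linarith [b1 θ]
  · have e1 : s ^ (1 - γ) = (t / (2 * H)) ^ (-((1 + γ) / γ)) * (t / (2 * H)) ^ 2 := by
      rw [hsd, ← Real.rpow_mul u0.le, ← Real.rpow_two, ← Real.rpow_add u0]
      congr 1
      field_simp
      ring
    rw [e1, Real.div_rpow ht.le (by positivity), Real.rpow_neg (by positivity : 0 ≤ 2 * H)]
    field_simp

lemma xmain_high {a t : ℝ} (ha0 : 0 < a) (ha : a < 1 / 3) (ht : 1 ≤ t) : ∃ n : ℕ, 1 ≤ n ∧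
    (n : ℝ) ^ (1 - 3 * a) / t ^ 2 ≤ 2 * t ^ (-((1 - a) / (1 - 2 * a))) ∧
      (n : ℝ) ^ (-a) / t ≤ t ^ (-((1 - a) / (1 - 2 * a))) := by
  have h2 : 0 < 1 - 2 * a := by linarith
  have t0 : 0 < t := by linarith
  have y1 : 1 ≤ t ^ (1 / (1 - 2 * a)) := Real.one_le_rpow ht (by positivity)
  have n1 := Nat.le_ceil (t ^ (1 / (1 - 2 * a)))
  have n2 := Nat.ceil_lt_add_one (zero_le_one.trans y1)
  refine ⟨⌈t ^ (1 / (1 - 2 * a))⌉₊, by exact_mod_cast y1.trans n1, ?_, ?_⟩
  · rw [div_le_iff₀ (by positivity)]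
    refine (Real.rpow_le_rpow (Nat.cast_nonneg _) (show _ ≤ 2 * t ^ (1 / (1 - 2 * a)) by linarith)
      (by linarith)).trans ?_
    rw [Real.mul_rpow (by norm_num) (by positivity), ← Real.rpow_mul t0.le, mul_assoc,
      ← Real.rpow_two, ← Real.rpow_add t0,
      show -((1 - a) / (1 - 2 * a)) + 2 = 1 / (1 - 2 * a) * (1 - 3 * a) by
        rw [one_div_mul_eq_div, eq_div_iff h2.ne', add_mul, neg_mul, div_mul_cancel₀ _ h2.ne']
        ring]
    exact mul_le_mul_of_nonneg_right (Real.rpow_le_self_of_one_le (by norm_num) (by linarith))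
      (by positivity)
  · rw [div_le_iff₀ t0]
    refine (Real.rpow_le_rpow_of_nonpos (by linarith) n1 (by linarith)).trans (le_of_eq ?_)
    rw [← Real.rpow_mul t0.le, ← Real.rpow_add_one t0.ne']
    congr 1
    rw [one_div_mul_eq_div, div_eq_iff h2.ne', add_mul, neg_mul, div_mul_cancel₀ _ h2.ne']
    ring

theorem weak_main {d : ℕ} {α c : ℝ} (hα : 0 < α) (hd : α < d) (h3 : d < 3 * α) (h2 : 2 * α ≠ d)
    (hc : 0 < c) {J : Sym2 (Fin d → ℤ) → ℝ} (hK : Kernel d α c J) :
    ∃ βc : ℝ, IsGLB (supercrit J) βc ∧ ∃ C : ℝ, ∃ f : (Fin d → ℝ) → ℂ,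
      IntegrableOn f (cube d) ∧
      (∀ x : Fin d → ℤ, (twoPt J βc x : ℂ) = ((((2 * Real.pi) ^ d)⁻¹ : ℝ) : ℂ) *
        ∫ θ in cube d, f θ * Complex.exp (-(Complex.I * ((∑ i, θ i * x i : ℝ) : ℂ)))) ∧
      ∀ t : ℝ, 0 < t → volume {θ ∈ cube d | t < ‖f θ‖}
        ≤ ENNReal.ofReal (C * t ^ (-min (d / α) (2 * α / (3 * α - d)))) := by
  have : IsFiniteMeasure (volume.restrict (cube d)) :=
    isFiniteMeasure_restrict.mpr (fourier_compact d).measure_ne_top
  obtain ⟨βc, hglb, hβ, A, hA, htail⟩ := crit_tail hα hd h3 hc hK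
  refine ⟨βc, hglb, ?_⟩
  have hd0 : (0 : ℝ) < d := by linarith
  have hda : 0 < (d : ℝ) + α := by linarith
  have hdm : 0 < (d : ℝ) - α := by linarith
  have h3' : 0 < 3 * α - d := by linarith
  set a : ℝ := (d - α) / (d + α) with ha
  have ha0 : 0 < a := div_pos hdm hda
  have ha1 : a < 1 / 2 := by rw [ha, div_lt_iff₀ hda]; linarith
  have hb : (1 - a) / (1 + a) = α / d := by rw [ha]; field_simp; ring
  have hγ : α / d / (1 - α / d) = α / (d - α) := by field_simp
  set w := βc • J with hwd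
  have hw : ∀ e, 0 ≤ w e := smul_nonneg' hK.nonneg hβ
  have hinv : Inv w := fun u v a => by simp only [hwd, Pi.smul_apply, hK.toInv u v a]
  obtain ⟨C, hC, hset⟩ := set_of_tail hA ha0 ha1.le
  rw [hb] at hset
  have hτ : ∀ x, xT w 0 x = twoPt J βc x := fun x => tendsto_nhds_unique (xT_lim hw hinv 0 x)
    (by simpa only [tau, zero_le, and_true] using tendsto_tau hK.nonneg hβ x)
  set σ : ℕ → Zd d → ℝ := fun n x => xT w 0 x - xT w n x with hσ
  have σ0 : ∀ n x, 0 ≤ σ n x := fun n x => sub_nonneg.mpr (xT_anti hw hinv (Nat.zero_le n) x)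
  have σ1 : ∀ n x, σ n x ≤ xT w 0 x := fun n x => sub_le_self _ (xT_nonneg hw hinv n x)
  have σ2 : ∀ n (T : Finset (Zd d)), ∑ x ∈ T, σ n x ≤ 2 * A * (n : ℝ) ^ (1 - a) := fun n =>
    xT_trunc hw hinv fun U => trunc_of_tail hA.le ha1.le (htail U 0) n
  have σ3 : ∀ n, Summable (σ n) := fun n => summable_of_sum_le (σ0 n) (σ2 n)
  have σ4 : ∀ n s, 0 < s → ∀ T : Finset (Zd d), ∑ x ∈ T, σ n x * ind (s < σ n x)
      ≤ C ^ (1 / (1 - α / d)) * s ^ (-(α / (d - α))) := fun n s hs T => by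
    rw [← hγ]
    exact xseq_level hC (by positivity) ((div_lt_one hd0).mpr hd) (fun T => (Finset.sum_le_sum
      fun x _ => σ1 n x).trans (xT_set hw hinv fun U => hset _ w hw U (htail U) 0 T)) hs T
  have hT : ∀ n : ℕ, 1 ≤ n → ∀ x, xT w n x ≤ A * (n : ℝ) ^ (-a) := fun n hn =>
    xT_le hw hinv fun U => htail U 0 n hn
  have hT0 : ∀ x, Tendsto (fun n => xT w n x) atTop (𝓝 0) := fun x => by
    have := ((tendsto_rpow_neg_atTop ha0).comp (tendsto_natCast_atTop_atTop (R := ℝ))).const_mul A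
    rw [mul_zero] at this
    exact squeeze_zero' (Eventually.of_forall fun n => xT_nonneg hw hinv n x)
      (eventually_atTop.mpr ⟨1, fun n hn => hT n hn x⟩) this
  have hlim : Tendsto (fun n => (2 * Real.pi) ^ d * xT w n 0) atTop (𝓝 0) := by
    simpa only [mul_zero] using (hT0 0).const_mul ((2 * Real.pi) ^ d)
  obtain ⟨f, hf, hft⟩ := xF_limit (fun n => xF_int (σ3 n)) hlim fun n m hnm => by
    have e : (fun x => σ m x - σ n x) = fun x => xT w n x - xT w m x := funext fun x => by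
      simp only [hσ]; ring
    have := xF_pd (e ▸ (σ3 m).sub (σ3 n)) (fun x => by rw [xT_even hw hinv, xT_even hw hinv])
      (xT_pd hw hinv hnm)
    simp only [norm_sub_rev (xF (σ n) _), ← xF_sub (σ3 m) (σ3 n), e, this]
    exact mul_le_mul_of_nonneg_left (sub_le_self _ (xT_nonneg hw hinv m 0)) (by positivity)
  have hsplit : ∀ n t, 0 < t → (volume.restrict (cube d)).real {θ | 2 * t ≤ ‖f θ‖}
      ≤ (volume.restrict (cube d)).real {θ | t ≤ ‖xF (σ n) θ‖}
        + (2 * Real.pi) ^ d * xT w n 0 / t := fun n t ht => by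
    refine (measureReal_mono (s₂ := {θ | t ≤ ‖xF (σ n) θ‖} ∪ {θ | t ≤ ‖xF (σ n) θ - f θ‖})
      (fun θ hθ => ?_) (measure_ne_top _ _)).trans ((measureReal_union_le _ _).trans (add_le_add le_rfl ?_))
    · by_contra hn
      simp only [Set.mem_union, Set.mem_ofPred_eq, not_or, not_le] at hn hθ
      have := norm_sub_norm_le (f θ) (xF (σ n) θ)
      rw [norm_sub_rev] at this
      linarith [hn.1, hn.2]
    · rw [le_div_iff₀' ht]
      exact (mul_meas_ge_le_integral_of_nonneg (Eventually.of_forall fun _ => norm_nonneg _)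
        ((xF_int (σ3 n)).sub hf).norm t).trans (hft n)
  obtain ⟨K, hKb⟩ : ∃ K : ℝ, ∀ t, 0 < t → (volume.restrict (cube d)).real {θ | 2 * t ≤ ‖f θ‖}
      ≤ K * t ^ (-min (d / α) (2 * α / (3 * α - d))) := by
    rcases lt_or_gt_of_ne h2 with h | h
    · obtain ⟨K, hK⟩ := xmain_low (d := d) (H := C ^ (1 / (1 - α / d))) (γ := α / (d - α))
        (by positivity) (by positivity) ((div_lt_one hdm).mpr (by linarith))
      refine ⟨K, fun t ht => ?_⟩
      rw [min_eq_left (by rw [div_le_div_iff₀ hα h3']; nlinarith),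
        show (d : ℝ) / α = (1 + α / (d - α)) / (α / (d - α)) by field_simp; ring]
      have lim := (hlim.div_const t).const_add (K * t ^ (-((1 + α / (d - α)) / (α / (d - α)))))
      rw [zero_div, add_zero] at lim
      exact ge_of_tendsto' lim fun n => (hsplit n t ht).trans
        (add_le_add (hK _ (σ0 n) (σ3 n) (σ4 n) t ht) le_rfl)
    · obtain ⟨D, hD, hh⟩ := xseq_high (ι := Zd d) (H := C ^ (1 / (1 - α / d))) (γ := α / (d - α))
        (by positivity) ((one_lt_div hdm).mpr (by linarith))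
      have ha3 : a < 1 / 3 := by rw [ha, div_lt_iff₀ hda]; linarith
      have hp : 0 ≤ (1 - a) / (1 - 2 * a) := div_nonneg (by linarith) (by linarith)
      refine ⟨(2 * Real.pi) ^ d * ((D + 2 * A) * 2 + A)
        + (volume.restrict (cube d)).real Set.univ, fun t ht => ?_⟩
      rw [min_eq_right (by rw [div_le_div_iff₀ h3' hα]; nlinarith),
        show 2 * α / (3 * α - d) = (1 - a) / (1 - 2 * a) by
          rw [div_eq_div_iff h3'.ne' (by linarith), ha]; field_simp; ring, add_mul]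
      rcases le_total t 1 with ht1 | ht1
      · refine (measureReal_mono (Set.subset_univ _) (measure_ne_top _ _)).trans (le_trans (le_mul_of_one_le_right
          measureReal_nonneg (Real.one_le_rpow_of_pos_of_le_one_of_nonpos ht ht1 (by linarith)))
          (le_add_of_nonneg_left (by positivity)))
      obtain ⟨n, hn, b1, b2⟩ := xmain_high ha0 ha3 ht1
      have n0 : (0 : ℝ) < n := by exact_mod_cast hn
      have b3 : ∀ T : Finset (Zd d), ∑ x ∈ T, σ n x ^ 2 ≤ (D + 2 * A) * (n : ℝ) ^ (1 - 3 * a) :=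
        fun T => by
          refine (hh _ (σ0 n) (fun x => (σ1 n x).trans (xT_le_one hw hinv 0 x)) (σ4 n)
            ((n : ℝ) ^ (-(2 * a))) (by positivity) T).trans ((add_le_add le_rfl
              (mul_le_mul_of_nonneg_left (σ2 n T) (by positivity))).trans (le_of_eq ?_))
          rw [← Real.rpow_mul n0.le, mul_left_comm, ← Real.rpow_add n0,
            show -(2 * a) * (1 - α / (d - α)) = 1 - 3 * a by rw [ha]; field_simp; ring,
            show -(2 * a) + (1 - a) = 1 - 3 * a by ring, add_mul]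
      refine ((hsplit n t ht).trans (add_le_add (xF_cheb (σ3 n) ht b3) le_rfl)).trans
        (le_trans ?_ (le_add_of_nonneg_right (mul_nonneg measureReal_nonneg (by positivity))))
      have b4 := mul_le_mul_of_nonneg_left b1 (by positivity : 0 ≤ D + 2 * A)
      have b5 := (div_le_div_of_nonneg_right (hT n hn 0) ht.le).trans
        ((mul_div_assoc _ _ _).le.trans (mul_le_mul_of_nonneg_left b2 hA.le))
      rw [mul_div_assoc, mul_div_assoc, mul_div_assoc, ← mul_add, mul_assoc ((2 * Real.pi) ^ d)]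
      exact mul_le_mul_of_nonneg_left (by linarith) (by positivity)
  refine ⟨K * 2 ^ min (d / α) (2 * α / (3 * α - d)), f, hf, fun x => ?_, fun t ht => ?_⟩
  · set E : (Fin d → ℝ) → ℂ := fun θ =>
      Complex.exp (-(Complex.I * ((∑ i, θ i * x i : ℝ) : ℂ))) with hE
    have En : ∀ θ, ‖E θ‖ = 1 := fun θ => by
      simp only [hE]; rw [← mul_neg, ← Complex.ofReal_neg, fourier_norm]
    have Ei : ∀ g : (Fin d → ℝ) → ℂ, IntegrableOn g (cube d) →
        Integrable (fun θ => g θ * E θ) (volume.restrict (cube d)) := fun g hg =>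
      Integrable.mul_bdd hg (Continuous.aestronglyMeasurable (by simp only [hE]; fun_prop))
        (Eventually.of_forall fun θ => (En θ).le)
    have l1 : Tendsto (fun n => ∫ θ in cube d, xF (σ n) θ * E θ) atTop
        (𝓝 (∫ θ in cube d, f θ * E θ)) := by
      refine tendsto_iff_norm_sub_tendsto_zero.mpr (squeeze_zero (fun _ => norm_nonneg _)
        (fun n => le_trans ?_ (hft n)) hlim)
      rw [← integral_sub (Ei _ (xF_int (σ3 n))) (Ei _ hf)]
      refine (norm_integral_le_integral_norm _).trans (le_of_eq ?_)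
      simp only [← sub_mul, norm_mul, En, mul_one]
    have l2 : Tendsto (fun n => ∫ θ in cube d, xF (σ n) θ * E θ) atTop
        (𝓝 ((((2 * Real.pi) ^ d : ℝ) : ℂ) * ((xT w 0 x - 0 : ℝ) : ℂ))) :=
      (((Complex.continuous_ofReal.tendsto _).comp ((hT0 x).const_sub _)).const_mul _).congr
        fun n => (inversion (σ3 n) x).symm
    have hpi : (((2 * Real.pi) ^ d : ℝ) : ℂ) ≠ 0 := by
      exact_mod_cast (pow_pos Real.two_pi_pos d).ne'
    rw [tendsto_nhds_unique l1 l2, sub_zero, hτ, Complex.ofReal_inv, inv_mul_cancel_left₀ hpi]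
  · have b := hKb (t / 2) (half_pos ht)
    rw [Real.div_rpow ht.le (by norm_num), div_eq_mul_inv (t ^ _), ← Real.rpow_neg (by norm_num),
      neg_neg,
      mul_comm (t ^ _), ← mul_assoc] at b
    refine le_trans ?_ ((ENNReal.ofReal_toReal (measure_ne_top _ _)).ge.trans
      (ENNReal.ofReal_le_ofReal b))
    rw [Measure.restrict_apply' (fourier_compact d).measurableSet]
    exact measure_mono fun θ hθ => ⟨by rw [Set.mem_ofPred_eq]; linarith [hθ.2], hθ.1⟩

end Pool.Agent.Lib.MP_6fc7d9_pr
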